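import Pool.Agent.NS.StRN
import Pool.Agent.MU3.E_RAM
import Pool.Agent.MUX.UAll

/-!
# MUX-NS, block RN: module LIF, lifting of elements of the inertia group (helper13)
-/

set_option autoImplicit false

namespace Pool.Agent.NSR

open _root_.MU3 Pool.Agent.MU3A Pool.Agent.MU3B Pool.Agent.RI Pool.Agent.MUX Pool.Agent.MUXU
open Pool.Agent.NS Pool.Agent.MU3E.RAM
open NumberField IsDedekindDomain
open scoped Pointwise

noncomputable section

namespace LIF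

lemma wsq {A B : ℤ} (h : CQ A B) : wC A B * wC A B = A + B * wC A B := by
  have h0 : 0 < absD A B := by
    have := h.neg
    unfold absD
    omega
  have h1 : (0 : ℝ) ≤ (absD A B : ℝ) := by exact_mod_cast h0.le
  have h2 : ((Real.sqrt (absD A B) : ℝ) : ℂ) ^ 2 = (absD A B : ℂ) := by
    rw [← Complex.ofReal_pow, Real.sq_sqrt h1]
    norm_num
  have h3 : Complex.I ^ 2 = -1 := Complex.I_sq
  have h4 : (absD A B : ℂ) = -((B : ℂ) ^ 2 + 4 * A) := by simp [absD]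
  unfold wC
  linear_combination (Complex.I ^ 2 / 4) * h2 + ((absD A B : ℂ) / 4) * h3 - (1 / 4) * h4

section abstract_part

variable {V : ValuationSubring ℂ} {F E : Type} [Field F] [NumberField F] [Field E] [NumberField E]
  [Algebra F E] (io : E →+* ℂ)

/-- an additive map which is trivial modulo the prime on integers is trivial on the valuation ring -/
theorem of_int {w : HeightOneSpectrum (𝓞 E)}
    (hw : ∀ x : 𝓞 E, x ∈ w.asIdeal ↔ V.valuation (io x) < 1) (τ : E ≃+* E)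
    (hτ : ∀ x : 𝓞 E, V.valuation (io (τ (x : E)) - io (x : E)) < 1) (x : E)
    (hx : V.valuation (io x) ≤ 1) : V.valuation (io (τ x) - io x) < 1 := by
  obtain ⟨n, d, hnd⟩ := w.exists_primeCompl_mul_eq_of_integer x (le_ord io hw hx)
  have hd1 : V.valuation (io ((d : 𝓞 E) : E)) = 1 := val_notMem io hw (x := d) d.2
  have hd3 := hτ (d : 𝓞 E)
  have hn := hτ n
  have hd2 : V.valuation (io (τ ((d : 𝓞 E) : E))) = 1 := by
    have h := V.valuation.map_add_eq_of_lt_right (x := io (τ ((d : 𝓞 E) : E)) - io ((d : 𝓞 E) : E))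
      (y := io ((d : 𝓞 E) : E)) (by rw [hd1]; exact hd3)
    rw [sub_add_cancel, hd1] at h
    exact h
  have hd0 : ((d : 𝓞 E) : E) ≠ 0 := by
    intro h
    rw [h, map_zero, map_zero] at hd1
    exact zero_ne_one hd1
  have hσd0 : τ ((d : 𝓞 E) : E) ≠ 0 := (map_ne_zero τ).2 hd0
  have hnd' : x * ((d : 𝓞 E) : E) = ((n : 𝓞 E) : E) := hnd
  have hnd2 : τ x * τ ((d : 𝓞 E) : E) = τ ((n : 𝓞 E) : E) := by rw [← map_mul, hnd']
  have e1 : io (τ x) - io x = ((io (τ ((n : 𝓞 E) : E)) - io ((n : 𝓞 E) : E)) * io ((d : 𝓞 E) : E)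
      - io ((n : 𝓞 E) : E) * (io (τ ((d : 𝓞 E) : E)) - io ((d : 𝓞 E) : E)))
        / (io ((d : 𝓞 E) : E) * io (τ ((d : 𝓞 E) : E))) := by
    have i1 : io ((d : 𝓞 E) : E) ≠ 0 := (map_ne_zero io).2 hd0
    have i2 : io (τ ((d : 𝓞 E) : E)) ≠ 0 := (map_ne_zero io).2 hσd0
    rw [← hnd2, ← hnd', map_mul, map_mul]
    field_simp
    ring
  rw [e1, map_div₀, map_mul V.valuation (io ((d : 𝓞 E) : E)), hd1, hd2, one_mul, div_one]
  refine lt_of_le_of_lt (V.valuation.map_sub _ _) (max_lt ?_ ?_)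
  · rw [map_mul, hd1, mul_one]
    exact hn
  · rw [map_mul]
    exact mul_lt_one_of_nonneg_of_lt_one_right (int_le io n) zero_le hd3

theorem lift_aux [IsGalois F E] {w : HeightOneSpectrum (𝓞 E)}
    (hw : ∀ x : 𝓞 E, x ∈ w.asIdeal ↔ V.valuation (io x) < 1) (τ₀ : E ≃+* E) (σ₁ : F ≃+* F)
    (hc : ∀ x : F, τ₀ (algebraMap F E x) = algebraMap F E (σ₁ x))
    (h0 : ∀ x : 𝓞 F, V.valuation (io (algebraMap F E (σ₁ (x : F))) -
      io (algebraMap F E (x : F))) < 1) :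
    ∃ γ : E ≃ₐ[F] E, ∀ x : 𝓞 E, V.valuation (io (γ (τ₀ (x : E))) - io (x : E)) < 1 := by
  set Q : Ideal (𝓞 E) := w.asIdeal with hQ
  have hQp : Q.IsPrime := w.isPrime
  let t : 𝓞 E ≃+* 𝓞 E := RingOfIntegers.mapRingEquiv τ₀
  have ht : ∀ x : 𝓞 E, ((t x : 𝓞 E) : E) = τ₀ (x : E) := fun x => rfl
  have hts : ∀ x : 𝓞 E, ((t.symm x : 𝓞 E) : E) = τ₀.symm (x : E) := fun x => rfl
  let s : 𝓞 F ≃+* 𝓞 F := RingOfIntegers.mapRingEquiv σ₁
  have hs : ∀ x : 𝓞 F, ((s x : 𝓞 F) : F) = σ₁ (x : F) := fun x => rfl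
  have hal : ∀ x : 𝓞 F, ((algebraMap (𝓞 F) (𝓞 E) x : 𝓞 E) : E) = algebraMap F E (x : F) :=
    fun x => rfl
  have hts' : ∀ x : 𝓞 F, t (algebraMap (𝓞 F) (𝓞 E) x) = algebraMap (𝓞 F) (𝓞 E) (s x) := by
    intro x
    apply RingOfIntegers.ext
    rw [ht, hal, hal, hs, hc]
  have htss : ∀ x : 𝓞 F,
      t.symm (algebraMap (𝓞 F) (𝓞 E) x) = algebraMap (𝓞 F) (𝓞 E) (s.symm x) := by
    intro x
    rw [RingEquiv.symm_apply_eq, hts', RingEquiv.apply_symm_apply]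
  -- the value of `s x`
  have hsv : ∀ x : 𝓞 F, algebraMap (𝓞 F) (𝓞 E) (s x) - algebraMap (𝓞 F) (𝓞 E) x ∈ Q := by
    intro x
    rw [hw]
    have h := h0 x
    have e : io ((algebraMap (𝓞 F) (𝓞 E) (s x) - algebraMap (𝓞 F) (𝓞 E) x : 𝓞 E) : E) =
        io (algebraMap F E (σ₁ (x : F))) - io (algebraMap F E (x : F)) := by
      rw [← map_sub io]
      exact congrArg io (map_sub (algebraMap (𝓞 E) E) _ _)
    rw [e]
    exact h
  -- the ideal `t Q`
  set Q' : Ideal (𝓞 E) := Q.comap (t.symm : 𝓞 E →+* 𝓞 E) with hQ'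
  have hQ'p : Q'.IsPrime := Ideal.comap_isPrime _ _
  have hmem' : ∀ x : 𝓞 E, x ∈ Q' ↔ t.symm x ∈ Q := fun x => Iff.rfl
  have hund : Q.under (𝓞 F) = Q'.under (𝓞 F) := by
    ext x
    have h1 : x ∈ Q.under (𝓞 F) ↔ algebraMap (𝓞 F) (𝓞 E) x ∈ Q := Iff.rfl
    have h2 : x ∈ Q'.under (𝓞 F) ↔ algebraMap (𝓞 F) (𝓞 E) x ∈ Q' := Iff.rfl
    rw [h1, h2, hmem', htss]
    have h3 := hsv (s.symm x)
    rw [RingEquiv.apply_symm_apply] at h3
    constructor
    · intro h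
      have h4 := Q.sub_mem h h3
      rwa [sub_sub_cancel] at h4
    · intro h
      have h4 := Q.add_mem h3 h
      rwa [sub_add_cancel] at h4
  obtain ⟨g, hg⟩ := Algebra.IsInvariant.exists_smul_of_under_eq (𝓞 F) (𝓞 E) (E ≃ₐ[F] E) Q Q' hund
  have hcoe : ∀ (g : E ≃ₐ[F] E) (y : 𝓞 E), ((g • y : 𝓞 E) : E) = g (y : E) := fun g y => rfl
  have hsm : ∀ (g : E ≃ₐ[F] E) (x : 𝓞 F),
      g • (algebraMap (𝓞 F) (𝓞 E) x) = algebraMap (𝓞 F) (𝓞 E) x := by
    intro g x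
    apply RingOfIntegers.ext
    rw [hcoe, hal, g.commutes]
  -- `t₁ = g⁻¹ t` maps `Q` to itself
  have hgm : ∀ x : 𝓞 E, g⁻¹ • t x ∈ Q ↔ x ∈ Q := by
    intro x
    have h1 : t x ∈ Q' ↔ x ∈ Q := by rw [hmem', RingEquiv.symm_apply_apply]
    rw [← h1, hg, Ideal.mem_pointwise_smul_iff_inv_smul_mem]
  let t₁ : 𝓞 E ≃+* 𝓞 E := t.trans (MulSemiringAction.toRingEquiv (E ≃ₐ[F] E) (𝓞 E) g⁻¹)
  have ht₁ : ∀ x, t₁ x = g⁻¹ • t x := fun x => rfl
  have hQt : Q = Q.comap (t₁ : 𝓞 E →+* 𝓞 E) := by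
    ext x
    exact (hgm x).symm
  have hQm : Q = Q.map (t₁ : 𝓞 E →+* 𝓞 E) := by
    conv_rhs => rw [hQt]
    exact (Ideal.map_comap_of_surjective _ t₁.surjective Q).symm
  set P : Ideal (𝓞 F) := Q.under (𝓞 F) with hP
  have hlo : Q.LiesOver P := ⟨rfl⟩
  let f : (𝓞 E ⧸ Q) ≃+* (𝓞 E ⧸ Q) := Ideal.quotientEquiv Q Q t₁ hQm
  have hf : ∀ x : 𝓞 E, f (Ideal.Quotient.mk Q x) = Ideal.Quotient.mk Q (t₁ x) := fun x => rfl
  let fa : (𝓞 E ⧸ Q) ≃ₐ[𝓞 F ⧸ P] (𝓞 E ⧸ Q) := AlgEquiv.ofRingEquiv (f := f) (by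
    intro r
    obtain ⟨x, rfl⟩ := Ideal.Quotient.mk_surjective r
    have h1 : algebraMap (𝓞 F ⧸ P) (𝓞 E ⧸ Q) (Ideal.Quotient.mk P x) =
        Ideal.Quotient.mk Q (algebraMap (𝓞 F) (𝓞 E) x) := rfl
    rw [h1, hf, ht₁, hts', hsm, Ideal.Quotient.mk_eq_mk_iff_sub_mem]
    exact hsv x)
  obtain ⟨h, hh⟩ := Ideal.Quotient.stabilizerHom_surjective (E ≃ₐ[F] E) P Q fa
  refine ⟨(h : E ≃ₐ[F] E)⁻¹ * g⁻¹, fun x => ?_⟩
  have h1 : (Ideal.Quotient.mk Q ((h : E ≃ₐ[F] E) • x)) = Ideal.Quotient.mk Q (t₁ x) := by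
    have h2 := congrArg (fun a : (𝓞 E ⧸ Q) ≃ₐ[𝓞 F ⧸ P] (𝓞 E ⧸ Q) => a (Ideal.Quotient.mk Q x)) hh
    exact h2
  rw [Ideal.Quotient.mk_eq_mk_iff_sub_mem] at h1
  have hst : (h : E ≃ₐ[F] E) • Q = Q := h.2
  have h3 : (h : E ≃ₐ[F] E)⁻¹ • ((h : E ≃ₐ[F] E) • x - t₁ x) ∈ Q := by
    rw [← Ideal.mem_pointwise_smul_iff_inv_smul_mem, hst]
    exact h1
  rw [smul_sub, inv_smul_smul, ht₁] at h3
  have h4 := (hw _).1 h3
  have e : io ((x - (h : E ≃ₐ[F] E)⁻¹ • g⁻¹ • t x : 𝓞 E) : E) =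
      -(io (((h : E ≃ₐ[F] E)⁻¹ * g⁻¹) (τ₀ (x : E))) - io (x : E)) := by
    rw [neg_sub, ← map_sub io]
    exact congrArg io (map_sub (algebraMap (𝓞 E) E) _ _)
  rw [e, Valuation.map_neg] at h4
  exact h4

end abstract_part

end LIF

open LIF in
theorem tr_LIF : Sr_LIF := by
  intro A B V hAB hv3 F₁ M _ _ _ σ hσ hσF
  have hwC : σ (wC A B) = wC A B := hσ
  -- sigma fixes `k`
  have hfix : ∀ x ∈ kk A B, σ x = x := by
    intro x hx
    refine IntermediateField.adjoin_induction ℚ (p := fun x _ => σ x = x) ?_ ?_ ?_ ?_ ?_ hx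
    · intro y hy
      rw [Set.mem_singleton_iff] at hy
      rw [hy, hwC]
    · intro r
      rw [eq_ratCast, map_ratCast]
    · intro a b _ _ ha hb
      rw [map_add, ha, hb]
    · intro a _ ha
      rw [map_inv₀, ha]
    · intro a b _ _ ha hb
      rw [map_mul, ha, hb]
  have hfd : FiniteDimensional ℚ (kk A B) := by
    apply IntermediateField.adjoin.finiteDimensional
    refine ⟨Polynomial.X ^ 2 - Polynomial.C (B : ℚ) * Polynomial.X - Polynomial.C (A : ℚ), ?_, ?_⟩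
    · monicity!
    · have h := wsq hAB
      simp only [Polynomial.eval₂_sub, Polynomial.eval₂_mul, Polynomial.eval₂_pow,
        Polynomial.eval₂_X, Polynomial.eval₂_C]
      rw [pow_two, h]
      simp
  have hk : NumberField (kk A B) := ⟨⟩
  let σK : ℂ ≃ₐ[kk A B] ℂ := AlgEquiv.ofRingEquiv (f := σ) (fun x => hfix x x.2)
  have hσK : ∀ x, σK x = σ x := fun x => rfl
  -- the normal closure
  have hfin : FiniteDimensional (kk A B) ↥(F₁ ⊔ M) := inferInstance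
  obtain ⟨α, hα⟩ := Field.exists_primitive_element (kk A B) ↥(F₁ ⊔ M)
  have hαi : IsIntegral (kk A B) (α : ℂ) := by
    have h : IsIntegral (kk A B) α := Algebra.IsIntegral.isIntegral α
    exact h.map (IntermediateField.val _)
  set pol := minpoly (kk A B) (α : ℂ) with hpol
  let E : IntermediateField (kk A B) ℂ := IntermediateField.adjoin (kk A B) (pol.rootSet ℂ)
  have hsf : pol.IsSplittingField (kk A B) E :=
    IntermediateField.adjoin_rootSet_isSplittingField (IsAlgClosed.splits _)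
  have hαE : (α : ℂ) ∈ E := by
    apply IntermediateField.subset_adjoin
    rw [Polynomial.mem_rootSet]
    exact ⟨minpoly.ne_zero hαi, minpoly.aeval _ _⟩
  have hle : F₁ ⊔ M ≤ E := by
    have h1 : IntermediateField.lift (IntermediateField.adjoin (kk A B) {α}) = F₁ ⊔ M := by
      rw [hα, IntermediateField.lift_top]
    rw [← h1, IntermediateField.lift_adjoin_simple, IntermediateField.adjoin_le_iff,
      Set.singleton_subset_iff]
    exact hαE
  have hE1 : F₁ ≤ E := le_sup_left.trans hle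
  have hE2 : M ≤ E := le_sup_right.trans hle
  have hEf : FiniteDimensional (kk A B) E := Polynomial.IsSplittingField.finiteDimensional E pol
  have hEn : Normal (kk A B) E := Normal.of_isSplittingField pol
  have hEg : IsGalois (kk A B) E := ⟨⟩
  have hFf : FiniteDimensional (kk A B) F₁ := inferInstance
  have hF1 : NumberField F₁ :=
    { to_finiteDimensional := FiniteDimensional.trans ℚ (kk A B) F₁ }
  have hE3 : NumberField E :=
    { to_finiteDimensional := FiniteDimensional.trans ℚ (kk A B) E }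
  let alg : Algebra F₁ E := (IntermediateField.inclusion hE1).toRingHom.toAlgebra
  have halg : ∀ x : F₁, ((algebraMap F₁ E x : E) : ℂ) = (x : ℂ) := fun x => rfl
  have tower : IsScalarTower (kk A B) F₁ E := IsScalarTower.of_algebraMap_eq (fun x => rfl)
  have hgal : IsGalois F₁ E := IsGalois.tower_top_of_isGalois (kk A B) F₁ E
  -- restrictions of sigma
  let τ₀ : E ≃ₐ[kk A B] E := σK.restrictNormal E
  have hτ₀ : ∀ x : E, ((τ₀ x : E) : ℂ) = σ (x : ℂ) := fun x =>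
    AlgEquiv.restrictNormal_commutes σK E x
  let σ₁ : F₁ ≃ₐ[kk A B] F₁ := σK.restrictNormal F₁
  have hσ₁ : ∀ x : F₁, ((σ₁ x : F₁) : ℂ) = σ (x : ℂ) := fun x =>
    AlgEquiv.restrictNormal_commutes σK F₁ x
  let io : E →+* ℂ := algebraMap E ℂ
  have hio : ∀ x : E, io x = (x : ℂ) := fun x => rfl
  have e3 : io ((3 : 𝓞 E) : E) = 3 := by
    have h : ((3 : 𝓞 E) : E) = 3 := map_ofNat (algebraMap (𝓞 E) E) 3
    rw [h, map_ofNat]
  obtain ⟨w, hw⟩ := exists_prime (V := V) io (z := (3 : 𝓞 E)) (by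
    intro h
    rw [h] at e3
    have h2 : io ((0 : 𝓞 E) : E) = 0 := by
      have h : ((0 : 𝓞 E) : E) = 0 := map_zero (algebraMap (𝓞 E) E)
      rw [h, map_zero]
    rw [h2] at e3
    exact three_ne_zero e3.symm) (by
    rw [e3]
    exact hv3)
  obtain ⟨γ, hγ⟩ := lift_aux (V := V) io hw (τ₀ : E ≃+* E) (σ₁ : F₁ ≃+* F₁) (by
    intro x
    apply Subtype.ext
    exact (hτ₀ _).trans (hσ₁ x).symm) (by
    intro x
    have h1 := hσF (x : F₁) (x : F₁).2 (by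
      exact int_le (V := V) (algebraMap F₁ ℂ) x)
    have h2 : io (algebraMap F₁ E ((σ₁ : F₁ ≃+* F₁) (x : F₁))) = σ ((x : F₁) : ℂ) := hσ₁ x
    rw [h2]
    exact h1)
  -- the automorphism of `E`
  let τ : E ≃+* E := (τ₀ : E ≃+* E).trans (γ : E ≃+* E)
  have hτ : ∀ x : E, τ x = γ (τ₀ x) := fun x => rfl
  have hτF : ∀ x : F₁, τ (algebraMap F₁ E x) = algebraMap F₁ E (σ₁ x) := by
    intro x
    rw [hτ]
    have h : τ₀ (algebraMap F₁ E x) = algebraMap F₁ E (σ₁ x) := by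
      apply Subtype.ext
      exact (hτ₀ _).trans (hσ₁ x).symm
    rw [h, γ.commutes]
  have hfin2 := of_int (V := V) io hw τ (fun x => hγ x)
  let EQ : IntermediateField ℚ ℂ := E.restrictScalars ℚ
  have hEQ : Algebra.IsAlgebraic ℚ EQ := by
    have : FiniteDimensional ℚ E := hE3.to_finiteDimensional
    have h2 : FiniteDimensional ℚ EQ := this
    exact Algebra.IsAlgebraic.of_finite ℚ EQ
  obtain ⟨σ', hσ'⟩ := u_AUE EQ hEQ (io.comp (τ : E →+* E))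
  have hσ'2 : ∀ x : E, σ' (x : ℂ) = ((τ x : E) : ℂ) := fun x => hσ' x
  have hF' : ∀ y ∈ F₁, σ' y = σ y := by
    intro y hy
    have h1 := hσ'2 (algebraMap F₁ E ⟨y, hy⟩)
    rw [hτF, halg, halg] at h1
    rw [h1, hσ₁]
  refine ⟨σ', ?_, hF', ?_⟩
  · have h1 : wC A B ∈ F₁ := F₁.algebraMap_mem (⟨wC A B, wC_mem A B⟩ : kk A B)
    have h2 := hF' _ h1
    rw [hwC] at h2
    exact h2
  · intro y hy hvy
    have h1 := hfin2 ⟨y, hE2 hy⟩ hvy
    have h2 := hσ'2 ⟨y, hE2 hy⟩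
    rw [hio, hio, ← h2] at h1
    exact h1

end

end Pool.Agent.NSR
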