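import Pool.Agent.NS.StRN
import Pool.Agent.MUX.XLib

/-!
# MUX-NS, block RN: an automorphism in the inertia group fixes `lam` (UNQ)
-/

set_option autoImplicit false

open WeierstrassCurve Polynomial

namespace Pool.Agent.NSR

open _root_.MU3 Pool.Agent.MU3A Pool.Agent.MU3B Pool.Agent.RI Pool.Agent.MUX Pool.Agent.MUXU
open Pool.Agent.MUXV (GR InK tX)
open Pool.Agent.NS

noncomputable section

namespace UNQ

theorem per (L : PeriodPair) {z w : ℂ} (h : w - z ∈ L.lattice) :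
    L.weierstrassP w = L.weierstrassP z ∧ L.derivWeierstrassP w = L.derivWeierstrassP z := by
  have e : w = z + ((⟨w - z, h⟩ : L.lattice) : ℂ) := by
    change w = z + (w - z)
    ring
  rw [e, PeriodPair.weierstrassP_add_coe, PeriodPair.derivWeierstrassP_add_coe]
  exact ⟨rfl, rfl⟩

theorem al_eq (A B : ℤ) : al A B = 1 + 2 * wC A B := by
  simp [al, alO, emb]

/-- natural numbers have valuation at most one -/
theorem v_nat (V : ValuationSubring ℂ) (n : ℕ) : V.valuation (n : ℂ) ≤ 1 := by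
  rw [ValuationSubring.valuation_le_one_iff]
  exact natCast_mem V n

/-- the exact order of a point killed by `N` -/
theorem order (L : PeriodPair) (V : ValuationSubring ℂ) {N : ℕ} (hN : Odd N)
    (vN : V.valuation (N : ℂ) = 1) {q : ℂ} (hq : q ∉ L.lattice) (hNq : (N : ℂ) * q ∈ L.lattice) :
    ∃ n : ℕ, Odd n ∧ 1 < n ∧ V.valuation (n : ℂ) = 1 ∧ (n : ℂ) * q ∈ L.lattice ∧
      ∀ k : ℕ, 0 < k → k < n → (k : ℂ) * q ∉ L.lattice := by
  classical
  have hN0 : 0 < N := hN.pos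
  have hex : ∃ n : ℕ, 0 < n ∧ (n : ℂ) * q ∈ L.lattice := ⟨N, hN0, hNq⟩
  obtain ⟨h1, h2⟩ := Nat.find_spec hex
  have h3 : ∀ k : ℕ, 0 < k → k < Nat.find hex → (k : ℂ) * q ∉ L.lattice :=
    fun k hk0 hk hkq => Nat.find_min hex hk ⟨hk0, hkq⟩
  set n := Nat.find hex with hn
  -- `n` divides `N`
  have hdvd : n ∣ N := by
    by_contra hnd
    have h4 : 0 < N % n := Nat.pos_of_ne_zero fun h5 => hnd (Nat.dvd_of_mod_eq_zero h5)
    refine h3 (N % n) h4 (Nat.mod_lt _ h1) ?_
    have h5 : ((N % n : ℕ) : ℂ) * q = (N : ℂ) * q - (N / n : ℕ) • ((n : ℂ) * q) := by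
      have h6 : ((N : ℕ) : ℂ) = (n : ℂ) * (N / n : ℕ) + (N % n : ℕ) := by
        exact_mod_cast (Nat.div_add_mod N n).symm
      rw [nsmul_eq_mul, h6]
      ring
    rw [h5]
    exact sub_mem hNq (nsmul_mem h2 _)
  refine ⟨n, ?_, ?_, ?_, h2, h3⟩
  · exact Odd.of_dvd_nat hN hdvd
  · by_contra hc
    have h4 : n = 1 := by omega
    rw [h4, Nat.cast_one, one_mul] at h2
    exact hq h2
  · obtain ⟨m, hm⟩ := hdvd
    have h4 : V.valuation (n : ℂ) * V.valuation (m : ℂ) = 1 := by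
      rw [← map_mul, ← Nat.cast_mul, ← hm, vN]
    refine le_antisymm (v_nat V n) ?_
    calc (1 : V.ValueGroup) = V.valuation (n : ℂ) * V.valuation (m : ℂ) := h4.symm
      _ ≤ V.valuation (n : ℂ) * 1 := mul_le_mul_right (v_nat V m) _
      _ = V.valuation (n : ℂ) := mul_one _

end UNQ

open UNQ in
/-- (UNQ) the hypotheses `Su_` are the theorems `u_` of `MUX/UAll.lean` -/
theorem tr_UNQ (h1 : Sr_LGF) (h2 : Sr_RED) (h3 : Sr_TOR) (h4 : Sr_TWO) (h5 : Sr_CMI)
    (h6 : Sr_CLO) (u1 : Su_BAC) (u2 : Su_CJE) (u3 : Su_PHI) (u4 : Su_TSN) : Sr_UNQ := by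
  intro A B V N hC b L om hL u e lam hLeg hlamV σ hσ hσlam hX
  obtain ⟨-, -, -, -, -, ⟨w, hw, h2w, hPw⟩, -⟩ := h1 L u e lam hLeg
  obtain ⟨-, vlam1, vlam, -⟩ := h2 A B V N hC b L om hL u e lam hLeg hlamV
  have hcm : HasCM A B L := hL.hasCM hC.cq
  -- the conjugate lattice
  obtain ⟨L', hcj⟩ := u2 σ L
  obtain ⟨Φ, hΦ⟩ := u3 σ L L' hcj
  obtain ⟨tsn, -⟩ := u4 σ L L' Φ hcj hΦ
  have hσ2 : σ 2 = 2 := map_ofNat σ 2
  have hσu : σ u ≠ 0 := by
    rw [Ne, map_eq_zero_iff σ σ.injective]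
    exact hLeg.u0
  have hxu : ∀ z, z ∉ L.lattice → xu L' (σ u) (σ e) (Φ z) = σ (xu L u e z) := by
    intro z hz
    unfold xu
    rw [hΦ.P z hz, map_div₀, map_sub, map_pow]
  have hyu : ∀ z, z ∉ L.lattice → yu L' (σ u) (Φ z) = σ (yu L u z) := by
    intro z hz
    unfold yu
    rw [hΦ.P' z hz, map_div₀, map_mul, map_pow, hσ2]
  have hLeg' : Leg L' (σ u) (σ e) (σ lam) := by
    refine ⟨hσu, fun z' hz' => ?_⟩
    obtain ⟨z, hz⟩ := hΦ.surj z'
    have hzL : z ∉ L.lattice := by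
      intro h7
      apply hz'
      have h8 := sub_mem ((hΦ.mem z).2 h7) hz
      rwa [sub_sub_cancel] at h8
    obtain ⟨e1, e2⟩ := per L' hz
    rw [← e1, ← e2]
    have h8 := hxu z hzL
    have h9 := hyu z hzL
    unfold xu at h8
    unfold yu at h9
    rw [h8, h9]
    have h10 := congrArg σ (hLeg.eq z hzL)
    rw [map_pow, map_mul, map_mul, map_sub, map_sub, map_one] at h10
    exact h10
  by_contra hne
  set δ : ℂ := σ lam - lam with hδ
  have hδ0 : δ ≠ 0 := sub_ne_zero.2 hne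
  have hvδ : V.valuation δ ≠ 0 := by
    rw [Ne, map_eq_zero]
    exact hδ0
  -- the multiplier `α`
  have hN1 := hC.one
  have hal0 : al A B ≠ 0 := by
    intro h0
    have h7 := hC.nrm
    rw [h0, mul_zero] at h7
    have h8 : N = 0 := by exact_mod_cast h7
    omega
  have hisg : Isg L L (al A B) := fun z hz => hcm (alO A B) z hz
  obtain ⟨⟨R, hR⟩, -⟩ := u1.2 L L (al A B) hal0 hisg
  have hNal : ∀ z, al A B * z ∈ L.lattice → (N : ℂ) * z ∈ L.lattice := by
    intro z hz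
    have h7 := hcm (alO' A B) _ hz
    rwa [← mul_assoc, ← hC.nrm] at h7
  have hσal : σ (al A B) = al A B := by
    rw [al_eq, map_add, map_mul, map_one, hσ2]
    have h7 : σ (wC A B) = wC A B := hσ
    rw [h7]
  -- the points `q`
  have hXq : ∀ q ∈ R, V.valuation (xu L u e q) ≤ 1 := fun q hq =>
    (h3 V L u e lam hC.v2 hlamV hLeg N hC.vN q (hR.ne q hq) (hNal q (hR.mem q hq))).1
  have hwN : ∀ q ∈ R, q + w ∉ L.lattice := by
    intro q hq hqw
    have h7 := sub_mem (hisg _ hqw) (hR.mem q hq)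
    rw [mul_add, add_sub_cancel_left] at h7
    have h8 := hNal w h7
    obtain ⟨k, hk⟩ := hC.odd
    apply hw
    have h9 : w = (N : ℂ) * w - k • (2 * w) := by
      rw [hk, nsmul_eq_mul]
      push_cast
      ring
    rw [h9]
    exact sub_mem h8 (nsmul_mem h2w k)
  have hXqw : ∀ q ∈ R, V.valuation (xu L u e (q + w)) ≤ 1 := by
    intro q hq
    have hv : V.valuation ((2 * N : ℕ) : ℂ) = 1 := by
      push_cast
      rw [map_mul, hC.v2, hC.vN, one_mul]
    refine (h3 V L u e lam hC.v2 hlamV hLeg (2 * N) hv (q + w) (hwN q hq) ?_).1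
    have h7 : ((2 * N : ℕ) : ℂ) * (q + w) = 2 • ((N : ℂ) * q) + N • (2 * w) := by
      rw [nsmul_eq_mul, nsmul_eq_mul]
      push_cast
      ring
    rw [h7]
    exact add_mem (nsmul_mem (hNal q (hR.mem q hq)) 2) (nsmul_mem h2w N)
  have hprod : ∀ q ∈ R, xu L u e (q + w) * xu L u e q = lam := fun q hq =>
    h4 L u e lam w hLeg hw h2w hPw q (hR.ne q hq) (hwN q hq)
  have hvq : ∀ q ∈ R, V.valuation (xu L u e q) = 1 ∧ V.valuation (xu L u e (q + w)) = 1 := by
    intro q hq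
    have h7 := congrArg V.valuation (hprod q hq)
    rw [map_mul, vlam] at h7
    constructor
    · refine le_antisymm (hXq q hq) ?_
      calc (1 : V.ValueGroup) = V.valuation (xu L u e (q + w)) * V.valuation (xu L u e q) := h7.symm
        _ ≤ 1 * V.valuation (xu L u e q) := mul_le_mul_left (hXqw q hq) _
        _ = V.valuation (xu L u e q) := one_mul _
    · refine le_antisymm (hXqw q hq) ?_
      calc (1 : V.ValueGroup) = V.valuation (xu L u e (q + w)) * V.valuation (xu L u e q) := h7.symm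
        _ ≤ V.valuation (xu L u e (q + w)) * 1 := mul_le_mul_right (hXq q hq) _
        _ = V.valuation (xu L u e (q + w)) := mul_one _
  -- (CLO)
  have hclo : ∀ q ∈ R, V.valuation (σ (xu L u e q) - xu L u e q) ≤ V.valuation δ := by
    intro q hq
    have hqL := hR.ne q hq
    have hNq := hNal q (hR.mem q hq)
    obtain ⟨n, n1, n2, n3, n4, n5⟩ := order L V hC.odd hC.vN hqL hNq
    have htsn : ∀ k : ℕ, (k : ℂ) * Φ q ∈ L'.lattice ↔ (k : ℂ) * q ∈ L.lattice := by
      intro k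
      have h7 := tsn (k : ℤ) q
      rwa [Int.cast_natCast] at h7
    obtain ⟨x1, x2⟩ := hX q hqL hNq
    have h7 := h6 V L L' u e lam (σ u) (σ e) (σ lam) hC.v2 hLeg hLeg' vlam1 hσlam n n1 n2 n3 q
      (Φ q) (fun k k1 k2 => ⟨n5 k k1 k2, fun h8 => n5 k k1 k2 ((htsn k).1 h8)⟩) n4
      ((htsn n).2 n4) (by rw [hxu q hqL]; exact x1) (by rw [hyu q hqL]; exact x2)
    rwa [hxu q hqL] at h7
  -- the translated points
  have hclo2 : ∀ q ∈ R, V.valuation (σ (xu L u e (q + w)) - xu L u e (q + w)) ≤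
      V.valuation δ := by
    intro q hq
    obtain ⟨x1, -⟩ := hX q (hR.ne q hq) (hNal q (hR.mem q hq))
    obtain ⟨v1, v2⟩ := hvq q hq
    have v3 : V.valuation (σ (xu L u e q)) = 1 := by
      have e7 : σ (xu L u e q) = (σ (xu L u e q) - xu L u e q) + xu L u e q := by ring
      rw [e7, Valuation.map_add_eq_of_lt_right, v1]
      rw [v1]
      exact x1
    have p1 := hprod q hq
    have p2 := congrArg σ p1
    rw [map_mul] at p2
    have h7 : (σ (xu L u e (q + w)) - xu L u e (q + w)) * σ (xu L u e q) =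
        δ - xu L u e (q + w) * (σ (xu L u e q) - xu L u e q) := by
      rw [hδ, ← p2, ← p1]
      ring
    have h8 := congrArg V.valuation h7
    rw [map_mul, v3, mul_one] at h8
    rw [h8]
    refine le_trans (V.valuation.map_sub _ _) (max_le le_rfl ?_)
    rw [map_mul, v2, one_mul]
    exact hclo q hq
  -- (CMI) and its conjugate
  have hR' : IsReps L (al A B) R := ⟨hR.mem, hR.ne, hR.inj, hR.surj⟩
  have c1 := h5 A B b L om hC.cq hL u e lam w hLeg hw h2w hPw R hR'
  have c2 := congrArg σ c1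
  have hσ3 : σ 3 = 3 := map_ofNat σ 3
  rw [map_mul, map_add, map_one, map_sub, map_one, map_pow, hσal, map_mul, hσ3, map_sum] at c2
  have c3 : δ * (1 - al A B ^ 2) = 3 * ∑ q ∈ R, ((σ (xu L u e (w + q)) - xu L u e (w + q)) -
      (σ (xu L u e q) - xu L u e q)) := by
    have c4 : ∑ q ∈ R, ((σ (xu L u e (w + q)) - xu L u e (w + q)) -
        (σ (xu L u e q) - xu L u e q)) =
        ∑ q ∈ R, σ (xu L u e (w + q) - xu L u e q) - ∑ q ∈ R, (xu L u e (w + q) - xu L u e q) := by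
      rw [← Finset.sum_sub_distrib]
      refine Finset.sum_congr rfl fun q _ => ?_
      rw [map_sub]
      ring
    rw [c4, hδ]
    linear_combination c2 - c1
  have c5 : V.valuation (∑ q ∈ R, ((σ (xu L u e (w + q)) - xu L u e (w + q)) -
      (σ (xu L u e q) - xu L u e q))) ≤ V.valuation δ := by
    refine Valuation.map_sum_le _ fun q hq => ?_
    refine le_trans (V.valuation.map_sub _ _) (max_le ?_ (hclo q hq))
    rw [add_comm w q]
    exact hclo2 q hq
  have c6 := congrArg V.valuation c3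
  rw [map_mul, map_mul] at c6
  have c7 : V.valuation δ * V.valuation (1 - al A B ^ 2) ≤ V.valuation δ * V.valuation (3 : ℂ) := by
    rw [c6, mul_comm]
    exact mul_le_mul_left c5 _
  have hδpos : 0 < V.valuation δ := zero_lt_iff.2 hvδ
  have c8 : V.valuation (1 - al A B ^ 2) ≤ V.valuation (3 : ℂ) :=
    le_of_mul_le_mul_left c7 hδpos
  exact absurd hC.va (not_lt.2 c8)

end

end Pool.Agent.NSR
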