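import Pool.Agent.NS.StRN
import Pool.Agent.MUX.XLib

/-!
# MUX-NS, block RN, module ALR: the multiplier `α = 1 + 2 w` in the ramified case
-/

set_option autoImplicit false

open WeierstrassCurve Polynomial

namespace Pool.Agent.NSR

open _root_.MU3 Pool.Agent.MU3A Pool.Agent.MU3B Pool.Agent.RI Pool.Agent.MUX Pool.Agent.MUXU
open Pool.Agent.MUXV (GR InK tX)
open Pool.Agent.NS

noncomputable section

namespace ALRaux

variable {A B : ℤ} {V : ValuationSubring ℂ}

lemma v_int (V : ValuationSubring ℂ) (n : ℤ) : V.valuation (n : ℂ) ≤ 1 :=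
  (V.valuation_le_one_iff _).2 (intCast_mem V n)

lemma wC_mem (h : CQ A B) (V : ValuationSubring ℂ) : wC A B ∈ V := by
  rcases V.mem_or_inv_mem (wC A B) with h1 | h1
  · exact h1
  · have h0 : wC A B ≠ 0 := wC_ne_zero h
    have h2 : wC A B = (A : ℂ) * (wC A B)⁻¹ + (B : ℂ) := by
      have h3 := wC_sq h
      field_simp
      linear_combination h3
    rw [h2]
    exact add_mem (mul_mem (intCast_mem V A) h1) (intCast_mem V B)

lemma v_emb (h : CQ A B) (V : ValuationSubring ℂ) (x : OO A B) : V.valuation (emb x) ≤ 1 := by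
  refine (V.valuation_le_one_iff _).2 ?_
  unfold emb
  exact add_mem (intCast_mem V _) (mul_mem (intCast_mem V _) (wC_mem h V))

lemma v_int_unit (h3 : V.valuation (3 : ℂ) < 1) {n : ℤ} (hn : ¬ (3 : ℤ) ∣ n) :
    V.valuation (n : ℂ) = 1 := by
  refine le_antisymm (v_int V n) (not_lt.1 fun hlt => ?_)
  have h1 : IsCoprime (3 : ℤ) n := by
    rcases (Int.prime_three.coprime_iff_not_dvd).2 hn with ⟨a, b, hab⟩
    exact ⟨a, b, hab⟩
  obtain ⟨a, b, hab⟩ := h1
  have h2 : (a : ℂ) * 3 + (b : ℂ) * (n : ℂ) = 1 := by exact_mod_cast hab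
  have h4 : V.valuation ((a : ℂ) * 3) < 1 := by
    rw [map_mul]
    exact lt_of_le_of_lt (mul_le_of_le_one_left' (v_int V a)) h3
  have h5 : V.valuation ((b : ℂ) * (n : ℂ)) < 1 := by
    rw [map_mul]
    exact lt_of_le_of_lt (mul_le_of_le_one_left' (v_int V b)) hlt
  have h6 := Valuation.map_add_lt V.valuation h4 h5
  rw [h2, map_one] at h6
  exact lt_irrefl _ h6

lemma emb_mul_star (h : CQ A B) (x : OO A B) : emb x * emb (star x) = ((nm x : ℤ) : ℂ) := by
  rw [← emb_mul h, mul_star, emb_intCast h]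

lemma v_unit (h : CQ A B) (h3 : V.valuation (3 : ℂ) < 1) {x : OO A B} (hx : ¬ (3 : ℤ) ∣ nm x) :
    V.valuation (emb x) = 1 := by
  have h1 := congrArg V.valuation (emb_mul_star h x)
  rw [map_mul, v_int_unit h3 hx] at h1
  refine le_antisymm (v_emb h V x) (not_lt.1 fun hlt => ?_)
  have h2 : V.valuation (emb x) * V.valuation (emb (star x)) < 1 :=
    lt_of_le_of_lt (mul_le_of_le_one_right' (v_emb h V (star x))) hlt
  rw [h1] at h2
  exact lt_irrefl _ h2

end ALRaux

open ALRaux in
theorem tr_ALR : Sr_ALR := by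
  intro A B V P hQ hD hV hP
  have hv3 : V.valuation (3 : ℂ) < 1 := by
    have h1 := (hV _).2 hP
    rw [emb_natCast hQ] at h1
    have h2 := (ValuationSubring.mem_nonunits_iff V).1 h1
    simpa using h2
  have hv2 : V.valuation (2 : ℂ) = 1 := by
    have := v_int_unit (V := V) hv3 (n := 2) (by norm_num)
    simpa using this
  have hw := wC_sq hQ
  have hal : al A B = 1 + 2 * wC A B := by
    unfold al alO emb
    push_cast
    ring
  have h0 : (1 : ℂ) - al A B ^ 2 = -(2 * 2) * (wC A B * (1 + wC A B)) := by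
    rw [hal]
    ring
  have hmain : V.valuation (1 - al A B ^ 2) ^ 2 = V.valuation (3 : ℂ) := by
    have h1 : V.valuation (1 - al A B ^ 2) = V.valuation (wC A B * (1 + wC A B)) := by
      rw [h0, map_mul, Valuation.map_neg, map_mul, hv2, one_mul, one_mul]
    rw [h1]
    rcases hQ.hB with hB | hB
    · subst hB
      have h3A : (3 : ℤ) ∣ A := by
        have h2 := hD
        omega
      obtain ⟨a, ha⟩ := h3A
      have h3a : ¬ (3 : ℤ) ∣ a := by
        rintro ⟨c, hc⟩
        have h2 := (hQ.fund0 rfl).1 3 ⟨c, by rw [ha, hc]; ring⟩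
        exact absurd (Int.isUnit_iff.1 h2) (by norm_num)
      have h4 : V.valuation (1 + wC A 0) = 1 := by
        have h5 : emb (⟨1, 1⟩ : OO A 0) = 1 + wC A 0 := by
          unfold emb
          push_cast
          ring
        rw [← h5]
        refine v_unit hQ hv3 ?_
        unfold nm
        simp only
        omega
      rw [map_mul, h4, mul_one, sq, ← map_mul, hw]
      have h6 : ((A : ℤ) : ℂ) + ((0 : ℤ) : ℂ) * wC A 0 = 3 * (a : ℂ) := by
        rw [ha]
        push_cast
        ring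
      rw [h6, map_mul, v_int_unit hv3 h3a, mul_one]
    · subst hB
      have h3A : (3 : ℤ) ∣ A + 1 := by
        have h2 := hD
        omega
      obtain ⟨a, ha⟩ := h3A
      have h3a : ¬ (3 : ℤ) ∣ a - 1 := by
        rintro ⟨c, hc⟩
        have h2 := hQ.fund1 rfl 3 ⟨4 * c + 1, by
          have h5 : A = 3 * a - 1 := by omega
          have h6 : a = 3 * c + 1 := by omega
          rw [h5, h6]
          ring⟩
        exact absurd (Int.isUnit_iff.1 h2) (by norm_num)
      have h4 : V.valuation (wC A 1) = 1 := by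
        rw [← MUX.emb_w]
        refine v_unit hQ hv3 ?_
        unfold nm
        simp only
        omega
      have h7 : V.valuation (emb (⟨a, 1⟩ : OO A 1)) = 1 := by
        refine v_unit hQ hv3 ?_
        have h5 : A = 3 * a - 1 := by omega
        have h8 : nm (⟨a, 1⟩ : OO A 1) = (a - 1) ^ 2 := by
          unfold nm
          simp only
          rw [h5]
          ring
        rw [h8]
        exact fun h9 => h3a (Int.prime_three.dvd_of_dvd_pow h9)
      have h10 : (1 + wC A 1) * (1 + wC A 1) = 3 * emb (⟨a, 1⟩ : OO A 1) := by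
        have h5 : ((A : ℤ) : ℂ) = 3 * (a : ℂ) - 1 := by
          have h6 : A = 3 * a - 1 := by omega
          rw [h6]
          push_cast
          ring
        unfold emb
        push_cast at hw ⊢
        linear_combination hw + h5
      rw [map_mul, h4, one_mul, sq, ← map_mul, h10, map_mul, h7, mul_one]
  have h30 : V.valuation (3 : ℂ) ≠ 0 := by
    rw [Ne, map_eq_zero]
    norm_num
  have hva : V.valuation (3 : ℂ) < V.valuation (1 - al A B ^ 2) := by
    rw [← not_le]
    intro hle
    have h1 : V.valuation (3 : ℂ) ≤ V.valuation (3 : ℂ) * V.valuation (3 : ℂ) := by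
      calc V.valuation (3 : ℂ) = V.valuation (1 - al A B ^ 2) * V.valuation (1 - al A B ^ 2) := by
            rw [← sq, hmain]
        _ ≤ V.valuation (3 : ℂ) * V.valuation (3 : ℂ) := mul_le_mul' hle hle
    have h2 : V.valuation (3 : ℂ) * V.valuation (3 : ℂ) < V.valuation (3 : ℂ) * 1 :=
      (mul_lt_mul_iff_right₀ (zero_lt_iff.2 h30)).2 hv3
    rw [mul_one] at h2
    exact absurd h1 (not_le.2 h2)
  have hA1 : 1 < 1 + 2 * B - 4 * A := by
    have := hQ.neg
    rcases hQ.hB with hB | hB <;> subst hB <;> omega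
  have hA3 : ¬ (3 : ℤ) ∣ 1 + 2 * B - 4 * A := by
    have h2 := hD
    rcases hQ.hB with hB | hB <;> subst hB <;> omega
  obtain ⟨N, hN⟩ : ∃ N : ℕ, (N : ℤ) = 1 + 2 * B - 4 * A := ⟨(1 + 2 * B - 4 * A).toNat, by omega⟩
  have hNC : (N : ℂ) = ((1 + 2 * B - 4 * A : ℤ) : ℂ) := by
    rw [← hN]
    push_cast
    rfl
  refine ⟨⟨N, ⟨hQ, hv3, hv2, hva, ?_, ?_, by omega, ?_⟩⟩, hmain⟩
  · rw [hNC, hal]
    unfold alO' emb
    push_cast
    linear_combination (4 : ℂ) * hw
  · rw [← Int.odd_coe_nat, hN]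
    exact ⟨B - 2 * A, by ring⟩
  · rw [hNC]
    exact v_int_unit hv3 hA3

end

end Pool.Agent.NSR
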