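import Pool.Agent.NS.StRN
import Pool.Agent.MUX.XLib
import Pool.Agent.MUX.C_CMM
import Pool.Agent.MUX.U_AUE

/-!
# NSR, module VAL3: the values of `RF (f)` at `V`, 3 inert
-/

set_option autoImplicit false

open WeierstrassCurve Polynomial

namespace Pool.Agent.NSR

open _root_.MU3 Pool.Agent.MU3A Pool.Agent.MU3B Pool.Agent.RI Pool.Agent.MUX Pool.Agent.MUXU
open Pool.Agent.MUXV (GR InK tX)
open Pool.Agent.NS

noncomputable section

namespace VAL3

theorem one_notMem {A B : ℤ} {V : ValuationSubring ℂ} {P : Ideal (OO A B)} (hC : CQ A B)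
    (hV : OverI V P) : (1 : OO A B) ∉ P := by
  intro h
  have h1 := (hV 1).2 h
  rw [emb_one hC, ValuationSubring.mem_nonunits_iff, map_one] at h1
  exact lt_irrefl _ h1

theorem isPrime {A B : ℤ} {V : ValuationSubring ℂ} {P : Ideal (OO A B)} (hC : CQ A B)
    (hV : OverI V P) : P.IsPrime := by
  refine ⟨fun h => one_notMem hC hV (h ▸ Submodule.mem_top), fun {x y} hxy => ?_⟩
  have h1 := (hV _).2 hxy
  rw [emb_mul hC, ValuationSubring.mem_nonunits_iff, map_mul] at h1
  by_contra hno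
  rw [not_or] at hno
  have h2 : 1 ≤ V.valuation (emb x) := by
    rw [← not_lt, ← ValuationSubring.mem_nonunits_iff]
    exact fun h => hno.1 ((hV x).1 h)
  have h3 : 1 ≤ V.valuation (emb y) := by
    rw [← not_lt, ← ValuationSubring.mem_nonunits_iff]
    exact fun h => hno.2 ((hV y).1 h)
  exact absurd h1 (not_lt.2 (one_le_mul_of_one_le_of_one_le h2 h3))

theorem natCast_ne {A B : ℤ} (hC : CQ A B) {n : ℕ} (hn : n ≠ 0) : ((n : ℕ) : OO A B) ≠ 0 := by
  intro h
  have h1 := congrArg emb h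
  rw [emb_natCast hC, emb_zero hC] at h1
  exact hn (by exact_mod_cast h1)

theorem idl_ne {A B : ℤ} (hC : CQ A B) {n : ℕ} (hn : n ≠ 0) : idl (A := A) (B := B) n ≠ ⊥ := by
  rw [Ne, Ideal.span_singleton_eq_bot]
  exact natCast_ne hC hn

end VAL3

open VAL3 in
theorem tr_VAL3 (h1 : Sr_ALP) (h2 : Sr_UNR) (h3 : Sr_RAM) : Sr_VAL3 := by
  intro A B V hI hV hT f hf hf3 y hy hy0
  have hC : CQ A B := hI.toCQ
  obtain ⟨⟨N, hN⟩, -⟩ := h1 A B V hI hV
  have : FiniteDimensional (kk A B) (RF (idl (A := A) (B := B) f)) := hT.fin _ (idl_ne hC hf)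
  have : IsGalois (kk A B) (RF (idl (A := A) (B := B) f)) := hT.gal _ (idl_ne hC hf)
  have hmem : ((3 : ℕ) : OO A B) ∈ idl (A := A) (B := B) 3 := Ideal.mem_span_singleton_self _
  have hnot : ((3 : ℕ) : OO A B) ∉ idl (A := A) (B := B) 3 ^ 2 := by
    intro h
    rw [Ideal.span_singleton_pow, Ideal.mem_span_singleton] at h
    obtain ⟨x, hx⟩ := h
    have h4 := congrArg emb hx
    rw [emb_mul hC, emb_pow hC, emb_natCast hC] at h4
    have h5 : emb (((3 : ℕ) : OO A B) * x) = 1 := by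
      rw [emb_mul hC, emb_natCast hC]
      push_cast at h4 ⊢
      linear_combination -(1 / 3) * h4
    have h6 := (hV _).2 ((idl (A := A) (B := B) 3).mul_mem_right x hmem)
    rw [h5, ValuationSubring.mem_nonunits_iff, map_one] at h6
    exact lt_irrefl _ h6
  obtain ⟨k, hk⟩ := h3 A B V (idl 3) ((3 : ℕ) : OO A B) hC (isPrime hC hV)
    (idl_ne hC (by norm_num)) hV hmem hnot (RF (idl (A := A) (B := B) f)) (by
      intro σ hσ
      obtain ⟨s, hs, hsσ⟩ := Pool.Agent.MUXC.CMM.ext tu_AUE hC _ σ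
      have h4 := h2 A B V N hN hT f hf hf3 s hs (by
        intro z hz hvz
        have h5 := hσ ⟨z, hz⟩ hvz
        rw [← hsσ] at h5
        exact h5)
      ext z
      have h5 := h4 z z.2
      rw [hsσ] at h5
      exact h5) y hy hy0
  refine ⟨k, ?_⟩
  rw [hk, emb_natCast hC]
  norm_num

end

end Pool.Agent.NSR
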