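import Pool.Agent.NS.StIN
import Pool.Agent.MUX.K_TNX
import Pool.Agent.MUX.K_I3X

/-!
# MUX-NS, block IN, module LEM1: one level is enough (helper36)

`(γ - 1)^(p^n - p^m)` is congruent modulo `p` to the norm from `K_n` to `K_m`.
-/

set_option autoImplicit false

open NumberField IsDedekindDomain Finset
open scoped nonZeroDivisors Pointwise

namespace Pool.Agent.NSI

open Pool.Agent.MU3 Pool.Agent.RI Pool.Agent.RID Pool.Agent.MUXK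

namespace LEM1

open Polynomial in
/-- the identity modulo `p` -/
theorem poly_zmod (p : ℕ) [hp : Fact p.Prime] (m n : ℕ) (hmn : m ≤ n) :
    ((X : (ZMod p)[X]) - 1) ^ (p ^ n - p ^ m) = ∑ i ∈ range (p ^ (n - m)), X ^ (p ^ m * i) := by
  obtain ⟨t, rfl⟩ := Nat.exists_eq_add_of_le hmn
  rw [Nat.add_sub_cancel_left]
  have h1 : p ^ (m + t) - p ^ m = p ^ m * (p ^ t - 1) := by
    rw [pow_add, Nat.mul_sub, mul_one]
  have hq : 1 ≤ p ^ t := Nat.one_le_pow _ _ hp.out.pos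
  have h2 : ((X : (ZMod p)[X]) - 1) ^ p ^ m = X ^ p ^ m - 1 := by
    rw [sub_pow_char_pow, one_pow]
  rw [h1, pow_mul, h2]
  have hY : (X : (ZMod p)[X]) ^ p ^ m - 1 ≠ 0 := by
    have h3 := Polynomial.X_pow_sub_C_ne_zero (R := ZMod p) (pow_pos hp.out.pos m) 1
    rwa [map_one] at h3
  apply mul_right_cancel₀ hY
  rw [← pow_succ, Nat.sub_add_cancel hq, sub_pow_char_pow, one_pow]
  have h4 : ∑ i ∈ range (p ^ t), (X : (ZMod p)[X]) ^ (p ^ m * i) =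
      ∑ i ∈ range (p ^ t), ((X : (ZMod p)[X]) ^ p ^ m) ^ i := by
    refine Finset.sum_congr rfl fun i _ => ?_
    rw [pow_mul]
  rw [h4, geom_sum_mul]

open Polynomial in
/-- the identity over `ℤ` -/
theorem poly_id (p : ℕ) [hp : Fact p.Prime] (m n : ℕ) (hmn : m ≤ n) :
    ∃ H : ℤ[X], ((X : ℤ[X]) - 1) ^ (p ^ n - p ^ m) =
      ∑ i ∈ range (p ^ (n - m)), X ^ (p ^ m * i) + C (p : ℤ) * H := by
  have h1 : C (p : ℤ) ∣ ((X : ℤ[X]) - 1) ^ (p ^ n - p ^ m) -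
      ∑ i ∈ range (p ^ (n - m)), X ^ (p ^ m * i) := by
    rw [Polynomial.C_dvd_iff_dvd_coeff]
    intro i
    rw [← ZMod.intCast_zmod_eq_zero_iff_dvd]
    have h2 : Polynomial.map (Int.castRingHom (ZMod p)) (((X : ℤ[X]) - 1) ^ (p ^ n - p ^ m) -
      ∑ i ∈ range (p ^ (n - m)), X ^ (p ^ m * i)) = 0 := by
      rw [Polynomial.map_sub, Polynomial.map_pow, Polynomial.map_sub, Polynomial.map_X,
        Polynomial.map_one, Polynomial.map_sum]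
      simp only [Polynomial.map_pow, Polynomial.map_X]
      rw [poly_zmod p m n hmn, sub_self]
    have h3 := congrArg (fun q => Polynomial.coeff q i) h2
    simp only [Polynomial.coeff_map, Polynomial.coeff_zero] at h3
    exact h3
  obtain ⟨H, hH⟩ := h1
  exact ⟨H, by rw [← hH]; ring⟩

section
variable {k L : Type} [Field k] [Field L] [Algebra k L]

/-- `T ^ (p ^ n - p ^ m)` is the norm modulo `p`-th powers -/
theorem norm_id (p : ℕ) [hp : Fact p.Prime] (γ : L ≃ₐ[k] L) (m n : ℕ) (hmn : m ≤ n) {x : L}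
    (hx : x ≠ 0) :
    ∃ w : L, w ≠ 0 ∧ (Tg γ)^[p ^ n - p ^ m] x =
      (∏ i ∈ range (p ^ (n - m)), (γ ^ (p ^ m * i)) x) * w ^ p := by
  obtain ⟨H, hH⟩ := poly_id p m n hmn
  have h1 := congrArg (Polynomial.aeval (K_TNX.act γ)) hH
  rw [map_pow, map_sub, Polynomial.aeval_X, map_one, map_add, map_sum, map_mul,
    Polynomial.aeval_C] at h1
  simp only [map_pow, Polynomial.aeval_X] at h1
  set u : Additive Lˣ := Additive.ofMul (Units.mk0 x hx) with hu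
  have hux : ((u.toMul : Lˣ) : L) = x := rfl
  refine ⟨((((Polynomial.aeval (K_TNX.act γ)) H) u).toMul : Lˣ), Units.ne_zero _, ?_⟩
  have h2 := K_TNX.sub_act_pow γ (p ^ n - p ^ m) u
  rw [hux] at h2
  rw [← h2, h1]
  have h3 : (∑ i ∈ range (p ^ (n - m)), K_TNX.act γ ^ (p ^ m * i) +
      (algebraMap ℤ (Module.End ℤ (Additive Lˣ))) (p : ℤ) *
        (Polynomial.aeval (K_TNX.act γ)) H) u =
      (∑ i ∈ range (p ^ (n - m)), (K_TNX.act γ ^ (p ^ m * i)) u) +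
        p • ((Polynomial.aeval (K_TNX.act γ)) H u) := by
    rw [LinearMap.add_apply, LinearMap.sum_apply, Module.End.mul_apply,
      Module.algebraMap_end_apply, natCast_zsmul]
  rw [h3, toMul_add, toMul_nsmul, Units.val_mul, Units.val_pow_eq_pow_val]
  congr 1
  have h4 : ((((∑ i ∈ range (p ^ (n - m)), (K_TNX.act γ ^ (p ^ m * i)) u).toMul : Lˣ)) : L) =
      ∏ i ∈ range (p ^ (n - m)), ((((K_TNX.act γ ^ (p ^ m * i)) u).toMul : Lˣ) : L) := by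
    rw [toMul_sum, Units.coe_prod]
  rw [h4]
  refine Finset.prod_congr rfl fun i _ => ?_
  rw [K_TNX.act_pow, hux]

theorem Tg_prod (comm : ∀ σ τ : L ≃ₐ[k] L, σ * τ = τ * σ) (g : L ≃ₐ[k] L)
    (D : Subgroup (L ≃ₐ[k] L)) [Fintype D] (b : D → ℕ) (x : L) :
    Tg g (∏ δ : D, ((δ : L ≃ₐ[k] L) x) ^ b δ) = ∏ δ : D, ((δ : L ≃ₐ[k] L) (Tg g x)) ^ b δ := by
  unfold Tg
  rw [map_prod, ← prod_div_distrib]
  refine prod_congr rfl fun δ _ => ?_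
  rw [map_pow, ← div_pow]
  congr 1
  have e2 : (δ : L ≃ₐ[k] L) (g x / x) = (δ : L ≃ₐ[k] L) (g x) / (δ : L ≃ₐ[k] L) x :=
    map_div₀ _ _ _
  have e3 : g ((δ : L ≃ₐ[k] L) x) = (δ : L ≃ₐ[k] L) (g x) :=
    congrArg (fun f : L ≃ₐ[k] L => f x) (comm g (δ : L ≃ₐ[k] L))
  rw [e2, e3]

theorem Tg_prod_iter (comm : ∀ σ τ : L ≃ₐ[k] L, σ * τ = τ * σ) (g : L ≃ₐ[k] L)
    (D : Subgroup (L ≃ₐ[k] L)) [Fintype D] (b : D → ℕ) (i : ℕ) (x : L) :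
    (Tg g)^[i] (∏ δ : D, ((δ : L ≃ₐ[k] L) x) ^ b δ) =
      ∏ δ : D, ((δ : L ≃ₐ[k] L) ((Tg g)^[i] x)) ^ b δ := by
  induction i generalizing x with
  | zero => rfl
  | succ i ih =>
    rw [Function.iterate_succ_apply, Tg_prod comm, ih, Function.iterate_succ_apply]

theorem core {M : Type} [Field M] [Algebra k M] (p : ℕ) [hp : Fact p.Prime] (j : M →+* L)
    (r : (L ≃ₐ[k] L) →* (M ≃ₐ[k] M))
    (hr : ∀ (σ : L ≃ₐ[k] L) (x : M), j (r σ x) = σ (j x))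
    (comm : ∀ σ τ : L ≃ₐ[k] L, σ * τ = τ * σ) (γ : L ≃ₐ[k] L) (m n N : ℕ) (hmn : m ≤ n)
    (hN : N ≤ p ^ n - p ^ m)
    (hfix : ∀ x : L, (γ ^ (p ^ m)) x = x ↔ ∃ z : M, j z = x)
    (D : Subgroup (L ≃ₐ[k] L)) [Fintype D] (D' : Subgroup (M ≃ₐ[k] M)) [Fintype D']
    (e : D ≃* D') (he : ∀ δ : D, ((e δ : D') : M ≃ₐ[k] M) = r δ)
    (cn : L) (hcn : cn ≠ 0) (cm : M) (hcm : cm ≠ 0) (C : L) (hC : C ≠ 0)
    (hCγ : γ C = C)
    (hnrm : ∏ i ∈ range (p ^ (n - m)), (γ ^ (p ^ m * i)) cn = C * j cm)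
    (hω : ∀ w : L, w ^ p = 1 → γ w = w) (b : D → ℕ) (b' : D' → ℕ)
    (hb : ∀ δ, b δ = b' (e δ)) (y : L)
    (hy : y ^ p = ∏ δ : D, ((δ : L ≃ₐ[k] L) ((Tg γ)^[N] cn)) ^ b δ) :
    ∃ t : M, t ^ p = ∏ δ : D', ((δ : M ≃ₐ[k] M) (Tg (r γ) cm)) ^ b' δ := by
  have hp0 : p ≠ 0 := hp.out.ne_zero
  -- apply `T ^ (Q - N)`
  obtain ⟨i, hi⟩ := Nat.exists_eq_add_of_le hN
  have hy1 : ((Tg γ)^[i] y) ^ p =
      ∏ δ : D, ((δ : L ≃ₐ[k] L) ((Tg γ)^[p ^ n - p ^ m] cn)) ^ b δ := by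
    rw [← K_TNX.iter_pow, hy, Tg_prod_iter comm, ← Function.iterate_add_apply, hi, Nat.add_comm i N]
  obtain ⟨w, hw0, hw⟩ := norm_id p γ m n hmn hcn
  rw [hnrm] at hw
  rw [hw] at hy1
  set y1 : L := (Tg γ)^[i] y with hy1d
  set W : L := ∏ δ : D, ((δ : L ≃ₐ[k] L) w) ^ b δ with hW
  have hW0 : W ≠ 0 := by
    rw [hW, prod_ne_zero_iff]
    intro δ _
    exact pow_ne_zero _ ((map_ne_zero _).mpr hw0)
  set s : L := ∏ δ : D, ((δ : L ≃ₐ[k] L) (C * j cm)) ^ b δ with hs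
  have hjcm : j cm ≠ 0 := (map_ne_zero _).mpr hcm
  have hs0 : s ≠ 0 := by
    rw [hs, prod_ne_zero_iff]
    intro δ _
    exact pow_ne_zero _ ((map_ne_zero _).mpr (mul_ne_zero hC hjcm))
  have hy2 : (y1 / W) ^ p = s := by
    rw [div_pow, div_eq_iff (pow_ne_zero _ hW0), hy1, hW, hs, ← prod_pow, ← prod_mul_distrib]
    refine prod_congr rfl fun δ _ => ?_
    rw [map_mul _ (C * j cm) (w ^ p), map_pow, mul_pow]
    congr 1
    rw [← pow_mul, ← pow_mul, mul_comm]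
  set y2 : L := y1 / W with hy2d
  have hy20 : y2 ≠ 0 := by
    intro h
    rw [h, zero_pow hp0] at hy2
    exact hs0 hy2.symm
  -- `T s`
  have hCTg : Tg γ (C * j cm) = j (Tg (r γ) cm) := by
    unfold Tg
    rw [map_mul, hCγ, mul_div_mul_left _ _ hC, map_div₀, hr]
  have hTs : Tg γ s = j (∏ δ : D', ((δ : M ≃ₐ[k] M) (Tg (r γ) cm)) ^ b' δ) := by
    rw [hs, Tg_prod comm, hCTg, map_prod, ← e.toEquiv.prod_comp]
    refine prod_congr rfl fun δ _ => ?_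
    rw [map_pow, hb δ]
    congr 1
    rw [← hr]
    congr 1
    show (r δ) _ = ((e δ : D') : M ≃ₐ[k] M) _
    rw [he]
  -- `h` fixes `s`
  set h : L ≃ₐ[k] L := γ ^ (p ^ m) with hh
  have hhC : h C = C := by
    have h5 : ∀ i : ℕ, (γ ^ i) C = C := by
      intro i
      induction i with
      | zero => rfl
      | succ i ih => rw [pow_succ, AlgEquiv.mul_apply, hCγ, ih]
    exact h5 _
  have hhj : ∀ z : M, h (j z) = j z := fun z => (hfix _).2 ⟨z, rfl⟩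
  have hhδ : ∀ δ : D, h ((δ : L ≃ₐ[k] L) (C * j cm)) = (δ : L ≃ₐ[k] L) (C * j cm) := by
    intro δ
    have e3 : h ((δ : L ≃ₐ[k] L) (C * j cm)) = (δ : L ≃ₐ[k] L) (h (C * j cm)) :=
      congrArg (fun f : L ≃ₐ[k] L => f (C * j cm)) (comm h (δ : L ≃ₐ[k] L))
    rw [e3, map_mul, hhC, hhj]
  have hhs : h s = s := by
    rw [hs, map_prod]
    refine prod_congr rfl fun δ _ => ?_
    rw [map_pow, hhδ]
  have hhy : h y2 ≠ 0 := (map_ne_zero _).mpr hy20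
  have hw3 : (h y2 / y2) ^ p = 1 := by
    rw [div_pow, ← map_pow, hy2, hhs, div_self hs0]
  have hwγ : γ (h y2 / y2) = h y2 / y2 := hω _ hw3
  have hcomm : ∀ x : L, h (γ x) = γ (h x) := fun x =>
    congrArg (fun f : L ≃ₐ[k] L => f x) (comm h γ)
  have hγy : γ y2 ≠ 0 := (map_ne_zero _).mpr hy20
  have ht : h (Tg γ y2) = Tg γ y2 := by
    unfold Tg
    rw [map_div₀, hcomm]
    rw [map_div₀] at hwγ
    rw [div_eq_div_iff hγy hy20] at hwγ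
    rw [div_eq_div_iff hhy hy20, hwγ, mul_comm]
  obtain ⟨t, htj⟩ := (hfix _).mp ht
  refine ⟨t, ?_⟩
  apply j.injective
  rw [map_pow, htj, ← hTs, ← hy2, K_TNX.Tg_pow]

end

/-- the inclusion -/
theorem incl {E E' : IntermediateField ℚ ℂ} (h : E ≤ E') :
    ∃ j : E →+* E', ∀ z, ((j z : E') : ℂ) = z :=
  ⟨(IntermediateField.inclusion h).toRingHom, fun _ => rfl⟩

end LEM1

/-- (LEM1) one level is enough -/
theorem tn_LEM1 (h1 : S_GALX) (h2 : S_RSX) : Sn_LEM1 := by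
  intro F _ p hp k K B _ _ hB hcop hom hk hkK c₀ mem hne n₁ hN χ h3 N n₀
  obtain ⟨m, hm1, hm2⟩ := h3 n₁
  have hpos : 0 < p := hp.out.pos
  obtain ⟨n, hn⟩ : ∃ n, n = m + (N + n₀) := ⟨_, rfl⟩
  refine ⟨n, by omega, ?_⟩
  have hmn : m ≤ n := by omega
  have hQ : N ≤ p ^ n - p ^ m := by
    have e1 : p ^ n - p ^ m = p ^ m * (p ^ (N + n₀) - 1) := by
      rw [hn, pow_add, Nat.mul_sub, mul_one]
    have e2 : 1 ≤ p ^ m := Nat.one_le_pow _ _ hpos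
    have e3 : N + n₀ < p ^ (N + n₀) := Nat.lt_pow_self hp.out.one_lt
    rw [e1]
    calc N ≤ 1 * (p ^ (N + n₀) - 1) := by omega
      _ ≤ p ^ m * (p ^ (N + n₀) - 1) := Nat.mul_le_mul_right _ e2
  let _ := algC (hk n)
  let _ := algC (hk m)
  let _ := algC hkK
  intro γ hγ _ r hr
  have hsub : K ⊔ B m ≤ K ⊔ B n := sup_le_sup_left (hB.mono hmn) K
  obtain ⟨r', hr', hrγ, e, he⟩ := h2 p k K B hB hcop m n hmn (hk n) (hk m) hsub
  obtain ⟨ρm, hρm⟩ := I3X19.restr h2 p k K B hB hcop hkK m (hk m)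
  obtain ⟨hr1, hr2⟩ := hrγ γ hγ
  let _ : Fintype (NC (hk m) (B m)) := Fintype.ofEquiv _ e.toEquiv
  obtain ⟨θ, hθ⟩ := hm2 (r' γ) hr1 (fun δ => ρm δ) hρm
  have hρ : ∀ δ, ρm (e δ) = r δ := by
    intro δ
    refine AlgEquiv.ext fun x => Subtype.ext ?_
    have hx1 : (x : ℂ) ∈ K ⊔ B m := le_sup_left (a := K) x.2
    rw [← hρm (e δ) x ⟨x, hx1⟩ rfl, ← hr δ x ⟨x, hsub hx1⟩ rfl, he]
    exact hr' _ ⟨x, hx1⟩
  refine ⟨θ, fun y hy => ?_⟩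
  obtain ⟨ω, hωK, hω1⟩ := hom
  obtain ⟨C, hCk, hC0, hC⟩ := hN m n hm1 hmn γ hγ
  have hKn : K ≤ K ⊔ B n := le_sup_left
  obtain ⟨j, hj⟩ := LEM1.incl hsub
  have hj' : ∀ z : ↥(K ⊔ B m), j z = ⟨z, hsub z.2⟩ := fun z => Subtype.ext (hj z)
  have b1 : ∀ (σ : ↥(K ⊔ B n) ≃ₐ[k] ↥(K ⊔ B n)) (x : ↥(K ⊔ B m)), j (r' σ x) = σ (j x) := by
    intro σ x
    apply Subtype.ext
    rw [hj, hr', hj']
  have b2 : ∀ x : ↥(K ⊔ B n), (γ ^ (p ^ m)) x = x ↔ ∃ z : ↥(K ⊔ B m), j z = x := by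
    intro x
    rw [hr2 x]
    constructor
    · intro hx
      exact ⟨⟨x, hx⟩, Subtype.ext (hj _)⟩
    · rintro ⟨z, rfl⟩
      rw [hj]
      exact z.2
  have b3 : (⟨C, hKn hCk⟩ : ↥(K ⊔ B n)) ≠ 0 := by
    intro h; exact hC0 (congrArg Subtype.val h)
  have b4 : γ (⟨C, hKn hCk⟩ : ↥(K ⊔ B n)) = ⟨C, hKn hCk⟩ := (hγ _).2 hCk
  have b5 : ∏ i ∈ range (p ^ (n - m)), (γ ^ (p ^ m * i)) ⟨c₀ n, mem n⟩ =
      ⟨C, hKn hCk⟩ * j ⟨c₀ m, mem m⟩ := by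
    apply Subtype.ext
    rw [hC, hj']
    rfl
  have b6 : ∀ w : ↥(K ⊔ B n), w ^ p = 1 → γ w = w := by
    intro w hw
    rw [hγ w]
    have hw' : (w : ℂ) ^ p = 1 := congrArg Subtype.val hw
    have : NeZero p := ⟨hpos.ne'⟩
    obtain ⟨i, _, hi⟩ := hω1.eq_pow_of_pow_eq_one hw'
    rw [← hi]
    exact K.pow_mem hωK i
  have b7 : (⟨c₀ n, mem n⟩ : ↥(K ⊔ B n)) ≠ 0 := by
    intro h; exact hne n (congrArg Subtype.val h)
  have b8 : (⟨c₀ m, mem m⟩ : ↥(K ⊔ B m)) ≠ 0 := by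
    intro h; exact hne m (congrArg Subtype.val h)
  obtain ⟨t, ht⟩ := LEM1.core (M := ↥(K ⊔ B m)) p
    j r' b1
    (h1 p k K B hB n (hk n)).2 γ m n N hmn hQ b2 (NC (hk n) (B n)) (NC (hk m) (B m)) e he
    ⟨c₀ n, mem n⟩ b7 ⟨c₀ m, mem m⟩ b8 ⟨C, hKn hCk⟩ b3 b4 b5 b6
    (fun δ => (θ ((χ (r δ))⁻¹ : Fˣ)).val) (fun δ => (θ ((χ (ρm δ))⁻¹ : Fˣ)).val)
    (fun δ => by rw [hρ]) y hy
  refine hθ t (ht.trans ?_)
  refine prod_congr rfl fun δ _ => ?_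
  rw [Function.iterate_one]

end Pool.Agent.NSI
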