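import Pool.Agent.NS.StIN

/-!
# MUX-NS, block IN, module INP (helper36): the inputs of block K
-/

set_option autoImplicit false

namespace Pool.Agent.NSI

open _root_.MU3 Pool.Agent.MU3 Pool.Agent.MU3A Pool.Agent.MU3B Pool.Agent.RI Pool.Agent.RID
  Pool.Agent.MUX Pool.Agent.MUXK Pool.Agent.MUXI Pool.Agent.NS

noncomputable section

namespace INP

/-- a subfield of a finite-dimensional field is finite-dimensional -/
lemma fd {E E' : IntermediateField ℚ ℂ} [FiniteDimensional ℚ E'] (h : E ≤ E') :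
    FiniteDimensional ℚ E :=
  FiniteDimensional.of_injective (IntermediateField.inclusion h).toLinearMap
    (IntermediateField.inclusion h).injective

lemma c_ne {p : ℕ} {k K₀ K : IntermediateField ℚ ℂ} {B : ℕ → IntermediateField ℚ ℂ}
    [FiniteDimensional ℚ k] [∀ n, FiniteDimensional ℚ ↥(K ⊔ B n)] {hk : ∀ n, k ≤ K ⊔ B n}
    {hk₀ : ∀ n, k ≤ K₀ ⊔ B n} {S : Finset ℕ} {c c₀ : ℕ → ℂ} {n₁ : ℕ}
    (hI : Pool.Agent.MUXZ.InpW p k K₀ K B hk hk₀ S c c₀ n₁) (i : ℕ) : c₀ i ≠ 0 := by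
  let _ := algC (hk i)
  rw [hI.norm i]
  refine finprod_induction (p := fun x : ℂ => x ≠ 0) one_ne_zero
    (fun x y hx hy => mul_ne_zero hx hy) fun g hg => ?_
  have h6 := (map_eq_zero ((g : NC (hk i) (K₀ ⊔ B i)) : ↥(K ⊔ B i) ≃ₐ[k] ↥(K ⊔ B i))).1
    (Subtype.ext hg)
  exact hI.ne i (congrArg Subtype.val h6)

end INP

/-- (INP) the inputs of block K -/
theorem tn_INP (h1 : Sn_I31) (h2 : Sn_LEM1) (h3 : Sn_NRX) : Sn_INP := by
  intro A B V f hS hTor ι iι R u el lam hG K₀ K Bn ik iK iKB hX hKT hk hk₀ hkK S c c₀ n₁ hW C hE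
    hc₀
  have iP : Fact (Nat.Prime 3) := ⟨Nat.prime_three⟩
  have iK₀ : FiniteDimensional ℚ K₀ := INP.fd hX.le
  have iKB₀ : ∀ n, FiniteDimensional ℚ ↥(K₀ ⊔ Bn n) := fun n =>
    INP.fd (E' := K ⊔ Bn n) (sup_le_sup_right hX.le _)
  have hNr := h3 3 (kk A B) K₀ K Bn hX hk hk₀ S c c₀ n₁ hW
  have hI3 : ∀ (χ : (letI := algC hkK; (↥K₀ ≃ₐ[kk A B] ↥K₀) →*
      (IsLocalRing.ResidueField V)ˣ)) (N n₀ : ℕ), ∃ n, n₀ ≤ n ∧
      I3At (IsLocalRing.ResidueField V) 3 (kk A B) K₀ Bn hkK χ N n (hk₀ n) (c₀ n)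
        (hW.mem₀ n) := by
    intro χ N n₀
    refine h2 (IsLocalRing.ResidueField V) 3 (kk A B) K₀ Bn hX.b0 hX.cop hX.om hk₀ hkK c₀ hW.mem₀
      (INP.c_ne hW) n₁ hNr χ (fun n₀ => ?_) N n₀
    exact h1 A B V f hS hTor ι R u el lam hG K₀ Bn hX.b0 hX.cop hKT hk₀ hkK C hE c₀ hW.mem₀ hc₀ χ n₀
  exact
    { mem := hW.mem
      ne := hW.ne
      mem₀ := hW.mem₀
      norm := hW.norm
      prime := hW.prime
      su := hW.su
      nrm := hW.nrm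
      kol := hW.kol
      i3 := hI3 }

end

end Pool.Agent.NSI
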