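import Pool.Agent.MUX.DefsX2

/-!
# MUX-NS: common definitions (helper6). See `Pool/Agent/MUX/PAPER_NS.md`

`3` inert in `k` (`CaseI A B`, `D ≠ -4`), `V` a valuation ring of `ℂ` with `V ∩ O = 3 O` (`OverI V (idl 3)`),
`v = V.valuation` (multiplicative; `v x ≤ v 3` is the additive `v(x) ≥ 1`). Levels `m = lvX 3 f n = f 3^(n+1)`, `a = aX 3 f =
1 + 6 f`. `R : Reps A B (3 * f) ι`. Everything which does not see `3` is as in `DefsX.lean`, `DefsX2.lean` (namespace `MUX`):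
`RF m`, `Reps`, `pt`, `XX`, `muX`, `dlX`, `SnX`, `STX`, `PhiI`, `PhiK`, `IsEI`, `TorX`.

* `GoodN V L u e lam` : the lattice `u L` has the Legendre equation `y² = x (x - 1) (x - lam)`, `x(u z) = (℘(z; L) - e)/u²`,
  `y(u z) = ℘'(z; L)/(2 u³)`, and `lam ≡ -1` modulo `3` (supersingular good reduction). `u² = e₂ - e₁`.
* `IsTei V w` : the Teichmueller character `w` of `(O/3)^*` (values in the 8th roots of unity), `w x ≡ emb x` modulo `3`.
* `TTN R w m a h τ = Σ w(x) mu_i (Θ_a'/Θ_a)(pt R m i x; L_i)`, `(i, x) ∈ XX R m h τ`.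
-/

set_option autoImplicit false

namespace Pool.Agent.NS

open _root_.MU3 Pool.Agent.MU3A Pool.Agent.MU3B Pool.Agent.RI Pool.Agent.MUX OnePoint

noncomputable section

/-- `3` is inert in `k`, and `D ≠ -4` -/
structure CaseI (A B : ℤ) : Prop extends CQ A B where
  three : (3 : ℤ) ∣ B ^ 2 + 4 * A + 1
  exc : ¬ (B = 0 ∧ A = -1)

/-- the standing hypotheses -/
structure SetN (A B : ℤ) (V : ValuationSubring ℂ) (f : ℕ) : Prop where
  case : CaseI A B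
  hV : OverI V (idl (A := A) (B := B) 3)
  f0 : f ≠ 0
  fp : ¬ 3 ∣ f
  fD : 2 * absD A B ∣ (f : ℤ)

/-- the lattice `u L` is in Legendre form, with supersingular good reduction at `V` -/
structure GoodN (V : ValuationSubring ℂ) (L : PeriodPair) (u e lam : ℂ) : Prop where
  u0 : u ≠ 0
  eq : ∀ z ∉ L.lattice, (L.derivWeierstrassP z / (2 * u ^ 3)) ^ 2 =
    ((L.weierstrassP z - e) / u ^ 2) * ((L.weierstrassP z - e) / u ^ 2 - 1) *
      ((L.weierstrassP z - e) / u ^ 2 - lam)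
  lam1 : V.valuation (1 + lam) ≤ V.valuation (3 : ℂ)

/-- the coordinates on `u L`, as functions on `L` -/
def xu (L : PeriodPair) (u e z : ℂ) : ℂ := (L.weierstrassP z - e) / u ^ 2

def yu (L : PeriodPair) (u z : ℂ) : ℂ := L.derivWeierstrassP z / (2 * u ^ 3)

/-- Teichmueller character of `(O/3)^*`, extended by `0` -/
structure IsTei {A B : ℤ} (V : ValuationSubring ℂ) (w : OO A B → ℂ) : Prop where
  one : w 1 = 1
  mul : ∀ x y, w (x * y) = w x * w y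
  per : ∀ x y, x - y ∈ idl (A := A) (B := B) 3 → w x = w y
  zero : ∀ x ∈ idl (A := A) (B := B) 3, w x = 0
  pow : ∀ x ∉ idl (A := A) (B := B) 3, w x ^ 8 = 1
  cong : ∀ x, V.valuation (w x - emb x) ≤ V.valuation (3 : ℂ)

section
variable {A B : ℤ} {n : ℕ} {ι : Type}

/-- `T(τ)` with the weights `w` -/
def TTN (R : Reps A B n ι) (w : OO A B → ℂ) (m a : ℕ) {D : IntermediateField ℚ ℂ}
    (h : kk A B ≤ D) (τ : letI := algC h; D ≃ₐ[kk A B] D) : ℂ :=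
  ∑ᶠ q ∈ XX R m h τ, w (Quotient.out q.2) * muX R q.1 *
    dlX (R.L q.1) a (pt R m q.1 (Quotient.out q.2))

end

/-- the automorphism `σ` of `ℂ / k` is in the inertia group of `F` at `V` -/
structure InI (A B : ℤ) (V : ValuationSubring ℂ) (F : Set ℂ) (σ : ℂ ≃+* ℂ) : Prop where
  fix : FixK A B σ
  stab : ∀ y ∈ F, σ y ∈ F
  iner : ∀ y ∈ F, y ∈ V → σ y - y ∈ V.nonunits

/-! ## Final statements of the blocks -/

/-- (RFIN, helper58) the reduction of the normalised lattices: good models, with `u², e, lam` in `RF (2)`, and uniqueness in the form: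
an automorphism in the inertia group of `RF (idl f)` is trivial on it (`f` prime to `3`). -/
def Sn_RFIN : Prop :=
  ∀ (A B : ℤ) (V : ValuationSubring ℂ), CaseI A B → OverI V (idl (A := A) (B := B) 3) →
    TorX A B →
    (∀ (b : Ideal (OO A B)) (L : PeriodPair) (om : ℂ), IsNL b L om →
      ∃ u e lam : ℂ, GoodN V L u e lam ∧ u ^ 2 ∈ RF (idl (A := A) (B := B) 2) ∧
        e ∈ RF (idl (A := A) (B := B) 2) ∧ lam ∈ RF (idl (A := A) (B := B) 2)) ∧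
    ∀ f : ℕ, f ≠ 0 → ¬ 3 ∣ f → ∀ σ : ℂ ≃+* ℂ, FixK A B σ →
      (∀ y ∈ RF (idl (A := A) (B := B) f), y ∈ V → σ y - y ∈ V.nonunits) →
      ∀ y ∈ RF (idl (A := A) (B := B) f), σ y = y

/-- (EFIN, helper86) cubes have a logarithmic derivative divisible by `3`. `C` is a conjugate family, a product of `Θ_a` over `XX`. -/
def Sn_EFIN : Prop :=
  ∀ (A B : ℤ) (V : ValuationSubring ℂ) (f : ℕ), SetN A B V f → TorX A B →
    ∀ (ι : Type) [Fintype ι] (R : Reps A B (3 * f) ι) (u e lam : ℂ),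
    GoodN V (R.L R.i0) u e lam → ∀ w : OO A B → ℂ, IsTei V w →
    ∀ n : ℕ, 1 ≤ n →
    ∀ (H : ι → Finset ℂ), (∀ i, IsHalf (R.L i) (aX 3 f : ℂ) (H i)) →
    ∀ (D : IntermediateField ℚ ℂ) (h : kk A B ≤ D),
      (∀ y ∈ D, y ∈ RF (idl (A := A) (B := B) (lvX 3 f n))) →
    letI := algC h
    (∀ τ : D ≃ₐ[kk A B] D, ∃ y : D, (y : ℂ) = cX R (lvX 3 f n) H h 1 ∧
      ((τ y : D) : ℂ) = cX R (lvX 3 f n) H h τ) →
    ∀ g : (D ≃ₐ[kk A B] D) → ℤ,
      (∃ y ∈ D, y ^ 3 = ∏ᶠ τ : D ≃ₐ[kk A B] D, cX R (lvX 3 f n) H h τ ^ g τ) →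
      ∀ τ' : D ≃ₐ[kk A B] D,
        V.valuation ((∑ᶠ τ : D ≃ₐ[kk A B] D, (g τ : ℂ) *
          TTN R w (lvX 3 f n) (aX 3 f) h (τ * τ')) / u) ≤ V.valuation (3 : ℂ)

/-- (HFIN) the character sums: for `(e, s)` with type `4 ≤ i ≤ 7`. -/
def Sn_HFIN : Prop :=
  ∀ (A B : ℤ) (V : ValuationSubring ℂ) (f : ℕ), SetN A B V f → TorX A B →
    ∀ (ι : Type) [Fintype ι] (R : Reps A B (3 * f) ι) (u el lam : ℂ),
    GoodN V (R.L R.i0) u el lam → ∀ w : OO A B → ℂ, IsTei V w →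
    ∀ e : OO A B → ℂ, IsEI (idl (A := A) (B := B) (3 * f)) e → ∀ r : ℕ, ¬ 3 ∣ r →
    (∀ x, e x ≠ 0 → e x ^ r = 1) → ∀ i : ℕ, 4 ≤ i → i ≤ 7 →
    (∀ x, x - 1 ∈ idl (A := A) (B := B) f → x ∉ idl (A := A) (B := B) 3 → e x = w x ^ i) →
    ∀ s : ℤ, s = 1 ∨ s = -1 → ∀ kk : ι → ℂ, (∀ i, kk i ^ r = 1) →
    ∀ n₀ : ℕ, ∃ n, n₀ ≤ n ∧
      V.valuation (3 : ℂ) < V.valuation ((∑ j ∈ Finset.range 2, (-1) ^ (1 - j) *
        (STX R (lvX 3 f n) (3 ^ (n + 1)) (aX 3 f) e kk (4 ^ j) +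
          s * STX R (lvX 3 f n) (3 ^ (n + 1)) (aX 3 f) e kk (-(4 ^ j)))) / u)

end

end Pool.Agent.NS
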