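import Pool.Agent.NS.StEN

/-!
# MUX-NS, block EN, module BAS: totally ramified over unramified
-/

set_option autoImplicit false

namespace Pool.Agent.NSE

namespace BAS

/-- valuation of a sum of elements of different valuations -/
theorem sum_max {E Γ : Type} [Field E] [LinearOrderedCommGroupWithZero Γ] (v : Valuation E Γ)
    {ι : Type} [DecidableEq ι] (s : Finset ι) (f : ι → E)
    (h : ∀ i ∈ s, ∀ j ∈ s, i ≠ j → f i ≠ 0 → f j ≠ 0 → v (f i) ≠ v (f j)) :
    ∀ i ∈ s, v (f i) ≤ v (∑ j ∈ s, f j) := by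
  intro i hi
  by_cases h0 : f i = 0
  · rw [h0, map_zero]; exact zero_le
  obtain ⟨j, hj, hmax⟩ := s.exists_max_image (fun k => v (f k)) ⟨i, hi⟩
  have hfi : v (f i) ≠ 0 := (Valuation.ne_zero_iff v).2 h0
  have hfj : v (f j) ≠ 0 := fun h1 => hfi (le_antisymm (h1 ▸ hmax i hi) zero_le)
  have hj0 : f j ≠ 0 := (Valuation.ne_zero_iff v).1 hfj
  have key : v (∑ k ∈ s, f k) = v (f j) := by
    refine Valuation.map_sum_eq_of_lt v hj ?_
    intro k hk
    obtain ⟨hk1, hk2⟩ := Finset.mem_sdiff.1 hk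
    rw [Finset.mem_singleton] at hk2
    by_cases hk0 : f k = 0
    · rw [hk0, map_zero]; exact zero_lt_iff.2 hfj
    · exact lt_of_le_of_ne (hmax k hk1) (h k hk1 j hj hk2 hk0 hj0)
  rw [key]
  exact hmax i hi

end BAS

open BAS in
/-- (BAS) -/
theorem te_BAS : Se_BAS := by
  intro K E Γ _ _ _ _ v M₀ M _ _ N p π hM hN hfin hp0 hp1 hval hπ hvπ w hwM hw
  have hvp0 : v p ≠ 0 := (Valuation.ne_zero_iff v).2 hp0
  have hρ0 : v π ≠ 0 := by
    intro h
    rw [h, zero_pow hN.ne'] at hvπ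
    exact hvp0 hvπ.symm
  have hρ1 : v π < 1 := by
    by_contra h
    have h1 : (1 : Γ) ≤ v π ^ N := one_le_pow₀ (not_lt.1 h)
    rw [hvπ] at h1
    exact absurd hp1 (not_lt.2 h1)
  have hmono : StrictAnti (fun j : ℤ => v π ^ j) :=
    zpow_right_strictAnti₀ (zero_lt_iff.2 hρ0) hρ1
  -- the linear map
  let T : (Fin N → M₀) →ₗ[K] M :=
    { toFun := fun a => ∑ i, IntermediateField.inclusion hM (a i) * (⟨π, hπ⟩ : M) ^ (i : ℕ)
      map_add' := fun a b => by
        simp only [Pi.add_apply, map_add, add_mul, Finset.sum_add_distrib]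
      map_smul' := fun c a => by
        simp only [Pi.smul_apply, map_smul, smul_mul_assoc, RingHom.id_apply, Finset.smul_sum] }
  have hTc : ∀ a : Fin N → M₀, ((T a : M) : E) = ∑ i, ((a i : M₀) : E) * π ^ (i : ℕ) := by
    intro a
    change ((∑ i, IntermediateField.inclusion hM (a i) * (⟨π, hπ⟩ : M) ^ (i : ℕ) : M) : E) = _
    push_cast
    rfl
  have hterm : ∀ (a : Fin N → M₀) (i : Fin N), ((a i : M₀) : E) ≠ 0 → ∃ k : ℤ,
      v ((a i : M₀) : E) = v π ^ (N * k) ∧
      v (((a i : M₀) : E) * π ^ (i : ℕ)) = v π ^ (N * k + (i : ℕ) : ℤ) := by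
    intro a i h
    obtain ⟨k, hk⟩ := hval _ (a i).2 h
    have h1 : v ((a i : M₀) : E) = v π ^ ((N : ℤ) * k) := by
      rw [hk, ← hvπ, zpow_mul, zpow_natCast]
    refine ⟨k, h1, ?_⟩
    rw [map_mul, map_pow, h1, zpow_add₀ hρ0, zpow_natCast]
  have hmax : ∀ (a : Fin N → M₀) (i : Fin N),
      v (((a i : M₀) : E) * π ^ (i : ℕ)) ≤ v ((T a : M) : E) := by
    intro a i
    rw [hTc]
    refine sum_max v Finset.univ (fun i : Fin N => ((a i : M₀) : E) * π ^ (i : ℕ)) ?_ i
      (Finset.mem_univ i)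
    intro i _ j _ hij hi hj he
    obtain ⟨k, -, hk⟩ := hterm a i (left_ne_zero_of_mul hi)
    obtain ⟨l, -, hl⟩ := hterm a j (left_ne_zero_of_mul hj)
    change v (((a i : M₀) : E) * π ^ (i : ℕ)) = v (((a j : M₀) : E) * π ^ (j : ℕ)) at he
    rw [hk, hl] at he
    have h1 : (N : ℤ) * k + (i : ℕ) = N * l + (j : ℕ) := hmono.injective he
    have h2 := i.2
    have h3 := j.2
    apply hij
    apply Fin.ext
    have h4 : ((i : ℕ) : ℤ) = ((N : ℤ) * k + (i : ℕ)) % N := by
      rw [Int.mul_add_emod_self_left, Int.emod_eq_of_lt (by positivity) (by exact_mod_cast h2)]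
    have h5 : ((j : ℕ) : ℤ) = ((N : ℤ) * l + (j : ℕ)) % N := by
      rw [Int.mul_add_emod_self_left, Int.emod_eq_of_lt (by positivity) (by exact_mod_cast h3)]
    have h6 : ((i : ℕ) : ℤ) = ((j : ℕ) : ℤ) := by rw [h4, h5, h1]
    exact_mod_cast h6
  have hπ0 : π ≠ 0 := (Valuation.ne_zero_iff v).1 hρ0
  have hinj : Function.Injective T := by
    rw [injective_iff_map_eq_zero]
    intro a ha
    funext i
    have h1 := hmax a i
    rw [ha] at h1
    have h2 : v (((0 : M) : M) : E) = 0 := by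
      rw [ZeroMemClass.coe_zero, map_zero]
    rw [h2] at h1
    have h3 : ((a i : M₀) : E) * π ^ (i : ℕ) = 0 := by
      by_contra h
      exact (Valuation.ne_zero_iff v).2 h (le_antisymm h1 zero_le)
    rcases mul_eq_zero.1 h3 with h4 | h4
    · exact Subtype.ext h4
    · exact absurd h4 (pow_ne_zero _ hπ0)
  have hsurj : Function.Surjective T := by
    have h1 : Module.finrank K (Fin N → M₀) = N * Module.finrank K M₀ := by
      rw [Module.finrank_pi_fintype]
      simp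
    have h2 := LinearMap.finrank_le_finrank_of_injective hinj
    exact (LinearMap.injective_iff_surjective_of_finrank_eq_finrank
      (le_antisymm h2 (by rw [h1]; exact hfin))).1 hinj
  obtain ⟨a, ha⟩ := hsurj ⟨w, hwM⟩
  have hva : ∀ i, v ((a i : M₀) : E) ≤ 1 := by
    intro i
    by_cases h0 : ((a i : M₀) : E) = 0
    · rw [h0, map_zero]; exact zero_le_one
    obtain ⟨k, hk1, hk2⟩ := hterm a i h0
    have h1 := hmax a i
    rw [ha, hk2] at h1
    have h2 : v π ^ ((N : ℤ) * k + (i : ℕ)) ≤ v π ^ (0 : ℤ) := by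
      rw [zpow_zero]; exact h1.trans hw
    have h3 : 0 ≤ (N : ℤ) * k + (i : ℕ) := hmono.le_iff_ge.1 h2
    have h4 : 0 ≤ k := by
      by_contra hk
      have h5 : k ≤ -1 := by omega
      have h6 : (N : ℤ) * k ≤ N * (-1) := mul_le_mul_of_nonneg_left h5 (by positivity)
      have h7 := i.2
      have h8 : ((i : ℕ) : ℤ) < N := by exact_mod_cast h7
      linarith
    rw [hk1, ← zpow_zero (v π)]
    exact hmono.le_iff_ge.2 (by positivity)
  refine ⟨a, hva, ?_⟩
  rw [← hTc a, ha]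

end Pool.Agent.NSE
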