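import Pool.Agent.NS.StER

/-!
# MUX-NS, block ER, module ALG (helper86): the ring of the functions `A(s) + r B(s)`
-/

set_option autoImplicit false

open Polynomial

namespace Pool.Agent.NSER

open _root_.MU3 Pool.Agent.MU3A Pool.Agent.MU3B Pool.Agent.MUX Pool.Agent.MUXU Pool.Agent.MUXE
open Pool.Agent.RI Pool.Agent.NS
open Pool.Agent.MUXV (GR InK tX)
open Pool.Agent.NSE (IntP Rep)

noncomputable section

namespace ALG

variable {V : ValuationSubring ℂ}

lemma lift {P : ℂ[X]} (h : IntP V P) : ∃ P' : V[X], P'.map V.subtype = P := by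
  have h1 : P ∈ Polynomial.lifts V.subtype := by
    rw [Polynomial.lifts_iff_coeff_lifts]
    intro n
    exact ⟨⟨P.coeff n, (V.valuation_le_one_iff _).mp (h n)⟩, rfl⟩
  exact (Polynomial.mem_lifts _).mp h1

lemma ofMap (P' : V[X]) : IntP V (P'.map V.subtype) := by
  intro i
  rw [coeff_map]
  exact V.valuation_le_one _

lemma add {P Q : ℂ[X]} (hP : IntP V P) (hQ : IntP V Q) : IntP V (P + Q) := by
  obtain ⟨P', rfl⟩ := lift hP
  obtain ⟨Q', rfl⟩ := lift hQ
  rw [← Polynomial.map_add]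
  exact ofMap _

lemma mul {P Q : ℂ[X]} (hP : IntP V P) (hQ : IntP V Q) : IntP V (P * Q) := by
  obtain ⟨P', rfl⟩ := lift hP
  obtain ⟨Q', rfl⟩ := lift hQ
  rw [← Polynomial.map_mul]
  exact ofMap _

lemma sub {P Q : ℂ[X]} (hP : IntP V P) (hQ : IntP V Q) : IntP V (P - Q) := by
  obtain ⟨P', rfl⟩ := lift hP
  obtain ⟨Q', rfl⟩ := lift hQ
  rw [← Polynomial.map_sub]
  exact ofMap _

lemma iC {c : ℂ} (hc : V.valuation c ≤ 1) : IntP V (C c) := by
  intro i
  rw [coeff_C]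
  split_ifs
  · exact hc
  · rw [map_zero]
    exact zero_le'

lemma iX : IntP V (X : ℂ[X]) := by
  intro i
  rw [coeff_X]
  split_ifs
  · rw [map_one]
  · rw [map_zero]
    exact zero_le'

lemma iprod {ι : Type*} (T : Finset ι) (F : ι → ℂ[X]) (h : ∀ i ∈ T, IntP V (F i)) :
    IntP V (∏ i ∈ T, F i) := by
  classical
  induction T using Finset.induction_on with
  | empty =>
    have h1 : IntP V (C (1 : ℂ)) := iC (by rw [map_one])
    simpa using h1
  | insert a T ha ih =>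
    rw [Finset.prod_insert ha]
    exact mul (h a (Finset.mem_insert_self _ _))
      (ih fun i hi => h i (Finset.mem_insert_of_mem hi))

lemma idivX {P : ℂ[X]} (hP : IntP V P) : IntP V P.divX := by
  intro i
  rw [coeff_divX]
  exact hP _

lemma ev {P : ℂ[X]} (hP : IntP V P) {x : ℂ} (hx : V.valuation x ≤ 1) :
    V.valuation (P.eval x) ≤ 1 := by
  obtain ⟨P', rfl⟩ := lift hP
  obtain ⟨x', rfl⟩ : ∃ x' : V, V.subtype x' = x :=
    ⟨⟨x, (V.valuation_le_one_iff _).mp hx⟩, rfl⟩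
  rw [Polynomial.eval_map_apply]
  exact V.valuation_le_one _

lemma ev0 (P : ℂ[X]) (x : ℂ) : P.eval x - P.coeff 0 = P.divX.eval x * x := by
  have h1 := congrArg (fun R : ℂ[X] => R.eval x) (Polynomial.divX_mul_X_add P)
  simp only [eval_add, eval_mul, eval_X, eval_C] at h1
  rw [← h1]
  ring

lemma evs {P : ℂ[X]} (hP : IntP V P) {x : ℂ} (hx : V.valuation x < 1) :
    V.valuation (P.eval x - P.coeff 0) < 1 := by
  rw [ev0, map_mul]
  calc V.valuation (P.divX.eval x) * V.valuation x ≤ 1 * V.valuation x :=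
        mul_le_mul_left (ev (idivX hP) hx.le) _
    _ < 1 := by rw [one_mul]; exact hx

lemma vanish {P : ℂ[X]} (hP : IntP V P) (t : Fin 4 → ℂ) (ht : ∀ i, V.valuation (t i) ≤ 1)
    (hinj : Function.Injective t) (h0 : ∀ i, P.eval (t i) = 0) :
    V.valuation (P.coeff 0) ≤ V.valuation (∏ i, t i) := by
  classical
  obtain ⟨P', rfl⟩ := lift hP
  by_cases hz : P' = 0
  · subst hz
    simp
  have ht2 : ∀ i, t i ∈ V := fun i => (V.valuation_le_one_iff _).mp (ht i)
  let t' : Fin 4 → V := fun i => ⟨t i, ht2 i⟩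
  have hi2 : Function.Injective t' := by
    intro i j hij
    exact hinj (congrArg Subtype.val hij)
  have h2 : ∀ i, P'.eval (t' i) = 0 := by
    intro i
    have h3 : (P'.map V.subtype).eval (V.subtype (t' i)) = 0 := h0 i
    rw [Polynomial.eval_map_apply] at h3
    exact (map_eq_zero_iff V.subtype V.subtype_injective).mp h3
  have h4 : (Finset.univ.val.map t') ≤ P'.roots := by
    rw [Multiset.le_iff_subset (Finset.univ.nodup.map hi2)]
    intro x hx
    obtain ⟨i, -, rfl⟩ := Multiset.mem_map.mp hx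
    exact (mem_roots hz).mpr (h2 i)
  obtain ⟨Q, hQ⟩ := (Multiset.prod_X_sub_C_dvd_iff_le_roots hz _).mpr h4
  have h5 : P'.coeff 0 = (∏ i, (0 - t' i)) * Q.eval 0 := by
    rw [Polynomial.coeff_zero_eq_eval_zero, hQ, eval_mul]
    congr 1
    rw [Multiset.map_map]
    have h6 : (Multiset.map ((fun a : V => (X - C a : V[X])) ∘ t') Finset.univ.val).prod =
        ∏ i, (X - C (t' i)) := rfl
    rw [h6, eval_prod]
    simp
  rw [coeff_map, h5, map_mul, map_mul]
  have h7 : V.valuation (V.subtype (∏ i, (0 - t' i))) = V.valuation (∏ i, t i) := by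
    rw [map_prod, map_prod, map_prod]
    refine Finset.prod_congr rfl fun i _ => ?_
    rw [map_sub, map_zero, zero_sub, Valuation.map_neg]
    rfl
  rw [h7]
  calc V.valuation (∏ i, t i) * V.valuation (V.subtype (Q.eval 0))
      ≤ V.valuation (∏ i, t i) * 1 := mul_le_mul_right (V.valuation_le_one _) _
    _ = _ := mul_one _

/-! ### the ring without the numbers -/

/-- represented by some polynomials -/
def RE (V : ValuationSubring ℂ) (S : Set ℂ) (s r F : ℂ → ℂ) : Prop :=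
  ∃ P Q : ℂ[X], IntP V P ∧ IntP V Q ∧ ∀ Y ∈ S, F Y = P.eval (s Y) + r Y * Q.eval (s Y)

variable {S : Set ℂ} {s r : ℂ → ℂ} {a2 a4 : ℂ}

lemma vle3 (hp : PtsR V S s r a2 a4) {x y : ℂ} (hx : V.valuation x ≤ V.valuation (3 : ℂ))
    (hy : V.valuation y ≤ V.valuation (3 : ℂ)) : V.valuation (x + y) ≤ V.valuation (3 : ℂ) :=
  (V.valuation.map_add _ _).trans (max_le hx hy)

lemma unit (hp : PtsR V S s r a2 a4) {Y : ℂ} (hY : Y ∈ S) :
    V.valuation (1 + a2 * s Y + a4 * s Y ^ 2) = 1 := by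
  have hs := (hp.vs Y hY).2
  have h1 : V.valuation (a2 * s Y + a4 * s Y ^ 2) < 1 := by
    refine (V.valuation.map_add _ _).trans_lt (max_lt ?_ ?_)
    · rw [map_mul]
      calc _ ≤ 1 * V.valuation (s Y) := mul_le_mul_left hp.i2 _
        _ < 1 := by rw [one_mul]; exact hs
    · rw [map_mul, map_pow]
      calc _ ≤ 1 * V.valuation (s Y) ^ 2 := mul_le_mul_left hp.i4 _
        _ < 1 := by rw [one_mul]; exact pow_lt_one₀ zero_le' hs two_ne_zero
  have h2 : V.valuation (1 + (a2 * s Y + a4 * s Y ^ 2)) = 1 := by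
    rw [Valuation.map_add_eq_of_lt_left, map_one]
    rw [map_one]
    exact h1
  rw [← h2]
  congr 1
  ring

lemma vr (hp : PtsR V S s r a2 a4) {Y : ℂ} (hY : Y ∈ S) : r Y ≠ 0 ∧ V.valuation (r Y) < 1 := by
  have hs := hp.vs Y hY
  have h1 : V.valuation (r Y) ^ 2 = V.valuation (s Y) := by
    rw [← map_pow, hp.eq Y hY, map_mul, unit hp hY, mul_one]
  constructor
  · intro h2
    rw [h2, map_zero] at h1
    have h3 : V.valuation (s Y) = 0 := by rw [← h1]; simp
    exact hs.1 ((map_eq_zero V.valuation).mp h3)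
  · by_contra h2
    rw [not_lt] at h2
    have h3 : 1 ≤ V.valuation (r Y) ^ 2 := one_le_pow₀ h2
    rw [h1] at h3
    exact absurd hs.2 (not_lt.mpr h3)

lemma REconst {c : ℂ} (hc : V.valuation c ≤ 1) : RE V S s r (fun _ => c) := by
  refine ⟨C c, 0, iC hc, ?_, ?_⟩
  · intro i
    simp
  · intro Y _
    simp

lemma REadd {F G : ℂ → ℂ} (hF : RE V S s r F) (hG : RE V S s r G) :
    RE V S s r (fun Y => F Y + G Y) := by
  obtain ⟨P, Q, hP, hQ, h1⟩ := hF
  obtain ⟨P', Q', hP', hQ', h2⟩ := hG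
  refine ⟨P + P', Q + Q', add hP hP', add hQ hQ', fun Y hY => ?_⟩
  simp only [h1 Y hY, h2 Y hY, eval_add]
  ring

/-- the polynomial `X (1 + a₂ X + a₄ X²)` -/
def fX (a2 a4 : ℂ) : ℂ[X] := X * (C 1 + C a2 * X + C a4 * (X * X))

lemma ifX (h2 : V.valuation a2 ≤ 1) (h4 : V.valuation a4 ≤ 1) : IntP V (fX a2 a4) := by
  have h1 : V.valuation (1 : ℂ) ≤ 1 := by rw [map_one]
  exact mul iX (add (add (iC h1) (mul (iC h2) iX)) (mul (iC h4) (mul iX iX)))

lemma mulForm (hp : PtsR V S s r a2 a4) {F G : ℂ → ℂ} {P Q P' Q' : ℂ[X]}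
    (h1 : ∀ Y ∈ S, F Y = P.eval (s Y) + r Y * Q.eval (s Y))
    (h2 : ∀ Y ∈ S, G Y = P'.eval (s Y) + r Y * Q'.eval (s Y)) :
    ∀ Y ∈ S, F Y * G Y = (P * P' + fX a2 a4 * (Q * Q')).eval (s Y) +
      r Y * (P * Q' + P' * Q).eval (s Y) := by
  intro Y hY
  have h3 := hp.eq Y hY
  rw [h1 Y hY, h2 Y hY]
  simp only [fX, eval_add, eval_mul, eval_X, eval_C]
  linear_combination (Q.eval (s Y) * Q'.eval (s Y)) * h3

lemma REmul (hp : PtsR V S s r a2 a4) {F G : ℂ → ℂ} (hF : RE V S s r F) (hG : RE V S s r G) :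
    RE V S s r (fun Y => F Y * G Y) := by
  obtain ⟨P, Q, hP, hQ, h1⟩ := hF
  obtain ⟨P', Q', hP', hQ', h2⟩ := hG
  exact ⟨_, _, add (mul hP hP') (mul (ifX hp.i2 hp.i4) (mul hQ hQ')),
    add (mul hP hQ') (mul hP' hQ), mulForm hp h1 h2⟩

lemma REpow (hp : PtsR V S s r a2 a4) {F : ℂ → ℂ} (hF : RE V S s r F) (n : ℕ) :
    RE V S s r (fun Y => F Y ^ n) := by
  induction n with
  | zero =>
    simp only [pow_zero]
    exact REconst (by rw [map_one])
  | succ n ih =>
    simp only [pow_succ]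
    exact REmul hp ih hF

lemma REpoly (hp : PtsR V S s r a2 a4) {F : ℂ → ℂ} (hF : RE V S s r F) (G : ℂ[X])
    (hG : IntP V G) : RE V S s r (fun Y => G.eval (F Y)) := by
  have h1 : ∀ T : Finset ℕ, RE V S s r (fun Y => ∑ i ∈ T, G.coeff i * F Y ^ i) := by
    intro T
    classical
    induction T using Finset.induction_on with
    | empty =>
      simp only [Finset.sum_empty]
      exact REconst (by rw [map_zero]; exact zero_le')
    | insert a T ha ih =>
      simp only [Finset.sum_insert ha]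
      exact REadd (REmul hp (REconst (hG a)) (REpow hp hF a)) ih
  have h2 := h1 (Finset.range (G.natDegree + 1))
  obtain ⟨P, Q, hP, hQ, h3⟩ := h2
  refine ⟨P, Q, hP, hQ, fun Y hY => ?_⟩
  rw [← h3 Y hY]
  exact Polynomial.eval_eq_sum_range _

/-- the inverse -/
lemma REinv (hp : PtsR V S s r a2 a4) {F : ℂ → ℂ} (hF : RE V S s r F)
    (h1 : ∀ Y ∈ S, V.valuation (F Y) = 1) : RE V S s r (fun Y => (F Y)⁻¹) := by
  classical
  have hfin : (F '' S).Finite := by
    obtain ⟨P, Q, -, -, h2⟩ := hF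
    have h3 : F '' S = (fun q : ℂ × ℂ => P.eval q.1 + q.2 * Q.eval q.1) ''
        ((fun Y => (s Y, r Y)) '' S) := by
      rw [Set.image_image]
      exact Set.image_congr fun Y hY => h2 Y hY
    rw [h3]
    exact hp.fin.image _
  set T := hfin.toFinset with hT
  have hmem : ∀ w, w ∈ T ↔ ∃ Y ∈ S, F Y = w := by
    intro w
    rw [hT, Set.Finite.mem_toFinset]
    rfl
  set R : ℂ[X] := ∏ w ∈ T, (X - C w) with hR
  have iR : IntP V R := by
    refine iprod T _ fun w hw => ?_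
    obtain ⟨Y, hY, rfl⟩ := (hmem w).mp hw
    exact sub iX (iC (h1 Y hY).le)
  have hc : V.valuation (R.coeff 0) = 1 := by
    rw [Polynomial.coeff_zero_eq_eval_zero, hR, eval_prod, map_prod]
    refine Finset.prod_eq_one fun w hw => ?_
    obtain ⟨Y, hY, rfl⟩ := (hmem w).mp hw
    simp only [eval_sub, eval_X, eval_C, zero_sub, Valuation.map_neg]
    exact h1 Y hY
  have hc0 : R.coeff 0 ≠ 0 := by
    intro h2
    rw [h2, map_zero] at hc
    exact zero_ne_one hc
  have hz : ∀ Y ∈ S, R.eval (F Y) = 0 := by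
    intro Y hY
    rw [hR, eval_prod]
    refine Finset.prod_eq_zero ((hmem _).mpr ⟨Y, hY, rfl⟩) ?_
    simp
  have hci : V.valuation (-(R.coeff 0)⁻¹) ≤ 1 := by
    rw [Valuation.map_neg, map_inv₀, hc, inv_one]
  obtain ⟨P, Q, hP, hQ, h3⟩ := REpoly hp hF (C (-(R.coeff 0)⁻¹) * R.divX)
    (mul (iC hci) (idivX iR))
  refine ⟨P, Q, hP, hQ, fun Y hY => ?_⟩
  rw [← h3 Y hY]
  have h4 := ev0 R (F Y)
  rw [hz Y hY] at h4
  have hF0 : F Y ≠ 0 := by
    intro h5
    have h6 := h1 Y hY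
    rw [h5, map_zero] at h6
    exact zero_ne_one h6
  simp only [eval_mul, eval_C]
  field_simp
  linear_combination -h4

lemma toRE {F : ℂ → ℂ} {α β : ℂ} (h : Rep V S s r F α β) : RE V S s r F := by
  obtain ⟨P, Q, hP, hQ, h1, -⟩ := h
  exact ⟨P, Q, hP, hQ, h1⟩

lemma toRep {F : ℂ → ℂ} (h : RE V S s r F) : ∃ α β : ℂ, Rep V S s r F α β := by
  obtain ⟨P, Q, hP, hQ, h1⟩ := h
  refine ⟨P.coeff 0, Q.coeff 0, P, Q, hP, hQ, h1, ?_, ?_⟩ <;>
  · rw [sub_self, map_zero]
    exact zero_le'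

lemma ints (hp : PtsR V S s r a2 a4) {F : ℂ → ℂ} {α β : ℂ} (h : Rep V S s r F α β) :
    V.valuation α ≤ 1 ∧ V.valuation β ≤ 1 ∧ ∀ Y ∈ S, V.valuation (F Y - α) < 1 := by
  obtain ⟨P, Q, hP, hQ, h1, h2, h3⟩ := h
  have aux : ∀ x y : ℂ, V.valuation x ≤ 1 → V.valuation (x - y) ≤ V.valuation (3 : ℂ) →
      V.valuation y ≤ 1 := by
    intro x y hx hxy
    have h4 : y = x + -(x - y) := by ring
    rw [h4]
    refine (V.valuation.map_add _ _).trans (max_le hx ?_)
    rw [Valuation.map_neg]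
    exact hxy.trans hp.v3.le
  refine ⟨aux _ _ (hP 0) h2, aux _ _ (hQ 0) h3, fun Y hY => ?_⟩
  have h4 : F Y - α = (P.eval (s Y) - P.coeff 0) + ((P.coeff 0 - α) + r Y * Q.eval (s Y)) := by
    rw [h1 Y hY]
    ring
  have hs := (hp.vs Y hY).2
  rw [h4]
  refine (V.valuation.map_add _ _).trans_lt (max_lt (evs hP hs) ?_)
  refine (V.valuation.map_add _ _).trans_lt (max_lt (h2.trans_lt hp.v3) ?_)
  rw [map_mul]
  calc _ ≤ V.valuation (r Y) * 1 := mul_le_mul_right (ev hQ hs.le) _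
    _ < 1 := by rw [mul_one]; exact (vr hp hY).2

lemma uniq (hp : PtsR V S s r a2 a4) {F : ℂ → ℂ} {α β α' β' : ℂ} (h : Rep V S s r F α β)
    (h' : Rep V S s r F α' β') : V.valuation (α - α') ≤ V.valuation (3 : ℂ) ∧
      V.valuation (β - β') ≤ V.valuation (3 : ℂ) := by
  obtain ⟨P, Q, hP, hQ, h1, h2, h3⟩ := h
  obtain ⟨P', Q', hP', hQ', h1', h2', h3'⟩ := h'
  obtain ⟨y, hyS, hinj, hprod⟩ := hp.four
  have key : ∀ Y ∈ S, (P - P').eval (s Y) = 0 ∧ (Q - Q').eval (s Y) = 0 := by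
    intro Y hY
    obtain ⟨Y', hY', hs', hr'⟩ := hp.neg Y hY
    have e1 := h1 Y hY
    have e2 := h1' Y hY
    have e3 := h1 Y' hY'
    have e4 := h1' Y' hY'
    rw [hs', hr'] at e3 e4
    have hr0 := (vr hp hY).1
    constructor
    · rw [eval_sub]
      linear_combination (1 / 2) * (e2 - e1) + (1 / 2) * (e4 - e3)
    · rw [eval_sub]
      have h5 : r Y * (Q.eval (s Y) - Q'.eval (s Y)) = 0 := by
        linear_combination (1 / 2) * (e2 - e1) - (1 / 2) * (e4 - e3)
      exact (mul_eq_zero.mp h5).resolve_left hr0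
  have van : ∀ R : ℂ[X], IntP V R → (∀ Y ∈ S, R.eval (s Y) = 0) →
      V.valuation (R.coeff 0) ≤ V.valuation (3 : ℂ) := by
    intro R hR h0
    exact (vanish hR (fun i => s (y i)) (fun i => (hp.vs _ (hyS i)).2.le) hinj
      fun i => h0 _ (hyS i)).trans hprod
  have v1 := van _ (sub hP hP') fun Y hY => (key Y hY).1
  have v2 := van _ (sub hQ hQ') fun Y hY => (key Y hY).2
  rw [coeff_sub] at v1 v2
  constructor
  · have e : α - α' = ((P.coeff 0 - P'.coeff 0) + -(P.coeff 0 - α)) + (P'.coeff 0 - α') := by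
      ring
    rw [e]
    refine vle3 hp (vle3 hp v1 ?_) h2'
    rw [Valuation.map_neg]
    exact h2
  · have e : β - β' = ((Q.coeff 0 - Q'.coeff 0) + -(Q.coeff 0 - β)) + (Q'.coeff 0 - β') := by
      ring
    rw [e]
    refine vle3 hp (vle3 hp v2 ?_) h3'
    rw [Valuation.map_neg]
    exact h3

lemma vmul3 {x y : ℂ} (hx : V.valuation x ≤ 1) (hy : V.valuation y ≤ V.valuation (3 : ℂ)) :
    V.valuation (x * y) ≤ V.valuation (3 : ℂ) := by
  rw [map_mul]
  calc _ ≤ 1 * V.valuation y := mul_le_mul_left hx _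
    _ ≤ _ := by rw [one_mul]; exact hy

lemma mulR (hp : PtsR V S s r a2 a4) {F G : ℂ → ℂ} {α β α' β' : ℂ} (h : Rep V S s r F α β)
    (h' : Rep V S s r G α' β') :
    Rep V S s r (fun Y => F Y * G Y) (α * α') (α * β' + α' * β) := by
  have hi := ints hp h
  have hi' := ints hp h'
  obtain ⟨P, Q, hP, hQ, h1, h2, h3⟩ := h
  obtain ⟨P', Q', hP', hQ', h1', h2', h3'⟩ := h'
  refine ⟨_, _, add (mul hP hP') (mul (ifX hp.i2 hp.i4) (mul hQ hQ')),
    add (mul hP hQ') (mul hP' hQ), mulForm hp h1 h1', ?_, ?_⟩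
  · have e : (P * P' + fX a2 a4 * (Q * Q')).coeff 0 - α * α' =
        P'.coeff 0 * (P.coeff 0 - α) + α * (P'.coeff 0 - α') := by
      simp only [fX, coeff_add, mul_coeff_zero, coeff_X_zero]
      ring
    rw [e]
    exact vle3 hp (vmul3 (hP' 0) h2) (vmul3 hi.1 h2')
  · have e : (P * Q' + P' * Q).coeff 0 - (α * β' + α' * β) =
        (Q'.coeff 0 * (P.coeff 0 - α) + α * (Q'.coeff 0 - β')) +
          (Q.coeff 0 * (P'.coeff 0 - α') + α' * (Q.coeff 0 - β)) := by
      simp only [coeff_add, mul_coeff_zero]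
      ring
    rw [e]
    exact vle3 hp (vle3 hp (vmul3 (hQ' 0) h2) (vmul3 hi.1 h3'))
      (vle3 hp (vmul3 (hQ 0) h2') (vmul3 hi'.1 h3))

end ALG

theorem tf_ALG : Sf_ALG := by
  intro V S s r a2 a4 hp
  have hz3 : V.valuation (0 : ℂ) ≤ V.valuation (3 : ℂ) := by
    rw [map_zero]
    exact zero_le'
  have i0 : IntP V (0 : ℂ[X]) := by
    intro i
    simp
  have i1 : IntP V (1 : ℂ[X]) := by
    have h1 : IntP V (C (1 : ℂ)) := ALG.iC (by rw [map_one])
    simpa using h1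
  have hconst : ∀ c, V.valuation c ≤ 1 → Rep V S s r (fun _ => c) c 0 := by
    intro c hc
    refine ⟨C c, 0, ALG.iC hc, i0, fun Y _ => by simp, ?_, ?_⟩
    · simpa using hz3
    · simpa using hz3
  have hweak : ∀ (F G : ℂ → ℂ) (α β α' β' : ℂ), Rep V S s r F α β → (∀ Y ∈ S, G Y = F Y) →
      V.valuation (α' - α) ≤ V.valuation (3 : ℂ) → V.valuation (β' - β) ≤ V.valuation (3 : ℂ) →
      Rep V S s r G α' β' := by
    intro F G α β α' β' h hG hα hβ
    obtain ⟨P, Q, hP, hQ, h1, h2, h3⟩ := h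
    refine ⟨P, Q, hP, hQ, fun Y hY => by rw [hG Y hY, h1 Y hY], ?_, ?_⟩
    · have e : P.coeff 0 - α' = (P.coeff 0 - α) + -(α' - α) := by ring
      rw [e]
      refine ALG.vle3 hp h2 ?_
      rw [Valuation.map_neg]
      exact hα
    · have e : Q.coeff 0 - β' = (Q.coeff 0 - β) + -(β' - β) := by ring
      rw [e]
      refine ALG.vle3 hp h3 ?_
      rw [Valuation.map_neg]
      exact hβ
  refine ⟨hconst, ?_, ?_, hweak, ?_, ?_, ?_, ?_, ?_⟩
  · refine ⟨X, 0, ALG.iX, i0, fun Y _ => by simp, ?_, ?_⟩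
    · simpa using hz3
    · simpa using hz3
  · refine ⟨0, 1, i0, i1, fun Y _ => by simp, ?_, ?_⟩
    · simpa using hz3
    · simpa using hz3
  · intro F G α β α' β' h h'
    obtain ⟨P, Q, hP, hQ, h1, h2, h3⟩ := h
    obtain ⟨P', Q', hP', hQ', h1', h2', h3'⟩ := h'
    refine ⟨P + P', Q + Q', ALG.add hP hP', ALG.add hQ hQ', fun Y hY => ?_, ?_, ?_⟩
    · simp only [h1 Y hY, h1' Y hY, eval_add]
      ring
    · have e : (P + P').coeff 0 - (α + α') = (P.coeff 0 - α) + (P'.coeff 0 - α') := by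
        rw [coeff_add]
        ring
      rw [e]
      exact ALG.vle3 hp h2 h2'
    · have e : (Q + Q').coeff 0 - (β + β') = (Q.coeff 0 - β) + (Q'.coeff 0 - β') := by
        rw [coeff_add]
        ring
      rw [e]
      exact ALG.vle3 hp h3 h3'
  · intro F G α β α' β' h h'
    exact ALG.mulR hp h h'
  · intro F α β h hα
    have hi := ALG.ints hp h
    have hα0 : α ≠ 0 := by
      intro h2
      rw [h2, map_zero] at hα
      exact zero_ne_one hα
    have hαi : V.valuation α⁻¹ = 1 := by rw [map_inv₀, hα, inv_one]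
    have hu : ∀ Y ∈ S, V.valuation (F Y) = 1 := by
      intro Y hY
      have h2 := hi.2.2 Y hY
      have h3 : F Y = α + (F Y - α) := by ring
      rw [h3, Valuation.map_add_eq_of_lt_left]
      · exact hα
      · rw [hα]
        exact h2
    refine ⟨hu, ?_⟩
    obtain ⟨α₁, β₁, h4⟩ := ALG.toRep (ALG.REinv hp (ALG.toRE h) hu)
    have h5 := ALG.mulR hp h h4
    have h6 : Rep V S s r (fun Y => F Y * (F Y)⁻¹) 1 0 := by
      refine hweak _ _ _ _ _ _ (hconst 1 (by rw [map_one])) (fun Y hY => ?_) ?_ ?_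
      · have h7 : F Y ≠ 0 := by
          intro h8
          have h9 := hu Y hY
          rw [h8, map_zero] at h9
          exact zero_ne_one h9
        exact mul_inv_cancel₀ h7
      · simpa using hz3
      · simpa using hz3
    obtain ⟨h7, h8⟩ := ALG.uniq hp h5 h6
    rw [sub_zero] at h8
    have h9 : V.valuation (α⁻¹ - α₁) ≤ V.valuation (3 : ℂ) := by
      have e : α⁻¹ - α₁ = -α⁻¹ * (α * α₁ - 1) := by
        field_simp
        ring
      rw [e]
      refine ALG.vmul3 ?_ h7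
      rw [Valuation.map_neg, hαi]
    refine hweak _ _ _ _ _ _ h4 (fun Y _ => rfl) h9 ?_
    have e : -β / α ^ 2 - β₁ = (-α⁻¹) * (α * β₁ + α₁ * β) + (-α⁻¹ * β) * (α⁻¹ - α₁) := by
      field_simp
      ring
    rw [e]
    refine ALG.vle3 hp (ALG.vmul3 ?_ h8) (ALG.vmul3 ?_ h9)
    · rw [Valuation.map_neg, hαi]
    · rw [map_mul, Valuation.map_neg, hαi, one_mul]
      exact hi.2.1
  · intro F α β h
    exact ALG.ints hp h
  · intro F α β α' β' h h'
    exact ALG.uniq hp h h'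

end

end Pool.Agent.NSER
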