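import Pool.Agent.NS.Y_Iha

/-!
# Block Y: the key lemma KEY0 (helper6)

`PAPER_NS.md`, section 4. A purely topological statement: no Hecke operator, no eigenvector.
-/

set_option autoImplicit false

namespace Pool.Agent.NSY

open OnePoint Pool.Agent.MuSym Pool.Agent.MuW2

variable {M : Type} [AddCommGroup M] {p N r n0 : ℕ} {Φ : OnePoint ℚ → OnePoint ℚ → M}

lemma HH.toIh {s : ℕ} {h : ℚ → M} (H : HH p N s h) {l : ℕ} (hl0 : 0 < l)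
    (hl : (N : ℤ) ∣ (p : ℤ) ^ l - 1) : Ih p N (2 * l) h where
  hp := H.hp
  hN := H.hN
  hpN := H.hpN
  hL := by
    rw [mul_comm]
    exact dvd_pow_mul_sub hl 2
  hL0 := by omega
  h0 := H.h0
  per := fun b d hd => by
    have := H.tr_int (x := (b : ℚ) / d) ⟨b, d, hd, rfl⟩ 1
    simpa using this
  eqv := fun a b c d hdet hc hd u v hv => by
    have := H.eqvN hdet hc hd (x := (u : ℚ) / v) ⟨u, v, hv, rfl⟩
    rw [← this]
    congr 1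
    have hv0 : (v : ℚ) ≠ 0 := by exact_mod_cast ne_of_cop H.hN hv
    push_cast
    field_simp
  sc := fun u v hv => H.scal hl ⟨u, v, hv, rfl⟩

/-- The key lemma: all closed cycles of `Γ₁(p ^ r N)` vanish (`1 ≤ r`). -/
theorem Key.closed_of (K : Key p N r n0 Φ) (hr : 1 ≤ r)
    (main : ∀ b d : ℤ, IsCoprime b d → (N : ℤ) ∣ d - 1 → ¬ (p : ℤ) ∣ d →
      hh p Φ ((b : ℚ) / d) = 0) {a b c d : ℤ} (hdet : a * d - b * c = 1)
    (hc : (p : ℤ) ^ r * N ∣ c) (hd : (p : ℤ) ^ r * N ∣ d - 1) (x : OnePoint ℚ) :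
    Φ x (mob a b c d x) = 0 := by
  have hNd : (N : ℤ) ∣ d - 1 := (dvd_mul_left _ _).trans hd
  have hpd : ¬ (p : ℤ) ∣ d := by
    intro h1
    have h2 : (p : ℤ) ∣ d - 1 := ((dvd_pow_self _ (by omega)).mul_right _).trans hd
    have h3 := dvd_sub h1 h2
    rw [sub_sub_cancel] at h3
    exact not_dvd_one K.hp h3
  have hbd : IsCoprime b d := ⟨-c, a, by linear_combination hdet⟩
  have h1 := main b d hbd hNd hpd
  rw [K.hh_one hbd hpd hd] at h1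
  -- the value at `0`
  have hdQ : (d : ℚ) ≠ 0 := by
    have : d ≠ 0 := ne_of_cop K.hN (cop_of_dvd_sub_one hNd)
    exact_mod_cast this
  have h2 : Φ ((0 : ℚ) : OnePoint ℚ) (mob a b c d ((0 : ℚ) : OnePoint ℚ)) = 0 := by
    rw [mob_coe _ _ _ _ _ (by simpa using hdQ), K.sub, ← h1]
    congr 2
    simp
  have h3 := K.inv a b c d hdet hc hd ((0 : ℚ) : OnePoint ℚ) x
  have h4 := K.add x ((0 : ℚ) : OnePoint ℚ) (mob a b c d ((0 : ℚ) : OnePoint ℚ))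
  have h5 := K.add x (mob a b c d ((0 : ℚ) : OnePoint ℚ)) (mob a b c d x)
  have h6 := K.add x ((0 : ℚ) : OnePoint ℚ) x
  rw [K.self] at h6
  rw [← h5, ← h4, h2, h3, add_zero, h6]

/-- The key lemma: all closed cycles of `Γ₁(p ^ r N)` vanish (`1 ≤ r`, `p ≠ 2`). -/
theorem Key.closed (K : Key p N r n0 Φ) (hp2 : p ≠ 2) (hr : 1 ≤ r) {a b c d : ℤ}
    (hdet : a * d - b * c = 1)
    (hc : (p : ℤ) ^ r * N ∣ c) (hd : (p : ℤ) ^ r * N ∣ d - 1) (x : OnePoint ℚ) :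
    Φ x (mob a b c d x) = 0 := by
  obtain ⟨l, hl0, hl⟩ := K.HH.exists_l
  exact K.closed_of hr ((K.HH.toIh hl0 hl).main hp2 K.tor) hdet hc hd x

/-- The key lemma for `p = 2`. -/
theorem Key.closed2 (K : Key 2 N r n0 Φ) (hr : 1 ≤ r) {a b c d : ℤ}
    (hdet : a * d - b * c = 1)
    (hc : (2 : ℤ) ^ r * N ∣ c) (hd : (2 : ℤ) ^ r * N ∣ d - 1) (x : OnePoint ℚ) :
    Φ x (mob a b c d x) = 0 := by
  obtain ⟨l, hl0, hl⟩ := K.HH.exists_l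
  exact K.closed_of hr (fun b d h1 h2 h3 => (K.HH.toIh hl0 hl).main2 K.tor b d h1 h2
    (by simpa using h3)) hdet hc hd x

/-- The key lemma KEY0. -/
theorem key0 {M : Type} [AddCommGroup M] {p N r n0 : ℕ} {Φ : OnePoint ℚ → OnePoint ℚ → M}
    (hp : p.Prime) (hp2 : p ≠ 2) (hN : 1 < N) (hpN : p.Coprime N) (hr : 1 ≤ r)
    (tor : ∀ q : ℕ, q.Coprime p → ∀ m : M, q • m = 0 → m = 0)
    (add : ∀ x y z, Φ x y + Φ y z = Φ x z)
    (inv : ∀ a b c d : ℤ, a * d - b * c = 1 → ((p : ℤ) ^ r * N) ∣ c →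
      ((p : ℤ) ^ r * N) ∣ d - 1 → ∀ x y, Φ (mob a b c d x) (mob a b c d y) = Φ x y)
    (A : ∀ a b c d : ℤ, ∀ n ≥ n0, c ≠ 0 → d ≠ 0 → IsCoprime a c → IsCoprime b d →
      ((p : ℤ) ^ r * N) ∣ c → a * d - b * c = (p : ℤ) ^ n →
      Φ (((a : ℚ) / c : ℚ) : OnePoint ℚ) (((b : ℚ) / d : ℚ) : OnePoint ℚ) = 0)
    (A0 : ∀ b : ℤ, ∀ n ≥ n0, ¬ (p : ℤ) ∣ b → Φ ∞ (((b : ℚ) / p ^ n : ℚ) : OnePoint ℚ) = 0)
    (a b c d : ℤ) (hdet : a * d - b * c = 1) (hc : (p : ℤ) ^ r * N ∣ c)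
    (hd : (p : ℤ) ^ r * N ∣ d - 1) (x : OnePoint ℚ) : Φ x (mob a b c d x) = 0 :=
  Key.closed (n0 := n0) ⟨hp, hN, hpN, tor, add, inv, A, A0⟩ hp2 hr hdet hc hd x

/-- The key lemma KEY0 for `p = 2`: `N` odd, `M` without odd torsion. -/
theorem key0_two {M : Type} [AddCommGroup M] {N r n0 : ℕ} {Φ : OnePoint ℚ → OnePoint ℚ → M}
    (hN : 1 < N) (h2N : Odd N) (hr : 1 ≤ r)
    (tor : ∀ q : ℕ, Odd q → ∀ m : M, q • m = 0 → m = 0)
    (add : ∀ x y z, Φ x y + Φ y z = Φ x z)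
    (inv : ∀ a b c d : ℤ, a * d - b * c = 1 → ((2 : ℤ) ^ r * N) ∣ c →
      ((2 : ℤ) ^ r * N) ∣ d - 1 → ∀ x y, Φ (mob a b c d x) (mob a b c d y) = Φ x y)
    (A : ∀ a b c d : ℤ, ∀ n ≥ n0, c ≠ 0 → d ≠ 0 → IsCoprime a c → IsCoprime b d →
      ((2 : ℤ) ^ r * N) ∣ c → a * d - b * c = (2 : ℤ) ^ n →
      Φ (((a : ℚ) / c : ℚ) : OnePoint ℚ) (((b : ℚ) / d : ℚ) : OnePoint ℚ) = 0)
    (A0 : ∀ b : ℤ, ∀ n ≥ n0, Odd b → Φ ∞ (((b : ℚ) / 2 ^ n : ℚ) : OnePoint ℚ) = 0)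
    (a b c d : ℤ) (hdet : a * d - b * c = 1) (hc : (2 : ℤ) ^ r * N ∣ c)
    (hd : (2 : ℤ) ^ r * N ∣ d - 1) (x : OnePoint ℚ) : Φ x (mob a b c d x) = 0 := by
  have hodd : ∀ b : ℤ, ¬ ((2 : ℕ) : ℤ) ∣ b → Odd b := by
    intro b hb
    rw [← Int.not_even_iff_odd, even_iff_two_dvd]
    simpa using hb
  have K : Key 2 N r n0 Φ := by
    refine ⟨Nat.prime_two, hN, ?_, ?_, add, inv, A, ?_⟩
    · rw [Nat.coprime_comm, Nat.coprime_two_right]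
      exact h2N
    · intro q hq m hm
      exact tor q (Nat.coprime_two_right.mp hq) m hm
    · intro b n hn hb
      exact A0 b n hn (hodd b hb)
  exact K.closed2 hr hdet hc hd x

end Pool.Agent.NSY
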