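import Pool.Agent.NS.StTN
import Pool.Agent.MUX.U_AUE
import Pool.Agent.MUX.E_RNG
import Pool.Agent.MU3.E_RAM

/-!
# MUX-NS, block TN, module UNF (helper37): the inertia field is unramified
-/

set_option autoImplicit false

open NumberField IsDedekindDomain

namespace Pool.Agent.NST

open _root_.MU3 Pool.Agent.MU3A Pool.Agent.MU3B Pool.Agent.RI Pool.Agent.MUX Pool.Agent.MUXU
open OnePoint Pool.Agent.NS
open Pool.Agent.MUXV (GR InK)
open Pool.Agent.NSE (CtxN E3 su ru Rep)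
open Pool.Agent.MUXY (ActN Dn)

noncomputable section

namespace UNF

open Ideal Pool.Agent.MU3E.RAM

section
variable {V : ValuationSubring ℂ} {k F : Type} [Field k] [NumberField k] [Field F] [NumberField F]
  [Algebra k F] (io : F →+* ℂ) {w : HeightOneSpectrum (𝓞 F)}

omit [NumberField k] in
/-- elements of the inertia group at `V` -/
lemma inertia_lt (hw : ∀ x : 𝓞 F, x ∈ w.asIdeal ↔ V.valuation (io x) < 1) {σ : F ≃ₐ[k] F}
    (hσ : σ ∈ w.asIdeal.inertia (F ≃ₐ[k] F)) {x : F} (hx : V.valuation (io x) ≤ 1) :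
    V.valuation (io (σ x) - io x) < 1 := by
  obtain ⟨n, d, hnd⟩ := w.exists_primeCompl_mul_eq_of_integer x (le_ord io hw hx)
  have hσ1 : ∀ y : 𝓞 F, σ • y - y ∈ w.asIdeal := hσ
  have hcoe : ∀ y : 𝓞 F, ((σ • y : 𝓞 F) : F) = σ (y : F) := fun y => rfl
  have hd1 : V.valuation (io ((d : 𝓞 F) : F)) = 1 := val_notMem io hw (x := d) d.2
  have hσd : (σ • (d : 𝓞 F) : 𝓞 F) ∉ w.asIdeal := by
    intro h
    have h2 := w.asIdeal.sub_mem h (hσ1 (d : 𝓞 F))
    rw [sub_sub_cancel] at h2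
    exact d.2 h2
  have hd2 : V.valuation (io (σ ((d : 𝓞 F) : F))) = 1 := val_notMem io hw hσd
  have hd0 : ((d : 𝓞 F) : F) ≠ 0 := by
    intro h
    rw [h, map_zero, map_zero] at hd1
    exact zero_ne_one hd1
  have hσd0 : σ ((d : 𝓞 F) : F) ≠ 0 := (map_ne_zero σ).2 hd0
  have hn := (hw _).1 (hσ1 n)
  have hd3 := (hw _).1 (hσ1 (d : 𝓞 F))
  have hnd' : x * ((d : 𝓞 F) : F) = ((n : 𝓞 F) : F) := hnd
  have hnd2 : σ x * σ ((d : 𝓞 F) : F) = σ ((n : 𝓞 F) : F) := by rw [← map_mul, hnd']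
  have e1 : io (σ x) - io x = ((io (σ ((n : 𝓞 F) : F)) - io ((n : 𝓞 F) : F)) * io ((d : 𝓞 F) : F)
      - io ((n : 𝓞 F) : F) * (io (σ ((d : 𝓞 F) : F)) - io ((d : 𝓞 F) : F)))
        / (io ((d : 𝓞 F) : F) * io (σ ((d : 𝓞 F) : F))) := by
    have i1 : io ((d : 𝓞 F) : F) ≠ 0 := (map_ne_zero io).2 hd0
    have i2 : io (σ ((d : 𝓞 F) : F)) ≠ 0 := (map_ne_zero io).2 hσd0
    rw [← hnd2, ← hnd', map_mul, map_mul]
    field_simp
    ring
  rw [e1, map_div₀, map_mul V.valuation (io ((d : 𝓞 F) : F)), hd1, hd2, one_mul, div_one]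
  refine lt_of_le_of_lt (V.valuation.map_sub _ _) (max_lt ?_ ?_)
  · rw [map_mul, hd1, mul_one]
    have : V.valuation (io (((σ • n - n : 𝓞 F)) : F)) < 1 := hn
    rwa [show (((σ • n - n : 𝓞 F)) : F) = σ ((n : 𝓞 F) : F) - ((n : 𝓞 F) : F) from by
      rw [← hcoe]; exact map_sub (algebraMap (𝓞 F) F) _ _, map_sub] at this
  · rw [map_mul]
    have : V.valuation (io (((σ • (d : 𝓞 F) - (d : 𝓞 F) : 𝓞 F)) : F)) < 1 := hd3
    rw [show (((σ • (d : 𝓞 F) - (d : 𝓞 F) : 𝓞 F)) : F)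
        = σ ((d : 𝓞 F) : F) - ((d : 𝓞 F) : F) from by
      rw [← hcoe]; exact map_sub (algebraMap (𝓞 F) F) _ _, map_sub] at this
    exact mul_lt_one_of_nonneg_of_lt_one_right (int_le io n) zero_le this

/-- the ramification index is the order of the inertia group -/
lemma val_card [IsGalois k F] (w : HeightOneSpectrum (𝓞 F)) : ∃ v : HeightOneSpectrum (𝓞 k),
    v.asIdeal = w.asIdeal.under (𝓞 k) ∧ ∀ x : k, w.valuation F (algebraMap k F x) =
      v.valuation k x ^ Nat.card (w.asIdeal.inertia (F ≃ₐ[k] F)) := by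
  set p : Ideal (𝓞 k) := w.asIdeal.under (𝓞 k) with hp
  have hlo : w.asIdeal.LiesOver p := ⟨rfl⟩
  have hwp : w.asIdeal.IsPrime := w.isPrime
  have hpp : p.IsPrime := Ideal.IsPrime.under (𝓞 k) w.asIdeal
  have hp0 : p ≠ ⊥ := (w.under (𝓞 k)).ne_bot
  have hfin : Finite (𝓞 k ⧸ p) := Ideal.finiteQuotientOfFreeOfNeBot p hp0
  have hmax : p.IsMaximal := hpp.isMaximal hp0
  have hfr : Finite p.ResidueField :=
    Finite.of_surjective (algebraMap (𝓞 k ⧸ p) p.ResidueField)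
      (Ideal.bijective_algebraMap_quotient_residueField p).2
  have h1 := Ideal.card_inertia_eq_ramificationIdxIn (G := F ≃ₐ[k] F) p w.asIdeal
  rw [Ideal.ramificationIdxIn_eq_ramificationIdx p w.asIdeal (F ≃ₐ[k] F)] at h1
  have h2 : p.ramificationIdx' w.asIdeal = Nat.card (w.asIdeal.inertia (F ≃ₐ[k] F)) := by
    rw [Ideal.ramificationIdx'_eq_ramificationIdx' p w.asIdeal
      (Ideal.map_ne_bot_of_ne_bot hp0), ← h1]
  let v : HeightOneSpectrum (𝓞 k) := ⟨p, hpp, hp0⟩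
  have hlo' : w.asIdeal.LiesOver v.asIdeal := ⟨rfl⟩
  refine ⟨v, rfl, fun x => ?_⟩
  have h3 := HeightOneSpectrum.valuation_liesOver (K := k) F v w x
  rw [← h2]
  exact h3.symm

end

/-- for a subfield `K` fixed by the inertia group `I`, the inertia group of `F / K` has the order of `I` -/
lemma card_fixed {k F : Type} [Field k] [NumberField k] [Field F] [NumberField F]
    [Algebra k F] [IsGalois k F] (w : HeightOneSpectrum (𝓞 F)) (K : IntermediateField k F)
    (hK : K = IntermediateField.fixedField (w.asIdeal.inertia (F ≃ₐ[k] F))) :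
    Nat.card (w.asIdeal.inertia (F ≃ₐ[K] F)) = Nat.card (w.asIdeal.inertia (F ≃ₐ[k] F)) := by
  have hfd : FiniteDimensional k F := by
    have h1 : FiniteDimensional ℚ F := inferInstance
    exact FiniteDimensional.right ℚ k F
  have htop : w.asIdeal.inertia (F ≃ₐ[K] F) = ⊤ := by
    rw [eq_top_iff]
    intro σ _
    have h1 : σ.restrictScalars k ∈ w.asIdeal.inertia (F ≃ₐ[k] F) := by
      rw [← IntermediateField.fixingSubgroup_fixedField (w.asIdeal.inertia (F ≃ₐ[k] F)),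
        IntermediateField.mem_fixingSubgroup_iff]
      intro x hx
      rw [← hK] at hx
      exact σ.commutes ⟨x, hx⟩
    have h2 : ∀ y : 𝓞 F, (σ.restrictScalars k) • y - y ∈ w.asIdeal := h1
    intro y
    exact h2 y
  have h3 : Nat.card (F ≃ₐ[K] F) = Module.finrank K F := IsGalois.card_aut_eq_finrank K F
  have h4 : Module.finrank K F = Nat.card (w.asIdeal.inertia (F ≃ₐ[k] F)) := by
    subst hK
    exact IntermediateField.finrank_fixedField_eq_card _
  rw [htop, Subgroup.card_top, h3, h4]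

end UNF

open UNF Pool.Agent.MU3E.RAM in
theorem nt_UNF : Nt_UNF := by
  intro A B V hc hV F _ _ y hyK hy1
  have hcq : CQ A B := hc.toCQ
  obtain ⟨⟨φ, hφ⟩, hinj, hded, hpos, hint⟩ := Pool.Agent.MUXE.te_RNG A B hcq
  have hw0 : IsIntegral ℤ (wC A B) := by
    rw [hint _ (wC_mem A B)]
    exact ⟨⟨0, 1⟩, by simp [emb]⟩
  have hfd : FiniteDimensional ℚ (kk A B) :=
    IntermediateField.adjoin.finiteDimensional hw0.tower_top
  have hk : NumberField (kk A B) := ⟨⟩
  have hFQ : FiniteDimensional ℚ F := FiniteDimensional.trans ℚ (kk A B) F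
  have hF : NumberField F := ⟨⟩
  have h3O : emb (3 : OO A B) = 3 := by rw [← hφ, map_ofNat]
  have hv : ∀ x : OO A B, V.valuation (emb x) < 1 ↔ (3 : OO A B) ∣ x := by
    intro x
    rw [← ValuationSubring.mem_nonunits_iff, hV x, Ideal.mem_span_singleton]
    norm_cast
  have hv3 : V.valuation (3 : ℂ) < 1 := by
    rw [← h3O]
    exact (hv 3).2 (dvd_refl _)
  obtain ⟨w, hw⟩ := exists_prime (V := V) (algebraMap F ℂ) (z := (3 : 𝓞 F)) (by norm_num) (by
    have h2 : (algebraMap F ℂ) (((3 : 𝓞 F)) : F) = (3 : ℂ) := by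
      have h1 : ((3 : 𝓞 F) : F) = 3 := map_ofNat (algebraMap (𝓞 F) F) 3
      rw [h1, map_ofNat]
    rw [h2]
    exact hv3)
  have hspan : w.asIdeal.under (𝓞 (kk A B)) = Ideal.span {(3 : 𝓞 (kk A B))} := by
    ext x
    rw [Ideal.mem_span_singleton]
    have h2 : IsIntegral ℤ ((x : kk A B) : ℂ) :=
      (RingOfIntegers.isIntegral_coe x).map (Algebra.ofId (kk A B) ℂ |>.restrictScalars ℤ)
    obtain ⟨z, hz⟩ := (hint _ (x : kk A B).2).mp h2
    have hxw : x ∈ w.asIdeal.under (𝓞 (kk A B)) ↔ V.valuation (emb z) < 1 := by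
      rw [← hz]
      exact hw (algebraMap (𝓞 (kk A B)) (𝓞 F) x)
    rw [hxw, hv]
    constructor
    · rintro ⟨c, rfl⟩
      have hcI : IsIntegral ℤ (ek c) := by
        have h2 : IsIntegral ℤ (emb c) := (hint (emb c) (emb_mem c)).mpr ⟨c, rfl⟩
        have h3 : algebraMap (kk A B) ℂ (ek c) = emb c := rfl
        rw [← h3] at h2
        exact (isIntegral_algebraMap_iff (FaithfulSMul.algebraMap_injective (kk A B) ℂ)).mp h2
      refine ⟨⟨ek c, hcI⟩, ?_⟩
      apply RingOfIntegers.ext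
      apply Subtype.ext
      rw [hz, ← hφ, map_mul, hφ, hφ, h3O]
      rfl
    · rintro ⟨c, hc⟩
      have h2 : IsIntegral ℤ ((c : kk A B) : ℂ) :=
        (RingOfIntegers.isIntegral_coe c).map (Algebra.ofId (kk A B) ℂ |>.restrictScalars ℤ)
      obtain ⟨t, ht⟩ := (hint _ (c : kk A B).2).mp h2
      refine ⟨t, ?_⟩
      have h4 : emb z = 3 * emb t := by
        rw [← hz, ← ht, hc]
        rfl
      have h5 : emb (z - 3 * t) = 0 := by
        rw [← hφ, map_sub, map_mul, hφ, hφ, hφ, h3O, h4, sub_self]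
      exact sub_eq_zero.1 (hinj _ h5)
  set K₁ : IntermediateField (kk A B) F :=
    IntermediateField.fixedField (w.asIdeal.inertia (F ≃ₐ[kk A B] F)) with hK₁
  have hK₁Q : FiniteDimensional ℚ K₁ := FiniteDimensional.trans ℚ (kk A B) K₁
  have hK₁n : NumberField K₁ := ⟨⟩
  have hcard := card_fixed w K₁ hK₁
  obtain ⟨v, hvp, hvv⟩ := val_card (k := kk A B) w
  obtain ⟨v₁, -, hvv₁⟩ := val_card (k := K₁) w
  rw [hcard] at hvv₁
  set e := Nat.card (w.asIdeal.inertia (F ≃ₐ[kk A B] F)) with he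
  have hval3 : w.valuation F 3 = WithZero.exp (-1 : ℤ) ^ e := by
    have h1 := hvv 3
    rw [map_ofNat] at h1
    rw [h1]
    congr 1
    have h2 : (algebraMap (𝓞 (kk A B)) (kk A B)) 3 = 3 := map_ofNat _ 3
    rw [← h2, HeightOneSpectrum.valuation_of_algebraMap]
    exact v.intValuation_singleton (by norm_num) (by rw [hvp, hspan])
  -- the element `y` is in `K₁`
  have hyF : y ∈ F := hyK.1
  have hyK₁ : (⟨y, hyF⟩ : F) ∈ K₁ := by
    rw [hK₁, IntermediateField.mem_fixedField_iff]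
    intro σ hσ
    obtain ⟨s, hs⟩ := tu_AUE (F.restrictScalars ℚ) (by
      have h1 : Algebra.IsAlgebraic ℚ F := inferInstance
      exact h1) ((algebraMap F ℂ).comp (σ : F →+* F))
    have hs' : ∀ x : F, s (x : ℂ) = ((σ x : F) : ℂ) := hs
    have hI : InI A B V (F : Set ℂ) s := by
      refine ⟨?_, ?_, ?_⟩
      · have h1 := hs' (algebraMap (kk A B) F ⟨wC A B, wC_mem A B⟩)
        rw [σ.commutes] at h1
        exact h1
      · intro x hx
        rw [hs' ⟨x, hx⟩]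
        exact (σ ⟨x, hx⟩).2
      · intro x hx hxV
        rw [ValuationSubring.mem_nonunits_iff, hs' ⟨x, hx⟩]
        exact inertia_lt (algebraMap F ℂ) hw hσ (x := ⟨x, hx⟩)
          ((V.valuation_le_one_iff _).2 hxV)
    apply Subtype.ext
    rw [← hs']
    exact hyK.2 s hI
  have h1 := hvv₁ ⟨⟨y, hyF⟩, hyK₁⟩
  have h2 : w.valuation F (⟨y, hyF⟩ : F) < 1 := by
    refine lt_of_le_of_ne (le_ord (algebraMap F ℂ) hw hy1.le) ?_
    intro h
    have h3 := ord_one (algebraMap F ℂ) hw h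
    exact absurd h3 hy1.ne
  have h3 : w.valuation F (⟨y, hyF⟩ : F) ≤ w.valuation F 3 := by
    have h4 : (algebraMap K₁ F) ⟨⟨y, hyF⟩, hyK₁⟩ = (⟨y, hyF⟩ : F) := rfl
    rw [h4] at h1
    rw [h1] at h2 ⊢
    rw [hval3]
    apply pow_le_pow_left₀ zero_le
    have h5 : v₁.valuation K₁ ⟨⟨y, hyF⟩, hyK₁⟩ < 1 := by
      by_contra h6
      push Not at h6
      exact absurd h2 (not_lt.2 (one_le_pow₀ h6))
    by_cases h0 : v₁.valuation K₁ ⟨⟨y, hyF⟩, hyK₁⟩ = 0
    · rw [h0]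
      exact zero_le
    · rw [← WithZero.exp_log h0] at h5 ⊢
      rw [← WithZero.exp_zero, WithZero.exp_lt_exp] at h5
      rw [WithZero.exp_le_exp]
      omega
  have h4 : w.valuation F ((⟨y, hyF⟩ : F) / 3) ≤ 1 := by
    rw [map_div₀]
    have h30 : w.valuation F 3 ≠ 0 := (map_ne_zero _).2 (by norm_num)
    exact (div_le_one₀ (zero_lt_iff.2 h30)).2 h3
  have h5 := ord_le (algebraMap F ℂ) hw h4
  rw [map_div₀, map_div₀, map_ofNat] at h5
  have h30 : V.valuation (3 : ℂ) ≠ 0 := (map_ne_zero _).2 (by norm_num)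
  exact (div_le_one₀ (zero_lt_iff.2 h30)).1 h5

end

end Pool.Agent.NST
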