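import Pool.Agent.NS.StTN

/-!
# MUX-NS, block TN, module GLC: a finite Galois extension of `k` which contains given numbers
-/

set_option autoImplicit false

namespace Pool.Agent.NST

open _root_.MU3 Pool.Agent.MU3A Pool.Agent.MU3B Pool.Agent.RI Pool.Agent.MUX Pool.Agent.MUXU
open OnePoint Pool.Agent.NS

noncomputable section

namespace GLC

/-- a finite extension inside `ℂ` is contained in a finite Galois extension inside `ℂ` -/
lemma exists_galois {K : IntermediateField ℚ ℂ} (M : IntermediateField K ℂ)
    [FiniteDimensional K M] :
    ∃ F : IntermediateField K ℂ, FiniteDimensional K F ∧ IsGalois K F ∧ M ≤ F := by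
  have hn : IsNormalClosure K M (IntermediateField.normalClosure K M ℂ) :=
    Algebra.IsAlgebraic.isNormalClosure_normalClosure fun x => IsAlgClosed.splits _
  have hN : Normal K (IntermediateField.normalClosure K M ℂ) := hn.normal
  exact ⟨IntermediateField.normalClosure K M ℂ, inferInstance, ⟨⟩, M.le_normalClosure⟩

end GLC

theorem nt_GLC : Nt_GLC := by
  intro A B _ E hE T hT ha
  have hi : ∀ t ∈ T, IsIntegral (kk A B) t := fun t ht =>
    ((ha t ht).tower_top (kk A B)).isIntegral
  have hTf : Finite T := hT
  have hM : FiniteDimensional (kk A B) (IntermediateField.adjoin (kk A B) T) :=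
    IntermediateField.finiteDimensional_adjoin hi
  have hS : FiniteDimensional (kk A B)
      ((E ⊔ IntermediateField.adjoin (kk A B) T : IntermediateField (kk A B) ℂ)) :=
    IntermediateField.finiteDimensional_sup E _
  obtain ⟨F, h1, h2, h3⟩ := GLC.exists_galois (E ⊔ IntermediateField.adjoin (kk A B) T)
  exact ⟨F, h1, h2, le_sup_left.trans h3, fun t ht =>
    (le_sup_right.trans h3) (IntermediateField.subset_adjoin (kk A B) T ht)⟩

end

end Pool.Agent.NST
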