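import Pool.Agent.NS.StTN

/-!
# MUX-NS, block TN, module RTU (helper91): roots of unity of order prime to `3` are determined by their residues
-/

set_option autoImplicit false

namespace Pool.Agent.NST

open _root_.MU3 Pool.Agent.MU3A Pool.Agent.MU3B Pool.Agent.RI Pool.Agent.MUX Pool.Agent.MUXU
open OnePoint Pool.Agent.NS

noncomputable section

namespace RTU

lemma v_nat {V : ValuationSubring ℂ} (h3 : V.valuation (3 : ℂ) < 1)
    {M : ℕ} (hM : ¬ 3 ∣ M) : ¬ V.valuation (M : ℂ) < 1 := by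
  intro hMV
  have hint : ∀ n : ℤ, V.valuation (n : ℂ) ≤ 1 := fun n =>
    (V.valuation_le_one_iff _).2 (intCast_mem V n)
  have hcop : Nat.Coprime 3 M := (Nat.prime_three.coprime_iff_not_dvd).2 hM
  have h5 := Nat.gcd_eq_gcd_ab 3 M
  rw [hcop.gcd_eq_one] at h5
  have h6 : (1 : ℂ) = (3 : ℂ) * ((Nat.gcdA 3 M : ℤ) : ℂ) + (M : ℂ) * ((Nat.gcdB 3 M : ℤ) : ℂ) := by
    have := congrArg (fun t : ℤ => (t : ℂ)) h5
    simpa using this
  have h7 : V.valuation (1 : ℂ) < 1 := by
    rw [h6]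
    refine Valuation.map_add_lt _ ?_ ?_
    · rw [map_mul]
      exact mul_lt_one_of_lt_of_le h3 (hint _)
    · rw [map_mul]
      exact mul_lt_one_of_lt_of_le hMV (hint _)
  rw [map_one] at h7
  exact lt_irrefl _ h7

lemma v_root {V : ValuationSubring ℂ} {M : ℕ} (hM : M ≠ 0) {z : ℂ} (hz : z ^ M = 1) :
    V.valuation z = 1 := by
  have h1 : (V.valuation z) ^ M = 1 := by rw [← map_pow, hz, map_one]
  exact (pow_eq_one_iff.1 h1).resolve_right hM

lemma root_one {V : ValuationSubring ℂ} {M : ℕ} (hM : M ≠ 0) {t : ℂ} (ht : t ^ M = 1)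
    (hv : V.valuation (t - 1) < 1) (hMV : ¬ V.valuation (M : ℂ) < 1) : t = 1 := by
  by_contra hne
  have h1 : (∑ i ∈ Finset.range M, t ^ i) * (t - 1) = 0 := by
    rw [geom_sum_mul, ht, sub_self]
  have h2 : ∑ i ∈ Finset.range M, t ^ i = 0 :=
    (mul_eq_zero.1 h1).resolve_right (sub_ne_zero.2 hne)
  apply hMV
  have h3 : (M : ℂ) = - ∑ i ∈ Finset.range M, (t ^ i - 1) := by
    rw [Finset.sum_sub_distrib, h2]
    simp
  have h4 : V.valuation t = 1 := v_root hM ht
  rw [h3, Valuation.map_neg]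
  have h5 : ∀ i ∈ Finset.range M, V.valuation (t ^ i - 1) < 1 := by
    intro i _
    have h6 : t ^ i - 1 = (t - 1) * ∑ j ∈ Finset.range i, t ^ j := (mul_geom_sum t i).symm
    rw [h6, map_mul]
    refine mul_lt_one_of_lt_of_le hv ?_
    refine Valuation.map_sum_le _ fun j _ => ?_
    rw [map_pow, h4, one_pow]
  exact Valuation.map_sum_lt _ one_ne_zero h5

lemma eq_of {V : ValuationSubring ℂ} (h3 : V.valuation (3 : ℂ) < 1) {r : ℕ} (hr : ¬ 3 ∣ r)
    (z z' : ℂ) (hz : z ^ r = 1) (hz' : z' ^ r = 1) (hv : V.valuation (z' - z) < 1) : z' = z := by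
  have hr0 : r ≠ 0 := by
    rintro rfl
    exact hr (dvd_zero 3)
  have hz0 : z ≠ 0 := by
    rintro rfl
    rw [zero_pow hr0] at hz
    exact zero_ne_one hz
  have h1 : (z' / z) ^ r = 1 := by
    rw [div_pow, hz', hz, div_one]
  have h2 : V.valuation (z' / z - 1) < 1 := by
    have h4 : z' / z - 1 = (z' - z) / z := by
      rw [sub_div, div_self hz0]
    rw [h4, map_div₀, v_root hr0 hz, div_one]
    exact hv
  exact (div_eq_one_iff_eq hz0).1 (root_one hr0 h1 h2 (v_nat h3 hr))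

end RTU

open RTU in
theorem nt_RTU : Nt_RTU := by
  intro V h3 r hr
  refine ⟨fun z z' hz hz' hv => eq_of h3 hr z z' hz hz' hv, fun σ hσ z hz => ?_⟩
  rcases hz with rfl | hz
  · exact map_zero σ
  · refine eq_of h3 hr z (σ z) hz ?_ (hσ z hz)
    rw [← map_pow, hz, map_one]

end

end Pool.Agent.NST
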