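import Pool.Agent.NS.StTN
import Pool.Agent.MUX.XLib

/-!
# MUX-NS, block TN: the result (helper4)
-/

set_option autoImplicit false

namespace Pool.Agent.NST

open _root_.MU3 Pool.Agent.MU3A Pool.Agent.MU3B Pool.Agent.RI Pool.Agent.MUX Pool.Agent.MUXU
open OnePoint Pool.Agent.NS
open Pool.Agent.MUXV (GR InK)
open Pool.Agent.NSE (CtxN E3 su ru Rep)
open Pool.Agent.MUXY (ActN Dn)

noncomputable section

namespace TYF

lemma dn_mono {m n : ℕ} (h : m ∣ n) {x : OnePoint ℚ} (hx : Dn m x) : Dn n x :=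
  fun r hr => (hx r hr).trans h

lemma absD_ge {A B : ℤ} (h : CQ A B) : 3 ≤ absD A B := by
  have h1 := h.neg
  unfold absD
  rcases h.hB with rfl | rfl
  · have h2 : 4 * A < 0 := by linarith
    have h3 : A < 0 := by omega
    omega
  · have h2 : 1 + 4 * A < 0 := by linarith
    omega

lemma mem_idl_of_dvd {A B : ℤ} {m n : ℕ} (h : m ∣ n) :
    idl (A := A) (B := B) n ≤ idl (A := A) (B := B) m := by
  rw [Ideal.span_singleton_le_span_singleton]
  obtain ⟨k, rfl⟩ := h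
  exact ⟨(k : OO A B), by push_cast; ring⟩

lemma idl_ne_bot {A B : ℤ} (h : CQ A B) {n : ℕ} (hn : n ≠ 0) :
    idl (A := A) (B := B) n ≠ ⊥ := by
  intro h1
  exact MUX.natCast_ne_zero' h hn (Ideal.span_singleton_eq_bot.1 h1)

lemma nat_mul_ne_one {A B : ℤ} (h : CQ A B) {n : ℕ} (hn : n ≠ 1) (x : OO A B) :
    ((n : ℕ) : OO A B) * x ≠ 1 := by
  intro h1
  have h2 := congrArg nm h1
  have h3 : nm ((n : ℕ) : OO A B) = (n : ℤ) ^ 2 := by
    have := nm_intCast (A := A) (B := B) (n : ℤ)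
    rwa [Int.cast_natCast] at this
  have h5 : nm (1 : OO A B) = 1 := by
    have := nm_intCast (A := A) (B := B) 1
    rwa [Int.cast_one, one_pow] at this
  rw [MUX.nm_mul h, h3, h5] at h2
  have h4 : (n : ℤ) ∣ 1 := ⟨n * nm x, by rw [← h2]; ring⟩
  have h6 : n ∣ 1 := by exact_mod_cast h4
  exact hn (Nat.dvd_one.1 h6)

end TYF

open TYF in
theorem nt_TYF (hR : Sn_RFIN) (hCTX : Pool.Agent.NSE.Se_CTX) (hRTU : Nt_RTU) (hGLC : Nt_GLC)
    (hUNF : Nt_UNF) (hFGP : Nt_FGP) (hFGV : Nt_FGV) (hALV : Nt_ALV) (hALT : Nt_ALT)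
    (hACI : Nt_ACI) (hSGU : Nt_SGU) (hVAK : Nt_VAK) (hTAU : Nt_TAU) : Sn_TYF := by
  intro A B V f hS hT ι _ R u el lam hG w hw e he r hr her i hi ka hka
  have hQ : CQ A B := hS.case.toCQ
  have hC : CtxN A B V := hCTX A B V hS.case hS.hV hT hR
  have hu0 : u ≠ 0 := hG.u0
  have hr0 : r ≠ 0 := by
    rintro rfl
    exact hr (dvd_zero 3)
  have hD := absD_ge hQ
  have hf2 : 2 ∣ f := by
    have h1 : (2 : ℤ) ∣ (f : ℤ) := (Dvd.intro _ rfl).trans hS.fD
    exact_mod_cast h1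
  have hf3 : 3 ≤ f := by
    have h1 := Int.le_of_dvd (by exact_mod_cast Nat.pos_of_ne_zero hS.f0) hS.fD
    omega
  have h3f : 3 * f ≠ 0 := mul_ne_zero (by norm_num) hS.f0
  obtain ⟨T, hTT⟩ := hFGV A B hQ (3 * f) ι R (idl (3 * f)) e (idl_ne_bot hQ h3f) he ka
    (u * R.om R.i0)
  obtain ⟨S, j, N, hN0, hN3, hSD, hgen⟩ :=
    hFGP (fun x y => PhiK R e ka x y / (u * R.om R.i0)) T hTT
  obtain ⟨tau, htau8, htaua, htau⟩ := hTAU A B V hC hT (3 * f) ι R u el lam hG w hw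
  obtain ⟨hu2, hel, hlam, hua, hALTz⟩ := hALT A B hQ hT V hC.v3 (R.b R.i0) (R.L R.i0)
    (R.om R.i0) (R.nl R.i0) u el lam hG
  set m' := f * N with hm'
  have hm'0 : m' ≠ 0 := mul_ne_zero hS.f0 hN0
  have hm'3 : ¬ 3 ∣ m' := by
    intro h
    rcases (Nat.Prime.dvd_mul Nat.prime_three).1 h with h | h
    · exact hS.fp h
    · exact hN3 h
  have hm'C : (m' : ℂ) ≠ 0 := by exact_mod_cast hm'0
  have hfm : f ∣ m' := Dvd.intro _ rfl
  have hm'1 : m' ≠ 1 := by
    intro h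
    rw [h] at hfm
    have := Nat.le_of_dvd one_pos hfm
    omega
  -- the point of level `m'`
  have hom : R.om R.i0 ≠ 0 := (R.nl R.i0).om_ne
  have hz1 : R.om R.i0 / m' ∉ (R.L R.i0).lattice := by
    intro h
    obtain ⟨x, -, hx⟩ := ((R.nl R.i0).mem _).1 h
    apply nat_mul_ne_one hQ hm'1 x
    apply MUX.emb_inj hQ
    rw [MUX.emb_mul hQ, MUX.emb_natCast hQ, MUX.emb_one hQ]
    field_simp at hx
    rw [← hx]
  have hz2 : (m' : ℂ) * (R.om R.i0 / m') ∈ (R.L R.i0).lattice := by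
    rw [mul_div_cancel₀ _ hm'C]
    refine ((R.nl R.i0).mem _).2 ⟨1, ?_, ?_⟩
    · rw [R.b0]
      trivial
    · rw [MUX.emb_one hQ, mul_one]
  have hYa := (hALTz m' hm'0 _ hz1 hz2).2.1
  -- the field
  set Q : OnePoint ℚ × OnePoint ℚ → ℂ :=
    fun q => PhiK R e ka q.1 q.2 / (u * R.om R.i0) with hQdef
  have h8r : 8 * r ≠ 0 := mul_ne_zero (by norm_num) hr0
  set Ts : Set ℂ := (Q '' (S : Set (OnePoint ℚ × OnePoint ℚ))) ∪
    ({tau, yu (R.L R.i0) u (R.om R.i0 / m')} ∪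
      ((Polynomial.nthRootsFinset (8 * r) (1 : ℂ) : Finset ℂ) : Set ℂ)) with hTs
  have hTfin : Ts.Finite := by
    refine Set.Finite.union ?_ (Set.Finite.union ?_ ?_)
    · exact (Finset.finite_toSet S).image _
    · exact Set.toFinite _
    · exact Finset.finite_toSet _
  have hTalg : ∀ t ∈ Ts, IsAlgebraic ℚ t := by
    rintro t (⟨q, -, rfl⟩ | (ht | ht))
    · exact hALV A B hQ hT f hS.f0 ι R e he r hr0 her ka hka u hua q.1 q.2
    · rcases ht with rfl | ht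
      · exact htaua
      · rw [Set.mem_singleton_iff] at ht
        rw [ht]
        exact hYa
    · rw [Finset.mem_coe, Polynomial.mem_nthRootsFinset (Nat.pos_of_ne_zero h8r)] at ht
      refine ⟨Polynomial.X ^ (8 * r) - 1, Polynomial.X_pow_sub_C_ne_zero
        (Nat.pos_of_ne_zero h8r) (1 : ℚ), ?_⟩
      simp [ht]
  obtain ⟨F, hFf, hFg, hEF, hTF⟩ := hGLC A B hQ (RF (idl (A := A) (B := B) m'))
    (hT.fin _ (idl_ne_bot hQ hm'0)) Ts hTfin hTalg
  have htau0 : tau ≠ 0 := by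
    rintro rfl
    rw [map_zero, zero_pow (by norm_num)] at htau8
    exact (V.valuation.ne_zero_iff.2 (by norm_num : (3 : ℂ) ≠ 0)) htau8.symm
  have htauF : tau ∈ F := hTF (Or.inr (Or.inl (Or.inl rfl)))
  have hyF : yu (R.L R.i0) u (R.om R.i0 / m') ∈ F := hTF (Or.inr (Or.inl (Or.inr rfl)))
  have hrF : ∀ z : ℂ, z ^ (8 * r) = 1 → z ∈ F := fun z hz => hTF (Or.inr (Or.inr (by
    rw [Finset.mem_coe, Polynomial.mem_nthRootsFinset (Nat.pos_of_ne_zero h8r)]
    exact hz)))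
  have h38r : ¬ 3 ∣ 8 * r := by
    intro h
    rcases (Nat.Prime.dvd_mul Nat.prime_three).1 h with h | h
    · omega
    · exact hr h
  -- the key point
  have hkey : ∀ σ : ℂ ≃+* ℂ, InI A B V (F : Set ℂ) σ → ∀ q ∈ S, σ (Q q * tau ^ i) = Q q * tau ^ i := by
    intro σ hσ q hq
    obtain ⟨hRF, c, d, hc1, hc3, hact⟩ := hACI A B V hS.case hS.hV hT hR (3 * f) ι R j m' hm'0
      hm'3 σ hσ.fix (fun y hy hyV => hσ.iner y (hEF hy) hyV)
    have hle : (RF (idl (A := A) (B := B) 2) : IntermediateField (kk A B) ℂ) ≤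
        RF (idl (A := A) (B := B) m') :=
      hT.mono _ _ (mem_idl_of_dvd (hf2.trans hfm))
    have hsu2 : σ (u ^ 2) = u ^ 2 := hRF _ (hle hu2)
    have hsel : σ el = el := hRF _ (hle hel)
    have hsu : σ u = d R.i0 * u := by
      refine hSGU A B V f hS ι R u el lam hG j m' hm'0 hm'3 hfm σ c d hc1 hact hsu2 ?_
      intro h
      have h1 := hσ.iner _ hyF ((V.valuation_le_one_iff _).1 h)
      rwa [ValuationSubring.mem_nonunits_iff] at h1
    have hroot : ∀ z : ℂ, (z = 0 ∨ z ^ (8 * r) = 1) → σ z = z := by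
      refine (hRTU V hC.v3 (8 * r) h38r).2 σ ?_
      intro z hz
      have hz1 : V.valuation z = 1 := by
        have h1 : (V.valuation z) ^ (8 * r) = 1 := by rw [← map_pow, hz, map_one]
        exact (pow_eq_one_iff.1 h1).resolve_right h8r
      have h1 := hσ.iner z (hrF z hz) ((V.valuation_le_one_iff _).1 hz1.le)
      rwa [ValuationSubring.mem_nonunits_iff] at h1
    have hse : ∀ x, σ (e x) = e x := by
      intro x
      apply hroot
      by_cases hx : e x = 0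
      · exact Or.inl hx
      · right
        rw [mul_comm, pow_mul, her x hx, one_pow]
    have hsw : ∀ x, σ (w x) = w x := by
      intro x
      apply hroot
      by_cases hx : x ∈ idl (A := A) (B := B) 3
      · exact Or.inl (hw.zero x hx)
      · right
        rw [pow_mul, hw.pow x hx, one_pow]
    have hsk : ∀ l, σ (ka l) = ka l := by
      intro l
      apply hroot
      right
      rw [mul_comm, pow_mul, hka l, one_pow]
    have hdvd : 3 ^ j * N ∣ 3 ^ (j + 1) * m' :=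
      mul_dvd_mul (pow_dvd_pow 3 (Nat.le_succ j)) (Dvd.intro_left _ rfl)
    have h1 := hVAK A B f hQ hf3 ι R e he j m' hm'0 hfm σ c d hc1 hact hse ka hsk u hu0 hsu
      q.1 q.2 (dn_mono hdvd (hSD q hq).1) (dn_mono hdvd (hSD q hq).2)
    have h2 : σ tau = w c * tau := by
      refine htau (3 ^ (j + 1) * m') ?_ σ c d hact hc3 hsu hsel hsw
      exact (dvd_pow_self 3 (Nat.succ_ne_zero j)).mul_right _
    have h3 : e c = w c ^ i := hi c (mem_idl_of_dvd hfm hc1) hc3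
    have h4 : e c * σ (Q q) = Q q := h1
    rw [map_mul, map_pow, h2, mul_pow, ← h3]
    calc σ (Q q) * (e c * tau ^ i) = (e c * σ (Q q)) * tau ^ i := by ring
      _ = Q q * tau ^ i := by rw [h4]
  refine ⟨(tau ^ i)⁻¹, KIn A B V F, ?_, hUNF A B V hS.case hS.hV F, ?_⟩
  · have hle : AddSubgroup.closure (Q '' (S : Set (OnePoint ℚ × OnePoint ℚ))) ≤
        ((KIn A B V F).toAddSubgroup).map (AddMonoidHom.mulLeft ((tau ^ i)⁻¹)) := by
      rw [AddSubgroup.closure_le]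
      rintro _ ⟨q, hq, rfl⟩
      refine ⟨Q q * tau ^ i, ⟨?_, fun σ hσ => hkey σ hσ q hq⟩, ?_⟩
      · exact F.mul_mem (hTF (Or.inl ⟨q, hq, rfl⟩)) (F.pow_mem htauF i)
      · rw [AddMonoidHom.coe_mulLeft]
        field_simp
    intro x y
    obtain ⟨w', hw', hw2⟩ := hle (hgen x y)
    exact ⟨w', hw', hw2.symm⟩
  · rw [map_inv₀, map_pow, inv_pow, ← pow_mul, mul_comm i 8, pow_mul, htau8]
    exact inv_mul_cancel₀ (pow_ne_zero _ (V.valuation.ne_zero_iff.2 (by norm_num)))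

end

end Pool.Agent.NST
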