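import Pool.Agent.NS.ZRam3

/-!
# The final theorem for `p = 3` and all imaginary quadratic fields except `ℚ(i)`, `ℚ(√-3)` (helper87)
-/

set_option autoImplicit false

namespace Pool.Agent.NSZ

open Pool.Agent.RI Pool.Agent.MUXZ

/-- every finite extension of `ℚ` inside the maximal abelian extension of `ℚ(√-d)`, `d ≠ 1, 3`, `p = 3` -/
theorem final3_all (d : ℕ) (hd : Squarefree d) (h1 : d ≠ 1) (h3 : d ≠ 3)
    (K : IntermediateField ℚ ℂ) [FiniteDimensional ℚ K] (hK : K ≤ weberField d) :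
    ∃ C : ℕ, ∀ (n : ℕ) (Q : IntermediateField ℚ ℂ), IsLayer 3 n Q →
      padicValNat 3 (classNo (K ⊔ Q)) ≤ C * (n + 1) ^ C := by
  have h : d % 3 = 0 ∨ d % 3 = 1 ∨ d % 3 = 2 := by omega
  rcases h with h | h | h
  · exact final3r d hd (Nat.dvd_of_mod_eq_zero h) h3 K hK
  · exact final3 d hd h h1 K hK
  · exact final 3 d hd (Or.inl ⟨rfl, by omega⟩) K hK

end Pool.Agent.NSZ
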