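import Pool.Agent.NS.StRN
import Pool.Agent.MUX.XLib

/-!
# MUX-NS, block RN, module ALP: the multiplier `α`, `3` inert

`v (emb x) ≤ 1` for all `x`, because `w` is integral over `ℤ`; `v (emb x) = 1` when `x` is not a multiple of `3`, because then `x ∉ idl 3`.
So `2`, `w`, `1 + w`, `α` and the conjugate of `α` are units at `V`; `1 - α² = -4 w (1 + w)` and `N = N(α) = 1 + 2 B - 4 A`.
-/

set_option autoImplicit false

open WeierstrassCurve Polynomial

namespace Pool.Agent.NSR

open _root_.MU3 Pool.Agent.MU3A Pool.Agent.MU3B Pool.Agent.RI Pool.Agent.MUX Pool.Agent.MUXU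
open Pool.Agent.MUXV (GR InK tX)
open Pool.Agent.NS

noncomputable section

namespace ALPaux

lemma wC_int {A B : ℤ} (hc : CQ A B) : IsIntegral ℤ (wC A B) := by
  refine ⟨Polynomial.X ^ 2 - Polynomial.C B * Polynomial.X - Polynomial.C A, ?_, ?_⟩
  · monicity!
  · have := wC_sq hc
    simp only [Polynomial.eval₂_sub, Polynomial.eval₂_mul, Polynomial.eval₂_pow,
      Polynomial.eval₂_X, Polynomial.eval₂_C]
    simp only [algebraMap_int_eq, eq_intCast]
    linear_combination this

lemma emb_mem_V {A B : ℤ} (hc : CQ A B) (V : ValuationSubring ℂ) (x : OO A B) : emb x ∈ V := by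
  have h1 : wC A B ∈ V := by
    have h2 : IsIntegral V (wC A B) := (wC_int hc).tower_top
    obtain ⟨y, hy⟩ := IsIntegrallyClosed.isIntegral_iff.1 h2
    rw [← hy]
    exact y.2
  have h3 : ∀ n : ℤ, (n : ℂ) ∈ V := fun n => intCast_mem V.toSubring n
  exact V.add_mem _ _ (h3 _) (V.mul_mem _ _ (h3 _) h1)

/-- the elements of `idl 3` are multiples of `3` -/
lemma mem3 {A B : ℤ} {x : OO A B} (hx : x ∈ idl (A := A) (B := B) 3) :
    (3 : ℤ) ∣ x.re ∧ (3 : ℤ) ∣ x.im := by
  obtain ⟨y, hy⟩ := Ideal.mem_span_singleton.1 hx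
  have e3 : ((3 : ℕ) : OO A B) = ⟨3, 0⟩ := by
    ext
    · exact QuadraticAlgebra.re_natCast 3
    · exact QuadraticAlgebra.im_natCast 3
  rw [e3] at hy
  refine ⟨⟨y.re, ?_⟩, ⟨y.im, ?_⟩⟩
  · rw [hy]
    simp
  · rw [hy]
    simp

/-- `v (emb x) = 1` for `x` not divisible by `3` -/
lemma v_one {A B : ℤ} {V : ValuationSubring ℂ} (hc : CQ A B)
    (hV : OverI V (idl (A := A) (B := B) 3)) {x : OO A B}
    (hx : ¬ ((3 : ℤ) ∣ x.re ∧ (3 : ℤ) ∣ x.im)) : V.valuation (emb x) = 1 := by
  refine le_antisymm ((V.valuation_le_one_iff _).2 (emb_mem_V hc V x)) (not_lt.1 fun h => hx ?_)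
  exact mem3 ((hV x).1 (V.mem_nonunits_iff.2 h))

end ALPaux

open ALPaux

/-- (ALP) the multiplier `α`, `3` inert -/
theorem tr_ALP : Sr_ALP := by
  intro A B V hC hV
  have hc : CQ A B := hC.toCQ
  have hw : wC A B * wC A B = A + B * wC A B := wC_sq hc
  -- `v 3 < 1`
  have v3 : V.valuation (3 : ℂ) < 1 := by
    have h1 : emb ((3 : ℕ) : OO A B) ∈ V.nonunits := (hV _).2 (Ideal.mem_span_singleton_self _)
    rw [emb_natCast hc] at h1
    exact_mod_cast V.mem_nonunits_iff.1 h1
  -- units at `V`
  have v2 : V.valuation (2 : ℂ) = 1 := by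
    have h1 : V.valuation (emb (⟨2, 0⟩ : OO A B)) = 1 := v_one hc hV (by
      intro h
      have := h.1
      simp only at this
      omega)
    have h2 : emb (⟨2, 0⟩ : OO A B) = 2 := by simp [emb]
    rwa [h2] at h1
  have vw : V.valuation (wC A B) = 1 := by
    have h1 : V.valuation (emb (⟨0, 1⟩ : OO A B)) = 1 := v_one hc hV (by
      intro h
      have := h.2
      simp only at this
      omega)
    rwa [MUX.emb_w] at h1
  have vw1 : V.valuation (1 + wC A B) = 1 := by
    have h1 : V.valuation (emb (⟨1, 1⟩ : OO A B)) = 1 := v_one hc hV (by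
      intro h
      have := h.2
      simp only at this
      omega)
    have h2 : emb (⟨1, 1⟩ : OO A B) = 1 + wC A B := by simp [emb]
    rwa [h2] at h1
  have va1 : V.valuation (al A B) = 1 := v_one hc hV (by
    intro h
    have := h.1
    simp only [alO] at this
    omega)
  have va2 : V.valuation (emb (alO' A B)) = 1 := v_one hc hV (by
    intro h
    have := h.2
    simp only [alO'] at this
    omega)
  have eal : al A B = 1 + 2 * wC A B := by simp [al, alO, emb]
  have eal' : emb (alO' A B) = 1 + 2 * B - 2 * wC A B := by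
    simp [alO', emb]
    ring
  -- `1 - α² = -4 w (1 + w)`
  have key : V.valuation (1 - al A B ^ 2) = 1 := by
    have h1 : 1 - al A B ^ 2 = -(2 * 2 * (wC A B * (1 + wC A B))) := by
      rw [eal]
      ring
    rw [h1, Valuation.map_neg, map_mul, map_mul, map_mul, v2, vw, vw1]
    simp
  refine ⟨⟨(1 + 2 * B - 4 * A).toNat, ?_⟩, key⟩
  have hpos : 1 < 1 + 2 * B - 4 * A := by
    have := hc.neg
    rcases hc.hB with h | h
    · subst h
      omega
    · subst h
      omega
  have hN : (((1 + 2 * B - 4 * A).toNat : ℕ) : ℤ) = 1 + 2 * B - 4 * A :=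
    Int.toNat_of_nonneg (by omega)
  have hNC : (((1 + 2 * B - 4 * A).toNat : ℕ) : ℂ) = 1 + 2 * B - 4 * A := by
    have := congrArg (fun n : ℤ => (n : ℂ)) hN
    push_cast at this
    exact this
  have hnrm : (((1 + 2 * B - 4 * A).toNat : ℕ) : ℂ) = emb (alO' A B) * al A B := by
    rw [hNC, eal, eal']
    linear_combination 4 * hw
  exact
    { cq := hc
      v3 := v3
      v2 := v2
      va := by
        rw [key]
        exact v3
      nrm := hnrm
      odd := by
        rw [Nat.odd_iff]
        omega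
      one := by omega
      vN := by
        rw [hnrm, map_mul, va1, va2, one_mul] }

end

end Pool.Agent.NSR
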