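import Pool.Agent.NS.StRN
import Pool.Agent.MU3.BAll

/-!
# NSR, module CHT: addition formulas in Legendre form (helper80)

`℘ = u² X + e`, `℘' = 2 u³ Y`; the slope of the chord (tangent) in Legendre form is the slope of
`b_ADD` (`b_DUP`) divided by `u`.
-/

set_option autoImplicit false

namespace Pool.Agent.NSR

open _root_.MU3 Pool.Agent.MU3A Pool.Agent.MU3B Pool.Agent.RI Pool.Agent.MUX Pool.Agent.MUXU
open Pool.Agent.MUXV (GR InK tX)
open Pool.Agent.NS

noncomputable section

namespace CHT

/-- the algebra: from the Weierstrass form (slope `M`) to the Legendre form (slope `m = M / u`) -/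
lemma alg_x {u e lam P Q S M m : ℂ} (hu : u ≠ 0) (he : 3 * e = -(1 + lam) * u ^ 2)
    (hS : S + P + Q = M ^ 2) (hm : m = M / u) :
    (S - e) / u ^ 2 = m ^ 2 + (1 + lam) - (P - e) / u ^ 2 - (Q - e) / u ^ 2 := by
  have hS' : S = M ^ 2 - P - Q := by linear_combination hS
  rw [hm, hS']
  field_simp
  linear_combination -he

lemma alg_y {u e P S P' S' M m : ℂ} (hu : u ≠ 0) (hS : S' + P' = -2 * M * (S - P))
    (hm : m = M / u) :
    S' / (2 * u ^ 3) = -(P' / (2 * u ^ 3) + m * ((S - e) / u ^ 2 - (P - e) / u ^ 2)) := by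
  have hS' : S' = -2 * M * (S - P) - P' := by linear_combination hS
  rw [hm, hS']
  field_simp
  ring

end CHT

open CHT in
theorem tr_CHT (hLGF : Sr_LGF) : Sr_CHT := by
  intro L u e lam hL
  obtain ⟨he, -, -, hg2, -, -, -⟩ := hLGF L u e lam hL
  have hu : u ≠ 0 := hL.u0
  refine ⟨fun z w hz hw hzw hzmw => ?_, fun z h2z => ?_⟩
  · obtain ⟨h1, h2⟩ := b_ADD L w z hw hz hzw hzmw
    have hne : L.weierstrassP z - L.weierstrassP w ≠ 0 := by
      intro h0
      rcases b_NEQ L w z hw hz (sub_eq_zero.1 h0) with h | h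
      · exact hzmw h
      · exact hzw h
    have hXX : xu L u e z - xu L u e w = (L.weierstrassP z - L.weierstrassP w) / u ^ 2 := by
      unfold xu
      ring
    have hm : (yu L u z - yu L u w) / (xu L u e z - xu L u e w) =
        (L.derivWeierstrassP z - L.derivWeierstrassP w) /
          (2 * (L.weierstrassP z - L.weierstrassP w)) / u := by
      rw [hXX]
      unfold yu
      field_simp
    refine ⟨?_, ?_, ?_⟩
    · rw [hXX]
      exact div_ne_zero hne (pow_ne_zero 2 hu)
    · exact alg_x hu he h1 hm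
    · exact alg_y (e := e) hu h2 hm
  · obtain ⟨h1, h2⟩ := b_DUP L z h2z
    have hz : z ∉ L.lattice := by
      intro h
      apply h2z
      rw [two_mul]
      exact add_mem h h
    have hne : L.derivWeierstrassP z ≠ 0 := fun h0 => h2z ((b_ZER L z hz).1 h0)
    have hy : yu L u z ≠ 0 := by
      unfold yu
      exact div_ne_zero hne (mul_ne_zero two_ne_zero (pow_ne_zero 3 hu))
    have hT : (3 * xu L u e z ^ 2 - 2 * (1 + lam) * xu L u e z + lam) * u ^ 4 =
        (6 * L.weierstrassP z ^ 2 - L.g₂ / 2) / 2 := by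
      have hx : xu L u e z * u ^ 2 = L.weierstrassP z - e := by
        unfold xu
        field_simp
      rw [hg2]
      have e1 : (3 * xu L u e z ^ 2 - 2 * (1 + lam) * xu L u e z + lam) * u ^ 4 =
          3 * (xu L u e z * u ^ 2) ^ 2 - 2 * ((1 + lam) * u ^ 2) * (xu L u e z * u ^ 2) +
            lam * u ^ 4 := by ring
      have e2 : (1 + lam) * u ^ 2 = -3 * e := by linear_combination he
      have e3 : e = -(1 + lam) * u ^ 2 / 3 := by linear_combination he / 3
      rw [e1, hx, e2]
      rw [e3]
      ring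
    have hm : (3 * xu L u e z ^ 2 - 2 * (1 + lam) * xu L u e z + lam) / (2 * yu L u z) =
        (6 * L.weierstrassP z ^ 2 - L.g₂ / 2) / (2 * L.derivWeierstrassP z) / u := by
      have h3 : 3 * xu L u e z ^ 2 - 2 * (1 + lam) * xu L u e z + lam =
          (6 * L.weierstrassP z ^ 2 - L.g₂ / 2) / 2 / u ^ 4 := by
        rw [← hT]
        field_simp
      rw [h3]
      unfold yu
      field_simp
    refine ⟨hy, ?_, ?_⟩
    · have h1' : L.weierstrassP (2 * z) + L.weierstrassP z + L.weierstrassP z =
          ((6 * L.weierstrassP z ^ 2 - L.g₂ / 2) / (2 * L.derivWeierstrassP z)) ^ 2 := by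
        rw [← h1]
        ring
      have h4 := alg_x hu he h1' hm
      unfold xu at h4 ⊢
      rw [h4]
      ring
    · exact alg_y (e := e) hu h2 hm

end

end Pool.Agent.NSR
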