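import Pool.Agent.NS.StRN

/-!
# MUX-NS, block RN, module CLO (helper58): torsion points of close curves are close
-/

set_option autoImplicit false

open WeierstrassCurve Polynomial

namespace Pool.Agent.NSR

open _root_.MU3 Pool.Agent.MU3A Pool.Agent.MU3B Pool.Agent.RI Pool.Agent.MUX Pool.Agent.MUXU
open Pool.Agent.MUXV Pool.Agent.MU3.Val
open Pool.Agent.NS

noncomputable section

namespace CLO

section cg

variable {Γ₀ : Type} [LinearOrderedCommGroupWithZero Γ₀] {v : Valuation ℂ Γ₀} {d : Γ₀}

/-- congruence modulo `d` -/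
def Cg (v : Valuation ℂ Γ₀) (d : Γ₀) (a b : ℂ) : Prop := v (a - b) ≤ d

theorem Cg.add {a b a' b' : ℂ} (h : Cg v d a b) (h' : Cg v d a' b') :
    Cg v d (a + a') (b + b') := by
  unfold Cg at *
  rw [show a + a' - (b + b') = (a - b) + (a' - b') by ring]
  exact v_add_le h h'

theorem Cg.sub {a b a' b' : ℂ} (h : Cg v d a b) (h' : Cg v d a' b') :
    Cg v d (a - a') (b - b') := by
  unfold Cg at *
  rw [show a - a' - (b - b') = (a - b) - (a' - b') by ring]
  exact v_sub_le h h'

theorem Cg.neg {a b : ℂ} (h : Cg v d a b) : Cg v d (-a) (-b) := by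
  unfold Cg at *
  rw [show -a - -b = -(a - b) by ring, Valuation.map_neg]
  exact h

theorem Cg.mul {a b a' b' : ℂ} (h : Cg v d a b) (h' : Cg v d a' b') (ha' : v a' ≤ 1)
    (hb : v b ≤ 1) : Cg v d (a * a') (b * b') := by
  unfold Cg at *
  rw [show a * a' - b * b' = a' * (a - b) + b * (a' - b') by ring]
  exact v_add_le (v_mul_le_right ha' h) (v_mul_le_right hb h')

theorem Cg.refl (a : ℂ) : Cg v d a a := by
  unfold Cg
  rw [sub_self, map_zero]
  exact zero_le

theorem Cg.div {a b a' b' : ℂ} (h : Cg v d a b) (h' : Cg v d a' b') (ha' : v a' = 1)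
    (hb' : v b' = 1) (hb : v b ≤ 1) : Cg v d (a / a') (b / b') := by
  unfold Cg at *
  have h1 : a' ≠ 0 := by
    rintro rfl
    rw [map_zero] at ha'
    exact zero_ne_one ha'
  have h2 : b' ≠ 0 := by
    rintro rfl
    rw [map_zero] at hb'
    exact zero_ne_one hb'
  rw [show a / a' - b / b' = (b' * (a - b) - b * (a' - b')) / (a' * b') by field_simp; ring,
    map_div₀, map_mul, ha', hb', one_mul, div_one]
  exact v_sub_le (v_mul_le_right hb'.le h) (v_mul_le_right hb h')

theorem v_div_le {a b : ℂ} (ha : v a ≤ 1) (hb : v b = 1) : v (a / b) ≤ 1 := by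
  rw [map_div₀, hb, div_one]
  exact ha

end cg

variable {V : ValuationSubring ℂ} {W : WeierstrassCurve.Affine ℂ} {L : PeriodPair}
  {X Y : ℂ → ℂ} {ξ : ℂ →+ W.Point}

/-- `Y` is a unit -/
theorem y_unit (G : GR V W L X Y ξ) {z : ℂ} (hz : ¬ InK V L X z) (h2 : ¬ InK V L X (2 * z)) :
    V.valuation (Y z) = 1 := by
  obtain ⟨h3, e3⟩ := G.some z (int_X hz).1
  rw [← inE_iff G] at hz h2
  rw [two_mul, map_add, e3] at h2
  rw [e3] at hz
  exact v_y_unit G.int G.two G.disc h3 hz h2

theorem X_neg (G : GR V W L X Y ξ) {z : ℂ} (hz : z ∉ L.lattice) : X (-z) = X z ∧ Y (-z) = -Y z := by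
  obtain ⟨h3, e3⟩ := G.some z hz
  have hz' : -z ∉ L.lattice := fun h => hz (by simpa using neg_mem h)
  obtain ⟨h4, e4⟩ := G.some (-z) hz'
  rw [map_neg, e3, Affine.Point.neg_some] at e4
  obtain ⟨e5, e6⟩ : X z = X (-z) ∧ W.negY (X z) (Y z) = Y (-z) := by simpa using e4
  refine ⟨e5.symm, ?_⟩
  rw [← e6, Affine.negY, G.int.a1, G.int.a3]
  ring

theorem X_add_mem (G : GR V W L X Y ξ) {z w : ℂ} (hz : z ∉ L.lattice) (hw : w ∈ L.lattice) :
    X (z + w) = X z ∧ Y (z + w) = Y z := by
  have h3 := G.zero w hw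
  obtain ⟨h4, e4⟩ := G.some z hz
  have hzw : z + w ∉ L.lattice := fun h5 => hz (by
    have := sub_mem h5 hw; rwa [add_sub_cancel_right] at this)
  obtain ⟨h5, e5⟩ := G.some (z + w) hzw
  rw [map_add, h3, add_zero, e4] at e5
  obtain ⟨e6, e7⟩ : X z = X (z + w) ∧ Y z = Y (z + w) := by simpa using e5
  exact ⟨e6.symm, e7.symm⟩

end CLO

open CLO in
theorem tr_CLO (h1 : Sr_GRL) (h2 : Sr_CHT) : Sr_CLO := by
  intro V L L' u e lam u' e' lam' v2 hL hL' h1lam hδ n hodd hn1 vn q q' hq hnq hnq' hx hy
  have h1lam' : V.valuation (1 + lam') < 1 := by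
    rw [show 1 + lam' = (1 + lam) + (lam' - lam) by ring]
    exact lt_of_le_of_lt (V.valuation.map_add _ _) (max_lt h1lam hδ)
  obtain ⟨ξ, G, hsurj⟩ := h1 V L u e lam v2 h1lam hL
  obtain ⟨ξ', G', -⟩ := h1 V L' u' e' lam' v2 h1lam' hL'
  obtain ⟨cadd, cdup⟩ := h2 L u e lam hL
  obtain ⟨cadd', cdup'⟩ := h2 L' u' e' lam' hL'
  set X : ℂ → ℂ := xu L u e with hX
  set Y : ℂ → ℂ := yu L u with hY
  set X' : ℂ → ℂ := xu L' u' e' with hX'
  set Y' : ℂ → ℂ := yu L' u' with hY'
  set d := V.valuation (lam' - lam) with hd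
  have hd1 : d ≤ 1 := hδ.le
  have vm1 : V.valuation (-1) = 1 := by rw [Valuation.map_neg, map_one]
  have vlam : V.valuation lam = 1 := by
    rw [show lam = (1 + lam) + (-1) by ring, Valuation.map_add_eq_of_lt_right, vm1]
    rw [vm1]
    exact h1lam
  have vlam' : V.valuation lam' = 1 := by
    rw [show lam' = (1 + lam') + (-1) by ring, Valuation.map_add_eq_of_lt_right, vm1]
    rw [vm1]
    exact h1lam'
  have hn3 : 2 < n := by
    obtain ⟨m, hm⟩ := hodd
    omega
  -- the multiples of `q`, `q'`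
  have hk : ∀ k : ℕ, 0 < k → k < n → ¬ InK V L X (k * q) := by
    intro k hk0 hkn h
    refine (hq k hk0 hkn).1 (mem_of_nat_mul G h vn ?_)
    rw [show (n : ℂ) * (k * q) = (k : ℕ) • (n * q) by rw [nsmul_eq_mul]; ring]
    exact nsmul_mem hnq k
  have hk' : ∀ k : ℕ, 0 < k → k < n → ¬ InK V L' X' (k * q') := by
    intro k hk0 hkn h
    refine (hq k hk0 hkn).2 (mem_of_nat_mul G' h vn ?_)
    rw [show (n : ℂ) * (k * q') = (k : ℕ) • (n * q') by rw [nsmul_eq_mul]; ring]
    exact nsmul_mem hnq' k
  have kq : ¬ InK V L X q := by simpa using hk 1 one_pos (by omega)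
  have kq' : ¬ InK V L' X' q' := by simpa using hk' 1 one_pos (by omega)
  have k2q : ¬ InK V L X (2 * q) := by simpa using hk 2 (by omega) hn3
  have k2q' : ¬ InK V L' X' (2 * q') := by simpa using hk' 2 (by omega) hn3
  have vY : V.valuation (Y q) = 1 := y_unit G kq k2q
  have vY' : V.valuation (Y' q') = 1 := y_unit G' kq' k2q'
  have vX : V.valuation (X q) ≤ 1 := (int_X kq).2
  have vX' : V.valuation (X' q') ≤ 1 := (int_X kq').2
  -- the nearby point on the first curve
  have heq' : Y' q' ^ 2 = X' q' * (X' q' - 1) * (X' q' - lam') := hL'.eq q' (int_X kq').1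
  obtain ⟨y, hy1, hy2⟩ : ∃ y : ℂ, y ^ 2 = X' q' * (X' q' - 1) * (X' q' - lam) ∧
      V.valuation (y - Y' q') ≤ d := by
    obtain ⟨y, hy0⟩ := IsAlgClosed.exists_pow_nat_eq (X' q' * (X' q' - 1) * (X' q' - lam))
      (n := 2) (by norm_num)
    have vf1 : V.valuation (X' q' - 1) ≤ 1 := v_sub_le vX' (by rw [map_one])
    have vfl : V.valuation (X' q' - lam) ≤ 1 := v_sub_le vX' vlam.le
    have hyV : V.valuation y ≤ 1 := by
      have h3 : V.valuation y ^ 2 ≤ 1 := by
        rw [← map_pow, hy0, map_mul, map_mul]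
        exact mul_le_one' (mul_le_one' vX' vf1) vfl
      by_contra hc
      push Not at hc
      exact absurd h3 (not_le.2 (one_lt_pow₀ hc (by norm_num)))
    have hprod : V.valuation (y - Y' q') * V.valuation (y + Y' q') ≤ d := by
      rw [← map_mul, show (y - Y' q') * (y + Y' q') =
        (X' q' * (X' q' - 1)) * (lam' - lam) by linear_combination hy0 - heq', map_mul, ← hd]
      exact mul_le_of_le_one_left' (by rw [map_mul]; exact mul_le_one' vX' vf1)
    have h2Y : V.valuation (2 * Y' q') = 1 := by rw [map_mul, v2, vY', one_mul]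
    rcases le_or_gt 1 (V.valuation (y + Y' q')) with h | h
    · refine ⟨y, hy0, le_trans ?_ hprod⟩
      exact le_mul_of_one_le_right' h
    · refine ⟨-y, by rw [neg_sq, hy0], ?_⟩
      have h3 : V.valuation (y - Y' q') = 1 := by
        rw [show y - Y' q' = (y + Y' q') + -(2 * Y' q') by ring,
          Valuation.map_add_eq_of_lt_right, Valuation.map_neg, h2Y]
        rw [Valuation.map_neg, h2Y]
        exact h
      rw [h3, one_mul] at hprod
      rw [show -y - Y' q' = -(y + Y' q') by ring, Valuation.map_neg]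
      exact hprod
  have hΔ : (WL lam).Δ ≠ 0 := by
    intro h
    have := G.disc
    rw [h, map_zero] at this
    exact zero_ne_one this
  have hns : (WL lam).Nonsingular (X' q') y := by
    refine (Affine.equation_iff_nonsingular_of_Δ_ne_zero hΔ).1 ?_
    rw [Affine.equation_iff]
    simp only [WL]
    linear_combination hy1
  obtain ⟨z, hz⟩ := hsurj (Affine.Point.some (X' q') y hns)
  have hzL : z ∉ L.lattice := by
    intro h
    rw [G.zero z h] at hz
    exact absurd hz.symm (by simp)
  obtain ⟨hXz, hYz⟩ : X z = X' q' ∧ Y z = y := by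
    obtain ⟨h3, e3⟩ := G.some z hzL
    rw [hz] at e3
    obtain ⟨e4, e5⟩ : X' q' = X z ∧ y = Y z := by simpa using e3
    exact ⟨e4.symm, e5.symm⟩
  have kz : ¬ InK V L X z := by
    unfold InK
    push Not
    refine ⟨hzL, ?_⟩
    rw [← ValuationSubring.valuation_le_one_iff, hXz]
    exact vX'
  have vYz : V.valuation (Y z) ≤ 1 := by
    rw [hYz, show y = (y - Y' q') + Y' q' by ring]
    exact v_add_le (hy2.trans hd1) vY'.le
  -- `z - q` is in the kernel of reduction
  have hx2 : V.valuation (X z - X q) < 1 := by rw [hXz]; exact hx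
  have hy3 : V.valuation (Y z - Y q) < 1 := by
    rw [hYz, show y - Y q = (y - Y' q') + (Y' q' - Y q) by ring]
    exact lt_of_le_of_lt (V.valuation.map_add _ _) (max_lt (lt_of_le_of_lt hy2 hδ) hy)
  have ks : InK V L X (z - q) := by
    by_contra hc
    by_cases hp : InK V L X (z + q)
    · have hnq2 : ¬ InK V L X (-q) := fun h => kq (by simpa using inK_neg G h)
      have h3 := (near_lt G hnq2 hp).2
      rw [show -q + (z + q) = z by ring, (X_neg G (int_X kq).1).2] at h3
      have h4 : V.valuation (2 * Y q) < 1 := by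
        rw [show 2 * Y q = (Y z - -Y q) - (Y z - Y q) by ring]
        exact lt_of_le_of_lt (V.valuation.map_sub _ _) (max_lt h3 hy3)
      rw [map_mul, v2, vY, one_mul] at h4
      exact lt_irrefl _ h4
    · have h3 := v_X_sub G kz kq hp hc
      rw [h3] at hx2
      exact lt_irrefl _ hx2
  set s := z - q with hs
  have hzs : z = q + s := by rw [hs]; ring
  have hkz : ∀ k : ℕ, 0 < k → k < n → ¬ InK V L X (k * z) := by
    intro k hk0 hkn h
    refine hk k hk0 hkn ?_
    rw [← inK_congr G (z := k * z) (w := k * q)]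
    · exact h
    · rw [← mul_sub, ← hs]
      exact inK_nat G ks k
  -- the chain
  have key : ∀ k : ℕ, 0 < k → k < n →
      Cg V.valuation d (X (k * z)) (X' (k * q')) ∧ Cg V.valuation d (Y (k * z)) (Y' (k * q')) := by
    have c1 : Cg V.valuation d (X z) (X' q') := by rw [hXz]; exact Cg.refl _
    have c1y : Cg V.valuation d (Y z) (Y' q') := by rw [hYz]; exact hy2
    have cl : Cg V.valuation d (1 + lam) (1 + lam') := by
      unfold Cg
      rw [show 1 + lam - (1 + lam') = -(lam' - lam) by ring, Valuation.map_neg]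
    have cl0 : Cg V.valuation d lam lam' := by
      unfold Cg
      rw [show lam - lam' = -(lam' - lam) by ring, Valuation.map_neg]
    have v1l : V.valuation (1 + lam) ≤ 1 := h1lam.le
    have v1l' : V.valuation (1 + lam') ≤ 1 := h1lam'.le
    have vYz1 : V.valuation (Y z) = 1 := y_unit G kz (by simpa using hkz 2 (by omega) hn3)
    intro k
    induction k with
    | zero => intro h; exact absurd h (lt_irrefl 0)
    | succ k ih =>
      intro _ hkn
      rcases Nat.eq_zero_or_pos k with rfl | hk0
      · simp only [zero_add, Nat.cast_one, one_mul]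
        exact ⟨c1, c1y⟩
      obtain ⟨ih1, ih2⟩ := ih hk0 (by omega)
      rcases Nat.eq_or_lt_of_le (Nat.succ_le_of_lt hk0) with hk1 | hk1
      · -- duplication
        have hk1' : k = 1 := hk1.symm
        subst hk1'
        have e2 : (((1 + 1 : ℕ) : ℕ) : ℂ) = 2 := by norm_num
        rw [e2]
        have n2z : 2 * z ∉ L.lattice := (int_X (by simpa using hkz 2 (by omega) hn3)).1
        have n2q' : 2 * q' ∉ L'.lattice := (int_X k2q').1
        obtain ⟨-, f1, f2⟩ := cdup z n2z
        obtain ⟨-, f1', f2'⟩ := cdup' q' n2q'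
        have vn1 : V.valuation (3 * X z ^ 2 - 2 * (1 + lam) * X z + lam) ≤ 1 := by
          refine v_add_le (v_sub_le ?_ ?_) vlam.le
          · exact v_mul_le_right (v_three _) (by
              rw [map_pow]; exact pow_le_one' (int_X kz).2 2)
          · rw [mul_assoc]
            exact v_mul_le_right (v_two _) (v_mul_le_right v1l (int_X kz).2)
        have vn1' : V.valuation (3 * X' q' ^ 2 - 2 * (1 + lam') * X' q' + lam') ≤ 1 := by
          refine v_add_le (v_sub_le ?_ ?_) vlam'.le
          · exact v_mul_le_right (v_three _) (by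
              rw [map_pow]; exact pow_le_one' vX' 2)
          · rw [mul_assoc]
            exact v_mul_le_right (v_two _) (v_mul_le_right v1l' vX')
        have cn : Cg V.valuation d (3 * X z ^ 2 - 2 * (1 + lam) * X z + lam)
            (3 * X' q' ^ 2 - 2 * (1 + lam') * X' q' + lam') := by
          refine Cg.add (Cg.sub ?_ ?_) cl0
          · rw [pow_two, pow_two]
            refine Cg.mul (Cg.refl _) (Cg.mul c1 c1 (int_X kz).2 vX') ?_ (v_three _)
            rw [map_mul]
            exact mul_le_one' (int_X kz).2 (int_X kz).2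
          · refine Cg.mul (Cg.mul (Cg.refl _) cl v1l (v_two _)) c1 (int_X kz).2 ?_
            exact v_mul_le_right (v_two _) v1l'
        have vd : V.valuation (2 * Y z) = 1 := by rw [map_mul, v2, vYz1, one_mul]
        have vd' : V.valuation (2 * Y' q') = 1 := by rw [map_mul, v2, vY', one_mul]
        have cd : Cg V.valuation d (2 * Y z) (2 * Y' q') :=
          Cg.mul (Cg.refl _) c1y vYz (v_two _)
        have cm := Cg.div cn cd vd vd' vn1'
        have vm := v_div_le vn1 vd
        have vm' := v_div_le vn1' vd'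
        set m := (3 * X z ^ 2 - 2 * (1 + lam) * X z + lam) / (2 * Y z) with hm
        set m' := (3 * X' q' ^ 2 - 2 * (1 + lam') * X' q' + lam') / (2 * Y' q') with hm'
        have cX : Cg V.valuation d (X (2 * z)) (X' (2 * q')) := by
          rw [f1, f1', pow_two, pow_two]
          exact Cg.sub (Cg.add (Cg.mul cm cm vm vm') cl)
            (Cg.mul (Cg.refl _) c1 (int_X kz).2 (v_two _))
        refine ⟨cX, ?_⟩
        rw [f2, f2']
        refine Cg.neg (Cg.add c1y (Cg.mul cm (Cg.sub cX c1) ?_ vm'))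
        exact v_sub_le (int_X (by simpa using hkz 2 (by omega) hn3)).2 (int_X kz).2
      · -- addition
        have hk2 : 2 ≤ k := hk1
        have nz : z ∉ L.lattice := hzL
        have kkz := hkz k hk0 (by omega)
        have kkq := hk' k hk0 (by omega)
        have e1 : ((k + 1 : ℕ) : ℂ) * z = k * z + z := by push_cast; ring
        have e1' : ((k + 1 : ℕ) : ℂ) * q' = k * q' + q' := by push_cast; ring
        have e2 : k * z - z = ((k - 1 : ℕ) : ℂ) * z := by
          rw [Nat.cast_sub (by omega)]; push_cast; ring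
        have e2' : k * q' - q' = ((k - 1 : ℕ) : ℂ) * q' := by
          rw [Nat.cast_sub (by omega)]; push_cast; ring
        have kp := hkz (k + 1) (by omega) hkn
        have km := hkz (k - 1) (by omega) (by omega)
        have kp' := hk' (k + 1) (by omega) hkn
        have km' := hk' (k - 1) (by omega) (by omega)
        rw [e1] at kp ⊢
        rw [e1'] at kp' ⊢
        rw [← e2] at km
        rw [← e2'] at km'
        obtain ⟨-, f1, f2⟩ := cadd (k * z) z (int_X kkz).1 nz (int_X kp).1 (int_X km).1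
        obtain ⟨-, f1', f2'⟩ := cadd' (k * q') q' (int_X kkq).1 (int_X kq').1 (int_X kp').1
          (int_X km').1
        have vd := v_X_sub G kkz kz kp km
        have vd' := v_X_sub G' kkq kq' kp' km'
        have cd : Cg V.valuation d (X (k * z) - X z) (X' (k * q') - X' q') := Cg.sub ih1 c1
        have cn : Cg V.valuation d (Y (k * z) - Y z) (Y' (k * q') - Y' q') := Cg.sub ih2 c1y
        have vn1 : V.valuation (Y (k * z) - Y z) ≤ 1 := v_sub_le (int_Y G kkz) vYz
        have vn1' : V.valuation (Y' (k * q') - Y' q') ≤ 1 := v_sub_le (int_Y G' kkq) vY'.le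
        have cm := Cg.div cn cd vd vd' vn1'
        have vm := v_div_le vn1 vd
        have vm' := v_div_le vn1' vd'
        set m := (Y (k * z) - Y z) / (X (k * z) - X z) with hm
        set m' := (Y' (k * q') - Y' q') / (X' (k * q') - X' q') with hm'
        have cX : Cg V.valuation d (X (k * z + z)) (X' (k * q' + q')) := by
          rw [f1, f1', pow_two, pow_two]
          exact Cg.sub (Cg.sub (Cg.add (Cg.mul cm cm vm vm') cl) ih1) c1
        refine ⟨cX, ?_⟩
        rw [f2, f2']
        exact Cg.neg (Cg.add ih2 (Cg.mul cm (Cg.sub cX ih1)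
          (v_sub_le (int_X kp).2 (int_X kkz).2) vm'))
  -- the end
  obtain ⟨kX, -⟩ := key (n - 1) (by omega) (by omega)
  have e3 : ((n - 1 : ℕ) : ℂ) * q' = -q' + n * q' := by
    rw [Nat.cast_sub (by omega)]; push_cast; ring
  have e4 : ((n - 1 : ℕ) : ℂ) * z = (-z + n * s) + n * q := by
    rw [Nat.cast_sub (by omega), hzs]; push_cast; ring
  have nq' : -q' ∉ L'.lattice := fun h => (int_X kq').1 (by simpa using neg_mem h)
  rw [e3, (X_add_mem G' nq' hnq').1, (X_neg G' (int_X kq').1).1, ← hXz] at kX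
  have knz : ¬ InK V L X (-z) := fun h => kz (by simpa using inK_neg G h)
  have kns : InK V L X (n * s) := inK_nat G ks n
  have knzs : ¬ InK V L X (-z + n * s) := fun h => knz (by
    have := inK_sub G h kns
    rwa [add_sub_cancel_right] at this)
  rw [e4, (X_add_mem G (int_X knzs).1 hnq).1, ← (X_neg G hzL).1] at kX
  by_cases hsL : s ∈ L.lattice
  · have : X z = X q := by
      rw [hzs]
      exact (X_add_mem G (int_X kq).1 hsL).1
    rw [← hXz, this, sub_self, map_zero]
    exact zero_le
  · have hnsL : n * s ∉ L.lattice := fun h => hsL (mem_of_nat_mul G ks vn h)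
    have hr := v_tX_nat G ks vn hsL hnsL
    obtain ⟨r1, r0, -⟩ := v_tX_lt G ks hsL
    obtain ⟨-, i1, -, -⟩ := near G knz kns hnsL
    obtain ⟨-, -, i2, -⟩ := near G kq ks hsL
    rw [hr] at i1
    set r := V.valuation (tX X Y s) with hrdef
    have vYnz : V.valuation (Y (-z)) = 1 := by
      rw [(X_neg G hzL).2, Valuation.map_neg]
      exact y_unit G kz (by simpa using hkz 2 (by omega) hn3)
    have h5 : V.valuation (2 * Y (-z) * tX X Y (n * s)) = r := by
      rw [map_mul, map_mul, v2, vYnz, one_mul, one_mul, hr]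
    have hr2 : r ^ 2 < r := by
      rw [pow_two]
      exact mul_lt_of_lt_one_right (zero_lt_iff.2 r0) r1
    have h6 : V.valuation (X (-z + n * s) - X (-z)) = r := by
      rw [show X (-z + n * s) - X (-z) = (X (-z + n * s) - X (-z) - 2 * Y (-z) * tX X Y (n * s)) +
        2 * Y (-z) * tX X Y (n * s) by ring, Valuation.map_add_eq_of_lt_right, h5]
      rw [h5]
      exact lt_of_le_of_lt i1 hr2
    unfold Cg at kX
    rw [h6] at kX
    rw [← hXz]
    rw [← hzs] at i2
    exact i2.trans kX

end

end Pool.Agent.NSR
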