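import Pool.Agent.NS.StRN
import Pool.Agent.MU3.BAll
import Pool.Agent.MUX.XLib

/-!
# MUX-NS, block RN: complex multiplication by `1 + 2 w` at a point of order two (CMI)
-/

set_option autoImplicit false

open WeierstrassCurve Polynomial

namespace Pool.Agent.NSR

open _root_.MU3 Pool.Agent.MU3A Pool.Agent.MU3B Pool.Agent.RI Pool.Agent.MUX Pool.Agent.MUXU
open Pool.Agent.MUXV (GR InK tX)
open Pool.Agent.NS

theorem tr_CMI (h : Sr_LGF) : Sr_CMI := by
  intro A B b L om hcq hL u e lam w hleg hw hw2 hwe R hR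
  obtain ⟨h3e, -, -, -, -, -, -⟩ := h L u e lam hleg
  have hu0 : u ≠ 0 := hleg.u0
  have hCM := hL.hasCM hcq
  have hα : ∀ z ∈ L.lattice, al A B * z ∈ L.lattice := fun z hz => hCM (alO A B) z hz
  have hal : al A B = 1 + 2 * emb (⟨0, 1⟩ : OO A B) := by
    simp [al, alO, emb]
  have ha0 : al A B ≠ 0 := by
    refine MUX.emb_ne_zero hcq ?_
    intro h0
    have := congrArg QuadraticAlgebra.re h0
    simp [alO] at this
  have hdiff : al A B * w - w ∈ L.lattice := by
    have h1 : al A B * w - w = emb (⟨0, 1⟩ : OO A B) * (2 * w) := by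
      rw [hal]; ring
    rw [h1]
    exact hCM _ _ hw2
  have haw : al A B * w ∉ L.lattice := by
    intro h1
    have h2 := L.lattice.sub_mem h1 hdiff
    rw [sub_sub_cancel] at h2
    exact hw h2
  have hper : L.weierstrassP (al A B * w) = L.weierstrassP w := by
    have h1 := L.weierstrassP_add_coe w ⟨_, hdiff⟩
    rw [← h1]
    congr 1
    show al A B * w = w + (al A B * w - w)
    ring
  have key := b_CMX L (al A B) R ha0 hα hR w haw
  rw [hper, hwe] at key
  have hsum : ∑ q ∈ R, (xu L u e (w + q) - xu L u e q) =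
      (∑ q ∈ R, (L.weierstrassP (w + q) - L.weierstrassP q)) / u ^ 2 := by
    rw [Finset.sum_div]
    refine Finset.sum_congr rfl (fun q _ => ?_)
    unfold xu
    ring
  have hs : ∑ q ∈ R, (L.weierstrassP (w + q) - L.weierstrassP q) = al A B ^ 2 * e - e := by
    rw [key]; ring
  rw [hsum, hs]
  field_simp
  linear_combination (1 - al A B ^ 2) * h3e

end Pool.Agent.NSR
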