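import Pool.Agent.NS.StRN

/-!
# MUX-NS, block RN, module EQL: an automorphism which fixes `lam` fixes all invariants
-/

set_option autoImplicit false

open WeierstrassCurve Polynomial

namespace Pool.Agent.NSR

open _root_.MU3 Pool.Agent.MU3A Pool.Agent.MU3B Pool.Agent.RI Pool.Agent.MUX Pool.Agent.MUXU
open Pool.Agent.MUXV (GR InK tX)
open Pool.Agent.NS

theorem tr_EQL (h : Sr_LGF) : Sr_EQL := by
  intro L u e lam hL hn σ hσ
  obtain ⟨he, -, -, h2, h3, -, -⟩ := h L u e lam hL
  have hu : u ≠ 0 := hL.u0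
  have hP : lam ^ 2 - lam + 1 = -2 * u ^ 2 * ((1 + lam) * (lam - 2) * (2 * lam - 1)) := by
    have h1 : u ^ 4 * (lam ^ 2 - lam + 1 -
        -2 * u ^ 2 * ((1 + lam) * (lam - 2) * (2 * lam - 1))) = 0 := by
      rw [h2, h3] at hn
      linear_combination (3 / 4) * hn
    exact sub_eq_zero.1 ((mul_eq_zero.1 h1).resolve_left (pow_ne_zero 4 hu))
  have hQ : (1 + lam) * (lam - 2) * (2 * lam - 1) ≠ 0 := by
    intro h0
    rw [h0, mul_zero] at hP
    rcases mul_eq_zero.1 h0 with h0 | h0
    · rcases mul_eq_zero.1 h0 with h0 | h0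
      · have h4 : (3 : ℂ) = 0 := by linear_combination hP + (2 - lam) * h0
        norm_num at h4
      · have h4 : (3 : ℂ) = 0 := by linear_combination hP - (lam + 1) * h0
        norm_num at h4
    · have h4 : (3 : ℂ) = 0 := by linear_combination 4 * hP - (2 * lam - 1) * h0
      norm_num at h4
  have hu2 : u ^ 2 = -(lam ^ 2 - lam + 1) / (2 * ((1 + lam) * (lam - 2) * (2 * lam - 1))) := by
    rw [eq_div_iff (mul_ne_zero two_ne_zero hQ)]
    linear_combination hP
  have hsu : σ (u ^ 2) = u ^ 2 := by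
    rw [hu2]
    simp only [map_div₀, map_mul, map_neg, map_add, map_sub, map_pow, map_one, map_ofNat, hσ]
  have he' : e = -(1 + lam) * u ^ 2 / 3 := by
    rw [eq_div_iff (by norm_num : (3 : ℂ) ≠ 0)]
    linear_combination he
  have hse : σ e = e := by
    rw [he']
    simp only [map_div₀, map_mul, map_neg, map_add, map_one, map_ofNat, hσ, hsu]
  have hs2 : σ L.g₂ = L.g₂ := by
    have h4 : L.g₂ = 4 / 3 * (u ^ 2) ^ 2 * (lam ^ 2 - lam + 1) := by rw [h2]; ring
    rw [h4]
    simp only [map_div₀, map_mul, map_pow _ (u ^ 2), map_add, map_sub, map_pow _ lam, map_one,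
      map_ofNat, hσ, hsu]
  have hs3 : σ L.g₃ = L.g₃ := by
    have h4 : L.g₃ = -(1 / 18) * L.g₂ := by linear_combination (1 / 18) * hn
    rw [h4]
    simp only [map_div₀, map_mul, map_neg, map_one, map_ofNat, hs2]
  refine ⟨hsu, hse, hs2, hs3, ?_⟩
  unfold kap
  simp only [map_div₀, map_mul, map_sub, map_one, map_ofNat, hs2]

end Pool.Agent.NSR
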