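import Pool.Agent.NS.StRN

/-!
# MUX-NS, block RN: good reduction of the Legendre form (helper73)
-/

set_option autoImplicit false

open WeierstrassCurve Polynomial

namespace Pool.Agent.NSR

open _root_.MU3 Pool.Agent.MU3A Pool.Agent.MU3B Pool.Agent.RI Pool.Agent.MUX Pool.Agent.MUXU
open Pool.Agent.MUXV (GR InK tX)
open Pool.Agent.NS

noncomputable section

/-- the discriminant of the Legendre curve -/
theorem GRL_disc (lam : ℂ) : (WL lam).Δ = 2 ^ 4 * (lam ^ 2 * (lam - 1) ^ 2) := by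
  simp only [WeierstrassCurve.Δ, WeierstrassCurve.b₂, WeierstrassCurve.b₄, WeierstrassCurve.b₆,
    WeierstrassCurve.b₈, WL]
  ring

theorem GRL_units (V : ValuationSubring ℂ) (lam : ℂ) (h2 : V.valuation (2 : ℂ) = 1)
    (h1 : V.valuation (1 + lam) < 1) : V.valuation lam = 1 ∧ V.valuation (lam - 1) = 1 := by
  constructor
  · have e : lam = (1 + lam) - 1 := by ring
    rw [e, Valuation.map_sub_eq_of_lt_right, map_one]
    rwa [map_one]
  · have e : lam - 1 = (1 + lam) - 2 := by ring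
    rw [e, Valuation.map_sub_eq_of_lt_right, h2]
    rwa [h2]

theorem tr_GRL (h : Sr_XIL) : Sr_GRL := by
  intro V L u e lam h2 h1 hL
  obtain ⟨ξ, hk, hs, hp⟩ := h L u e lam hL
  obtain ⟨hl, hl1⟩ := GRL_units V lam h2 h1
  refine ⟨ξ, ⟨⟨rfl, rfl, ?_, ?_, ?_⟩, h2, ?_, hp, fun z hz => (hk z).2 hz⟩, hs⟩
  · show V.valuation (-(1 + lam)) ≤ 1
    rw [Valuation.map_neg]
    exact h1.le
  · show V.valuation lam ≤ 1
    exact hl.le
  · show V.valuation (0 : ℂ) ≤ 1
    rw [map_zero]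
    exact zero_le_one
  · rw [GRL_disc, map_mul, map_mul, map_pow, map_pow, map_pow, h2, hl, hl1]
    simp

end

end Pool.Agent.NSR
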