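import Pool.Agent.NS.StRN
import Pool.Agent.MU3.BAll
import Pool.Agent.MU3.A_ROO
import Pool.Agent.MU3.A_TW2

/-!
# MUX-NS, block RN: HPD, a Legendre form with integral parameter (helper95)
-/

set_option autoImplicit false

open WeierstrassCurve Polynomial

namespace Pool.Agent.NSR

open _root_.MU3 Pool.Agent.MU3A Pool.Agent.MU3B Pool.Agent.RI Pool.Agent.MUX Pool.Agent.MUXU
open Pool.Agent.MUXV (GR InK tX)
open Pool.Agent.NS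

noncomputable section

/-- the Legendre equation from the three roots -/
theorem hpd_leg (L : PeriodPair) (e₁ e₂ e₃ u : ℂ) (h21 : e₂ ≠ e₁) (hu : u ^ 2 = e₂ - e₁)
    (s1 : e₁ + e₂ + e₃ = 0) (s2 : e₁ * e₂ + e₁ * e₃ + e₂ * e₃ = -(L.g₂ / 4))
    (s3 : e₁ * e₂ * e₃ = L.g₃ / 4) : Leg L u e₁ ((e₃ - e₁) / (e₂ - e₁)) := by
  have hd : e₂ - e₁ ≠ 0 := sub_ne_zero.2 h21
  have hu0 : u ≠ 0 := by
    rintro rfl
    apply hd
    rw [← hu]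
    ring
  refine ⟨hu0, fun z hz => ?_⟩
  have h := L.derivWeierstrassP_sq z hz
  obtain ⟨P, hP⟩ : ∃ P, P = L.weierstrassP z := ⟨_, rfl⟩
  obtain ⟨D, hD⟩ : ∃ D, D = L.derivWeierstrassP z := ⟨_, rfl⟩
  rw [← hP, ← hD] at h
  rw [← hP, ← hD, ← hu]
  have h4 : D ^ 2 = 4 * ((P - e₁) * (P - e₂) * (P - e₃)) := by
    rw [h]
    linear_combination (4 * P ^ 2) * s1 - (4 * P) * s2 + 4 * s3
  have h5 : (D / (2 * u ^ 3)) ^ 2 = D ^ 2 / (4 * u ^ 6) := by ring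
  have h6 : (P - e₁) / u ^ 2 - 1 = (P - e₂) / u ^ 2 := by
    rw [div_sub_one (pow_ne_zero 2 hu0), hu]
    congr 1
    ring
  have h7 : (P - e₁) / u ^ 2 - (e₃ - e₁) / u ^ 2 = (P - e₃) / u ^ 2 := by
    rw [← sub_div]
    congr 1
    ring
  rw [h5, h4, h6, h7]
  field_simp

/-- the statement for three points of order two, ordered in the right way -/
theorem hpd_core (V : ValuationSubring ℂ) (L : PeriodPair) (w₁ w₂ w₃ : ℂ)
    (h1 : w₁ ∉ L.lattice ∧ 2 * w₁ ∈ L.lattice) (h2 : w₂ ∉ L.lattice ∧ 2 * w₂ ∈ L.lattice)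
    (h3 : w₃ ∉ L.lattice ∧ 2 * w₃ ∈ L.lattice) (h21 : L.weierstrassP w₂ ≠ L.weierstrassP w₁)
    (s1 : L.weierstrassP w₁ + L.weierstrassP w₂ + L.weierstrassP w₃ = 0)
    (s2 : L.weierstrassP w₁ * L.weierstrassP w₂ + L.weierstrassP w₁ * L.weierstrassP w₃ +
      L.weierstrassP w₂ * L.weierstrassP w₃ = -(L.g₂ / 4))
    (s3 : L.weierstrassP w₁ * L.weierstrassP w₂ * L.weierstrassP w₃ = L.g₃ / 4)
    (hv : V.valuation (L.weierstrassP w₃ - L.weierstrassP w₁) ≤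
      V.valuation (L.weierstrassP w₂ - L.weierstrassP w₁)) :
    ∃ w₁ w₂ w₃ u : ℂ,
    (w₁ ∉ L.lattice ∧ 2 * w₁ ∈ L.lattice) ∧ (w₂ ∉ L.lattice ∧ 2 * w₂ ∈ L.lattice) ∧
    (w₃ ∉ L.lattice ∧ 2 * w₃ ∈ L.lattice) ∧ L.weierstrassP w₂ ≠ L.weierstrassP w₁ ∧
    u ^ 2 = L.weierstrassP w₂ - L.weierstrassP w₁ ∧
    Leg L u (L.weierstrassP w₁)
      ((L.weierstrassP w₃ - L.weierstrassP w₁) / (L.weierstrassP w₂ - L.weierstrassP w₁)) ∧
    V.valuation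
      ((L.weierstrassP w₃ - L.weierstrassP w₁) / (L.weierstrassP w₂ - L.weierstrassP w₁)) ≤ 1 := by
  obtain ⟨u, hu⟩ := IsAlgClosed.exists_pow_nat_eq (L.weierstrassP w₂ - L.weierstrassP w₁)
    (by norm_num : 0 < 2)
  refine ⟨w₁, w₂, w₃, u, h1, h2, h3, h21, hu, hpd_leg L _ _ _ u h21 hu s1 s2 s3, ?_⟩
  have hd : V.valuation (L.weierstrassP w₂ - L.weierstrassP w₁) ≠ 0 := by
    rw [Valuation.ne_zero_iff]
    exact sub_ne_zero.2 h21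
  rw [map_div₀]
  exact div_le_one_of_le₀ hv zero_le

theorem tr_HPD : Sr_HPD := by
  intro V L
  have hv1 := L.ω₁_div_two_notMem_lattice
  have hv2 := L.ω₂_div_two_notMem_lattice
  have hv3 : L.ω₁ / 2 + L.ω₂ / 2 ∉ L.lattice := by
    have h := (L.mul_ω₁_add_mul_ω₂_mem_lattice (α := 1 / 2) (β := 1 / 2)).not.mpr (by norm_num)
    intro h2
    apply h
    have e : (((1 / 2 : ℚ) : ℂ)) * L.ω₁ + (((1 / 2 : ℚ) : ℂ)) * L.ω₂ = L.ω₁ / 2 + L.ω₂ / 2 := by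
      push_cast
      ring
    rw [e]
    exact h2
  have h21 : 2 * (L.ω₁ / 2) ∈ L.lattice := by
    rw [mul_div_cancel₀ _ (two_ne_zero)]
    exact L.ω₁_mem_lattice
  have h22 : 2 * (L.ω₂ / 2) ∈ L.lattice := by
    rw [mul_div_cancel₀ _ (two_ne_zero)]
    exact L.ω₂_mem_lattice
  have h23 : 2 * (L.ω₁ / 2 + L.ω₂ / 2) ∈ L.lattice := by
    rw [mul_add]
    exact add_mem h21 h22
  obtain ⟨n12, n13, n23, s1, s2, s3⟩ := ta_ROO (ta_TW2 b_ADD b_ZER b_NEQ) b_NEQ L (L.ω₁ / 2)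
    (L.ω₂ / 2) hv1 hv2 hv3 h21 h22
  rcases le_total (V.valuation (L.weierstrassP (L.ω₁ / 2 + L.ω₂ / 2) - L.weierstrassP (L.ω₁ / 2)))
    (V.valuation (L.weierstrassP (L.ω₂ / 2) - L.weierstrassP (L.ω₁ / 2))) with h | h
  · exact hpd_core V L _ _ _ ⟨hv1, h21⟩ ⟨hv2, h22⟩ ⟨hv3, h23⟩ n12.symm s1 s2 s3 h
  · refine hpd_core V L _ _ _ ⟨hv1, h21⟩ ⟨hv3, h23⟩ ⟨hv2, h22⟩ n13.symm ?_ ?_ ?_ h
    · linear_combination s1
    · linear_combination s2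
    · linear_combination s3

end

end Pool.Agent.NSR
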