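import Pool.Agent.NS.StRN
import Pool.Agent.MU3.BAll

/-!
# MUX-NS, block RN, module LGF (helper19): facts on the Legendre form

`tr_LGF : Sr_LGF`.
-/

set_option autoImplicit false

open WeierstrassCurve Polynomial

namespace Pool.Agent.NSR

open _root_.MU3 Pool.Agent.MU3A Pool.Agent.MU3B Pool.Agent.RI Pool.Agent.MUX Pool.Agent.MUXU
open Pool.Agent.MUXV (GR InK tX)
open Pool.Agent.NS

noncomputable section

theorem tr_LGF : Sr_LGF := by
  intro L u e lam h
  have hu := h.u0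
  have key : ∀ x : ℂ, 4 * x ^ 3 - L.g₂ * x - L.g₃ =
      4 * ((x - e) * (x - e - u ^ 2) * (x - e - lam * u ^ 2)) := by
    intro x
    obtain ⟨z, hz, rfl⟩ := b_SUR L x
    rw [← L.derivWeierstrassP_sq z hz]
    have h1 := h.eq z hz
    set P := L.weierstrassP z
    set D := L.derivWeierstrassP z
    have h2 : D ^ 2 = 4 * u ^ 6 * (D / (2 * u ^ 3)) ^ 2 := by
      field_simp
      ring
    rw [h2, h1]
    field_simp
  have k0 := key 0
  have k1 := key 1
  have k2 := key (-1)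
  have hs : 3 * e = -(1 + lam) * u ^ 2 := by
    linear_combination (-1 / 4) * k0 + (1 / 8) * k1 + (1 / 8) * k2
  have he : e = -(1 + lam) * u ^ 2 / 3 := by
    rw [eq_div_iff (by norm_num)]
    linear_combination hs
  have hg2 : L.g₂ = 4 / 3 * u ^ 4 * (lam ^ 2 - lam + 1) := by
    have h3 : L.g₂ = -4 * (e * (e + u ^ 2) + e * (e + lam * u ^ 2) +
        (e + u ^ 2) * (e + lam * u ^ 2)) := by
      linear_combination (-1 / 2) * k1 + (1 / 2) * k2
    rw [h3, he]
    ring
  have hg3 : L.g₃ = 4 / 27 * u ^ 6 * ((1 + lam) * (lam - 2) * (2 * lam - 1)) := by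
    have h3 : L.g₃ = 4 * (e * (e + u ^ 2) * (e + lam * u ^ 2)) := by
      linear_combination (-1) * k0
    rw [h3, he]
    ring
  have hD := (b_DSC L).1
  refine ⟨hs, ?_, ?_, hg2, hg3, ?_, ?_⟩
  · rintro rfl
    apply hD
    rw [hg2, hg3]
    ring
  · rintro rfl
    apply hD
    rw [hg2, hg3]
    ring
  · obtain ⟨w, hw, hwe, hw'⟩ := (b_DSC L).2 e 0 (by rw [key e]; ring)
    exact ⟨w, hw, (b_ZER L w hw).1 hw', hwe⟩
  · intro w hw h2w
    have h1 := h.eq w hw
    rw [(b_ZER L w hw).2 h2w, zero_div, zero_pow two_ne_zero] at h1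
    rcases mul_eq_zero.1 h1.symm with h3 | h3
    · rcases mul_eq_zero.1 h3 with h4 | h4
      · exact Or.inl h4
      · exact Or.inr (Or.inl (sub_eq_zero.1 h4))
    · exact Or.inr (Or.inr (sub_eq_zero.1 h3))

end

end Pool.Agent.NSR
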