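import Pool.Agent.NS.StRN
import Pool.Agent.MUX.XLib

/-!
# MUX-NS, block RN, module MFD: a finite extension which contains all the coordinates
-/

set_option autoImplicit false

open WeierstrassCurve Polynomial

namespace Pool.Agent.NSR

open _root_.MU3 Pool.Agent.MU3A Pool.Agent.MU3B Pool.Agent.RI Pool.Agent.MUX Pool.Agent.MUXU
open Pool.Agent.MUXV (GR InK tX)
open Pool.Agent.NS

noncomputable section

namespace MFD

variable {A B : ℤ}

lemma RF_mono {m m' : Ideal (OO A B)} (h : m ≤ m') : RF m' ≤ RF m := by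
  refine IntermediateField.adjoin.mono _ _ _ ?_
  rintro c ⟨b, L, om, hb, hc | ⟨z, hz, hz', hc⟩⟩
  · exact ⟨b, L, om, hb, Or.inl hc⟩
  · exact ⟨b, L, om, hb, Or.inr ⟨z, fun x hx => hz x (h hx), hz', hc⟩⟩

lemma num_mem (K : IntermediateField (kk A B) ℂ) (n : ℕ) : (n : ℂ) ∈ K := natCast_mem K n

/-- the representative of a class of `F`-torsion points -/
def rp (L : PeriodPair) (F i j : ℕ) : ℂ := ((i : ℂ) * L.ω₁ + (j : ℂ) * L.ω₂) / F

lemma exists_rp (L : PeriodPair) (F : ℕ) (hF : F ≠ 0) (z : ℂ) (hz : F * z ∈ L.lattice) :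
    ∃ i j : ℕ, i < F ∧ j < F ∧ z - rp L F i j ∈ L.lattice := by
  obtain ⟨a, c, hac⟩ := PeriodPair.mem_lattice.1 hz
  have hF' : (F : ℤ) ≠ 0 := by exact_mod_cast hF
  have hFp : (0 : ℤ) < F := by exact_mod_cast Nat.pos_of_ne_zero hF
  have hFC : (F : ℂ) ≠ 0 := by exact_mod_cast hF
  have ea := Int.mul_ediv_add_emod a F
  have ec := Int.mul_ediv_add_emod c F
  have a0 := Int.emod_nonneg a hF'
  have c0 := Int.emod_nonneg c hF'
  have a1 := Int.emod_lt_of_pos a hFp
  have c1 := Int.emod_lt_of_pos c hFp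
  refine ⟨(a % F).toNat, (c % F).toNat, by omega, by omega, ?_⟩
  refine PeriodPair.mem_lattice.2 ⟨a / F, c / F, ?_⟩
  have h1 : (((a % F).toNat : ℕ) : ℂ) = a - F * (a / F : ℤ) := by
    have h2 : (((a % F).toNat : ℕ) : ℤ) = a - F * (a / F) := by
      rw [Int.toNat_of_nonneg a0]
      linarith
    have h3 := congrArg (fun x : ℤ => (x : ℂ)) h2
    push_cast at h3
    push_cast
    exact h3
  have h2 : (((c % F).toNat : ℕ) : ℂ) = c - F * (c / F : ℤ) := by
    have h2 : (((c % F).toNat : ℕ) : ℤ) = c - F * (c / F) := by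
      rw [Int.toNat_of_nonneg c0]
      linarith
    have h3 := congrArg (fun x : ℤ => (x : ℂ)) h2
    push_cast at h3
    push_cast
    exact h3
  unfold rp
  rw [h1, h2]
  field_simp
  linear_combination hac

lemma deriv_rp (L : PeriodPair) {z w : ℂ} (h : z - w ∈ L.lattice) :
    L.derivWeierstrassP z = L.derivWeierstrassP w := by
  have h4 := L.derivWeierstrassP_add_coe w ⟨z - w, h⟩
  simpa using h4

end MFD

open MFD

/-- MFD. -/
theorem tr_MFD : Sr_MFD := by
  intro A B hQ hfin b L om hL u e lam hu hu2 he hlam F hF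
  classical
  have hI : idl (A := A) (B := B) (2 * F) ≠ ⊥ := by
    intro h
    rw [Ideal.span_singleton_eq_bot] at h
    exact natCast_ne_zero' hQ (mul_ne_zero two_ne_zero hF) h
  have hle : idl (A := A) (B := B) (2 * F) ≤ idl (A := A) (B := B) 2 := by
    rw [Ideal.span_singleton_le_span_singleton]
    exact ⟨(F : OO A B), by push_cast; ring⟩
  set K : IntermediateField (kk A B) ℂ := RF (idl (A := A) (B := B) (2 * F)) with hK
  have hRF : RF (idl (A := A) (B := B) 2) ≤ K := RF_mono hle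
  have hfK : FiniteDimensional (kk A B) K := hfin _ hI
  have hCM : HasCM A B L := IsLI.hasCM hQ hL.toIsLI
  have hk : kap L ∈ K := IntermediateField.subset_adjoin _ _ ⟨b, L, om, hL, Or.inl rfl⟩
  have hx : ∀ z ∉ L.lattice, (F : ℂ) * z ∈ L.lattice → xn L z ∈ K := by
    intro z hz hFz
    refine IntermediateField.subset_adjoin _ _ ⟨b, L, om, hL, Or.inr ⟨z, ?_, hz, rfl⟩⟩
    refine (tor_span hQ hCM _).2 ?_
    rw [emb_natCast hQ]
    have h1 : ((2 * F : ℕ) : ℂ) * z = F * z + F * z := by push_cast; ring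
    rw [h1]
    exact add_mem hFz hFz
  have hP : ∀ z ∉ L.lattice, (F : ℂ) * z ∈ L.lattice → L.weierstrassP z ∈ K := by
    intro z hz hFz
    have h1 : L.weierstrassP z = xn L z + ((1 : ℕ) : ℂ) / ((12 : ℕ) : ℂ) := by
      unfold xn
      push_cast
      ring
    rw [h1]
    exact add_mem (hx z hz hFz) (div_mem (num_mem K 1) (num_mem K 12))
  have hg2 : L.g₂ ∈ K := by
    have h1 : L.g₂ = (((1728 : ℕ) : ℂ) * kap L + ((1 : ℕ) : ℂ)) / ((12 : ℕ) : ℂ) := by
      unfold kap
      push_cast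
      ring
    rw [h1]
    exact div_mem (add_mem (mul_mem (num_mem K _) hk) (num_mem K 1)) (num_mem K 12)
  have hg3 : L.g₃ ∈ K := by
    have h1 : L.g₃ = -(L.g₂ / ((18 : ℕ) : ℂ)) := by
      rw [hL.nrm]
      push_cast
      ring
    rw [h1]
    exact neg_mem (div_mem hg2 (num_mem K 18))
  have hint : ∀ y ∈ K, IsIntegral (kk A B) y := by
    intro y hy
    exact (Algebra.IsIntegral.isIntegral (R := kk A B) (⟨y, hy⟩ : K)).map K.val
  have hsq : ∀ z ∉ L.lattice, (F : ℂ) * z ∈ L.lattice →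
      IsIntegral (kk A B) (L.derivWeierstrassP z) := by
    intro z hz hFz
    refine IsIntegral.of_pow (n := 2) (by norm_num) (hint _ ?_)
    rw [L.derivWeierstrassP_sq z hz]
    exact sub_mem (sub_mem (mul_mem (num_mem K 4) (pow_mem (hP z hz hFz) 3))
      (mul_mem hg2 (hP z hz hFz))) hg3
  let T : Set ℂ := {u} ∪ ((fun p : ℕ × ℕ => L.derivWeierstrassP (rp L F p.1 p.2)) ''
    {p : ℕ × ℕ | p.1 < F ∧ p.2 < F ∧ rp L F p.1 p.2 ∉ L.lattice})
  have hTfin : T.Finite := by
    refine (Set.finite_singleton u).union (Set.Finite.image _ ?_)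
    refine Set.Finite.subset ((Finset.range F ×ˢ Finset.range F).finite_toSet) ?_
    rintro ⟨i, j⟩ ⟨h1, h2, -⟩
    simp only [Finset.coe_product, Set.mem_prod, Finset.mem_coe, Finset.mem_range]
    exact ⟨h1, h2⟩
  have hFC : (F : ℂ) ≠ 0 := by exact_mod_cast hF
  have hrpF : ∀ i j : ℕ, (F : ℂ) * rp L F i j ∈ L.lattice := by
    intro i j
    refine PeriodPair.mem_lattice.2 ⟨i, j, ?_⟩
    unfold rp
    rw [mul_div_cancel₀ _ hFC]
    push_cast
    rfl
  have hTint : ∀ t ∈ T, IsIntegral (kk A B) t := by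
    rintro t (ht | ⟨⟨i, j⟩, ⟨-, -, h3⟩, rfl⟩)
    · rw [Set.mem_singleton_iff.1 ht]
      exact IsIntegral.of_pow (n := 2) (by norm_num) (hint _ (hRF hu2))
    · exact hsq _ h3 (hrpF i j)
  have : Finite T := hTfin.to_subtype
  have hTfd : FiniteDimensional (kk A B) (IntermediateField.adjoin (kk A B) T) :=
    IntermediateField.finiteDimensional_adjoin hTint
  refine ⟨K ⊔ IntermediateField.adjoin (kk A B) T, inferInstance, ?_, ?_⟩
  · exact (le_sup_left : K ≤ _) (hRF hlam)
  · intro z hz hFz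
    have hKM : K ≤ K ⊔ IntermediateField.adjoin (kk A B) T := le_sup_left
    have hTM : ∀ t ∈ T, t ∈ K ⊔ IntermediateField.adjoin (kk A B) T := fun t ht =>
      (le_sup_right : IntermediateField.adjoin (kk A B) T ≤ _)
        (IntermediateField.subset_adjoin _ _ ht)
    constructor
    · unfold xu
      exact hKM (div_mem (sub_mem (hP z hz hFz) (hRF he)) (hRF hu2))
    · obtain ⟨i, j, hi, hj, hij⟩ := exists_rp L F hF z hFz
      have hnot : rp L F i j ∉ L.lattice := by
        intro h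
        have h2 := add_mem hij h
        rw [sub_add_cancel] at h2
        exact hz h2
      have h3 : L.derivWeierstrassP z ∈ K ⊔ IntermediateField.adjoin (kk A B) T := by
        rw [deriv_rp L hij]
        exact hTM _ (Or.inr ⟨(i, j), ⟨hi, hj, hnot⟩, rfl⟩)
      unfold yu
      exact div_mem h3 (mul_mem (num_mem _ 2) (pow_mem (hTM u (Or.inl rfl)) 3))

end

end Pool.Agent.NSR
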