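import Pool.Agent.NS.StRN

/-!
# MUX-NS, block RN, module PM3 (helper43): the formula for `X(z+w) X(z-w)`, and duplication
-/

set_option autoImplicit false

open WeierstrassCurve Polynomial

namespace Pool.Agent.NSR

open _root_.MU3 Pool.Agent.MU3A Pool.Agent.MU3B Pool.Agent.RI Pool.Agent.MUX Pool.Agent.MUXU
open Pool.Agent.MUXV (GR InK tX)
open Pool.Agent.NS

theorem tr_PM3 (h1 : Sr_CHT) : Sr_PM3 := by
  intro L u e lam hleg
  obtain ⟨hadd, hdup⟩ := h1 L u e lam hleg
  have heq : ∀ z, z ∉ L.lattice → yu L u z ^ 2 =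
      xu L u e z * (xu L u e z - 1) * (xu L u e z - lam) := fun z hz => hleg.eq z hz
  constructor
  · intro z w hz hw hzw hzw'
    have hw' : -w ∉ L.lattice := fun h => hw (by simpa using neg_mem h)
    have hX : xu L u e (-w) = xu L u e w := by
      unfold xu
      rw [L.weierstrassP_neg]
    have hY : yu L u (-w) = -yu L u w := by
      unfold yu
      rw [L.derivWeierstrassP_neg]
      ring
    obtain ⟨hne, h2, -⟩ := hadd z w hz hw hzw hzw'
    obtain ⟨-, h3, -⟩ := hadd z (-w) hz hw' (by rwa [← sub_eq_add_neg]) (by rwa [sub_neg_eq_add])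
    rw [hX, hY, ← sub_eq_add_neg] at h3
    have e1 := heq z hz
    have e2 := heq w hw
    rw [h2, h3]
    generalize xu L u e z = a at *
    generalize xu L u e w = b at *
    generalize yu L u z = y at *
    generalize yu L u w = t at *
    have e3 : (y ^ 2 - t ^ 2) = (a - b) * (a ^ 2 + a * b + b ^ 2 - (1 + lam) * (a + b) + lam) := by
      rw [e1, e2]
      ring
    have e4 : (y - t) / (a - b) * ((y - -t) / (a - b)) * (a - b) =
        a ^ 2 + a * b + b ^ 2 - (1 + lam) * (a + b) + lam := by
      have e5 : (y - t) / (a - b) * ((y - -t) / (a - b)) * (a - b) = (y ^ 2 - t ^ 2) / (a - b) := by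
        field_simp
        ring
      rw [e5, e3]
      field_simp
    have e6 : (((y - t) / (a - b)) * (a - b)) = y - t := by field_simp
    have e7 : (((y - -t) / (a - b)) * (a - b)) = y + t := by
      field_simp
      ring
    generalize (y - t) / (a - b) = m at *
    generalize (y - -t) / (a - b) = n at *
    have e8 : (m * (a - b)) ^ 2 + (n * (a - b)) ^ 2 = 2 * (y ^ 2 + t ^ 2) := by
      rw [e6, e7]
      ring
    rw [e1, e2] at e8
    linear_combination (m * n * (a - b) + (a ^ 2 + a * b + b ^ 2 - (1 + lam) * (a + b) + lam)) * e4 +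
      ((1 + lam) - a - b) * e8
  · intro z hz
    have hz' : z ∉ L.lattice := fun h => hz (by
      rw [two_mul]
      exact add_mem h h)
    obtain ⟨hne, h2, -⟩ := hdup z hz
    have e1 := heq z hz'
    rw [h2, ← e1]
    generalize xu L u e z = a at *
    generalize yu L u z = y at *
    have e2 : ((3 * a ^ 2 - 2 * (1 + lam) * a + lam) / (2 * y)) ^ 2 * (4 * y ^ 2) =
        (3 * a ^ 2 - 2 * (1 + lam) * a + lam) ^ 2 := by
      field_simp
      ring
    generalize (3 * a ^ 2 - 2 * (1 + lam) * a + lam) / (2 * y) = m at *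
    linear_combination e2 + 4 * ((1 + lam) - 2 * a) * e1

end Pool.Agent.NSR
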