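import Pool.Agent.NS.StRN
import Pool.Agent.MU3.BAll
import Pool.Agent.MUX.XLib

/-!
# NSR, module RED: supersingular reduction
-/

set_option autoImplicit false

open WeierstrassCurve Polynomial

namespace Pool.Agent.NSR

open _root_.MU3 Pool.Agent.MU3A Pool.Agent.MU3B Pool.Agent.RI Pool.Agent.MUX Pool.Agent.MUXU
open Pool.Agent.MUXV (GR InK tX)
open Pool.Agent.NS

noncomputable section

namespace RED

theorem al_ne {A B : ℤ} {V : ValuationSubring ℂ} {N : ℕ} (h : CtxA A B V N) : al A B ≠ 0 := by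
  intro h0
  have h1 := h.nrm
  rw [h0, mul_zero] at h1
  have h2 := h.one
  have h3 : N = 0 := by exact_mod_cast h1
  omega

end RED

theorem tr_RED (h1 : Sr_CMI) (h2 : Sr_TOR) (h3 : Sr_LGF) : Sr_RED := by
  intro A B V N hC b L om hL u e lam hleg hlam
  obtain ⟨-, -, -, -, -, ⟨w, hw, h2w, hwe⟩, -⟩ := h3 L u e lam hleg
  have cm : ∀ x : OO A B, ∀ z ∈ L.lattice, emb x * z ∈ L.lattice := by
    intro x z hz
    obtain ⟨y, hy, rfl⟩ := (hL.mem z).1 hz
    refine (hL.mem _).2 ⟨x * y, b.mul_mem_left x hy, ?_⟩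
    rw [emb_mul hC.cq]; ring
  have hα : al A B ≠ 0 := RED.al_ne hC
  obtain ⟨R, hR⟩ := b_REP L (al A B) hα (fun z hz => cm _ z hz)
  have key := h1 A B b L om hC.cq hL u e lam w hleg hw h2w hwe R hR
  have hαw : al A B * w ∉ L.lattice := by
    intro h
    apply hw
    have h5 := cm ⟨0, 1⟩ _ h2w
    have h6 := sub_mem h h5
    have h7 : al A B * w - emb (⟨0, 1⟩ : OO A B) * (2 * w) = w := by
      unfold al alO
      simp [emb]
      ring
    rwa [h7] at h6
  have hN : ∀ q, al A B * q ∈ L.lattice → (N : ℂ) * q ∈ L.lattice := by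
    intro q hq
    rw [hC.nrm, mul_assoc]
    exact cm _ _ hq
  have v2N : V.valuation ((2 * N : ℕ) : ℂ) = 1 := by
    push_cast
    rw [map_mul, hC.v2, hC.vN, one_mul]
  have vq : ∀ q ∈ R, V.valuation (xu L u e q) ≤ 1 := fun q hq =>
    (h2 V L u e lam hC.v2 hlam hleg N hC.vN q (hR.ne q hq) (hN q (hR.mem q hq))).1
  have hwq : ∀ q ∈ R, w + q ∉ L.lattice := by
    intro q hq h
    apply hαw
    have h5 := sub_mem (cm (alO A B) _ h) (hR.mem q hq)
    have h6 : emb (alO A B) * (w + q) - al A B * q = al A B * w := by unfold al; ring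
    rwa [h6] at h5
  have vwq : ∀ q ∈ R, V.valuation (xu L u e (w + q)) ≤ 1 := by
    intro q hq
    refine (h2 V L u e lam hC.v2 hlam hleg (2 * N) v2N _ (hwq q hq) ?_).1
    have h5 := nsmul_mem h2w N
    have h6 := nsmul_mem (hN q (hR.mem q hq)) 2
    have h7 := add_mem h5 h6
    have h8 : N • (2 * w) + 2 • ((N : ℂ) * q) = ((2 * N : ℕ) : ℂ) * (w + q) := by
      simp only [nsmul_eq_mul]
      push_cast
      ring
    rwa [h8] at h7
  have vS : V.valuation (∑ q ∈ R, (xu L u e (w + q) - xu L u e q)) ≤ 1 := by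
    refine Valuation.map_sum_le _ fun q hq => ?_
    exact (Valuation.map_sub _ _ _).trans (max_le (vwq q hq) (vq q hq))
  have main : V.valuation (1 + lam) * V.valuation (1 - al A B ^ 2) ≤ V.valuation (3 : ℂ) := by
    rw [← map_mul, key, map_mul]
    exact mul_le_of_le_one_right' vS
  have hlt : V.valuation (1 + lam) < 1 := by
    by_contra hge
    rw [not_lt] at hge
    exact absurd hC.va (not_lt.2 ((le_mul_of_one_le_left' hge).trans main))
  refine ⟨main, hlt, ?_, ?_⟩
  · have h5 : lam = (1 + lam) - 1 := by ring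
    have h6 : V.valuation (1 + lam) < V.valuation (1 : ℂ) := by rw [map_one]; exact hlt
    rw [h5, Valuation.map_sub_eq_of_lt_right _ h6, map_one]
  · have h5 : lam - 1 = (1 + lam) - 2 := by ring
    have h6 : V.valuation (1 + lam) < V.valuation (2 : ℂ) := by rw [hC.v2]; exact hlt
    rw [h5, Valuation.map_sub_eq_of_lt_right _ h6, hC.v2]

end

end Pool.Agent.NSR
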