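import Pool.Agent.NS.StRN
import Pool.Agent.MUX.VX

/-!
# MUX-NS, block RN, module TOR: points of order prime to 3 have integral coordinates (helper64)
-/

set_option autoImplicit false

open WeierstrassCurve Polynomial

namespace Pool.Agent.NSR

open _root_.MU3 Pool.Agent.MU3A Pool.Agent.MU3B Pool.Agent.RI Pool.Agent.MUX Pool.Agent.MUXU
open Pool.Agent.MUXV (GR InK tX)
open Pool.Agent.NS

noncomputable section

/-- Points of order prime to 3 have integral coordinates. -/
theorem tr_TOR (h : Sr_XIL) : Sr_TOR := by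
  intro V L u e lam h2 hlam hLeg n hn z hz hnz
  obtain ⟨ξ, hker, -, hsome⟩ := h L u e lam hLeg
  have hint : Pool.Agent.MU3.Val.IntW V.valuation (WL lam) := by
    have h1 : V.valuation (-(1 + lam)) ≤ 1 := by
      rw [Valuation.map_neg]
      exact V.valuation.map_add_le (by rw [map_one]) hlam
    exact ⟨rfl, rfl, h1, hlam, by show V.valuation (0 : ℂ) ≤ 1; rw [map_zero]; exact zero_le_one⟩
  obtain ⟨hns, e1⟩ := hsome z hz
  have hX : V.valuation (xu L u e z) ≤ 1 := by
    by_contra hcon
    rw [not_le] at hcon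
    have hE : Pool.Agent.MU3.Val.InE V.valuation (ξ z) := by rw [e1]; exact hcon
    have h0 := Pool.Agent.MU3.Val.eq_zero_of_nsmul hint (Pool.Agent.MU3.Val.two_ne h2) hE hn
      (by rw [← map_nsmul, nsmul_eq_mul]; exact (hker _).2 hnz)
    exact hz ((hker z).1 h0)
  exact ⟨hX, Pool.Agent.MU3.Val.int_y hint hns hX⟩

end

end Pool.Agent.NSR
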