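import Pool.Agent.NS.StRN

/-!
# MUX-NS, block RN, module TR3 (helper37): multiplication by 3 in Legendre form
-/

set_option autoImplicit false

namespace Pool.Agent.NSR

open _root_.MU3 Pool.Agent.MU3A Pool.Agent.MU3B Pool.Agent.RI Pool.Agent.MUX Pool.Agent.MUXU
open Pool.Agent.NS

namespace TR3

lemma xu_congr (L : PeriodPair) (u e : ℂ) {a b : ℂ} (h : a - b ∈ L.lattice) :
    xu L u e a = xu L u e b := by
  have h1 := L.weierstrassP_add_coe b ⟨a - b, h⟩
  have h2 : b + ((⟨a - b, h⟩ : L.lattice) : ℂ) = a := by simp
  rw [h2] at h1
  unfold xu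
  rw [h1]

lemma xu_neg (L : PeriodPair) (u e z : ℂ) : xu L u e (-z) = xu L u e z := by
  unfold xu
  rw [L.weierstrassP_neg]

end TR3

open TR3 in
theorem tr_TR3 (h1 : Sr_PM3) (h2 : Sr_LGF) : Sr_TR3 := by
  intro L u e lam hleg z hz
  obtain ⟨-, hl0, hl1, -, -, -, hr⟩ := h2 L u e lam hleg
  obtain ⟨hp, hd⟩ := h1 L u e lam hleg
  constructor
  · intro h3
    have h2z : 2 * z ∉ L.lattice := by
      intro h
      apply hz
      have := sub_mem h3 h
      rwa [show 3 * z - 2 * z = z by ring] at this
    have e1 : xu L u e (2 * z) = xu L u e z := by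
      rw [← xu_neg L u e z]
      exact xu_congr L u e (by rwa [show 2 * z - -z = 3 * z by ring])
    have e2 := hd z h2z
    rw [e1] at e2
    linear_combination e2
  · intro h3
    by_cases h2z : 2 * z ∈ L.lattice
    · have e1 : xu L u e (3 * z) = xu L u e z :=
        xu_congr L u e (by rwa [show 3 * z - z = 2 * z by ring])
      rw [e1]
      rcases hr z hz h2z with h | h | h <;> rw [h] <;> ring
    · have e2 := hd z h2z
      have hx0 : xu L u e z ≠ 0 := by
        intro h
        rw [h] at e2
        have h4 : lam ^ 2 = 0 := by linear_combination -e2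
        exact hl0 (pow_eq_zero_iff (by norm_num) |>.1 h4)
      have hd0 : 4 * (xu L u e z * (xu L u e z - 1) * (xu L u e z - lam)) ≠ 0 := by
        intro h
        rw [h, mul_zero] at e2
        have h4 : xu L u e z ^ 2 - lam = 0 := pow_eq_zero_iff (by norm_num) |>.1 e2.symm
        rcases mul_eq_zero.1 h with h | h
        · norm_num at h
        rcases mul_eq_zero.1 h with h | h
        · rcases mul_eq_zero.1 h with h | h
          · exact hx0 h
          · apply hl1
            have h5 : xu L u e z = 1 := by linear_combination h
            rw [h5] at h4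
            linear_combination -h4
        · have h5 : xu L u e z = lam := by linear_combination h
          rw [h5] at h4
          have h6 : lam * (lam - 1) = 0 := by linear_combination h4
          rcases mul_eq_zero.1 h6 with h | h
          · exact hl0 h
          · exact hl1 (by linear_combination h)
      have e3 := hp (2 * z) z h2z hz (by rwa [show 2 * z + z = 3 * z by ring])
        (by rwa [show 2 * z - z = z by ring])
      rw [show 2 * z + z = 3 * z by ring, show 2 * z - z = z by ring] at e3
      set x := xu L u e z with hx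
      set y := xu L u e (2 * z) with hy
      set t := xu L u e (3 * z) with ht
      set d := 4 * (x * (x - 1) * (x - lam)) with hdd
      have e4 : t * x * (y * d - x * d) ^ 2 = (y * d * x - lam * d) ^ 2 := by
        linear_combination d ^ 2 * e3
      rw [e2] at e4
      have e5 : x * (t * (3 * x ^ 4 - 4 * (1 + lam) * x ^ 3 + 6 * lam * x ^ 2 - lam ^ 2) ^ 2) =
          x * (x * (x ^ 4 - 6 * lam * x ^ 2 + 4 * lam * (1 + lam) * x - 3 * lam ^ 2) ^ 2) := by
        rw [hdd] at e4
        linear_combination e4
      exact mul_left_cancel₀ hx0 e5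

end Pool.Agent.NSR
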