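import Pool.Agent.NS.StRN
import Pool.Agent.MU3.BAll
import Pool.Agent.MU3.A_TW2

/-!
# MUX-NS, block RN, module TWO (helper37): translation by the point of order two with `X = 0`
-/

set_option autoImplicit false

namespace Pool.Agent.NSR

open _root_.MU3 Pool.Agent.MU3A Pool.Agent.MU3B Pool.Agent.RI Pool.Agent.MUX Pool.Agent.MUXU
open Pool.Agent.NS

theorem tr_TWO (h : Sr_LGF) : Sr_TWO := by
  intro L u e lam w hleg hw h2w he z hz hzw
  obtain ⟨h3e, -, -, hg2, -⟩ := h L u e lam hleg
  have hu := hleg.u0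
  have h1 := (ta_TW2 b_ADD b_ZER b_NEQ L w hw h2w).2 z hz hzw
  rw [he, hg2] at h1
  have h2 : (L.weierstrassP (z + w) - e) * (L.weierstrassP z - e) = lam * u ^ 4 := by
    rw [h1]
    have h4 : e = -(1 + lam) * u ^ 2 / 3 := by linear_combination h3e / 3
    rw [h4]
    ring
  unfold xu
  rw [div_mul_div_comm, h2]
  field_simp

end Pool.Agent.NSR
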