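import Pool.Agent.NS.StRN
import Pool.Agent.MUX.XLib

/-!
# MUX-NS, block RN, module UNR: the inertia groups of `RF (idl f)` are trivial (helper2)
-/

set_option autoImplicit false

open WeierstrassCurve Polynomial

namespace Pool.Agent.NSR

open _root_.MU3 Pool.Agent.MU3A Pool.Agent.MU3B Pool.Agent.RI Pool.Agent.MUX Pool.Agent.MUXU
open Pool.Agent.MUXV (GR InK tX)
open Pool.Agent.NS

noncomputable section

namespace UNR

variable {A B : ℤ}

/-- an automorphism which fixes `wC` fixes `k` -/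
lemma fix_kk {σ : ℂ ≃+* ℂ} (hσ : FixK A B σ) : ∀ y ∈ kk A B, σ y = y := by
  intro y hy
  induction hy using IntermediateField.adjoin_induction with
  | mem x hx => rw [Set.mem_singleton_iff] at hx; rw [hx]; exact hσ
  | algebraMap x => simp
  | add x y _ _ hx hy => rw [map_add, hx, hy]
  | inv x _ hx => rw [map_inv₀, hx]
  | mul x y _ _ hx hy => rw [map_mul, hx, hy]

/-- natural numbers prime to `3` are units -/
lemma v_nat {V : ValuationSubring ℂ} (h3 : V.valuation (3 : ℂ) < 1) {f : ℕ} (hf : ¬ 3 ∣ f) :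
    V.valuation (f : ℂ) = 1 := by
  have hle : ∀ n : ℤ, V.valuation (n : ℂ) ≤ 1 := fun n =>
    (ValuationSubring.valuation_le_one_iff _ _).2 (intCast_mem V n)
  have hco : IsCoprime (f : ℤ) (3 : ℤ) := by
    have h1 : Nat.Coprime f 3 := ((Nat.Prime.coprime_iff_not_dvd Nat.prime_three).2 hf).symm
    exact_mod_cast Nat.isCoprime_iff_coprime.2 h1
  obtain ⟨a, b, hab⟩ := hco
  have h4 : (a : ℂ) * f = 1 - b * 3 := by
    have h5 : ((a * (f : ℤ) + b * 3 : ℤ) : ℂ) = 1 := by rw [hab]; norm_num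
    push_cast at h5
    linear_combination h5
  have h6 : V.valuation ((b : ℂ) * 3) < 1 := by
    rw [map_mul]
    calc V.valuation (b : ℂ) * V.valuation 3 ≤ 1 * V.valuation 3 :=
          mul_le_mul_left (hle b) _
      _ < 1 := by rw [one_mul]; exact h3
  have h7 : V.valuation (1 - (b : ℂ) * 3) = 1 := by
    have := V.valuation.map_sub_eq_of_lt_left (x := 1) (y := (b : ℂ) * 3)
      (by rw [map_one]; exact h6)
    rw [this, map_one]
  rw [← h4, map_mul] at h7
  have h8 : V.valuation (f : ℂ) ≤ 1 := by exact_mod_cast hle (f : ℤ)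
  refine le_antisymm h8 ?_
  rw [← h7]
  calc V.valuation (a : ℂ) * V.valuation (f : ℂ) ≤ 1 * V.valuation (f : ℂ) :=
        mul_le_mul_left (hle a) _
    _ = _ := one_mul _

/-- points killed by `n` are killed by the ideal `(n)` -/
lemma tor_of_mul (h : CQ A B) {b : Ideal (OO A B)} {L : PeriodPair} {om : ℂ} (hL : IsLI b L om)
    {n : ℕ} {z : ℂ} (hz : (n : ℂ) * z ∈ L.lattice) : Tor (idl (A := A) (B := B) n) L z := by
  intro x hx
  obtain ⟨y, rfl⟩ := Ideal.mem_span_singleton.1 hx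
  obtain ⟨t, ht, e⟩ := (hL.mem _).1 hz
  refine (hL.mem _).2 ⟨y * t, b.mul_mem_left _ ht, ?_⟩
  rw [emb_mul h, emb_mul h, emb_natCast h]
  linear_combination (emb y) * e

end UNR

open UNR in
/-- (UNR) inertia groups are trivial -/
theorem tr_UNR (h1 : Sr_HPD) (h3 : Sr_TOR) (h4 : Sr_LIF) (h5 : Sr_MFD) (h6 : Sr_FXL) :
    Sr_UNR := by
  intro A B V N hc T f hf0 hf3 σ hσ hin
  have hcq := hc.cq
  have hidf : idl (A := A) (B := B) f ≠ ⊥ := by
    intro h0
    rw [Ideal.span_singleton_eq_bot] at h0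
    have h7 := emb_natCast (A := A) (B := B) hcq f
    rw [h0, emb_zero hcq] at h7
    exact hf0 (by exact_mod_cast h7.symm)
  have hvf : V.valuation (f : ℂ) = 1 := v_nat hc.v3 hf3
  have hN0 : N ≠ 0 := by
    have := hc.one
    omega
  have hvF : V.valuation ((N * f : ℕ) : ℂ) = 1 := by
    rw [Nat.cast_mul, map_mul, hc.vN, hvf, one_mul]
  -- the generators
  have key : ∀ (b : Ideal (OO A B)) (L : PeriodPair) (om : ℂ), IsNL b L om →
      σ (kap L) = kap L ∧ ∀ z, Tor (idl (A := A) (B := B) f) L z → z ∉ L.lattice →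
        σ (xn L z) = xn L z := by
    intro b L om hL
    obtain ⟨w₁, w₂, w₃, u, ⟨hw1, hw1'⟩, ⟨hw2, hw2'⟩, ⟨hw3, hw3'⟩, hne, hu2, hLeg, hlam⟩ := h1 V L
    have two : ∀ w : ℂ, w ∉ L.lattice → 2 * w ∈ L.lattice →
        L.weierstrassP w ∈ RF (idl (A := A) (B := B) 2) := by
      intro w hw hw'
      have hT : Tor (idl (A := A) (B := B) 2) L w :=
        tor_of_mul hcq hL.toIsLI (by push_cast; exact hw')
      have hx : xn L w ∈ RF (idl (A := A) (B := B) 2) :=
        IntermediateField.subset_adjoin _ _ ⟨b, L, om, hL, Or.inr ⟨w, hT, hw, rfl⟩⟩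
      have h12 : (1 / 12 : ℂ) ∈ RF (idl (A := A) (B := B) 2) := by simp
      have e : L.weierstrassP w = xn L w + 1 / 12 := by
        unfold xn
        ring
      rw [e]
      exact add_mem hx h12
    have m1 := two w₁ hw1 hw1'
    have m2 := two w₂ hw2 hw2'
    have m3 := two w₃ hw3 hw3'
    set e : ℂ := L.weierstrassP w₁ with he
    set lam : ℂ := (L.weierstrassP w₃ - e) / (L.weierstrassP w₂ - e) with hlamd
    have hu2m : u ^ 2 ∈ RF (idl (A := A) (B := B) 2) := by
      rw [hu2]; exact sub_mem m2 m1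
    have hlamm : lam ∈ RF (idl (A := A) (B := B) 2) :=
      div_mem (sub_mem m3 m1) (sub_mem m2 m1)
    obtain ⟨M, hMf, hlamM, hM⟩ := h5 A B hcq (fun m hm => T.fin m hm) b L om hL u e lam hLeg.u0
      hu2m m1 hlamm (N * f) (mul_ne_zero hN0 hf0)
    obtain ⟨σ', hσ', hσσ, hσM⟩ := h4 A B V hcq hc.v3 (RF (idl (A := A) (B := B) f)) M
      (T.fin _ hidf) (T.gal _ hidf) hMf σ hσ hin
    obtain ⟨hk, hx⟩ := h6 A B V N hc b L om hL u e lam hLeg hlam (N * f) (Dvd.intro f rfl) hvF σ'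
      hσ' (hσM lam hlamM hlam) (fun z hz hz' => by
        obtain ⟨g1, g2⟩ := h3 V L u e lam hc.v2 hlam hLeg (N * f) hvF z hz hz'
        obtain ⟨g3, g4⟩ := hM z hz hz'
        exact ⟨hσM _ g3 g1, hσM _ g4 g2⟩)
    refine ⟨?_, fun z hz hzL => ?_⟩
    · have hm : kap L ∈ RF (idl (A := A) (B := B) f) :=
        IntermediateField.subset_adjoin _ _ ⟨b, L, om, hL, Or.inl rfl⟩
      rw [← hσσ _ hm]
      exact hk
    · have hm : xn L z ∈ RF (idl (A := A) (B := B) f) :=
        IntermediateField.subset_adjoin _ _ ⟨b, L, om, hL, Or.inr ⟨z, hz, hzL, rfl⟩⟩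
      rw [← hσσ _ hm]
      apply hx z hzL
      have h8 := hz ((f : ℕ) : OO A B) (Ideal.mem_span_singleton_self _)
      rw [emb_natCast hcq] at h8
      have h9 := L.lattice.nsmul_mem h8 N
      rw [nsmul_eq_mul] at h9
      have e9 : ((N * f : ℕ) : ℂ) * z = (N : ℂ) * ((f : ℂ) * z) := by push_cast; ring
      rw [e9]
      exact h9
  intro y hy
  induction hy using IntermediateField.adjoin_induction with
  | mem x hx =>
    obtain ⟨b, L, om, hL, h | ⟨z, hz, hzL, h⟩⟩ := hx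
    · rw [h]; exact (key b L om hL).1
    · rw [h]; exact (key b L om hL).2 z hz hzL
  | algebraMap x => exact fix_kk hσ _ x.2
  | add x y _ _ hx hy => rw [map_add, hx, hy]
  | inv x _ hx => rw [map_inv₀, hx]
  | mul x y _ _ hx hy => rw [map_mul, hx, hy]

end

end Pool.Agent.NSR
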