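import Pool.Agent.NS.StRN
import Pool.Agent.MUX.R_XIC
import Pool.Agent.MUX.U_SCX

/-!
# MUX-NS, block RN, module XIL (helper44): the group isomorphism in Legendre form
-/

set_option autoImplicit false

open WeierstrassCurve Polynomial

namespace Pool.Agent.NSR

open _root_.MU3 Pool.Agent.MU3A Pool.Agent.MU3B Pool.Agent.RI Pool.Agent.MUX Pool.Agent.MUXU
open Pool.Agent.MUXV (GR InK tX)
open Pool.Agent.NS

noncomputable section

theorem tr_XIL (h : Sr_LGF) : Sr_XIL := by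
  intro L u e lam hL
  obtain ⟨h1, -, -, h2, h3, -, -⟩ := h L u e lam hL
  have hu := hL.u0
  obtain ⟨L₁, hL₁⟩ := tu_SCX L u hu
  obtain ⟨k1, k2, k3, k4⟩ := ta_SCP L L₁ u hu hL₁
  have hc : 3 * (e / u ^ 2) = -(1 + lam) := by
    rw [← mul_div_assoc, h1]
    field_simp
  have hce : e / u ^ 2 = -(1 + lam) / 3 := by linear_combination hc / 3
  have hg2 : L₁.g₂ = 4 / 3 * (lam ^ 2 - lam + 1) := by
    rw [k3, h2]
    field_simp
  have hg3 : L₁.g₃ = 4 / 27 * ((1 + lam) * (lam - 2) * (2 * lam - 1)) := by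
    rw [k4, h3]
    field_simp
  have hW : Pool.Agent.MUXV.WS L₁ (e / u ^ 2) = WL lam := by
    unfold Pool.Agent.MUXV.WS WL
    rw [hg2, hg3, hce]
    congr 1
    · ring
    · ring
    · ring
  have hX := Pool.Agent.MUXV.tx_XIC L₁ (e / u ^ 2)
  rw [hW] at hX
  obtain ⟨ξ₁, m0, m1, m2⟩ := hX
  refine ⟨ξ₁.comp (AddMonoidHom.mulLeft u), fun z => ?_, fun p => ?_, fun z hz => ?_⟩
  · show ξ₁ (u * z) = 0 ↔ z ∈ L.lattice
    rw [m0, hL₁]
  · obtain ⟨z, hz⟩ := m1 p
    refine ⟨z / u, ?_⟩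
    show ξ₁ (u * (z / u)) = p
    rw [mul_div_cancel₀ _ hu, hz]
  · have h4 : u * z ∉ L₁.lattice := fun h5 => hz ((hL₁ z).2 h5)
    have h6 := m2 (u * z) h4
    have e1 : L₁.weierstrassP (u * z) - e / u ^ 2 = xu L u e z := by
      rw [k1]
      unfold xu
      ring
    have e2 : L₁.derivWeierstrassP (u * z) / 2 = yu L u z := by
      rw [k2]
      unfold yu
      rw [div_div, mul_comm (u ^ 3) 2]
    rw [e1, e2] at h6
    exact h6

end

end Pool.Agent.NSR
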