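import Pool.Agent.NS.RN_RFIN
import Pool.Agent.NS.RN_ALP
import Pool.Agent.NS.RN_HPD
import Pool.Agent.NS.RN_RED
import Pool.Agent.NS.RN_UNR
import Pool.Agent.NS.RN_CMI
import Pool.Agent.NS.RN_TOR
import Pool.Agent.NS.RN_LGF
import Pool.Agent.NS.RN_XIL
import Pool.Agent.NS.RN_GRL
import Pool.Agent.NS.RN_CHT
import Pool.Agent.NS.RN_CLO
import Pool.Agent.NS.RN_TWO
import Pool.Agent.NS.RN_UNQ
import Pool.Agent.NS.RN_EQL
import Pool.Agent.NS.RN_FXL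
import Pool.Agent.NS.RN_MFD
import Pool.Agent.NS.RN_LIF
import Pool.Agent.NS.RN_VAL3
import Pool.Agent.NS.RN_RAM
import Pool.Agent.NS.RN_PM3
import Pool.Agent.NS.RN_TR3
import Pool.Agent.MUX.UAll

/-!
# The block RN put together

All the modules of the block RN, without hypotheses.
-/

namespace Pool.Agent.NSR



theorem rlgf : Sr_LGF := tr_LGF

theorem rxil : Sr_XIL := tr_XIL tr_LGF

theorem rtor : Sr_TOR := tr_TOR rxil

theorem rcmi : Sr_CMI := tr_CMI tr_LGF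

theorem rred : Sr_RED := tr_RED rcmi rtor tr_LGF

theorem rgrl : Sr_GRL := tr_GRL rxil

theorem rcht : Sr_CHT := tr_CHT tr_LGF

theorem rclo : Sr_CLO := tr_CLO rgrl rcht

theorem rtwo : Sr_TWO := tr_TWO tr_LGF

theorem runq : Sr_UNQ :=
  tr_UNQ tr_LGF rred rtor rtwo rcmi rclo Pool.Agent.MUXU.u_BAC Pool.Agent.MUXU.u_CJE
    Pool.Agent.MUXU.u_PHI Pool.Agent.MUXU.u_TSN

theorem rfxl : Sr_FXL := tr_FXL runq (tr_EQL tr_LGF) rred rgrl rtor

theorem runr (h : Sr_LIF) : Sr_UNR := tr_UNR tr_HPD rtor h tr_MFD rfxl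

theorem rpm3 : Sr_PM3 := tr_PM3 rcht

theorem rtr3 : Sr_TR3 := tr_TR3 rpm3 tr_LGF

theorem rfin0 (h : Sr_LIF) : Pool.Agent.NS.Sn_RFIN := tr_RFIN tr_ALP tr_HPD rred (runr h)

theorem rval3 (h : Sr_LIF) : Sr_VAL3 := tr_VAL3 tr_ALP (runr h) tr_RAM

/-- The final statement of the block RN. -/
theorem rfin : Pool.Agent.NS.Sn_RFIN := rfin0 tr_LIF

theorem runr' : Sr_UNR := runr tr_LIF

theorem rval3' : Sr_VAL3 := rval3 tr_LIF

end Pool.Agent.NSR
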