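import Pool.Agent.NS.DefsN
import Pool.Agent.MUX.StXE2
import Pool.Agent.MUX.VX
import Pool.Agent.MUX.UAll
import Pool.Agent.MUX.E_RNG
import Pool.Agent.MUX.E_TRA
import Pool.Agent.MUX.E_TRB
import Pool.Agent.MUX.E_FAC
import Pool.Agent.MUX.E_GTH
import Pool.Agent.MUX.E_PT

/-!
# MUX-NS, block EN: a cube has a logarithmic derivative divisible by `3` (`3` inert in `k`) (helper86)

`V` a valuation ring of `ℂ` above `3`, `v = V.valuation` (multiplicative: `v x ≤ v 3` means `x ∈ 3 V`; `v x ≤ 1` iff `x ∈ V`). `L` a lattice, `GoodN V L u e lam`: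
`x = xu L u e = (℘ - e)/u²`, `y = yu L u = ℘'/(2 u³)`, `y² = x (x - 1) (x - lam) = x³ + a₂ x² + a₄ x`, `a₂ = -(1 + lam) ∈ 3 V`, `a₄ = lam` a unit.
`s = 1/x`, `r = -y/x²`: `r² = s (1 + a₂ s + a₄ s²)`. `E3 L`: the points of order three, `v(s)⁴ = v 3` there (`TW3`). `InK V L x z` (`VX.lean`, helper59): `z` is zero or in the
kernel of reduction (`E₁`); all lemmas of `Pool/Agent/MUX/VX.lean` hold for the Legendre curve (`GRN`: `GR V (WL lam) L x y ξ`).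

`Rep V S s r F α β`: the function `F` on `S = E3 L` is `A(s) + r B(s)` with polynomials over `V` and `A(0) ≡ α`, `B(0) ≡ β` modulo `3 V`. These functions form a ring and
`F ↦ α + β ε ∈ (V/3)[ε]` is a well defined ring homomorphism (ALG); so the cube of such a function has `β ∈ 3 V` (CUB): this is Lemma E.

Every statement is a `def Se_X : Prop`; the module MUXEN_X proves `theorem te_X (h : ...) : Se_X` in `Pool/Agent/NS/E_X.lean`, namespace `Pool.Agent.NSE`,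
with the statements named under `Uses` as hypotheses (drop those which are not needed; others may be added if they do not depend on this one). Unconditional and usable:
`Pool.Agent.MU3B.b_X : St_X` (`Pool/Agent/MU3/BAll.lean`), `Pool.Agent.MU3A.ta_SCP`, `Pool.Agent.MUXU.u_X : Su_X` (`Pool/Agent/MUX/UAll.lean`), and from block E of MUX
`Pool.Agent.MUXE.te_RNG`, `te_TRA`, `te_TRB`, `te_FAC te_TRA`, `te_GTH te_TRA`, `te_PT te_TRA` (imported here; `te_GAL` in `E_GAL.lean`).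
-/

set_option autoImplicit false

open Polynomial

namespace Pool.Agent.NSE

open _root_.MU3 Pool.Agent.MU3A Pool.Agent.MU3B Pool.Agent.MUX Pool.Agent.MUXU Pool.Agent.MUXE
open Pool.Agent.RI Pool.Agent.NS
open Pool.Agent.MUXV (GR InK tX)

noncomputable section

/-! ## Definitions -/

/-- the points of order three -/
def E3 (L : PeriodPair) : Set ℂ := {Y | 3 * Y ∈ L.lattice ∧ Y ∉ L.lattice}

/-- `s = 1/x` -/
def su (L : PeriodPair) (u e z : ℂ) : ℂ := (xu L u e z)⁻¹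

/-- `r = -y/x²` -/
def ru (L : PeriodPair) (u e z : ℂ) : ℂ := -yu L u z / xu L u e z ^ 2

/-- the Legendre curve `y² = x³ - (1 + lam) x² + lam x` -/
def WL (lam : ℂ) : WeierstrassCurve.Affine ℂ := ⟨0, -(1 + lam), 0, lam, 0⟩

/-- a polynomial with coefficients in `V` -/
def IntP (V : ValuationSubring ℂ) (P : ℂ[X]) : Prop := ∀ i, V.valuation (P.coeff i) ≤ 1

/-- the situation of the eight points of order three, abstractly -/
structure Pts (V : ValuationSubring ℂ) (S : Set ℂ) (s r : ℂ → ℂ) (a2 a4 : ℂ) : Prop where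
  v3 : V.valuation (3 : ℂ) < 1
  i2 : V.valuation a2 ≤ 1
  i4 : V.valuation a4 ≤ 1
  vs : ∀ Y ∈ S, V.valuation (s Y) ^ 4 = V.valuation (3 : ℂ)
  eq : ∀ Y ∈ S, r Y ^ 2 = s Y * (1 + a2 * s Y + a4 * s Y ^ 2)
  neg : ∀ Y ∈ S, ∃ Y' ∈ S, s Y' = s Y ∧ r Y' = -r Y
  four : ∃ y : Fin 4 → ℂ, (∀ i, y i ∈ S) ∧ Function.Injective fun i => s (y i)
  fin : ((fun Y => (s Y, r Y)) '' S).Finite

/-- `F = A(s) + r B(s)` on `S`, `A`, `B` over `V`, `A(0) ≡ α`, `B(0) ≡ β` modulo `3` -/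
def Rep (V : ValuationSubring ℂ) (S : Set ℂ) (s r F : ℂ → ℂ) (α β : ℂ) : Prop :=
  ∃ P Q : ℂ[X], IntP V P ∧ IntP V Q ∧ (∀ Y ∈ S, F Y = P.eval (s Y) + r Y * Q.eval (s Y)) ∧
    V.valuation (P.coeff 0 - α) ≤ V.valuation (3 : ℂ) ∧
    V.valuation (Q.coeff 0 - β) ≤ V.valuation (3 : ℂ)

/-- everything on `O`, `k`, `V` and the reduction which is used -/
structure CtxN (A B : ℤ) (V : ValuationSubring ℂ) : Prop where
  ring : RingE A B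
  cq : CQ A B
  v3 : V.valuation (3 : ℂ) < 1
  int : ∀ x : OO A B, V.valuation (emb x) ≤ 1
  unit : ∀ x : OO A B, x ∉ idl (A := A) (B := B) 3 → V.valuation (emb x) = 1
  nat : ∀ n : ℕ, ¬ 3 ∣ n → V.valuation (n : ℂ) = 1
  max : (idl (A := A) (B := B) 3).IsMaximal
  nrm : ∀ x : OO A B, x ∉ idl (A := A) (B := B) 3 → ¬ (3 : ℤ) ∣ nm x
  kval : ∀ y ∈ kk A B, y ≠ 0 → ∃ k : ℤ, V.valuation y = V.valuation (3 : ℂ) ^ k
  good : ∀ L, NL A B L → ∃ u e lam : ℂ, GoodN V L u e lam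
  iner : ∀ f : ℕ, f ≠ 0 → ¬ 3 ∣ f → ∀ σ : ℂ ≃+* ℂ, FixK A B σ →
    (∀ y ∈ RF (idl (A := A) (B := B) f), y ∈ V → σ y - y ∈ V.nonunits) →
    ∀ y ∈ RF (idl (A := A) (B := B) f), σ y = y

/-! ## Lemma E: the ring of the functions `A(s) + r B(s)` -/

/-- (ALG) the ring and the homomorphism to `(V/3)[ε]`.

PROOF. `v(s Y) < 1`, `v(r Y) < 1` (`v(r)² = v(s)`, because `v(1 + a₂ s + a₄ s²) = 1`), `r Y ≠ 0`. Sums: clear. Products: `(A + r B)(A' + r B') = (A A' + f B B') + r (A B' + A' B)` with `f(s) = s (1 + a₂ s + a₄ s²)`, `f(0) = 0`. Values: `F Y = A(s) + r B(s) ≡ A(0) ≡ α` modulo the maximal ideal.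
Inverses: `v α = 1`, so `v(F Y) = 1` for all `Y`. Let `Ω` be the finite set of the pairs `(s Y, r Y)`; `F Y` is a function of the pair. `P(T) = ∏_(ω ∈ Ω) (T - F_ω)` is monic with coefficients in `V` (all `F_ω ∈ V`), `P(F Y) = 0`, `c = P(0) = ∏ (-F_ω)` is a unit, `P = c + T Q`, so `(F Y)⁻¹ = -Q(F Y)/c`, a polynomial
in `F` over `V`; so `F⁻¹ = A' + r B'` by sums and products, `A'(0) ≡ α'`, `B'(0) ≡ β'` for some `α', β'`, and `F F⁻¹ = 1` with uniqueness gives `α α' ≡ 1`, `α β' + α' β ≡ 0` modulo `3`. Uniqueness: let `A + r B = A' + r B'` on `S`; with `Y` also `Y'` (`neg`), so `(A - A')(s) = 0` and `(B - B')(s) = 0`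
(`r ≠ 0`, `2 ≠ 0`) for all `s = s Y`, in particular at four different `s_1, .., s_4`. A polynomial over `V` which vanishes at the `s_i` is `∏ (X - s_i)` times a polynomial over `V` (divide by the monic polynomials `X - s_i` one after the other, or `Multiset.prod_X_sub_C_dvd_iff_le_roots` in `V[X]`), so its value at `0` is in `s_1 s_2 s_3 s_4 V`, and `v(s_1 s_2 s_3 s_4)⁴ = v(3)⁴`,
`v(s_1 s_2 s_3 s_4) = v 3`. -/
def Se_ALG : Prop :=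
  ∀ (V : ValuationSubring ℂ) (S : Set ℂ) (s r : ℂ → ℂ) (a2 a4 : ℂ), Pts V S s r a2 a4 →
    (∀ c, V.valuation c ≤ 1 → Rep V S s r (fun _ => c) c 0) ∧
    Rep V S s r s 0 0 ∧ Rep V S s r r 0 1 ∧
    (∀ (F G : ℂ → ℂ) (α β α' β' : ℂ), Rep V S s r F α β → (∀ Y ∈ S, G Y = F Y) →
      V.valuation (α' - α) ≤ V.valuation (3 : ℂ) → V.valuation (β' - β) ≤ V.valuation (3 : ℂ) →
      Rep V S s r G α' β') ∧
    (∀ (F G : ℂ → ℂ) (α β α' β' : ℂ), Rep V S s r F α β → Rep V S s r G α' β' →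
      Rep V S s r (fun Y => F Y + G Y) (α + α') (β + β')) ∧
    (∀ (F G : ℂ → ℂ) (α β α' β' : ℂ), Rep V S s r F α β → Rep V S s r G α' β' →
      Rep V S s r (fun Y => F Y * G Y) (α * α') (α * β' + α' * β)) ∧
    (∀ (F : ℂ → ℂ) (α β : ℂ), Rep V S s r F α β → V.valuation α = 1 →
      (∀ Y ∈ S, V.valuation (F Y) = 1) ∧ Rep V S s r (fun Y => (F Y)⁻¹) α⁻¹ (-β / α ^ 2)) ∧
    (∀ (F : ℂ → ℂ) (α β : ℂ), Rep V S s r F α β → V.valuation α ≤ 1 ∧ V.valuation β ≤ 1 ∧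
      ∀ Y ∈ S, V.valuation (F Y - α) < 1) ∧
    ∀ (F : ℂ → ℂ) (α β α' β' : ℂ), Rep V S s r F α β → Rep V S s r F α' β' →
      V.valuation (α - α') ≤ V.valuation (3 : ℂ) ∧ V.valuation (β - β') ≤ V.valuation (3 : ℂ)

/-- (PRO) polynomials, products, quotients and cubes.

Uses Se_ALG. PROOF. (1) Induction on the degree (or sum over the monomials). (2) `F Y = c (1 + l ε)`; products by induction on the finite set, powers with natural exponents by induction, negative exponents by inverses: `(c, c l)` has the inverse `(c⁻¹, -l/c)`. (3) `F = G³` on `S`: `F` is represented by `(α³, 3 α² β)`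
(`G` integral: `v α, v β ≤ 1`) and by `(α', β')`, so `v(β' - 3 α² β) ≤ v 3` (uniqueness). -/
def Se_PRO : Prop :=
  ∀ (V : ValuationSubring ℂ) (S : Set ℂ) (s r : ℂ → ℂ) (a2 a4 : ℂ), Pts V S s r a2 a4 →
    (∀ (F : ℂ → ℂ) (α β : ℂ) (P : ℂ[X]), Rep V S s r F α β → IntP V P →
      Rep V S s r (fun Y => P.eval (F Y)) (P.eval α) (β * (derivative P).eval α)) ∧
    (∀ (J : Type) [Fintype J] (F : J → ℂ → ℂ) (c l : J → ℂ) (g : J → ℤ),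
      (∀ j, Rep V S s r (F j) (c j) (c j * l j)) → (∀ j, V.valuation (c j) = 1) →
      V.valuation (∏ j, c j ^ g j) = 1 ∧
      Rep V S s r (fun Y => ∏ j, F j Y ^ g j) (∏ j, c j ^ g j)
        ((∏ j, c j ^ g j) * ∑ j, (g j : ℂ) * l j)) ∧
    ∀ (F G : ℂ → ℂ) (α β α' β' : ℂ), Rep V S s r G α β → (∀ Y ∈ S, F Y = G Y ^ 3) →
      Rep V S s r F α' β' → V.valuation β' ≤ V.valuation (3 : ℂ)

/-- (PUL) pullback along a map `ρ : S → S'` with `s' ∘ ρ ↦ 0`, `r' ∘ ρ ↦ c ε`.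

Uses Se_ALG, Se_PRO. PROOF. `F Y' = P(s' Y') + r' Y' Q(s' Y')`; `P(s'(ρ Y))` is represented by `(P(0), 0)` (PRO (1), `P.eval 0 = P.coeff 0`), `Q(s'(ρ Y))` by `(Q(0), 0)`, the product with `r'(ρ Y)` by `(0, c Q(0))`; change modulo `3` (`v c ≤ 1` by ALG). -/
def Se_PUL : Prop :=
  ∀ (V : ValuationSubring ℂ) (S S' : Set ℂ) (s r s' r' : ℂ → ℂ) (a2 a4 : ℂ) (ρ : ℂ → ℂ) (c : ℂ),
    Pts V S s r a2 a4 → (∀ Y ∈ S, ρ Y ∈ S') →
    Rep V S s r (fun Y => s' (ρ Y)) 0 0 → Rep V S s r (fun Y => r' (ρ Y)) 0 c →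
    ∀ (F : ℂ → ℂ) (α β : ℂ), Rep V S' s' r' F α β →
      Rep V S s r (fun Y => F (ρ Y)) α (β * c)

/-! ## The Legendre model -/

/-- (COE) the coefficients.

PROOF. `℘'² = 4 ℘³ - g₂ ℘ - g₃` (`derivWeierstrassP_sq`) and `GoodN.eq`, and `℘` takes every value (`b_SUR`): for all `T ∈ ℂ` `4 T³ - g₂ T - g₃ = 4 (T - e)(T - e - u²)(T - e - lam u²)`. Compare coefficients (put `T = e` and use a few values; or a polynomial with infinitely many zeros is zero): `0 = 3 e + u² + lam u²`, `-g₂ = 4 (-3 e² + lam u⁴)`,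
`4 e³ - g₂ e - g₃ = 0`. `v 2 = 1` since `2 = 3 - 1`; `lam = -1 + (1 + lam)`, `1 - lam = 2 - (1 + lam)`. `lam ≠ 0, 1`, `u ≠ 0`. Derivatives: `℘' = 2 u³ y`, `x' = ℘'/u² = 2 u y`. -/
def Se_COE : Prop :=
  ∀ (V : ValuationSubring ℂ) (L : PeriodPair) (u e lam : ℂ), GoodN V L u e lam →
    V.valuation (3 : ℂ) < 1 →
    3 * e = -(1 + lam) * u ^ 2 ∧ L.g₂ = 4 * (3 * e ^ 2 - lam * u ^ 4) ∧
    L.g₃ = 4 * e ^ 3 - L.g₂ * e ∧ V.valuation (2 : ℂ) = 1 ∧ V.valuation lam = 1 ∧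
    V.valuation (1 - lam) = 1 ∧
    (∀ z ∉ L.lattice, yu L u z ^ 2 =
      xu L u e z ^ 3 - (1 + lam) * xu L u e z ^ 2 + lam * xu L u e z) ∧
    (∀ z ∉ L.lattice, HasDerivAt (xu L u e) (2 * u * yu L u z) z) ∧
    ∀ z, (∀ w ∈ L.lattice, xu L u e (z + w) = xu L u e z ∧ yu L u (z + w) = yu L u z) ∧
      xu L u e (-z) = xu L u e z ∧ yu L u (-z) = -yu L u z

/-- (GRN) good reduction in the sense of `VX.lean`.

Uses Se_COE. PROOF. The discriminant of `WL lam` is `16 lam² (1 - lam)²`. `IntW`: the coefficients are in `V`. `ξ`: as `Pool/Agent/MUX/R_NGR.lean` (there `x = ℘ - 1/12`), or from `u_XIL` (the homomorphism to `EL L`) and the change of variables `(X, Y) ↦ ((X - e)/u², Y/u³)` from `EL L` to `WL lam`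
(a bijection compatible with the group laws; (COE)). -/
def Se_GRN : Prop :=
  ∀ (V : ValuationSubring ℂ) (L : PeriodPair) (u e lam : ℂ), GoodN V L u e lam →
    V.valuation (3 : ℂ) < 1 → ∃ ξ : ℂ →+ (WL lam).Point, GR V (WL lam) L (xu L u e) (yu L u) ξ

/-- (LEG) the points of order two.

Uses Se_COE. PROOF. `w₁` with `℘ w₁ = e` and `w₂` with `℘ w₂ = e + u²` (`b_SUR`): `x w₁ = 0`, `x w₂ = 1`, so `y w_i = 0` (`GoodN.eq`), `℘' w_i = 0`, `2 w_i ∈ L` (`b_ZER`). -/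
def Se_LEG : Prop :=
  ∀ (V : ValuationSubring ℂ) (L : PeriodPair) (u e lam : ℂ), GoodN V L u e lam →
    V.valuation (3 : ℂ) < 1 →
    ∃ w₁ w₂ : ℂ, 2 * w₁ ∈ L.lattice ∧ w₁ ∉ L.lattice ∧ 2 * w₂ ∈ L.lattice ∧ w₂ ∉ L.lattice ∧
      L.weierstrassP w₁ = e ∧ L.weierstrassP w₂ - L.weierstrassP w₁ = u ^ 2 ∧
      xu L u e w₁ = 0

/-- (TW3) the points of order three.

Uses Se_COE. PROOF. `2 Y ∉ L` (otherwise `Y = 3 Y - 2 Y ∈ L`), `℘(2 Y) = ℘(3 Y - Y) = ℘(Y)`. `b_DUP`: `3 ℘(Y) (2 ℘'(Y))² = (6 ℘² - g₂/2)²`, with `℘ = u² x + e`, `℘' = 2 u³ y`, (COE) (`a₂ = -(1 + lam)`, `3 e = a₂ u²`): `6 ℘² - g₂/2 = u⁴ (6 x² + 4 a₂ x + 2 a₄)`, so `4 (3 x + a₂)(x³ + a₂ x² + a₄ x) = (3 x² + 2 a₂ x + a₄)²`, that is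
`3 x⁴ + 4 a₂ x³ + 6 a₄ x² - a₄² = 0`, `a₄ = lam`. So `x ≠ 0` and `a₄² s⁴ = 3 + 4 a₂ s + 6 a₄ s²`; `v a₄ = 1`, `v a₂ ≤ v 3`. `σ = v s`: if `σ ≥ 1` then `σ⁴ ≤ v 3 σ²`, `σ² ≤ v 3 < 1`, contradiction. So `σ < 1`, `v(4 a₂ s + 6 a₄ s²) < v 3`, `σ⁴ = v 3`. `x = 1/s ∉ V`. -/
def Se_TW3 : Prop :=
  ∀ (V : ValuationSubring ℂ) (L : PeriodPair) (u e lam : ℂ), GoodN V L u e lam →
    V.valuation (3 : ℂ) < 1 → ∀ Y ∈ E3 L, InK V L (xu L u e) Y ∧ xu L u e Y ≠ 0 ∧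
      V.valuation (su L u e Y) ^ 4 = V.valuation (3 : ℂ)

/-- (PTS) the points of order three satisfy `Pts`.

Uses Se_COE, Se_TW3. PROOF. `eq`: `r² = y²/x⁴ = (x³ + a₂ x² + a₄ x)/x⁴`. `neg`: `Y' = -Y` (`x` even, `y` odd). `four`: the points `ω₁/3`, `ω₂/3`, `(ω₁ + ω₂)/3`, `(ω₁ - ω₂)/3`: sums and differences of two of them are not in `L`, so the `℘`-values are different (`b_NEQ`). `fin`: `(s, r)` depends only on the class of `Y` modulo `L`, and there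
are finitely many classes (`3 Y = i ω₁ + j ω₂`, `i, j` modulo `3`; or `b_REP` for `a = 3`). The last part: periodicity. -/
def Se_PTS : Prop :=
  ∀ (V : ValuationSubring ℂ) (L : PeriodPair) (u e lam : ℂ), GoodN V L u e lam →
    V.valuation (3 : ℂ) < 1 → Pts V (E3 L) (su L u e) (ru L u e) (-(1 + lam)) lam ∧
      ∀ Y ∈ E3 L, ∀ w ∈ L.lattice, Y + w ∈ E3 L ∧ su L u e (Y + w) = su L u e Y ∧
        ru L u e (Y + w) = ru L u e Y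

/-- (TPN) torsion points.

Uses Se_COE, Se_GRN, Se_LEG, Se_TW3, Su_PFI. PROOF. (1) `Pool.Agent.MUXV.mem_of_nat_mul`, `v N = 1` for `3 ∤ N` (`1 = N a + 3 b` with integers). (2) Induction on `j`; `j = 0` is (TW3). Let `w = w₁` (LEG), `R` representatives of the nonzero classes of `{z : 3 z ∈ L}/L` (`u_BAC` second part for `M = L`, `μ = 3`; `IsRpM`), `|R| = 8` (`b_NUM`: `IsReps L 3 R` is the same).
(PFI) for `M = L`, `μ = 3` in the coordinate `x` (`℘ = u² x + e`): (*) `9 (x(3 z) - x(3 w)) ∏_(q ∈ R) (x z - x q) = (x z - x w) ∏_(q ∈ R) (x z - x(w + q))` (`3 z ∉ L`). `3 w ≡ w` modulo `L`, `x w = 0`; `w ∉ InK`, so `w + q ∉ InK` (`q ∈ InK`, TW3; `MUXV.inK_congr`), `x(w + q) ∈ V`. Let `T = v(x q)`: `T⁴ v 3 = 1` (TW3), the same `T` for all `q`, `T > 1`, `T⁸ v(9) = 1`.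
Step: `3^(j+2) z ∈ L`, `3^(j+1) z ∉ L`, `z' = 3 z`, `Y = v(x z')`, `Y^(4·9^j) v 3 = 1` by induction (`su z' = 1/x z'`), so `1 < Y ≤ T` (`Y^(4·9^j) = T⁴`). If `x z ∈ V`: `v` of the left side of (*) is `v(9) Y T⁸ = Y > 1` (`v(x z' ) = Y > 1`, `v(x(3w)) ≤ 1`), of the right side `≤ 1`. So `X = v(x z) > 1`, the right side has valuation `X⁹`. If `X > T`: `v(9) Y X⁸ = X⁹`, `X = v(9) Y < Y ≤ T`.
If `X = T`: `T⁹ ≤ v(9) Y T⁸ = Y ≤ T`, but `T⁹ > T`. So `X < T`, `X⁹ = v(9) Y T⁸ = Y`. -/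
def Se_TPN : Prop :=
  ∀ (V : ValuationSubring ℂ) (L : PeriodPair) (u e lam : ℂ), GoodN V L u e lam →
    V.valuation (3 : ℂ) < 1 →
    (∀ (N : ℕ), ¬ 3 ∣ N → V.valuation (N : ℂ) = 1 ∧ ∀ z : ℂ, (N : ℂ) * z ∈ L.lattice →
      InK V L (xu L u e) z → z ∈ L.lattice) ∧
    ∀ (j : ℕ) (z : ℂ), 3 ^ (j + 1) * z ∈ L.lattice → 3 ^ j * z ∉ L.lattice →
      InK V L (xu L u e) z ∧ xu L u e z ≠ 0 ∧
        V.valuation (su L u e z) ^ (4 * 9 ^ j) = V.valuation (3 : ℂ)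

/-! ## Isogenies of degree prime to 3 -/

/-- (UNT) the multiplier is a unit.

Uses Se_COE, Se_GRN, Se_TPN, Su_BAC, Su_PFI. PROOF. `R` representatives of the nonzero classes of `{q : μ q ∈ M}/L` (BAC). Choose two different primes `l, l'` greater than `3 N`, `w = ω₁/l`, `z = ω₁/l'` (`ω₁` the first period of `L`). `z, w, z ± w, z ± q, w + q, z ± (w + q)` (`q ∈ R`) are not in `L`, even not after multiplication by `N` (`q` excepted), and are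
killed by numbers prime to `3`: so they are not in `InK V L` (TPN (1)). `μ z, μ w, μ (z ± w) ∉ M` (`N (z ± w) ∉ L`), killed by `l l'`: not in `InK V M`. (PFI) in the coordinates `x` of `L` and `x'` of `M` (`℘_M = u'² x' + e'`): `(μ u'/u)² (x'(μ z) - x'(μ w)) ∏ (x z - x q) = (x z - x w) ∏ (x z - x(w + q))`, and all differences are units (`MUXV.v_X_sub`). (`q ∉ InK`: `N q ∈ L`.) -/
def Se_UNT : Prop :=
  ∀ (V : ValuationSubring ℂ) (L M : PeriodPair) (u e lam u' e' lam' μ : ℂ) (N : ℕ),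
    GoodN V L u e lam → GoodN V M u' e' lam' → V.valuation (3 : ℂ) < 1 → μ ≠ 0 → Isg L M μ →
    ¬ 3 ∣ N → (∀ z, μ * z ∈ M.lattice → (N : ℂ) * z ∈ L.lattice) →
    V.valuation (μ * u' / u) = 1

/-- (RAT) the isogeny as a rational function over `V`.

Uses Se_COE, Se_GRN, Se_TPN, Se_UNT, Su_BAC, Su_PFI. PROOF. `ν = μ u'/u`, a unit (UNT). `R` representatives (BAC), `w = ω₁/l`, `l` a prime greater than `3 N`: `w, w + q ∉ InK V L`, `q ∉ InK V L` (killed by numbers prime to 3, TPN (1)), `μ w ∉ M`, not in `InK V M`; `c = x'(μ w) ∈ V`. `Q = C(ν²) ∏_(q ∈ R) (X - C(x q))`,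
`P = C c * Q + (X - C(x w)) ∏_(q ∈ R) (X - C(x(w + q)))`: coefficients in `V`, `P` monic of degree `|R| + 1`. (PFI) in the coordinates (as in UNT): `ν² (x'(μ z) - c) ∏ (x z - x q) = (x z - x w) ∏ (x z - x(w + q))`: the first identity. It holds on the open set `{z : μ z ∉ M}` (there `z ∉ L`); differentiate at `z` (COE: `x` has the derivative `2 u y`, `z ↦ x'(μ z)` has the derivative `2 μ u' y'(μ z)`):
`2 μ u' y'(μ z) Q(x) + x'(μ z) Q'(x) 2 u y = P'(x) 2 u y`; multiply by `Q(x)/(2 u)` and use the first identity. -/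
def Se_RAT : Prop :=
  ∀ (V : ValuationSubring ℂ) (L M : PeriodPair) (u e lam u' e' lam' μ : ℂ) (N : ℕ),
    GoodN V L u e lam → GoodN V M u' e' lam' → V.valuation (3 : ℂ) < 1 → μ ≠ 0 → Isg L M μ →
    ¬ 3 ∣ N → (∀ z, μ * z ∈ M.lattice → (N : ℂ) * z ∈ L.lattice) →
    ∃ P Q : ℂ[X], IntP V P ∧ IntP V Q ∧ P.Monic ∧ P.natDegree = Q.natDegree + 1 ∧
      Q.leadingCoeff = (μ * u' / u) ^ 2 ∧ ∀ z, μ * z ∉ M.lattice →
        xu M u' e' (μ * z) * Q.eval (xu L u e z) = P.eval (xu L u e z) ∧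
        (μ * u' / u) * yu M u' (μ * z) * Q.eval (xu L u e z) ^ 2 =
          yu L u z * (derivative P * Q - P * derivative Q).eval (xu L u e z)

/-- (ISO) the isogeny on the points of order three.

Uses Se_ALG, Se_PRO, Se_PTS, Se_TW3, Se_UNT, Se_RAT. PROOF. `Y ∈ E3 L`: `3 μ Y ∈ M`; `μ Y ∈ M` would give `N Y ∈ L`, and `3 Y ∈ L`, so `Y ∈ L`. `ν = μ u'/u`, `d = Q.natDegree`. `x = x(Y) = 1/s`. `P(x) = x^(d+1) P*(s)`, `Q(x) = x^d Q*(s)`, `P* = P.reverse`, `Q* = Q.reverse` (`Polynomial.eval₂_reverse_mul_pow`), `P*(0) = 1`, `Q*(0) = ν²`. `W = P' Q - P Q'` has degree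
`≤ 2 d` and the coefficient of `X^(2d)` is `(d + 1) ν² - d ν² = ν²`; `W(x) = x^(2d) W*(s)`, `W* = W.reflect (2 d)`, `W*(0) = ν²`. `P*(s)` is represented by `(1, 0)`, so it is a unit with inverse represented by `(1, 0)` (ALG). So `P(x) ≠ 0`, `Q(x) ≠ 0` (RAT), `s'(μ Y) = Q(x)/P(x) = s Q*(s)/P*(s)`: `(0, 0)`.
`r'(μ Y) = -y'/x'² = -(y W(x)/(ν Q²)) (Q²/P²) = -y W(x)/(ν P(x)²)` and `y = -r x²`: `= ν⁻¹ r W*(s)/P*(s)²`: represented by `(0, ν⁻¹ ν²)`. -/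
def Se_ISO : Prop :=
  ∀ (V : ValuationSubring ℂ) (L M : PeriodPair) (u e lam u' e' lam' μ : ℂ) (N : ℕ),
    GoodN V L u e lam → GoodN V M u' e' lam' → V.valuation (3 : ℂ) < 1 → μ ≠ 0 → Isg L M μ →
    ¬ 3 ∣ N → (∀ z, μ * z ∈ M.lattice → (N : ℂ) * z ∈ L.lattice) →
    (∀ Y ∈ E3 L, μ * Y ∈ E3 M) ∧
    Rep V (E3 L) (su L u e) (ru L u e) (fun Y => su M u' e' (μ * Y)) 0 0 ∧
    Rep V (E3 L) (su L u e) (ru L u e) (fun Y => ru M u' e' (μ * Y)) 0 (μ * u' / u)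

/-- (ADD) addition of a point of order three.

Uses Se_ALG, Se_COE, Se_GRN, Se_TW3, Se_PTS. PROOF. `z ∉ InK`, `Y ∈ InK`, so `z ± Y ∉ L`. `b_ADD` (`Q = Y`) in the coordinates (`℘ = u² x + e`, `℘' = 2 u³ y`, `3 e = a₂ u²`): `x(z + Y) + x + x_Y + a₂ = ((y - y_Y)/(x - x_Y))²`; with `x_Y = 1/s`, `y_Y = -r/s²`, `y² = x³ + a₂ x² + a₄ x`, `r² = s + a₂ s² + a₄ s³`:
`x(z + Y) (1 - s x)² = x (1 + s x) + a₄ s (1 + s x) + 2 a₂ s x + 2 y r`. The right side is represented by `(x, 2 y)` (`x, y ∈ V`: `MUXV.int_X`, `int_Y`), `1 - s x` by `(1, 0)`, a unit. -/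
def Se_ADD : Prop :=
  ∀ (V : ValuationSubring ℂ) (L : PeriodPair) (u e lam : ℂ), GoodN V L u e lam →
    V.valuation (3 : ℂ) < 1 → ∀ z, ¬ InK V L (xu L u e) z →
    Rep V (E3 L) (su L u e) (ru L u e) (fun Y => xu L u e (z + Y)) (xu L u e z) (2 * yu L u z)

/-- (THN) the functions `Θ_a(z + μ Y)`, `Y ∈ E3 L`, on the lattice `M`.

Uses Se_ALG, Se_PRO, Se_PUL, Se_COE, Se_GRN, Se_UNT, Se_ISO, Se_ADD, Se_PTS. PROOF. `x' = xu M u' e'`, `y' = yu M u'`. `Θ(z) = ∏_(q ∈ H) (℘ z - ℘ q) = ∏ u'² (x' z - x' q)` and `x' z - x' q` is a unit (`MUXV.v_X_sub`): the first claim. `Θ(z + μ Y)/Θ(z) = ∏_q (x'(z + μ Y) - x' q)/(x' z - x' q)`; (ADD) for `M` and (PUL) with `ρ Y = μ Y` (ISO):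
`x'(z + μ Y)` is represented by `(x' z, 2 y' z · μ u'/u)`. Product (PRO (2), `J = H`, `g = 1`; `c_q = x' z - x' q`, `l_q = 2 y' z μ u'/(u c_q)`), divided by `∏ c_q`: `(1, Σ l_q)`. `2 u'³ y' = ℘'`, `u'² c_q = ℘ z - ℘ q`: `l_q = (μ/u) ℘' z/(℘ z - ℘ q)`, `Σ_q = (μ/u) dlX M a z` (`b_TDL`, `‖a‖² = a²`). `v l_q ≤ 1` (UNT, `int_Y`). -/
def Se_THN : Prop :=
  ∀ (V : ValuationSubring ℂ) (L M : PeriodPair) (u e lam u' e' lam' μ : ℂ) (N : ℕ),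
    GoodN V L u e lam → GoodN V M u' e' lam' → V.valuation (3 : ℂ) < 1 → μ ≠ 0 → Isg L M μ →
    ¬ 3 ∣ N → (∀ z, μ * z ∈ M.lattice → (N : ℂ) * z ∈ L.lattice) →
    ∀ (a : ℕ) (H : Finset ℂ), a ≠ 0 → IsHalf M (a : ℂ) H → ∀ z, ¬ InK V M (xu M u' e') z →
      (a : ℂ) * z ∉ M.lattice →
      (∀ q ∈ H, ¬ InK V M (xu M u' e') q ∧ ¬ InK V M (xu M u' e') (z + q) ∧
        ¬ InK V M (xu M u' e') (z - q)) →
      V.valuation (ThetaH M H z) = V.valuation (u' ^ 2) ^ H.card ∧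
      V.valuation (μ * dlX M a z / u) ≤ 1 ∧
      Rep V (E3 L) (su L u e) (ru L u e) (fun Y => ThetaH M H (z + μ * Y) / ThetaH M H z) 1
        (μ * dlX M a z / u)

/-! ## The fields -/

/-- (CTX) from the standing hypotheses to `CtxN`.

PROOF. `cong`/norm: `4 nm x = (2 x.re + B x.im)² - (B² + 4A) x.im²` and `B² + 4A ≡ -1` modulo 3, so `3 ∣ nm x` only if `3 ∣ x.im`, `3 ∣ x.re`, `x ∈ (3)`; `nm x = x star x`: so `O/(3)` is a field (`max`). `v 3 < 1`: `OverI` for `x = 3`. `int`: `emb x` is integral over `ℤ` (`x² - tr x + nm`). `unit`: `OverI`. `nat`: `1 = 3 a + n b`. `ring`: `te_RNG`.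
`kval`: `x ∈ O`, `x ≠ 0`: `x = 3^j y`, `y ∉ (3)` (for instance the largest `j` with `3^j ∣ x.re, x.im`), `v(emb x) = v(3)^j`; every element of `k` is `emb x/n`, `n` a positive integer (see `E_PC.lean`). `good`, `iner`: `Sn_RFIN`. See also `E_CTX.lean`, `E_PA.lean`, `E_PC.lean` of `Pool/Agent/MUX/`. -/
def Se_CTX : Prop :=
  ∀ (A B : ℤ) (V : ValuationSubring ℂ), CaseI A B → OverI V (idl (A := A) (B := B) 3) →
    TorX A B → Sn_RFIN → CtxN A B V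

/-- (RAM) a finite Galois extension `F / k` with trivial inertia group at `V` is unramified.

PROOF. `Pool/Agent/MUX/E_RAM.lean` with `P = (3)`: `w = {x ∈ 𝓞 F : v x < 1}`, `w ∩ 𝓞 k = {emb x : x ∈ (3)}`, `3 ∈ w ∩ 𝓞 k`, `3 ∉ (w ∩ 𝓞 k)²` (`(w ∩ 𝓞 k)² = 9 𝓞 k`). -/
def Se_RAM : Prop :=
  ∀ (A B : ℤ) (V : ValuationSubring ℂ), CtxN A B V →
    ∀ (F : IntermediateField (kk A B) ℂ) [FiniteDimensional (kk A B) F] [IsGalois (kk A B) F],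
      (∀ σ : F ≃ₐ[kk A B] F, (∀ x : F, V.valuation (x : ℂ) ≤ 1 →
        V.valuation ((σ x : ℂ) - x) < 1) → σ = 1) →
      ∀ y ∈ F, y ≠ 0 → ∃ k : ℤ, V.valuation y = V.valuation (3 : ℂ) ^ k

/-- (UNR) `RF (f)` is unramified at `V` if `f` is prime to `3`.

Uses Se_RAM. PROOF. (RAM) for `F = RF (idl f)` (finite, Galois: `TorX`). `σ ∈ Gal(F/k)` in the inertia group: extend it to `s ∈ Aut(ℂ)`, `FixK` (`T.ext` for `F` as a field over `ℚ`; see `CXW.extn` in `Pool/Agent/MUX/W_CXW.lean`); `CtxN.iner`: `s y = y` for all `y ∈ F`, so `σ = 1`. -/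
def Se_UNR : Prop :=
  ∀ (A B : ℤ) (V : ValuationSubring ℂ), CtxN A B V → TorX A B →
    ∀ f : ℕ, f ≠ 0 → ¬ 3 ∣ f → ∀ y ∈ RF (idl (A := A) (B := B) f), y ≠ 0 →
      ∃ k : ℤ, V.valuation y = V.valuation (3 : ℂ) ^ k

/-- (DEG) the degree of `RF (3^(j+1) f)` over `RF (f)`.

PROOF. As `Pool/Agent/MUX/E_DEG.lean`. `σ ∈ Gal(RF (3^(j+1) f)/k)` trivial on `RF (f)` acts as some `α` with `α - 1 ∈ (f)` (`GalE.ker`), prime to `3`; `σ` is determined by the class of `α` modulo `3^(j+1)` (if `α ≡ α'` modulo `3^(j+1)` and modulo `f`, then modulo `3^(j+1) f`; `te_FAC`). There are at most `8·9^j` classes modulo `3^(j+1)` of elements not divisible by `3`: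
pairs `(re, im)` modulo `3^(j+1)`, not both divisible by `3`: `9^(j+1) - 9^j`. -/
def Se_DEG : Prop :=
  ∀ (A B : ℤ) (V : ValuationSubring ℂ), CtxN A B V → GalE A B → ∀ (j f : ℕ), f ≠ 0 → ¬ 3 ∣ f →
    Module.finrank (kk A B) (RF (idl (A := A) (B := B) (3 ^ (j + 1) * f))) ≤
      (8 * 9 ^ j) * Module.finrank (kk A B) (RF (idl (A := A) (B := B) f))

/-- (BAS) totally ramified over unramified: the powers of a uniformiser are a basis of the integral elements.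

PROOF. `Pool/Agent/MU3/E_BAS.lean` (the part before `hσc`): `w = Σ_(i < N) a_i π^i` with `a_i ∈ M₀`, `v(a_i) ≤ 1`. -/
def Se_BAS : Prop :=
  ∀ (K E Γ : Type) [Field K] [Field E] [Algebra K E] [LinearOrderedCommGroupWithZero Γ]
    (v : Valuation E Γ) (M₀ M : IntermediateField K E) [FiniteDimensional K M₀]
    [FiniteDimensional K M] (N : ℕ) (p π : E), M₀ ≤ M → 0 < N →
    Module.finrank K M ≤ N * Module.finrank K M₀ →
    p ≠ 0 → v p < 1 → (∀ y ∈ M₀, y ≠ 0 → ∃ k : ℤ, v y = v p ^ k) →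
    π ∈ M → v π ^ N = v p → ∀ w ∈ M, v w ≤ 1 →
      ∃ a : Fin N → M₀, (∀ i, v (a i) ≤ 1) ∧ w = ∑ i, (a i : E) * π ^ (i : ℕ)

/-- (SIG) `Y ↦ σ_Y(w)` for `w` in the ray class field, `σ_Y(P) = P + Y`, `P = om/(3^(n+1) f)`.

Uses Se_ALG, Se_PRO, Se_COE, Se_GRN, Se_LEG, Se_PTS, Se_TPN, Se_ADD, Se_UNR, Se_DEG, Se_BAS. PROOF. `M = RF (3^(n+1) f a)`, `M₀ = RF (f a)`, `m = 3^(n+1) f`. `w₁, w₂` (LEG): `e = ℘ w₁`, `u² = ℘ w₂ - ℘ w₁`, `xn L w_i = ℘ w_i - 1/12 ∈ RF (2) ≤ M₀` (`2 ∣ f`), so `e, u² ∈ M₀`. `P = om/m`. `k` with `3^(n+1) k ≡ 1` modulo `f`, `P₀ = 3^(n+1) k P`,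
`P₁ = P - P₀`: `f P₀ ∈ L`, `2 P₀ ∉ L` (`f ∤ 2 k`, `f ≥ 3`, `k` prime to `f`), `3^(n+1) P₁ ∈ L`, `3^n P₁ ∉ L` (`3^n (1 - 3^(n+1) k) P ∈ L` iff `m ∣ 3^n (1 - 3^(n+1) k)`). `P₀, 2 P₀ ∉ InK` (TPN (1)), so `v(y P₀) = 1` (`Pool.Agent.MU3.Val.v_y_unit` in `Pool/Agent/MU3/VRed.lean` for the point `ξ P₀`, with `MUXV.inE_iff`).
`π = x(P) - x(P₀)`, `v(π - 2 y(P₀) t(P₁)) ≤ v(t P₁)²` (`MUXV.near`), `v π = v(t P₁)`, `v(t P₁)² = v(s P₁)` (`t = -x/y`, `y² = x³ (1 + ..)`), so `v(π)^(8·9^n) = v 3` (TPN (2)). (BAS) with `N = 8·9^n` (DEG with `j = n`, `f := f a`; UNR): `w = Σ a_i π^i`, `a_i ∈ M₀`, `v a_i ≤ 1`. `F Y = Σ a_i (x(P + Y) - x(P₀))^i`: polynomial over `V` in `x(P + Y)`, represented (ADD, PRO (1))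
by `(Σ a_i π^i, β) = (w, β)`. `σ` with `c = 1 + 3^n f a y` acts trivially on `M₀` (`te_FAC`: `c - 1 ∈ (f a)`), so on `a_i`, `e`, `u²`, `x(P₀)` (`xn L P₀ ∈ M₀`), and `σ(xn L P) = xn L (emb c * P)`, `emb c * P = P + emb y * (a om/3)`; so `σ w = Σ a_i (x(P + Y) - x(P₀))^i`, `Y = emb y * (a om/3)`. -/
def Se_SIG : Prop :=
  ∀ (A B : ℤ) (V : ValuationSubring ℂ), CtxN A B V → TorX A B → GalE A B →
    ∀ (L : PeriodPair) (om u e lam : ℂ), IsNL (⊤ : Ideal (OO A B)) L om → GoodN V L u e lam →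
    ∀ n f a : ℕ, 1 ≤ n → 3 ≤ f → 2 ∣ f → ¬ 3 ∣ f → a ≠ 0 → ¬ 3 ∣ a →
    ∀ w ∈ RF (idl (A := A) (B := B) (3 ^ (n + 1) * f * a)), V.valuation w ≤ 1 →
    ∃ (F : ℂ → ℂ) (β : ℂ), V.valuation β ≤ 1 ∧ Rep V (E3 L) (su L u e) (ru L u e) F w β ∧
      ∀ (y : OO A B), y ∉ idl (A := A) (B := B) 3 →
      ∀ (σ : RF (idl (A := A) (B := B) (3 ^ (n + 1) * f * a)) ≃ₐ[kk A B]
        RF (idl (A := A) (B := B) (3 ^ (n + 1) * f * a))),
      ActE (em σ) (idl (A := A) (B := B) (3 ^ (n + 1) * f * a))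
        (1 + ((3 ^ n * f * a : ℕ) : OO A B) * y) →
      ∀ hw : w ∈ RF (idl (A := A) (B := B) (3 ^ (n + 1) * f * a)),
        (σ ⟨w, hw⟩ : ℂ) = F (emb y * (a * om / 3))

/-- (NE1) the points that occur are not in the kernel of reduction.

Uses Se_TPN. PROOF. As `Pool/Agent/MUX/E_NE1.lean`: `m = 3^j f` is the exact order of `z`. Let `a q ∈ L`, and suppose `z + q ∈ InK`. `z' = 3^j (z + q) ∈ InK` (`MUXV.inK_nat`), `f a z' ∈ L`, so `z' ∈ L` (TPN (1)), `a 3^j z ∈ L`, `m ∣ a 3^j`, `f ∣ a`, contradiction (coprime, `f ≥ 2`). For `q`, `-q`, `0`. `q ∈ InK`, `a q ∈ L` gives `q ∈ L`. `a z ∈ L` gives `m ∣ a`, `f ∣ a`. -/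
def Se_NE1 : Prop :=
  ∀ (V : ValuationSubring ℂ) (L : PeriodPair) (u e lam : ℂ), GoodN V L u e lam →
    V.valuation (3 : ℂ) < 1 → ∀ (j f a : ℕ), 2 ≤ f → ¬ 3 ∣ f → ¬ 3 ∣ a → a.Coprime f →
      ∀ z : ℂ, ((3 ^ j * f : ℕ) : ℂ) * z ∈ L.lattice →
        (∀ c : ℕ, (c : ℂ) * z ∈ L.lattice → 3 ^ j * f ∣ c) →
        ¬ InK V L (xu L u e) z ∧ (a : ℂ) * z ∉ L.lattice ∧
        ∀ q : ℂ, (a : ℂ) * q ∈ L.lattice → q ∉ L.lattice → ¬ InK V L (xu L u e) q ∧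
          ¬ InK V L (xu L u e) (z + q) ∧ ¬ InK V L (xu L u e) (z - q)

/-- (MUL) the isogenies `μ_i x : L_(i0) → L_i` have degree prime to `3`.

PROOF. `μ = μ_i emb x`, `μ_i = om_i N(b_i)/om_0`, `L_0 = om_0 emb O`, `L_i = om_i emb b_i`; `N(b_i) ∈ b_i`: `μ L_0 ⊆ L_i` (`te_PT`). `μ z ∈ L_i`: `emb x N(b_i) z/om_0 ∈ emb b_i ⊆ emb O`; multiply by `star x`: `nm x · N(b_i) z ∈ L_0`. `N = (nm x).natAbs * nI (R.b i)`, prime to `3` (`CtxN.nrm`; `R.cop`, `3 ∣ n`). -/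
def Se_MUL : Prop :=
  ∀ (A B : ℤ) (V : ValuationSubring ℂ), CtxN A B V → ∀ (n : ℕ) (ι : Type) (R : Reps A B n ι),
    n ≠ 0 → 3 ∣ n → ∀ (i : ι) (x : OO A B), x ∉ idl (A := A) (B := B) 3 →
      muX R i * emb x ≠ 0 ∧ Isg (R.L R.i0) (R.L i) (muX R i * emb x) ∧
      ∃ N : ℕ, ¬ 3 ∣ N ∧ ∀ z, muX R i * emb x * z ∈ (R.L i).lattice →
        (N : ℂ) * z ∈ (R.L R.i0).lattice

/-! ## The result -/

/-- (ONE) Lemma E, for products over arbitrary finite families of points `(i, x)`.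

Uses Se_ALG, Se_PRO, Se_COE, Se_LEG, Se_PTS, Se_THN, Se_UNR, Se_SIG, Se_NE1, Se_MUL. PROOF. (Model: `Pool/Agent/MUX/E_ONE.lean`.) `m = 3^(n+1) f`, `L_0 = R.L R.i0 = om emb O`, `M = RF (m a)`. Models `u_i, e_i, lam_i` of `L_i` (`CtxN.good`), `u, e, lam` of `L_0`. `z = pt R m i x` for `(i, x) ∈ X j`: exact order `m` (`te_PT`, `x` prime to `m`), so (NE1) applies, also to all `q ∈ H i`.
(1) `v(Θ(z)) = v(u_i²)^|H_i|` (THN with `μ = muX i * emb x`, MUL; `x ∉ (3)` as `3 ∣ m`), `3 ∣ |H_i|` (`b_HRE`: `2 |H| + 1 = a²`, `3 ∤ a`), `v(u_i²) ∈ v(3)^ℤ` (LEG: `u_i² = xn w₂ - xn w₁ ∈ RF (2)`; UNR with `f = 2`). So `v(W) = v(3)^(3 K)` for `W = ∏_j (∏ Θ)^(g_j) = y³`, `v(y) = v(3)^K`, `w = y/3^K ∈ RF (m) ≤ M`, `v w = 1`.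
(2) `c_b = 1 + 3^n f a b`, `b ∈ O ∖ (3)`, is prime to `m a` (`n ≥ 1`), `σ_b` with `ActE (em σ_b) (m a) c_b` (`GalE.sur`). (SIG) for `w`: `F`, `β`. `Y_b = emb b * (a om/3) ∈ E3 L_0`, every `Y ∈ E3 L_0` is congruent to some `Y_b` modulo `L_0` (`Y = om emb b'/3`, `a b ≡ b'` modulo 3), and all functions below are functions of `(s Y, r Y)`, so periodic (PTS).
(3) (`te_GTH`): `σ_b(Θ(z)) = Θ(emb c_b z) = Θ(z + μ Y_b)`, `μ = muX i * emb x` (`3^n f a b z = muX i emb x · 3^n f a b om/m`). So for `G_(j,y)(Y) = Θ(z + μ Y)/Θ(z)` (THN: represented by `(1, μ dlX/u)`), `∏_j (∏_y G)^(g_j) (Y_b) = σ_b W/W = (σ_b w/w)³ = (F(Y_b)/w)³` (`3^K` is rational). The left side is represented by `(1, S')`,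
`S' = Σ_j g_j Σ_y emb(x) muX i dlX/u` (PRO (2)), `F/w` by `(1, β/w)`: (PRO (3)) `v(S') ≤ v 3`. (4) Replace `emb x` by `w x`: `v(w x - emb x) ≤ v 3` and `v(muX i dlX/u) ≤ 1` (THN: `v(μ dlX/u) ≤ 1`, `v(emb x) = 1`). -/
def Se_ONE : Prop :=
  ∀ (A B : ℤ) (V : ValuationSubring ℂ), CtxN A B V → TorX A B → GalE A B →
    ∀ (n f a : ℕ), 1 ≤ n → 3 ≤ f → 2 ∣ f → ¬ 3 ∣ f → 3 ≤ a → ¬ 3 ∣ a → a.Coprime f →
    ∀ (ι : Type) (R : Reps A B (3 * f) ι) (u e lam : ℂ), GoodN V (R.L R.i0) u e lam →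
    ∀ (H : ι → Finset ℂ), (∀ i, IsHalf (R.L i) (a : ℂ) (H i)) →
    ∀ w : OO A B → ℂ, IsTei V w →
    ∀ (J : Type) [Fintype J] (X : J → Finset (ι × OO A B)) (g : J → ℤ),
      (∀ j, ∀ y ∈ X j, IsCoprime y.2 ((3 ^ (n + 1) * f : ℕ) : OO A B)) →
      (∃ y ∈ RF (idl (A := A) (B := B) (3 ^ (n + 1) * f)), y ^ 3 =
        ∏ j, (∏ y ∈ X j, ThetaH (R.L y.1) (H y.1) (pt R (3 ^ (n + 1) * f) y.1 y.2)) ^ g j) →
      V.valuation ((∑ j, (g j : ℂ) * ∑ y ∈ X j, w y.2 * muX R y.1 *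
        dlX (R.L y.1) a (pt R (3 ^ (n + 1) * f) y.1 y.2)) / u) ≤ V.valuation (3 : ℂ)

/-- (MAIN) Lemma E for arbitrary families of pairs.

Uses Se_ONE, Se_CTX. PROOF. As `Pool/Agent/MUX/E_MAIN0.lean` (`Sxe_MAIN0`); `lvX 3 f n = f * 3 * 3^n = 3^(n+1) * f`, `aX 3 f = 1 + 6 f`. `f ≥ 3` and `2 ∣ f`: `SetN.fD`, `absD ≥ 3`. -/
def Se_MAIN : Prop :=
  ∀ (A B : ℤ) (V : ValuationSubring ℂ) (f : ℕ), SetN A B V f → TorX A B → Sn_RFIN →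
    ∀ (ι : Type) [Fintype ι] (R : Reps A B (3 * f) ι) (u e lam : ℂ),
    GoodN V (R.L R.i0) u e lam → ∀ w : OO A B → ℂ, IsTei V w →
    ∀ n : ℕ, 1 ≤ n →
    ∀ (H : ι → Finset ℂ), (∀ i, IsHalf (R.L i) (aX 3 f : ℂ) (H i)) →
    ∀ (D : IntermediateField ℚ ℂ) (h : kk A B ≤ D),
      (∀ y ∈ D, y ∈ RF (idl (A := A) (B := B) (lvX 3 f n))) →
    letI := algC h
    ∀ (C : (D ≃ₐ[kk A B] D) → ℂ)
      (S : (D ≃ₐ[kk A B] D) → Finset (ι × (OO A B ⧸ idl (A := A) (B := B) (lvX 3 f n)))),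
    (∀ τ : D ≃ₐ[kk A B] D, ∃ y : D, (y : ℂ) = C 1 ∧ ((τ y : D) : ℂ) = C τ) →
    (∀ τ, ∀ q ∈ S τ, IsCoprime (Quotient.out q.2 : OO A B) ((lvX 3 f n : ℕ) : OO A B)) →
    (∀ τ, C τ = ∏ q ∈ S τ, ThetaH (R.L q.1) (H q.1) (pt R (lvX 3 f n) q.1 (Quotient.out q.2))) →
    ∀ g : (D ≃ₐ[kk A B] D) → ℤ,
      (∃ y ∈ D, y ^ 3 = ∏ᶠ τ : D ≃ₐ[kk A B] D, C τ ^ g τ) →
      ∀ τ' : D ≃ₐ[kk A B] D,
        V.valuation ((∑ᶠ τ : D ≃ₐ[kk A B] D, (g τ : ℂ) * ∑ q ∈ S (τ * τ'),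
          w (Quotient.out q.2) * muX R q.1 *
            dlX (R.L q.1) (aX 3 f) (pt R (lvX 3 f n) q.1 (Quotient.out q.2))) / u) ≤
          V.valuation (3 : ℂ)

/-- (FIN) the final form.

Uses Se_MAIN. PROOF. `S τ = XX R m h τ` (a finite set, `ι` and `O/m` are finite); `cX = C`. As `Pool/Agent/MUX/E_EW.lean`. -/
def Se_FIN : Prop := Sn_RFIN → Sn_EFIN

end

end Pool.Agent.NSE
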