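import Pool.Agent.NS.StGR
import Pool.Agent.MUX.N_BIN

/-!
# MUX-NS, block GR, module BNP: a depleted series whose integral is a modular point, Legendre form (helper18; from helper6's G_Bin)
-/

set_option autoImplicit false

namespace Pool.Agent.NSGR

open _root_.MU3 Pool.Agent.MU3A Pool.Agent.MU3B Pool.Agent.MU3Q Pool.Agent.MUX Pool.Agent.NS
  Pool.Agent.NSRD Pool.Agent.NSG Pool.Agent.MUXN Pool.Agent.MuSym OnePoint UpperHalfPlane
open Pool.Agent.MUXF (qb)
open scoped MatrixGroups

noncomputable section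

namespace BNP

open Pool.Agent.MUXN.NBin

/-- `map` commutes with rescaling -/
theorem map_rescale {O : Type} [CommRing O] (ι : O →+* ℂ) (a : O) (f : PowerSeries O) :
    PowerSeries.map ι (PowerSeries.rescale a f) =
      PowerSeries.rescale (ι a) (PowerSeries.map ι f) := by
  ext n
  rw [PowerSeries.coeff_map, PowerSeries.coeff_rescale, PowerSeries.coeff_rescale,
    PowerSeries.coeff_map, map_mul, map_pow]

/-- the coefficient of degree 12 of a 12th power -/
theorem coeff_pow12 {O : Type} [CommRing O] (G : PowerSeries O) (h0 : PowerSeries.coeff 0 G = 0) :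
    PowerSeries.coeff 12 (G ^ 12) = PowerSeries.coeff 1 G ^ 12 := by
  have hX : PowerSeries.X ∣ G := by
    rw [PowerSeries.X_dvd_iff, ← PowerSeries.coeff_zero_eq_constantCoeff_apply]
    exact h0
  obtain ⟨H, rfl⟩ := hX
  have h1 : PowerSeries.coeff 1 (PowerSeries.X * H) = PowerSeries.coeff 0 H := by
    exact PowerSeries.coeff_succ_X_mul 0 H
  rw [h1, mul_pow]
  have h2 := PowerSeries.coeff_X_pow_mul (H ^ 12) 12 0
  rw [zero_add] at h2
  rw [h2, PowerSeries.coeff_zero_eq_constantCoeff_apply, PowerSeries.coeff_zero_eq_constantCoeff_apply,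
    map_pow]

/-- the equation of collinearity for `S = B/A` -/
theorem col_pull (ω c a2 a4 : ℂ) (A B S tA tB tS g : PowerSeries ℂ) (hAS : A * S = B)
    (hW : B * tA - A * tB = -(A ^ 2 * tS))
    (hcol : (S * PowerSeries.rescale ω S + S * PowerSeries.rescale (ω ^ 2) S +
          PowerSeries.rescale ω S * PowerSeries.rescale (ω ^ 2) S +
          a2 • (S * PowerSeries.rescale ω S * PowerSeries.rescale (ω ^ 2) S)) *
        (tS * PowerSeries.rescale ω g * PowerSeries.rescale ω S ^ 2 +
          PowerSeries.rescale ω tS * g * S ^ 2) ^ 2 =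
      4 * S * PowerSeries.rescale ω S * PowerSeries.rescale (ω ^ 2) S * g ^ 2 *
        PowerSeries.rescale ω g ^ 2 *
        (S ^ 2 + S * PowerSeries.rescale ω S + PowerSeries.rescale ω S ^ 2 +
          a2 • (S * PowerSeries.rescale ω S * (S + PowerSeries.rescale ω S)) +
          a4 • (S ^ 2 * PowerSeries.rescale ω S ^ 2)) ^ 2) :
    PowerSeries.C c ^ 2 *
        (A * (PowerSeries.rescale ω) B * (PowerSeries.rescale (ω ^ 2)) B +
              (PowerSeries.rescale ω) A * B * (PowerSeries.rescale (ω ^ 2)) B +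
            (PowerSeries.rescale (ω ^ 2)) A * B * (PowerSeries.rescale ω) B +
          PowerSeries.C a2 * B * (PowerSeries.rescale ω) B * (PowerSeries.rescale (ω ^ 2)) B) *
      (-(A ^ 2 * tS) * (PowerSeries.rescale ω) B ^ 2 *
            ((PowerSeries.rescale ω) (PowerSeries.C c) * (PowerSeries.rescale ω) g) +
          ((PowerSeries.rescale ω) B * (PowerSeries.rescale ω) tA -
                (PowerSeries.rescale ω) A * (PowerSeries.rescale ω) tB) *
              B ^ 2 *
            (PowerSeries.C c * g)) ^ 2 =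
    4 * B * (PowerSeries.rescale ω) B * (PowerSeries.rescale (ω ^ 2)) B *
        (PowerSeries.C c * g) ^ 2 *
        ((PowerSeries.rescale ω) (PowerSeries.C c) * (PowerSeries.rescale ω) g) ^ 2 *
      (A ^ 2 * (PowerSeries.rescale ω) B ^ 2 +
              A * (PowerSeries.rescale ω) A * B * (PowerSeries.rescale ω) B +
              (PowerSeries.rescale ω) A ^ 2 * B ^ 2 +
            PowerSeries.C a2 * B * (PowerSeries.rescale ω) B *
              (A * (PowerSeries.rescale ω) B + (PowerSeries.rescale ω) A * B) +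
          PowerSeries.C a4 * B ^ 2 * (PowerSeries.rescale ω) B ^ 2) ^ 2 := by
  have e1 : PowerSeries.rescale ω (PowerSeries.C c) = PowerSeries.C c := by
    ext n
    rw [PowerSeries.coeff_rescale, PowerSeries.coeff_C]
    split_ifs with h
    · rw [h, pow_zero, one_mul]
    · rw [mul_zero]
  have e2 : PowerSeries.rescale ω B * PowerSeries.rescale ω tA -
      PowerSeries.rescale ω A * PowerSeries.rescale ω tB =
        -(PowerSeries.rescale ω A ^ 2 * PowerSeries.rescale ω tS) := by
    have := congrArg (PowerSeries.rescale ω) hW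
    simpa only [map_sub, map_mul, map_neg, map_pow] using this
  rw [e1, e2, ← hAS]
  simp only [map_mul]
  rw [PowerSeries.smul_eq_C_mul, PowerSeries.smul_eq_C_mul, PowerSeries.smul_eq_C_mul] at hcol
  generalize PowerSeries.rescale ω A = A₁ at *
  generalize PowerSeries.rescale (ω ^ 2) A = A₂ at *
  generalize PowerSeries.rescale ω S = S₁ at *
  generalize PowerSeries.rescale (ω ^ 2) S = S₂ at *
  generalize PowerSeries.rescale ω g = g₁ at *
  generalize PowerSeries.rescale ω tS = tS₁ at *
  generalize PowerSeries.C c = cc at *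
  generalize PowerSeries.C a2 = b2 at *
  generalize PowerSeries.C a4 = b4 at *
  linear_combination cc ^ 4 * A ^ 5 * A₁ ^ 5 * A₂ * hcol

end BNP

open BNP Pool.Agent.MUXN.NBin in
/-- (BNP) a depleted series whose integral is a modular point of a curve in Legendre form. -/
theorem tv_BNP (hWQ : St_WQ) (hDV : Sg_DV) (hODU : Sv_ODU) (hCOL : Sv_COL) (hGPP : Sv_GPP) :
    Sv_BNP := by
  intro K _ V hv3 N hN hζ ω hωK hω L e lam heq hκK hκ hκ' Z z hQS hzK hz3 hden hcusp hper
  by_cases h1 : PowerSeries.coeff 1 z = 0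
  · rw [h1, map_zero, zero_pow (by norm_num)]
    exact zero_le
  have hz0 : PowerSeries.coeff 0 z = 0 := hz3 0 (dvd_zero 3)
  have hκV : lam ∈ V := (V.valuation_le_one_iff _).1 hκ.le
  have h3V : ((3 : ℕ) : ℂ) ∈ V.nonunits := by
    rw [ValuationSubring.mem_nonunits_iff]
    exact_mod_cast hv3
  have hDVR := hDV K V 3 Nat.prime_three h3V
  obtain ⟨c, hcK, hc0, hcV, hcz⟩ := hden
  have heq' : ∀ u : ℂ, u ∉ L.lattice → L.derivWeierstrassP u ^ 2 / 4 =
      (L.weierstrassP u + -e) ^ 3 + -(1 + lam) * (L.weierstrassP u + -e) ^ 2 +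
        lam * (L.weierstrassP u + -e) + 0 := by
    intro u hu
    rw [heq u hu]
    ring
  have ha2K : -(1 + lam) ∈ K := K.neg_mem (K.add_mem K.one_mem hκK)
  obtain ⟨S, -, S0, S1, S2, ode, A, hA, B, hB, hA0, hAS⟩ := hWQ K V N L (-e) (-(1 + lam))
    lam 0 Z z hN hζ ha2K hκK K.zero_mem heq' hzK hz0 h1 hQS hcusp hper
  have hOde : OdeS (-(1 + lam)) lam z S := by
    refine ⟨S0, S1, S2, ?_⟩
    rw [ode, zero_smul, add_zero]
  obtain ⟨S', hOde', hCol'⟩ := hCOL L (-e) (-(1 + lam)) lam 0 heq' rfl Z z hQS h1 hz3 ω hω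
  have hSS : S = S' := hODU _ _ z S S' h1 hOde hOde'
  subst hSS
  have hS0 : S ≠ 0 := by
    rintro rfl
    rw [map_zero] at S2
    exact h1 (pow_eq_zero_iff two_ne_zero |>.1 S2.symm)
  have hB0 : B ≠ 0 := by
    rw [← hAS]
    exact mul_ne_zero hA0 hS0
  have hthS : thetaD S ≠ 0 := by
    intro h
    have h2 := congrArg (PowerSeries.coeff 2) h
    rw [map_zero, thetaD, PowerSeries.coeff_mk, S2] at h2
    have h3 : PowerSeries.coeff 1 z ^ 2 ≠ 0 := pow_ne_zero 2 h1
    rcases mul_eq_zero.1 h2 with h5 | h5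
    · norm_num at h5
    · exact h3 h5
  -- the wronskian
  have hW1 : B * thetaD A - A * thetaD B = -(A ^ 2 * thetaD S) := by
    rw [← hAS, thetaD_mul]
    ring
  have hG : PowerSeries.C c * thetaD z ∈ PP K V := by
    intro n
    rw [PowerSeries.coeff_C_mul, thetaD, PowerSeries.coeff_mk]
    exact ⟨K.mul_mem hcK (K.mul_mem (natCast_mem K n) (hzK n)), hcz n⟩
  have hode : PowerSeries.C c ^ 2 * (B * thetaD A - A * thetaD B) ^ 2 =
      B * (4 * A ^ 3 + 4 * PowerSeries.C (-(1 + lam)) * A ^ 2 * B +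
        4 * PowerSeries.C lam * A * B ^ 2) * (PowerSeries.C c * thetaD z) ^ 2 := by
    rw [hW1, neg_sq, mul_pow, ode, ← hAS, PowerSeries.smul_eq_C_mul, PowerSeries.smul_eq_C_mul,
      PowerSeries.smul_eq_C_mul, map_zero]
    ring
  -- the ring
  have hωV1 : V.valuation ω = 1 := by
    have h3 := congrArg V.valuation hω.pow_eq_one
    rw [map_pow, map_one] at h3
    exact (pow_eq_one_iff_of_nonneg zero_le (by norm_num)).1 h3
  have hωV : ω ∈ V := (V.valuation_le_one_iff _).1 hωV1.le
  have hωeq : ω ^ 2 + ω + 1 = 0 := by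
    have hne : ω ≠ 1 := hω.ne_one (by norm_num)
    have h3 : (ω - 1) * (ω ^ 2 + ω + 1) = 0 := by
      have := hω.pow_eq_one
      linear_combination this
    exact (mul_eq_zero.1 h3).resolve_left (sub_ne_zero.2 hne)
  have h30 : (3 : ↥(V.comap K.subtype)) ≠ 0 := by
    intro h
    have := congrArg (io K V) h
    rw [map_ofNat, map_zero] at this
    norm_num at this
  have h20 : (2 : ↥(V.comap K.subtype)) ≠ 0 := by
    intro h
    have := congrArg (io K V) h
    rw [map_ofNat, map_zero] at this
    norm_num at this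
  have h3u : ¬ IsUnit (3 : ↥(V.comap K.subtype)) := by
    intro h
    obtain ⟨y, hy⟩ := h.exists_right_inv
    have h4 := congrArg (fun t => V.valuation (io K V t)) hy
    simp only [map_mul, map_ofNat, map_one] at h4
    have h5 : V.valuation (io K V y) ≤ 1 := (V.valuation_le_one_iff _).2 (io_mem y)
    have h6 : V.valuation (3 : ℂ) * V.valuation (io K V y) < 1 :=
      mul_lt_one_of_lt_of_le hv3 h5
    rw [h4] at h6
    exact lt_irrefl _ h6
  have h3K : (3 : ℂ) ∈ K := by exact_mod_cast natCast_mem K 3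
  have ha2V2 : V.valuation (-(1 + lam)) ^ 2 ≤ V.valuation (3 : ℂ) := by
    rw [Valuation.map_neg]
    exact hκ'
  have ha2V : -(1 + lam) ∈ V := by
    exact neg_mem (add_mem (one_mem V) hκV)
  have hv30 : V.valuation (3 : ℂ) ≠ 0 := by
    rw [Ne, map_eq_zero]
    norm_num
  have hdiv : (3 : ↥(V.comap K.subtype)) ∣ (el (-(1 + lam)) ha2K ha2V) ^ 2 := by
    have hqK : (-(1 + lam)) ^ 2 / 3 ∈ K := K.div_mem (K.pow_mem ha2K 2) h3K
    have hqV : (-(1 + lam)) ^ 2 / 3 ∈ V := by
      rw [← V.valuation_le_one_iff, map_div₀, map_pow]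
      exact div_le_one_of_le₀ ha2V2 zero_le
    refine ⟨el _ hqK hqV, io_inj K V ?_⟩
    rw [map_pow, map_mul, io_el, io_el, map_ofNat]
    ring
  have hωO : (el ω hωK hωV) ^ 2 + el ω hωK hωV + 1 = 0 := by
    apply io_inj K V
    rw [map_add, map_add, map_pow, map_one, map_zero, io_el]
    exact hωeq
  have hW0 : (lft B hB * tth (lft A hA) - lft A hA * tth (lft B hB)) ≠ 0 := by
    intro h
    have := congrArg (PowerSeries.map (io K V)) h
    rw [map_sub, map_mul, map_mul, map_tth, map_tth, map_lft, map_lft, map_zero, hW1,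
      neg_eq_zero] at this
    exact mul_ne_zero (pow_ne_zero 2 hA0) hthS this
  have hmW : PowerSeries.map (io K V)
      (lft B hB * tth (lft A hA) - lft A hA * tth (lft B hB)) = -(A ^ 2 * thetaD S) := by
    rw [map_sub, map_mul, map_mul, map_tth, map_tth, map_lft, map_lft, hW1]
  have hdvd := hGPP ↥(V.comap K.subtype) h30 h3u h20 (el ω hωK hωV) hωO
    (el (-(1 + lam)) ha2K ha2V) (el lam hκK hκV) hdiv (el_unit hκK hκV hκ)
    (lft A hA) (lft B hB) (lft _ hG) (el c hcK hcV) (by
      intro h
      have := congrArg (io K V) h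
      rw [io_el, map_zero] at this
      exact hc0 this)
    (lft B hB * tth (lft A hA) - lft A hA * tth (lft B hB)) (by
      intro h
      have := congrArg (PowerSeries.map (io K V)) h
      rw [map_lft, map_zero] at this
      exact hB0 this) (by
      intro h
      have := congrArg (PowerSeries.map (io K V)) h
      rw [map_lft, map_zero] at this
      exact hA0 this) hW0 rfl (by
      apply mapι_inj (io_inj K V)
      simp only [map_mul, map_pow, map_sub, map_add, map_tth, map_ofNat, PowerSeries.map_C,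
        map_lft, io_el]
      exact hode)
    _ _ _ _ _ _ rfl rfl rfl rfl rfl rfl (by
      apply mapι_inj (io_inj K V)
      simp only [map_mul, map_pow, map_sub, map_add, map_tth, map_ofNat, PowerSeries.map_C,
        map_lft, io_el, map_rescale, hmW]
      exact col_pull ω c (-(1 + lam)) lam A B S (thetaD A) (thetaD B) (thetaD S) (thetaD z) hAS
        hW1 hCol')
  obtain ⟨G', hG'⟩ := hdvd
  have hG0 : PowerSeries.coeff 0 (lft _ hG) = 0 := by
    apply io_inj K V
    rw [lft, PowerSeries.coeff_mk, io_el, map_zero, PowerSeries.coeff_C_mul, thetaD,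
      PowerSeries.coeff_mk, hz0, mul_zero, mul_zero]
  have h9 := congrArg (PowerSeries.coeff 12) hG'
  rw [PowerSeries.coeff_C_mul, coeff_pow12 _ hG0] at h9
  have h10 := congrArg (io K V) h9
  rw [map_pow, map_mul, map_mul, map_pow, map_ofNat, io_el, lft, PowerSeries.coeff_mk, io_el,
    PowerSeries.coeff_C_mul, thetaD, PowerSeries.coeff_mk, Nat.cast_one, one_mul] at h10
  have h11 : PowerSeries.coeff 1 z ^ 12 = 3 * io K V (PowerSeries.coeff 12 G') := by
    have hc12 : c ^ 12 ≠ 0 := pow_ne_zero 12 hc0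
    apply mul_left_cancel₀ hc12
    rw [← mul_pow, h10]
    ring
  rw [← map_pow, h11, map_mul]
  exact mul_le_of_le_one_right' ((V.valuation_le_one_iff _).2 (io_mem _))

end

end Pool.Agent.NSGR
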