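import Pool.Agent.NS.StGR
import Pool.Agent.MU3.Q_ODE
import Pool.Agent.MU3.BAll

/-!
# Module NSGR_COL: the three points `Z`, `α Z`, `α² Z` are collinear
-/

set_option autoImplicit false

namespace Pool.Agent.NSGR

open _root_.MU3 Pool.Agent.MU3A Pool.Agent.MU3B Pool.Agent.MU3Q Pool.Agent.MUX Pool.Agent.NS
  Pool.Agent.NSRD Pool.Agent.NSG Pool.Agent.MUXN Pool.Agent.MuSym OnePoint UpperHalfPlane
open Pool.Agent.MUXF (qb)
open scoped MatrixGroups

noncomputable section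

namespace COL

open Filter Topology Pool.Agent.MU3Q.ODE

theorem near0 (L : PeriodPair) (c0 : ℂ) :
    ∀ᶠ u in 𝓝[≠] (0 : ℂ), u ∉ L.lattice ∧ L.weierstrassP u + c0 ≠ 0 := by
  have hden : ∀ᶠ u in 𝓝 (0 : ℂ), 1 + u ^ 2 * (L.weierstrassPExcept 0 u + c0) ≠ 0 := by
    have hc : ContinuousAt (fun u => 1 + u ^ 2 * (L.weierstrassPExcept 0 u + c0)) 0 := by
      have h := (L.analyticAt_weierstrassPExcept 0).continuousAt
      exact continuousAt_const.add ((continuousAt_id.pow 2).mul (h.add continuousAt_const))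
    exact hc.eventually_ne (by simp)
  have hlat : ∀ᶠ u in 𝓝[≠] (0 : ℂ), u ∉ L.lattice := by
    have h1 := L.compl_lattice_sdiff_singleton_mem_nhds 0
    filter_upwards [nhdsWithin_le_nhds h1, self_mem_nhdsWithin] with u hu hu0 hul
    exact hu ⟨hul, hu0⟩
  filter_upwards [nhdsWithin_le_nhds hden, hlat, self_mem_nhdsWithin] with u h1 h2 h3
  have hu0 : u ≠ 0 := h3
  refine ⟨h2, fun h5 => ?_⟩
  have h4 := sf_eq L c0 u hu0
  rw [h5, inv_zero] at h4
  unfold sf at h4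
  rw [div_eq_zero_iff] at h4
  rcases h4 with h4 | h4
  · exact hu0 (pow_eq_zero_iff (two_ne_zero) |>.1 h4)
  · exact h1 h4

theorem sf_zero (L : PeriodPair) (c0 : ℂ) : sf L c0 0 = 0 := by simp [sf]

/-- the constants of the two equations agree -/
theorem a2_eq (L : PeriodPair) (c0 a2 a4 a6 : ℂ)
    (hrel : ∀ u : ℂ, u ∉ L.lattice → L.derivWeierstrassP u ^ 2 / 4 =
      (L.weierstrassP u + c0) ^ 3 + a2 * (L.weierstrassP u + c0) ^ 2 +
        a4 * (L.weierstrassP u + c0) + a6) : a2 = -3 * c0 := by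
  set b : ℂ := 3 * c0 ^ 2 + 2 * a2 * c0 + a4 + L.g₂ / 4 with hb
  set c : ℂ := c0 ^ 3 + a2 * c0 ^ 2 + a4 * c0 + a6 + L.g₃ / 4 with hc
  have h1 : ∀ᶠ u in 𝓝[≠] (0 : ℂ),
      (3 * c0 + a2) + b * sf L 0 u + c * sf L 0 u ^ 2 = 0 := by
    filter_upwards [near0 L 0, self_mem_nhdsWithin] with u hu hu0
    have hu0' : u ≠ 0 := hu0
    have hx := hu.2
    have e1 := hrel u hu.1
    have e2 := L.derivWeierstrassP_sq u hu.1
    rw [sf_eq L 0 u hu0']
    rw [add_zero] at hx ⊢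
    have e3 : (3 * c0 + a2) * L.weierstrassP u ^ 2 + b * L.weierstrassP u + c = 0 := by
      rw [hb, hc]
      linear_combination (-1) * e1 + (1 / 4) * e2
    field_simp
    linear_combination e3
  have h2 : ContinuousAt (fun u => (3 * c0 + a2) + b * sf L 0 u + c * sf L 0 u ^ 2) 0 := by
    have := (sf_analytic L 0).continuousAt
    fun_prop
  have h3 : Tendsto (fun u => (3 * c0 + a2) + b * sf L 0 u + c * sf L 0 u ^ 2) (𝓝[≠] 0)
      (𝓝 ((3 * c0 + a2) + b * sf L 0 0 + c * sf L 0 0 ^ 2)) := h2.tendsto.mono_left nhdsWithin_le_nhds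
  have h4 : Tendsto (fun u => (3 * c0 + a2) + b * sf L 0 u + c * sf L 0 u ^ 2) (𝓝[≠] 0)
      (𝓝 0) := by
    refine Tendsto.congr' (f₁ := fun _ => (0 : ℂ)) ?_ tendsto_const_nhds
    filter_upwards [h1] with u hu
    exact hu.symm
  have h5 := tendsto_nhds_unique h3 h4
  rw [sf_zero] at h5
  linear_combination h5

/-- the addition theorem, as collinearity -/
theorem col_pt (L : PeriodPair) (c0 a2 a4 a6 : ℂ)
    (hrel : ∀ u : ℂ, u ∉ L.lattice → L.derivWeierstrassP u ^ 2 / 4 =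
      (L.weierstrassP u + c0) ^ 3 + a2 * (L.weierstrassP u + c0) ^ 2 +
        a4 * (L.weierstrassP u + c0) + a6) (u0 u1 u2 : ℂ) (h0 : u0 ∉ L.lattice)
    (h1 : u1 ∉ L.lattice) (h2 : u2 ∉ L.lattice) (h01 : u0 - u1 ∉ L.lattice)
    (hs : u0 + u1 + u2 = 0) :
    (L.weierstrassP u0 + c0 + (L.weierstrassP u1 + c0) + (L.weierstrassP u2 + c0) + a2) *
      (L.derivWeierstrassP u0 / 2 + L.derivWeierstrassP u1 / 2) ^ 2 =
    ((L.weierstrassP u0 + c0) ^ 2 + (L.weierstrassP u0 + c0) * (L.weierstrassP u1 + c0) +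
      (L.weierstrassP u1 + c0) ^ 2 + a2 * (L.weierstrassP u0 + c0 + (L.weierstrassP u1 + c0)) +
      a4) ^ 2 := by
  have ha2 := a2_eq L c0 a2 a4 a6 hrel
  have e2 : u0 + u1 = -u2 := by linear_combination hs
  have h3 : u0 + u1 ∉ L.lattice := by
    rw [e2]
    intro h
    exact h2 (by simpa using neg_mem h)
  have hadd := (b_ADD L u1 u0 h1 h0 h3 h01).1
  rw [e2, L.weierstrassP_neg] at hadd
  have hne : L.weierstrassP u0 - L.weierstrassP u1 ≠ 0 := by
    intro h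
    rcases b_NEQ L u1 u0 h1 h0 (sub_eq_zero.1 h) with h' | h'
    · exact h01 h'
    · exact h3 h'
  have r0 := hrel u0 h0
  have r1 := hrel u1 h1
  set X0 := L.weierstrassP u0
  set X1 := L.weierstrassP u1
  set X2 := L.weierstrassP u2
  set Y0 := L.derivWeierstrassP u0
  set Y1 := L.derivWeierstrassP u1
  set N : ℂ := (X0 + c0) ^ 2 + (X0 + c0) * (X1 + c0) + (X1 + c0) ^ 2 +
    a2 * (X0 + c0 + (X1 + c0)) + a4 with hN
  have e3 : (Y0 - Y1) * (Y0 + Y1) = 4 * ((X0 - X1) * N) := by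
    rw [hN]
    linear_combination 4 * r0 - 4 * r1
  have e4 : X0 + c0 + (X1 + c0) + (X2 + c0) + a2 =
      ((Y0 - Y1) / (2 * (X0 - X1))) ^ 2 := by
    rw [ha2]
    linear_combination hadd
  rw [e4]
  have e5 : ((Y0 - Y1) / (2 * (X0 - X1))) * (Y0 / 2 + Y1 / 2) = N := by
    field_simp
    linear_combination e3
  rw [← mul_pow, e5]

theorem ser_rescale {f : ℂ → ℂ} {S : PowerSeries ℂ} (h : Ser f S) (w : ℂ) :
    Ser (fun q => f (w * q)) (PowerSeries.rescale w S) := by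
  unfold Ser at *
  have ht : Tendsto (fun q : ℂ => w * q) (𝓝 0) (𝓝 0) := by
    have : Continuous (fun q : ℂ => w * q) := by fun_prop
    simpa using this.tendsto 0
  filter_upwards [ht.eventually h] with q hq
  convert hq using 2
  rw [PowerSeries.coeff_rescale, mul_pow]
  ring

theorem ser_ne {f : ℂ → ℂ} {S : PowerSeries ℂ} (h : Ser f S) (n : ℕ)
    (hS : PowerSeries.coeff n S ≠ 0) : ∀ᶠ q in 𝓝[≠] (0 : ℂ), f q ≠ 0 := by
  rcases h.analyticAt.eventually_eq_zero_or_eventually_ne_zero with h1 | h1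
  · exfalso
    have h2 : Ser f (PowerSeries.C 0) := (Ser.const 0).congr (h1.mono fun q hq => hq.symm)
    apply hS
    rw [h.unique h2]
    simp
  · exact h1

theorem ser_pow {f : ℂ → ℂ} {S : PowerSeries ℂ} (h : Ser f S) (n : ℕ) :
    Ser (fun q => f q ^ n) (S ^ n) := by
  induction n with
  | zero => simpa using Ser.const 1
  | succ n ih => simpa only [pow_succ] using ih.mul h

theorem sf_deriv (L : PeriodPair) (c0 u : ℂ) (h0 : u ≠ 0) (h : u ∉ L.lattice)
    (hx : L.weierstrassP u + c0 ≠ 0) :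
    HasDerivAt (sf L c0) (-L.derivWeierstrassP u / (L.weierstrassP u + c0) ^ 2) u := by
  have hev : sf L c0 =ᶠ[𝓝 u] fun v => (L.weierstrassP v + c0)⁻¹ := by
    filter_upwards [isOpen_ne.mem_nhds h0] with v hv
    exact sf_eq L c0 v hv
  have hdw : HasDerivAt L.weierstrassP (L.derivWeierstrassP u) u := by
    have h5 : DifferentiableAt ℂ L.weierstrassP u :=
      (L.analyticOnNhd_weierstrassP u h).differentiableAt
    have h6 := h5.hasDerivAt
    rwa [L.deriv_weierstrassP] at h6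
  exact ((hdw.add_const c0).inv hx).congr_of_eventuallyEq hev

theorem alg (s0 s1 s2 x0 x1 x2 W0 W1 G0 G1 a2 a4 : ℂ) (h0 : s0 * x0 = 1) (h1 : s1 * x1 = 1)
    (h2 : s2 * x2 = 1)
    (e : (x0 + x1 + x2 + a2) * (W0 / 2 + W1 / 2) ^ 2 =
      (x0 ^ 2 + x0 * x1 + x1 ^ 2 + a2 * (x0 + x1) + a4) ^ 2) :
    (s0 * s1 + s0 * s2 + s1 * s2 + a2 * (s0 * s1 * s2)) *
      ((-W0 * s0 ^ 2 * G0) * G1 * s1 ^ 2 + (-W1 * s1 ^ 2 * G1) * G0 * s0 ^ 2) ^ 2 =
    4 * s0 * s1 * s2 * G0 ^ 2 * G1 ^ 2 *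
      (s0 ^ 2 + s0 * s1 + s1 ^ 2 + a2 * (s0 * s1 * (s0 + s1)) + a4 * (s0 ^ 2 * s1 ^ 2)) ^ 2 := by
  have e1 : s0 * s1 + s0 * s2 + s1 * s2 + a2 * (s0 * s1 * s2) =
      s0 * s1 * s2 * (x0 + x1 + x2 + a2) := by
    linear_combination (-(s1 * s2)) * h0 + (-(s0 * s2)) * h1 + (-(s0 * s1)) * h2
  have e2 : s0 ^ 2 + s0 * s1 + s1 ^ 2 + a2 * (s0 * s1 * (s0 + s1)) + a4 * (s0 ^ 2 * s1 ^ 2) =
      s0 ^ 2 * s1 ^ 2 * (x0 ^ 2 + x0 * x1 + x1 ^ 2 + a2 * (x0 + x1) + a4) := by
    linear_combination (-(s1 ^ 2 * (s0 * x0 + 1) + s0 * s1 * (s1 * x1) + a2 * s0 * s1 ^ 2)) * h0 +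
      (-(s0 * s1 + s0 ^ 2 * (s1 * x1 + 1) + a2 * s0 ^ 2 * s1)) * h1
  rw [e1, e2]
  linear_combination (4 * s0 * s1 * s2 * (s0 ^ 2 * s1 ^ 2) ^ 2 * G0 ^ 2 * G1 ^ 2) * e

end COL

open Pool.Agent.MU3Q.ODE Filter Topology COL in
theorem tv_COL : Sv_COL := by
  intro L c0 a2 a4 a6 hrel ha6 Z z hZ hz1 hz3 ω hω
  have hz0 : PowerSeries.coeff 0 z = 0 := hz3 0 (dvd_zero 3)
  obtain ⟨S, hS0, hS1, hS2, hSo, Y, hSY⟩ := t_ODE L c0 a2 a4 a6 hrel Z z hZ hz0 hz1
  refine ⟨S, ⟨hS0, hS1, hS2, ?_⟩, ?_⟩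
  · rw [hSo, ha6, zero_smul, add_zero]
  -- the function `φ`
  set φ : ℂ → ℂ := fun q => ∑' n : ℕ, PowerSeries.coeff n z * q ^ n with hφdef
  have hφZ : ∀ τ : ℍ, φ (qq τ) = Z τ := fun τ => (hZ τ).tsum_eq
  have hφ : Ser φ z := by
    have h1 := (hZ UpperHalfPlane.I).summable
    set q0 : ℝ := ‖qq UpperHalfPlane.I‖ with hq0
    have hq0pos : 0 < q0 := norm_pos_iff.2 (Complex.exp_ne_zero _)
    obtain ⟨C, hC⟩ : ∃ C : ℝ, ∀ n : ℕ, ‖PowerSeries.coeff n z * qq UpperHalfPlane.I ^ n‖ ≤ C := by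
      obtain ⟨C, hC⟩ := (h1.tendsto_atTop_zero.norm).bddAbove_range
      exact ⟨C, fun n => hC ⟨n, rfl⟩⟩
    unfold Ser
    filter_upwards [Metric.ball_mem_nhds (0 : ℂ) hq0pos] with q hq
    rw [Metric.mem_ball, dist_zero_right] at hq
    have hr : ‖q‖ / q0 < 1 := (div_lt_one hq0pos).2 hq
    have h2 : Summable (fun n : ℕ => PowerSeries.coeff n z * q ^ n) := by
      refine Summable.of_norm_bounded (g := fun n : ℕ => C * (‖q‖ / q0) ^ n)
        ((summable_geometric_of_lt_one (by positivity) hr).mul_left C) (fun n => ?_)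
      have h3 := hC n
      rw [norm_mul, norm_pow, ← hq0] at h3
      rw [norm_mul, norm_pow, div_pow]
      calc ‖PowerSeries.coeff n z‖ * ‖q‖ ^ n
          = (‖PowerSeries.coeff n z‖ * q0 ^ n) * (‖q‖ ^ n / q0 ^ n) := by
            field_simp
        _ ≤ C * (‖q‖ ^ n / q0 ^ n) := mul_le_mul_of_nonneg_right h3 (by positivity)
    exact h2.hasSum
  have hφ0 : φ 0 = 0 := by rw [hφ.zero_eq, hz0]
  have hφne := ser_ne hφ 1 hz1
  set F : ℂ → ℂ := fun q => sf L c0 (φ q) with hFdef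
  have hF0 : F 0 = 0 := by
    show sf L c0 (φ 0) = 0
    rw [hφ0, sf_zero]
  have hF : Ser F S := by
    unfold Ser
    have hne := hφne
    rw [eventually_nhdsWithin_iff] at hne
    filter_upwards [Metric.ball_mem_nhds (0 : ℂ) one_pos,
      Metric.ball_mem_nhds (0 : ℂ) (Real.exp_pos (-(2 * Real.pi * Y))), hne] with q hq1 hq2 hq3
    rw [Metric.mem_ball, dist_zero_right] at hq1 hq2
    by_cases h0 : q = 0
    · subst h0
      rw [hF0]
      have := hasSum_single (f := fun n : ℕ => PowerSeries.coeff n S * (0 : ℂ) ^ n) 0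
        (fun n hn => by simp [hn])
      simpa [hS0] using this
    · have hn : 0 < ‖q‖ := norm_pos_iff.2 h0
      have hpi : 0 < 2 * Real.pi := by positivity
      have l1 : Real.log ‖q‖ < 0 := Real.log_neg hn hq1
      have l2 : Real.log ‖q‖ < -(2 * Real.pi * Y) := by
        rw [Real.log_lt_iff_lt_exp hn]
        exact hq2
      have him : 0 < -(Real.log ‖q‖) / (2 * Real.pi) := div_pos (by linarith) hpi
      set τ : ℍ := ⟨⟨Complex.arg q / (2 * Real.pi), -(Real.log ‖q‖) / (2 * Real.pi)⟩, him⟩ with hτ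
      have hqq : qq τ = q := by
        have e1 : 2 * (Real.pi : ℂ) * Complex.I * (τ : ℂ) = Complex.log q := by
          apply Complex.ext
          · have : (τ : ℂ).im = -(Real.log ‖q‖) / (2 * Real.pi) := rfl
            simp [Complex.mul_re, Complex.mul_im, Complex.log_re]
            have h3 : τ.im = -(Real.log ‖q‖) / (2 * Real.pi) := rfl
            rw [h3]
            field_simp
          · simp [Complex.mul_re, Complex.mul_im, Complex.log_im]
            have h3 : τ.re = Complex.arg q / (2 * Real.pi) := rfl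
            rw [h3]
            field_simp
        unfold qq
        rw [e1, Complex.exp_log h0]
      have hY : Y < τ.im := by
        have h3 : τ.im = -(Real.log ‖q‖) / (2 * Real.pi) := rfl
        rw [h3, lt_div_iff₀ hpi]
        linarith
      have h := hSY τ hY
      rw [hqq] at h
      have h4 : φ q = Z τ := by rw [← hφZ τ, hqq]
      have h5 : F q = (L.weierstrassP (Z τ) + c0)⁻¹ := by
        show sf L c0 (φ q) = _
        rw [sf_eq L c0 (φ q) (hq3 h0), h4]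
      rw [h5]
      exact h
  have hω0 : ω ≠ 0 := hω.ne_zero (by norm_num)
  have hω1 : ω ≠ 1 := hω.ne_one (by norm_num)
  have hω3 : ω ^ 3 = 1 := hω.pow_eq_one
  have hωs : 1 + ω + ω ^ 2 = 0 := by
    have h1 : (ω - 1) * (1 + ω + ω ^ 2) = 0 := by linear_combination hω3
    rcases mul_eq_zero.1 h1 with h | h
    · exact absurd (sub_eq_zero.1 h) hω1
    · exact h
  -- the sum
  have hsum : ∀ᶠ q in 𝓝 (0 : ℂ), φ q + φ (ω * q) + φ (ω ^ 2 * q) = 0 := by
    have h1 := (hφ.add (ser_rescale hφ ω)).add (ser_rescale hφ (ω ^ 2))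
    have h2 : z + PowerSeries.rescale ω z + PowerSeries.rescale (ω ^ 2) z = 0 := by
      ext n
      rw [map_add, map_add, PowerSeries.coeff_rescale, PowerSeries.coeff_rescale, map_zero]
      by_cases h3 : 3 ∣ n
      · rw [hz3 n h3]
        ring
      · have h4 : 1 + ω ^ n + (ω ^ 2) ^ n = 0 := by
          have h5 : ω ^ n ≠ 1 := fun h => h3 (hω.pow_eq_one_iff_dvd n |>.1 h)
          have h6 : (ω ^ n - 1) * (1 + ω ^ n + (ω ^ 2) ^ n) = 0 := by
            have h7 : (ω ^ 3) ^ n = 1 := by rw [hω3, one_pow]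
            have h8 : (ω ^ 3) ^ n = ω ^ n * (ω ^ 2) ^ n := by rw [← mul_pow]; congr 1; ring
            have h9 : (ω ^ 2) ^ n = (ω ^ n) ^ 2 := by rw [← pow_mul, ← pow_mul, mul_comm]
            rw [h8, h9] at h7
            rw [h9]
            linear_combination h7
          rcases mul_eq_zero.1 h6 with h | h
          · exact absurd (sub_eq_zero.1 h) h5
          · exact h
        linear_combination PowerSeries.coeff n z * h4
    rw [h2] at h1
    unfold Ser at h1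
    filter_upwards [h1] with q hq
    refine hq.unique ?_
    simp
  -- differences
  have hdne : ∀ᶠ q in 𝓝[≠] (0 : ℂ), φ q - φ (ω * q) ≠ 0 := by
    have h1 := hφ.add ((ser_rescale hφ ω).smul (-1))
    have h2 := ser_ne h1 1 (by
      rw [map_add, PowerSeries.coeff_smul, PowerSeries.coeff_rescale, pow_one, smul_eq_mul]
      intro h
      have h3 : (1 - ω) * PowerSeries.coeff 1 z = 0 := by linear_combination h
      rcases mul_eq_zero.1 h3 with h4 | h4
      · exact hω1 (sub_eq_zero.1 h4).symm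
      · exact hz1 h4)
    filter_upwards [h2] with q hq h3
    apply hq
    linear_combination h3
  have hdL : ∀ᶠ q in 𝓝[≠] (0 : ℂ), φ q - φ (ω * q) ∉ L.lattice := by
    have h1 := hφ.add ((ser_rescale hφ ω).smul (-1))
    have hc : Tendsto (fun q => φ q + -1 * φ (ω * q)) (𝓝[≠] 0) (𝓝 0) := by
      have := h1.analyticAt.continuousAt.tendsto
      simp only [mul_zero, hφ0, add_zero] at this
      exact this.mono_left nhdsWithin_le_nhds
    have hc' : Tendsto (fun q => φ q + -1 * φ (ω * q)) (𝓝[≠] 0) (𝓝[≠] 0) := by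
      rw [tendsto_nhdsWithin_iff]
      refine ⟨hc, ?_⟩
      filter_upwards [hdne] with q hq h3
      apply hq
      have h4 : φ q + -1 * φ (ω * q) = 0 := h3
      linear_combination h4
    filter_upwards [hc'.eventually (near0 L c0)] with q hq
    have h4 : φ q + -1 * φ (ω * q) = φ q - φ (ω * q) := by ring
    rw [← h4]
    exact hq.1
  -- the good points
  have hgood : ∀ᶠ q in 𝓝[≠] (0 : ℂ), φ q ∉ L.lattice ∧ L.weierstrassP (φ q) + c0 ≠ 0 ∧
      F q * (L.weierstrassP (φ q) + c0) = 1 ∧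
      q * deriv F q = -L.derivWeierstrassP (φ q) * F q ^ 2 * (q * deriv φ q) := by
    have hc : Tendsto φ (𝓝[≠] 0) (𝓝[≠] 0) := by
      rw [tendsto_nhdsWithin_iff]
      refine ⟨?_, hφne⟩
      have := hφ.analyticAt.continuousAt.tendsto
      rw [hφ0] at this
      exact this.mono_left nhdsWithin_le_nhds
    filter_upwards [hc.eventually (near0 L c0), hφne,
      nhdsWithin_le_nhds hφ.analyticAt.eventually_analyticAt] with q h1 h2 h3
    have hFq : F q = (L.weierstrassP (φ q) + c0)⁻¹ := sf_eq L c0 (φ q) h2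
    refine ⟨h1.1, h1.2, ?_, ?_⟩
    · rw [hFq, inv_mul_cancel₀ h1.2]
    · have h4 : HasDerivAt F (-L.derivWeierstrassP (φ q) / (L.weierstrassP (φ q) + c0) ^ 2 *
          deriv φ q) q :=
        (sf_deriv L c0 (φ q) h2 h1.1 h1.2).comp q h3.differentiableAt.hasDerivAt
      rw [h4.deriv, hFq, inv_pow, div_eq_mul_inv]
      ring
  have hrot : ∀ w : ℂ, w ≠ 0 → Tendsto (fun q : ℂ => w * q) (𝓝[≠] 0) (𝓝[≠] 0) := by
    intro w hw
    rw [tendsto_nhdsWithin_iff]
    constructor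
    · have : Continuous (fun q : ℂ => w * q) := by fun_prop
      have h := this.tendsto 0
      rw [mul_zero] at h
      exact h.mono_left nhdsWithin_le_nhds
    · filter_upwards [self_mem_nhdsWithin] with q hq
      exact mul_ne_zero hw hq
  have hg1 := (hrot ω hω0).eventually hgood
  have hg2 := (hrot (ω ^ 2) (pow_ne_zero 2 hω0)).eventually hgood
  -- the series
  have hF1 := ser_rescale hF ω
  have hF2 := ser_rescale hF (ω ^ 2)
  have hT := hF.theta
  have hT1 := ser_rescale hT ω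
  have hG := hφ.theta
  have hG1 := ser_rescale hG ω
  have hA := (((hF.mul hF1).add (hF.mul hF2)).add (hF1.mul hF2)).add
    (((hF.mul hF1).mul hF2).smul a2)
  have hB := ser_pow (((hT.mul hG1).mul (ser_pow hF1 2)).add ((hT1.mul hG).mul (ser_pow hF 2))) 2
  have hL := hA.mul hB
  have hN := ser_pow (((((ser_pow hF 2).add (hF.mul hF1)).add (ser_pow hF1 2)).add
    (((hF.mul hF1).mul (hF.add hF1)).smul a2)).add
    (((ser_pow hF 2).mul (ser_pow hF1 2)).smul a4)) 2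
  have hR := ((((((Ser.const 4).mul hF).mul hF1).mul hF2).mul (ser_pow hG 2)).mul
    (ser_pow hG1 2)).mul hN
  have hkey : ∀ᶠ q in 𝓝[≠] (0 : ℂ),
      (F q * F (ω * q) + F q * F (ω ^ 2 * q) + F (ω * q) * F (ω ^ 2 * q) +
        a2 * (F q * F (ω * q) * F (ω ^ 2 * q))) *
      (q * deriv F q * (ω * q * deriv φ (ω * q)) * F (ω * q) ^ 2 +
        ω * q * deriv F (ω * q) * (q * deriv φ q) * F q ^ 2) ^ 2 =
      4 * F q * F (ω * q) * F (ω ^ 2 * q) * (q * deriv φ q) ^ 2 *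
        (ω * q * deriv φ (ω * q)) ^ 2 *
        (F q ^ 2 + F q * F (ω * q) + F (ω * q) ^ 2 + a2 * (F q * F (ω * q) * (F q + F (ω * q))) +
          a4 * (F q ^ 2 * F (ω * q) ^ 2)) ^ 2 := by
    filter_upwards [hgood, hg1, hg2, hdL, nhdsWithin_le_nhds hsum] with q h0 h1 h2 h3 h4
    obtain ⟨a0, b0, c0', d0⟩ := h0
    obtain ⟨a1, b1, c1, d1⟩ := h1
    obtain ⟨a2', b2, c2, d2⟩ := h2
    have hc := col_pt L c0 a2 a4 a6 hrel (φ q) (φ (ω * q)) (φ (ω ^ 2 * q)) a0 a1 a2' h3 h4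
    rw [d0, d1]
    exact alg _ _ _ _ _ _ _ _ _ _ a2 a4 c0' c1 c2 hc
  have hev : ∀ᶠ q in 𝓝 (0 : ℂ),
      (F q * F (ω * q) + F q * F (ω ^ 2 * q) + F (ω * q) * F (ω ^ 2 * q) +
        a2 * (F q * F (ω * q) * F (ω ^ 2 * q))) *
      (q * deriv F q * (ω * q * deriv φ (ω * q)) * F (ω * q) ^ 2 +
        ω * q * deriv F (ω * q) * (q * deriv φ q) * F q ^ 2) ^ 2 =
      4 * F q * F (ω * q) * F (ω ^ 2 * q) * (q * deriv φ q) ^ 2 *
        (ω * q * deriv φ (ω * q)) ^ 2 *
        (F q ^ 2 + F q * F (ω * q) + F (ω * q) ^ 2 + a2 * (F q * F (ω * q) * (F q + F (ω * q))) +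
          a4 * (F q ^ 2 * F (ω * q) ^ 2)) ^ 2 := by
    rw [eventually_nhdsWithin_iff] at hkey
    filter_upwards [hkey] with q hq
    by_cases h0 : q = 0
    · subst h0
      simp [hF0]
    · exact hq h0
  have hfin := (hL.congr hev).unique hR
  have h7 : (PowerSeries.C (4 : ℂ)) = (4 : PowerSeries ℂ) := map_ofNat _ 4
  rw [h7] at hfin
  exact hfin

end

end Pool.Agent.NSGR
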