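import Pool.Agent.NS.StGR
import Pool.Agent.MUX.N_GJ
import Pool.Agent.MU3.Q_QA

/-!
# MUX-NS, block GR, module GJP: the forms `g_j`, depleted case (adapted from `NS/G_Gj.lean`)
-/

set_option autoImplicit false

namespace Pool.Agent.NSGR

open _root_.MU3 Pool.Agent.MU3A Pool.Agent.MU3B Pool.Agent.MU3Q Pool.Agent.MUX Pool.Agent.NS
  Pool.Agent.NSRD Pool.Agent.NSG Pool.Agent.MUXN Pool.Agent.MuSym OnePoint UpperHalfPlane
open Pool.Agent.MUXF (qb)
open scoped MatrixGroups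

noncomputable section

namespace GJP

lemma alg_root {x : ℂ} (h : x ^ 3 = 1) : IsAlgebraic ℚ x :=
  (IsIntegral.of_pow (n := 3) (by norm_num) (by rw [h]; exact isIntegral_one)).isAlgebraic

lemma exp_add (τ : ℂ) (k n : ℕ) :
    Complex.exp (2 * Real.pi * Complex.I * (τ + (k : ℂ) / 3)) ^ n =
      Complex.exp (2 * Real.pi * Complex.I / (3 : ℕ)) ^ (k * n) *
        Complex.exp (2 * Real.pi * Complex.I * τ) ^ n := by
  rw [pow_mul, ← mul_pow]
  congr 1
  rw [← Complex.exp_nat_mul, ← Complex.exp_add]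
  congr 1
  push_cast
  ring

lemma depl {β : ℕ → ℂ} {Θ : ℂ → ℂ}
    (hs : ∀ τ : ℂ, 0 < τ.im → HasSum (fun n : ℕ => β n *
      Complex.exp (2 * Real.pi * Complex.I * τ) ^ n) (Θ τ))
    (h : ∀ τ : ℂ, 0 < τ.im → Θ τ + Θ (τ + 1 / 3) + Θ (τ + 2 / 3) = 0) (n : ℕ) (hn : 3 ∣ n) :
    β n = 0 := by
  set ω : ℂ := Complex.exp (2 * Real.pi * Complex.I / (3 : ℕ)) with hω
  have h3 : ω ^ 3 = 1 := (Complex.isPrimitiveRoot_exp 3 (by norm_num)).pow_eq_one
  have key : (PowerSeries.mk fun n => β n * (1 + ω ^ (1 * n) + ω ^ (2 * n)) : PowerSeries ℂ) =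
      0 := by
    refine t_QA.2.2.2.2 (fun _ => 0) _ 0 0 ?_ ?_
    · intro τ _
      have hτ : 0 < (τ : ℂ).im := τ.2
      have a0 := hs (τ : ℂ) hτ
      have a1 := hs ((τ : ℂ) + 1 / 3) (by simpa using hτ)
      have a2 := hs ((τ : ℂ) + 2 / 3) (by simpa using hτ)
      have a3 := (a0.add a1).add a2
      rw [h (τ : ℂ) hτ] at a3
      have e1 : (fun n : ℕ => PowerSeries.coeff n
          (PowerSeries.mk fun n => β n * (1 + ω ^ (1 * n) + ω ^ (2 * n)) : PowerSeries ℂ) *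
          qq τ ^ n) = fun n : ℕ => β n * Complex.exp (2 * Real.pi * Complex.I * (τ : ℂ)) ^ n +
            β n * Complex.exp (2 * Real.pi * Complex.I * ((τ : ℂ) + 1 / 3)) ^ n +
            β n * Complex.exp (2 * Real.pi * Complex.I * ((τ : ℂ) + 2 / 3)) ^ n := by
        funext n
        have b1 := exp_add (τ : ℂ) 1 n
        have b2 := exp_add (τ : ℂ) 2 n
        rw [Nat.cast_one] at b1
        rw [Nat.cast_ofNat] at b2
        rw [PowerSeries.coeff_mk, b1, b2, ← hω, qq]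
        ring
      rw [e1]
      exact a3
    · intro τ _
      simp only [map_zero, zero_mul]
      exact hasSum_zero
  have h4 := congrArg (PowerSeries.coeff n) key
  rw [PowerSeries.coeff_mk, map_zero] at h4
  obtain ⟨m, rfl⟩ := hn
  have h5 : ω ^ (1 * (3 * m)) = 1 := by
    rw [one_mul, pow_mul, h3, one_pow]
  have h6 : ω ^ (2 * (3 * m)) = 1 := by
    rw [mul_left_comm, pow_mul, h3, one_pow]
  rw [h5, h6] at h4
  have h7 : β (3 * m) * 3 = 0 := by
    rw [← h4]
    ring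
  exact (mul_eq_zero.1 h7).resolve_right (by norm_num)

end GJP

open Pool.Agent.MUXN.N_GJ Pool.Agent.MU3G in
theorem tv_GJP (h1 : Sv_BNP) (h2 : Sg_RET) (h3 : Sg_NFE) : Sv_GJP := by
  classical
  intro A B hc J _ Ψ Θ α₁ Om N' hG hdep V h3V hLoc L' el lam hL hlam r h hh hfg w hw y hy
  have hOm0 : Om ≠ 0 := hL.om0
  choose α hα using fun j => hG.qexp j
  choose Kα hKα using fun j => (hα j).2.1
  -- generators of the fields of coefficients
  have hgen : ∀ c : J, ∃ S : Finset ℂ, (∀ x ∈ S, IsAlgebraic ℚ x) ∧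
      ∀ K' : Subfield ℂ, (∀ x ∈ S, x ∈ K') → Kα c ≤ K' := by
    intro c
    have := (hKα c).1
    exact gens _
  choose Sg hSg1 hSg2 using hgen
  set Pm : Fin r → J → ℂ := fun l' c => Ψ c ∞
      (mob (h l' 0 0) (h l' 0 1) (h l' 1 0) (h l' 1 1) ∞) / Om with hPm
  have hPmalg : ∀ l' c, IsAlgebraic ℚ (Pm l' c) := fun l' c => hG.alg c _ _
  have hN' : N' ≠ 0 := hG.pos.ne'
  have hζ : IsAlgebraic ℚ (Complex.exp (2 * Real.pi * Complex.I / N')) := by
    have hp := (Complex.isPrimitiveRoot_exp N' hN').pow_eq_one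
    have : IsIntegral ℚ (Complex.exp (2 * Real.pi * Complex.I / N')) := by
      refine ⟨Polynomial.X ^ N' - Polynomial.C 1, Polynomial.monic_X_pow_sub_C 1 hN', ?_⟩
      simp [hp]
    exact this.isAlgebraic
  have hωp : IsPrimitiveRoot (Complex.exp (2 * Real.pi * Complex.I / (3 : ℕ))) 3 :=
    Complex.isPrimitiveRoot_exp 3 (by norm_num)
  have hωa : IsAlgebraic ℚ (Complex.exp (2 * Real.pi * Complex.I / (3 : ℕ))) :=
    GJP.alg_root hωp.pow_eq_one
  obtain ⟨K, hKnf, hK⟩ := h3 ((Finset.univ.image fun q : Fin r × J => Pm q.1 q.2) ∪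
    Finset.univ.image w ∪ {lam} ∪ {Complex.exp (2 * Real.pi * Complex.I / N')} ∪
    {wC A B} ∪ Finset.univ.biUnion Sg ∪
    {Complex.exp (2 * Real.pi * Complex.I / (3 : ℕ))}) (by
      intro x hx
      simp only [Finset.mem_union, Finset.mem_image, Finset.mem_univ, true_and,
        Finset.mem_singleton, Finset.mem_biUnion] at hx
      rcases hx with (((((⟨q, rfl⟩ | ⟨i, rfl⟩) | rfl) | rfl) | rfl) | ⟨c, hc'⟩) | rfl
      · exact hPmalg _ _
      · exact kk_alg hc (hw i).1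
      · exact hL.alg
      · exact hζ
      · exact ((wC_int hc).tower_top (A := ℚ)).isAlgebraic
      · exact hSg1 c x hc'
      · exact hωa)
  simp only [Finset.mem_union, Finset.mem_image, Finset.mem_univ, true_and,
    Finset.mem_singleton, Finset.mem_biUnion] at hK
  have hKP : ∀ l' c, Pm l' c ∈ K := fun l' c => hK _ (by
    left; left; left; left; left; left; exact ⟨(l', c), rfl⟩)
  have hKw : ∀ i, w i ∈ K := fun i => hK _ (by
    left; left; left; left; left; right; exact ⟨i, rfl⟩)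
  have hKlam : lam ∈ K := hK _ (by left; left; left; left; right; rfl)
  have hKζ : Complex.exp (2 * Real.pi * Complex.I / N') ∈ K := hK _ (by
    left; left; left; right; rfl)
  have hKwC : wC A B ∈ K := hK _ (by left; left; right; rfl)
  have hKω : Complex.exp (2 * Real.pi * Complex.I / (3 : ℕ)) ∈ K := hK _ (by right; rfl)
  have hKS : ∀ c : J, Kα c ≤ K := fun c => hSg2 c K fun x hx => hK x (by
    left; right; exact ⟨c, hx⟩)
  have hKemb : ∀ x : OO A B, emb x ∈ K := fun x =>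
    K.add_mem (intCast_mem _ _) (K.mul_mem (intCast_mem _ _) hKwC)
  obtain ⟨y', hy'K, hy'⟩ := h2 K J r (fun c i => Pm i c) w (fun c i => hKP i c) hKw y hy
  obtain ⟨t, ht1, ht⟩ := hLoc (Finset.univ.image w) (by
    intro x hx
    obtain ⟨i, -, rfl⟩ := Finset.mem_image.1 hx
    exact hw i)
  refine ⟨y', hy', ?_⟩
  have hαK : ∀ c : J, ∀ n, α c n ∈ K := fun c n => hKS c ((hKα c).2 n)
  have hαV : ∀ c : J, ∀ n, α c n ∈ V := fun c n =>
    Pool.Agent.MU3A2.mem_of_integral ((hα c).1 n)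
  set Z : ℍ → ℂ := fun τ => emb t * ∑ c : J, y' c * Θ c (τ : ℂ) with hZ
  set z : PowerSeries ℂ := PowerSeries.mk fun n =>
    emb t * ∑ c : J, y' c * (α c n / n) with hz
  have hzn : ∀ n, PowerSeries.coeff n z = emb t * ∑ c : J, y' c * (α c n / n) :=
    fun n => by rw [hz, PowerSeries.coeff_mk]
  have hsmul : ∀ (γ : SL(2, ℤ)) (τ : ℍ), ((γ • τ : ℍ) : ℂ) =
      (((γ 0 0 : ℤ) : ℂ) * τ + ((γ 0 1 : ℤ) : ℂ)) /
          (((γ 1 0 : ℤ) : ℂ) * τ + ((γ 1 1 : ℤ) : ℂ)) := by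
    intro γ τ
    rw [UpperHalfPlane.specialLinearGroup_apply]
    simp
  have hQS : QS Z z := by
    intro τ
    have hs := (hasSum_sum (s := Finset.univ) fun c (_ : c ∈ (Finset.univ : Finset J)) =>
      ((hα c).2.2.2 (τ : ℂ) τ.2).mul_left (y' c)).mul_left (emb t)
    have e2 : (fun n : ℕ => PowerSeries.coeff n z * qq τ ^ n) = fun n : ℕ =>
        emb t * ∑ c : J, y' c * (α c n / n *
          Complex.exp (2 * Real.pi * Complex.I * (τ : ℂ)) ^ n) := by
      funext n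
      rw [hzn n, qq, mul_assoc, Finset.sum_mul]
      congr 1
      refine Finset.sum_congr rfl fun c _ => ?_
      ring
    rw [e2]
    exact hs
  have hcusp : ∀ γ : SL(2, ℤ), ∃ (C : ℂ) (w : ℕ → ℂ), ∀ τ : ℍ, HasSum (fun n : ℕ => w n *
      Complex.exp (2 * Real.pi * Complex.I * (τ : ℂ) / N') ^ (n + 1)) (Z (γ • τ) - C) := by
    intro γ
    choose C W hW using fun c : J => hG.cusp c (γ 0 0) (γ 0 1) (γ 1 0) (γ 1 1)
      (G6c.det_eq γ)
    refine ⟨emb t * ∑ c : J, y' c * C c, fun n => emb t * ∑ c : J, y' c * W c n, ?_⟩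
    intro τ
    have hs := (hasSum_sum (s := Finset.univ) fun c (_ : c ∈ (Finset.univ : Finset J)) =>
      (hW c (τ : ℂ) τ.2).mul_left (y' c)).mul_left (emb t)
    have e1 : (fun n : ℕ => (emb t * ∑ c : J, y' c * W c n) *
        Complex.exp (2 * Real.pi * Complex.I * (τ : ℂ) / N') ^ (n + 1)) = fun n : ℕ =>
        emb t * ∑ c : J, y' c * (W c n *
          Complex.exp (2 * Real.pi * Complex.I * (τ : ℂ) / N') ^ (n + 1)) := by
      funext n
      rw [mul_assoc, Finset.sum_mul]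
      congr 1
      refine Finset.sum_congr rfl fun c _ => ?_
      ring
    have e2 : Z (γ • τ) - emb t * ∑ c : J, y' c * C c = emb t * ∑ c : J, y' c *
        (Θ c ((((γ 0 0 : ℤ) : ℂ) * τ + ((γ 0 1 : ℤ) : ℂ)) /
          (((γ 1 0 : ℤ) : ℂ) * τ + ((γ 1 1 : ℤ) : ℂ))) - C c) := by
      rw [hZ]
      beta_reduce
      rw [← mul_sub, ← Finset.sum_sub_distrib, hsmul]
      congr 1
      refine Finset.sum_congr rfl fun c _ => ?_
      ring
    rw [e1, e2]
    exact hs
  -- the periods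
  set ρ : SL(2, ℤ) → ℂ := fun g => ∑ c : J, y' c * (Ψ c ∞ (G6c.mI g) / Om) with hρ
  have hρadd : ∀ g ∈ CongruenceSubgroup.Gamma1 N', ∀ g' ∈ CongruenceSubgroup.Gamma1 N',
      ρ (g * g') = ρ g + ρ g' := by
    intro g hg g' hg'
    rw [hρ]
    beta_reduce
    rw [← Finset.sum_add_distrib]
    refine Finset.sum_congr rfl fun c _ => ?_
    obtain ⟨m1, m2⟩ := G6c.mem1 hg
    have a1 := hG.add c ∞ (G6c.mI g) (G6c.mI (g * g'))
    have a2 := hG.inv c (g 0 0) (g 0 1) (g 1 0) (g 1 1) (G6c.det_eq g) m1 m2 ∞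
      (G6c.mI g')
    rw [← G6c.mI_mul] at a2
    have a3 : mob (g 0 0) (g 0 1) (g 1 0) (g 1 1) ∞ = G6c.mI g := rfl
    rw [a3] at a2
    rw [← a1, a2]
    ring
  have hM : ∀ g ∈ CongruenceSubgroup.Gamma1 N', ∃ c : OO A B, emb t * ρ g = emb c := by
    let M : AddSubgroup ℂ := AddSubgroup.comap (AddMonoidHom.mulLeft (emb t))
      (AddMonoidHom.range (eHom hc).toAddMonoidHom)
    have hMm : ∀ x, x ∈ M ↔ ∃ c : OO A B, emb t * x = emb c := by
      intro x
      constructor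
      · rintro ⟨c, hc'⟩
        refine ⟨c, ?_⟩
        have e1 : emb t * x = eHom hc c := hc'.symm
        rw [e1, eHom_apply hc]
      · rintro ⟨c, hc'⟩
        refine ⟨c, ?_⟩
        rw [← eHom_apply hc] at hc'
        rw [eHom_apply hc] at hc'
        show (eHom hc) c = emb t * x
        rw [eHom_apply hc, hc']
    intro g hg
    rw [← hMm]
    refine hfg ρ hρadd M (fun i => ?_) g hg
    rw [hMm]
    have e1 : ρ (h i) = w i := hy' i
    rw [e1]
    exact ht _ (Finset.mem_image_of_mem w (Finset.mem_univ i))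
  have hper : ∀ γ ∈ CongruenceSubgroup.Gamma1 N', ∀ τ : ℍ, Z (γ • τ) - Z τ ∈ L'.lattice := by
    intro γ hγ τ
    obtain ⟨m1, m2⟩ := G6c.mem1 hγ
    obtain ⟨x, hx⟩ := hM γ hγ
    rw [hL.mem]
    refine ⟨x, ?_⟩
    have e1 : Z (γ • τ) - Z τ = Om * (emb t * ρ γ) := by
      rw [hZ, hρ]
      beta_reduce
      rw [hsmul, ← mul_sub, ← Finset.sum_sub_distrib, mul_left_comm Om (emb t), Finset.mul_sum _ _ Om]
      congr 1
      refine Finset.sum_congr rfl fun c _ => ?_
      rw [hG.per c (γ 0 0) (γ 0 1) (γ 1 0) (γ 1 1) (G6c.det_eq γ) m1 m2 (τ : ℂ) τ.2]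
      have a3 : mob (γ 0 0) (γ 0 1) (γ 1 0) (γ 1 1) ∞ = G6c.mI γ := rfl
      rw [a3]
      field_simp
      ring
    rw [e1, hx]
  -- the denominators
  choose q hqK hq0 hqV hqy using fun c => denom K V (y' c) (hy'K c)
  have hden : ∃ c ∈ K, c ≠ 0 ∧ c ∈ V ∧ ∀ n : ℕ, c * (n * PowerSeries.coeff n z) ∈ V := by
    refine ⟨∏ c, q c, K.prod_mem fun c _ => hqK c, Finset.prod_ne_zero_iff.2 fun c _ => hq0 c,
      prod_mem fun c _ => hqV c, ?_⟩
    intro m
    by_cases hm : m = 0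
    · rw [hm]
      simp
    · have e1 : (∏ c, q c) * (m * PowerSeries.coeff m z) = ∑ c : J,
          (emb t * (∏ c' ∈ Finset.univ.erase c, q c')) * (q c * y' c) * α c m := by
        rw [hzn, mul_left_comm (m : ℂ), Finset.mul_sum, mul_left_comm, Finset.mul_sum,
          Finset.mul_sum]
        refine Finset.sum_congr rfl fun c _ => ?_
        rw [← Finset.mul_prod_erase Finset.univ q (Finset.mem_univ c)]
        have : (m : ℂ) ≠ 0 := by exact_mod_cast hm
        field_simp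
      rw [e1]
      exact sum_mem fun c _ => V.mul_mem _ _ (V.mul_mem _ _ (V.mul_mem _ _ (emb_mem_V hc V t)
        (prod_mem fun c _ => hqV c)) (hqy c)) (hαV c m)
  have hdz : ∀ n, 3 ∣ n → PowerSeries.coeff n z = 0 := by
    intro n hn
    rw [hzn]
    have e1 : ∑ c : J, y' c * (α c n / n) = 0 := Finset.sum_eq_zero fun c _ => by
      rw [GJP.depl (hα c).2.2.2 (hdep c) n hn, mul_zero]
    rw [e1, mul_zero]
  have hfin := h1 K V h3V N' hG.pos hKζ _ hKω hωp L' el lam hL.eq hKlam hL.v1 hlam Z z hQS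
    (fun m => by
      rw [hzn]
      exact K.mul_mem (hKemb t) (sum_mem fun c _ => K.mul_mem (hy'K c)
        (K.div_mem (hαK c m) (natCast_mem _ _))))
    hdz hden hcusp hper
  rw [hzn] at hfin
  have e1 : (∑ c : J, y' c * (α c 1 / (1 : ℕ))) = ∑ c : J, y' c * α₁ c := by
    refine Finset.sum_congr rfl fun c _ => ?_
    rw [(hα c).2.2.1]
    simp
  rw [e1, map_mul, ht1, one_mul] at hfin
  exact hfin

end

end Pool.Agent.NSGR
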