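import Pool.Agent.NS.StGR

/-!
# MUX-NS, block GR, module GPP (helper11): the Gauss lemma for power series, depleted case
-/

set_option autoImplicit false

namespace Pool.Agent.NSGR

open _root_.MU3 Pool.Agent.MU3A Pool.Agent.MU3B Pool.Agent.MU3Q Pool.Agent.MUX Pool.Agent.NS
  Pool.Agent.NSRD Pool.Agent.NSG Pool.Agent.MUXN Pool.Agent.MuSym OnePoint UpperHalfPlane
open Pool.Agent.MUXF (qb)
open scoped MatrixGroups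

noncomputable section

namespace GPP

theorem rescale_C' {R : Type} [CommRing R] (w a : R) :
    PowerSeries.rescale w (PowerSeries.C a) = PowerSeries.C a := by
  ext n
  rw [PowerSeries.coeff_rescale, PowerSeries.coeff_C]
  split_ifs with hn
  · simp [hn]
  · simp

/-- the first equation -/
theorem eq1 {E : Type} [Field E] (P Q G W c a2 a4 : E) (hQ : Q ≠ 0) (hG : G ≠ 0)
    (h2 : (2 : E) ≠ 0)
    (h : c ^ 2 * W ^ 2 = Q * (4 * P ^ 3 + 4 * a2 * P ^ 2 * Q + 4 * a4 * P * Q ^ 2) * G ^ 2) :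
    (W * c / (2 * Q ^ 2 * G)) ^ 2 = (P / Q) ^ 3 + a2 * (P / Q) ^ 2 + a4 * (P / Q) := by
  have h4 : (2 : E) * Q ^ 2 * G ≠ 0 := mul_ne_zero (mul_ne_zero h2 (pow_ne_zero _ hQ)) hG
  have e1 : (P / Q) ^ 3 + a2 * (P / Q) ^ 2 + a4 * (P / Q) =
      (P ^ 3 + a2 * P ^ 2 * Q + a4 * P * Q ^ 2) / Q ^ 3 := by
    field_simp
  rw [e1, div_pow, div_eq_div_iff (pow_ne_zero _ h4) (pow_ne_zero _ hQ)]
  linear_combination Q ^ 3 * h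

theorem fin {E : Type} [Field E] (Q Q₁ Q₂ G G₁ c A B N : E) (hQ : Q ≠ 0) (hQ1 : Q₁ ≠ 0)
    (hQ2 : Q₂ ≠ 0) (hG : G ≠ 0) (hG1 : G₁ ≠ 0) (h2 : (2 : E) ≠ 0)
    (h : c ^ 2 * A * B ^ 2 = 4 * Q * Q₁ * Q₂ * G ^ 2 * G₁ ^ 2 * N ^ 2) :
    (A / (Q * Q₁ * Q₂)) * (c * B / (2 * Q ^ 2 * Q₁ ^ 2 * G * G₁)) ^ 2 =
      (N / (Q ^ 2 * Q₁ ^ 2)) ^ 2 := by
  have n1 : Q * Q₁ * Q₂ ≠ 0 := mul_ne_zero (mul_ne_zero hQ hQ1) hQ2
  have n2 : 2 * Q ^ 2 * Q₁ ^ 2 * G * G₁ ≠ 0 :=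
    mul_ne_zero (mul_ne_zero (mul_ne_zero (mul_ne_zero h2 (pow_ne_zero _ hQ))
      (pow_ne_zero _ hQ1)) hG) hG1
  have n3 : Q ^ 2 * Q₁ ^ 2 ≠ 0 := mul_ne_zero (pow_ne_zero _ hQ) (pow_ne_zero _ hQ1)
  rw [div_pow, div_pow, div_mul_div_comm, div_eq_div_iff (mul_ne_zero n1 (pow_ne_zero _ n2))
    (pow_ne_zero _ n3)]
  linear_combination (Q ^ 2 * Q₁ ^ 2) ^ 2 * h

/-- the second equation -/
theorem eq2 {E : Type} [Field E] (P Q G W P₁ Q₁ G₁ W₁ P₂ Q₂ c a2 a4 : E) (hQ : Q ≠ 0)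
    (hG : G ≠ 0) (hQ1 : Q₁ ≠ 0) (hG1 : G₁ ≠ 0) (hQ2 : Q₂ ≠ 0) (h2 : (2 : E) ≠ 0)
    (h : c ^ 2 * (P * Q₁ * Q₂ + P₁ * Q * Q₂ + P₂ * Q * Q₁ + a2 * Q * Q₁ * Q₂) *
        (W * Q₁ ^ 2 * G₁ + W₁ * Q ^ 2 * G) ^ 2 =
      4 * Q * Q₁ * Q₂ * G ^ 2 * G₁ ^ 2 * (P ^ 2 * Q₁ ^ 2 + P * P₁ * Q * Q₁ + P₁ ^ 2 * Q ^ 2 +
        a2 * Q * Q₁ * (P * Q₁ + P₁ * Q) + a4 * Q ^ 2 * Q₁ ^ 2) ^ 2) :
    (P / Q + P₁ / Q₁ + P₂ / Q₂ + a2) *
        (W * c / (2 * Q ^ 2 * G) + W₁ * c / (2 * Q₁ ^ 2 * G₁)) ^ 2 =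
      ((P / Q) ^ 2 + P / Q * (P₁ / Q₁) + (P₁ / Q₁) ^ 2 + a2 * (P / Q + P₁ / Q₁) + a4) ^ 2 := by
  have s1 : P / Q + P₁ / Q₁ + P₂ / Q₂ + a2 =
      (P * Q₁ * Q₂ + P₁ * Q * Q₂ + P₂ * Q * Q₁ + a2 * Q * Q₁ * Q₂) / (Q * Q₁ * Q₂) := by
    field_simp
  have s2 : W * c / (2 * Q ^ 2 * G) + W₁ * c / (2 * Q₁ ^ 2 * G₁) =
      c * (W * Q₁ ^ 2 * G₁ + W₁ * Q ^ 2 * G) / (2 * Q ^ 2 * Q₁ ^ 2 * G * G₁) := by
    field_simp
  have s3 : (P / Q) ^ 2 + P / Q * (P₁ / Q₁) + (P₁ / Q₁) ^ 2 + a2 * (P / Q + P₁ / Q₁) + a4 =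
      (P ^ 2 * Q₁ ^ 2 + P * P₁ * Q * Q₁ + P₁ ^ 2 * Q ^ 2 +
        a2 * Q * Q₁ * (P * Q₁ + P₁ * Q) + a4 * Q ^ 2 * Q₁ ^ 2) / (Q ^ 2 * Q₁ ^ 2) := by
    field_simp
  rw [s1, s2, s3]
  exact fin Q Q₁ Q₂ G G₁ c _ _ _ hQ hQ1 hQ2 hG hG1 h2 h

end GPP

theorem tv_GPP (h1 : Sv_RSC) (h2 : Sv_GVP) : Sv_GPP := by
  intro O _ _ _ h3ne h3u h2ne ω hω a2 a4 h3a ha4 P Q G c hc W₀ hQ hP hW hW0 heq P₁ Q₁ G₁ W₁ P₂ Q₂
    e1 e2 e3 e4 e5 e6 hcol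
  obtain ⟨v, D, al, d, hv1, hvu, hvn, hvd, hvD, hD, hal, hald, hd⟩ := h1 O ω hω h3ne
  by_cases hG : G = 0
  · rw [hG, zero_pow (by norm_num)]
    exact dvd_zero _
  have inj : Function.Injective (algebraMap (PowerSeries O) (FractionRing (PowerSeries O))) :=
    IsFractionRing.injective _ _
  obtain ⟨ι, hι⟩ : ∃ ι : PowerSeries O →+* FractionRing (PowerSeries O),
    ι = algebraMap (PowerSeries O) (FractionRing (PowerSeries O)) := ⟨_, rfl⟩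
  rw [← hι] at inj
  simp only [← hι] at hv1 hvu hvn hvd hD hal hd
  obtain ⟨φ, hφ⟩ : ∃ φ : O →+* FractionRing (PowerSeries O),
    ∀ a, φ a = ι (PowerSeries.C a) := ⟨ι.comp (PowerSeries.C (R := O)), fun _ => rfl⟩
  have hφinj : Function.Injective φ := by
    intro a b hab
    rw [hφ, hφ] at hab
    exact PowerSeries.C_injective (inj hab)
  obtain ⟨th, hth⟩ : ∃ th : PowerSeries O → PowerSeries O,
    ∀ f, th f = PowerSeries.mk fun n => (n : O) * PowerSeries.coeff n f := ⟨_, fun _ => rfl⟩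
  have hDι : ∀ f, D (ι f) = ι (th f) := by
    intro f
    rw [hD, hth]
  have halC : ∀ a : O, al (φ a) = φ a := by
    intro a
    rw [hφ, hal, GPP.rescale_C']
  rw [← hth, ← hth] at hW0
  have aP : al (ι P) = ι P₁ := by rw [hal, e1]
  have aQ : al (ι Q) = ι Q₁ := by rw [hal, e2]
  have aG : al (ι G) = ι G₁ := by rw [hal, e3]
  have aW : al (ι W₀) = ι W₁ := by rw [hal, e4]
  have aP1 : al (ι P₁) = ι P₂ := by
    rw [hal, e1, e5, PowerSeries.rescale_rescale, pow_two]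
  have aQ1 : al (ι Q₁) = ι Q₂ := by
    rw [hal, e2, e6, PowerSeries.rescale_rescale, pow_two]
  have hQ' : ι Q ≠ 0 := fun h => hQ (inj (by rw [h, map_zero]))
  have hP' : ι P ≠ 0 := fun h => hP (inj (by rw [h, map_zero]))
  have hG' : ι G ≠ 0 := fun h => hG (inj (by rw [h, map_zero]))
  have hW' : ι W₀ ≠ 0 := fun h => hW (inj (by rw [h, map_zero]))
  have hc' : φ c ≠ 0 := fun h => hc (hφinj (by rw [h, map_zero]))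
  have alne : ∀ x, x ≠ 0 → al x ≠ 0 := fun x hx h => hx (al.injective (by rw [h, map_zero]))
  have hQ1' : ι Q₁ ≠ 0 := by
    rw [← aQ]
    exact alne _ hQ'
  have hQ2' : ι Q₂ ≠ 0 := by
    rw [← aQ1]
    exact alne _ hQ1'
  have hG1' : ι G₁ ≠ 0 := by
    rw [← aG]
    exact alne _ hG'
  have h2' : (2 : FractionRing (PowerSeries O)) ≠ 0 := by
    intro h
    apply h2ne
    apply hφinj
    rw [map_ofNat, map_zero]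
    exact h
  have hφ3 : φ 3 = 3 := map_ofNat φ 3
  have h3' : (3 : FractionRing (PowerSeries O)) ≠ 0 := by
    intro h
    apply h3ne
    apply hφinj
    rw [hφ3, map_zero]
    exact h
  have heq' : φ c ^ 2 * ι W₀ ^ 2 = ι Q * (4 * ι P ^ 3 + 4 * φ a2 * ι P ^ 2 * ι Q +
      4 * φ a4 * ι P * ι Q ^ 2) * ι G ^ 2 := by
    have h3 := congrArg ι heq
    simp only [map_mul, map_pow, map_add, map_ofNat, ← hφ] at h3
    exact h3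
  have hcol' : φ c ^ 2 * (ι P * ι Q₁ * ι Q₂ + ι P₁ * ι Q * ι Q₂ + ι P₂ * ι Q * ι Q₁ +
        φ a2 * ι Q * ι Q₁ * ι Q₂) * (ι W₀ * ι Q₁ ^ 2 * ι G₁ + ι W₁ * ι Q ^ 2 * ι G) ^ 2 =
      4 * ι Q * ι Q₁ * ι Q₂ * ι G ^ 2 * ι G₁ ^ 2 * (ι P ^ 2 * ι Q₁ ^ 2 +
        ι P * ι P₁ * ι Q * ι Q₁ + ι P₁ ^ 2 * ι Q ^ 2 +
        φ a2 * ι Q * ι Q₁ * (ι P * ι Q₁ + ι P₁ * ι Q) + φ a4 * ι Q ^ 2 * ι Q₁ ^ 2) ^ 2 := by
    have h3 := congrArg ι hcol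
    simp only [map_mul, map_pow, map_add, map_ofNat, ← hφ] at h3
    exact h3
  have hDX : D (ι P / ι Q) = ι W₀ / ι Q ^ 2 := by
    have f1 : ι P = ι Q * (ι P / ι Q) := by
      field_simp
    have f2 := D.leibniz (ι Q) (ι P / ι Q)
    rw [← f1, hDι, hDι] at f2
    simp only [smul_eq_mul] at f2
    have f3 : D (ι P / ι Q) = (ι (th P) - ι P / ι Q * ι (th Q)) / ι Q := by
      rw [eq_div_iff hQ', f2]
      ring
    rw [f3, hW0, map_sub, map_mul, map_mul]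
    field_simp
  obtain ⟨X, hX⟩ : ∃ X, X = ι P / ι Q := ⟨_, rfl⟩
  obtain ⟨g, hg⟩ : ∃ g, g = ι G / φ c := ⟨_, rfl⟩
  obtain ⟨Y, hY⟩ : ∃ Y, Y = ι W₀ * φ c / (2 * ι Q ^ 2 * ι G) := ⟨_, rfl⟩
  have hY0 : Y ≠ 0 := by
    rw [hY]
    exact div_ne_zero (mul_ne_zero hW' hc')
      (mul_ne_zero (mul_ne_zero h2' (pow_ne_zero _ hQ')) hG')
  have hX0 : X ≠ 0 := by
    rw [hX]
    exact div_ne_zero hP' hQ'
  have hDg : D X = 2 * Y * g := by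
    rw [hX, hDX, hY, hg]
    field_simp
  have alX : al X = ι P₁ / ι Q₁ := by
    rw [hX, map_div₀, aP, aQ]
  have alX2 : al (al X) = ι P₂ / ι Q₂ := by
    rw [alX, map_div₀, aP1, aQ1]
  have alY : al Y = ι W₁ * φ c / (2 * ι Q₁ ^ 2 * ι G₁) := by
    rw [hY, map_div₀, map_mul, map_mul, map_mul, map_pow, map_ofNat, aW, aQ, aG, halC]
  have hE : Y ^ 2 = X ^ 3 + φ a2 * X ^ 2 + φ a4 * X := by
    rw [hX, hY]
    exact GPP.eq1 _ _ _ _ _ _ _ hQ' hG' h2' heq'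
  have hC : (X + al X + al (al X) + φ a2) * (Y + al Y) ^ 2 =
      (X ^ 2 + X * al X + al X ^ 2 + φ a2 * (X + al X) + φ a4) ^ 2 := by
    rw [alX2, alX, alY, hX, hY]
    exact GPP.eq2 _ _ _ _ _ _ _ _ _ _ _ _ _ hQ' hG' hQ1' hG1' hQ2' h2' hcol'
  have hvφ : ∀ a, v (φ a) ≤ 1 := fun a => by
    rw [hφ]
    exact hv1 _
  have hv3 : v (3 : FractionRing (PowerSeries O)) < 1 := by
    rw [← hφ3, hφ]
    exact hvn _ h3u
  have hva2 : v (φ a2) ^ 2 ≤ v (3 : FractionRing (PowerSeries O)) := by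
    obtain ⟨b, hb⟩ := h3a
    rw [← map_pow, ← map_pow, hb, map_mul, hφ3, map_mul]
    exact mul_le_of_le_one_right' (hvφ b)
  have key : v g ^ 12 ≤ v (3 : FractionRing (PowerSeries O)) := by
    refine h2 (FractionRing (PowerSeries O)) (WithZero (Multiplicative ℤ)) v (fun x => D x) al d
      hv3 ((v.ne_zero_iff).mpr h3') ?_ hvD hald (φ a2) (φ a4) X Y g hva2 ?_ hE hDg hY0 hX0 hC
    · rw [hd, ← hφ, hφ3]
    · rw [hφ]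
      exact hvu _ ha4
  refine hvd (G ^ 12) (3 * c ^ 12) (mul_ne_zero h3ne (pow_ne_zero _ hc)) ?_
  rw [← hφ]
  have h4 : ι G = g * φ c := by
    rw [hg]
    field_simp
  rw [map_pow, h4, map_mul φ, hφ3, map_pow φ, mul_pow, map_mul v, map_mul v, map_pow v]
  exact mul_le_mul_left key _

end

end Pool.Agent.NSGR
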