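import Pool.Agent.NS.G_Gdn
import Pool.Agent.NS.G_Leg
import Pool.Agent.NS.G_Gth
import Pool.Agent.NS.G_Unn
import Pool.Agent.MUX.HX_HZ

/-!
# NS, block GN (helper6): Theorem G for `PT (PhiK R e kk / (u om))`
-/

set_option autoImplicit false

namespace Pool.Agent.NSG

open _root_.MU3 Pool.Agent.MU3A Pool.Agent.MU3B Pool.Agent.MU3Q Pool.Agent.MUX Pool.Agent.MuSym
  Pool.Agent.MUXN Pool.Agent.NS OnePoint UpperHalfPlane

noncomputable section

/-- Theorem G for `P_t`, `P = PhiK R e kk / (u om_(i0))` -/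
def Sn_GPT : Prop :=
  ∀ (A B : ℤ) (V : ValuationSubring ℂ) (f : ℕ), SetN A B V f → TorX A B →
    ∀ (ι : Type) [Fintype ι] (R : Reps A B (3 * f) ι) (u el lam : ℂ),
    GoodN V (R.L R.i0) u el lam → ∀ e : OO A B → ℂ, IsEI (idl (A := A) (B := B) (3 * f)) e →
    ∀ r : ℕ, r ≠ 0 → (∀ x, e x ≠ 0 → e x ^ r = 1) → ∀ kk : ι → ℂ, V.valuation (kk R.i0) = 1 →
    ∀ N' : ℕ, N' ≠ 0 → absD A B * ((3 * f : ℕ) : ℤ) ^ 2 ∣ (N' : ℤ) →
    ∃ a b c d : ℤ, a * d - b * c = 1 ∧ (N' : ℤ) ∣ c ∧ (N' : ℤ) ∣ d - 1 ∧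
      V.valuation (3 : ℂ) ≤ V.valuation (MUXHN.PT (fun x y => PhiK R e kk x y / (u * R.om R.i0)) ∞
        (mob a b c d ∞)) ^ 18

theorem z27_prim : IsPrimitiveRoot z27 27 := by
  have := Complex.isPrimitiveRoot_exp 27 (by norm_num)
  unfold z27
  exact_mod_cast this

theorem mob_zero (x : OnePoint ℚ) : mob 27 (0 : ℤ) 0 27 x = x := by
  induction x using OnePoint.rec with
  | infty => exact Trl.mob_inf 27 0
  | coe r =>
    rw [Trl.mob_tr]
    simp

theorem sumF (a b : ℂ) (G : Fin 27 → ℂ) :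
    ∑ t, (if t = 0 then a else if t = 1 then b else 0) * G t = a * G 0 + b * G 1 := by
  rw [Fin.sum_univ_succ, Fin.sum_univ_succ]
  have h1 : ∑ i : Fin 25, (if i.succ.succ = (0 : Fin 27) then a else
      if i.succ.succ = (1 : Fin 27) then b else 0) * G i.succ.succ = 0 := by
    refine Finset.sum_eq_zero fun i _ => ?_
    rw [if_neg (Fin.succ_ne_zero _), if_neg, zero_mul]
    intro h
    have := congrArg Fin.val h
    simp at this
  rw [h1, add_zero]
  rfl

theorem gPT (hS : MUXU.Su_SCX) (hG : Sn_GTH) (h2 : MUXT.Xs_FTI)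
    (h3 : MUXF.Sx_CHI) (h4 : MUXY.Sy_CON) (h5 : MUXY.Sy_ALP)
    (h7 : MUXY.Sy_FEC) (h8 : MUXY.Sy_COP) (hA : MUXF.Sx_ALG) (hI : MUXF.Sx_IDL)
    (hN : MUXF.Sx_NIM) (hQB : MUXF.Sx_QB)
    (hBD : MUXF.Sx_BDD) (hTS : MUXF.Sx_TSM) : Sn_GPT := by
  classical
  intro A B V f hSN hT ι _ R u el lam hg e he r hr her kk hkk N' hN' hNd
  have hc : CQ A B := hSN.case.toCQ
  obtain ⟨u1, u2⟩ := unit_I hI hN A B hSN.case
  have hv3 : V.valuation (3 : ℂ) < 1 := v3 hSN.hV
  have hv2 : V.valuation (2 : ℂ) = 1 := by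
    have := vN V hv3 2 (by norm_num)
    exact_mod_cast this
  obtain ⟨L', hL'⟩ := legN hS hc hT R hv3 hg
  have hn : 2 ≤ 3 * f := by
    have := Nat.pos_of_ne_zero hSN.f0
    omega
  have hD := gdat h2 h3 h4 h5 h7 h8 hA hI hQB hBD hTS hc u1 u2 hT hn R e he r hr her u hg.u0
    (leg_alg hc hT (R.nl R.i0) hg).1 N' hN' hNd
  have hfE : Finite (EC e) := (h7 A B e r hr her).1
  have hFt : Fintype (EC e) := Fintype.ofFinite _
  have heE : e ∈ EC e := ⟨RingEquiv.refl ℂ, rfl⟩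
  have hz1 : (1 : ℂ) - z27 ≠ 0 := by
    intro h0
    have h1 : z27 = 1 := by linear_combination -h0
    have h2 := z27_prim.ne_one (by norm_num)
    exact h2 h1
  set w : ι × EC e × Fin 27 → ℂ := fun j => if j.2.1 = ⟨e, heE⟩ then
    (if j.2.2 = 0 then kk j.1 / (1 - z27) else if j.2.2 = 1 then -(kk j.1 / (1 - z27)) else 0)
    else 0 with hw
  have hsum : ∀ F : ι × EC e × Fin 27 → ℂ, ∑ j, w j * F j =
      ∑ i, (kk i / (1 - z27) * F (i, ⟨e, heE⟩, 0) + -(kk i / (1 - z27)) * F (i, ⟨e, heE⟩, 1)) := by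
    intro F
    rw [Fintype.sum_prod_type]
    refine Finset.sum_congr rfl fun i _ => ?_
    rw [Fintype.sum_prod_type, Finset.sum_eq_single (⟨e, heE⟩ : EC e)]
    · refine Eq.trans ?_ (sumF (kk i / (1 - z27)) (-(kk i / (1 - z27)))
        (fun t => F (i, ⟨e, heE⟩, t)))
      refine Finset.sum_congr rfl fun t _ => ?_
      rw [hw]
      beta_reduce
      rw [if_pos rfl]
    · intro e' _ he'
      refine Finset.sum_eq_zero fun t _ => ?_
      rw [hw]
      beta_reduce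
      rw [if_neg he', zero_mul]
    · intro h
      exact absurd (Finset.mem_univ _) h
  have hα : ∑ j, w j * a1T R e j = kk R.i0 := by
    rw [hsum, Finset.sum_eq_single R.i0]
    · unfold a1T
      rw [if_pos rfl, if_pos rfl]
      have e0 : ((0 : Fin 27) : ℕ) = 0 := rfl
      have e1 : ((1 : Fin 27) : ℕ) = 1 := rfl
      rw [e0, e1]
      field_simp
      ring
    · intro i _ hi
      unfold a1T
      rw [if_neg hi, if_neg hi]
      ring
    · intro h
      exact absurd (Finset.mem_univ _) h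
  obtain ⟨a, b, c, d, k1, k2, k3, k4⟩ := hG A B hc (ι × EC e × Fin 27) (PsT R e) (ThT R e)
    (a1T R e) (u * R.om R.i0) (729 * N') hD V 3 Nat.prime_three
    (by
      rw [ValuationSubring.mem_nonunits_iff]
      exact_mod_cast hv3) hv2 (loc_I A B hc V hSN.hV) L' (el / u ^ 2) lam hL' w (by
      rw [hα, ValuationSubring.mem_nonunits_iff, hkk]
      exact lt_irrefl _)
  have hcast : ((729 * N' : ℕ) : ℤ) = 729 * (N' : ℤ) := by push_cast; ring
  rw [hcast] at k2 k3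
  refine ⟨a, b, c, d, k1, dvd_trans (Dvd.intro_left _ rfl) k2, dvd_trans (Dvd.intro_left _ rfl) k3,
    ?_⟩
  rw [ValuationSubring.mem_nonunits_iff, not_lt, hsum] at k4
  have e2 : (∑ i, (kk i / (1 - z27) * PsT R e (i, ⟨e, heE⟩, 0) ∞ (mob a b c d ∞) +
      -(kk i / (1 - z27)) * PsT R e (i, ⟨e, heE⟩, 1) ∞ (mob a b c d ∞))) / (u * R.om R.i0) =
      MUXHN.PT (fun x y => PhiK R e kk x y / (u * R.om R.i0)) ∞ (mob a b c d ∞) / (1 - z27) := by
    have e3 : MUXHN.PT (fun x y => PhiK R e kk x y / (u * R.om R.i0)) ∞ (mob a b c d ∞) =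
        (∑ i, (kk i * PhiI (R.b i) e ∞ (mob a b c d ∞) -
          kk i * PhiI (R.b i) e (mob 27 1 0 27 ∞) (mob 27 1 0 27 (mob a b c d ∞)))) /
          (u * R.om R.i0) := by
      unfold MUXHN.PT PhiK
      rw [← sub_div, ← Finset.sum_sub_distrib]
    rw [e3, div_right_comm _ (u * R.om R.i0)]
    refine congrArg (fun t => t / (u * R.om R.i0)) ?_
    rw [Finset.sum_div]
    refine Finset.sum_congr rfl fun i _ => ?_
    have e0 : PsT R e (i, ⟨e, heE⟩, 0) ∞ (mob a b c d ∞) = PhiI (R.b i) e ∞ (mob a b c d ∞) := by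
      have f1 : (((0 : Fin 27) : ℕ) : ℤ) = 0 := rfl
      unfold PsT
      dsimp only
      rw [f1, mob_zero, mob_zero]
    have e1 : PsT R e (i, ⟨e, heE⟩, 1) ∞ (mob a b c d ∞) =
        PhiI (R.b i) e (mob 27 1 0 27 ∞) (mob 27 1 0 27 (mob a b c d ∞)) := by
      have f1 : (((1 : Fin 27) : ℕ) : ℤ) = 1 := rfl
      unfold PsT
      dsimp only
      rw [f1]
    rw [e0, e1]
    ring
  rw [e2, map_div₀] at k4
  have h27 : V.valuation (z27 - 1) ^ 18 = V.valuation (3 : ℂ) := by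
    have := MUXH.Hz.val_p 3 Nat.prime_three V 2 z27 (by
      have : (3 : ℕ) ^ (2 + 1) = 27 := by norm_num
      rw [this]
      exact z27_prim)
    norm_num at this
    exact this
  have hz2 : V.valuation (1 - z27) = V.valuation (z27 - 1) := by
    rw [← neg_sub, Valuation.map_neg]
  have hz3 : (0 : V.ValueGroup) < V.valuation (1 - z27) :=
    zero_lt_iff.2 ((Valuation.ne_zero_iff _).2 hz1)
  rw [← h27, ← hz2]
  have k5 : V.valuation (1 - z27) ≤
      V.valuation (MUXHN.PT (fun x y => PhiK R e kk x y / (u * R.om R.i0)) ∞ (mob a b c d ∞)) := by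
    have := (le_div_iff₀ hz3).1 k4
    rw [one_mul] at this
    exact this
  exact pow_le_pow_left₀ zero_le k5 18

end

end Pool.Agent.NSG
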