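import Pool.Agent.NS.StGR
import Pool.Agent.NS.G_Gpt

/-!
# NS, block GR, module GPR (helper31): Theorem G+ for `PT (PhiK R e kk / (u om))`

The proof follows `gPT` (`Pool/Agent/NS/G_Gpt.lean`, helper6).
-/

set_option autoImplicit false

namespace Pool.Agent.NSGR

open _root_.MU3 Pool.Agent.MU3A Pool.Agent.MU3B Pool.Agent.MU3Q Pool.Agent.MUX Pool.Agent.NS
  Pool.Agent.NSRD Pool.Agent.NSG Pool.Agent.MUXN Pool.Agent.MuSym OnePoint UpperHalfPlane
open Pool.Agent.MUXF (qb)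
open scoped MatrixGroups

noncomputable section

/-- `v 3 < 1` -/
theorem GPR.v3 {A B : ℤ} {P : Ideal (OO A B)} {V : ValuationSubring ℂ} (hP : IsPN 3 P)
    (hV : OverI V P) : V.valuation (3 : ℂ) < 1 := by
  have h1 := (hV ((3 : ℕ) : OO A B)).2 hP.mem
  rw [ValuationSubring.mem_nonunits_iff] at h1
  have h2 : emb ((3 : ℕ) : OO A B) = (3 : ℂ) := by
    unfold emb
    rw [QuadraticAlgebra.re_natCast, QuadraticAlgebra.im_natCast]
    norm_num
  rw [h2] at h1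
  exact h1

/-- `1 + ζ^t + ζ^(2t) = 0` -/
theorem GPR.exp3 (t : ℤ) (ht : ¬ (3 : ℤ) ∣ t) :
    1 + Complex.exp (2 * Real.pi * Complex.I * (t * (1 : ℤ) / 3)) +
      Complex.exp (2 * Real.pi * Complex.I * (t * (2 : ℤ) / 3)) = 0 := by
  set x : ℂ := Complex.exp (2 * Real.pi * Complex.I * (t * (1 : ℤ) / 3)) with hx
  have h2 : Complex.exp (2 * Real.pi * Complex.I * (t * (2 : ℤ) / 3)) = x ^ 2 := by
    rw [hx, ← Complex.exp_nat_mul]
    congr 1
    push_cast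
    ring
  have h3 : x ^ 3 = 1 := by
    rw [hx, ← Complex.exp_nat_mul]
    have : ((3 : ℕ) : ℂ) * (2 * Real.pi * Complex.I * (t * (1 : ℤ) / 3)) =
        t * (2 * Real.pi * Complex.I) := by
      push_cast
      ring
    rw [this, Complex.exp_int_mul_two_pi_mul_I]
  have h1 : x ≠ 1 := by
    intro h
    rw [hx, Complex.exp_eq_one_iff] at h
    obtain ⟨n, hn⟩ := h
    have hpi : (2 * Real.pi * Complex.I : ℂ) ≠ 0 := Complex.two_pi_I_ne_zero
    have h5 : (t * (1 : ℤ) / 3 : ℂ) = n := by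
      have := hn.trans (mul_comm _ _)
      exact mul_left_cancel₀ hpi this
    have h6 : (t : ℂ) = 3 * n := by
      have : (t * (1 : ℤ) / 3 : ℂ) * 3 = n * 3 := by rw [h5]
      push_cast at this
      rw [mul_one, div_mul_cancel₀ _ (by norm_num : (3 : ℂ) ≠ 0)] at this
      rw [this]
      ring
    exact ht ⟨n, by exact_mod_cast h6⟩
  rw [h2]
  have h4 : (x - 1) * (1 + x + x ^ 2) = 0 := by
    linear_combination h3
  rcases mul_eq_zero.1 h4 with h | h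
  · exact absurd (sub_eq_zero.1 h) h1
  · exact h

/-- the primitives are depleted -/
theorem GPR.dep (h2 : Sv_QB3) (h3 : Sv_SH3) {A B : ℤ} {P : Ideal (OO A B)}
    {V : ValuationSubring ℂ} {f : ℕ} (hSR : SetR A B P V f) {ι : Type}
    (R : Reps A B (3 * f) ι) (e : OO A B → ℂ) (he : IsEI (idl (A := A) (B := B) (3 * f)) e)
    (j : ι × EC e × Fin 27) (τ : ℂ) (hτ : 0 < τ.im) :
    ThT R e j τ + ThT R e j (τ + 1 / 3) + ThT R e j (τ + 2 / 3) = 0 := by
  obtain ⟨i, ⟨e', he'⟩, s⟩ := j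
  have heI : IsEI (idl (A := A) (B := B) (3 * f)) e' := by
    obtain ⟨σ, rfl⟩ := he'
    exact Gdt.ei_conj he σ
  have hf : 3 * f ≠ 0 := by
    have := hSR.f0
    omega
  have hg : idl (A := A) (B := B) (3 * f) ≠ ⊥ := by
    intro h
    have hpf : ((3 * f : ℕ) : OO A B) ∈ idl (A := A) (B := B) (3 * f) :=
      Ideal.mem_span_singleton_self _
    rw [h, Ideal.mem_bot] at hpf
    exact Gdt.nat_ne _ hf hpf
  have hb : R.b i ≠ ⊥ := (R.nl i).b_ne
  have hcop : (MUX.nI (R.b i)).Coprime (3 * f) := R.cop i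
  have ht : ¬ (3 : ℤ) ∣ ((MUX.nI (R.b i) : ℕ) : ℤ) := by
    intro h
    have h1 : 3 ∣ MUX.nI (R.b i) := by exact_mod_cast h
    have h4 : 3 ∣ Nat.gcd (MUX.nI (R.b i)) (3 * f) := Nat.dvd_gcd h1 (Dvd.intro _ rfl)
    rw [Nat.Coprime.gcd_eq_one hcop] at h4
    omega
  have hS := (h3 A B hSR.case.toCQ (R.b i) (idl (A := A) (B := B) (3 * f)) e' hb hg heI
    ((MUX.nI (R.b i) : ℕ) : ℤ) (fun x hx hx0 =>
      (h2 A B P V f hSR e' heI (R.b i) hb hcop x hx hx0).2.1)).2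
  have him : 0 < (τ + (((s : ℕ) : ℤ) : ℂ) / 27).im := by
    have : ((((s : ℕ) : ℤ) : ℂ) / 27).im = 0 := by
      have : ((((s : ℕ) : ℤ) : ℂ) / 27) = (((s : ℕ) / 27 : ℝ) : ℂ) := by push_cast; ring
      rw [this]
      exact Complex.ofReal_im _
    rw [Complex.add_im, this, add_zero]
    exact hτ
  have k1 := hS _ him 1
  have k2 := hS _ him 2
  have e1 : τ + 1 / 3 + (((s : ℕ) : ℤ) : ℂ) / 27 =
      τ + (((s : ℕ) : ℤ) : ℂ) / 27 + ((1 : ℤ) : ℂ) / 3 := by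
    push_cast
    ring
  have e2 : τ + 2 / 3 + (((s : ℕ) : ℤ) : ℂ) / 27 =
      τ + (((s : ℕ) : ℤ) : ℂ) / 27 + ((2 : ℤ) : ℂ) / 3 := by
    push_cast
    ring
  show thetaIntI (R.b i) e' (τ + (((s : ℕ) : ℤ) : ℂ) / 27) +
    thetaIntI (R.b i) e' (τ + 1 / 3 + (((s : ℕ) : ℤ) : ℂ) / 27) +
    thetaIntI (R.b i) e' (τ + 2 / 3 + (((s : ℕ) : ℤ) : ℂ) / 27) = 0
  rw [e1, e2, k1, k2]
  have h5 := GPR.exp3 _ ht
  linear_combination (thetaIntI (R.b i) e' (τ + (((s : ℕ) : ℤ) : ℂ) / 27)) * h5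

theorem tv_GPR (h1 : Sv_GTP) (h2 : Sv_QB3) (h3 : Sv_SH3) (h4 : Sv_UNR) (h5 : Sv_LCR)
    (h6 : Sv_LGR) (g2 : MUXT.Xs_FTI) (g3 : MUXF.Sx_CHI) (g4 : MUXY.Sy_CON) (g5 : MUXY.Sy_ALP)
    (g7 : MUXY.Sy_FEC) (g8 : MUXY.Sy_COP) (gA : MUXF.Sx_ALG) (gI : MUXF.Sx_IDL)
    (gQ : MUXF.Sx_QB) (gB : MUXF.Sx_BDD) (gT : MUXF.Sx_TSM) : Sv_GPR := by
  classical
  intro A B P V f hSR hT ι _ R u el lam hg e he r hr her kk hkk N' hN' hNd
  have hc : CQ A B := hSR.case.toCQ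
  obtain ⟨u1, u2⟩ := h4 A B hSR.case
  have hv3 : V.valuation (3 : ℂ) < 1 := GPR.v3 hSR.hP hSR.hV
  obtain ⟨⟨hua, -, -⟩, L', hL'⟩ := h6 A B hc hT (3 * f) ι R V hv3 u el lam hg
  have hn : 2 ≤ 3 * f := by
    have := Nat.pos_of_ne_zero hSR.f0
    omega
  have hD := gdat g2 g3 g4 g5 g7 g8 gA gI gQ gB gT hc u1 u2 hT hn R e he r hr her u hg.u0
    hua N' hN' hNd
  have hfE : Finite (EC e) := (g7 A B e r hr her).1
  have hFt : Fintype (EC e) := Fintype.ofFinite _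
  have heE : e ∈ EC e := ⟨RingEquiv.refl ℂ, rfl⟩
  set w : ι × EC e × Fin 27 → ℂ := fun j => if j.2.1 = ⟨e, heE⟩ then
    (if j.2.2 = 0 then kk j.1 else if j.2.2 = 1 then -(kk j.1) else 0) else 0 with hw
  have hsum : ∀ F : ι × EC e × Fin 27 → ℂ, ∑ j, w j * F j =
      ∑ i, (kk i * F (i, ⟨e, heE⟩, 0) + -(kk i) * F (i, ⟨e, heE⟩, 1)) := by
    intro F
    rw [Fintype.sum_prod_type]
    refine Finset.sum_congr rfl fun i _ => ?_
    rw [Fintype.sum_prod_type, Finset.sum_eq_single (⟨e, heE⟩ : EC e)]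
    · refine Eq.trans ?_ (sumF (kk i) (-(kk i)) (fun t => F (i, ⟨e, heE⟩, t)))
      refine Finset.sum_congr rfl fun t _ => ?_
      rw [hw]
      beta_reduce
      rw [if_pos rfl]
    · intro e' _ he'
      refine Finset.sum_eq_zero fun t _ => ?_
      rw [hw]
      beta_reduce
      rw [if_neg he', zero_mul]
    · intro h
      exact absurd (Finset.mem_univ _) h
  have hα : ∑ j, w j * a1T R e j = kk R.i0 * (1 - z27) := by
    rw [hsum, Finset.sum_eq_single R.i0]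
    · unfold a1T
      rw [if_pos rfl, if_pos rfl]
      have e0 : ((0 : Fin 27) : ℕ) = 0 := rfl
      have e1 : ((1 : Fin 27) : ℕ) = 1 := rfl
      rw [e0, e1]
      ring
    · intro i _ hi
      unfold a1T
      rw [if_neg hi, if_neg hi]
      ring
    · intro h
      exact absurd (Finset.mem_univ _) h
  have h27 : V.valuation (z27 - 1) ^ 18 = V.valuation (3 : ℂ) := by
    have := MUXH.Hz.val_p 3 Nat.prime_three V 2 z27 (by
      have : (3 : ℕ) ^ (2 + 1) = 27 := by norm_num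
      rw [this]
      exact z27_prim)
    norm_num at this
    exact this
  have hz2 : V.valuation (1 - z27) = V.valuation (z27 - 1) := by
    rw [← neg_sub, Valuation.map_neg]
  have hv30 : V.valuation (3 : ℂ) ≠ 0 := (Valuation.ne_zero_iff _).2 (by norm_num)
  have hz0 : V.valuation (z27 - 1) ≠ 0 := by
    intro h0
    rw [h0, zero_pow (by norm_num)] at h27
    exact hv30 h27.symm
  have hz1 : V.valuation (z27 - 1) < 1 := by
    by_contra h0
    rw [not_lt] at h0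
    have := one_le_pow₀ h0 (n := 18)
    rw [h27] at this
    exact absurd this (not_le.2 hv3)
  have hkey : V.valuation (3 : ℂ) < V.valuation (∑ j, w j * a1T R e j) ^ 12 := by
    rw [hα, map_mul, hkk, one_mul, hz2, ← h27]
    exact pow_lt_pow_right_of_lt_one₀ (zero_lt_iff.2 hz0) hz1 (by norm_num)
  obtain ⟨a, b, c, d, k1, k2, k3, k4⟩ := h1 A B hc (ι × EC e × Fin 27) (PsT R e) (ThT R e)
    (a1T R e) (u * R.om R.i0) (729 * N') hD (fun j τ hτ => GPR.dep h2 h3 hSR R e he j τ hτ) V hv3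
    (h5 A B hc P hSR.hP V hSR.hV) L' (el / u ^ 2) lam hL' hg.lam1 w hkey
  have hcast : ((729 * N' : ℕ) : ℤ) = 729 * (N' : ℤ) := by push_cast; ring
  rw [hcast] at k2 k3
  refine ⟨a, b, c, d, k1, dvd_trans (Dvd.intro_left _ rfl) k2, dvd_trans (Dvd.intro_left _ rfl) k3,
    ?_⟩
  rw [hsum] at k4
  have e2 : (∑ i, (kk i * PsT R e (i, ⟨e, heE⟩, 0) ∞ (mob a b c d ∞) +
      -(kk i) * PsT R e (i, ⟨e, heE⟩, 1) ∞ (mob a b c d ∞))) / (u * R.om R.i0) =
      MUXHN.PT (fun x y => PhiK R e kk x y / (u * R.om R.i0)) ∞ (mob a b c d ∞) := by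
    unfold MUXHN.PT PhiK
    rw [← sub_div, ← Finset.sum_sub_distrib]
    refine congrArg (fun t => t / (u * R.om R.i0)) ?_
    refine Finset.sum_congr rfl fun i _ => ?_
    have e0 : PsT R e (i, ⟨e, heE⟩, 0) ∞ (mob a b c d ∞) = PhiI (R.b i) e ∞ (mob a b c d ∞) := by
      have f1 : (((0 : Fin 27) : ℕ) : ℤ) = 0 := rfl
      unfold PsT
      dsimp only
      rw [f1, mob_zero, mob_zero]
    have e1 : PsT R e (i, ⟨e, heE⟩, 1) ∞ (mob a b c d ∞) =
        PhiI (R.b i) e (mob 27 1 0 27 ∞) (mob 27 1 0 27 (mob a b c d ∞)) := by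
      have f1 : (((1 : Fin 27) : ℕ) : ℤ) = 1 := rfl
      unfold PsT
      dsimp only
      rw [f1]
    rw [e0, e1]
    ring
  rw [e2] at k4
  exact k4

end

end Pool.Agent.NSGR
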