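import Pool.Agent.NS.StGR
import Pool.Agent.MUX.HN_H1N

/-!
# MUX-NS, block GR, module GQR: Theorem G+ for the symbol `PR` (model `Pool/Agent/MUX/HN_H1N.lean`)
-/

set_option autoImplicit false

namespace Pool.Agent.NSGR

open _root_.MU3 Pool.Agent.MU3A Pool.Agent.MU3B Pool.Agent.MU3Q Pool.Agent.MUX Pool.Agent.NS
  Pool.Agent.NSRD Pool.Agent.NSG Pool.Agent.MUXN Pool.Agent.MuSym OnePoint UpperHalfPlane
open Pool.Agent.MUXF (qb)
open scoped MatrixGroups

noncomputable section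

namespace GQR

theorem nI_top {A B : ℤ} : MUX.nI (⊤ : Ideal (OO A B)) = 1 := by
  unfold MUX.nI
  have : Subsingleton (OO A B ⧸ (⊤ : Ideal (OO A B))) := Ideal.Quotient.subsingleton_iff.2 rfl
  exact Nat.card_of_subsingleton 0

theorem kkp_i0 {A B : ℤ} {n : ℕ} {ι : Type} (R : Reps A B n ι) (kk : ι → ℂ) :
    kkp R kk R.i0 = kk R.i0 := by
  unfold kkp
  rw [R.b0, nI_top]
  simp

end GQR

theorem tv_GQR (h1 : Sv_GPR) (h2 : Sv_PJR) : Sv_GQR := by
  intro A B P V f hS hT ι _ R u el lam hG e he r hr her kk hkk N' hN' hdvd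
  by_contra hcon
  push Not at hcon
  obtain ⟨q, c, hq, hc, hprj⟩ := h2 A B P V f hS ι R e he kk u
  obtain ⟨M, hM⟩ : ∃ M : ℕ, M = N' := ⟨_, rfl⟩
  rw [← hM] at hcon hN' hdvd
  obtain ⟨D, hD⟩ : ∃ D : ℤ, D = (q : ℤ) := ⟨_, rfl⟩
  have hD0 : D ≠ 0 := by rw [hD]; exact_mod_cast hq
  obtain ⟨α, β, γ, δ, g1, g2, g3, g4⟩ := h1 A B P V f hS hT ι R u el lam hG e he r hr her
    (kkp R kk) (by rw [GQR.kkp_i0]; exact hkk) (M * q ^ 2) (mul_ne_zero hN' (pow_ne_zero _ hq))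
    (hdvd.trans (by push_cast; exact Dvd.intro _ rfl))
  have hcast : ((M * q ^ 2 : ℕ) : ℤ) = M * D ^ 2 := by
    push_cast
    rw [hD]
  rw [hcast] at g2 g3
  obtain ⟨u', hu⟩ := g2
  obtain ⟨t, ht⟩ := g3
  have hterm : ∀ k ∈ Finset.range q, V.valuation (c k *
      MUXHN.PT (PR R e kk u) (mob q k 0 q ∞) (mob q k 0 q (mob α β γ δ ∞))) ≤ 1 := by
    intro k _
    have e1 : γ = D ^ 2 * (M * u') := by rw [hu]; ring
    have e2 : mob D k 0 D (mob α β γ δ ∞) =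
        mob (α + k * D * (M * u')) (β + k * D * M * (t - (β * u' - α * t)) - k ^ 2 * (M * u'))
          (D ^ 2 * (M * u')) (δ - k * D * (M * u')) ∞ := by
      rw [e1]
      exact MUXH.H1.conj_mob D k α (M * u') hD0 _ _ _ _
    have hδ2 : δ = 1 + M * D ^ 2 * t := by linarith
    have hα2 : α = 1 + M * D ^ 2 * (β * u' - α * t) := by
      have h5 : α = 1 + β * γ - α * (δ - 1) := by linarith
      rw [ht, hu] at h5
      linarith
    rw [← hD, e2, MUXH.H1.mob_inf, map_mul]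
    have h5 := hcon (α + k * D * (M * u'))
      (β + k * D * M * (t - (β * u' - α * t)) - k ^ 2 * (M * u'))
      (D ^ 2 * (M * u')) (δ - k * D * (M * u')) ?_ ?_ ?_
    · exact mul_le_one₀ (hc k) zero_le h5
    · have e3 : δ - α = M * D ^ 2 * (t - (β * u' - α * t)) := by linarith
      have e4 : α * δ - β * (D ^ 2 * (M * u')) = 1 := by rw [← e1]; exact g1
      linear_combination e4 + (k * D * (M * u')) * e3
    · exact Dvd.intro_left (D ^ 2 * u') (by ring)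
    · refine ⟨D ^ 2 * t - k * D * u', ?_⟩
      rw [hδ2]
      ring
  have hsum : V.valuation (∑ k ∈ Finset.range q, c k *
      MUXHN.PT (PR R e kk u) (mob q k 0 q ∞) (mob q k 0 q (mob α β γ δ ∞))) ≤ 1 :=
    V.valuation.map_sum_le hterm
  have hq0 : (q : ℤ) ≠ 0 := by exact_mod_cast hq
  have hPT : MUXHN.PT (fun x y => PhiK R e (kkp R kk) x y / (u * R.om R.i0)) ∞
      (mob α β γ δ ∞) = ∑ k ∈ Finset.range q, c k *
      MUXHN.PT (PR R e kk u) (mob q k 0 q ∞) (mob q k 0 q (mob α β γ δ ∞)) := by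
    unfold MUXHN.PT
    beta_reduce
    rw [← hprj ∞ (mob α β γ δ ∞), ← hprj (mob 27 1 0 27 ∞) (mob 27 1 0 27 (mob α β γ δ ∞)),
      ← Finset.sum_sub_distrib]
    refine Finset.sum_congr rfl fun k _ => ?_
    rw [MUXHN.H1N.mob_comm q k 27 1 hq0 (by norm_num) ∞,
      MUXHN.H1N.mob_comm q k 27 1 hq0 (by norm_num) (mob α β γ δ ∞), mul_sub]
  rw [hPT] at g4
  exact absurd g4 (not_lt.2 hsum)

end

end Pool.Agent.NSGR
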