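import Pool.Agent.NS.StGR

/-!
# MUX-NS, block GR, module GVP (helper43): the abstract estimate of Theorem G+
-/

set_option autoImplicit false

namespace Pool.Agent.NSGR

open _root_.MU3 Pool.Agent.MU3A Pool.Agent.MU3B Pool.Agent.MU3Q Pool.Agent.MUX Pool.Agent.NS
  Pool.Agent.NSRD Pool.Agent.NSG Pool.Agent.MUXN Pool.Agent.MuSym OnePoint UpperHalfPlane
open Pool.Agent.MUXF (qb)
open scoped MatrixGroups

namespace GVP

section

variable {Γ : Type} [LinearOrderedCommGroupWithZero Γ]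

theorem lt1_of_sq {a b : Γ} (h : a ^ 2 ≤ b) (hb : b < 1) : a < 1 := by
  by_contra hcon
  have h1 : 1 ≤ a := not_lt.1 hcon
  exact absurd (lt_of_le_of_lt ((one_le_pow₀ h1).trans h) hb) (lt_irrefl _)

theorem mul_lt_one {a b : Γ} (ha : a < 1) (hb : b ≤ 1) : a * b < 1 := by
  calc a * b ≤ a * 1 := mul_le_mul_right hb a
    _ = a := mul_one a
    _ < 1 := ha

theorem mul_lt_one' {a b : Γ} (ha : a ≤ 1) (hb : b < 1) : a * b < 1 := by
  rw [mul_comm]
  exact mul_lt_one hb ha

end

section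

variable {E Γ : Type} [Field E] [LinearOrderedCommGroupWithZero Γ] (v : Valuation E Γ)

theorem v2 (h3 : v (3 : E) < 1) : v (2 : E) = 1 := by
  have e : (2 : E) = 3 + (-1) := by norm_num
  rw [e, Valuation.map_add_eq_of_lt_right]
  · rw [Valuation.map_neg, Valuation.map_one]
  · rw [Valuation.map_neg, Valuation.map_one]
    exact h3

theorem vadd {x y : E} {b : Γ} (hx : v x ≤ b) (hy : v y ≤ b) : v (x + y) ≤ b :=
  Valuation.map_add_le v hx hy

theorem vadd_lt {x y : E} {b : Γ} (hx : v x < b) (hy : v y < b) : v (x + y) < b :=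
  Valuation.map_add_lt v hx hy

/-- `v(Y + al Y) = v Y` -/
theorem vY (al : E ≃+* E) {d : Γ} (hd : d < 1) (h3 : v (3 : E) < 1)
    (hal : ∀ x, v (al x - x) ≤ d * v x) {Y : E} (hY : Y ≠ 0) : v (Y + al Y) = v Y := by
  have e : Y + al Y = 2 * Y + (al Y - Y) := by ring
  have hvY : 0 < v Y := (Valuation.pos_iff v).2 hY
  rw [e, Valuation.map_add_eq_of_lt_left]
  · rw [map_mul, v2 v h3, one_mul]
  · rw [map_mul, v2 v h3, one_mul]
    refine lt_of_le_of_lt (hal Y) ?_
    calc d * v Y < 1 * v Y := by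
          exact (mul_lt_mul_iff_of_pos_right hvY).2 hd
      _ = v Y := one_mul _

/-- the sum of the three conjugates -/
theorem vS (al : E ≃+* E) {d : Γ} (hd : d < 1) (hd2 : d ^ 2 = v (3 : E))
    (hal : ∀ x, v (al x - x) ≤ d * v x) (X : E) :
    v (X + al X + al (al X)) ≤ v (3 : E) * v X := by
  have e : X + al X + al (al X) =
      (3 * X + 3 * (al X - X)) + (al (al X - X) - (al X - X)) := by
    rw [map_sub]
    ring
  have h1 : v (al X - X) ≤ v X := by
    refine (hal X).trans ?_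
    calc d * v X ≤ 1 * v X := mul_le_mul_left hd.le _
      _ = v X := one_mul _
  rw [e]
  refine vadd v (vadd v ?_ ?_) ?_
  · rw [map_mul]
  · rw [map_mul]
    exact mul_le_mul_right h1 _
  · refine (hal _).trans ?_
    calc d * v (al X - X) ≤ d * (d * v X) := mul_le_mul_right (hal X) _
      _ = d ^ 2 * v X := by rw [pow_two, mul_assoc]
      _ = v (3 : E) * v X := by rw [hd2]

/-- `v N = 1` -/
theorem vN (al : E ≃+* E) {d : Γ} (hd : d < 1) (hd2 : d ^ 2 = v (3 : E))
    (hal : ∀ x, v (al x - x) ≤ d * v x) (a2 a4 X : E) (h4 : v a4 = 1)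
    (h5 : v (3 : E) * v X ^ 2 < 1) (h6 : v a2 * v X < 1) :
    v (X ^ 2 + X * al X + al X ^ 2 + a2 * (X + al X) + a4) = 1 := by
  have h1 : v (al X - X) ≤ v X := by
    refine (hal X).trans ?_
    calc d * v X ≤ 1 * v X := mul_le_mul_left hd.le _
      _ = v X := one_mul _
  have e : X ^ 2 + X * al X + al X ^ 2 + a2 * (X + al X) + a4 =
      ((3 * X ^ 2 + 3 * (X * (al X - X))) + ((al X - X) ^ 2 + a2 * (X + al X))) + a4 := by ring
  have hX2 : v (X + al X) ≤ v X := by
    have e2 : X + al X = (X + X) + (al X - X) := by ring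
    rw [e2]
    exact vadd v (vadd v le_rfl le_rfl) h1
  rw [e, Valuation.map_add_eq_of_lt_right, h4]
  rw [h4]
  refine vadd_lt v (vadd_lt v ?_ ?_) (vadd_lt v ?_ ?_)
  · rw [map_mul, map_pow]
    exact h5
  · rw [map_mul, map_mul]
    refine lt_of_le_of_lt ?_ h5
    rw [pow_two]
    exact mul_le_mul_right (mul_le_mul_right h1 _) _
  · rw [map_pow]
    refine lt_of_le_of_lt ?_ h5
    calc v (al X - X) ^ 2 ≤ (d * v X) ^ 2 := pow_le_pow_left₀ zero_le (hal X) 2
      _ = v (3 : E) * v X ^ 2 := by rw [mul_pow, hd2]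
  · rw [map_mul]
    exact lt_of_le_of_lt (mul_le_mul_right hX2 _) h6

end

end GVP

theorem tv_GVP : Sv_GVP := by
  intro E Γ _ _ v D al d h3 h30 hd2 hD hal a2 a4 X Y g ha2 ha4 hY hg hY0 hX0 hcol
  have hd : d < 1 := GVP.lt1_of_sq hd2.le h3
  have h2 := GVP.v2 v h3
  have ha21 : v a2 < 1 := GVP.lt1_of_sq ha2 h3
  have hx0 : 0 < v X := (Valuation.pos_iff v).2 hX0
  have hy0 : 0 < v Y := (Valuation.pos_iff v).2 hY0
  have hvY := GVP.vY v al hd h3 hal hY0
  have hvS := GVP.vS v al hd hd2 hal X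
  have hcol' : v (X + al X + al (al X) + a2) * v Y ^ 2 =
      v (X ^ 2 + X * al X + al X ^ 2 + a2 * (X + al X) + a4) ^ 2 := by
    rw [← hvY, ← map_pow, ← map_mul, hcol, map_pow]
  -- the key contradiction
  have key : ∀ b : Γ, v (3 : E) * v X ≤ b → v a2 ≤ b → b * v Y ^ 2 < 1 →
      v (3 : E) * v X ^ 2 < 1 → v a2 * v X < 1 → False := by
    intro b h1 h1' h4 h5 h6
    have hN := GVP.vN v al hd hd2 hal a2 a4 X ha4 h5 h6
    rw [hN, one_pow] at hcol'
    have h7 : v (X + al X + al (al X) + a2) ≤ b := GVP.vadd v (hvS.trans h1) h1'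
    have h8 : v (X + al X + al (al X) + a2) * v Y ^ 2 ≤ b * v Y ^ 2 := mul_le_mul_left h7 _
    rw [hcol'] at h8
    exact absurd (lt_of_le_of_lt h8 h4) (lt_irrefl _)
  rcases le_or_gt (v X) 1 with hx | hx
  · exfalso
    have hY2 : v Y ^ 2 ≤ 1 := by
      rw [← map_pow, hY]
      refine GVP.vadd v (GVP.vadd v ?_ ?_) ?_
      · rw [map_pow]
        exact pow_le_one₀ zero_le hx
      · rw [map_mul, map_pow]
        exact mul_le_one' ha21.le (pow_le_one₀ zero_le hx)
      · rw [map_mul, ha4, one_mul]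
        exact hx
    have h5 : v (3 : E) * v X < 1 := GVP.mul_lt_one h3 hx
    refine key (max (v (3 : E) * v X) (v a2)) (le_max_left _ _) (le_max_right _ _)
      (GVP.mul_lt_one (max_lt h5 ha21) hY2) (GVP.mul_lt_one h3 (pow_le_one₀ zero_le hx))
      (GVP.mul_lt_one ha21 hx)
  · have hY2 : v Y ^ 2 = v X ^ 3 := by
      have hlt : v (a2 * X ^ 2 + a4 * X) < v (X ^ 3) := by
        rw [map_pow]
        refine GVP.vadd_lt v ?_ ?_
        · rw [map_mul, map_pow]
          calc v a2 * v X ^ 2 < 1 * v X ^ 2 :=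
                (mul_lt_mul_iff_of_pos_right (pow_pos hx0 2)).2 ha21
            _ = v X ^ 2 := one_mul _
            _ ≤ v X ^ 3 := pow_le_pow_right₀ hx.le (by norm_num)
        · rw [map_mul, ha4, one_mul]
          calc v X = v X ^ 1 := (pow_one _).symm
            _ < v X ^ 3 := pow_lt_pow_right₀ hx (by norm_num)
      rw [← map_pow, hY, add_assoc, Valuation.map_add_eq_of_lt_left v hlt, map_pow]
    -- `v g ^ 2 * v X ≤ 1`
    have hg2 : v g ^ 2 * v X ≤ 1 := by
      have h7 : v X ^ 3 * v g ^ 2 ≤ v X ^ 2 := by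
        calc v X ^ 3 * v g ^ 2 = v (D X) ^ 2 := by
              rw [hg, map_mul, map_mul, h2, one_mul, mul_pow, hY2]
          _ ≤ v X ^ 2 := pow_le_pow_left₀ zero_le (hD X) 2
      have h8 : v X ^ 2 * (v g ^ 2 * v X) ≤ v X ^ 2 * 1 := by
        calc v X ^ 2 * (v g ^ 2 * v X) = v X ^ 3 * v g ^ 2 := by
              rw [pow_succ (v X) 2]
              ac_rfl
          _ ≤ v X ^ 2 * 1 := by rw [mul_one]; exact h7
      exact le_of_mul_le_mul_left h8 (pow_pos hx0 2)
    have hg12 : v g ^ 12 * v X ^ 6 ≤ 1 := by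
      calc v g ^ 12 * v X ^ 6 = (v g ^ 2 * v X) ^ 6 := by rw [mul_pow, ← pow_mul]
        _ ≤ 1 := pow_le_one₀ zero_le hg2
    by_cases h6 : 1 ≤ v (3 : E) * v X ^ 6
    · calc v g ^ 12 = v g ^ 12 * 1 := (mul_one _).symm
        _ ≤ v g ^ 12 * (v (3 : E) * v X ^ 6) := mul_le_mul_right h6 _
        _ = v (3 : E) * (v g ^ 12 * v X ^ 6) := by ac_rfl
        _ ≤ v (3 : E) * 1 := mul_le_mul_right hg12 _
        _ = v (3 : E) := mul_one _
    · exfalso
      have h6' : v (3 : E) * v X ^ 6 < 1 := not_le.1 h6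
      have mono : ∀ n ≤ 6, v (3 : E) * v X ^ n < 1 := fun n hn =>
        lt_of_le_of_lt (mul_le_mul_right (pow_le_pow_right₀ hx.le hn) _) h6'
      have hA : v a2 * v X < 1 := by
        refine GVP.lt1_of_sq (b := v (3 : E) * v X ^ 2) ?_ (mono 2 (by norm_num))
        rw [mul_pow]
        exact mul_le_mul_left ha2 _
      have hB : v a2 * v X ^ 3 < 1 := by
        refine GVP.lt1_of_sq (b := v (3 : E) * v X ^ 6) ?_ h6'
        rw [mul_pow, ← pow_mul]
        exact mul_le_mul_left ha2 _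
      have hC : v (3 : E) * v X * v X ^ 3 < 1 := by
        have := mono 4 (by norm_num)
        rw [mul_assoc, ← pow_succ']
        exact this
      refine key (max (v (3 : E) * v X) (v a2)) (le_max_left _ _) (le_max_right _ _) ?_
        (mono 2 (by norm_num)) hA
      rw [hY2]
      rcases le_total (v (3 : E) * v X) (v a2) with h | h
      · rw [max_eq_right h]
        exact hB
      · rw [max_eq_left h]
        exact hC

end Pool.Agent.NSGR
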