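import Pool.Agent.NS.StGR
import Pool.Agent.MUX.N_GJ

/-!
# MUX-NS, block GR, module LCR (helper4): common denominators, ramified case
-/

set_option autoImplicit false

namespace Pool.Agent.NSGR

open _root_.MU3 Pool.Agent.MU3A Pool.Agent.MU3B Pool.Agent.MU3Q Pool.Agent.MUX Pool.Agent.NS
  Pool.Agent.NSRD Pool.Agent.NSG Pool.Agent.MUXN Pool.Agent.MuSym OnePoint UpperHalfPlane
open Pool.Agent.MUXF (qb)
open scoped MatrixGroups

noncomputable section

theorem tv_LCR (h1 : Sg_LOC) : Sv_LCR := by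
  intro A B hc P hP V hV S hS
  obtain ⟨t, ht, hy⟩ := h1 A B hc 3 Nat.prime_three P hP V hV S hS
  refine ⟨t, ?_, hy⟩
  have hle : V.valuation (emb t) ≤ 1 := (V.valuation_le_one_iff _).2 (N_GJ.emb_mem_V hc V t)
  refine le_antisymm hle (not_lt.1 fun hlt => ht ((hV t).1 ?_))
  exact (ValuationSubring.mem_nonunits_iff _).2 hlt

end

end Pool.Agent.NSGR
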