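import Pool.Agent.NS.StGR
import Pool.Agent.NS.G_Leg

/-!
# MUX-NS, block GR (helper15): LGR, the lattice `u L` in Legendre form, from `GoodR`; algebraicity of `u`, `e`, `lam`
-/

set_option autoImplicit false

namespace Pool.Agent.NSGR

open _root_.MU3 Pool.Agent.MU3A Pool.Agent.MU3B Pool.Agent.MU3Q Pool.Agent.MUX Pool.Agent.NS
  Pool.Agent.NSRD Pool.Agent.NSG Pool.Agent.MUXN Pool.Agent.MuSym OnePoint UpperHalfPlane

noncomputable section

namespace LGR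

variable {A B : ℤ}

/-- the cubic of a lattice in Legendre form -/
theorem cub {V : ValuationSubring ℂ} {L : PeriodPair} {u e lam : ℂ} (h : GoodR V L u e lam)
    (X : ℂ) : 4 * X ^ 3 - L.g₂ * X - L.g₃ = 4 * (X - e) * (X - e - u ^ 2) * (X - e - lam * u ^ 2) := by
  obtain ⟨y, hy⟩ := IsAlgClosed.exists_pow_nat_eq (4 * X ^ 3 - L.g₂ * X - L.g₃) (n := 2) (by norm_num)
  obtain ⟨z, hz, hX, hY⟩ := (b_DSC L).2 X y hy
  have h1 := h.eq z hz
  rw [hX, hY] at h1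
  have hu := h.u0
  have hu2 : u ^ 6 ≠ 0 := pow_ne_zero _ hu
  have h2 : y ^ 2 = 4 * (X - e) * (X - e - u ^ 2) * (X - e - lam * u ^ 2) := by
    field_simp at h1
    linear_combination h1
  rw [← h2, hy]

theorem leg_alg (hc : CQ A B) (hT : TorX A B) {b : Ideal (OO A B)} {L : PeriodPair} {om : ℂ}
    (hL : IsNL b L om) {V : ValuationSubring ℂ} {u e lam : ℂ} (h : GoodR V L u e lam) :
    IsAlgebraic ℚ u ∧ IsAlgebraic ℚ e ∧ IsAlgebraic ℚ lam := by
  have hk := NSG.kap_alg hc hT hL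
  have hq : ∀ q : ℚ, IsAlgebraic ℚ (q : ℂ) := fun q => isAlgebraic_algebraMap (A := ℂ) q
  have h2 : IsAlgebraic ℚ L.g₂ := by
    have e1 : L.g₂ = ((144 : ℚ) : ℂ) * kap L + ((1 / 12 : ℚ) : ℂ) := by
      unfold kap
      push_cast
      ring
    rw [e1]
    exact ((hq _).mul hk).add (hq _)
  have h3 : IsAlgebraic ℚ L.g₃ := by
    have e1 : L.g₃ = ((-(1 / 18) : ℚ) : ℂ) * L.g₂ := by
      rw [hL.nrm]
      push_cast
      ring
    rw [e1]
    exact (hq _).mul h2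
  have k1 : IsAlgebraic ℚ e := NSG.root_alg h2 h3 (by rw [cub h e]; ring)
  have k2 : IsAlgebraic ℚ (e + u ^ 2) := NSG.root_alg h2 h3 (by rw [cub h (e + u ^ 2)]; ring)
  have k3 : IsAlgebraic ℚ (e + lam * u ^ 2) :=
    NSG.root_alg h2 h3 (by rw [cub h (e + lam * u ^ 2)]; ring)
  have k4 : IsAlgebraic ℚ (u ^ 2) := by
    have : u ^ 2 = (e + u ^ 2) - e := by ring
    rw [this]
    exact k2.sub k1
  have k5 : IsAlgebraic ℚ u := IsAlgebraic.of_pow (by norm_num) k4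
  refine ⟨k5, k1, ?_⟩
  have hu2 : u ^ 2 ≠ 0 := pow_ne_zero _ h.u0
  have : lam = ((e + lam * u ^ 2) - e) * (u ^ 2)⁻¹ := by
    rw [add_sub_cancel_left, mul_assoc, mul_inv_cancel₀ hu2, mul_one]
  rw [this]
  exact (k3.sub k1).mul k4.inv

/-- `v(1 + lam)² ≤ v 3 < 1` gives `v(1 + lam) < 1` -/
theorem lam_lt {V : ValuationSubring ℂ} (h3 : V.valuation (3 : ℂ) < 1) {L : PeriodPair} {u e lam : ℂ}
    (h : GoodR V L u e lam) : V.valuation (1 + lam) < 1 := by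
  by_contra hn
  have h1 : 1 ≤ V.valuation (1 + lam) := not_lt.1 hn
  have h2 : (1 : V.ValueGroup) ≤ V.valuation (1 + lam) ^ 2 := one_le_pow₀ h1
  exact absurd (lt_of_le_of_lt (h2.trans h.lam1) h3) (lt_irrefl _)

/-- `LegN` for the lattice `u L` -/
theorem legN (hS : MUXU.Su_SCX) (hc : CQ A B) (hT : TorX A B) {n : ℕ} {ι : Type}
    (R : Reps A B n ι) {V : ValuationSubring ℂ} (h3 : V.valuation (3 : ℂ) < 1) {u e lam : ℂ}
    (h : GoodR V (R.L R.i0) u e lam) :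
    ∃ (L' : PeriodPair), LegN A B V L' (u * R.om R.i0) (e / u ^ 2) lam := by
  obtain ⟨L', hL'⟩ := hS (R.L R.i0) u h.u0
  obtain ⟨s1, s2, -, -⟩ := ta_SCP (R.L R.i0) L' u h.u0 hL'
  have ho : R.om R.i0 ≠ 0 := (R.nl R.i0).om_ne
  have hv2 : V.valuation (2 : ℂ) = 1 := by
    have := vN V h3 2 (by norm_num)
    exact_mod_cast this
  have hl1 : V.valuation (1 + lam) < 1 := lam_lt h3 h
  refine ⟨L', mul_ne_zero h.u0 ho, ?_, ?_, (leg_alg hc hT (R.nl R.i0) h).2.2, ?_, ?_⟩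
  · intro z
    have e1 : z = u * (u⁻¹ * z) := by rw [mul_inv_cancel_left₀ h.u0]
    rw [e1, ← hL' (u⁻¹ * z), (R.nl R.i0).mem]
    constructor
    · rintro ⟨x, -, hx⟩
      exact ⟨x, by rw [hx]; ring⟩
    · rintro ⟨x, hx⟩
      refine ⟨x, by rw [R.b0]; trivial, ?_⟩
      have hu := h.u0
      apply mul_left_cancel₀ hu
      rw [hx]
      ring
  · intro z hz
    have e1 : z = u * (u⁻¹ * z) := by rw [mul_inv_cancel_left₀ h.u0]
    have hz' : u⁻¹ * z ∉ (R.L R.i0).lattice := by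
      intro h4
      apply hz
      rw [e1]
      exact (hL' _).1 h4
    have h5 := h.eq _ hz'
    rw [e1, s1, s2]
    have hu := h.u0
    rw [show (R.L R.i0).weierstrassP (u⁻¹ * z) / u ^ 2 - e / u ^ 2 =
      ((R.L R.i0).weierstrassP (u⁻¹ * z) - e) / u ^ 2 by ring, ← h5]
    field_simp
    ring
  · have e1 : lam = -1 + (1 + lam) := by ring
    have e2 : V.valuation (-1 : ℂ) = 1 := by rw [Valuation.map_neg, map_one]
    rw [e1, Valuation.map_add_eq_of_lt_left _ (by rw [e2]; exact hl1), e2]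
  · have e1 : 1 - lam = 2 - (1 + lam) := by ring
    rw [e1, Valuation.map_sub_eq_of_lt_left _ (by rw [hv2]; exact hl1), hv2]

end LGR

theorem tv_LGR (hS : MUXU.Su_SCX) : Sv_LGR := by
  intro A B hc hT n ι R V h3 u e lam h
  exact ⟨LGR.leg_alg hc hT (R.nl R.i0) h, LGR.legN hS hc hT R h3 h⟩

end

end Pool.Agent.NSGR
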