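import Pool.Agent.NS.StGR

/-!
# MUX-NS, block GR: module ODU, uniqueness of the solution of the differential equation
-/

set_option autoImplicit false

namespace Pool.Agent.NSGR

open _root_.MU3 Pool.Agent.MU3A Pool.Agent.MU3B Pool.Agent.MU3Q Pool.Agent.MUX Pool.Agent.NS
  Pool.Agent.NSRD Pool.Agent.NSG Pool.Agent.MUXN Pool.Agent.MuSym OnePoint UpperHalfPlane
open Pool.Agent.MUXF (qb)
open scoped MatrixGroups

noncomputable section

namespace ODU

private lemma cth (S : PowerSeries ℂ) (n : ℕ) :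
    PowerSeries.coeff n (thetaD S) = (n : ℂ) * PowerSeries.coeff n S := by
  rw [thetaD, PowerSeries.coeff_mk]

private lemma step (a2 a4 : ℂ) (z S S' : PowerSeries ℂ) (hz1 : PowerSeries.coeff 1 z ≠ 0)
    (h : OdeS a2 a4 z S) (h' : OdeS a2 a4 z S') (k : ℕ)
    (ih : ∀ m < k + 3, PowerSeries.coeff m S = PowerSeries.coeff m S') :
    PowerSeries.coeff (k + 3) S = PowerSeries.coeff (k + 3) S' := by
  obtain ⟨R, hR⟩ : (PowerSeries.X : PowerSeries ℂ) ^ (k + 3) ∣ S - S' := by
    rw [PowerSeries.X_pow_dvd_iff]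
    intro m hm
    rw [map_sub, ih m hm, sub_self]
  have hR0 : PowerSeries.constantCoeff R =
      PowerSeries.coeff (k + 3) S - PowerSeries.coeff (k + 3) S' := by
    have h := congrArg (PowerSeries.coeff (0 + (k + 3))) hR
    rw [PowerSeries.coeff_X_pow_mul, map_sub, zero_add] at h
    rw [h, PowerSeries.coeff_zero_eq_constantCoeff_apply]
  obtain ⟨Q, hQ⟩ : (PowerSeries.X : PowerSeries ℂ) ^ (k + 3) ∣ thetaD S - thetaD S' := by
    rw [PowerSeries.X_pow_dvd_iff]
    intro m hm
    rw [map_sub, cth, cth, ih m hm, sub_self]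
  have hQ0 : PowerSeries.constantCoeff Q = ((k + 3 : ℕ) : ℂ) *
      (PowerSeries.coeff (k + 3) S - PowerSeries.coeff (k + 3) S') := by
    have h := congrArg (PowerSeries.coeff (0 + (k + 3))) hQ
    rw [PowerSeries.coeff_X_pow_mul, map_sub, zero_add, cth, cth, ← mul_sub] at h
    rw [h, PowerSeries.coeff_zero_eq_constantCoeff_apply]
  obtain ⟨T, hT⟩ : (PowerSeries.X : PowerSeries ℂ) ^ 2 ∣ thetaD S + thetaD S' := by
    rw [PowerSeries.X_pow_dvd_iff]
    intro m hm
    rw [map_add, cth, cth]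
    rcases (show m = 0 ∨ m = 1 by omega) with rfl | rfl
    · rw [h.c0, h'.c0, mul_zero, add_zero]
    · rw [h.c1, h'.c1, mul_zero, add_zero]
  have hT0 : PowerSeries.constantCoeff T = 4 * PowerSeries.coeff 1 z ^ 2 := by
    have e := congrArg (PowerSeries.coeff (0 + 2)) hT
    rw [PowerSeries.coeff_X_pow_mul, map_add, zero_add, cth, cth, h.c2, h'.c2] at e
    rw [← PowerSeries.coeff_zero_eq_constantCoeff_apply, ← e]
    push_cast
    ring
  obtain ⟨W, hW⟩ : (PowerSeries.X : PowerSeries ℂ) ^ 1 ∣ thetaD z := by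
    rw [PowerSeries.X_pow_dvd_iff]
    intro m hm
    obtain rfl : m = 0 := by omega
    rw [cth, Nat.cast_zero, zero_mul]
  have hW0 : PowerSeries.constantCoeff W = PowerSeries.coeff 1 z := by
    have h := congrArg (PowerSeries.coeff (0 + 1)) hW
    rw [PowerSeries.coeff_X_pow_mul, zero_add, cth] at h
    rw [← PowerSeries.coeff_zero_eq_constantCoeff_apply, ← h]
    norm_num
  have hSc : PowerSeries.constantCoeff S = 0 := by
    rw [← PowerSeries.coeff_zero_eq_constantCoeff_apply, h.c0]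
  have hS'c : PowerSeries.constantCoeff S' = 0 := by
    rw [← PowerSeries.coeff_zero_eq_constantCoeff_apply, h'.c0]
  have ho := h.ode
  have ho' := h'.ode
  simp only [PowerSeries.smul_eq_C_mul] at ho ho'
  set G : PowerSeries ℂ := 1 + PowerSeries.C a2 * (S + S') +
    PowerSeries.C a4 * (S ^ 2 + S * S' + S' ^ 2) with hG
  have hG0 : PowerSeries.constantCoeff G = 1 := by
    rw [hG]
    simp [hSc, hS'c]
  have key : (PowerSeries.X : PowerSeries ℂ) ^ (k + 5) * (Q * T) =
      PowerSeries.X ^ (k + 5) * (4 * R * G * W ^ 2) := by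
    have e1 : (PowerSeries.X : PowerSeries ℂ) ^ (k + 5) * (Q * T) =
        (thetaD S - thetaD S') * (thetaD S + thetaD S') := by
      rw [hQ, hT]
      ring
    have e2 : (PowerSeries.X : PowerSeries ℂ) ^ (k + 5) * (4 * R * G * W ^ 2) =
        4 * (S - S') * G * thetaD z ^ 2 := by
      rw [hR, hW]
      ring
    rw [e1, e2, hG]
    linear_combination ho - ho'
  have key2 : Q * T = 4 * R * G * W ^ 2 :=
    mul_left_cancel₀ (pow_ne_zero _ PowerSeries.X_ne_zero) key
  have hc := congrArg PowerSeries.constantCoeff key2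
  have e4 : PowerSeries.constantCoeff (4 : PowerSeries ℂ) = 4 := by
    have := map_natCast (PowerSeries.constantCoeff (R := ℂ)) 4
    simpa using this
  rw [map_mul, map_mul, map_mul, map_mul, map_pow, e4, hR0, hG0, hW0, hQ0, hT0] at hc
  push_cast at hc
  have hk : (k : ℂ) + 2 ≠ 0 := by
    have : ((k + 2 : ℕ) : ℂ) ≠ 0 := Nat.cast_ne_zero.2 (by omega)
    push_cast at this
    exact this
  have h0 : (4 * ((k : ℂ) + 2) * PowerSeries.coeff 1 z ^ 2) *
      (PowerSeries.coeff (k + 3) S - PowerSeries.coeff (k + 3) S') = 0 := by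
    linear_combination hc
  rcases mul_eq_zero.1 h0 with h1 | h1
  · exact absurd h1 (mul_ne_zero (mul_ne_zero (by norm_num) hk) (pow_ne_zero 2 hz1))
  · exact sub_eq_zero.1 h1

end ODU

/-- ODU. -/
theorem tv_ODU : Sv_ODU := by
  intro a2 a4 z S S' hz1 h h'
  ext n
  induction n using Nat.strong_induction_on with
  | _ n ih =>
    rcases (show n = 0 ∨ n = 1 ∨ n = 2 ∨ ∃ k, n = k + 3 by
      rcases Nat.lt_or_ge n 3 with h | h
      · omega
      · exact Or.inr (Or.inr (Or.inr ⟨n - 3, by omega⟩))) with rfl | rfl | rfl | ⟨k, rfl⟩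
    · rw [h.c0, h'.c0]
    · rw [h.c1, h'.c1]
    · rw [h.c2, h'.c2]
    · exact ODU.step a2 a4 z S S' hz1 h h' k ih

end

end Pool.Agent.NSGR
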