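import Pool.Agent.NS.StGR
import Pool.Agent.MUX.XLib

/-!
# MUX-NS, block GR, module PJR: the projector for `PR`

`q = D' = |D|/3`, `c_t = (1/q) Σ_n φ(n) exp(-2πi t n/q)`. The first half of `TWR` for the ideals of norm `≡ 1` modulo 3, the second half for the others.
-/

set_option autoImplicit false

namespace Pool.Agent.NSGR

open _root_.MU3 Pool.Agent.MU3A Pool.Agent.MU3B Pool.Agent.MU3Q Pool.Agent.MUX Pool.Agent.NS
  Pool.Agent.NSRD Pool.Agent.NSG Pool.Agent.MUXN Pool.Agent.MuSym OnePoint UpperHalfPlane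
open Pool.Agent.MUXF (qb)
open scoped MatrixGroups

noncomputable section

namespace PJR

/-- `v (exp (2πi r/q)) = 1` -/
lemma v_exp (V : ValuationSubring ℂ) (q : ℕ) (hq : q ≠ 0) (m : ℤ) :
    V.valuation (Complex.exp (2 * Real.pi * Complex.I * (m / q))) = 1 := by
  have hqC : (q : ℂ) ≠ 0 := by exact_mod_cast hq
  have h1 : Complex.exp (2 * Real.pi * Complex.I * (m / q)) ^ q = 1 := by
    rw [← Complex.exp_nat_mul, Complex.exp_eq_one_iff]
    refine ⟨m, ?_⟩
    field_simp
  have h2 := congrArg V.valuation h1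
  rw [map_pow, map_one] at h2
  exact (pow_eq_one_iff_of_nonneg zero_le hq).1 h2

/-- `v n ≤ 1` -/
lemma v_nat_le (V : ValuationSubring ℂ) (n : ℕ) : V.valuation (n : ℂ) ≤ 1 :=
  (V.valuation_le_one_iff _).2 (natCast_mem V.toSubring n)

/-- the integers prime to `3` are units at `V` -/
lemma v_nat_one (V : ValuationSubring ℂ) (h3 : V.valuation (3 : ℂ) < 1) {q : ℕ} (hq : ¬ 3 ∣ q) :
    V.valuation (q : ℂ) = 1 := by
  refine le_antisymm (v_nat_le V q) (not_lt.1 fun h => ?_)
  have hcop : IsCoprime (q : ℤ) 3 := by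
    have h2 : Nat.Coprime q 3 := ((Nat.Prime.coprime_iff_not_dvd Nat.prime_three).2 hq).symm
    have h4 := Nat.isCoprime_iff_coprime.2 h2
    exact_mod_cast h4
  obtain ⟨a, b, hab⟩ := hcop
  have habC : (a : ℂ) * q + (b : ℂ) * 3 = 1 := by
    have := congrArg (fun n : ℤ => (n : ℂ)) hab
    push_cast at this
    exact this
  have hint : ∀ n : ℤ, V.valuation (n : ℂ) ≤ 1 := fun n =>
    (V.valuation_le_one_iff _).2 (intCast_mem V.toSubring n)
  have h1 : V.valuation (1 : ℂ) < 1 := by
    rw [← habC]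
    refine (Valuation.map_add _ _ _).trans_lt (max_lt ?_ ?_)
    · rw [map_mul]
      exact mul_lt_one_of_nonneg_of_lt_one_right (hint a) zero_le h
    · rw [map_mul]
      exact mul_lt_one_of_nonneg_of_lt_one_right (hint b) zero_le h3
  rw [map_one] at h1
  exact lt_irrefl _ h1

end PJR

open PJR

/-- (PJR) the projector for `PR` -/
theorem tv_PJR (h1 : Sv_PHR) (h2 : Sv_TWR) (h3 : Sv_QB3) : Sv_PJR := by
  intro A B P V f hS ι _ R e he kk u
  have hc : CQ A B := hS.case.toCQ
  obtain ⟨D', φ, hD3, hD'3, hD0, hφ, hper, hph⟩ := h1 A B hS.case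
  have v3 : V.valuation (3 : ℂ) < 1 := by
    have h4 : emb ((3 : ℕ) : OO A B) ∈ V.nonunits := (hS.hV _).2 hS.hP.mem
    rw [MUX.emb_natCast hc] at h4
    exact_mod_cast V.mem_nonunits_iff.1 h4
  have hg : idl (A := A) (B := B) (3 * f) ≤ sp ((absD A B : ℤ) : OO A B) := by
    refine Ideal.span_singleton_le_span_singleton.2 ?_
    have h4 : absD A B ∣ 3 * (f : ℤ) := (Dvd.intro_left _ rfl).trans hS.fD
    obtain ⟨m, hm⟩ := h4
    refine ⟨(m : OO A B), ?_⟩
    have h5 := congrArg (fun n : ℤ => (n : OO A B)) hm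
    push_cast at h5 ⊢
    exact h5
  have hg0 : idl (A := A) (B := B) (3 * f) ≠ ⊥ := by
    rw [Ne, Ideal.span_singleton_eq_bot]
    exact natCast_ne_zero' hc (by have := hS.f0; omega)
  refine ⟨D', fun a => (1 / D') * ∑ n ∈ Finset.range D', φ n *
        Complex.exp (2 * Real.pi * Complex.I * (-(a * n) / D')), hD0, ?_, ?_⟩
  · intro t
    have hq1 : V.valuation ((1 : ℂ) / D') = 1 := by
      rw [map_div₀, map_one, v_nat_one V v3 hD'3, div_one]
    rw [map_mul, hq1, one_mul]
    refine Valuation.map_sum_le _ fun n _ => ?_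
    rw [map_mul]
    have e1 : Complex.exp (2 * Real.pi * Complex.I * (-((t : ℂ) * n) / D')) =
        Complex.exp (2 * Real.pi * Complex.I * (((-((t : ℤ) * n) : ℤ) : ℂ) / D')) := by
      push_cast
      rfl
    rw [e1, v_exp V D' hD0, mul_one]
    rcases hφ n with h | h
    · rw [h, map_zero]
      exact zero_le
    · rw [h, map_one]
  · intro x y
    -- the two halves, for one ideal
    have hb : ∀ i, R.b i ≠ ⊥ := fun i => (R.nl i).b_ne
    have hN : ∀ i, ¬ (3 : ℤ) ∣ (nI (R.b i) : ℤ) := by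
      intro i h
      have h4 := R.cop i
      have h5 : 3 ∣ nI (R.b i) := by exact_mod_cast h
      have h6 : 3 ∣ Nat.gcd (nI (R.b i)) (3 * f) := Nat.dvd_gcd h5 (Dvd.intro _ rfl)
      rw [h4] at h6
      omega
    have k1 : ∀ i, (3 : ℤ) ∣ (nI (R.b i) : ℤ) - 1 → ∀ x y : OnePoint ℚ,
        ∑ a ∈ Finset.range D', ((1 / D') * ∑ n ∈ Finset.range D', φ n *
          Complex.exp (2 * Real.pi * Complex.I * (-(a * n) / D'))) *
          PhiI (R.b i) e (mob D' a 0 D' x) (mob D' a 0 D' y) = PhiI (R.b i) e x y := by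
      intro i hi
      refine (h2 A B hc (R.b i) _ e (hb i) hg0 he D' φ hD0 hper).1 ?_
      intro z hz hez
      have h4 := (h3 A B P V f hS e he (R.b i) (hb i) (R.cop i) z hz hez).2.1
      refine (hph (R.b i) _ e (hb i) he hg z hz hez).1 ?_
      omega
    have k2 : ∀ i, ¬ (3 : ℤ) ∣ (nI (R.b i) : ℤ) - 1 → ∀ x y : OnePoint ℚ,
        ∑ a ∈ Finset.range D', ((1 / D') * ∑ n ∈ Finset.range D', φ n *
          Complex.exp (2 * Real.pi * Complex.I * (-(a * n) / D'))) *
          PhiI (R.b i) e (mob (-1) 0 0 1 (mob D' a 0 D' x))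
            (mob (-1) 0 0 1 (mob D' a 0 D' y)) = 0 := by
      intro i hi
      refine (h2 A B hc (R.b i) _ e (hb i) hg0 he D' φ hD0 hper).2 ?_
      intro z hz hez
      have h4 := (h3 A B P V f hS e he (R.b i) (hb i) (R.cop i) z hz hez).2.1
      have h5 := hN i
      refine (hph (R.b i) _ e (hb i) he hg z hz hez).2 ?_
      omega
    generalize hcc : (fun a : ℕ => (1 / (D' : ℂ)) * ∑ n ∈ Finset.range D', φ n *
        Complex.exp (2 * Real.pi * Complex.I * (-((a : ℂ) * n) / D'))) = c at *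
    have hcc' : ∀ a : ℕ, (1 / (D' : ℂ)) * ∑ n ∈ Finset.range D', φ n *
        Complex.exp (2 * Real.pi * Complex.I * (-((a : ℂ) * n) / D')) = c a := fun a => by
      rw [← hcc]
    simp only [hcc'] at k1 k2 ⊢
    -- the sums over `i`
    have s1 : ∑ t ∈ Finset.range D', c t *
        PhiK R e (kkp R kk) (mob D' t 0 D' x) (mob D' t 0 D' y) = PhiK R e (kkp R kk) x y := by
      unfold PhiK
      simp only [Finset.mul_sum]
      rw [Finset.sum_comm]
      refine Finset.sum_congr rfl fun i _ => ?_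
      by_cases hi : (3 : ℤ) ∣ (nI (R.b i) : ℤ) - 1
      · rw [← k1 i hi x y, Finset.mul_sum]
        refine Finset.sum_congr rfl fun t _ => ?_
        ring
      · have h0 : kkp R kk i = 0 := by
          unfold kkp
          rw [if_neg hi]
        rw [h0, zero_mul]
        refine Finset.sum_eq_zero fun t _ => ?_
        rw [zero_mul, mul_zero]
    have s2 : ∑ t ∈ Finset.range D', c t *
        PhiK R e (kkm R kk) (mob (-1) 0 0 1 (mob D' t 0 D' x))
          (mob (-1) 0 0 1 (mob D' t 0 D' y)) = 0 := by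
      unfold PhiK
      simp only [Finset.mul_sum]
      rw [Finset.sum_comm]
      refine Finset.sum_eq_zero fun i _ => ?_
      by_cases hi : (3 : ℤ) ∣ (nI (R.b i) : ℤ) - 1
      · have h0 : kkm R kk i = 0 := by
          unfold kkm
          rw [if_pos hi]
        refine Finset.sum_eq_zero fun t _ => ?_
        rw [h0, zero_mul, mul_zero]
      · have h4 := k2 i hi x y
        have h5 : ∑ t ∈ Finset.range D', c t * (kkm R kk i *
            PhiI (R.b i) e (mob (-1) 0 0 1 (mob D' t 0 D' x))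
              (mob (-1) 0 0 1 (mob D' t 0 D' y))) = kkm R kk i *
            ∑ t ∈ Finset.range D', c t * PhiI (R.b i) e (mob (-1) 0 0 1 (mob D' t 0 D' x))
              (mob (-1) 0 0 1 (mob D' t 0 D' y)) := by
          rw [Finset.mul_sum]
          refine Finset.sum_congr rfl fun t _ => ?_
          ring
        rw [h5, h4, mul_zero]
    calc ∑ t ∈ Finset.range D', c t * PR R e kk u (mob D' t 0 D' x) (mob D' t 0 D' y)
        = (∑ t ∈ Finset.range D', c t *
            PhiK R e (kkp R kk) (mob D' t 0 D' x) (mob D' t 0 D' y) +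
          ∑ t ∈ Finset.range D', c t *
            PhiK R e (kkm R kk) (mob (-1) 0 0 1 (mob D' t 0 D' x))
              (mob (-1) 0 0 1 (mob D' t 0 D' y))) / (u * R.om R.i0) := by
          rw [← Finset.sum_add_distrib, Finset.sum_div]
          refine Finset.sum_congr rfl fun t _ => ?_
          unfold PR
          ring
      _ = _ := by rw [s1, s2, add_zero]

end

end Pool.Agent.NSGR
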