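import Pool.Agent.NS.StGR
import Pool.Agent.MUX.XFAll

/-!
# MUX-NS, block GR, module QB3 (helper22): the exponents of the theta series modulo 3

The prime `P` and the ring `V` are not used: if `e x ≠ 0` then `a x + c 3 f = 1`, so
`nm a nm x = nm (1 - 3 y) ≡ 1` modulo `3`, and `4 nm x = t² - D x.im²` with `3 ∣ D`.
-/

set_option autoImplicit false

namespace Pool.Agent.NSGR

open _root_.MU3 Pool.Agent.MU3A Pool.Agent.MU3B Pool.Agent.MU3Q Pool.Agent.MUX Pool.Agent.NS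
  Pool.Agent.NSRD Pool.Agent.NSG Pool.Agent.MUXN Pool.Agent.MuSym OnePoint UpperHalfPlane
open Pool.Agent.MUXF (qb)
open scoped MatrixGroups

noncomputable section

namespace QB3

theorem nm_one_sub {A B : ℤ} (w : OO A B) :
    nm (1 - (3 : ℤ) • w) = 1 - 3 * (2 * w.re + B * w.im - 3 * nm w) := by
  simp only [nm, QuadraticAlgebra.re_sub, QuadraticAlgebra.im_sub, QuadraticAlgebra.re_one,
    QuadraticAlgebra.im_one, QuadraticAlgebra.re_smul, QuadraticAlgebra.im_smul, smul_eq_mul]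
  ring

theorem four_nm {A B : ℤ} (x : OO A B) :
    4 * nm x = (2 * x.re + B * x.im) ^ 2 - (B ^ 2 + 4 * A) * x.im ^ 2 := by
  unfold nm; ring

/-- if `3` does not divide the norm then the norm is `1` modulo `3` -/
theorem nm_mod {A B : ℤ} (hD : (3 : ℤ) ∣ B ^ 2 + 4 * A) (x : OO A B) (h : ¬ (3 : ℤ) ∣ nm x) :
    (3 : ℤ) ∣ nm x - 1 := by
  obtain ⟨k, hk⟩ := hD
  have h4 := four_nm x
  rw [hk] at h4
  generalize 2 * x.re + B * x.im = t at h4
  have ht : t % 3 = 0 ∨ t % 3 = 1 ∨ t % 3 = 2 := by omega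
  have hsq : (t ^ 2) % 3 = 0 ∨ (t ^ 2) % 3 = 1 := by
    rcases ht with h | h | h <;> simp [pow_two, Int.mul_emod, h]
  have h5 : 3 * k * x.im ^ 2 = 3 * (k * x.im ^ 2) := by ring
  rw [h5] at h4
  generalize k * x.im ^ 2 = s at h4
  generalize t ^ 2 = u at h4 hsq
  omega

/-- units modulo 3 -/
theorem inv_mod {N q m : ℤ} (h : m = N * q) (hm : (3 : ℤ) ∣ m - 1) :
    (3 : ℤ) ∣ q - N ∧ ¬ (3 : ℤ) ∣ q := by
  have h1 : (N * q) % 3 = 1 := by rw [← h]; omega
  have hN : N % 3 = 0 ∨ N % 3 = 1 ∨ N % 3 = 2 := by omega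
  have hq : q % 3 = 0 ∨ q % 3 = 1 ∨ q % 3 = 2 := by omega
  rw [Int.mul_emod] at h1
  rcases hN with hN | hN | hN <;> rcases hq with hq | hq | hq <;> rw [hN, hq] at h1 <;>
    (constructor <;> omega)

end QB3

open QB3 in
/-- (QB3) the exponents modulo 3 -/
theorem tv_QB3 : Sv_QB3 := by
  intro A B P V f hS e he b hb _ x hx hex
  have hc := MUXY.cqF hS.case.toCQ
  obtain ⟨halg, -, -, -, -⟩ := MUXF.xf_ALG A B hc
  obtain ⟨hq, -, -⟩ := MUXF.xf_QB A B hc b hb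
  obtain ⟨hqx, -⟩ := hq x hx
  have h1 := (he.supp x).1 hex
  rw [Ideal.isCoprime_span_singleton_iff] at h1
  obtain ⟨a, c, hac⟩ := h1
  have h2 : a * x = 1 - (3 : ℤ) • (c * ((f : ℕ) : OO A B)) := by
    have e1 : c * (((3 * f : ℕ)) : OO A B) = (3 : ℤ) • (c * ((f : ℕ) : OO A B)) := by
      rw [zsmul_eq_mul]
      push_cast
      ring
    rw [← e1, ← hac]
    ring
  have h3 : nm a * nm x = 1 - 3 * (2 * (c * ((f : ℕ) : OO A B)).re +
      B * (c * ((f : ℕ) : OO A B)).im - 3 * nm (c * ((f : ℕ) : OO A B))) := by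
    rw [← nm_one_sub, ← h2]
    exact ((halg a x).2.2).symm
  have h4 : ¬ (3 : ℤ) ∣ nm x := by
    rintro ⟨k, hk⟩
    rw [hk] at h3
    have e1 : nm a * (3 * k) = 3 * (nm a * k) := by ring
    rw [e1] at h3
    omega
  have h5 := nm_mod hS.case.three x h4
  exact ⟨h5, inv_mod hqx h5⟩

end

end Pool.Agent.NSGR
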