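import Pool.Agent.NS.StGR
import Pool.Agent.MUX.N_GD

/-!
# MUX-NS, block GR, module RSC (helper99): rescaling by a third root of unity on the fraction field
of the power series over a discrete valuation ring
-/

set_option autoImplicit false

namespace Pool.Agent.NSGR

open _root_.MU3 Pool.Agent.MU3A Pool.Agent.MU3B Pool.Agent.MU3Q Pool.Agent.MUX Pool.Agent.NS
  Pool.Agent.NSRD Pool.Agent.NSG Pool.Agent.MUXN Pool.Agent.MuSym OnePoint UpperHalfPlane
open Pool.Agent.MUXF (qb)
open scoped MatrixGroups

noncomputable section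

namespace RSC

open Pool.Agent.MUXN.GD PowerSeries

variable {O : Type} [CommRing O]

theorem resc (a b : O) (h : a * b = 1) (f : PowerSeries O) :
    PowerSeries.rescale a (PowerSeries.rescale b f) = f := by
  ext n
  rw [coeff_rescale, coeff_rescale, ← mul_assoc, ← mul_pow, h, one_pow, one_mul]

/-- the automorphism `q ↦ a q` of the power series, `a b = 1` -/
def rE (a b : O) (h : a * b = 1) : PowerSeries O ≃+* PowerSeries O :=
  { (PowerSeries.rescale a : PowerSeries O →+* PowerSeries O) with
    invFun := PowerSeries.rescale b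
    left_inv := fun f => resc b a (by rw [mul_comm]; exact h) f
    right_inv := fun f => resc a b h f }

theorem rE_apply (a b : O) (h : a * b = 1) (f : PowerSeries O) :
    rE a b h f = PowerSeries.rescale a f := rfl

variable [IsDomain O] [IsDiscreteValuationRing O]

theorem vR_resc_le (ϖ : O) (h : Prime ϖ) (c : O) (f : PowerSeries O) :
    vR ϖ h (PowerSeries.rescale c f) ≤ vR ϖ h f := by
  by_cases hf : f = 0
  · simp [hf]
  rw [vR_apply ϖ h hf, vR_le, ← map_pow, C_dvd_iff]
  intro n
  rw [coeff_rescale]
  have h1 : C ϖ ^ multiplicity (C ϖ) f ∣ f := pow_multiplicity_dvd _ _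
  rw [← map_pow, C_dvd_iff] at h1
  exact (h1 n).mul_left _

theorem vR_resc (ϖ : O) (h : Prime ϖ) (a b : O) (hab : a * b = 1) (f : PowerSeries O) :
    vR ϖ h (PowerSeries.rescale a f) = vR ϖ h f := by
  refine le_antisymm (vR_resc_le ϖ h a f) ?_
  have h1 := vR_resc_le ϖ h b (PowerSeries.rescale a f)
  rwa [resc b a (by rw [mul_comm]; exact hab)] at h1

theorem vR_sub (ϖ : O) (h : Prime ϖ) (a : O) (f : PowerSeries O) :
    vR ϖ h (PowerSeries.rescale a f - f) ≤ vR ϖ h (C (a - 1)) * vR ϖ h f := by
  by_cases hf : f = 0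
  · simp [hf]
  obtain ⟨g, hg⟩ : C ϖ ^ multiplicity (C ϖ) f ∣ f := pow_multiplicity_dvd _ _
  have hgd : C (a - 1) ∣ PowerSeries.rescale a g - g := by
    rw [C_dvd_iff]
    intro n
    rw [map_sub, coeff_rescale]
    have h1 : a ^ n * coeff n g - coeff n g = (a ^ n - 1) * coeff n g := by ring
    rw [h1]
    have h2 : a - 1 ∣ a ^ n - 1 := by
      have := sub_dvd_pow_sub_pow a 1 n
      rwa [one_pow] at this
    exact h2.mul_right _
  obtain ⟨k, hk⟩ := hgd
  have h3 : PowerSeries.rescale a f - f =
      C (a - 1) * (C ϖ ^ multiplicity (C ϖ) f * k) := by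
    calc PowerSeries.rescale a f - f
        = PowerSeries.rescale a (C ϖ ^ multiplicity (C ϖ) f * g) -
            C ϖ ^ multiplicity (C ϖ) f * g := by rw [← hg]
      _ = C ϖ ^ multiplicity (C ϖ) f * (PowerSeries.rescale a g - g) := by
          rw [map_mul, map_pow]
          have h4 : PowerSeries.rescale a (C ϖ : PowerSeries O) = C ϖ := by
            ext n
            rw [coeff_rescale, coeff_C]
            by_cases hn : n = 0
            · simp [hn]
            · simp [hn]
          rw [h4]
          ring
      _ = _ := by rw [hk]; ring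
  rw [h3, map_mul, map_mul]
  refine mul_le_mul_right ?_ _
  calc vR ϖ h (C ϖ ^ multiplicity (C ϖ) f) * vR ϖ h k
      ≤ vR ϖ h (C ϖ ^ multiplicity (C ϖ) f) * 1 := mul_le_mul_right (vR_le_one ϖ h _) _
    _ = vR ϖ h (C ϖ ^ multiplicity (C ϖ) f) := mul_one _
    _ = vR ϖ h f := by
        rw [map_pow, vR_C ϖ h, vR_apply ϖ h hf, ← WithZero.exp_nsmul]
        congr 1
        simp

theorem vR_nonunit (ϖ : O) (h : Prime ϖ) (u : O) (hu : ¬ IsUnit u) : vR ϖ h (C u) < 1 := by
  have h1 : ϖ ∣ u := by
    by_cases hu0 : u = 0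
    · rw [hu0]; exact dvd_zero _
    obtain ⟨n, w, rfl⟩ := IsDiscreteValuationRing.eq_unit_mul_pow_irreducible hu0 h.irreducible
    cases n with
    | zero => exact absurd (by simp) hu
    | succ n => exact (Dvd.intro_left _ (pow_succ _ _).symm).mul_left _
  have h2 : vR ϖ h (C u) ≤ WithZero.exp (-((1 : ℕ) : ℤ)) := by
    rw [vR_le, pow_one]
    exact (C : O →+* PowerSeries O).map_dvd h1
  refine lt_of_le_of_lt h2 ?_
  rw [← WithZero.exp_zero, WithZero.exp_lt_exp]
  norm_num

end RSC

open RSC Pool.Agent.MUXN.GD PowerSeries in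
/-- RSC. -/
theorem tv_RSC : Sv_RSC := by
  intro O _ _ _ ω hω _
  obtain ⟨ϖ, hϖ⟩ := IsDiscreteValuationRing.exists_irreducible O
  have h : Prime ϖ := hϖ.prime
  have hω3 : ω * ω ^ 2 = 1 := by linear_combination (ω - 1) * hω
  have hS : nonZeroDivisors (PowerSeries O) ≤ (vR ϖ h).supp.primeCompl := by
    intro s hs hs'
    exact vR_ne ϖ h (nonZeroDivisors.ne_zero hs) hs'
  set v := (vR ϖ h).extendToLocalization hS (FractionRing (PowerSeries O)) with hv
  have hva : ∀ f : PowerSeries O, v (algebraMap _ _ f) = vR ϖ h f := fun f =>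
    Valuation.extendToLocalization_apply_map_apply _ _ _ f
  let al : FractionRing (PowerSeries O) ≃+* FractionRing (PowerSeries O) :=
    IsFractionRing.ringEquivOfRingEquiv (rE ω (ω ^ 2) hω3)
  have hal : ∀ f : PowerSeries O, al (algebraMap _ _ f) =
      algebraMap _ _ (PowerSeries.rescale ω f) := by
    intro f
    exact IsFractionRing.ringEquivOfRingEquiv_algebraMap (rE ω (ω ^ 2) hω3) f
  refine ⟨v, dd O, al, v (algebraMap _ _ (C (ω - 1))), ?_, ?_, ?_, ?_, ?_, ?_, hal, ?_, ?_⟩
  · intro f
    rw [hva]
    exact vR_le_one ϖ h f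
  · intro u hu
    rw [hva]
    exact vR_unit ϖ h u hu
  · intro u hu
    rw [hva]
    exact vR_nonunit ϖ h u hu
  · intro f c hc hfc
    rw [hva, hva] at hfc
    exact vR_dvd ϖ h f c hc hfc
  · have hth : ∀ f : PowerSeries O, v (dd O (algebraMap _ _ f)) ≤ v (algebraMap _ _ f) := by
      intro f
      rw [dd_alg, hva, hva]
      by_cases hf : f = 0
      · simp [hf]
      rw [vR_apply ϖ h hf, vR_le, ← map_pow, C_dvd_iff]
      intro n
      rw [th_coeff]
      have h1 : C ϖ ^ multiplicity (C ϖ) f ∣ f := pow_multiplicity_dvd _ _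
      rw [← map_pow, C_dvd_iff] at h1
      exact (h1 n).mul_left _
    intro x
    obtain ⟨a, b, hb, rfl⟩ := IsFractionRing.div_surjective (A := PowerSeries O) x
    have hb0 : algebraMap (PowerSeries O) (FractionRing (PowerSeries O)) b ≠ 0 :=
      IsFractionRing.to_map_ne_zero_of_mem_nonZeroDivisors hb
    set x := algebraMap (PowerSeries O) (FractionRing (PowerSeries O)) a /
      algebraMap (PowerSeries O) (FractionRing (PowerSeries O)) b with hx
    have hxb : algebraMap (PowerSeries O) (FractionRing (PowerSeries O)) a =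
      x * algebraMap (PowerSeries O) (FractionRing (PowerSeries O)) b := by
      rw [hx]
      field_simp
    have h1 := hth a
    have h2 := hth b
    rw [hxb, Derivation.leibniz, smul_eq_mul, smul_eq_mul] at h1
    have hvb : v (algebraMap (PowerSeries O) (FractionRing (PowerSeries O)) b) ≠ 0 :=
      (Valuation.ne_zero_iff v).2 hb0
    have h3 : v (algebraMap (PowerSeries O) (FractionRing (PowerSeries O)) b * dd O x) ≤
        v (x * algebraMap (PowerSeries O) (FractionRing (PowerSeries O)) b) := by
      have h4 : algebraMap (PowerSeries O) (FractionRing (PowerSeries O)) b * dd O x =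
          (x * dd O (algebraMap (PowerSeries O) (FractionRing (PowerSeries O)) b) +
            algebraMap (PowerSeries O) (FractionRing (PowerSeries O)) b * dd O x) -
          x * dd O (algebraMap (PowerSeries O) (FractionRing (PowerSeries O)) b) := by ring
      rw [h4]
      refine (Valuation.map_sub _ _ _).trans (max_le h1 ?_)
      rw [map_mul, map_mul]
      exact mul_le_mul_right h2 _
    rw [map_mul, map_mul, mul_comm] at h3
    exact le_of_mul_le_mul_right h3 (zero_lt_iff.2 hvb)
  · intro f
    rw [dd_alg, th_eq]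
  · intro x
    obtain ⟨a, b, hb, rfl⟩ := IsFractionRing.div_surjective (A := PowerSeries O) x
    have hb0 : algebraMap (PowerSeries O) (FractionRing (PowerSeries O)) b ≠ 0 :=
      IsFractionRing.to_map_ne_zero_of_mem_nonZeroDivisors hb
    set x := algebraMap (PowerSeries O) (FractionRing (PowerSeries O)) a /
      algebraMap (PowerSeries O) (FractionRing (PowerSeries O)) b with hx
    have hxb : algebraMap (PowerSeries O) (FractionRing (PowerSeries O)) a =
      x * algebraMap (PowerSeries O) (FractionRing (PowerSeries O)) b := by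
      rw [hx]
      field_simp
    have hvb : v (algebraMap (PowerSeries O) (FractionRing (PowerSeries O)) b) ≠ 0 :=
      (Valuation.ne_zero_iff v).2 hb0
    have hdl : ∀ f : PowerSeries O, v (al (algebraMap _ _ f) - algebraMap _ _ f) ≤
        v (algebraMap _ _ (C (ω - 1))) * v (algebraMap _ _ f) := by
      intro f
      rw [hal, ← map_sub, hva, hva, hva]
      exact vR_sub ϖ h ω f
    have hvab : v (al (algebraMap (PowerSeries O) (FractionRing (PowerSeries O)) b)) =
        v (algebraMap (PowerSeries O) (FractionRing (PowerSeries O)) b) := by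
      rw [hal, hva, hva, vR_resc ϖ h ω (ω ^ 2) hω3]
    have h1 := hdl a
    have h2 := hdl b
    have h3 : v ((al x - x) * al (algebraMap (PowerSeries O) (FractionRing (PowerSeries O)) b)) ≤
        v (algebraMap _ _ (C (ω - 1))) *
          (v x * v (algebraMap (PowerSeries O) (FractionRing (PowerSeries O)) b)) := by
      have h4 : (al x - x) * al (algebraMap (PowerSeries O) (FractionRing (PowerSeries O)) b) =
          (al (algebraMap (PowerSeries O) (FractionRing (PowerSeries O)) a) -
            algebraMap (PowerSeries O) (FractionRing (PowerSeries O)) a) -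
          x * (al (algebraMap (PowerSeries O) (FractionRing (PowerSeries O)) b) -
            algebraMap (PowerSeries O) (FractionRing (PowerSeries O)) b) := by
        rw [hxb, map_mul]
        ring
      rw [h4]
      refine (Valuation.map_sub _ _ _).trans (max_le ?_ ?_)
      · refine h1.trans (le_of_eq ?_)
        rw [hxb, map_mul]
      · rw [map_mul]
        calc v x * v (al (algebraMap (PowerSeries O) (FractionRing (PowerSeries O)) b) -
              algebraMap (PowerSeries O) (FractionRing (PowerSeries O)) b)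
            ≤ v x * (v (algebraMap _ _ (C (ω - 1))) *
                v (algebraMap (PowerSeries O) (FractionRing (PowerSeries O)) b)) :=
              mul_le_mul_right h2 _
          _ = _ := by ac_rfl
    rw [map_mul, hvab, ← mul_assoc] at h3
    exact le_of_mul_le_mul_right h3 (zero_lt_iff.2 hvb)
  · rw [hva, hva, ← map_pow, ← map_pow]
    have hu : IsUnit (-ω ^ 2 : O) := by
      refine IsUnit.neg (IsUnit.pow 2 ?_)
      exact IsUnit.of_mul_eq_one _ hω3
    have h3 : (3 : O) = (ω - 1) ^ 2 * (-ω ^ 2) := by
      linear_combination (ω ^ 2 - 3 * ω + 3) * hω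
    have h4 : (C (3 : O) : PowerSeries O) = C ((ω - 1) ^ 2) * C (-ω ^ 2) := by
      rw [← map_mul, ← h3]
    rw [h4, map_mul, vR_unit ϖ h _ hu, mul_one]

end

end Pool.Agent.NSGR
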