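import Pool.Agent.NS.StGR
import Pool.Agent.MUX.F_ALG
import Pool.Agent.MUX.F_IDL
import Pool.Agent.MUX.F_QB

/-!
# MUX-NS, block GR, module SH3 (helper85): the symbol under `x ↦ x + k/3`
-/

set_option autoImplicit false

namespace Pool.Agent.NSGR

open _root_.MU3 Pool.Agent.MU3A Pool.Agent.MU3B Pool.Agent.MU3Q Pool.Agent.MUX Pool.Agent.NS
  Pool.Agent.NSRD Pool.Agent.NSG Pool.Agent.MUXN Pool.Agent.MuSym OnePoint UpperHalfPlane
open Pool.Agent.MUXF (qb)
open scoped MatrixGroups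

noncomputable section

namespace SH3

variable {A B : ℤ}

/-- the quotient `nm x / N b` is the integer `qb b x` -/
lemma quo (hc : CQ A B) {b : Ideal (OO A B)} (hb : b ≠ ⊥) (x : b) :
    ((nm (x : OO A B) : ℂ) / nI b) = (qb b (x : OO A B) : ℂ) := by
  have hF : MUXF.CQ A B := ⟨hc.hB, hc.neg, hc.fund1, hc.fund0⟩
  have hAL := MUXF.tx_ALG
  have hQB := MUXF.tx_QB hAL (MUXF.tx_IDL hAL)
  have h1 : nm (x : OO A B) = (MUXF.nI b : ℤ) * qb b (x : OO A B) := ((hQB A B hF b hb).1 x.1 x.2).1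
  have hfin : Finite (OO A B ⧸ b) := (hAL A B hF).2.2.2.1 b hb
  have hn0 : (nI b : ℂ) ≠ 0 := by
    have : 0 < nI b := Nat.card_pos
    exact_mod_cast this.ne'
  rw [div_eq_iff hn0]
  have h2 : ((nm (x : OO A B) : ℤ) : ℂ) = (((MUXF.nI b : ℤ) * qb b (x : OO A B) : ℤ) : ℂ) := by
    rw [← h1]
  have h3 : MUXF.nI b = nI b := rfl
  rw [h2, h3]
  push_cast
  ring

/-- the exponential factor of an index which is `t` modulo `3` -/
lemma shift (t n k : ℤ) (hn : (3 : ℤ) ∣ n - t) (z : ℂ) :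
    Complex.exp (2 * Real.pi * Complex.I * (n : ℂ) * (z + k / 3)) =
      Complex.exp (2 * Real.pi * Complex.I * (t * k / 3)) *
        Complex.exp (2 * Real.pi * Complex.I * (n : ℂ) * z) := by
  obtain ⟨m, hm⟩ := hn
  have h1 : n = t + 3 * m := by linarith
  have h2 : (n : ℂ) = (t : ℂ) + 3 * (m : ℂ) := by
    rw [h1]
    push_cast
    ring
  have h3 : (2 * Real.pi * Complex.I * (n : ℂ) * (z + k / 3) : ℂ) =
      (2 * Real.pi * Complex.I * (t * k / 3) + 2 * Real.pi * Complex.I * (n : ℂ) * z) +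
        ((m * k : ℤ) : ℂ) * (2 * Real.pi * Complex.I) := by
    rw [h2]
    push_cast
    ring
  rw [h3, Complex.exp_add, Complex.exp_int_mul_two_pi_mul_I, mul_one, Complex.exp_add]

lemma theta (hc : CQ A B) {b : Ideal (OO A B)} (hb : b ≠ ⊥) {e : OO A B → ℂ} (t : ℤ)
    (ht : ∀ x ∈ b, e x ≠ 0 → (3 : ℤ) ∣ qb b x - t) (k : ℤ) (z : ℂ) :
    thetaI b e (z + k / 3) =
      Complex.exp (2 * Real.pi * Complex.I * (t * k / 3)) * thetaI b e z := by
  have h : ∑' x : b, e x * (starRingEnd ℂ) (emb (x : OO A B)) *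
      Complex.exp (2 * Real.pi * Complex.I * ((nm (x : OO A B) : ℂ) / nI b) * (z + k / 3)) =
      Complex.exp (2 * Real.pi * Complex.I * (t * k / 3)) *
        ∑' x : b, e x * (starRingEnd ℂ) (emb (x : OO A B)) *
          Complex.exp (2 * Real.pi * Complex.I * ((nm (x : OO A B) : ℂ) / nI b) * z) := by
    rw [← tsum_mul_left]
    refine tsum_congr fun x => ?_
    by_cases hx : e x = 0
    · rw [hx]
      ring
    · rw [quo hc hb x, shift t _ k (ht x.1 x.2 hx) z]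
      ring
  unfold thetaI
  rw [h]
  ring

lemma thetaInt (hc : CQ A B) {b : Ideal (OO A B)} (hb : b ≠ ⊥) {e : OO A B → ℂ} (t : ℤ)
    (ht : ∀ x ∈ b, e x ≠ 0 → (3 : ℤ) ∣ qb b x - t) (k : ℤ) (z : ℂ) :
    thetaIntI b e (z + k / 3) =
      Complex.exp (2 * Real.pi * Complex.I * (t * k / 3)) * thetaIntI b e z := by
  have h : ∑' x : b, e x * (starRingEnd ℂ) (emb (x : OO A B)) / ((nm (x : OO A B) : ℂ) / nI b) *
      Complex.exp (2 * Real.pi * Complex.I * ((nm (x : OO A B) : ℂ) / nI b) * (z + k / 3)) =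
      Complex.exp (2 * Real.pi * Complex.I * (t * k / 3)) *
        ∑' x : b, e x * (starRingEnd ℂ) (emb (x : OO A B)) / ((nm (x : OO A B) : ℂ) / nI b) *
          Complex.exp (2 * Real.pi * Complex.I * ((nm (x : OO A B) : ℂ) / nI b) * z) := by
    rw [← tsum_mul_left]
    refine tsum_congr fun x => ?_
    by_cases hx : e x = 0
    · rw [hx]
      ring
    · rw [quo hc hb x, shift t _ k (ht x.1 x.2 hx) z]
      ring
  unfold thetaIntI
  rw [h]
  ring

lemma symb (hc : CQ A B) {b : Ideal (OO A B)} (hb : b ≠ ⊥) {e : OO A B → ℂ} (t : ℤ)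
    (ht : ∀ x ∈ b, e x ≠ 0 → (3 : ℤ) ∣ qb b x - t) (r : ℚ) (k : ℤ) :
    IvI b e (r + k / 3 : ℚ) =
      Complex.exp (2 * Real.pi * Complex.I * (t * k / 3)) * IvI b e r := by
  unfold IvI
  have h1 : ∀ s : ℝ, thetaI b e (((r + k / 3 : ℚ) : ℂ) + s * Complex.I) =
      Complex.exp (2 * Real.pi * Complex.I * (t * k / 3)) *
        thetaI b e ((r : ℂ) + s * Complex.I) := by
    intro s
    rw [← theta hc hb t ht k ((r : ℂ) + s * Complex.I)]
    congr 1
    push_cast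
    ring
  simp only [h1]
  rw [MeasureTheory.integral_const_mul]
  ring

end SH3

theorem tv_SH3 : Sv_SH3 := by
  intro A B hc b g e hb _ _ t ht
  refine ⟨fun r k => ?_, fun τ _ k => SH3.thetaInt hc hb t ht k τ⟩
  have h0 : ∀ x : ℚ, PhiI b e ∞ (x : OnePoint ℚ) = 0 - IvI b e x := fun x => rfl
  rw [h0, h0, SH3.symb hc hb t ht r k]
  ring

end

end Pool.Agent.NSGR
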