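import Pool.Agent.NS.StGR
import Pool.Agent.MUX.XFAll

/-!
# MUX-NS, block GR, module TWR: the two halves of the projector (helper78)
-/

set_option autoImplicit false

namespace Pool.Agent.NSGR

open _root_.MU3 Pool.Agent.MU3A Pool.Agent.MU3B Pool.Agent.MU3Q Pool.Agent.MUX Pool.Agent.NS
  Pool.Agent.NSRD Pool.Agent.NSG Pool.Agent.MUXN Pool.Agent.MuSym OnePoint UpperHalfPlane
open Pool.Agent.MUXF (qb)
open scoped MatrixGroups

noncomputable section

namespace TWR

/-- the coefficients of the statement are those of `F_PRJ` -/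
lemma cf_eq (q : ℕ) (φ : ℤ → ℂ) (a : ℕ) :
    ((1 / q) * ∑ n ∈ Finset.range q, φ n *
        Complex.exp (2 * Real.pi * Complex.I * (-(a * n) / q))) = MUXF.PRJ.cf q φ a := by
  unfold MUXF.PRJ.cf
  congr 1
  refine Finset.sum_congr rfl fun n _ => ?_
  congr 1
  unfold MU3F.ex
  congr 2
  push_cast
  ring

end TWR

theorem tv_TWR : Sv_TWR := by
  intro A B hc b g e hb hg he q φ hq hφ
  have hF : MUXF.CQ A B := ⟨hc.hB, hc.neg, hc.fund1, hc.fund0⟩
  have heF : MUXF.IsEI g e := ⟨he.one, he.mul, he.per, he.supp, he.neg⟩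
  obtain ⟨-, C, -, hC⟩ := MUXF.xf_BDD A B hF g e hg heF
  simp only [TWR.cf_eq]
  constructor
  · intro hv x y
    have a1 : ∀ r : ℚ, ∑ a ∈ Finset.range q, MUXF.PRJ.cf q φ a *
        MUXF.IvI b e (r + (1 : ℤ) * (a / q)) = 1 * MUXF.IvI b e r :=
      MUXF.PRJ.twistI MUXF.xf_QB MUXF.xf_ALG MUXF.xf_TSM MUXF.xf_ITG hF hb hg heF hC hq hφ 1 1 (by
        intro x hx hx0
        rw [one_mul]
        exact hv x hx hx0)
    have b1 : ∀ x : OnePoint ℚ, ∑ a ∈ Finset.range q, MUXF.PRJ.cf q φ a *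
        MUXF.IcI b e (mob q a 0 q x) = MUXF.IcI b e x := by
      intro x
      induction x using OnePoint.rec with
      | infty =>
        have e1 : ∀ a : ℤ, MUXF.IcI b e (mob q a 0 q ∞) = 0 := by
          intro a
          rw [MUXF.PRJ.mob2 _ _ _ _ rfl]
          rfl
        have e2 : MUXF.IcI b e ∞ = 0 := rfl
        simp only [e1, e2, mul_zero, Finset.sum_const_zero]
      | coe r =>
        have e1 := a1 r
        have e2 : MUXF.IcI b e ((r : ℚ) : OnePoint ℚ) = MUXF.IvI b e r := rfl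
        rw [e2, ← one_mul (MUXF.IvI b e r), ← e1]
        refine Finset.sum_congr rfl fun a _ => ?_
        rw [MUXF.PRJ.mob1 hq]
        have e3 : MUXF.IcI b e ((r + ((a : ℤ) : ℚ) / (q : ℚ) : ℚ) : OnePoint ℚ) =
          MUXF.IvI b e (r + ((a : ℤ) : ℚ) / (q : ℚ)) := rfl
        rw [e3]
        congr 2
        push_cast
        ring
    have key : ∑ a ∈ Finset.range q, MUXF.PRJ.cf q φ a *
        PhiI b e (mob q a 0 q x) (mob q a 0 q y) =
        (∑ a ∈ Finset.range q, MUXF.PRJ.cf q φ a * MUXF.IcI b e (mob q a 0 q x)) -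
        (∑ a ∈ Finset.range q, MUXF.PRJ.cf q φ a * MUXF.IcI b e (mob q a 0 q y)) := by
      rw [← Finset.sum_sub_distrib]
      refine Finset.sum_congr rfl fun a _ => ?_
      rw [← mul_sub]
      rfl
    rw [key, b1, b1]
    rfl
  · intro hv x y
    have a2 : ∀ r : ℚ, ∑ a ∈ Finset.range q, MUXF.PRJ.cf q φ a *
        MUXF.IvI b e (r + (-1 : ℤ) * (a / q)) = 0 * MUXF.IvI b e r :=
      MUXF.PRJ.twistI MUXF.xf_QB MUXF.xf_ALG MUXF.xf_TSM MUXF.xf_ITG hF hb hg heF hC hq hφ (-1) 0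
        (by
          intro x hx hx0
          rw [neg_one_mul]
          exact hv x hx hx0)
    have b2 : ∀ x : OnePoint ℚ, ∑ a ∈ Finset.range q,
        MUXF.PRJ.cf q φ a * MUXF.IcI b e (mob (-1) 0 0 1 (mob q a 0 q x)) = 0 := by
      intro x
      induction x using OnePoint.rec with
      | infty =>
        have e1 : ∀ a : ℤ, MUXF.IcI b e (mob (-1) 0 0 1 (mob q a 0 q ∞)) = 0 := by
          intro a
          rw [MUXF.PRJ.mob2 _ _ _ _ rfl, MUXF.PRJ.mob2 _ _ _ _ rfl]
          rfl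
        simp only [e1, mul_zero, Finset.sum_const_zero]
      | coe r =>
        have e1 := a2 (-r)
        rw [zero_mul] at e1
        rw [← e1]
        refine Finset.sum_congr rfl fun a _ => ?_
        rw [MUXF.PRJ.mob1 hq, MUXF.PRJ.mob3]
        have e3 : MUXF.IcI b e ((-(r + ((a : ℤ) : ℚ) / (q : ℚ)) : ℚ) : OnePoint ℚ) =
          MUXF.IvI b e (-(r + ((a : ℤ) : ℚ) / (q : ℚ))) := rfl
        rw [e3]
        congr 2
        push_cast
        ring
    have key : ∑ a ∈ Finset.range q, MUXF.PRJ.cf q φ a *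
        PhiI b e (mob (-1) 0 0 1 (mob q a 0 q x)) (mob (-1) 0 0 1 (mob q a 0 q y)) =
        (∑ a ∈ Finset.range q, MUXF.PRJ.cf q φ a *
          MUXF.IcI b e (mob (-1) 0 0 1 (mob q a 0 q x))) -
        (∑ a ∈ Finset.range q, MUXF.PRJ.cf q φ a *
          MUXF.IcI b e (mob (-1) 0 0 1 (mob q a 0 q y))) := by
      rw [← Finset.sum_sub_distrib]
      refine Finset.sum_congr rfl fun a _ => ?_
      rw [← mul_sub]
      rfl
    rw [key, b2, b2, sub_zero]

end

end Pool.Agent.NSGR
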