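import Pool.Agent.NS.StGR
import Pool.Agent.MUX.I_EPS3
import Pool.Agent.MUX.F_ALG

/-!
# MUX-NS, block GR, module TYI (helper58): the type of the character at the ramified prime
-/

set_option autoImplicit false

namespace Pool.Agent.NSGR

open _root_.MU3 Pool.Agent.MU3A Pool.Agent.MU3B Pool.Agent.MU3Q Pool.Agent.MUX Pool.Agent.NS
  Pool.Agent.NSRD Pool.Agent.NSG Pool.Agent.MUXN Pool.Agent.MuSym OnePoint UpperHalfPlane
open Pool.Agent.MUXF (qb)
open scoped MatrixGroups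

noncomputable section

namespace TYI

variable {A B : ℤ} {P : Ideal (OO A B)}

open Pool.Agent.MUXI.EPS3 (QI)

lemma qi (hP : IsPN 3 P) : QI P := by
  have h3 : (3 : OO A B) ∈ P := by simpa using hP.mem
  have h1 : (1 : OO A B) ∉ P := fun h => hP.prime.ne_top ((Ideal.eq_top_iff_one _).2 h)
  constructor
  · intro x
    have hc : Nat.card (OO A B ⧸ P) = 3 := hP.norm
    have hfin : Finite (OO A B ⧸ P) := Nat.finite_of_card_ne_zero (by rw [hc]; norm_num)
    have ho : addOrderOf (1 : OO A B ⧸ P) = 3 := by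
      have : Fact (Nat.Prime 3) := ⟨Nat.prime_three⟩
      refine addOrderOf_eq_prime ?_ ?_
      · have h0 : (Ideal.Quotient.mk P) (3 : OO A B) = 0 := Ideal.Quotient.eq_zero_iff_mem.2 h3
        rw [nsmul_eq_mul, mul_one, Nat.cast_ofNat, ← h0, map_ofNat]
      · intro h
        exact h1 (Ideal.Quotient.eq_zero_iff_mem.1 (by simpa using h))
    have htop : AddSubgroup.zmultiples (1 : OO A B ⧸ P) = ⊤ := by
      apply AddSubgroup.eq_top_of_card_eq
      rw [Nat.card_zmultiples, ho, hc]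
    have hx : Ideal.Quotient.mk P x ∈ AddSubgroup.zmultiples (1 : OO A B ⧸ P) := by
      rw [htop]
      trivial
    obtain ⟨n, hn⟩ := AddSubgroup.mem_zmultiples_iff.1 hx
    refine ⟨n, Ideal.Quotient.eq_zero_iff_mem.1 ?_⟩
    rw [map_sub, ← hn, map_intCast, zsmul_eq_mul, mul_one, sub_self]
  · intro n
    constructor
    · intro hn
      by_contra h
      have hcop : IsCoprime (3 : ℤ) n := (Int.prime_three.coprime_iff_not_dvd).2 h
      obtain ⟨a, b, hab⟩ := hcop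
      apply h1
      have : (1 : OO A B) = (a : OO A B) * 3 + (b : OO A B) * (n : OO A B) := by
        have := congrArg (fun t : ℤ => (t : OO A B)) hab
        push_cast at this
        exact this.symm
      rw [this]
      exact P.add_mem (P.mul_mem_left _ h3) (P.mul_mem_left _ hn)
    · rintro ⟨c, rfl⟩
      push_cast
      exact P.mul_mem_right _ h3

/-- `p ^ 2 = tr p * p - nm p` -/
lemma sq_eq (p : OO A B) :
    p ^ 2 = ((2 * p.re + B * p.im : ℤ) : OO A B) * p - ((nm p : ℤ) : OO A B) := by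
  have hc : ∀ n : ℤ, ((n : ℤ) : OO A B) = ⟨n, 0⟩ := fun n => by ext <;> simp
  rw [hc, hc, pow_two]
  ext
  · simp [nm]
    ring
  · simp [nm]
    ring

lemma sq_mem (h3D : (3 : ℤ) ∣ B ^ 2 + 4 * A) (hP : IsPN 3 P) {p : OO A B} (hp : p ∈ P) :
    ∃ y : OO A B, p ^ 2 = 3 * y := by
  have hq := qi hP
  have h1 : (3 : ℤ) ∣ nm p := by
    rw [← hq.int, ← Pool.Agent.MUXF.AlgX.mul_star' p]
    exact P.mul_mem_right _ hp
  have h2 : (3 : ℤ) ∣ 2 * p.re + B * p.im := by
    have : (3 : ℤ) ∣ (2 * p.re + B * p.im) ^ 2 := by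
      have e : (2 * p.re + B * p.im) ^ 2 = 4 * nm p + (B ^ 2 + 4 * A) * p.im ^ 2 := by
        unfold nm
        ring
      rw [e]
      exact dvd_add (Dvd.dvd.mul_left h1 _) (Dvd.dvd.mul_right h3D _)
    exact Int.prime_three.dvd_of_dvd_pow this
  obtain ⟨a, ha⟩ := h1
  obtain ⟨b, hb⟩ := h2
  refine ⟨(b : OO A B) * p - (a : OO A B), ?_⟩
  rw [sq_eq, ha, hb]
  push_cast
  ring

lemma cube_mem (h3D : (3 : ℤ) ∣ B ^ 2 + 4 * A) (hP : IsPN 3 P) {f : ℕ} (hf : ¬ 3 ∣ f) {x : OO A B}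
    (hx : x - 1 ∈ idl (A := A) (B := B) f) (hx3 : x - 1 ∈ P) :
    x ^ 3 - 1 ∈ idl (A := A) (B := B) (3 * f) := by
  obtain ⟨y, hy⟩ := sq_mem h3D hP hx3
  obtain ⟨c, hc⟩ := Ideal.mem_span_singleton'.1 hx
  have hcop : IsCoprime (3 : ℤ) (f : ℤ) :=
    (Int.prime_three.coprime_iff_not_dvd).2 (by exact_mod_cast hf)
  obtain ⟨a, b, hab⟩ := hcop
  have hab' : (a : OO A B) * 3 + (b : OO A B) * (f : OO A B) = 1 := by
    have := congrArg (fun t : ℤ => (t : OO A B)) hab
    push_cast at this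
    exact this
  have e1 : x ^ 3 - 1 = 3 * (y * (x - 1) + x * (x - 1)) := by
    have : x ^ 3 - 1 = (x - 1) ^ 2 * (x - 1) + 3 * (x * (x - 1)) := by ring
    rw [this, hy]
    ring
  have e2 : x ^ 3 - 1 = (f : OO A B) * (c * (x ^ 2 + x + 1)) := by
    have : x ^ 3 - 1 = (x - 1) * (x ^ 2 + x + 1) := by ring
    rw [this, ← hc]
    ring
  refine Ideal.mem_span_singleton'.2 ⟨a * (c * (x ^ 2 + x + 1)) +
    b * (y * (x - 1) + x * (x - 1)), ?_⟩
  have e3 : x ^ 3 - 1 = (a : OO A B) * 3 * (x ^ 3 - 1) + (b : OO A B) * (f : OO A B) * (x ^ 3 - 1) := by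
    rw [← add_mul, hab', one_mul]
  rw [e3]
  push_cast
  linear_combination -(a : OO A B) * 3 * e2 - (b : OO A B) * (f : OO A B) * e1

lemma e_one (h3D : (3 : ℤ) ∣ B ^ 2 + 4 * A) (hP : IsPN 3 P) {f : ℕ} (hf : ¬ 3 ∣ f)
    {e : OO A B → ℂ} (he : IsEI (idl (A := A) (B := B) (3 * f)) e) {r : ℕ} (hr : ¬ 3 ∣ r)
    (her : ∀ x, e x ≠ 0 → e x ^ r = 1) {x : OO A B}
    (hx : x - 1 ∈ idl (A := A) (B := B) f) (hx3 : x - 1 ∈ P) : e x = 1 := by
  have h1 : e x ^ 3 = 1 := by
    have h2 := he.per _ _ (cube_mem h3D hP hf hx hx3)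
    rw [he.one] at h2
    rw [← h2]
    have e3 : x ^ 3 = x * (x * x) := by ring
    rw [e3, he.mul, he.mul]
    ring
  have h0 : e x ≠ 0 := by
    intro h
    rw [h] at h1
    norm_num at h1
  have h2 := her x h0
  have hcop : Nat.Coprime 3 r := (Nat.Prime.coprime_iff_not_dvd Nat.prime_three).2 hr
  have h3 : orderOf (e x) ∣ Nat.gcd 3 r :=
    Nat.dvd_gcd (orderOf_dvd_of_pow_eq_one h1) (orderOf_dvd_of_pow_eq_one h2)
  rw [hcop] at h3
  exact orderOf_eq_one_iff.1 (Nat.dvd_one.1 h3)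

end TYI

open TYI in
theorem tv_TYI : Sv_TYI := by
  intro A B P V f hS e he r hr her
  have h3D := hS.case.three
  have hP := hS.hP
  have hf := hS.fp
  have hq := qi hP
  -- the integer `y`
  obtain ⟨y, hyf, hy3⟩ : ∃ y : ℤ, (f : ℤ) ∣ y - 1 ∧ (3 : ℤ) ∣ y + 1 := by
    have hcop : IsCoprime (3 : ℤ) (f : ℤ) :=
      (Int.prime_three.coprime_iff_not_dvd).2 (by exact_mod_cast hf)
    obtain ⟨a, b, hab⟩ := hcop
    refine ⟨1 - 2 * (b * f), ⟨-2 * b, by ring⟩, ⟨2 * a, ?_⟩⟩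
    linear_combination -2 * hab
  have hy2 : e (y : OO A B) * e (y : OO A B) = 1 := by
    rw [← he.mul, ← he.one]
    apply he.per
    obtain ⟨c, hc⟩ := hyf
    obtain ⟨d, hd⟩ := hy3
    have hdv : ((3 * f : ℕ) : ℤ) ∣ y * y - 1 := by
      refine ⟨c * d, ?_⟩
      push_cast
      linear_combination (y + 1) * hc + (f : ℤ) * c * hd
    obtain ⟨k, hk⟩ := hdv
    refine Ideal.mem_span_singleton'.2 ⟨(k : OO A B), ?_⟩
    have := congrArg (fun t : ℤ => (t : OO A B)) hk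
    push_cast at this ⊢
    rw [this]
    ring
  have hyf' : (y : OO A B) - 1 ∈ idl (A := A) (B := B) f := by
    obtain ⟨c, hc⟩ := hyf
    refine Ideal.mem_span_singleton'.2 ⟨(c : OO A B), ?_⟩
    have := congrArg (fun t : ℤ => (t : OO A B)) hc
    push_cast at this ⊢
    rw [this]
    ring
  have hy3' : (y : OO A B) + 1 ∈ P := by
    have := (hq.int (y + 1)).2 hy3
    push_cast at this
    exact this
  have hminus : ∀ x : OO A B, x - 1 ∈ idl (A := A) (B := B) f → x + 1 ∈ P → e x * e (y : OO A B) = 1 := by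
    intro x hx hx1
    rw [← he.mul]
    refine e_one h3D hP hf he hr her ?_ ?_
    · have e1 : x * (y : OO A B) - 1 = (y : OO A B) * (x - 1) + ((y : OO A B) - 1) := by ring
      rw [e1]
      exact Ideal.add_mem _ (Ideal.mul_mem_left _ _ hx) hyf'
    · have e1 : x * (y : OO A B) - 1 = (y : OO A B) * (x + 1) - ((y : OO A B) + 1) := by ring
      rw [e1]
      exact Ideal.sub_mem _ (Ideal.mul_mem_left _ _ hx1) hy3'
  rcases mul_self_eq_one_iff.1 hy2 with hy | hy
  · refine ⟨0, by norm_num, fun x hx hxP => ?_⟩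
    rcases Pool.Agent.MUXI.EPS3.cases hq hxP with ⟨h1, hw⟩ | ⟨h1, hw⟩
    · rw [e_one h3D hP hf he hr her hx h1, pow_zero]
    · have := hminus x hx h1
      rw [hy, mul_one] at this
      rw [this, pow_zero]
  · refine ⟨1, le_refl _, fun x hx hxP => ?_⟩
    rcases Pool.Agent.MUXI.EPS3.cases hq hxP with ⟨h1, hw⟩ | ⟨h1, hw⟩
    · rw [e_one h3D hP hf he hr her hx h1, hw]
      norm_num
    · have := hminus x hx h1
      rw [hy] at this
      rw [hw]
      push_cast
      linear_combination -this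

end

end Pool.Agent.NSGR
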