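import Pool.Agent.MUX.ZN
import Pool.Agent.MUX.XTMain
import Pool.Agent.MUX.YAll
import Pool.Agent.MUX.UAll
import Pool.Agent.NS.GR_BNP
import Pool.Agent.NS.GR_COL
import Pool.Agent.NS.GR_GJP
import Pool.Agent.NS.GR_GPP
import Pool.Agent.NS.GR_GPR
import Pool.Agent.NS.GR_GQR
import Pool.Agent.NS.GR_GTP
import Pool.Agent.NS.GR_GVP
import Pool.Agent.NS.GR_LCR
import Pool.Agent.NS.GR_LGR
import Pool.Agent.NS.GR_ODU
import Pool.Agent.NS.GR_PHR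
import Pool.Agent.NS.GR_PJR
import Pool.Agent.NS.GR_QB3
import Pool.Agent.NS.GR_RLR
import Pool.Agent.NS.GR_RSC
import Pool.Agent.NS.GR_SH3
import Pool.Agent.NS.GR_TWR
import Pool.Agent.NS.GR_TYI
import Pool.Agent.NS.GR_UNR

/-!
# MUX-NS, block GR put together (helper87): Theorem G+ and the inputs of block HR, `3` ramified
-/

set_option autoImplicit false

namespace Pool.Agent.NSGR

open Pool.Agent.MUXF Pool.Agent.MUXU Pool.Agent.MUXY Pool.Agent.MUXN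

theorem v_QB3 : Sv_QB3 := tv_QB3
theorem v_SH3 : Sv_SH3 := tv_SH3
theorem v_UNR : Sv_UNR := tv_UNR xf_IDL xf_NIM
theorem v_LCR : Sv_LCR := tv_LCR tg_LOC
theorem v_LGR : Sv_LGR := tv_LGR u_SCX
theorem v_TYI : Sv_TYI := tv_TYI
theorem v_RLR : Sv_RLR := tv_RLR v_QB3 v_SH3
theorem v_PHR : Sv_PHR := tv_PHR xf_PHX
theorem v_PJR : Sv_PJR := tv_PJR v_PHR tv_TWR v_QB3
theorem v_GPP : Sv_GPP := tv_GPP tv_RSC tv_GVP
theorem v_BNP : Sv_BNP := tv_BNP MU3Q.wq z_DV tv_ODU tv_COL v_GPP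
theorem v_GJP : Sv_GJP := tv_GJP v_BNP z_RET z_NFE
theorem v_GTP : Sv_GTP := tv_GTP v_GJP z_DSC z_ZL z_FK z_FGG
theorem v_GPR : Sv_GPR :=
  tv_GPR v_GTP v_QB3 v_SH3 v_UNR v_LCR v_LGR MUXT.main_FTI xf_CHI y_CON y_ALP y_FEC y_COP
    xf_ALG xf_IDL xf_QB xf_BDD xf_TSM
theorem v_GQR : Sv_GQR := tv_GQR v_GPR v_PJR

end Pool.Agent.NSGR
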