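import Pool.Agent.MUX.N_BIN
import Pool.Agent.NS.DefsN

/-!
# NS, block GN: integrality of a series whose integral is a modular point, Legendre form (helper6; from helper76's N_BIN)
-/

set_option autoImplicit false

namespace Pool.Agent.NSG

open _root_.MU3 Pool.Agent.MU3A Pool.Agent.MU3B Pool.Agent.MU3Q Pool.Agent.MUX Pool.Agent.NS
  Pool.Agent.MUXN Pool.Agent.MuSym
  OnePoint UpperHalfPlane
open scoped MatrixGroups

noncomputable section

namespace NLeg

open Pool.Agent.MUXN.NBin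

/-- the curve over a ring -/
def Wl {O : Type} [CommRing O] (κ : O) : WeierstrassCurve O := ⟨0, -(1 + κ), 0, κ, 0⟩

section Wl

variable {O : Type} [CommRing O] (κ : O)

theorem Wl_Δ : (Wl κ).Δ = 2 ^ 4 * κ ^ 2 * (1 - κ) ^ 2 := by
  simp only [Wl, WeierstrassCurve.Δ, WeierstrassCurve.b₂, WeierstrassCurve.b₄,
    WeierstrassCurve.b₆, WeierstrassCurve.b₈]
  ring

theorem Wl_b₂ : (Wl κ).b₂ = -4 * (1 + κ) := by
  simp only [Wl, WeierstrassCurve.b₂]
  ring

theorem Wl_b₄ : (Wl κ).b₄ = 2 * κ := by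
  simp only [Wl, WeierstrassCurve.b₄]
  ring

theorem Wl_b₆ : (Wl κ).b₆ = 0 := by
  simp only [Wl, WeierstrassCurve.b₆]
  ring

theorem pull {ι : O →+* ℂ} (hι : Function.Injective ι) (c : O) (P Q G : PowerSeries O)
    (h : PowerSeries.C (ι c) ^ 2 * (PowerSeries.map ι Q * thetaD (PowerSeries.map ι P) -
        PowerSeries.map ι P * thetaD (PowerSeries.map ι Q)) ^ 2 =
      PowerSeries.map ι Q * (4 * PowerSeries.map ι P ^ 3 -
        4 * (1 + PowerSeries.C (ι κ)) * PowerSeries.map ι P ^ 2 * PowerSeries.map ι Q +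
        4 * PowerSeries.C (ι κ) * PowerSeries.map ι P * PowerSeries.map ι Q ^ 2) *
        PowerSeries.map ι G ^ 2) :
    PowerSeries.C c ^ 2 * (Q * tth P - P * tth Q) ^ 2 =
      Q * (4 * P ^ 3 + PowerSeries.C (Wl κ).b₂ * P ^ 2 * Q + 2 * PowerSeries.C (Wl κ).b₄ * P * Q ^ 2 +
        PowerSeries.C (Wl κ).b₆ * Q ^ 3) * G ^ 2 := by
  apply mapι_inj hι
  rw [Wl_b₂, Wl_b₄, Wl_b₆]
  simp only [map_mul, map_pow, map_sub, map_add, map_tth, map_ofNat, map_neg, map_one, map_zero,
    PowerSeries.map_C]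
  linear_combination h

end Wl

end NLeg

open NLeg Pool.Agent.MUXN.NBin in
/-- integrality of a series whose integral is a modular point of a curve in Legendre form with good reduction -/
theorem bin_leg (hWQ : St_WQ) (hGP : Sg_GP) (hDV : Sg_DV) (K : Subfield ℂ) [NumberField K]
    (V : ValuationSubring ℂ) (p : ℕ) (hp : p.Prime) (hpV : (p : ℂ) ∈ V.nonunits)
    (h2V : V.valuation (2 : ℂ) = 1) (N : ℕ) (hN : 0 < N)
    (hζ : Complex.exp (2 * Real.pi * Complex.I / N) ∈ K) (L : PeriodPair) (e lam : ℂ)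
    (heq : ∀ z ∉ L.lattice, L.derivWeierstrassP z ^ 2 / 4 =
      (L.weierstrassP z - e) * (L.weierstrassP z - e - 1) * (L.weierstrassP z - e - lam))
    (hκK : lam ∈ K) (hκ : V.valuation lam = 1) (hκ' : V.valuation (1 - lam) = 1)
    (Z : ℍ → ℂ) (z : PowerSeries ℂ) (hQS : QS Z z)
    (hzK : ∀ n, PowerSeries.coeff n z ∈ K) (hz0 : PowerSeries.coeff 0 z = 0)
    (hden : ∃ c ∈ K, c ≠ 0 ∧ c ∈ V ∧ ∀ n : ℕ, c * (n * PowerSeries.coeff n z) ∈ V)
    (hcusp : ∀ γ : SL(2, ℤ), ∃ (C : ℂ) (w : ℕ → ℂ), ∀ τ : ℍ, HasSum (fun n : ℕ => w n *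
      Complex.exp (2 * Real.pi * Complex.I * (τ : ℂ) / N) ^ (n + 1)) (Z (γ • τ) - C))
    (hper : ∀ γ ∈ CongruenceSubgroup.Gamma1 N, ∀ τ : ℍ, Z (γ • τ) - Z τ ∈ L.lattice) :
    PowerSeries.coeff 1 z ∈ V := by
  by_cases h1 : PowerSeries.coeff 1 z = 0
  · rw [h1]
    exact V.zero_mem
  have hκV : lam ∈ V := (V.valuation_le_one_iff _).1 hκ.le
  have hDVR := hDV K V p hp hpV
  obtain ⟨c, hcK, hc0, hcV, hcz⟩ := hden
  obtain ⟨S, -, -, -, S2, ode, A, hA, B, hB, hA0, hAS⟩ := hWQ K V N L (-e) (-(1 + lam))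
    lam 0 Z z hN hζ (K.neg_mem (K.add_mem K.one_mem hκK)) hκK K.zero_mem (by
      intro u hu
      rw [heq u hu]
      ring) hzK hz0 h1 hQS hcusp hper
  have hS0 : S ≠ 0 := by
    rintro rfl
    rw [map_zero] at S2
    exact h1 (pow_eq_zero_iff two_ne_zero |>.1 S2.symm)
  have hB0 : B ≠ 0 := by
    rw [← hAS]
    exact mul_ne_zero hA0 hS0
  have hthS : thetaD S ≠ 0 := by
    intro h
    have h2 := congrArg (PowerSeries.coeff 2) h
    rw [map_zero, thetaD, PowerSeries.coeff_mk, S2] at h2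
    have h3 : PowerSeries.coeff 1 z ^ 2 ≠ 0 := pow_ne_zero 2 h1
    rcases mul_eq_zero.1 h2 with h5 | h5
    · norm_num at h5
    · exact h3 h5
  -- the wronskian
  have hW1 : A * thetaD B - B * thetaD A = A ^ 2 * thetaD S := by
    rw [← hAS, thetaD_mul]
    ring
  have hG : PowerSeries.C c * thetaD z ∈ PP K V := by
    intro n
    rw [PowerSeries.coeff_C_mul, thetaD, PowerSeries.coeff_mk]
    exact ⟨K.mul_mem hcK (K.mul_mem (natCast_mem K n) (hzK n)), hcz n⟩
  have hode : PowerSeries.C c ^ 2 * (B * thetaD A - A * thetaD B) ^ 2 =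
      B * (4 * A ^ 3 - 4 * (1 + PowerSeries.C lam) * A ^ 2 * B + 4 * PowerSeries.C lam * A * B ^ 2) *
        (PowerSeries.C c * thetaD z) ^ 2 := by
    have e1 : (B * thetaD A - A * thetaD B) ^ 2 = A ^ 4 * thetaD S ^ 2 := by
      calc (B * thetaD A - A * thetaD B) ^ 2 = (A * thetaD B - B * thetaD A) ^ 2 := by ring
        _ = _ := by rw [hW1]; ring
    rw [e1, ode, ← hAS, PowerSeries.smul_eq_C_mul, PowerSeries.smul_eq_C_mul,
      PowerSeries.smul_eq_C_mul, map_neg, map_add, map_one, map_zero]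
    ring
  -- the ring
  have h2K : (2 : ℂ) ∈ K := by exact_mod_cast natCast_mem K 2
  have h2V' : (2 : ℂ) ∈ V := (V.valuation_le_one_iff _).1 h2V.le
  have hu : IsUnit (Wl (el lam hκK hκV)).Δ := by
    rw [Wl_Δ]
    have h5 : (1 - lam : ℂ) ∈ K := K.sub_mem K.one_mem hκK
    have h6 : (1 - lam : ℂ) ∈ V := (V.valuation_le_one_iff _).1 hκ'.le
    have h7 : (1 - el lam hκK hκV) = el (1 - lam) h5 h6 := by
      apply io_inj K V
      rw [io_el, map_sub, map_one, io_el]
    have h8 : (2 : ↥(V.comap K.subtype)) = el 2 h2K h2V' := by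
      apply io_inj K V
      rw [io_el, map_ofNat]
    rw [h7, h8]
    exact (((el_unit h2K h2V' h2V).pow 4).mul ((el_unit hκK hκV hκ).pow 2)).mul
      ((el_unit h5 h6 hκ').pow 2)
  have h20 : (2 : ↥(V.comap K.subtype)) ≠ 0 := by
    intro h
    have := congrArg (io K V) h
    rw [map_ofNat, map_zero] at this
    norm_num at this
  have hdvd := hGP ↥(V.comap K.subtype) h20 (Wl (el lam hκK hκV)) hu tth
    (fun f n => by rw [tth, PowerSeries.coeff_mk]) (lft A hA)
    (lft B hB) (lft _ hG) (el c hcK hcV) (by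
      intro h
      have := congrArg (io K V) h
      rw [io_el, map_zero] at this
      exact hc0 this) (by
      intro h
      have := congrArg (PowerSeries.map (io K V)) h
      rw [map_lft, map_zero] at this
      exact hB0 this) (by
      intro h
      have := congrArg (PowerSeries.map (io K V)) h
      rw [map_sub, map_mul, map_mul, map_tth, map_tth, map_lft, map_lft, map_zero] at this
      have h8 : A ^ 2 * thetaD S = 0 := by
        rw [← hW1]
        linear_combination -this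
      exact mul_ne_zero (pow_ne_zero 2 hA0) hthS h8) (by
      apply NLeg.pull _ (io_inj K V)
      rw [map_lft, map_lft, map_lft]
      exact hode)
  obtain ⟨G', hG'⟩ := hdvd
  have h9 := congrArg (PowerSeries.coeff 1) hG'
  rw [PowerSeries.coeff_C_mul] at h9
  have h10 := congrArg (io K V) h9
  rw [map_mul, io_el, lft, PowerSeries.coeff_mk, io_el, PowerSeries.coeff_C_mul, thetaD,
    PowerSeries.coeff_mk, Nat.cast_one, one_mul] at h10
  rw [mul_left_cancel₀ hc0 h10]
  exact io_mem _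

end

end Pool.Agent.NSG
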