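import Pool.Agent.NS.F_ALG

/-!
# MUX-NS, block EN, module ALG (helper86): the ring of the functions `A(s) + r B(s)`

The situation `Pts` is a special case of the situation `PtsR` of the ramified case.
-/

set_option autoImplicit false

open Polynomial

namespace Pool.Agent.NSE

open Pool.Agent.NSER (PtsR tf_ALG)

noncomputable section

lemma Pts.toR {V : ValuationSubring ℂ} {S : Set ℂ} {s r : ℂ → ℂ} {a2 a4 : ℂ}
    (h : Pts V S s r a2 a4) : PtsR V S s r a2 a4 := by
  have h30 : V.valuation (3 : ℂ) ≠ 0 := by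
    intro h1
    exact three_ne_zero ((map_eq_zero V.valuation).mp h1)
  have hlt : ∀ Y ∈ S, V.valuation (s Y) < 1 := by
    intro Y hY
    by_contra h1
    rw [not_lt] at h1
    have h2 : 1 ≤ V.valuation (s Y) ^ 4 := one_le_pow₀ h1
    rw [h.vs Y hY] at h2
    exact absurd h.v3 (not_lt.mpr h2)
  refine ⟨h.v3, h.i2, h.i4, fun Y hY => ⟨?_, hlt Y hY⟩, h.eq, h.neg, ?_, h.fin⟩
  · intro h1
    have h2 := h.vs Y hY
    rw [h1, map_zero, zero_pow (by norm_num)] at h2
    exact h30 h2.symm
  · obtain ⟨y, hy, hi⟩ := h.four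
    refine ⟨y, hy, hi, ?_⟩
    have h1 : V.valuation (∏ i, s (y i)) ^ 4 = V.valuation (3 : ℂ) ^ 4 := by
      rw [map_prod, ← Finset.prod_pow]
      rw [Finset.prod_congr rfl fun i _ => h.vs (y i) (hy i)]
      simp
    by_contra h2
    rw [not_le] at h2
    have h3 := pow_lt_pow_left₀ h2 zero_le' (n := 4) (by norm_num)
    exact absurd h1.symm (ne_of_lt h3)

theorem te_ALG : Se_ALG := by
  intro V S s r a2 a4 hp
  exact tf_ALG V S s r a2 a4 hp.toR

end

end Pool.Agent.NSE
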