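import Pool.Agent.NS.StEN

/-!
# MUX-NS, block EN, module FIN: the final form (helper86)
-/

set_option autoImplicit false

namespace Pool.Agent.NSE

open _root_.MU3 Pool.Agent.MU3A Pool.Agent.MU3B Pool.Agent.MUX Pool.Agent.MUXU
open Pool.Agent.RI Pool.Agent.NS

noncomputable section

namespace FIN

/-- `O/m` is finite -/
lemma fin_quot (A B : ℤ) (hr : Pool.Agent.MUXE.RingE A B) {m : ℕ} (hm : m ≠ 0) :
    Finite (OO A B ⧸ idl (A := A) (B := B) m) := by
  haveI := hr.ded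
  apply Ideal.finiteQuotientOfFreeOfNeBot
  intro h
  rw [Ideal.span_singleton_eq_bot] at h
  obtain ⟨φ, hφ⟩ := hr.hom
  have h1 : φ ((m : ℕ) : OO A B) = 0 := by rw [h, map_zero]
  rw [map_natCast] at h1
  exact hm (by exact_mod_cast h1)

end FIN

open FIN in
theorem te_FIN (h1 : Se_MAIN) : Se_FIN := by
  classical
  intro hR A B V f hS hT ι _ R u e lam hG w hw n hn H hH D h hD
  letI := algC h
  intro hC g hcube τ'
  have hr := Pool.Agent.MUXE.te_RNG A B hS.case.toCQ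
  have hm0 : lvX 3 f n ≠ 0 := by
    have : lvX 3 f n = f * 3 * 3 ^ n := by simp [lvX, q0]
    rw [this]
    exact mul_ne_zero (mul_ne_zero hS.f0 (by norm_num)) (pow_ne_zero _ (by norm_num))
  haveI := fin_quot A B hr hm0
  have hfin : ∀ τ : D ≃ₐ[kk A B] D, (XX R (lvX 3 f n) h τ).Finite := fun τ => Set.toFinite _
  let S : (D ≃ₐ[kk A B] D) → Finset (ι × (OO A B ⧸ idl (A := A) (B := B) (lvX 3 f n))) :=
    fun τ => (hfin τ).toFinset
  have key := h1 A B V f hS hT hR ι R u e lam hG w hw n hn H hH D h hD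
    (fun τ => cX R (lvX 3 f n) H h τ) S hC
    (fun τ q hq => ((hfin τ).mem_toFinset.1 hq).1)
    (fun τ => by
      show cX R (lvX 3 f n) H h τ = _
      rw [cX, finprod_mem_eq_finite_toFinset_prod _ (hfin τ)])
    g hcube τ'
  have e1 : ∀ τ : D ≃ₐ[kk A B] D, TTN R w (lvX 3 f n) (aX 3 f) h (τ * τ') =
      ∑ q ∈ S (τ * τ'), w (Quotient.out q.2) * muX R q.1 *
        dlX (R.L q.1) (aX 3 f) (pt R (lvX 3 f n) q.1 (Quotient.out q.2)) := by
    intro τ
    rw [TTN, finsum_mem_eq_finite_toFinset_sum _ (hfin (τ * τ'))]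
  have e2 : (∑ᶠ τ : D ≃ₐ[kk A B] D, (g τ : ℂ) * TTN R w (lvX 3 f n) (aX 3 f) h (τ * τ')) =
      ∑ᶠ τ : D ≃ₐ[kk A B] D, (g τ : ℂ) * ∑ q ∈ S (τ * τ'), w (Quotient.out q.2) * muX R q.1 *
        dlX (R.L q.1) (aX 3 f) (pt R (lvX 3 f n) q.1 (Quotient.out q.2)) :=
    finsum_congr fun τ => by rw [e1]
  rw [e2]
  exact key

end

end Pool.Agent.NSE
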