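import Pool.Agent.NS.StEN

/-!
# MUX-NS, block EN, module GRN: the Legendre model has good reduction (helper2)

The proof of the group law is that of `Pool/Agent/MUX/R_XIC.lean`, in the scaled coordinates.
-/

set_option autoImplicit false

open Polynomial

namespace Pool.Agent.NSE

open _root_.MU3 Pool.Agent.MU3A Pool.Agent.MU3B Pool.Agent.MUX Pool.Agent.MUXU Pool.Agent.MUXE
open Pool.Agent.RI Pool.Agent.NS
open Pool.Agent.MUXV (GR InK tX)

noncomputable section

namespace GRN

open WeierstrassCurve.Affine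

theorem some_eq {W : WeierstrassCurve.Affine ℂ} {x y x' y' : ℂ} (h : W.Nonsingular x y)
    (h' : W.Nonsingular x' y') (hx : x = x') (hy : y = y') :
    Point.some x y h = Point.some x' y' h' := by
  subst hx hy
  rfl

/-- the group homomorphism in the coordinates `v² (℘ - c)`, `v³ ℘'/2` -/
theorem xi (L : PeriodPair) (c v : ℂ) (hv : v ≠ 0) (W : WeierstrassCurve.Affine ℂ)
    (w1 : W.a₁ = 0) (w2 : W.a₂ = 3 * c * v ^ 2) (w3 : W.a₃ = 0)
    (w4 : W.a₄ = (3 * c ^ 2 - L.g₂ / 4) * v ^ 4)
    (w6 : W.a₆ = (c ^ 3 - L.g₂ / 4 * c - L.g₃ / 4) * v ^ 6) :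
    ∃ ξ : ℂ →+ W.Point, (∀ z ∈ L.lattice, ξ z = 0) ∧
      ∀ z, z ∉ L.lattice → ∃ h, ξ z = .some ((L.weierstrassP z - c) * v ^ 2)
        (L.derivWeierstrassP z / 2 * v ^ 3) h := by
  classical
  set P : ℂ → ℂ := L.weierstrassP with hP
  set D : ℂ → ℂ := L.derivWeierstrassP with hD
  -- the facts
  have hsq : ∀ z, z ∉ L.lattice → D z ^ 2 = 4 * P z ^ 3 - L.g₂ * P z - L.g₃ :=
    fun z hz => L.derivWeierstrassP_sq z hz
  have hpar : ∀ z, P (-z) = P z ∧ D (-z) = -D z := fun z =>
    ⟨L.weierstrassP_neg z, L.derivWeierstrassP_neg z⟩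
  have hper : ∀ z, ∀ u ∈ L.lattice, P (z + u) = P z ∧ D (z + u) = D z := by
    intro z u hu
    exact ⟨L.weierstrassP_add_coe z ⟨u, hu⟩, L.derivWeierstrassP_add_coe z ⟨u, hu⟩⟩
  have hinj : ∀ z z', z ∉ L.lattice → z' ∉ L.lattice → P z = P z' →
      z - z' ∈ L.lattice ∨ z + z' ∈ L.lattice := fun z z' hz hz' hx =>
    b_NEQ L z' z hz' hz hx
  have hy0 : ∀ z, z ∉ L.lattice → (D z = 0 ↔ 2 * z ∈ L.lattice) := fun z hz => b_ZER L z hz
  have hadd := b_ADD L
  have hdbl := b_DUP L
  have hv2 : v ^ 2 ≠ 0 := pow_ne_zero 2 hv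
  have hv3 : v ^ 3 ≠ 0 := pow_ne_zero 3 hv
  have ns : ∀ z, z ∉ L.lattice → W.Nonsingular ((P z - c) * v ^ 2) (D z / 2 * v ^ 3) := by
    intro z hz
    rw [WeierstrassCurve.Affine.nonsingular_iff', WeierstrassCurve.Affine.equation_iff, w1, w2, w3,
      w4, w6]
    refine ⟨by linear_combination (v ^ 6 / 4) * hsq z hz, ?_⟩
    by_contra hcon
    rw [not_or, not_not, not_not] at hcon
    obtain ⟨hx, hy⟩ := hcon
    have h1 := hsq z hz
    have h2 : D z = 0 := by
      apply mul_left_cancel₀ hv3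
      linear_combination hy
    rw [h2] at h1
    have e2 : L.g₂ = 12 * P z ^ 2 := by
      apply mul_left_cancel₀ (pow_ne_zero 4 hv)
      linear_combination 4 * hx
    have e3 : L.g₃ = -8 * P z ^ 3 := by
      linear_combination h1 - P z * e2
    apply (b_DSC L).1
    rw [e2, e3]
    ring
  set f : ℂ → W.Point := fun z => if h : z ∈ L.lattice then 0 else Point.some _ _ (ns z h) with hf
  have hf0 : ∀ z, z ∈ L.lattice → f z = 0 := fun z hz => dif_pos hz
  have hf1 : ∀ z (hz : z ∉ L.lattice), f z = Point.some _ _ (ns z hz) := fun z hz => dif_neg hz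
  have hfper : ∀ z, ∀ u ∈ L.lattice, f (z + u) = f z := by
    intro z u hu
    by_cases hz : z ∈ L.lattice
    · rw [hf0 z hz, hf0 _ (add_mem hz hu)]
    · have hzu : z + u ∉ L.lattice := fun h => hz (by
        have := sub_mem h hu
        rwa [add_sub_cancel_right] at this)
      rw [hf1 z hz, hf1 _ hzu]
      exact some_eq _ _ (by rw [(hper z u hu).1]) (by rw [(hper z u hu).2])
  have hnegY : ∀ x y : ℂ, W.negY x y = -y := by
    intro x y
    rw [WeierstrassCurve.Affine.negY, w1, w3]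
    ring
  have hmap : ∀ z z', f (z + z') = f z + f z' := by
    intro z z'
    by_cases hz : z ∈ L.lattice
    · rw [hf0 z hz, zero_add, add_comm z z', hfper z' z hz]
    by_cases hz' : z' ∈ L.lattice
    · rw [hf0 z' hz', add_zero, hfper z z' hz']
    by_cases hzz : z + z' ∈ L.lattice
    · rw [hf0 _ hzz, hf1 z hz, hf1 z' hz']
      have e : z = -z' + (z + z') := by ring
      have hx : P z = P z' := by
        rw [e, (hper (-z') _ hzz).1, (hpar z').1]
      have hy : D z = -D z' := by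
        rw [e, (hper (-z') _ hzz).2, (hpar z').2]
      exact (Point.add_of_Y_eq (by rw [hx]) (by rw [hnegY, hy]; ring)).symm
    by_cases hzd : z - z' ∈ L.lattice
    · have e1 : f z' = f z := by
        have := hfper z' _ hzd
        rw [← this]
        congr 1
        ring
      have e2 : f (z + z') = f (2 * z) := by
        have := hfper (z + z') _ hzd
        rw [← this]
        congr 1
        ring
      have h2z : 2 * z ∉ L.lattice := by
        intro h
        apply hzz
        have := sub_mem h hzd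
        have e : z + z' = 2 * z - (z - z') := by ring
        rwa [e]
      have hy : D z ≠ 0 := fun h => h2z ((hy0 z hz).1 h)
      have hyne : D z / 2 * v ^ 3 ≠ W.negY ((P z - c) * v ^ 2) (D z / 2 * v ^ 3) := by
        rw [hnegY]
        intro h0
        apply hy
        apply mul_left_cancel₀ hv3
        linear_combination h0
      rw [e1, e2, hf1 z hz, hf1 _ h2z, Point.add_self_of_Y_ne hyne]
      have hsl : W.slope ((P z - c) * v ^ 2) ((P z - c) * v ^ 2) (D z / 2 * v ^ 3)
          (D z / 2 * v ^ 3) = (6 * P z ^ 2 - L.g₂ / 2) / (2 * D z) * v := by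
        rw [WeierstrassCurve.Affine.slope_of_Y_ne rfl hyne, hnegY, w1, w2, w4]
        have h3 : D z / 2 * v ^ 3 - -(D z / 2 * v ^ 3) = D z * v ^ 3 := by ring
        rw [h3]
        field_simp
        ring
      obtain ⟨hd1, hd2⟩ := hdbl z h2z
      have hX : W.addX ((P z - c) * v ^ 2) ((P z - c) * v ^ 2)
          (W.slope ((P z - c) * v ^ 2) ((P z - c) * v ^ 2) (D z / 2 * v ^ 3)
          (D z / 2 * v ^ 3)) = (P (2 * z) - c) * v ^ 2 := by
        rw [WeierstrassCurve.Affine.addX, hsl, w1, w2]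
        linear_combination -(v ^ 2) * hd1
      apply some_eq
      · exact hX.symm
      · rw [WeierstrassCurve.Affine.addY, WeierstrassCurve.Affine.negAddY, hnegY, hX, hsl]
        linear_combination (v ^ 3 / 2) * hd2
    · have hxne : P z ≠ P z' := by
        intro h
        rcases hinj z z' hz hz' h with h3 | h3
        · exact hzd h3
        · exact hzz h3
      have hxne' : (P z - c) * v ^ 2 ≠ (P z' - c) * v ^ 2 := fun h => hxne (by
        have := mul_right_cancel₀ hv2 h
        linear_combination this)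
      rw [hf1 z hz, hf1 z' hz', hf1 _ hzz, Point.add_of_X_ne hxne']
      have hsl : W.slope ((P z - c) * v ^ 2) ((P z' - c) * v ^ 2) (D z / 2 * v ^ 3)
          (D z' / 2 * v ^ 3) = (D z - D z') / (2 * (P z - P z')) * v := by
        rw [WeierstrassCurve.Affine.slope_of_X_ne hxne']
        have h3 : P z - P z' ≠ 0 := sub_ne_zero.2 hxne
        have h4 : (P z - c) * v ^ 2 - (P z' - c) * v ^ 2 = (P z - P z') * v ^ 2 := by ring
        rw [h4]
        field_simp
      obtain ⟨ha1, ha2⟩ := hadd z' z hz' hz hzz hzd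
      have hX : W.addX ((P z - c) * v ^ 2) ((P z' - c) * v ^ 2)
          (W.slope ((P z - c) * v ^ 2) ((P z' - c) * v ^ 2) (D z / 2 * v ^ 3)
          (D z' / 2 * v ^ 3)) = (P (z + z') - c) * v ^ 2 := by
        rw [WeierstrassCurve.Affine.addX, hsl, w1, w2]
        linear_combination -(v ^ 2) * ha1
      apply some_eq
      · exact hX.symm
      · rw [WeierstrassCurve.Affine.addY, WeierstrassCurve.Affine.negAddY, hnegY, hX, hsl]
        linear_combination (v ^ 3 / 2) * ha2
  exact ⟨⟨⟨f, hf0 0 L.lattice.zero_mem⟩, hmap⟩, fun z hz => hf0 z hz,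
    fun z hz => ⟨ns z hz, hf1 z hz⟩⟩

end GRN

/-- (GRN) the Legendre model has good reduction -/
theorem te_GRN (h : Se_COE) : Se_GRN := by
  intro V L u e lam hG h3
  obtain ⟨e1, e2, e3, v2, vl, vl1, -, -, -⟩ := h V L u e lam hG h3
  have hu := hG.u0
  have c1 : (WL lam).a₁ = 0 := rfl
  have c2 : (WL lam).a₂ = -(1 + lam) := rfl
  have c3 : (WL lam).a₃ = 0 := rfl
  have c4 : (WL lam).a₄ = lam := rfl
  have c6 : (WL lam).a₆ = 0 := rfl
  have hui : u⁻¹ ≠ 0 := inv_ne_zero hu
  have huu : u * u⁻¹ = 1 := mul_inv_cancel₀ hu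
  obtain ⟨ξ, h0, h1⟩ := GRN.xi L e u⁻¹ hui (WL lam) c1
    (by
      rw [c2]
      field_simp
      linear_combination -e1)
    c3
    (by
      rw [c4, e2]
      field_simp
      ring)
    (by
      rw [c6, e3]
      ring)
  have v2' : V.valuation (2 : ℂ) = 1 := v2
  refine ⟨ξ, ⟨rfl, rfl, ?_, ?_, ?_⟩, v2', ?_, fun z hz => ?_, h0⟩
  · rw [c2, Valuation.map_neg]
    refine (V.valuation.map_add _ _).trans ?_
    rw [map_one, vl, max_self]
  · rw [c4, vl]
  · rw [c6, map_zero]; exact zero_le_one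
  · have hD : (WL lam).Δ = 2 * 2 * 2 * 2 * (lam * lam) * ((1 - lam) * (1 - lam)) := by
      unfold WeierstrassCurve.Δ WeierstrassCurve.b₂ WeierstrassCurve.b₄ WeierstrassCurve.b₆
        WeierstrassCurve.b₈
      rw [c1, c2, c3, c4, c6]
      ring
    rw [hD]
    simp only [map_mul, v2', vl, vl1, mul_one]
  · obtain ⟨hn, hx⟩ := h1 z hz
    have g1 : (L.weierstrassP z - e) * u⁻¹ ^ 2 = xu L u e z := by
      unfold xu
      field_simp
    have g2 : L.derivWeierstrassP z / 2 * u⁻¹ ^ 3 = yu L u z := by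
      unfold yu
      field_simp
    have hn' : (WL lam).Nonsingular (xu L u e z) (yu L u z) := by
      rw [← g1, ← g2]; exact hn
    exact ⟨hn', hx.trans (GRN.some_eq _ _ g1 g2)⟩

end

end Pool.Agent.NSE
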