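import Pool.Agent.NS.StEN

/-!
# MUX-NS, block EN: module PRO, polynomials, products, quotients and cubes
-/

set_option autoImplicit false

open Polynomial

namespace Pool.Agent.NSE

open _root_.MU3 Pool.Agent.MU3A Pool.Agent.MU3B Pool.Agent.MUX Pool.Agent.MUXU Pool.Agent.MUXE
open Pool.Agent.RI Pool.Agent.NS
open Pool.Agent.MUXV (GR InK tX)

noncomputable section

namespace PRO

variable {V : ValuationSubring ℂ} {S : Set ℂ} {s r : ℂ → ℂ} {a2 a4 : ℂ}

/-- change of the form of the numbers -/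
lemma cong (h : Se_ALG) (hp : Pts V S s r a2 a4) {F : ℂ → ℂ} {α β : ℂ} (hF : Rep V S s r F α β)
    {G : ℂ → ℂ} {α' β' : ℂ} (hG : ∀ Y, G Y = F Y) (hα : α' = α) (hβ : β' = β) :
    Rep V S s r G α' β' := by
  obtain ⟨-, -, -, h4, -⟩ := h V S s r a2 a4 hp
  refine h4 F G α β α' β' hF (fun Y _ => hG Y) ?_ ?_
  · rw [hα, sub_self, map_zero]
    exact zero_le'
  · rw [hβ, sub_self, map_zero]
    exact zero_le'

lemma poly (h : Se_ALG) (hp : Pts V S s r a2 a4) (F : ℂ → ℂ) (α β : ℂ)
    (hF : Rep V S s r F α β) (P : ℂ[X]) : IntP V P →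
      Rep V S s r (fun Y => P.eval (F Y)) (P.eval α) (β * (derivative P).eval α) := by
  obtain ⟨h1, -, -, -, h5, h6, -⟩ := h V S s r a2 a4 hp
  induction P using Polynomial.recOnHorner with
  | M0 =>
    intro _
    refine cong h hp (h1 0 (by rw [map_zero]; exact zero_le')) ?_ ?_ ?_
    · intro Y; simp
    · simp
    · simp
  | MC P a h0 _ ih =>
    intro hI
    have hP : IntP V P := by
      intro i
      cases i with
      | zero => rw [h0, map_zero]; exact zero_le'
      | succ i =>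
        have := hI (i + 1)
        rwa [coeff_add, coeff_C_succ, add_zero] at this
    have ha : V.valuation a ≤ 1 := by
      have := hI 0
      rwa [coeff_add, coeff_C_zero, h0, zero_add] at this
    refine cong h hp (h5 _ _ _ _ _ _ (ih hP) (h1 a ha)) ?_ ?_ ?_
    · intro Y; simp
    · simp
    · simp
  | MX P _ ih =>
    intro hI
    have hP : IntP V P := by
      intro i
      have := hI (i + 1)
      rwa [coeff_mul_X] at this
    refine cong h hp (h6 _ _ _ _ _ _ (ih hP) hF) ?_ ?_ ?_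
    · intro Y; simp
    · simp
    · simp only [derivative_mul, derivative_X, mul_one, eval_add, eval_mul, eval_X]
      ring

lemma pow (h : Se_ALG) (hp : Pts V S s r a2 a4) (F : ℂ → ℂ) (c l : ℂ)
    (hF : Rep V S s r F c (c * l)) (n : ℕ) :
      Rep V S s r (fun Y => F Y ^ n) (c ^ n) (c ^ n * (n * l)) := by
  obtain ⟨h1, -, -, -, h5, h6, -⟩ := h V S s r a2 a4 hp
  induction n with
  | zero =>
    refine cong h hp (h1 1 (by rw [map_one])) ?_ ?_ ?_
    · intro Y; simp
    · simp
    · simp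
  | succ n ih =>
    refine cong h hp (h6 _ _ _ _ _ _ ih hF) ?_ ?_ ?_
    · intro Y; exact pow_succ _ _
    · exact pow_succ _ _
    · push_cast
      ring

lemma zpow (h : Se_ALG) (hp : Pts V S s r a2 a4) (F : ℂ → ℂ) (c l : ℂ)
    (hF : Rep V S s r F c (c * l)) (hc : V.valuation c = 1) (g : ℤ) :
      Rep V S s r (fun Y => F Y ^ g) (c ^ g) (c ^ g * (g * l)) := by
  obtain ⟨-, -, -, -, -, -, h7, -⟩ := h V S s r a2 a4 hp
  have hc0 : c ≠ 0 := by
    rintro rfl
    rw [map_zero] at hc
    exact zero_ne_one hc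
  obtain ⟨n, rfl | rfl⟩ := g.eq_nat_or_neg
  · refine cong h hp (pow h hp F c l hF n) ?_ ?_ ?_
    · intro Y; exact zpow_natCast _ _
    · exact zpow_natCast _ _
    · rw [zpow_natCast]
      push_cast
      ring
  · have h8 := (h7 _ _ _ (pow h hp F c l hF n) (by rw [map_pow, hc, one_pow])).2
    refine cong h hp h8 ?_ ?_ ?_
    · intro Y
      rw [zpow_neg, zpow_natCast]
    · rw [zpow_neg, zpow_natCast]
    · rw [zpow_neg, zpow_natCast]
      have hcn : c ^ n ≠ 0 := pow_ne_zero _ hc0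
      push_cast
      field_simp

lemma prod (h : Se_ALG) (hp : Pts V S s r a2 a4) {J : Type} (T : Finset J) (F : J → ℂ → ℂ)
    (c l : J → ℂ) (g : J → ℤ) (hF : ∀ j, Rep V S s r (F j) (c j) (c j * l j))
    (hc : ∀ j, V.valuation (c j) = 1) :
      Rep V S s r (fun Y => ∏ j ∈ T, F j Y ^ g j) (∏ j ∈ T, c j ^ g j)
        ((∏ j ∈ T, c j ^ g j) * ∑ j ∈ T, (g j : ℂ) * l j) := by
  classical
  obtain ⟨h1, -, -, -, h5, h6, -⟩ := h V S s r a2 a4 hp
  induction T using Finset.induction_on with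
  | empty =>
    refine cong h hp (h1 1 (by rw [map_one])) ?_ ?_ ?_
    · intro Y; simp
    · simp
    · simp
  | insert a T ha ih =>
    refine cong h hp (h6 _ _ _ _ _ _ (zpow h hp (F a) (c a) (l a) (hF a) (hc a) (g a)) ih)
      ?_ ?_ ?_
    · intro Y; exact Finset.prod_insert ha
    · exact Finset.prod_insert ha
    · rw [Finset.prod_insert ha, Finset.sum_insert ha]
      ring

end PRO

theorem te_PRO (h : Se_ALG) : Se_PRO := by
  intro V S s r a2 a4 hp
  refine ⟨fun F α β P hF hP => PRO.poly h hp F α β hF P hP, ?_, ?_⟩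
  · intro J _ F c l g hF hc
    refine ⟨?_, PRO.prod h hp Finset.univ F c l g hF hc⟩
    rw [map_prod]
    refine Finset.prod_eq_one fun i _ => ?_
    rw [map_zpow₀, hc i, one_zpow]
  · intro F G α β α' β' hG hFG hF
    obtain ⟨-, -, -, h4, -, h6, -, h8, h9⟩ := h V S s r a2 a4 hp
    have h10 := h6 _ _ _ _ _ _ (h6 _ _ _ _ _ _ hG hG) hG
    have h11 : Rep V S s r F (α * α * α) (3 * (α ^ 2 * β)) := by
      refine h4 _ F _ _ _ _ h10 (fun Y hY => ?_) ?_ ?_
      · rw [hFG Y hY]
        ring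
      · rw [sub_self, map_zero]
        exact zero_le'
      · have e : 3 * (α ^ 2 * β) - (α * α * β + α * (α * β + α * β)) = 0 := by ring
        rw [e, map_zero]
        exact zero_le'
    have h12 := (h9 _ _ _ _ _ hF h11).2
    obtain ⟨hα, hβ, -⟩ := h8 _ _ _ hG
    have h13 : V.valuation (3 * (α ^ 2 * β)) ≤ V.valuation 3 := by
      rw [map_mul, map_mul, map_pow]
      exact mul_le_of_le_one_right' (mul_le_one' (pow_le_one' hα 2) hβ)
    have e : β' = (β' - 3 * (α ^ 2 * β)) + 3 * (α ^ 2 * β) := by ring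
    rw [e]
    exact V.valuation.map_add_le h12 h13

end

end Pool.Agent.NSE
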