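import Pool.Agent.NS.StEN

/-!
# MUX-NS, block EN: pullback of representable functions (helper96)

`F = A(s') + r' B(s')` on `S'`, `ρ : S → S'` with `s' ∘ ρ` represented by `(0, 0)` and `r' ∘ ρ` by
`(0, c)`: then `F ∘ ρ` is represented by `(α, β c)`.
-/

set_option autoImplicit false

open Polynomial

namespace Pool.Agent.NSE

open _root_.MU3 Pool.Agent.MU3A Pool.Agent.MU3B Pool.Agent.MUX Pool.Agent.MUXU Pool.Agent.MUXE
open Pool.Agent.RI Pool.Agent.NS
open Pool.Agent.MUXV (GR InK tX)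

theorem te_PUL (hA : Se_ALG) (hP : Se_PRO) : Se_PUL := by
  intro V S S' s r s' r' a2 a4 ρ c hpts hρ hs hr F α β hF
  obtain ⟨-, -, -, hch, hadd, hmul, -, hval, -⟩ := hA V S s r a2 a4 hpts
  obtain ⟨hpol, -, -⟩ := hP V S s r a2 a4 hpts
  obtain ⟨P, Q, iP, iQ, hFe, hPα, hQβ⟩ := hF
  have hc : V.valuation c ≤ 1 := (hval _ _ _ hr).2.1
  have h1 := hpol _ _ _ P hs iP
  have h2 := hpol _ _ _ Q hs iQ
  have h3 := hmul _ _ _ _ _ _ hr h2
  have h4 := hadd _ _ _ _ _ _ h1 h3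
  refine hch _ _ _ _ _ _ h4 (fun Y hY => hFe (ρ Y) (hρ Y hY)) ?_ ?_
  · have e1 : α - (P.eval 0 + 0 * Q.eval 0) = -(P.coeff 0 - α) := by
      rw [coeff_zero_eq_eval_zero P]
      ring
    rw [e1, Valuation.map_neg]
    exact hPα
  · have e2 : β * c - (0 * (derivative P).eval 0 +
        (0 * (0 * (derivative Q).eval 0) + Q.eval 0 * c)) = -(Q.coeff 0 - β) * c := by
      rw [coeff_zero_eq_eval_zero Q]
      ring
    rw [e2, map_mul, Valuation.map_neg]
    calc V.valuation (Q.coeff 0 - β) * V.valuation c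
        ≤ V.valuation (3 : ℂ) * 1 := mul_le_mul' hQβ hc
      _ = V.valuation (3 : ℂ) := mul_one _

end Pool.Agent.NSE
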