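import Pool.Agent.NS.StEN
import Pool.Agent.NS.RN_RAM

/-!
# MUX-NS, block EN: module RAM (helper75), from `RN_RAM.lean` (helper44) with `P = (3)`, `ϖ = 3`
-/

set_option autoImplicit false

open Polynomial

namespace Pool.Agent.NSE

open _root_.MU3 Pool.Agent.MU3A Pool.Agent.MU3B Pool.Agent.MUX Pool.Agent.MUXU Pool.Agent.MUXE
open Pool.Agent.RI Pool.Agent.NS

theorem te_RAM : Se_RAM := by
  intro A B V hC F _ _ htriv y hy hy0
  obtain ⟨⟨φ, hφ⟩, hinj, -, -, -⟩ := hC.ring
  have h3e : emb (((3 : ℕ) : OO A B)) = (3 : ℂ) := by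
    rw [← hφ, map_natCast]
    norm_num
  have h3ne : (3 : ℂ) ≠ 0 := by norm_num
  have hmul : ∀ z : OO A B, emb (((3 : ℕ) : OO A B) * z) = 3 * emb z := by
    intro z
    rw [← hφ, map_mul, hφ, hφ, h3e]
  have hlt : ∀ z : OO A B, V.valuation (emb (((3 : ℕ) : OO A B) * z)) < 1 := by
    intro z
    rw [hmul, map_mul]
    exact mul_lt_one_of_lt_of_le hC.v3 (hC.int z)
  have hmem3 : ((3 : ℕ) : OO A B) ∈ idl (A := A) (B := B) 3 := Ideal.mem_span_singleton_self _
  have h30 : ((3 : ℕ) : OO A B) ≠ 0 := by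
    intro h
    have h1 := congrArg emb h
    rw [h3e, ← hφ 0, map_zero] at h1
    exact h3ne h1
  have hP0 : idl (A := A) (B := B) 3 ≠ ⊥ := by
    intro h
    rw [h] at hmem3
    exact h30 (by simpa using hmem3)
  have hOver : OverI V (idl (A := A) (B := B) 3) := by
    intro x
    rw [ValuationSubring.mem_nonunits_iff]
    constructor
    · intro h
      by_contra hx
      rw [hC.unit x hx] at h
      exact lt_irrefl _ h
    · intro h
      obtain ⟨z, rfl⟩ := Ideal.mem_span_singleton'.mp h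
      rw [mul_comm]
      exact hlt z
  have hsq : ((3 : ℕ) : OO A B) ∉ (idl (A := A) (B := B) 3) ^ 2 := by
    intro h
    rw [Ideal.span_singleton_pow] at h
    obtain ⟨z, hz⟩ := Ideal.mem_span_singleton'.mp h
    have h1 := congrArg emb hz
    have h2 : emb (z * ((3 : ℕ) : OO A B) ^ 2) = emb z * 9 := by
      rw [← hφ, map_mul, map_pow, hφ, hφ, h3e]
      norm_num
    rw [h2, h3e] at h1
    have h4 : (1 : ℂ) = 3 * emb z := by linear_combination (-1 / 3 : ℂ) * h1
    have h5 := congrArg V.valuation h4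
    rw [map_one, map_mul] at h5
    have h6 := mul_lt_one_of_lt_of_le hC.v3 (hC.int z)
    rw [← h5] at h6
    exact lt_irrefl _ h6
  obtain ⟨k, hk⟩ := Pool.Agent.NSR.tr_RAM A B V (idl (A := A) (B := B) 3) ((3 : ℕ) : OO A B) hC.cq
    hC.max.isPrime hP0 hOver hmem3 hsq F htriv y hy hy0
  exact ⟨k, by rw [hk, h3e]⟩

end Pool.Agent.NSE
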