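import Pool.Agent.NS.StEN
import Pool.Agent.MU3.BAll

/-!
# MUX-NS, block EN: module THN, the functions `Θ_a(z + μ Y)` on the points of order three
-/

set_option autoImplicit false

open Polynomial

namespace Pool.Agent.NSE

open _root_.MU3 Pool.Agent.MU3A Pool.Agent.MU3B Pool.Agent.MUX Pool.Agent.MUXU Pool.Agent.MUXE
open Pool.Agent.RI Pool.Agent.NS
open Pool.Agent.MUXV (GR InK tX)

noncomputable section

/-- THN. -/
theorem te_THN (h1 : Se_ALG) (h2 : Se_PRO) (h3 : Se_PUL) (h4 : Se_GRN) (h5 : Se_ISO)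
    (h6 : Se_ADD) (h7 : Se_PTS) : Se_THN := by
  intro V L M u e lam u' e' lam' μ N hL hM v3 hμ hI hN hNz a H ha hH z hz haz hq
  obtain ⟨ξ, G⟩ := h4 V M u' e' lam' hM v3
  have P := (h7 V L u e lam hL v3).1
  obtain ⟨a1, -, -, a4, a5, a6, -, a8, -⟩ := h1 V (E3 L) (su L u e) (ru L u e) _ _ P
  obtain ⟨-, p2, -⟩ := h2 V (E3 L) (su L u e) (ru L u e) _ _ P
  obtain ⟨i1, i2, i3⟩ := h5 V L M u e lam u' e' lam' μ N hL hM v3 hμ hI hN hNz
  have hu' : u' ≠ 0 := hM.u0
  have hu : u ≠ 0 := hL.u0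
  have hx : ∀ w q, M.weierstrassP w - M.weierstrassP q =
      u' ^ 2 * (xu M u' e' w - xu M u' e' q) := by
    intro w q
    unfold xu
    field_simp
    ring
  have hcv : ∀ q : H, V.valuation (xu M u' e' z - xu M u' e' q) = 1 := fun q =>
    Pool.Agent.MUXV.v_X_sub G hz (hq q q.2).1 (hq q q.2).2.1 (hq q q.2).2.2
  have hc0 : ∀ q : H, xu M u' e' z - xu M u' e' q ≠ 0 := fun q h0 => by
    have := hcv q
    rw [h0, map_zero] at this
    exact zero_ne_one this
  have hTh : ∀ w, ThetaH M H w =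
      (u' ^ 2) ^ H.card * ∏ q : H, (xu M u' e' w - xu M u' e' q) := by
    intro w
    unfold ThetaH
    rw [← Finset.prod_coe_sort, ← Fintype.card_coe H, ← Finset.card_univ, ← Finset.prod_const,
      ← Finset.prod_mul_distrib]
    exact Finset.prod_congr rfl fun q _ => hx w q
  have hnat : ∀ w ∈ M.lattice, (a : ℂ) * w ∈ M.lattice := by
    intro w hw
    have := M.lattice.smul_mem (a : ℤ) hw
    rwa [zsmul_eq_mul, Int.cast_natCast] at this
  have hdl : ∑ q : H, M.derivWeierstrassP z / (M.weierstrassP z - M.weierstrassP q) =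
      dlX M a z := by
    have h8 := (b_TDL M (a : ℂ) H (Nat.cast_ne_zero.2 ha) hnat hH z haz).1
    unfold dlX
    rw [← Finset.sum_coe_sort] at h8
    have h9 : ((‖(a : ℂ)‖ ^ 2 : ℝ) : ℂ) = (a : ℂ) ^ 2 := by
      rw [Complex.norm_natCast]; push_cast; rfl
    rw [h9] at h8
    exact h8
  have r1 := h3 V (E3 L) (E3 M) (su L u e) (ru L u e) (su M u' e') (ru M u' e') _ _
    (fun Y => μ * Y) (μ * u' / u) P i1 i2 i3 (fun Y => xu M u' e' (z + Y)) (xu M u' e' z)
    (2 * yu M u' z) (h6 V M u' e' lam' hM v3 z hz)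
  have z0 : ∀ {x y : ℂ}, x = y → V.valuation (x - y) ≤ V.valuation (3 : ℂ) := by
    rintro x y rfl
    rw [sub_self, map_zero]
    exact zero_le
  have r2 : ∀ q : H, Rep V (E3 L) (su L u e) (ru L u e)
      (fun Y => xu M u' e' (z + μ * Y) - xu M u' e' q) (xu M u' e' z - xu M u' e' q)
      ((xu M u' e' z - xu M u' e' q) *
        (2 * yu M u' z * (μ * u' / u) / (xu M u' e' z - xu M u' e' q))) := by
    intro q
    have s1 := a5 _ _ _ _ _ _ r1 (a1 (-xu M u' e' q)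
      (by rw [Valuation.map_neg]; exact (Pool.Agent.MUXV.int_X (hq q q.2).1).2))
    refine a4 _ _ _ _ _ _ s1 (fun Y _ => sub_eq_add_neg _ _) (z0 (sub_eq_add_neg _ _)) (z0 ?_)
    rw [mul_div_cancel₀ _ (hc0 q), add_zero]
  obtain ⟨v1, r3⟩ := p2 H (fun q Y => xu M u' e' (z + μ * Y) - xu M u' e' q)
    (fun q => xu M u' e' z - xu M u' e' q)
    (fun q => 2 * yu M u' z * (μ * u' / u) / (xu M u' e' z - xu M u' e' q)) (fun _ => 1) r2 hcv
  have hP0 : ∏ q : H, (xu M u' e' z - xu M u' e' q) ^ (1 : ℤ) ≠ 0 :=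
    Finset.prod_ne_zero_iff.2 fun q _ => zpow_ne_zero _ (hc0 q)
  have r4 := a6 _ _ _ _ _ _ r3 (a1 (∏ q : H, (xu M u' e' z - xu M u' e' q) ^ (1 : ℤ))⁻¹
    (by rw [map_inv₀, v1, inv_one]))
  have r5 : Rep V (E3 L) (su L u e) (ru L u e)
      (fun Y => ThetaH M H (z + μ * Y) / ThetaH M H z) 1 (μ * dlX M a z / u) := by
    refine a4 _ _ _ _ _ _ r4 (fun Y _ => ?_) (z0 (mul_inv_cancel₀ hP0).symm) (z0 ?_)
    · have hk : (u' ^ 2) ^ H.card ≠ 0 := pow_ne_zero _ (pow_ne_zero _ hu')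
      change ThetaH M H (z + μ * Y) / ThetaH M H z =
        (∏ q : H, (xu M u' e' (z + μ * Y) - xu M u' e' q) ^ (1 : ℤ)) *
          (∏ q : H, (xu M u' e' z - xu M u' e' q) ^ (1 : ℤ))⁻¹
      rw [hTh, hTh, mul_div_mul_left _ _ hk, div_eq_mul_inv]
      simp only [zpow_one]
    · rw [mul_zero, zero_add, inv_mul_cancel_left₀ hP0, ← hdl, mul_div_right_comm,
        Finset.mul_sum]
      refine Finset.sum_congr rfl fun q _ => ?_
      have := hc0 q
      rw [hx]
      unfold yu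
      push_cast
      field_simp
  refine ⟨?_, (a8 _ _ _ r5).2.1, r5⟩
  rw [hTh, map_mul, map_pow, map_prod, Finset.prod_eq_one fun q _ => hcv q, mul_one]

end

end Pool.Agent.NSE
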