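import Pool.Agent.NS.StEN
import Pool.Agent.MUX.E_TP

/-!
# MUX-NS, block EN: torsion points (TPN)
-/

set_option autoImplicit false

open Polynomial

namespace Pool.Agent.NSE

open _root_.MU3 Pool.Agent.MU3A Pool.Agent.MU3B Pool.Agent.MUX Pool.Agent.MUXU Pool.Agent.MUXE
open Pool.Agent.RI Pool.Agent.NS
open Pool.Agent.MUXV (GR InK tX)

noncomputable section

namespace TPN

theorem v_int (V : ValuationSubring ℂ) (a : ℤ) : V.valuation (a : ℂ) ≤ 1 :=
  (V.valuation_le_one_iff _).2 (intCast_mem V a)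

/-- integers prime to `3` are units at `V` -/
theorem v_nat (V : ValuationSubring ℂ) (h3 : V.valuation (3 : ℂ) < 1) (N : ℕ) (hN : ¬ 3 ∣ N) :
    V.valuation (N : ℂ) = 1 := by
  have hc : Nat.Coprime N 3 := ((Nat.Prime.coprime_iff_not_dvd Nat.prime_three).2 hN).symm
  obtain ⟨a, b, hab⟩ := Nat.isCoprime_iff_coprime.2 hc
  refine le_antisymm ?_ ?_
  · have := v_int V (N : ℤ)
    rwa [Int.cast_natCast] at this
  · by_contra hlt
    have hlt' : V.valuation (N : ℂ) < 1 := not_le.1 hlt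
    have e : (a : ℂ) * (N : ℂ) + (b : ℂ) * 3 = 1 := by
      have := congrArg (fun t : ℤ => (t : ℂ)) hab
      push_cast at this
      exact this
    have h1 : V.valuation ((a : ℂ) * (N : ℂ)) < 1 := by
      rw [map_mul]
      exact lt_of_le_of_lt (mul_le_of_le_one_left' (v_int V a)) hlt'
    have h2 : V.valuation ((b : ℂ) * 3) < 1 := by
      rw [map_mul]
      exact lt_of_le_of_lt (mul_le_of_le_one_left' (v_int V b)) h3
    have h4 := Valuation.map_add_lt V.valuation h1 h2
    rw [e, map_one] at h4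
    exact lt_irrefl _ h4

theorem one_lt_of {Γ : Type*} [LinearOrderedCommGroupWithZero Γ] {T π : Γ} {m : ℕ}
    (h : T ^ m * π = 1) (hπ : π < 1) : 1 < T := by
  by_contra hc
  have hc' : T ≤ 1 := not_lt.1 hc
  have h1 : T ^ m ≤ 1 := pow_le_one' hc' m
  have h2 : T ^ m * π ≤ 1 * π := mul_le_mul_left h1 π
  rw [h, one_mul] at h2
  exact absurd hπ (not_lt.2 h2)

theorem inv_pow_eq {Γ : Type*} [LinearOrderedCommGroupWithZero Γ] {T π : Γ} {m : ℕ}
    (hT : T ≠ 0) (h : T⁻¹ ^ m = π) : T ^ m * π = 1 := by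
  rw [← h, inv_pow]
  exact mul_inv_cancel₀ (pow_ne_zero _ hT)

end TPN

open TPN in
theorem te_TPN (h1 : Se_COE) (h2 : Se_GRN) (h3 : Se_LEG) (h4 : Se_TW3) (h5 : Su_PFI) :
    Se_TPN := by
  intro V L u e lam hG hv3
  obtain ⟨ξ, G⟩ := h2 V L u e lam hG hv3
  obtain ⟨-, -, -, -, -, -, -, -, per⟩ := h1 V L u e lam hG hv3
  refine ⟨fun N hN => ⟨v_nat V hv3 N hN, fun z hz hK =>
    Pool.Agent.MUXV.mem_of_nat_mul G hK (v_nat V hv3 N hN) hz⟩, ?_⟩
  obtain ⟨w, -, hw2, hwL, -, -, -, -, hxw⟩ := h3 V L u e lam hG hv3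
  have hπ0 : V.valuation (3 : ℂ) ≠ 0 := (Valuation.ne_zero_iff _).2 (by norm_num)
  have three_mul_mem : ∀ z ∈ L.lattice, (3 : ℂ) * z ∈ L.lattice := by
    intro z hz
    have := add_mem (add_mem hz hz) hz
    convert this using 1
    ring
  obtain ⟨R, hR⟩ := b_REP L 3 (by norm_num) three_mul_mem
  have hRM : IsRpM L L 3 R := ⟨hR.mem, hR.ne, hR.inj, hR.surj⟩
  have hcard : R.card = 9 - 1 := by
    have := b_NUM L 3 R (by norm_num) three_mul_mem hR
    have h9 : ‖(3 : ℂ)‖ ^ 2 = 9 := by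
      rw [show (3 : ℂ) = ((3 : ℝ) : ℂ) by norm_num, Complex.norm_real]
      norm_num
    rw [h9] at this
    have h10 : (R.card : ℝ) = 8 := by linarith
    exact_mod_cast h10
  have hw3 : (3 : ℂ) * w ∉ L.lattice := by
    intro h
    apply hwL
    have := sub_mem h hw2
    convert this using 1
    ring
  have hxw3 : xu L u e (3 * w) = 0 := by
    have := ((per w).1 (2 * w) hw2).1
    rw [← hxw, ← this]
    congr 1
    ring
  have hwK : ¬ InK V L (xu L u e) w := by
    rintro (h | h)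
    · exact hwL h
    · apply h
      rw [hxw]
      exact zero_mem _
  -- the points of `R`
  have hq : ∀ q ∈ R, InK V L (xu L u e) q ∧ xu L u e q ≠ 0 ∧
      V.valuation (xu L u e q) ^ 4 * V.valuation (3 : ℂ) = 1 := by
    intro q hqR
    obtain ⟨k1, k2, k3⟩ := h4 V L u e lam hG hv3 q ⟨hR.mem q hqR, hR.ne q hqR⟩
    refine ⟨k1, k2, ?_⟩
    unfold su at k3
    rw [map_inv₀] at k3
    exact inv_pow_eq ((Valuation.ne_zero_iff _).2 k2) k3
  have hRne : R.Nonempty := by
    rw [← Finset.card_pos, hcard]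
    norm_num
  obtain ⟨q0, hq0R⟩ := hRne
  have hRT : ∀ q ∈ R, V.valuation (xu L u e q) = V.valuation (xu L u e q0) := by
    intro q hqR
    have h6 : V.valuation (xu L u e q) ^ 4 * V.valuation (3 : ℂ) =
        V.valuation (xu L u e q0) ^ 4 * V.valuation (3 : ℂ) := by
      rw [(hq q hqR).2.2, (hq q0 hq0R).2.2]
    exact (pow_left_inj₀ zero_le zero_le four_ne_zero).1 (mul_right_cancel₀ hπ0 h6)
  -- the product formula
  have hu := hG.u0
  have pfi : ∀ z : ℂ, (3 : ℂ) * z ∉ L.lattice →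
      (3 : ℂ) ^ 2 * (xu L u e (3 * z) - xu L u e (3 * w)) * ∏ q ∈ R, (xu L u e z - xu L u e q) =
        (xu L u e z - xu L u e w) * ∏ q ∈ R, (xu L u e z - xu L u e (w + q)) := by
    intro z hz
    have pf := h5 L L 3 R (by norm_num) three_mul_mem hRM w hw3 z hz
    have xd : ∀ a b : ℂ, L.weierstrassP a - L.weierstrassP b =
        u ^ 2 * (xu L u e a - xu L u e b) := by
      intro a b
      unfold xu
      field_simp
      ring
    simp only [xd, Finset.prod_mul_distrib, Finset.prod_const] at pf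
    have hu' : u ^ 2 * (u ^ 2) ^ R.card ≠ 0 := by positivity
    apply mul_left_cancel₀ hu'
    linear_combination pf
  intro j
  induction j with
  | zero =>
    intro z hz hz0
    obtain ⟨k1, k2, k3⟩ := h4 V L u e lam hG hv3 z ⟨by simpa using hz, by simpa using hz0⟩
    exact ⟨k1, k2, by simpa using k3⟩
  | succ j ih =>
    intro z hz hz0
    have hz' : 3 ^ (j + 1) * (3 * z) ∈ L.lattice := by
      have : (3 : ℂ) ^ (j + 1) * (3 * z) = 3 ^ (j + 1 + 1) * z := by ring
      rw [this]; exact hz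
    have hz0' : 3 ^ j * (3 * z) ∉ L.lattice := by
      have : (3 : ℂ) ^ j * (3 * z) = 3 ^ (j + 1) * z := by ring
      rw [this]; exact hz0
    obtain ⟨y1, y2, y3⟩ := ih (3 * z) hz' hz0'
    have pow_mem : ∀ (i : ℕ) (a : ℂ), a ∈ L.lattice → (3 : ℂ) ^ i * a ∈ L.lattice := by
      intro i a ha
      induction i with
      | zero => simpa using ha
      | succ i ih' =>
        have := three_mul_mem _ ih'
        convert this using 1
        ring
    have h3z : (3 : ℂ) * z ∉ L.lattice := fun h => hz0' (pow_mem j _ h)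
    have hy0 : V.valuation (xu L u e (3 * z)) ≠ 0 := (Valuation.ne_zero_iff _).2 y2
    have hyk : V.valuation (xu L u e (3 * z)) ^ (4 * 9 ^ j) * V.valuation (3 : ℂ) = 1 := by
      unfold su at y3
      rw [map_inv₀] at y3
      exact inv_pow_eq hy0 y3
    have hT : V.valuation (3 : ℂ) ^ 2 * V.valuation (xu L u e q0) ^ (9 - 1) = 1 := by
      have h6 := (hq q0 hq0R).2.2
      calc V.valuation (3 : ℂ) ^ 2 * V.valuation (xu L u e q0) ^ (9 - 1)
          = (V.valuation (xu L u e q0) ^ 4 * V.valuation (3 : ℂ)) ^ 2 := by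
            rw [mul_pow, ← pow_mul, mul_comm]
        _ = 1 := by rw [h6, one_pow]
    have hyk' : V.valuation (3 : ℂ) ^ 2 *
        V.valuation (xu L u e (3 * z)) ^ ((9 - 1) * 9 ^ j) = 1 := by
      calc V.valuation (3 : ℂ) ^ 2 * V.valuation (xu L u e (3 * z)) ^ ((9 - 1) * 9 ^ j)
          = (V.valuation (xu L u e (3 * z)) ^ (4 * 9 ^ j) * V.valuation (3 : ℂ)) ^ 2 := by
            rw [mul_pow, ← pow_mul, mul_comm]
            congr 2
            ring
        _ = 1 := by rw [hyk, one_pow]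
    obtain ⟨X1, X2⟩ := TP.num V.valuation 9 (9 ^ j) (by norm_num) (by positivity) R hcard 3
      (xu L u e (3 * z)) (xu L u e (3 * w)) (xu L u e z) (xu L u e w) (fun q => xu L u e q)
      (fun q => xu L u e (w + q)) (V.valuation (xu L u e q0)) (V.valuation (3 : ℂ)) hπ0 hv3 rfl
      hT (one_lt_of (hq q0 hq0R).2.2 hv3) hRT
      (fun q hqR => (Pool.Agent.MUXV.int_X (fun hin => hwK (by
        have := Pool.Agent.MUXV.inK_sub G hin (hq q hqR).1
        rwa [add_sub_cancel_right] at this))).2)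
      (by rw [hxw, map_zero]; exact zero_le) (by rw [hxw3, map_zero]; exact zero_le)
      (one_lt_of hyk hv3) hyk' (pfi z h3z)
    have hx0 : xu L u e z ≠ 0 := by
      intro h0
      rw [h0, map_zero] at X1
      exact absurd X1 (not_lt.2 zero_le)
    refine ⟨Or.inr fun hin => ?_, hx0, ?_⟩
    · exact absurd X1 (not_lt.2 ((V.valuation_le_one_iff _).2 hin))
    · calc V.valuation (su L u e z) ^ (4 * 9 ^ (j + 1))
          = (V.valuation (su L u e z) ^ 9) ^ (4 * 9 ^ j) := by
            rw [← pow_mul]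
            congr 1
            ring
        _ = V.valuation (su L u e (3 * z)) ^ (4 * 9 ^ j) := by
            unfold su
            rw [map_inv₀, map_inv₀, inv_pow, X2]
        _ = V.valuation (3 : ℂ) := y3

end

end Pool.Agent.NSE
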