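import Pool.Agent.NS.StEN

/-!
# MUX-NS, block EN: module TW3, the points of order three
-/

set_option autoImplicit false

open Polynomial

namespace Pool.Agent.NSE

open _root_.MU3 Pool.Agent.MU3A Pool.Agent.MU3B Pool.Agent.MUX Pool.Agent.MUXU Pool.Agent.MUXE
open Pool.Agent.RI Pool.Agent.NS
open Pool.Agent.MUXV (GR InK tX)

noncomputable section

namespace TW3

/-- the valuation of the roots of `a⁴`-type polynomial -/
theorem val {V : ValuationSubring ℂ} (h3 : V.valuation (3 : ℂ) < 1) {a2 a4 s : ℂ}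
    (h2 : V.valuation a2 ≤ V.valuation (3 : ℂ)) (h4 : V.valuation a4 = 1)
    (heq : a4 ^ 2 * s ^ 4 = 3 + 4 * a2 * s + 6 * a4 * s ^ 2) :
    V.valuation s ^ 4 = V.valuation (3 : ℂ) ∧ V.valuation s < 1 := by
  have hn : ∀ n : ℕ, V.valuation (n : ℂ) ≤ 1 := fun n =>
    (V.valuation_le_one_iff _).2 (natCast_mem V n)
  have h30 : V.valuation (3 : ℂ) ≠ 0 := by simp
  have hv4 : V.valuation (4 : ℂ) ≤ 1 := by simpa using hn 4
  have hv2 : V.valuation (2 : ℂ) ≤ 1 := by simpa using hn 2
  have hv6 : V.valuation (6 : ℂ) ≤ V.valuation (3 : ℂ) := by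
    rw [show (6 : ℂ) = 2 * 3 by norm_num, map_mul]
    exact mul_le_of_le_one_left zero_le hv2
  have hL : V.valuation (a4 ^ 2 * s ^ 4) = V.valuation s ^ 4 := by
    rw [map_mul, map_pow, map_pow, h4, one_pow, one_mul]
  have hA : V.valuation (4 * a2 * s) ≤ V.valuation (3 : ℂ) * V.valuation s := by
    rw [map_mul, map_mul]
    exact mul_le_mul_left (le_trans (mul_le_of_le_one_left zero_le hv4) h2) _
  have hB : V.valuation (6 * a4 * s ^ 2) ≤ V.valuation (3 : ℂ) * V.valuation s ^ 2 := by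
    rw [map_mul, map_mul, map_pow, h4, mul_one]
    exact mul_le_mul_left hv6 _
  have hs : V.valuation s < 1 := by
    by_contra hge
    rw [not_lt] at hge
    have h1 : V.valuation (3 + 4 * a2 * s + 6 * a4 * s ^ 2) ≤
        V.valuation (3 : ℂ) * V.valuation s ^ 2 := by
      have hs2 : 1 ≤ V.valuation s ^ 2 := one_le_pow₀ hge
      refine le_trans (V.valuation.map_add _ _) (max_le (le_trans (V.valuation.map_add _ _)
        (max_le ?_ ?_)) hB)
      · exact le_mul_of_one_le_right zero_le hs2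
      · refine le_trans hA (mul_le_mul_right ?_ _)
        rw [pow_two]
        exact le_mul_of_one_le_right zero_le hge
    rw [← heq, hL] at h1
    have h5 : V.valuation s ^ 4 < V.valuation s ^ 2 := by
      refine lt_of_le_of_lt h1 ?_
      have hs0 : 0 < V.valuation s ^ 2 := lt_of_lt_of_le zero_lt_one (one_le_pow₀ hge)
      exact mul_lt_of_lt_one_left hs0 h3
    have h6 : V.valuation s ^ 2 ≤ V.valuation s ^ 4 := pow_le_pow_right₀ hge (by norm_num)
    exact absurd h5 (not_lt.2 h6)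
  refine ⟨?_, hs⟩
  have h7 : V.valuation (4 * a2 * s + 6 * a4 * s ^ 2) < V.valuation (3 : ℂ) := by
    have h30' : 0 < V.valuation (3 : ℂ) := lt_of_le_of_ne zero_le h30.symm
    refine lt_of_le_of_lt (V.valuation.map_add _ _) (max_lt ?_ ?_)
    · exact lt_of_le_of_lt hA (mul_lt_of_lt_one_right h30' hs)
    · exact lt_of_le_of_lt hB (mul_lt_of_lt_one_right h30' (pow_lt_one₀ zero_le hs two_ne_zero))
  rw [← hL, heq, add_assoc]
  exact Valuation.map_add_eq_of_lt_left _ h7

end TW3

open TW3 in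
theorem te_TW3 (h : Se_COE) : Se_TW3 := by
  intro V L u e lam hG h3 Y hY
  obtain ⟨he, hg2, hg3, hv2, hlam, -, hsq, -, hper⟩ := h V L u e lam hG h3
  obtain ⟨h3Y, hYL⟩ := hY
  have h2Y : 2 * Y ∉ L.lattice := by
    intro h2
    apply hYL
    have := sub_mem h3Y h2
    convert this using 1
    ring
  have hu := hG.u0
  have hP : ∀ z, L.weierstrassP z = u ^ 2 * xu L u e z + e := by
    intro z
    unfold xu
    field_simp
    ring
  have hP' : L.derivWeierstrassP Y = 2 * u ^ 3 * yu L u Y := by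
    unfold yu
    field_simp
  have hx2 : xu L u e (2 * Y) = xu L u e Y := by
    have h1 : 2 * Y = -Y + 3 * Y := by ring
    rw [h1, ((hper (-Y)).1 _ h3Y).1, (hper Y).2.1]
  have hd0 : L.derivWeierstrassP Y ≠ 0 := fun h0 => h2Y ((b_ZER L Y hYL).1 h0)
  have hd := (b_DUP L Y h2Y).1
  set x := xu L u e Y with hx
  set y := yu L u Y with hy
  have hy0 : y ≠ 0 := by
    intro h0
    apply hd0
    rw [hP', h0, mul_zero]
  rw [hP, hP, hP', hx2, hg2] at hd
  have hyy : y ^ 2 = x ^ 3 - (1 + lam) * x ^ 2 + lam * x := hsq Y hYL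
  -- the quartic
  have hq : 3 * x ^ 4 - 4 * (1 + lam) * x ^ 3 + 6 * lam * x ^ 2 - lam ^ 2 = 0 := by
    have e1 : (3 * (u ^ 2 * x + e)) * (4 * u ^ 3 * y) ^ 2 =
        (6 * (u ^ 2 * x + e) ^ 2 - 2 * (3 * e ^ 2 - lam * u ^ 4)) ^ 2 := by
      have e2 : u ^ 2 * x + e + 2 * (u ^ 2 * x + e) = 3 * (u ^ 2 * x + e) := by ring
      rw [e2] at hd
      rw [hd]
      field_simp
      ring
    have e3 : e = -(1 + lam) * u ^ 2 / 3 := by
      field_simp
      linear_combination he
    rw [e3, mul_pow, hyy] at e1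
    have e4 : u ^ 8 * (3 * x ^ 4 - 4 * (1 + lam) * x ^ 3 + 6 * lam * x ^ 2 - lam ^ 2) = 0 := by
      linear_combination e1 / 4
    exact (mul_eq_zero.1 e4).resolve_left (pow_ne_zero _ hu)
  have hlam0 : lam ≠ 0 := by
    rintro rfl
    rw [map_zero] at hlam
    exact zero_ne_one hlam
  have hx0 : x ≠ 0 := by
    intro h0
    rw [h0] at hq
    apply hlam0
    have : lam ^ 2 = 0 := by linear_combination -hq
    exact pow_eq_zero_iff two_ne_zero |>.1 this
  have hval := val (V := V) h3 (a2 := -(1 + lam)) (a4 := lam) (s := su L u e Y)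
    (by rw [Valuation.map_neg]; exact hG.lam1) hlam (by
      unfold su
      rw [← hx]
      field_simp
      linear_combination -hq)
  refine ⟨Or.inr ?_, hx0, hval.1⟩
  intro hin
  have h5 : V.valuation (xu L u e Y) ≤ 1 := (V.valuation_le_one_iff _).2 hin
  have h6 := hval.2
  unfold su at h6
  rw [map_inv₀] at h6
  have h7 : V.valuation x * (V.valuation x)⁻¹ < 1 := by
    have hxv : V.valuation x ≠ 0 := by simpa using hx0
    exact lt_of_le_of_lt (mul_le_of_le_one_left zero_le h5) h6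
  rw [mul_inv_cancel₀ (by simpa using hx0)] at h7
  exact lt_irrefl _ h7

end

end Pool.Agent.NSE
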