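import Pool.Agent.MUX.UAll
import Pool.Agent.NS.E_ADD
import Pool.Agent.NS.E_ALG
import Pool.Agent.NS.E_BAS
import Pool.Agent.NS.E_COE
import Pool.Agent.NS.E_CTX
import Pool.Agent.NS.E_DEG
import Pool.Agent.NS.E_FIN
import Pool.Agent.NS.E_GRN
import Pool.Agent.NS.E_ISO
import Pool.Agent.NS.E_LEG
import Pool.Agent.NS.E_MAIN
import Pool.Agent.NS.E_MUL
import Pool.Agent.NS.E_NE1
import Pool.Agent.NS.E_ONE
import Pool.Agent.NS.E_PRO
import Pool.Agent.NS.E_PTS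
import Pool.Agent.NS.E_PUL
import Pool.Agent.NS.E_RAM
import Pool.Agent.NS.E_RAT
import Pool.Agent.NS.E_SIG
import Pool.Agent.NS.E_THN
import Pool.Agent.NS.E_TPN
import Pool.Agent.NS.E_TW3
import Pool.Agent.NS.E_UNR
import Pool.Agent.NS.E_UNT
import Pool.Agent.NS.RN_ALL

/-! # Block EN of the project MUX-NS, assembled

`StEN.lean` states Lemma E at the inert prime `3`; the files `E_*.lean` prove the statements. This
file puts them together: `e_X : Se_X` for every name `X` of block EN, without hypotheses; the last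
one, `e_FIN`, derives `Sn_EFIN` from `Sn_RFIN`; `efin` is `Sn_EFIN`. -/

namespace Pool.Agent.NSE

theorem e_ALG : Se_ALG := te_ALG
theorem e_PRO : Se_PRO := te_PRO e_ALG
theorem e_PUL : Se_PUL := te_PUL e_ALG e_PRO
theorem e_COE : Se_COE := te_COE
theorem e_GRN : Se_GRN := te_GRN e_COE
theorem e_LEG : Se_LEG := te_LEG
theorem e_TW3 : Se_TW3 := te_TW3 e_COE
theorem e_PTS : Se_PTS := te_PTS e_COE e_TW3
theorem e_TPN : Se_TPN := te_TPN e_COE e_GRN e_LEG e_TW3 Pool.Agent.MUXU.u_PFI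
theorem e_UNT : Se_UNT := te_UNT e_GRN e_TPN
theorem e_RAT : Se_RAT := te_RAT e_COE e_TPN e_UNT
theorem e_ISO : Se_ISO := te_ISO e_ALG e_PRO e_PTS e_TW3 e_UNT e_RAT
theorem e_ADD : Se_ADD := te_ADD e_ALG e_COE e_GRN e_TW3 e_PTS
theorem e_THN : Se_THN := te_THN e_ALG e_PRO e_PUL e_GRN e_ISO e_ADD e_PTS
theorem e_CTX : Se_CTX := te_CTX
theorem e_RAM : Se_RAM := te_RAM
theorem e_UNR : Se_UNR := te_UNR e_RAM
theorem e_DEG : Se_DEG := te_DEG
theorem e_BAS : Se_BAS := te_BAS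
theorem e_SIG : Se_SIG :=
  te_SIG e_ALG e_PRO e_GRN e_LEG e_PTS e_TPN e_ADD e_UNR e_DEG e_BAS
theorem e_NE1 : Se_NE1 := te_NE1 e_TPN e_GRN
theorem e_MUL : Se_MUL := te_MUL
theorem e_ONE : Se_ONE := te_ONE e_ALG e_PRO e_LEG e_PTS e_THN e_UNR e_SIG e_NE1 e_MUL
theorem e_MAIN : Se_MAIN := te_MAIN e_ONE e_CTX
theorem e_FIN : Se_FIN := te_FIN e_MAIN

/-- the function `E` of the inert case -/
theorem efin : Pool.Agent.NS.Sn_EFIN := e_FIN Pool.Agent.NSR.rfin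

end Pool.Agent.NSE
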