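import Pool.Agent.NS.StTN
import Pool.Agent.MUX.XLib

/-!
# MUX-NS, block TN, module ALT: the coordinates of torsion points are algebraic (helper2)
-/

set_option autoImplicit false

namespace Pool.Agent.NST

open _root_.MU3 Pool.Agent.MU3A Pool.Agent.MU3B Pool.Agent.RI Pool.Agent.MUX Pool.Agent.MUXU
open OnePoint Pool.Agent.NS
open Pool.Agent.MUXV (GR InK)
open Pool.Agent.NSE (CtxN E3 su ru Rep)
open Pool.Agent.MUXY (ActN Dn)

noncomputable section

namespace ALT

variable {A B : ℤ}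

/-- `k` is algebraic over `ℚ` -/
theorem kk_alg (h : CQ A B) : Algebra.IsAlgebraic ℚ (kk A B) := by
  have hw : wC A B ^ 2 = A + B * wC A B := by rw [sq]; exact wC_sq h
  refine IntermediateField.isAlgebraic_adjoin fun x hx => ?_
  rw [Set.mem_singleton_iff] at hx
  subst hx
  refine ⟨Polynomial.X ^ 2 - (Polynomial.C (B : ℚ) * Polynomial.X + Polynomial.C (A : ℚ)), ?_, ?_⟩
  · apply Polynomial.monic_X_pow_sub
    exact lt_of_le_of_lt Polynomial.degree_linear_le (by norm_num)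
  · rw [Polynomial.eval₂_sub, Polynomial.eval₂_pow, Polynomial.eval₂_X, Polynomial.eval₂_add,
      Polynomial.eval₂_mul, Polynomial.eval₂_C, Polynomial.eval₂_C, Polynomial.eval₂_X, map_intCast,
      map_intCast, hw]
    ring

lemma idl_ne (h : CQ A B) {n : ℕ} (hn : n ≠ 0) : idl (A := A) (B := B) n ≠ ⊥ := by
  intro h0
  rw [Ideal.span_singleton_eq_bot] at h0
  have h7 := emb_natCast (A := A) (B := B) h n
  rw [h0, emb_zero h] at h7
  exact hn (by exact_mod_cast h7.symm)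

/-- elements of `RF (idl n)` are algebraic -/
lemma alg_RF (h : CQ A B) (T : TorX A B) {n : ℕ} (hn : n ≠ 0) {y : ℂ}
    (hy : y ∈ RF (idl (A := A) (B := B) n)) : IsAlgebraic ℚ y := by
  have hkk := kk_alg h
  have hfd := T.fin _ (idl_ne h hn)
  have h1 : IsAlgebraic (kk A B) (⟨y, hy⟩ : RF (idl (A := A) (B := B) n)) :=
    Algebra.IsAlgebraic.isAlgebraic _
  have h2 : IsAlgebraic (kk A B) y := h1.algebraMap (A := ℂ)
  exact h2.restrictScalars ℚ

/-- points killed by `n` are killed by the ideal `(n)` -/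
lemma tor_of_mul (h : CQ A B) {b : Ideal (OO A B)} {L : PeriodPair} {om : ℂ} (hL : IsLI b L om)
    {n : ℕ} {z : ℂ} (hz : (n : ℂ) * z ∈ L.lattice) : Tor (idl (A := A) (B := B) n) L z := by
  intro x hx
  obtain ⟨y, rfl⟩ := Ideal.mem_span_singleton.1 hx
  obtain ⟨t, ht, e⟩ := (hL.mem _).1 hz
  refine (hL.mem _).2 ⟨y * t, b.mul_mem_left _ ht, ?_⟩
  rw [emb_mul h, emb_mul h, emb_natCast h]
  linear_combination (emb y) * e

/-- `℘(z) ∈ RF (idl n)` for the points killed by `n` -/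
lemma wp_mem (h : CQ A B) {b : Ideal (OO A B)} {L : PeriodPair} {om : ℂ} (hL : IsNL b L om)
    {n : ℕ} {z : ℂ} (hz : z ∉ L.lattice) (hz' : (n : ℂ) * z ∈ L.lattice) :
    L.weierstrassP z ∈ RF (idl (A := A) (B := B) n) := by
  have hx : xn L z ∈ RF (idl (A := A) (B := B) n) :=
    IntermediateField.subset_adjoin _ _
      ⟨b, L, om, hL, Or.inr ⟨z, tor_of_mul h hL.toIsLI hz', hz, rfl⟩⟩
  have h12 : (1 / 12 : ℂ) ∈ RF (idl (A := A) (B := B) n) := by simp
  have e : L.weierstrassP z = xn L z + 1 / 12 := by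
    unfold xn
    ring
  rw [e]
  exact add_mem hx h12

lemma alg_num (q : ℚ) : IsAlgebraic ℚ (q : ℂ) := by
  have := isAlgebraic_algebraMap (R := ℚ) (A := ℂ) q
  simpa using this

end ALT

open ALT in
/-- (ALT) the coordinates of torsion points are algebraic -/
theorem nt_ALT (hLEG : Pool.Agent.NSE.Se_LEG) (hCOE : Pool.Agent.NSE.Se_COE) : Nt_ALT := by
  intro A B hC T V h3 b L om hL u e lam hG
  obtain ⟨w₁, w₂, hw1', hw1, hw2', hw2, he, hu, -⟩ := hLEG V L u e lam hG h3
  obtain ⟨e1, -⟩ := hCOE V L u e lam hG h3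
  have hu0 := hG.u0
  have m1 := wp_mem (n := 2) hC hL hw1 (by push_cast; exact hw1')
  have m2 := wp_mem (n := 2) hC hL hw2 (by push_cast; exact hw2')
  have hu2 : u ^ 2 ∈ RF (idl (A := A) (B := B) 2) := by
    rw [← hu]; exact sub_mem m2 m1
  have hem : e ∈ RF (idl (A := A) (B := B) 2) := by rw [← he]; exact m1
  have hlam : lam ∈ RF (idl (A := A) (B := B) 2) := by
    have h6 : lam = -3 * e / u ^ 2 - 1 := by
      field_simp
      linear_combination e1
    rw [h6]
    have h7 : (-3 : ℂ) ∈ RF (idl (A := A) (B := B) 2) := by simp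
    exact sub_mem (div_mem (mul_mem h7 hem) hu2) (one_mem _)
  have hua2 : IsAlgebraic ℚ (u ^ 2) := alg_RF hC T two_ne_zero hu2
  have hua : IsAlgebraic ℚ u := IsAlgebraic.of_pow two_pos hua2
  have hea : IsAlgebraic ℚ e := alg_RF hC T two_ne_zero hem
  refine ⟨hu2, hem, hlam, hua, fun N hN z hz hz' => ?_⟩
  have hP : IsAlgebraic ℚ (L.weierstrassP z) := alg_RF hC T hN (wp_mem hC hL hz hz')
  have hk : IsAlgebraic ℚ (kap L) := alg_RF hC T hN
    (IntermediateField.subset_adjoin _ _ ⟨b, L, om, hL, Or.inl rfl⟩)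
  have hg2 : IsAlgebraic ℚ L.g₂ := by
    have h8 : L.g₂ = ((1 / 12 : ℚ) : ℂ) + ((144 : ℚ) : ℂ) * kap L := by
      unfold kap
      push_cast
      ring
    rw [h8]
    exact (alg_num _).add ((alg_num _).mul hk)
  have hg3 : IsAlgebraic ℚ L.g₃ := by
    have h8 : L.g₃ = ((-1 / 18 : ℚ) : ℂ) * L.g₂ := by
      rw [hL.nrm]
      push_cast
      ring
    rw [h8]
    exact (alg_num _).mul hg2
  have hD : IsAlgebraic ℚ (L.derivWeierstrassP z) := by
    apply IsAlgebraic.of_pow two_pos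
    rw [L.derivWeierstrassP_sq z hz]
    have h4 : IsAlgebraic ℚ (4 : ℂ) := by simpa using alg_num 4
    exact ((h4.mul (hP.pow 3)).sub (hg2.mul hP)).sub hg3
  have hx : IsAlgebraic ℚ (xu L u e z) := by
    unfold xu
    rw [div_eq_mul_inv]
    exact (hP.sub hea).mul hua2.inv
  have hy : IsAlgebraic ℚ (yu L u z) := by
    unfold yu
    rw [div_eq_mul_inv]
    have h2 : IsAlgebraic ℚ (2 : ℂ) := by simpa using alg_num 2
    exact hD.mul (h2.mul (hua.pow 3)).inv
  refine ⟨hx, hy, ?_⟩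
  unfold ru
  rw [div_eq_mul_inv]
  exact hy.neg.mul (hx.pow 2).inv

end

end Pool.Agent.NST
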