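import Pool.Agent.NS.StTN

/-!
# MUX-NS, block TN: FGP (helper20, for helper4)

Finitely many pairs of cusps generate all values.
-/

set_option autoImplicit false

namespace Pool.Agent.NST

open OnePoint
open Pool.Agent.MUXY (Dn)

namespace FGP

/-- a subset of a finitely generated abelian group is generated by a finite part of itself -/
theorem finite_gen (T : Finset ℂ) (X : Set ℂ) (hX : X ⊆ AddSubgroup.closure (T : Set ℂ)) :
    ∃ F : Finset ℂ, (F : Set ℂ) ⊆ X ∧ X ⊆ AddSubgroup.closure (F : Set ℂ) := by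
  have h1 : (Submodule.span ℤ X).FG := by
    have hle : Submodule.span ℤ X ≤ Submodule.span ℤ (T : Set ℂ) := by
      rw [Submodule.span_le]
      intro x hx
      have := hX hx
      rw [← Submodule.span_int_eq_addSubgroupClosure] at this
      exact this
    have : IsNoetherian ℤ (Submodule.span ℤ (T : Set ℂ)) :=
      isNoetherian_span_of_finite ℤ T.finite_toSet
    exact (isNoetherian_submodule.mp this) _ hle
  obtain ⟨F, hF, hs⟩ := (Submodule.fg_span_iff_fg_span_finset_subset X).1 h1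
  refine ⟨F, hF, fun x hx => ?_⟩
  have : x ∈ Submodule.span ℤ (F : Set ℂ) := by
    rw [← hs]; exact Submodule.subset_span hx
  rw [← Submodule.span_int_eq_addSubgroupClosure]
  exact this

/-- every cusp has a denominator -/
theorem ex_Dn (x : OnePoint ℚ) : ∃ m : ℕ, m ≠ 0 ∧ Dn m x := by
  induction x using OnePoint.rec with
  | infty => exact ⟨1, one_ne_zero, fun r hr => absurd hr (OnePoint.infty_ne_coe r)⟩
  | coe q => exact ⟨q.den, q.den_nz, fun r hr => by
      rw [OnePoint.coe_eq_coe] at hr; rw [hr]⟩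

theorem Dn_mul {m m' : ℕ} {x : OnePoint ℚ} (h : Dn m x) (hd : m ∣ m') : Dn m' x :=
  fun r hr => (h r hr).trans hd

/-- a common denominator of a finite set of cusps -/
theorem ex_common (S : Finset (OnePoint ℚ × OnePoint ℚ)) :
    ∃ D : ℕ, D ≠ 0 ∧ ∀ q ∈ S, Dn D q.1 ∧ Dn D q.2 := by
  classical
  induction S using Finset.induction_on with
  | empty => exact ⟨1, one_ne_zero, fun q hq => absurd hq (Finset.notMem_empty q)⟩
  | insert a s ha ih =>
    obtain ⟨D, hD, h⟩ := ih
    obtain ⟨m1, hm1, h1⟩ := ex_Dn a.1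
    obtain ⟨m2, hm2, h2⟩ := ex_Dn a.2
    refine ⟨D * (m1 * m2), mul_ne_zero hD (mul_ne_zero hm1 hm2), fun q hq => ?_⟩
    rcases Finset.mem_insert.1 hq with rfl | hq
    · exact ⟨Dn_mul h1 ((dvd_mul_right m1 m2).trans (dvd_mul_left _ D)),
        Dn_mul h2 ((dvd_mul_left m2 m1).trans (dvd_mul_left _ D))⟩
    · exact ⟨Dn_mul (h q hq).1 (dvd_mul_right _ _), Dn_mul (h q hq).2 (dvd_mul_right _ _)⟩

end FGP

theorem nt_FGP : Nt_FGP := by
  classical
  intro P T hT
  obtain ⟨F, hF, hgen⟩ := FGP.finite_gen T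
    (Set.range fun q : OnePoint ℚ × OnePoint ℚ => P q.1 q.2)
    (by rintro _ ⟨q, rfl⟩; exact hT q.1 q.2)
  have hch : ∀ f : {f : ℂ // f ∈ F}, ∃ q : OnePoint ℚ × OnePoint ℚ, P q.1 q.2 = f.1 :=
    fun f => hF f.2
  choose g hg using hch
  obtain ⟨D, hD, hDn⟩ := FGP.ex_common (F.attach.image g)
  obtain ⟨j, N, hN, hDN⟩ := Nat.exists_eq_pow_mul_and_not_dvd hD 3 (by norm_num)
  refine ⟨F.attach.image g, j, N, ?_, hN, ?_, ?_⟩
  · rintro rfl; exact hN (dvd_zero 3)
  · intro q hq; rw [← hDN]; exact hDn q hq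
  · intro x y
    refine AddSubgroup.closure_mono ?_ (hgen ⟨(x, y), rfl⟩)
    intro f hf
    exact ⟨g ⟨f, hf⟩, Finset.mem_coe.2 (Finset.mem_image.2 ⟨⟨f, hf⟩, Finset.mem_attach _ _, rfl⟩),
      hg ⟨f, hf⟩⟩

end Pool.Agent.NST
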