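import Pool.Agent.NS.StTN
import Pool.Agent.MUX.XLib

/-!
# MUX-NS, block TN, module TAU: the number `tau` (helper43)
-/

set_option autoImplicit false

namespace Pool.Agent.NST

open _root_.MU3 Pool.Agent.MU3A Pool.Agent.MU3B Pool.Agent.RI Pool.Agent.MUX Pool.Agent.MUXU
open OnePoint Pool.Agent.NS
open Pool.Agent.MUXV (GR InK)
open Pool.Agent.NSE (CtxN E3 su ru Rep)
open Pool.Agent.MUXY (ActN Dn)

noncomputable section

namespace TAU

variable {A B : ℤ}

lemma cast3 (x : OO A B) : x ∈ idl (A := A) (B := B) 3 ↔ ∃ y : OO A B, x = 3 * y := by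
  rw [Ideal.mem_span_singleton]
  rfl

/-- the term of the sum -/
def T (w : OO A B → ℂ) (L : PeriodPair) (u e Y : ℂ) (x : OO A B) : ℂ :=
  (w x)⁻¹ * ru L u e (emb x * Y)

lemma card9 (h : CQ A B) : Nat.card (OO A B ⧸ idl (A := A) (B := B) 3) = 9 := by
  have h3 : ((3 : ℕ) : OO A B) ≠ 0 := natCast_ne_zero' h (by norm_num)
  have h1 := nI_sp h h3
  have h2 : nm ((3 : ℕ) : OO A B) = 9 := by
    have := nm_intCast (A := A) (B := B) 3
    push_cast at this ⊢
    exact this.trans (by norm_num)
  rw [h2] at h1
  exact h1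

end TAU

open TAU in
theorem nt_TAU (h1 : Nt_TRC) (h2 : Nt_TCJ) (h3 : Nt_ALT) (h4 : Pool.Agent.NSE.Se_PTS) : Nt_TAU := by
  classical
  intro A B V hctx hTor n ι R u e lam hg w hw
  have hcq := hctx.cq
  set L := R.L R.i0 with hL
  set om := R.om R.i0 with hom
  have hli : IsLI (R.b R.i0) L om := (R.nl R.i0).toIsLI
  have hmem : ∀ z : ℂ, z ∈ L.lattice ↔ ∃ x : OO A B, z = om * emb x := by
    intro z
    rw [hli.mem z, R.b0]
    simp
  have hom0 : om ≠ 0 := hli.om_ne
  -- facts on the points of order three
  obtain ⟨hr8, hrx⟩ := h1 A B V hctx (R.b R.i0) L om u e lam hli hg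
  obtain ⟨-, hper⟩ := h4 V L u e lam hg hctx.v3
  have hone : (1 : OO A B) ∉ idl (A := A) (B := B) 3 := fun h =>
    hctx.max.ne_top ((Ideal.eq_top_iff_one _).2 h)
  have hY0 : om / 3 ∈ E3 L := by
    refine ⟨?_, ?_⟩
    · rw [hmem]
      exact ⟨1, by rw [emb_one hcq]; field_simp⟩
    · intro hc
      obtain ⟨x, hx⟩ := (hmem _).1 hc
      apply hone
      rw [cast3]
      refine ⟨x, ?_⟩
      apply emb_inj hcq
      have e3 : emb (3 : OO A B) = 3 := by
        have := emb_natCast hcq 3
        simpa using this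
      rw [emb_one hcq, emb_mul hcq, e3]
      have h5 : om * (3 * emb x) = om * 1 := by
        linear_combination (-3) * hx
      exact (mul_left_cancel₀ hom0 h5).symm
  set Y := om / 3 with hY
  set ρ := ru L u e Y with hρ
  have hv3 : V.valuation (3 : ℂ) ≠ 0 := by
    rw [Ne, map_eq_zero]
    norm_num
  have hρ8 : V.valuation ρ ^ 8 = V.valuation (3 : ℂ) := hr8 Y hY0
  have hρ0 : V.valuation ρ ≠ 0 := by
    intro h0
    rw [h0, zero_pow (by norm_num)] at hρ8
    exact hv3 hρ8.symm
  have hρpos : 0 < V.valuation ρ := zero_lt_iff.2 hρ0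
  have hw0 : ∀ x, x ∉ idl (A := A) (B := B) 3 → w x ≠ 0 := by
    intro x hx h0
    have h5 := hw.pow x hx
    rw [h0, zero_pow (by norm_num)] at h5
    exact zero_ne_one h5
  have hwv : ∀ x, x ∉ idl (A := A) (B := B) 3 → V.valuation (w x) = 1 := by
    intro x hx
    have h5 := congrArg V.valuation (hw.pow x hx)
    rw [map_pow, map_one] at h5
    exact (pow_eq_one_iff.1 h5).resolve_right (by norm_num)
  -- the terms are periodic
  have hTper : ∀ x y : OO A B, x - y ∈ idl (A := A) (B := B) 3 →
      T w L u e Y x = T w L u e Y y := by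
    intro x y hxy
    have hwxy := hw.per x y hxy
    by_cases hx : x ∈ idl (A := A) (B := B) 3
    · unfold T
      rw [← hwxy, hw.zero x hx]
      simp
    · unfold T
      rw [hwxy]
      congr 1
      have hy : y ∉ idl (A := A) (B := B) 3 := by
        intro hy
        apply hx
        have := Ideal.add_mem _ hxy hy
        rwa [sub_add_cancel] at this
      obtain ⟨t, ht⟩ := (cast3 _).1 hxy
      have e3 : emb (3 : OO A B) = 3 := by
        have := emb_natCast hcq 3
        simpa using this
      have h5 : emb x * Y = emb y * Y + om * emb t := by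
        have h6 : emb x - emb y = 3 * emb t := by
          rw [← emb_sub hcq, ht, emb_mul hcq, e3]
        rw [hY]
        linear_combination (om / 3) * h6
      rw [h5]
      exact (hper _ (hrx y hy Y hY0).1 _ ((hmem _).2 ⟨t, rfl⟩)).2.2
  -- the quotient
  have hne : idl (A := A) (B := B) 3 ≠ ⊥ := by
    intro h0
    rw [Ideal.span_singleton_eq_bot] at h0
    exact natCast_ne_zero' hcq (by norm_num) h0
  have hfin : Finite (OO A B ⧸ idl (A := A) (B := B) 3) := finite_quot hcq hne
  have hfq : Fintype (OO A B ⧸ idl (A := A) (B := B) 3) := Fintype.ofFinite _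
  have hcard : Fintype.card (OO A B ⧸ idl (A := A) (B := B) 3) = 9 := by
    rw [← Nat.card_eq_fintype_card]
    exact card9 hcq
  have hout : ∀ q : OO A B ⧸ idl (A := A) (B := B) 3,
      Ideal.Quotient.mk (idl (A := A) (B := B) 3) (Quotient.out q) = q := fun q =>
    Ideal.Quotient.mk_out q
  have hq0 : ∀ q : OO A B ⧸ idl (A := A) (B := B) 3, q ≠ 0 →
      (Quotient.out q : OO A B) ∉ idl (A := A) (B := B) 3 := by
    intro q hq h0
    apply hq
    rw [← hout q]
    exact Ideal.Quotient.eq_zero_iff_mem.2 h0
  have hT0 : T w L u e Y (Quotient.out (0 : OO A B ⧸ idl (A := A) (B := B) 3)) = 0 := by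
    have h0 : (Quotient.out (0 : OO A B ⧸ idl (A := A) (B := B) 3) : OO A B) ∈
        idl (A := A) (B := B) 3 := by
      rw [← Ideal.Quotient.eq_zero_iff_mem, hout]
    unfold T
    rw [hw.zero _ h0]
    simp
  refine ⟨∑ q : OO A B ⧸ idl (A := A) (B := B) 3, T w L u e Y (Quotient.out q), ?_, ?_, ?_⟩
  · -- the valuation
    have h8 : V.valuation ((8 : ℕ) : ℂ) = 1 := hctx.nat 8 (by norm_num)
    have hsum : ∑ q : OO A B ⧸ idl (A := A) (B := B) 3, T w L u e Y (Quotient.out q) =
        ((8 : ℕ) : ℂ) * ρ + ∑ q ∈ Finset.univ.erase (0 : OO A B ⧸ idl (A := A) (B := B) 3),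
          (T w L u e Y (Quotient.out q) - ρ) := by
      rw [Finset.sum_sub_distrib, Finset.sum_const, Finset.card_erase_of_mem (Finset.mem_univ _),
        Finset.card_univ, hcard, ← Finset.add_sum_erase _ _ (Finset.mem_univ 0), hT0, nsmul_eq_mul]
      push_cast
      ring
    have hlt : V.valuation (∑ q ∈ Finset.univ.erase (0 : OO A B ⧸ idl (A := A) (B := B) 3),
        (T w L u e Y (Quotient.out q) - ρ)) < V.valuation ρ := by
      apply Valuation.map_sum_lt _ hρ0
      intro q hq
      have hq' : (Quotient.out q : OO A B) ∉ idl (A := A) (B := B) 3 :=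
        hq0 q (Finset.ne_of_mem_erase hq)
      generalize (Quotient.out q : OO A B) = x at hq'
      have h5 : T w L u e Y x - ρ = (w x)⁻¹ * (ru L u e (emb x * Y) - emb x * ρ) +
          (w x)⁻¹ * (-(w x - emb x)) * ρ := by
        unfold T
        have := hw0 x hq'
        field_simp
        ring
      rw [h5]
      apply Valuation.map_add_lt
      · rw [map_mul, map_inv₀, hwv x hq', inv_one, one_mul]
        exact (hrx x hq' Y hY0).2
      · rw [map_mul, map_mul, map_inv₀, hwv x hq', inv_one, one_mul, Valuation.map_neg]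
        calc V.valuation (w x - emb x) * V.valuation ρ
            ≤ V.valuation (3 : ℂ) * V.valuation ρ := by
              gcongr
              exact hw.cong x
          _ < 1 * V.valuation ρ := by
              exact mul_lt_mul_of_pos_right hctx.v3 hρpos
          _ = V.valuation ρ := one_mul _
    have h9 : V.valuation (((8 : ℕ) : ℂ) * ρ) = V.valuation ρ := by
      rw [map_mul, h8, one_mul]
    rw [hsum, Valuation.map_add_eq_of_lt_left _ (by rw [h9]; exact hlt), h9, hρ8]
  · -- algebraic
    obtain ⟨-, -, -, -, halg⟩ := h3 A B hcq hTor V hctx.v3 (R.b R.i0) L om (R.nl R.i0) u e lam hg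
    rw [isAlgebraic_iff_isIntegral]
    apply IsIntegral.sum
    intro q _
    rw [← isAlgebraic_iff_isIntegral]
    by_cases hq : q = 0
    · rw [hq, hT0]
      exact isAlgebraic_zero
    · have hx := hq0 q hq
      generalize (Quotient.out q : OO A B) = x at hx
      unfold T
      have hE := (hrx x hx Y hY0).1
      apply IsAlgebraic.mul
      · apply IsAlgebraic.inv
        rw [isAlgebraic_iff_isIntegral]
        apply IsIntegral.of_pow (n := 8) (by norm_num)
        rw [hw.pow x hx]
        exact isIntegral_one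
      · exact (halg 3 (by norm_num) _ hE.2 (by
          push_cast
          exact hE.1)).2.2
  · -- conjugation
    intro m hm σ c d hact hc hσu hσe hσw
    obtain ⟨k, rfl⟩ := hm
    have hc0 := hw0 c hc
    have hterm : ∀ x : OO A B, σ (T w L u e Y x) = w c * T w L u e Y (c * x) := by
      intro x
      by_cases hx : x ∈ idl (A := A) (B := B) 3
      · unfold T
        rw [hw.zero x hx, hw.zero (c * x) (Ideal.mul_mem_left _ c hx)]
        simp
      · have hE := (hrx x hx Y hY0).1
        have h5 := (h2 A B n ι R (3 * k) σ c d hact u e hg.u0 hσu hσe (emb x * Y) (by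
          have h6 : ((3 * k : ℕ) : ℂ) * (emb x * Y) = (k : ℕ) • (3 * (emb x * Y)) := by
            rw [nsmul_eq_mul]
            push_cast
            ring
          rw [h6]
          exact nsmul_mem hE.1 k) hE.2).2.2.2
        unfold T
        rw [map_mul, map_inv₀, hσw, h5, hw.mul, emb_mul hcq]
        have := hw0 x hx
        rw [← hL]
        have e6 : emb c * (emb x * Y) = emb c * emb x * Y := by ring
        rw [e6]
        field_simp
    rw [map_sum]
    simp_rw [hterm]
    rw [← Finset.mul_sum]
    congr 1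
    have hprime : (idl (A := A) (B := B) 3).IsPrime := hctx.max.isPrime
    have hdom : IsDomain (OO A B ⧸ idl (A := A) (B := B) 3) := Ideal.Quotient.isDomain _
    set cb := Ideal.Quotient.mk (idl (A := A) (B := B) 3) c with hcb
    have hcb0 : cb ≠ 0 := fun h => hc (Ideal.Quotient.eq_zero_iff_mem.1 h)
    have hbij : Function.Bijective (fun q : OO A B ⧸ idl (A := A) (B := B) 3 => cb * q) := by
      rw [← Finite.injective_iff_bijective]
      intro a b hab
      exact mul_left_cancel₀ hcb0 hab
    rw [← Function.Bijective.sum_comp hbij (fun q => T w L u e Y (Quotient.out q))]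
    apply Finset.sum_congr rfl
    intro q _
    apply hTper
    rw [← Ideal.Quotient.eq, map_mul, hout, hout]

end

end Pool.Agent.NST
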