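import Pool.Agent.NS.StTN

/-!
# MUX-NS, block TN, module TCJ (helper48): conjugation of the coordinates
-/

set_option autoImplicit false

namespace Pool.Agent.NST

open _root_.MU3 Pool.Agent.MU3A Pool.Agent.MU3B Pool.Agent.RI Pool.Agent.MUX Pool.Agent.MUXU
open OnePoint Pool.Agent.NS
open Pool.Agent.MUXV (GR InK)
open Pool.Agent.NSE (CtxN E3 su ru Rep)
open Pool.Agent.MUXY (ActN Dn)

noncomputable section

theorem nt_TCJ : Nt_TCJ := by
  intro A B n ι R m σ c d hA u e hu0 hu he z hmz hz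
  obtain ⟨h1, h2, h3⟩ := (hA.act R.i0).act z hmz hz
  set L := R.L R.i0 with hL
  have key : emb c * z ∉ L.lattice ∧ L.weierstrassP (emb c * z) = σ (L.weierstrassP z) ∧
      L.derivWeierstrassP (emb c * z) = d R.i0 * σ (L.derivWeierstrassP z) := by
    rcases hA.sgn R.i0 with hd | hd
    · rw [hd] at h1 h2 h3 ⊢
      rw [Int.cast_one, one_mul] at h1 h2 h3
      refine ⟨h1, h2, ?_⟩
      rw [h3, Int.cast_one, one_mul]
    · rw [hd] at h1 h2 h3 ⊢
      have e1 : (((-1 : ℤ) : ℂ) * emb c) * z = -(emb c * z) := by push_cast; ring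
      rw [e1] at h1 h2 h3
      rw [L.weierstrassP_neg] at h2
      rw [L.derivWeierstrassP_neg] at h3
      refine ⟨fun h => h1 (neg_mem h), h2, ?_⟩
      rw [← h3]
      push_cast
      ring
  obtain ⟨k1, k2, k3⟩ := key
  have hdd : ((d R.i0 : ℤ) : ℂ) ^ 2 = 1 := by
    rcases hA.sgn R.i0 with hd | hd <;> rw [hd] <;> norm_num
  have hd0 : ((d R.i0 : ℤ) : ℂ) ≠ 0 := by
    intro h
    rw [h] at hdd
    norm_num at hdd
  have hx : σ (xu L u e z) = xu L u e (emb c * z) := by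
    unfold xu
    rw [k2, map_div₀, map_sub, map_pow, hu, he, mul_pow, hdd, one_mul]
  have hy : σ (yu L u z) = yu L u (emb c * z) := by
    unfold yu
    rw [k3, map_div₀, map_mul, map_pow, hu, map_ofNat]
    have e2 : 2 * ((d R.i0 : ℂ) * u) ^ 3 = (d R.i0 : ℂ) ^ 2 * (d R.i0 * (2 * u ^ 3)) := by ring
    have e3 : (d R.i0 : ℂ) * σ (L.derivWeierstrassP z) / (2 * u ^ 3) =
        (d R.i0 : ℂ) ^ 2 * σ (L.derivWeierstrassP z) / (d R.i0 * (2 * u ^ 3)) := by
      field_simp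
    rw [e2, e3, hdd, one_mul, one_mul]
  refine ⟨k1, hx, hy, ?_⟩
  unfold ru
  rw [map_div₀, map_neg, map_pow, hx, hy]

end

end Pool.Agent.NST
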