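import Pool.Agent.NS.T_RTU
import Pool.Agent.NS.T_TEI
import Pool.Agent.NS.T_GLC
import Pool.Agent.NS.T_UNF
import Pool.Agent.NS.T_FGV
import Pool.Agent.NS.T_ALV
import Pool.Agent.NS.T_ALT
import Pool.Agent.NS.T_ACI
import Pool.Agent.NS.T_TCJ
import Pool.Agent.NS.T_SGU
import Pool.Agent.NS.T_SGM
import Pool.Agent.NS.T_VAL
import Pool.Agent.NS.T_VAK
import Pool.Agent.NS.T_TRC
import Pool.Agent.NS.T_TAU
import Pool.Agent.NS.T_TYF
import Pool.Agent.NS.RN_ALL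
import Pool.Agent.MUX.YAll
import Pool.Agent.MUX.UAll
import Pool.Agent.NS.T_FGP
import Pool.Agent.NS.EAll

/-!
# Block TN put together (helper4): TYPE, inert case
-/

set_option autoImplicit false

namespace Pool.Agent.NST

open _root_.MU3 Pool.Agent.MU3A Pool.Agent.MU3B Pool.Agent.MUX Pool.Agent.NS
open Pool.Agent.NSE Pool.Agent.MUXU Pool.Agent.MUXY

theorem x_RTU : Nt_RTU := nt_RTU
theorem x_TEI : Nt_TEI := nt_TEI
theorem x_GLC : Nt_GLC := nt_GLC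
theorem x_UNF : Nt_UNF := nt_UNF
theorem x_FGP : Nt_FGP := nt_FGP
theorem x_FGV : Nt_FGV := nt_FGV
theorem x_ALV : Nt_ALV := nt_ALV y_ALP
theorem x_ALT : Nt_ALT := nt_ALT e_LEG e_COE
theorem x_ACI : Nt_ACI := nt_ACI y_MUU y_BRI
theorem x_TCJ : Nt_TCJ := nt_TCJ
theorem x_SGU : Nt_SGU := nt_SGU e_GRN e_TPN
theorem x_SGM : Nt_SGM := nt_SGM y_MUI y_MUC y_MUU
theorem x_VAL : Nt_VAL := nt_VAL y_RA1
theorem x_VAK : Nt_VAK := nt_VAK x_SGM x_VAL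
theorem x_TRC : Nt_TRC := nt_TRC e_PTS e_ISO
theorem x_TAU : Nt_TAU := nt_TAU x_TRC x_TCJ x_ALT e_PTS

/-- TYPE, inert case, without hypotheses -/
theorem x_TYF : Sn_TYF :=
  nt_TYF Pool.Agent.NSR.rfin e_CTX x_RTU x_GLC x_UNF x_FGP x_FGV x_ALV x_ALT x_ACI
    x_SGU x_VAK x_TAU

end Pool.Agent.NST
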