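import Pool.Agent.NS.StTR
import Pool.Agent.NS.T_TYF
import Pool.Agent.MUX.XLib

/-!
# MUX-NS, block TR, module TYF: TYPE in the ramified case (adapted from `T_TYF.lean`)
-/

set_option autoImplicit false

namespace Pool.Agent.NSTR

open _root_.MU3 Pool.Agent.MU3A Pool.Agent.MU3B Pool.Agent.RI Pool.Agent.MUX Pool.Agent.MUXU
open OnePoint Pool.Agent.NS Pool.Agent.NSRD
open Pool.Agent.MUXV (GR InK)
open Pool.Agent.NSE (su ru)
open Pool.Agent.NST (KIn ActT)
open Pool.Agent.MUXY (ActN Dn)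

noncomputable section

namespace TYF

open Pool.Agent.NST.TYF

/-- algebraicity of the values for a family of weights which are `0` or roots of unity -/
lemma alg_zero (h11 : NST.Nt_ALV) {A B : ℤ} (hQ : CQ A B) (hT : TorX A B) {f : ℕ} (hf : f ≠ 0)
    {ι : Type} [Fintype ι] (R : Reps A B (3 * f) ι) (e : OO A B → ℂ)
    (he : IsEI (idl (A := A) (B := B) (3 * f)) e) {r : ℕ} (hr : r ≠ 0)
    (her : ∀ x, e x ≠ 0 → e x ^ r = 1) (kk : ι → ℂ) (hk : ∀ j, kk j = 0 ∨ kk j ^ r = 1)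
    {u : ℂ} (hu : IsAlgebraic ℚ u) (x y : OnePoint ℚ) :
    IsAlgebraic ℚ (PhiK R e kk x y / (u * R.om R.i0)) := by
  classical
  set al : ι → ℂ := fun j => if kk j = 0 then 1 else kk j with hal
  set be : ι → ℂ := fun j => if kk j = 0 then -1 else kk j with hbe
  have h2r : 2 * r ≠ 0 := mul_ne_zero (by norm_num) hr
  have he2 : ∀ x, e x ≠ 0 → e x ^ (2 * r) = 1 := by
    intro x hx
    rw [mul_comm, pow_mul, her x hx, one_pow]
  have hal1 : ∀ j, al j ^ (2 * r) = 1 := by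
    intro j
    simp only [hal]
    split_ifs with h
    · exact one_pow _
    · rw [mul_comm, pow_mul, (hk j).resolve_left h, one_pow]
  have hbe1 : ∀ j, be j ^ (2 * r) = 1 := by
    intro j
    simp only [hbe]
    split_ifs with h
    · rw [pow_mul, neg_one_sq, one_pow]
    · rw [mul_comm, pow_mul, (hk j).resolve_left h, one_pow]
  have h1 := h11 A B hQ hT f hf ι R e he (2 * r) h2r he2 al hal1 u hu x y
  have h2 := h11 A B hQ hT f hf ι R e he (2 * r) h2r he2 be hbe1 u hu x y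
  have h3 : PhiK R e kk x y / (u * R.om R.i0) =
      (1 / 2 : ℚ) • (PhiK R e al x y / (u * R.om R.i0) + PhiK R e be x y / (u * R.om R.i0)) := by
    have h4 : PhiK R e kk x y = (1 / 2 : ℂ) * (PhiK R e al x y + PhiK R e be x y) := by
      unfold PhiK
      rw [← Finset.sum_add_distrib, Finset.mul_sum]
      refine Finset.sum_congr rfl fun j _ => ?_
      have h5 : kk j = (1 / 2 : ℂ) * (al j + be j) := by
        simp only [hal, hbe]
        split_ifs with h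
        · rw [h]
          ring
        · ring
      rw [← add_mul, ← mul_assoc, ← h5]
    rw [h4, Algebra.smul_def]
    simp only [one_div, map_inv₀, map_ofNat]
    ring
  rw [h3]
  exact (h1.add h2).smul _

lemma two_dvd {A B : ℤ} {f : ℕ} (h : 2 * absD A B ∣ 3 * (f : ℤ)) : 2 ∣ f := by
  have h1 : (2 : ℤ) ∣ 3 * (f : ℤ) := (Dvd.intro _ rfl).trans h
  omega

/-- an element prime to `m` with `3 ∣ m` is not in `P` -/
lemma not_mem {A B : ℤ} {P : Ideal (OO A B)} (hP : IsPN 3 P) {m : ℕ} (hm : 3 ∣ m)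
    {c : OO A B} (hc : IsCoprime (sp c) (idl (A := A) (B := B) m)) : c ∉ P := by
  intro h
  have h1 : sp c ≤ P := by
    rw [Ideal.span_singleton_le_iff_mem]
    exact h
  have h2 : idl (A := A) (B := B) m ≤ P := by
    rw [Ideal.span_singleton_le_iff_mem]
    obtain ⟨k, rfl⟩ := hm
    rw [Nat.cast_mul]
    exact P.mul_mem_right _ hP.mem
  have h3 := (Ideal.isCoprime_iff_sup_eq.1 hc)
  exact hP.prime.ne_top (top_le_iff.1 (h3 ▸ sup_le h1 h2))

end TYF

open TYF Pool.Agent.NST.TYF in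
/-- (TYF) TYPE, ramified case -/
theorem tw_TYF (h0 : Sq_RFIN) (h1 : Sw_DEL) (h2 : Sw_UNF) (h3 : Sw_ALT) (h4 : Sw_ACF)
    (h5 : Sw_SGU) (h6 : Sw_TAU) (h7 : NST.Nt_RTU) (h8 : NST.Nt_GLC) (h9 : NST.Nt_FGP)
    (h10 : NST.Nt_FGV) (h11 : NST.Nt_ALV) (h12 : NST.Nt_VAK) : Sw_TYF := by
  intro A B P V f hS hT ι _ R u el lam hG e he r hr her i hi1 hi ka ka' hka hka'
  have hQ : CQ A B := hS.case.toCQ
  obtain ⟨hv3, -, -, hD15, -, -, -, -, -, -, -, -⟩ := h1 A B P V hS.case hS.hP hS.hV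
  have hu0 : u ≠ 0 := hG.u0
  have hr0 : r ≠ 0 := by
    rintro rfl
    exact hr (dvd_zero 3)
  have hf2 : 2 ∣ f := two_dvd hS.fD
  have hf10 : 10 ≤ f := by
    have h1 := Int.le_of_dvd (by have := hS.f0; omega) hS.fD
    omega
  have h3f : 3 * f ≠ 0 := mul_ne_zero (by norm_num) hS.f0
  obtain ⟨T, hTT⟩ := h10 A B hQ (3 * f) ι R (idl (3 * f)) e (idl_ne_bot hQ h3f) he ka
    (u * R.om R.i0)
  obtain ⟨T', hTT'⟩ := h10 A B hQ (3 * f) ι R (idl (3 * f)) e (idl_ne_bot hQ h3f) he ka'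
    (u * R.om R.i0)
  obtain ⟨S, j, N, hN0, hN3, hSD, hgen⟩ :=
    h9 (fun x y => PhiK R e ka x y / (u * R.om R.i0)) T hTT
  obtain ⟨S', j', N', hN0', hN3', hSD', hgen'⟩ :=
    h9 (fun x y => PhiK R e ka' x y / (u * R.om R.i0)) T' hTT'
  obtain ⟨tau, htau4, htaua, htau⟩ := h6 A B P V hS.case hS.hP hS.hV hT (3 * f) ι R u el lam hG
  obtain ⟨hu2, hel, hlam, hua, hALTz⟩ := h3 A B hQ hT V hv3 (R.b R.i0) (R.L R.i0)
    (R.om R.i0) (R.nl R.i0) u el lam hG
  set m' := f * (N * N') with hm'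
  have hm'0 : m' ≠ 0 := mul_ne_zero hS.f0 (mul_ne_zero hN0 hN0')
  have hm'3 : ¬ 3 ∣ m' := by
    intro h
    rcases (Nat.Prime.dvd_mul Nat.prime_three).1 h with h | h
    · exact hS.fp h
    · rcases (Nat.Prime.dvd_mul Nat.prime_three).1 h with h | h
      · exact hN3 h
      · exact hN3' h
  have hm'C : (m' : ℂ) ≠ 0 := by exact_mod_cast hm'0
  have hfm : f ∣ m' := Dvd.intro _ rfl
  have hm'1 : m' ≠ 1 := by
    intro h
    rw [h] at hfm
    have := Nat.le_of_dvd one_pos hfm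
    omega
  -- the point of level `m'`
  have hom : R.om R.i0 ≠ 0 := (R.nl R.i0).om_ne
  have hz1 : R.om R.i0 / m' ∉ (R.L R.i0).lattice := by
    intro h
    obtain ⟨x, -, hx⟩ := ((R.nl R.i0).mem _).1 h
    apply nat_mul_ne_one hQ hm'1 x
    apply MUX.emb_inj hQ
    rw [MUX.emb_mul hQ, MUX.emb_natCast hQ, MUX.emb_one hQ]
    field_simp at hx
    rw [← hx]
  have hz2 : (m' : ℂ) * (R.om R.i0 / m') ∈ (R.L R.i0).lattice := by
    rw [mul_div_cancel₀ _ hm'C]
    refine ((R.nl R.i0).mem _).2 ⟨1, ?_, ?_⟩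
    · rw [R.b0]
      trivial
    · rw [MUX.emb_one hQ, mul_one]
  have hYa := (hALTz m' hm'0 _ hz1 hz2).2.1
  -- the field
  set Q : OnePoint ℚ × OnePoint ℚ → ℂ :=
    fun q => PhiK R e ka q.1 q.2 / (u * R.om R.i0) with hQdef
  set Q' : OnePoint ℚ × OnePoint ℚ → ℂ :=
    fun q => PhiK R e ka' q.1 q.2 / (u * R.om R.i0) with hQdef'
  set Ts : Set ℂ := ((Q '' (S : Set (OnePoint ℚ × OnePoint ℚ))) ∪
    (Q' '' (S' : Set (OnePoint ℚ × OnePoint ℚ)))) ∪
    ({tau, yu (R.L R.i0) u (R.om R.i0 / m')} ∪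
      ((Polynomial.nthRootsFinset r (1 : ℂ) : Finset ℂ) : Set ℂ)) with hTs
  have hTfin : Ts.Finite := by
    refine Set.Finite.union (Set.Finite.union ?_ ?_) (Set.Finite.union ?_ ?_)
    · exact (Finset.finite_toSet S).image _
    · exact (Finset.finite_toSet S').image _
    · exact Set.toFinite _
    · exact Finset.finite_toSet _
  have hTalg : ∀ t ∈ Ts, IsAlgebraic ℚ t := by
    rintro t ((⟨q, -, rfl⟩ | ⟨q, -, rfl⟩) | (ht | ht))
    · exact alg_zero h11 hQ hT hS.f0 R e he hr0 her ka hka hua q.1 q.2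
    · exact alg_zero h11 hQ hT hS.f0 R e he hr0 her ka' hka' hua q.1 q.2
    · rcases ht with rfl | ht
      · exact htaua
      · rw [Set.mem_singleton_iff] at ht
        rw [ht]
        exact hYa
    · rw [Finset.mem_coe, Polynomial.mem_nthRootsFinset (Nat.pos_of_ne_zero hr0)] at ht
      refine ⟨Polynomial.X ^ r - 1, Polynomial.X_pow_sub_C_ne_zero
        (Nat.pos_of_ne_zero hr0) (1 : ℚ), ?_⟩
      simp [ht]
  obtain ⟨F, hFf, hFg, hEF, hTF⟩ := h8 A B hQ (RF (idl (A := A) (B := B) m'))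
    (hT.fin _ (idl_ne_bot hQ hm'0)) Ts hTfin hTalg
  have htau0 : tau ≠ 0 := by
    rintro rfl
    rw [map_zero, zero_pow (by norm_num)] at htau4
    exact (V.valuation.ne_zero_iff.2 (by norm_num : (3 : ℂ) ≠ 0)) htau4.symm
  have htauF : tau ∈ F := hTF (Or.inr (Or.inl (Or.inl rfl)))
  have hyF : yu (R.L R.i0) u (R.om R.i0 / m') ∈ F := hTF (Or.inr (Or.inl (Or.inr rfl)))
  have hrF : ∀ z : ℂ, z ^ r = 1 → z ∈ F := fun z hz => hTF (Or.inr (Or.inr (by
    rw [Finset.mem_coe, Polynomial.mem_nthRootsFinset (Nat.pos_of_ne_zero hr0)]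
    exact hz)))
  -- the level
  set m := 3 ^ (j + j' + 1) * m' with hm
  have h3m : 3 ∣ m := (dvd_pow_self 3 (Nat.succ_ne_zero _)).mul_right _
  have hm0 : m ≠ 0 := mul_ne_zero (pow_ne_zero _ (by norm_num)) hm'0
  have hd1 : 3 ^ j * N ∣ m := by
    refine mul_dvd_mul (pow_dvd_pow 3 (by omega)) ?_
    exact (Dvd.intro _ rfl).trans (Dvd.intro_left f rfl)
  have hd2 : 3 ^ j' * N' ∣ m := by
    refine mul_dvd_mul (pow_dvd_pow 3 (by omega)) ?_
    exact (Dvd.intro_left N rfl).trans (Dvd.intro_left f rfl)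
  -- the key point
  have hkey : ∀ σ : ℂ ≃+* ℂ, InI A B V (F : Set ℂ) σ →
      (∀ q ∈ S, σ (Q q * tau ^ i) = Q q * tau ^ i) ∧
      (∀ q ∈ S', σ (Q' q * tau ^ i) = Q' q * tau ^ i) := by
    intro σ hσ
    have hRF := (h0 A B P V hS.case hS.hP hS.hV hT).2 m' hm'0 hm'3 σ hσ.fix
      (fun y hy hyV => hσ.iner y (hEF hy) hyV)
    obtain ⟨c, d, hc1, hcop, hact⟩ := h4 A B hQ hT (3 * f) ι R m m' hm0
      (Dvd.intro_left _ rfl) σ hσ.fix hRF
    have hcP : c ∉ P := not_mem hS.hP h3m hcop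
    have hle : (RF (idl (A := A) (B := B) 2) : IntermediateField (kk A B) ℂ) ≤
        RF (idl (A := A) (B := B) m') :=
      hT.mono _ _ (mem_idl_of_dvd (hf2.trans hfm))
    have hsu2 : σ (u ^ 2) = u ^ 2 := hRF _ (hle hu2)
    have hsel : σ el = el := hRF _ (hle hel)
    have hsu : σ u = d R.i0 * u := by
      refine h5 A B P V f hS ι R u el lam hG (j + j') m' hm'0 hm'3 hfm σ c d hc1 hact hsu2 ?_
      intro h
      have h1 := hσ.iner _ hyF ((V.valuation_le_one_iff _).1 h)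
      rwa [ValuationSubring.mem_nonunits_iff] at h1
    have hroot : ∀ z : ℂ, (z = 0 ∨ z ^ r = 1) → σ z = z := by
      refine (h7 V hv3 r hr).2 σ ?_
      intro z hz
      have hz1 : V.valuation z = 1 := by
        have h1 : (V.valuation z) ^ r = 1 := by rw [← map_pow, hz, map_one]
        exact (pow_eq_one_iff.1 h1).resolve_right hr0
      have h1 := hσ.iner z (hrF z hz) ((V.valuation_le_one_iff _).1 hz1.le)
      rwa [ValuationSubring.mem_nonunits_iff] at h1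
    have hse : ∀ x, σ (e x) = e x := by
      intro x
      apply hroot
      by_cases hx : e x = 0
      · exact Or.inl hx
      · exact Or.inr (her x hx)
    have h2 : σ tau = ((wP P c : ℤ) : ℂ) * tau := htau m h3m σ c d hact hcP hsu hsel
    have h3 : e c = ((wP P c : ℤ) : ℂ) ^ i := hi c (mem_idl_of_dvd hfm hc1) hcP
    have hfin : ∀ z : ℂ, e c * σ z = z → σ (z * tau ^ i) = z * tau ^ i := by
      intro z hz
      rw [map_mul, map_pow, h2, mul_pow, ← h3]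
      calc σ z * (e c * tau ^ i) = (e c * σ z) * tau ^ i := by ring
        _ = z * tau ^ i := by rw [hz]
    refine ⟨fun q hq => hfin _ ?_, fun q hq => hfin _ ?_⟩
    · exact h12 A B f hQ (by omega) ι R e he (j + j') m' hm'0 hfm σ c d hc1 hact hse ka
        (fun l => hroot _ (hka l)) u hu0 hsu q.1 q.2 (dn_mono hd1 (hSD q hq).1)
        (dn_mono hd1 (hSD q hq).2)
    · exact h12 A B f hQ (by omega) ι R e he (j + j') m' hm'0 hfm σ c d hc1 hact hse ka'
        (fun l => hroot _ (hka' l)) u hu0 hsu q.1 q.2 (dn_mono hd2 (hSD' q hq).1)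
        (dn_mono hd2 (hSD' q hq).2)
  have hgenl : ∀ (G : OnePoint ℚ × OnePoint ℚ → ℂ) (X : Set (OnePoint ℚ × OnePoint ℚ)),
      (∀ q ∈ X, G q ∈ F) →
      (∀ σ : ℂ ≃+* ℂ, InI A B V (F : Set ℂ) σ → ∀ q ∈ X, σ (G q * tau ^ i) = G q * tau ^ i) →
      AddSubgroup.closure (G '' X) ≤
        ((KIn A B V F).toAddSubgroup).map (AddMonoidHom.mulLeft ((tau ^ i)⁻¹)) := by
    intro G X hGF hGs
    rw [AddSubgroup.closure_le]
    rintro _ ⟨q, hq, rfl⟩
    refine ⟨G q * tau ^ i, ⟨?_, fun σ hσ => hGs σ hσ q hq⟩, ?_⟩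
    · exact F.mul_mem (hGF q hq) (F.pow_mem htauF i)
    · rw [AddMonoidHom.coe_mulLeft]
      field_simp
  have hQF : ∀ q ∈ (S : Set (OnePoint ℚ × OnePoint ℚ)), Q q ∈ F := fun q hq =>
    hTF (Set.mem_union_left _ (Set.mem_union_left _ (Set.mem_image_of_mem Q hq)))
  have hQF' : ∀ q ∈ (S' : Set (OnePoint ℚ × OnePoint ℚ)), Q' q ∈ F := fun q hq =>
    hTF (Set.mem_union_left _ (Set.mem_union_right _ (Set.mem_image_of_mem Q' hq)))
  have hle1 := hgenl Q (S : Set (OnePoint ℚ × OnePoint ℚ)) hQF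
    (fun σ hσ q hq => (hkey σ hσ).1 q hq)
  have hle2 := hgenl Q' (S' : Set (OnePoint ℚ × OnePoint ℚ)) hQF'
    (fun σ hσ q hq => (hkey σ hσ).2 q hq)
  refine ⟨(tau ^ i)⁻¹, KIn A B V F, ?_, ?_, h2 A B P V hS.case hS.hP hS.hV F, ?_⟩
  · intro x y
    obtain ⟨w', hw', hw2⟩ := hle1 (hgen x y)
    exact ⟨w', hw', hw2.symm⟩
  · intro x y
    obtain ⟨w', hw', hw2⟩ := hle2 (hgen' x y)
    exact ⟨w', hw', hw2.symm⟩
  · rw [map_inv₀, map_pow, inv_pow, ← pow_mul, mul_comm i 4, pow_mul, htau4]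
    exact inv_mul_cancel₀ (pow_ne_zero _ (V.valuation.ne_zero_iff.2 (by norm_num)))

end

end Pool.Agent.NSTR
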