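import Pool.Agent.NS.DefsR
import Pool.Agent.MUX.HY_CHR

/-!
# MUX-NS, ramified case, glue (helper87): elementary facts and the nebentypus

After helper6's `H_Chn.lean` (3 inert).
-/

set_option autoImplicit false

namespace Pool.Agent.NSHR

open _root_.MU3 Pool.Agent.MU3A Pool.Agent.MU3B Pool.Agent.MU3F Pool.Agent.MUX Pool.Agent.MUXH
  Pool.Agent.MUXHY Pool.Agent.MuSym Pool.Agent.NS Pool.Agent.NSRD OnePoint

noncomputable section

variable {A B : ℤ}

/-- the level without its 3-part: `(|D|/3) f²` -/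
def N0R (A B : ℤ) (f : ℕ) : ℕ := (absD A B / 3).toNat * f ^ 2

lemma absD_pos (h : CQ A B) : 0 < absD A B := by
  have := h.neg
  unfold absD
  omega

/-- `|D| = 3 D'`, `3 ∤ D'` -/
lemma absD_three (h : CaseR A B) : (3 : ℤ) * (absD A B / 3) = absD A B ∧
    ¬ (3 : ℤ) ∣ absD A B / 3 ∧ 0 < absD A B / 3 := by
  have h0 := absD_pos h.toCQ
  have h3 : (3 : ℤ) ∣ absD A B := by
    have := h.three
    unfold absD
    rwa [dvd_neg]
  have e : (3 : ℤ) * (absD A B / 3) = absD A B := Int.mul_ediv_cancel' h3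
  refine ⟨e, ?_, by omega⟩
  rintro ⟨k, hk⟩
  have e2 : absD A B = 3 * (3 * k) := by rw [← e, hk]
  unfold absD at e2
  rcases h.hB with hB | hB
  · obtain ⟨hsq, -⟩ := h.fund0 hB
    subst hB
    have h4 : (3 : ℤ) * 3 ∣ A := by
      have h5 : (3 : ℤ) * 3 ∣ 4 * A := ⟨-k, by linarith⟩
      exact (IsCoprime.dvd_of_dvd_mul_left (by norm_num : IsCoprime ((3 : ℤ) * 3) 4) h5)
    have h6 := hsq 3 h4
    rw [Int.isUnit_iff] at h6
    omega
  · have hsq := h.fund1 hB
    subst hB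
    have h4 : (3 : ℤ) * 3 ∣ 1 + 4 * A := ⟨-k, by linarith⟩
    have h6 := hsq 3 h4
    rw [Int.isUnit_iff] at h6
    omega

lemma N0R_cast (h : CaseR A B) (f : ℕ) :
    ((3 * N0R A B f : ℕ) : ℤ) = absD A B * (f : ℤ) ^ 2 := by
  obtain ⟨e, -, hp⟩ := absD_three h
  unfold N0R
  push_cast
  rw [Int.toNat_of_nonneg hp.le, ← mul_assoc, e]

/-- elementary facts -/
theorem valR {P : Ideal (OO A B)} {V : ValuationSubring ℂ} {f : ℕ} (H : SetR A B P V f) :
    V.valuation (3 : ℂ) < 1 ∧ (∀ n : ℤ, V.valuation (n : ℂ) ≤ 1) ∧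
    (∀ n : ℤ, ¬ (3 : ℤ) ∣ n → V.valuation (n : ℂ) = 1) ∧
    (∀ (r : ℕ) (z : ℂ), r ≠ 0 → z ^ r = 1 → V.valuation z = 1) ∧
    0 < absD A B ∧
    idl (A := A) (B := B) (3 * f) ≤ sp ((absD A B : ℤ) : OO A B) ∧
    idl (A := A) (B := B) (3 * f) ≠ ⊥ ∧ idl (A := A) (B := B) (3 * f) ≠ ⊤ ∧
    ((3 * f : ℕ) : OO A B) ∈ idl (A := A) (B := B) (3 * f) := by
  have h3 : V.valuation (3 : ℂ) < 1 := by
    have h1 : emb ((3 : ℕ) : OO A B) ∈ V.nonunits := (H.hV _).2 H.hP.mem
    have h2 : emb ((3 : ℕ) : OO A B) = 3 := by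
      unfold emb
      rw [QuadraticAlgebra.re_natCast, QuadraticAlgebra.im_natCast]
      norm_num
    rw [h2, ValuationSubring.mem_nonunits_iff] at h1
    exact h1
  have hle : ∀ z : ℤ, V.valuation (z : ℂ) ≤ 1 := fun z =>
    (V.valuation_le_one_iff _).2 (intCast_mem V z)
  have hD0 : 0 < absD A B := absD_pos H.case.toCQ
  have h3f : ((3 * f : ℕ) : OO A B) ∈ idl (A := A) (B := B) (3 * f) :=
    Ideal.mem_span_singleton_self _
  have hf0 := H.f0
  refine ⟨h3, hle, ?_, ?_, hD0, ?_, ?_, ?_, h3f⟩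
  · intro n hn
    have hc : IsCoprime n 3 := by
      rw [isCoprime_comm]
      exact (Int.prime_three.coprime_iff_not_dvd).2 hn
    obtain ⟨a, b, hab⟩ := hc
    by_contra hne
    have hlt : V.valuation (n : ℂ) < 1 := lt_of_le_of_ne (hle n) hne
    have h1 : V.valuation ((a : ℂ) * n + b * 3) < 1 := by
      refine lt_of_le_of_lt (V.valuation.map_add _ _) (max_lt ?_ ?_)
      · rw [map_mul]
        exact mul_lt_one_of_nonneg_of_lt_one_right (hle a) zero_le hlt
      · rw [map_mul]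
        exact mul_lt_one_of_nonneg_of_lt_one_right (hle b) zero_le h3
    have h2 : (a : ℂ) * n + b * 3 = 1 := by exact_mod_cast hab
    rw [h2, map_one] at h1
    exact lt_irrefl _ h1
  · intro r z hr hz
    have h1 : V.valuation z ^ r = 1 := by rw [← map_pow, hz, map_one]
    exact (pow_eq_one_iff_of_nonneg zero_le hr).1 h1
  · rw [Ideal.span_singleton_le_iff_mem, Ideal.mem_span_singleton]
    obtain ⟨t, ht⟩ := H.fD
    refine ⟨(2 * t : ℤ), ?_⟩
    have h1 : ((3 * f : ℕ) : OO A B) = ((3 * (f : ℤ) : ℤ) : OO A B) := by push_cast; rfl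
    rw [h1, ht]
    push_cast
    ring
  · intro h
    rw [h, Ideal.mem_bot] at h3f
    have h1 := congrArg QuadraticAlgebra.re h3f
    simp only [QuadraticAlgebra.re_natCast, QuadraticAlgebra.re_zero] at h1
    have h2 : (3 * f : ℕ) = 0 := by exact_mod_cast h1
    omega
  · intro h
    rw [Ideal.eq_top_iff_one, Ideal.mem_span_singleton] at h
    obtain ⟨y, hy⟩ := h
    have h1 := congrArg QuadraticAlgebra.re hy
    rw [QuadraticAlgebra.re_one, QuadraticAlgebra.re_mul, QuadraticAlgebra.re_natCast,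
      QuadraticAlgebra.im_natCast, mul_zero, zero_mul, add_zero] at h1
    have h9 : ((3 * f : ℕ) : ℤ) ∣ 1 := ⟨y.re, h1⟩
    have h10 := Int.le_of_dvd one_pos h9
    have : 0 < f := Nat.pos_of_ne_zero hf0
    omega

theorem chrR (h4 : MUXF.Sx_CHI) {P : Ideal (OO A B)} {V : ValuationSubring ℂ} {f : ℕ}
    (H : SetR A B P V f)
    {e : OO A B → ℂ} (he : IsEI (idl (A := A) (B := B) (3 * f)) e) {r : ℕ} (hr0 : r ≠ 0)
    (hr : ∀ x, e x ≠ 0 → e x ^ r = 1) :
    nuX e 1 = 1 ∧ (∀ d d', nuX e (d * d') = nuX e d * nuX e d') ∧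
    (∀ d d' : ℤ, ((3 * N0R A B f : ℕ) : ℤ) ∣ d - d' → nuX e d = nuX e d') ∧
    (∀ d, V.valuation (nuX e d) ≤ 1) := by
  obtain ⟨-, vZ, -, vru, hDpos, hgD, hg0, -, hpf⟩ := valR H
  have hcq : CQ A B := H.case.toCQ
  have ev : ∀ x, V.valuation (e x) ≤ 1 := by
    intro x
    by_cases hx : e x = 0
    · rw [hx, map_zero]
      exact zero_le_one
    · exact (vru r (e x) hr0 (hr x hx)).le
  have hcopD : ∀ d : ℤ, e (d : OO A B) ≠ 0 → IsCoprime d (absD A B) := by
    intro d hd
    have h5 := (he.supp _).1 hd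
    apply Chr.coprime_int (A := A) (B := B)
    rw [← Ideal.isCoprime_span_singleton_iff]
    rw [Ideal.isCoprime_iff_sup_eq] at h5 ⊢
    exact top_le_iff.1 (h5 ▸ sup_le_sup_left hgD _)
  refine ⟨?_, ?_, ?_, ?_⟩
  · unfold nuX
    have : ((1 : ℤ) : OO A B) = 1 := by push_cast; rfl
    rw [Chr.chiX_one, this, he.one]
    norm_num
  · intro d d'
    unfold nuX
    have : ((d * d' : ℤ) : OO A B) = (d : OO A B) * (d' : OO A B) := by push_cast; rfl
    rw [Chr.chiX_mul, this, he.mul]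
    push_cast
    ring
  · intro d d' hd
    rw [N0R_cast H.case] at hd
    obtain ⟨t, ht⟩ := hd
    have hD : absD A B ∣ d - d' := ⟨(f : ℤ) ^ 2 * t, by rw [ht]; ring⟩
    obtain ⟨e3, -, -⟩ := absD_three H.case
    unfold nuX
    by_cases hcop : IsCoprime d (absD A B)
    · have h5 : chiX A B d' = chiX A B d := ((h4 A B (toCQ hcq) d hcop).2.2 d' hD)
      have h6 : e (d : OO A B) = e (d' : OO A B) := by
        apply he.per
        have h7 : (d : OO A B) - (d' : OO A B) =
            (((absD A B / 3 * f * t : ℤ)) : OO A B) * ((3 * f : ℕ) : OO A B) := by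
          have h8 : (d : OO A B) - (d' : OO A B) = ((d - d' : ℤ) : OO A B) := by push_cast; rfl
          rw [h8, ht, ← e3]
          have h9 : 3 * (absD A B / 3) / 3 = absD A B / 3 := by omega
          rw [h9]
          push_cast
          ring
        rw [h7]
        exact Ideal.mul_mem_left _ _ hpf
      rw [h5, h6]
    · have h5 : e (d : OO A B) = 0 := by
        by_contra hne
        exact hcop (hcopD d hne)
      have h6 : e (d' : OO A B) = 0 := by
        by_contra hne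
        apply hcop
        obtain ⟨s, hs⟩ := hD
        have h7 : d = d' + absD A B * s := by linarith
        rw [h7]
        exact (IsCoprime.add_mul_left_left_iff).2 (hcopD d' hne)
      rw [h5, h6, mul_zero, mul_zero]
  · intro d
    unfold nuX
    rw [map_mul]
    exact mul_le_one' (vZ _) (ev _)

end

end Pool.Agent.NSHR
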