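import Pool.Agent.NS.StIR
import Pool.Agent.NS.GR_TYI
import Pool.Agent.MUX.I_I3
import Pool.Agent.MUX.I_EPS3

/-!
# MUX-NS, block IR (helper87): one level, from blocks E and H, ramified case

After helper36's `I_I31.lean`.
-/

set_option autoImplicit false

namespace Pool.Agent.NSIR

open _root_.MU3 Pool.Agent.MU3 Pool.Agent.MU3A Pool.Agent.MU3B Pool.Agent.RI Pool.Agent.RID
  Pool.Agent.MUX Pool.Agent.MUXK Pool.Agent.MUXI Pool.Agent.NS Pool.Agent.NSRD Pool.Agent.NSI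
open Pool.Agent.MU3I (w3 zt St_ITG)

noncomputable section

/-- the property `BdE` -/
lemma bd_prop (V : ValuationSubring ℂ) (n : ℕ) (u : ℂ) :
    BdE V n u 0 ∧ (∀ x y : ℂ, BdE V n u x → BdE V n u y → BdE V n u (x + y)) ∧
    (∀ v x : ℂ, v ∈ V → BdE V n u x → BdE V n u (v * x)) ∧
    ∀ v x : ℂ, v ∉ V.nonunits → BdE V n u (v * x) → BdE V n u x := by
  have mono : ∀ x y : ℂ, V.valuation (x / u) ≤ V.valuation (y / u) → BdE V n u y →
      BdE V n u x := by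
    intro x y h hy
    unfold BdE at hy ⊢
    exact (mul_le_mul_left (pow_le_pow_left₀ zero_le h _) _).trans hy
  refine ⟨?_, ?_, ?_, ?_⟩
  · unfold BdE
    have h1 : 12 * 3 ^ n ≠ 0 := by positivity
    simp [h1]
  · intro x y hx hy
    have h1 : V.valuation ((x + y) / u) ≤ max (V.valuation (x / u)) (V.valuation (y / u)) := by
      rw [add_div]
      exact V.valuation.map_add _ _
    rcases le_total (V.valuation (x / u)) (V.valuation (y / u)) with h | h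
    · rw [max_eq_right h] at h1
      exact mono _ _ h1 hy
    · rw [max_eq_left h] at h1
      exact mono _ _ h1 hx
  · intro v x hv hx
    refine mono _ _ ?_ hx
    rw [mul_div_assoc, map_mul]
    exact mul_le_of_le_one_left' ((V.valuation_le_one_iff v).2 hv)
  · intro v x hv hx
    refine mono _ _ ?_ hx
    rw [mul_div_assoc, map_mul]
    have h1 : 1 ≤ V.valuation v := by
      by_contra h2
      exact hv (V.mem_nonunits_iff.2 (lt_of_not_ge h2))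
    exact le_mul_of_one_le_left' h1

/-- if the product is a cube, then the sum is small -/
theorem pows (hFOU : Sn_FOU) (hTG : St_ITG) {A B : ℤ} (P : Ideal (OO A B)) (V : ValuationSubring ℂ)
    (f : ℕ) {ι : Type} (R : Reps A B (3 * f) ι) (u : ℂ)
    (n : ℕ) (D : IntermediateField ℚ ℂ) [FiniteDimensional ℚ D] (h : kk A B ≤ D)
    (C : (letI := algC h; D ≃ₐ[kk A B] D) → ℂ) (hE : EInpR P V f R u n h C) :
    letI := algC h
    ∀ (_ : ∀ σ τ : D ≃ₐ[kk A B] D, σ * τ = τ * σ) (c₁ : ℂ) (hc : c₁ ∈ D) (_ : c₁ = C 1)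
      (γ : D ≃ₐ[kk A B] D) (Δ : Subgroup (D ≃ₐ[kk A B] D)) [Fintype Δ] (N : ℕ) (b : Δ → ℕ)
      (X : Δ →* ℂˣ) (_ : (∑ δ : Δ, (b δ : ℂ) * (X δ : ℂ)) ∉ V.nonunits) (y : D)
      (_ : y ^ 3 = ∏ δ : Δ, ((δ : D ≃ₐ[kk A B] D) ((Tg γ)^[N] ⟨c₁, hc⟩)) ^ b δ),
      BdE V n u (∑ j ∈ Finset.range (N + 1),
        (((-1 : ℤ) ^ (N - j) * (N.choose j : ℤ) : ℤ) : ℂ) *
        ∑ δ : Δ, (((X δ)⁻¹ : ℂˣ) : ℂ) * TTX R P (lvX 3 f n)
          (aX 3 f) h (γ ^ j * (δ : D ≃ₐ[kk A B] D))) := by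
  classical
  let akL : Algebra (kk A B) D := algC h
  intro comm c₁ hc hc1 γ Δ iΔ N b X hX y hy
  have fdk : FiniteDimensional (kk A B) D := Module.Finite.of_restrictScalars_finite ℚ (kk A B) D
  have iG : Fintype (D ≃ₐ[kk A B] D) := Fintype.ofFinite _
  let e : ℕ → ℤ := fun j => (-1 : ℤ) ^ (N - j) * (N.choose j : ℤ)
  let g : (D ≃ₐ[kk A B] D) → ℤ := fun τ => ∑ δ : Δ, ∑ j ∈ Finset.range (N + 1),
      if (δ : D ≃ₐ[kk A B] D) * γ ^ j = τ then (b δ : ℤ) * e j else 0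
  have hcτ : ∀ τ : D ≃ₐ[kk A B] D, ((τ ⟨c₁, hc⟩ : D) : ℂ) = C τ := by
    intro τ
    obtain ⟨y', hy1, hy2⟩ := hE.conj τ
    have h3 : y' = ⟨c₁, hc⟩ := Subtype.ext (hy1.trans hc1.symm)
    rw [← h3]
    exact hy2
  have hcne : (⟨c₁, hc⟩ : D) ≠ 0 := by
    intro h0
    apply hE.ne
    have h1 : c₁ = 0 := congrArg Subtype.val h0
    rw [hc1] at h1
    exact h1
  have hu : ∀ τ : D ≃ₐ[kk A B] D, C τ ≠ 0 := by
    intro τ h0
    rw [← hcτ τ] at h0
    have h1 : τ (⟨c₁, hc⟩ : D) = 0 := Subtype.ext h0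
    exact hcne ((map_eq_zero_iff τ τ.injective).1 h1)
  have e1 : (y : ℂ) ^ 3 = ∏ᶠ τ : D ≃ₐ[kk A B] D, C τ ^ g τ := by
    rw [MU3I.I3F.prod_exp γ Δ _ hu (fun δ => (b δ : ℤ)) N e g (fun τ => rfl)]
    have h1 : (y : ℂ) ^ 3 = D.val (y ^ 3) := rfl
    rw [h1, hy, map_prod]
    refine Finset.prod_congr rfl fun δ _ => ?_
    rw [MU3I.I3F.tg_pow hTG _ _ γ δ _ hcne N (b δ), map_prod]
    refine Finset.prod_congr rfl fun j _ => ?_
    rw [map_zpow₀]
    exact congrArg (fun w : ℂ => w ^ ((b δ : ℤ) * e j)) (hcτ ((δ : D ≃ₐ[kk A B] D) * γ ^ j))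
  have e2 := hE.ew g ⟨y, y.2, e1⟩
  obtain ⟨q1, q2, q3, q4⟩ := bd_prop V n u
  refine hFOU V (BdE V n u) q1 q2 q3 q4
    (D ≃ₐ[kk A B] D) comm γ Δ
    (fun τ => TTX R P (lvX 3 f n) (aX 3 f) h τ) (fun δ => (b δ : ℤ)) N e X ?_ ?_
  · simpa using hX
  · intro τ'
    have e3 := e2 τ'
    rw [MU3I.I3F.sum_exp γ Δ (fun τ => TTX R P (lvX 3 f n) (aX 3 f) h τ)
      (fun δ => (b δ : ℤ)) N e g (fun τ => rfl) τ'] at e3
    exact e3

lemma cast_wP_sq {A B : ℤ} {P : Ideal (OO A B)} (hq : EPS3.QI P) {x : OO A B} (h : x ∉ P) :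
    ((wP P x : ℤ) : ℂ) ^ 2 = 1 := by
  have h1 := EPS3.wP_sq hq h
  have h2 : (((wP P x) ^ 2 : ℤ) : ℂ) = 1 := by rw [h1]; norm_num
  simpa using h2

/-- the odd character -/
lemma epsR {A B : ℤ} {P : Ideal (OO A B)} {V : ValuationSubring ℂ} {f : ℕ}
    (hS : SetR A B P V f) (e0 : OO A B → ℂ) (r : ℕ)
    (h01 : e0 1 = 1) (h0m : e0 (-1) = 1) (h0mul : ∀ x y, e0 (x * y) = e0 x * e0 y)
    (h0per : ∀ x y, x - y ∈ idl (A := A) (B := B) (lvX 3 f 0) → e0 x = e0 y)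
    (h0supp : ∀ x, e0 x ≠ 0 ↔ IsCoprime x ((lvX 3 f 0 : ℕ) : OO A B))
    (h0pow : ∀ x, e0 x ≠ 0 → e0 x ^ r = 1) :
    IsEI (idl (A := A) (B := B) (3 * f)) (fun x => e0 x * ((wP P x : ℤ) : ℂ)) ∧
    (∀ x, e0 x * ((wP P x : ℤ) : ℂ) ≠ 0 → (e0 x * ((wP P x : ℤ) : ℂ)) ^ (2 * r) = 1) := by
  have hq : EPS3.QI P := Pool.Agent.NSGR.TYI.qi hS.hP
  have hlv : lvX 3 f 0 = 3 * f := by
    unfold lvX q0
    norm_num
    ring
  have h3P : ((3 * f : ℕ) : OO A B) ∈ P := by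
    have h1 := P.mul_mem_right ((f : ℕ) : OO A B) hS.hP.mem
    push_cast at h1 ⊢
    exact h1
  have h1P : (1 : OO A B) ∉ P := fun h => hS.hP.prime.ne_top ((Ideal.eq_top_iff_one _).2 h)
  have hcop : ∀ x : OO A B, IsCoprime x ((3 * f : ℕ) : OO A B) → x ∉ P := by
    rintro x ⟨a, b, hab⟩ hx
    apply h1P
    rw [← hab]
    exact P.add_mem (P.mul_mem_left _ hx) (P.mul_mem_left _ h3P)
  have w1 : wP P (1 : OO A B) = 1 := by
    have h := EPS3.wP_eq hq (x := 1) (n := 1) (by simp)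
    rw [h]
    decide
  constructor
  · constructor
    · rw [h01, w1]
      norm_num
    · intro x y
      rw [h0mul, EPS3.wP_mul hq]
      push_cast
      ring
    · intro x y hxy
      have h1 : x - y ∈ P := by
        have h2 : idl (A := A) (B := B) (3 * f) ≤ P := by
          rw [Ideal.span_singleton_le_iff_mem]
          exact h3P
        exact h2 hxy
      rw [h0per x y (by rw [hlv]; exact hxy), EPS3.wP_per hq h1]
    · intro x
      constructor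
      · intro h
        have h1 : e0 x ≠ 0 := left_ne_zero_of_mul h
        have h2 := (h0supp x).1 h1
        rw [hlv] at h2
        exact (Ideal.isCoprime_span_singleton_iff x ((3 * f : ℕ) : OO A B)).2 h2
      · intro h
        have h2 : IsCoprime x ((3 * f : ℕ) : OO A B) :=
          (Ideal.isCoprime_span_singleton_iff x ((3 * f : ℕ) : OO A B)).1 h
        have h3 : e0 x ≠ 0 := (h0supp x).2 (by rw [hlv]; exact h2)
        have h4 : wP P x ≠ 0 := (EPS3.wP_ne hq x).2 (hcop x h2)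
        exact mul_ne_zero h3 (by exact_mod_cast h4)
    · rw [h0m, EPS3.wP_neg hq, w1]
      norm_num
  · intro x h
    have h1 : e0 x ≠ 0 := left_ne_zero_of_mul h
    have h2 := (h0supp x).1 h1
    rw [hlv] at h2
    rw [mul_pow, mul_comm 2 r, pow_mul, h0pow x h1, one_pow, one_mul, mul_comm r 2, pow_mul,
      cast_wP_sq hq (hcop x h2), one_pow]

end

end Pool.Agent.NSIR
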