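import Pool.Agent.NS.StIN
import Pool.Agent.NS.ZL
import Pool.Agent.MUX.I_PTP
import Pool.Agent.MUX.StYR
import Pool.Agent.MUX.J_LAY
import Pool.Agent.MUX.StJG

/-!
# NS, final assembly, part 1 (helper6): the inputs of block J for `3` inert

`cX_sq`: the product over the whole of `XX` is the square of the product over a half. `eInpN`: the input `EInpN` of block IN.
`ni_INPG`: the inputs `InpG 3 (2 |D|)`. Models: `MUX/Z_INP.lean` (helper3), `N2/I_INPG.lean` (helper36).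
-/

set_option autoImplicit false

open NumberField IsDedekindDomain

namespace Pool.Agent.NSZ

open _root_.MU3 Pool.Agent.MU3 Pool.Agent.MU3A Pool.Agent.MU3B Pool.Agent.RI Pool.Agent.RID
  Pool.Agent.MUX Pool.Agent.MUXK Pool.Agent.MUXJ Pool.Agent.MUXW Pool.Agent.MUXZ Pool.Agent.NSI
  Pool.Agent.NS
open Pool.Agent.MU3V (Sub GD)

noncomputable section

open scoped Classical in
/-- the product over the whole of `XX` is the square of the product over a half -/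
theorem cX_sq {A B : ℤ} (hc : MUX.CQ A B) {n : ℕ} {ι : Type} (R : Reps A B n ι) {m : ℕ}
    (hm : m ≠ 0) (H : ι → Finset ℂ) {a : ℂ} (hH : ∀ i, IsHalf (R.L i) a (H i)) {D : IntermediateField ℚ ℂ} (h : kk A B ≤ D)
    (τ : letI := algC h; D ≃ₐ[kk A B] D) (S : Finset (ι × (OO A B ⧸ idl (A := A) (B := B) m)))
    (h1 : ∀ q, q ∈ XX R m h τ ↔ q ∈ S ∨ (q.1, -q.2) ∈ S) (h2 : ∀ q ∈ S, (q.1, -q.2) ∉ S) :
    cX R m H h τ = (∏ q ∈ S, ThetaH (R.L q.1) (H q.1) (MUX.pt R m q.1 (Quotient.out q.2))) ^ 2 := by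
  let neg : ι × (OO A B ⧸ idl (A := A) (B := B) m) → ι × (OO A B ⧸ idl (A := A) (B := B) m) :=
    fun q => (q.1, -q.2)
  have hinv : ∀ q, neg (neg q) = q := fun q => by simp [neg]
  have hset : XX R m h τ = ↑(S ∪ S.image neg) := by
    ext q
    rw [h1]
    simp only [Finset.coe_union, Finset.coe_image, Set.mem_union, Finset.mem_coe, Set.mem_image]
    refine or_congr Iff.rfl ⟨fun hq => ⟨neg q, hq, hinv q⟩, ?_⟩
    rintro ⟨q', hq', rfl⟩
    have : neg (neg q') ∈ S := by rw [hinv]; exact hq'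
    exact this
  have hdis : Disjoint S (S.image neg) := by
    rw [Finset.disjoint_left]
    intro q hq hq2
    obtain ⟨q', hq', rfl⟩ := Finset.mem_image.1 hq2
    exact h2 q' hq' hq
  have hF : ∀ q, ThetaH (R.L (neg q).1) (H (neg q).1) (MUX.pt R m (neg q).1 (Quotient.out (neg q).2)) =
      ThetaH (R.L q.1) (H q.1) (MUX.pt R m q.1 (Quotient.out q.2)) := by
    intro q
    obtain ⟨i, x⟩ := q
    show ThetaH (R.L i) (H i) (MUX.pt R m i (Quotient.out (-x))) = _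
    have e1 : Quotient.out (-x) - (-(Quotient.out x)) ∈ idl (A := A) (B := B) m := by
      rw [← Ideal.Quotient.eq, map_neg]
      have k1 : Ideal.Quotient.mk (idl (A := A) (B := B) m) (Quotient.out (-x)) = -x :=
        Ideal.Quotient.mk_out _
      have k2 : Ideal.Quotient.mk (idl (A := A) (B := B) m) (Quotient.out x) = x :=
        Ideal.Quotient.mk_out _
      rw [k1, k2]
    have e2 := ((Pool.Agent.MUXI.ti_PTP A B hc n ι R m hm i).1 _ _ e1).1
    have e3 : MUX.pt R m i (-(Quotient.out x)) = -MUX.pt R m i (Quotient.out x) := by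
      unfold MUX.pt
      rw [show emb (-(Quotient.out x) : OO A B) = -emb (Quotient.out x) by
        unfold emb
        have k1 : (-(Quotient.out x) : OO A B).re = -(Quotient.out x : OO A B).re := rfl
        have k2 : (-(Quotient.out x) : OO A B).im = -(Quotient.out x : OO A B).im := rfl
        rw [k1, k2]
        push_cast
        ring]
      ring
    rw [e3] at e2
    obtain ⟨-, t2, t3⟩ := b_TIN (R.L i) a (H i) (H i) (hH i) (hH i)
    have e5 : MUX.pt R m i (Quotient.out (-x)) = -MUX.pt R m i (Quotient.out x) +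
        (MUX.pt R m i (Quotient.out (-x)) - -MUX.pt R m i (Quotient.out x)) := by ring
    rw [e5, t3 _ _ e2, t2]
  unfold cX
  rw [hset, finprod_mem_coe_finset, Finset.prod_union hdis, Finset.prod_image (fun q _ q' _ hqq => by
    have := congrArg neg hqq
    rwa [hinv, hinv] at this), pow_two]
  congr 1
  exact Finset.prod_congr rfl fun q _ => hF q

theorem idl_ne_bot {A B : ℤ} {m : ℕ} (hm : m ≠ 0) : idl (A := A) (B := B) m ≠ ⊥ := by
  intro hh
  apply hm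
  have := (Ideal.span_singleton_eq_bot.mp hh)
  exact_mod_cast (by
    have h1 := congrArg (fun x : OO A B => x.re) this
    simpa using h1 : ((m : ℕ) : ℤ) = 0)

/-- the input of block IN for the norm to any field `D ≤ RF (lvX 3 f n)` -/
theorem eInpN (hME : Sy_MEM) (hCX : Sy_CXS) (hEF : Sn_EFIN)
    {A B : ℤ} {V : ValuationSubring ℂ} {f : ℕ}
    (hS : SetN A B V f) (hT : TorX A B) (hLV : Zl_LVX)
    {ι : Type} [Fintype ι] (R : Reps A B (3 * f) ι) {u e lam : ℂ}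
    (hG : GoodN V (R.L R.i0) u e lam) {H : ι → Finset ℂ}
    {θ : ∀ n : ℕ, (RF (idl (A := A) (B := B) (lvX 3 f n)) : IntermediateField (kk A B) ℂ)}
    (hth : ThN 3 f R H θ) (n : ℕ) (hn : 1 ≤ n) (D : IntermediateField ℚ ℂ) (h : kk A B ≤ D)
    (hD : ∀ y ∈ D, y ∈ RF (idl (A := A) (B := B) (lvX 3 f n))) :
    EInpN V f R u n h (fun τ => cWt h (θ n) τ) := by
  obtain ⟨hl0, _, _, hl2, hlu, hodd, hac, _, _, hcop⟩ := hLV 3 A B f (setL_N hS) n
  have hb : (idl (A := A) (B := B) (lvX 3 f n)) ≠ ⊥ := idl_ne_bot hl0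
  have := hT.fin _ hb
  have := hT.gal _ hb
  obtain ⟨h1, h2, h3, _, _⟩ := hME A B _ (hT.fin _ hb) (hT.gal _ hb) (hT.comm _ hb) D h hD (θ n)
    (hth.ne n)
  let := algC h
  have hconj : ∀ τ : D ≃ₐ[kk A B] D, ∃ y : D, (y : ℂ) = cWt h (θ n) 1 ∧
      ((τ y : D) : ℂ) = cWt h (θ n) τ := by
    intro τ
    refine ⟨⟨cWt h (θ n) 1, (h2 1).1⟩, rfl, ?_⟩
    have hm : cW h (θ n) ∈ D := by rw [h1]; exact (h2 1).1
    have := h3 τ hm
    have he : (⟨cWt h (θ n) 1, (h2 1).1⟩ : D) = ⟨cW h (θ n), hm⟩ := Subtype.ext h1.symm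
    rw [he]; exact this
  have hsq : ∀ τ : D ≃ₐ[kk A B] D, cX R (lvX 3 f n) H h τ = cWt h (θ n) τ ^ 2 := by
    intro τ
    obtain ⟨S, hS1, hS2, hS3⟩ := hCX A B hS.case.toCQ hT (3 * f) ι R (lvX 3 f n) hl0
      (fun i => hcop _ (R.cop i)) hl2 (aX 3 f) H (by unfold aX; omega) hac hth.half (θ n)
      (hth.pt n) D h hD τ
    rw [hS3]
    exact cX_sq hS.case.toCQ R hl0 H hth.half h τ S hS1 hS2
  have hfin : Finite (D ≃ₐ[kk A B] D) := by
    have hfd : FiniteDimensional (kk A B) D := by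
      have hle : ∀ x : D, (x : ℂ) ∈ RF (idl (A := A) (B := B) (lvX 3 f n)) := fun x => hD x x.2
      let φ : D →ₗ[kk A B] RF (idl (A := A) (B := B) (lvX 3 f n)) :=
        { toFun := fun x => ⟨x, hle x⟩
          map_add' := fun x y => rfl
          map_smul' := fun c x => by
            apply Subtype.ext
            rfl }
      exact FiniteDimensional.of_injective φ (fun x y hxy => by
        have := congrArg (fun z : RF (idl (A := A) (B := B) (lvX 3 f n)) => (z : ℂ)) hxy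
        exact Subtype.ext this)
    exact inferInstance
  refine ⟨(h2 1).2, hconj, ?_⟩
  rintro w hw g ⟨y, hy, hye⟩ τ'
  refine hEF A B V f hS hT ι R u e lam hG w hw n hn H hth.half D h hD ?_ g
    ⟨y ^ 2, pow_mem hy 2, ?_⟩ τ'
  · intro τ
    obtain ⟨z, hz1, hz2⟩ := hconj τ
    refine ⟨z ^ 2, ?_, ?_⟩
    · rw [hsq]
      push_cast
      rw [hz1]
    · rw [hsq, map_pow]
      push_cast
      rw [hz2]
  · have h4 : (∏ᶠ τ : D ≃ₐ[kk A B] D, cX R (lvX 3 f n) H h τ ^ g τ) =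
        (∏ᶠ τ : D ≃ₐ[kk A B] D, cWt h (θ n) τ ^ g τ) ^ 2 := by
      have := Fintype.ofFinite (D ≃ₐ[kk A B] D)
      rw [finprod_eq_prod_of_fintype, finprod_eq_prod_of_fintype, ← Finset.prod_pow]
      refine Finset.prod_congr rfl fun τ _ => ?_
      rw [hsq, ← zpow_natCast, ← zpow_natCast, ← zpow_mul, ← zpow_mul, mul_comm]
    rw [h4, ← hye]
    ring

/-- the inputs of block J -/
theorem ni_INPG (hRF : Sn_RFIN) (hEF : Sn_EFIN) (hINP : Sn_INP) (hLV : Zl_LVX)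
    (hIW : Zl_INW) (hSUB : Sn_SUB) (hTH : Sz_THN) (hME : Sy_MEM) (hCX : Sy_CXS)
    (hRX : MUXY.Sy_REX) : ∀ (A B : ℤ) (V : ValuationSubring ℂ), CaseI A B →
      OverI V (idl (A := A) (B := B) 3) → TorX A B → InpG 3 (2 * (absD A B).toNat) A B V := by
  intro A B V hC hV hT f hf0 hfp hfd K₀ K Bn _ _ _ hX hK hH hk hk₀ hkK
  have hCQ : CQ A B := hC.toCQ
  have hpos : 0 < absD A B := by
    have := hCQ.neg
    unfold absD
    omega
  have hS : SetN A B V f := by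
    refine ⟨hC, hV, hf0, hfp, ?_⟩
    have h1 : ((2 * (absD A B).toNat : ℕ) : ℤ) ∣ (f : ℤ) := by exact_mod_cast hfd
    have h2 : ((2 * (absD A B).toNat : ℕ) : ℤ) = 2 * absD A B := by
      push_cast
      rw [Int.toNat_of_nonneg hpos.le]
    rwa [h2] at h1
  have hL : SetL 3 A B f := setL_N hS
  have : Fact (Nat.Prime 3) := ⟨Nat.prime_three⟩
  have hd3 : absD A B ≠ 3 := by
    intro h
    have h3 := hC.three
    unfold absD at h
    omega
  have hd4 : absD A B ≠ 4 := by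
    intro h
    apply hC.exc
    unfold absD at h
    rcases hCQ.hB with hB | hB
    · refine ⟨hB, ?_⟩
      rw [hB] at h
      omega
    · rw [hB] at h
      omega
  obtain ⟨ι, hι, ⟨R⟩⟩ := hRX A B hCQ hd3 hd4 (3 * f) (Nat.mul_ne_zero three_ne_zero hf0)
  have hodd := (hLV 3 A B f hL 0).2.2.2.2.2.1
  obtain ⟨H, hHalf, hθ⟩ := hTH A B hCQ hT (3 * f) ι R (aX 3 f) hodd
  have hθ' : ∀ n : ℕ, ∃ θ : (RF (idl (A := A) (B := B) (lvX 3 f n)) :
      IntermediateField (kk A B) ℂ),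
      (θ : ℂ) = ThetaH (R.L R.i0) (H R.i0) (pt R (lvX 3 f n) R.i0 1) ∧
      (θ : ℂ) = ThetaH (R.L R.i0) (H R.i0) (R.om R.i0 / emb ((lvX 3 f n : ℕ) : OO A B)) ∧
      θ ≠ 0 := fun n =>
    hθ (lvX 3 f n) (hLV 3 A B f hL n).1 (hLV 3 A B f hL n).2.2.2.2.1
      (hLV 3 A B f hL n).2.2.2.2.2.2.1
  choose θ hθ1 hθ2 hθ3 using hθ'
  have hth : ThN 3 f R H θ := ⟨hHalf, hθ1, hθ2, hθ3⟩
  obtain ⟨S, hW⟩ := hIW 3 A B f hL hT ι R H θ hth K₀ K Bn hX hK hH hk hk₀
  obtain ⟨u, e, lam, hG, -, -, -⟩ := (hRF A B V hC hV hT).1 _ _ _ (R.nl R.i0)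
  have hNL : ∃ (b : Ideal (OO A B)) (L : PeriodPair) (om : ℂ), IsNL b L om :=
    ⟨_, _, _, R.nl R.i0⟩
  have hK₀ : ∀ y ∈ K₀, y ∈ RF (idl (A := A) (B := B) (lvX 3 f 0)) := fun y hy => hK y (hX.le hy)
  have hDn : ∀ n, ∀ y ∈ K₀ ⊔ Bn n, y ∈ RF (idl (A := A) (B := B) (lvX 3 f n)) := fun n =>
    hSUB 3 A B f hL hT hNL K₀ hK₀ n (Bn n) (hX.b0.lay n)
  refine ⟨S, fun n => cW (hk n) (θ n), fun n => cW (hk₀ n) (θ n), 0, ?_⟩
  refine hINP A B V f hS hT ι R u e lam hG K₀ K Bn hX hK₀ hk hk₀ hkK S _ _ 0 hW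
    (fun n τ => cWt (hk₀ n) (θ n) τ) (fun n hn => ?_) (fun n hn => ?_)
  · exact eInpN hME hCX hEF hS hT hLV R hG hth n hn (K₀ ⊔ Bn n) (hk₀ n) (hDn n)
  · have hb : (idl (A := A) (B := B) (lvX 3 f n)) ≠ ⊥ := idl_ne_bot (hLV 3 A B f hL n).1
    exact (hME A B _ (hT.fin _ hb) (hT.gal _ hb) (hT.comm _ hb) _ (hk₀ n) (hDn n) (θ n)
      (hth.ne n)).1

end

end Pool.Agent.NSZ
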