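import Pool.Agent.NS.StIN
import Pool.Agent.MUX.XLib

/-!
# MUX-NS, block IN: module EPS, the odd character, the sign `s` and the type `i`

`(O/3)^*` is cyclic of order 8, generated by the class of `gy = 1 + δ`, `δ = 2 w - B`, `δ² = B² + 4 A ≡ -1` modulo `3`.
`Y ≡ gy` modulo `3`, `Y ≡ 1` modulo `f`: `w Y` is a primitive 8th root of unity and `e0 Y = (w Y)^j`, so `e0 x = (w x)^j` for all
`x ≡ 1` modulo `f`, `x` prime to `3`. Moreover `w3 (nm x) = (w x)^4` for `x` prime to `3`.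
-/

set_option autoImplicit false

namespace Pool.Agent.NSI

open _root_.MU3 Pool.Agent.MU3 Pool.Agent.MU3A Pool.Agent.MU3B Pool.Agent.RI Pool.Agent.RID
  Pool.Agent.MUX Pool.Agent.MUXK Pool.Agent.MUXI Pool.Agent.NS
open Pool.Agent.MU3I (w3 zt)

noncomputable section

namespace EPS

variable {A B : ℤ}

lemma w3_mul (a b : ℤ) : w3 (a * b) = w3 a * w3 b := by
  have ha : a % 3 = 0 ∨ a % 3 = 1 ∨ a % 3 = 2 := by omega
  have hb : b % 3 = 0 ∨ b % 3 = 1 ∨ b % 3 = 2 := by omega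
  unfold w3
  rcases ha with ha | ha | ha <;> rcases hb with hb | hb | hb <;>
    simp [Int.mul_emod, ha, hb]

lemma w3_ne (a : ℤ) : w3 a ≠ 0 ↔ ¬ (3 : ℤ) ∣ a := by
  have ha : a % 3 = 0 ∨ a % 3 = 1 ∨ a % 3 = 2 := by omega
  unfold w3
  rcases ha with ha | ha | ha
  · simp [ha]
    omega
  · simp [ha]
    omega
  · simp [ha]
    omega

lemma w3_sq {a : ℤ} (h : ¬ (3 : ℤ) ∣ a) : w3 a ^ 2 = 1 := by
  have ha : a % 3 = 1 ∨ a % 3 = 2 := by omega
  unfold w3
  rcases ha with ha | ha <;> simp [ha]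

lemma w3_congr {a b : ℤ} (h : (3 : ℤ) ∣ a - b) : w3 a = w3 b := by
  have e : a % 3 = b % 3 := by omega
  unfold w3
  rw [e]

lemma w3_pow (a : ℤ) (k : ℕ) : w3 (a ^ k) = w3 a ^ k := by
  induction k with
  | zero => simp [w3]
  | succ k ih => rw [pow_succ, w3_mul, ih, pow_succ]

lemma mem_idl {m : ℕ} {x : OO A B} : x ∈ idl (A := A) (B := B) m ↔ ((m : ℕ) : OO A B) ∣ x :=
  Ideal.mem_span_singleton

/-- the elements of `idl 3` -/
lemma mem3 {x : OO A B} : x ∈ idl (A := A) (B := B) 3 ↔ (3 : ℤ) ∣ x.re ∧ (3 : ℤ) ∣ x.im := by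
  have e3 : ((3 : ℕ) : OO A B) = ⟨3, 0⟩ := by
    ext
    · exact QuadraticAlgebra.re_natCast 3
    · exact QuadraticAlgebra.im_natCast 3
  rw [mem_idl, e3]
  constructor
  · rintro ⟨y, rfl⟩
    refine ⟨⟨y.re, by simp⟩, ⟨y.im, by simp⟩⟩
  · rintro ⟨⟨c, hc⟩, ⟨d, hd⟩⟩
    refine ⟨⟨c, d⟩, ?_⟩
    ext
    · simp [hc]
    · simp [hd]

/-- the norm modulo 3 -/
lemma nm_congr {x y : OO A B} (h : x - y ∈ idl (A := A) (B := B) 3) :
    (3 : ℤ) ∣ nm x - nm y := by
  obtain ⟨⟨a, ha⟩, ⟨b, hb⟩⟩ := mem3.1 h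
  rw [QuadraticAlgebra.re_sub] at ha
  rw [QuadraticAlgebra.im_sub] at hb
  have ha' : x.re = y.re + 3 * a := by omega
  have hb' : x.im = y.im + 3 * b := by omega
  refine ⟨2 * a * y.re + 3 * a ^ 2 + B * (a * y.im + b * y.re + 3 * a * b) -
    A * (2 * b * y.im + 3 * b ^ 2), ?_⟩
  unfold nm
  rw [ha', hb']
  ring

/-- `δ = 2 w - B` -/
def dl (A B : ℤ) : OO A B := ⟨-B, 2⟩

/-- the generator of `(O/3)^*` -/
def gy (A B : ℤ) : OO A B := 1 + dl A B

lemma dl_sq : dl A B ^ 2 = ((B ^ 2 + 4 * A : ℤ) : OO A B) := by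
  ext
  · rw [QuadraticAlgebra.re_intCast, pow_two, QuadraticAlgebra.re_mul]
    simp only [dl, Int.cast_id]
    ring
  · rw [QuadraticAlgebra.im_intCast, pow_two, QuadraticAlgebra.im_mul]
    simp only [dl]
    ring

/-- the class ring modulo 3 -/
lemma q3 (t : ℤ) (ht : B ^ 2 + 4 * A + 1 = 3 * t) :
    (3 : OO A B ⧸ idl (A := A) (B := B) 3) = 0 ∧
      (Ideal.Quotient.mk (idl (A := A) (B := B) 3) (dl A B)) ^ 2 = -1 := by
  have h3 : (3 : OO A B ⧸ idl (A := A) (B := B) 3) = 0 := by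
    have h : Ideal.Quotient.mk (idl (A := A) (B := B) 3) ((3 : ℕ) : OO A B) = 0 :=
      Ideal.Quotient.eq_zero_iff_mem.2 (Ideal.mem_span_singleton_self _)
    rw [map_natCast] at h
    exact_mod_cast h
  refine ⟨h3, ?_⟩
  have h := congrArg (Ideal.Quotient.mk (idl (A := A) (B := B) 3)) (dl_sq (A := A) (B := B))
  have e : B ^ 2 + 4 * A = 3 * t - 1 := by omega
  rw [e, map_pow, map_intCast] at h
  push_cast at h
  rw [h, h3]
  ring

/-- every class prime to 3 is a power of the class of `gy` -/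
lemma rep {t : ℤ} (ht : B ^ 2 + 4 * A + 1 = 3 * t) {x : OO A B}
    (hx : x ∉ idl (A := A) (B := B) 3) :
    ∃ k : ℕ, x - gy A B ^ k ∈ idl (A := A) (B := B) 3 := by
  obtain ⟨h3, hD⟩ := q3 t ht
  have hg : Ideal.Quotient.mk (idl (A := A) (B := B) 3) (gy A B) =
      1 + Ideal.Quotient.mk (idl (A := A) (B := B) 3) (dl A B) := by
    rw [gy, map_add, map_one]
  -- `x ≡ c + d δ`
  have hcd : x - (((x.re + 2 * x.im * B) % 3 : ℤ) + ((2 * x.im) % 3 : ℤ) * dl A B) ∈
      idl (A := A) (B := B) 3 := by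
    rw [mem3]
    have e1 : (x - ((((x.re + 2 * x.im * B) % 3 : ℤ) : OO A B) +
        (((2 * x.im) % 3 : ℤ) : OO A B) * dl A B)).re =
        x.re - ((x.re + 2 * x.im * B) % 3 - ((2 * x.im) % 3) * B) := by
      simp [dl]
      ring
    have e2 : (x - ((((x.re + 2 * x.im * B) % 3 : ℤ) : OO A B) +
        (((2 * x.im) % 3 : ℤ) : OO A B) * dl A B)).im = x.im - ((2 * x.im) % 3) * 2 := by
      simp [dl]
    rw [e1, e2]
    have m1 := Int.emod_add_mul_ediv (x.re + 2 * x.im * B) 3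
    have m2 := Int.emod_add_mul_ediv (2 * x.im) 3
    refine ⟨⟨(x.re + 2 * x.im * B) / 3 - (2 * x.im) / 3 * B, ?_⟩, ?_⟩
    · linear_combination -m1 + B * m2
    · omega
  have hcdq := Ideal.Quotient.eq.2 hcd
  rw [map_add, map_mul, map_intCast, map_intCast] at hcdq
  have hc := Int.emod_nonneg (x.re + 2 * x.im * B) (show (3 : ℤ) ≠ 0 by norm_num)
  have hc' := Int.emod_lt_of_pos (x.re + 2 * x.im * B) (show (0 : ℤ) < 3 by norm_num)
  have hd := Int.emod_nonneg (2 * x.im) (show (3 : ℤ) ≠ 0 by norm_num)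
  have hd' := Int.emod_lt_of_pos (2 * x.im) (show (0 : ℤ) < 3 by norm_num)
  generalize (x.re + 2 * x.im * B) % 3 = c at hcdq hc hc'
  generalize (2 * x.im) % 3 = d at hcdq hd hd'
  have hne : ¬ (c = 0 ∧ d = 0) := by
    rintro ⟨rfl, rfl⟩
    apply hx
    rw [← Ideal.Quotient.eq_zero_iff_mem, hcdq]
    simp
  have key : ∀ k : ℕ, ((c : OO A B ⧸ idl (A := A) (B := B) 3) +
      (d : OO A B ⧸ idl (A := A) (B := B) 3) *
        Ideal.Quotient.mk (idl (A := A) (B := B) 3) (dl A B)) =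
      (1 + Ideal.Quotient.mk (idl (A := A) (B := B) 3) (dl A B)) ^ k →
      ∃ k : ℕ, x - gy A B ^ k ∈ idl (A := A) (B := B) 3 := by
    intro k hk
    refine ⟨k, Ideal.Quotient.eq.1 ?_⟩
    rw [map_pow, hg, hcdq, hk]
  generalize Ideal.Quotient.mk (idl (A := A) (B := B) 3) (dl A B) = D at *
  have c3 : c = 0 ∨ c = 1 ∨ c = 2 := by omega
  have d3 : d = 0 ∨ d = 1 ∨ d = 2 := by omega
  rcases c3 with rfl | rfl | rfl <;> rcases d3 with rfl | rfl | rfl
  · exact absurd ⟨rfl, rfl⟩ hne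
  · apply key 6
    push_cast
    linear_combination -(1 + 14 * D + 14 * D ^ 2 + 6 * D ^ 3 + D ^ 4) * hD + 3 * D * h3
  · apply key 2
    push_cast
    linear_combination -hD
  · apply key 0
    push_cast
    ring
  · apply key 1
    push_cast
    ring
  · apply key 3
    push_cast
    linear_combination -(3 + D) * hD + h3
  · apply key 4
    push_cast
    linear_combination -(5 + 4 * D + D ^ 2) * hD + 2 * h3
  · apply key 7
    push_cast
    linear_combination -(-7 + 15 * D + 28 * D ^ 2 + 20 * D ^ 3 + 7 * D ^ 4 + D ^ 5) * hD +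
      (-2 + 3 * D) * h3
  · apply key 5
    push_cast
    linear_combination -(5 + 9 * D + 5 * D ^ 2 + D ^ 3) * hD + (2 + 2 * D) * h3

/-- `gy^4 ≡ -1` -/
lemma gy4 {t : ℤ} (ht : B ^ 2 + 4 * A + 1 = 3 * t) :
    gy A B ^ 4 + 1 ∈ idl (A := A) (B := B) 3 := by
  obtain ⟨h3, hD⟩ := q3 t ht
  rw [← Ideal.Quotient.eq_zero_iff_mem, map_add, map_pow, gy, map_add, map_one]
  linear_combination (5 + 4 * Ideal.Quotient.mk (idl (A := A) (B := B) 3) (dl A B) +
    Ideal.Quotient.mk (idl (A := A) (B := B) 3) (dl A B) ^ 2) * hD - h3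

lemma nm_gy : nm (gy A B) = 1 - (B ^ 2 + 4 * A) := by
  have e1 : (gy A B).re = 1 - B := by
    rw [gy, QuadraticAlgebra.re_add, QuadraticAlgebra.re_one, dl]
    ring
  have e2 : (gy A B).im = 2 := by
    rw [gy, QuadraticAlgebra.im_add, QuadraticAlgebra.im_one, dl]
    ring
  unfold nm
  rw [e1, e2]
  ring

lemma nm_one : nm (1 : OO A B) = 1 := by
  rw [nm, QuadraticAlgebra.re_one, QuadraticAlgebra.im_one]
  ring

lemma nm_neg_one : nm (-1 : OO A B) = 1 := by
  rw [nm, QuadraticAlgebra.re_neg, QuadraticAlgebra.im_neg, QuadraticAlgebra.re_one,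
    QuadraticAlgebra.im_one]
  ring

lemma nm_pow (hc : CQ A B) (x : OO A B) (k : ℕ) : nm (x ^ k) = nm x ^ k := by
  induction k with
  | zero => rw [pow_zero, pow_zero, nm_one]
  | succ k ih => rw [pow_succ, nm_mul hc, ih, pow_succ]

lemma mul_pow' {e : OO A B → ℂ} (h1 : e 1 = 1) (hm : ∀ x y, e (x * y) = e x * e y) (x : OO A B)
    (k : ℕ) : e (x ^ k) = e x ^ k := by
  induction k with
  | zero => rw [pow_zero, pow_zero, h1]
  | succ k ih => rw [pow_succ, hm, ih, pow_succ]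

lemma one_notMem3 : (1 : OO A B) ∉ idl (A := A) (B := B) 3 := by
  intro h
  have := (mem3.1 h).1
  rw [QuadraticAlgebra.re_one] at this
  omega

/-- prime to `3 f` implies not in `idl 3` -/
lemma notMem_of_cop {x : OO A B} {n : ℕ} (h3 : 3 ∣ n) (h : IsCoprime x ((n : ℕ) : OO A B)) :
    x ∉ idl (A := A) (B := B) 3 := by
  intro hx
  obtain ⟨a, b, hab⟩ := h
  apply one_notMem3 (A := A) (B := B)
  rw [← hab]
  obtain ⟨m, rfl⟩ := h3
  refine Ideal.add_mem _ (Ideal.mul_mem_left _ _ hx) (Ideal.mul_mem_left _ _ ?_)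
  rw [mem_idl]
  exact ⟨m, by push_cast; ring⟩

end EPS

open EPS

theorem tn_EPS : Sn_EPS := by
  intro A B V f hS w hw e0 r h1 hm1 hmul hper hsupp hpow
  have hc : CQ A B := hS.case.toCQ
  obtain ⟨t, ht⟩ := hS.case.three
  have lv : lvX 3 f 0 = 3 * f := by
    simp [lvX, q0, mul_comm]
  rw [lv] at hper hsupp
  rw [lv]
  -- valuations
  have v3 : V.valuation (3 : ℂ) < 1 := by
    have h1 : emb ((3 : ℕ) : OO A B) ∈ V.nonunits := (hS.hV _).2 (Ideal.mem_span_singleton_self _)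
    rw [MUX.emb_natCast hc] at h1
    exact_mod_cast V.mem_nonunits_iff.1 h1
  -- `w (-1) = -1`
  have wm1 : w (-1) = -1 := by
    have h2 : w (-1) * w (-1) = 1 := by
      rw [← hw.mul, neg_mul_neg, one_mul, hw.one]
    rcases mul_self_eq_one_iff.1 h2 with h | h
    · exfalso
      have h4 := hw.cong (-1)
      rw [h, MUX.emb_neg hc, MUX.emb_one hc] at h4
      have e : (1 : ℂ) - -1 = 2 := by norm_num
      rw [e] at h4
      have h5 : V.valuation (1 : ℂ) < 1 := by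
        have e1 : (1 : ℂ) = 3 - 2 := by norm_num
        rw [e1]
        exact (Valuation.map_sub _ _ _).trans_lt (max_lt v3 (h4.trans_lt v3))
      rw [map_one] at h5
      exact lt_irrefl _ h5
    · exact h
  -- the lift `Y` of the generator
  have hcop : IsCoprime (f : ℤ) 3 := by
    have h2 : Nat.Coprime f 3 := ((Nat.Prime.coprime_iff_not_dvd Nat.prime_three).2 hS.fp).symm
    have h3 := Nat.isCoprime_iff_coprime.2 h2
    exact_mod_cast h3
  obtain ⟨a, b, hab⟩ := hcop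
  have habO : (a : OO A B) * (f : OO A B) + (b : OO A B) * 3 = 1 := by
    have := congrArg (fun n : ℤ => (n : OO A B)) hab
    push_cast at this
    exact this
  have hcopO : IsCoprime ((3 : ℕ) : OO A B) ((f : ℕ) : OO A B) := by
    refine ⟨b, a, ?_⟩
    push_cast
    linear_combination habO
  have mem3f : ∀ z : OO A B, z ∈ idl (A := A) (B := B) 3 → z ∈ idl (A := A) (B := B) f →
      z ∈ idl (A := A) (B := B) (3 * f) := by
    intro z hz3 hzf
    rw [mem_idl] at hz3 hzf ⊢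
    have := hcopO.mul_dvd hz3 hzf
    push_cast at this ⊢
    exact this
  have le3 : ∀ z : OO A B, z ∈ idl (A := A) (B := B) (3 * f) → z ∈ idl (A := A) (B := B) 3 := by
    intro z hz
    rw [mem_idl] at hz ⊢
    refine dvd_trans ⟨(f : OO A B), ?_⟩ hz
    push_cast
    ring
  obtain ⟨Y, hY3, hYf⟩ : ∃ Y : OO A B, Y - gy A B ∈ idl (A := A) (B := B) 3 ∧
      Y - 1 ∈ idl (A := A) (B := B) f := by
    refine ⟨1 + a * f * (gy A B - 1), ?_, ?_⟩
    · rw [mem_idl]
      refine ⟨-(gy A B - 1) * b, ?_⟩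
      push_cast
      linear_combination (gy A B - 1) * habO
    · rw [mem_idl]
      refine ⟨a * (gy A B - 1), ?_⟩
      ring
  have hYk3 : ∀ k : ℕ, Y ^ k - gy A B ^ k ∈ idl (A := A) (B := B) 3 := fun k => by
    rw [mem_idl] at hY3 ⊢
    exact hY3.trans (sub_dvd_pow_sub_pow _ _ _)
  have hYkf : ∀ k : ℕ, Y ^ k - 1 ∈ idl (A := A) (B := B) f := fun k => by
    rw [mem_idl] at hYf ⊢
    have h2 := sub_dvd_pow_sub_pow Y 1 k
    rw [one_pow] at h2
    exact hYf.trans h2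
  have hY4 : Y ^ 4 - (-1) ∈ idl (A := A) (B := B) 3 := by
    have := Ideal.add_mem _ (hYk3 4) (gy4 ht)
    have e : Y ^ 4 - gy A B ^ 4 + (gy A B ^ 4 + 1) = Y ^ 4 - (-1) := by ring
    rwa [e] at this
  have hY8 : Y ^ 8 - 1 ∈ idl (A := A) (B := B) 3 := by
    have := Ideal.mul_mem_left (idl (A := A) (B := B) 3) (Y ^ 4 - 1) hY4
    have e : (Y ^ 4 - 1) * (Y ^ 4 - (-1)) = Y ^ 8 - 1 := by ring
    rwa [e] at this
  -- `w Y` is a primitive 8th root of unity
  have wY4 : w Y ^ 4 = -1 := by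
    rw [← mul_pow' hw.one hw.mul, hw.per _ _ hY4, wm1]
  have wY8 : w Y ^ 8 = 1 := by
    have e : w Y ^ 8 = (w Y ^ 4) ^ 2 := by ring
    rw [e, wY4]
    norm_num
  have hprim : IsPrimitiveRoot (w Y) 8 := by
    have h2 : orderOf (w Y) = 2 ^ (2 + 1) := by
      apply orderOf_eq_prime_pow
      · rw [show (2 : ℕ) ^ 2 = 4 by norm_num, wY4]
        norm_num
      · rw [show (2 : ℕ) ^ (2 + 1) = 8 by norm_num, wY8]
    have h3 := IsPrimitiveRoot.orderOf (w Y)
    rw [h2] at h3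
    exact_mod_cast h3
  have eY8 : e0 Y ^ 8 = 1 := by
    rw [← mul_pow' h1 hmul, hper _ 1 (mem3f _ hY8 (hYkf 8)), h1]
  obtain ⟨j, hj8, hj⟩ := hprim.eq_pow_of_pow_eq_one eY8
  -- `e0 = w ^ j` on the elements `≡ 1` modulo `f`
  have he0 : ∀ x, x - 1 ∈ idl (A := A) (B := B) f → x ∉ idl (A := A) (B := B) 3 →
      e0 x = w x ^ j := by
    intro x hxf hx3
    obtain ⟨k, hk⟩ := rep ht hx3
    have h4 : x - Y ^ k ∈ idl (A := A) (B := B) 3 := by
      have := Ideal.sub_mem _ hk (hYk3 k)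
      have e : x - gy A B ^ k - (Y ^ k - gy A B ^ k) = x - Y ^ k := by ring
      rwa [e] at this
    have h5 : x - Y ^ k ∈ idl (A := A) (B := B) f := by
      have := Ideal.sub_mem _ hxf (hYkf k)
      have e : x - 1 - (Y ^ k - 1) = x - Y ^ k := by ring
      rwa [e] at this
    rw [hper _ _ (mem3f _ h4 h5), hw.per _ _ h4, mul_pow' h1 hmul, mul_pow' hw.one hw.mul, ← hj,
      ← pow_mul, ← pow_mul, mul_comm]
  -- `w3 (nm x) = w x ^ 4`
  have hw3 : ∀ x, x ∉ idl (A := A) (B := B) 3 → ((w3 (nm x) : ℤ) : ℂ) = w x ^ 4 := by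
    intro x hx3
    obtain ⟨k, hk⟩ := rep ht hx3
    have h4 : x - Y ^ k ∈ idl (A := A) (B := B) 3 := by
      have := Ideal.sub_mem _ hk (hYk3 k)
      have e : x - gy A B ^ k - (Y ^ k - gy A B ^ k) = x - Y ^ k := by ring
      rwa [e] at this
    have h5 : w3 (nm x) = (-1) ^ k := by
      rw [w3_congr (nm_congr hk), nm_pow hc, w3_pow, nm_gy]
      have h6 : w3 (1 - (B ^ 2 + 4 * A)) = -1 := by
        unfold w3
        have h7 : (1 - (B ^ 2 + 4 * A)) % 3 = 2 := by omega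
        rw [h7]
        norm_num
      rw [h6]
    rw [h5, hw.per _ _ h4, mul_pow' hw.one hw.mul, ← pow_mul, mul_comm k 4, pow_mul, wY4]
    push_cast
    rfl
  -- norms
  have nm3 : ∀ x : OO A B, x ∉ idl (A := A) (B := B) 3 → ¬ (3 : ℤ) ∣ nm x := by
    intro x hx
    rw [← w3_ne]
    intro h
    have h4 := hw3 x hx
    rw [h] at h4
    have h5 := hw.pow x hx
    have e : w x ^ 8 = (w x ^ 4) ^ 2 := by ring
    rw [e, ← h4] at h5
    norm_num at h5
  have wne : ∀ x, x ∉ idl (A := A) (B := B) 3 → w x ≠ 0 := by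
    intro x hx h
    have h5 := hw.pow x hx
    rw [h] at h5
    norm_num at h5
  -- the general construction
  have main : ∀ (s : ℤ) (i : ℕ), (s = 1 ∨ s = -1) → 4 ≤ i → i ≤ 7 →
      (∀ x, x ∉ idl (A := A) (B := B) 3 →
        w x ^ j * w x * (if s = 1 then 1 else ((w3 (nm x) : ℤ) : ℂ)) = w x ^ i) →
      ∃ (e : OO A B → ℂ) (s : ℤ) (i : ℕ), IsEI (idl (A := A) (B := B) (3 * f)) e ∧
      (s = 1 ∨ s = -1) ∧ 4 ≤ i ∧ i ≤ 7 ∧
      (∀ x, x - 1 ∈ idl (A := A) (B := B) f → x ∉ idl (A := A) (B := B) 3 → e x = w x ^ i) ∧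
      (∀ x, e x ≠ 0 → e x ^ (8 * r) = 1) ∧
      ∀ x, IsCoprime x ((3 * f : ℕ) : OO A B) →
        e0 x * w x = e x * (if s = 1 then 1 else (w3 (nm x) : ℂ)) := by
    intro s i hs h4i hi7 hwi
    have sq : ∀ x, x ∉ idl (A := A) (B := B) 3 →
        (if s = 1 then (1 : ℂ) else (w3 (nm x) : ℂ)) ^ 2 = 1 := by
      intro x hx
      split_ifs
      · norm_num
      · exact_mod_cast w3_sq (nm3 x hx)
    refine ⟨fun x => e0 x * w x * (if s = 1 then 1 else ((w3 (nm x) : ℤ) : ℂ)), s, i, ?_, hs, h4i,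
      hi7, ?_, ?_, ?_⟩
    · refine ⟨?_, ?_, ?_, ?_, ?_⟩
      · have e : w3 (nm (1 : OO A B)) = 1 := by
          rw [nm_one]
          rfl
        simp only [h1, hw.one, e]
        simp
      · intro x y
        simp only [hmul, hw.mul, nm_mul hc, w3_mul]
        split_ifs
        · ring
        · push_cast
          ring
      · intro x y hxy
        rw [hper x y hxy, hw.per x y (le3 _ hxy), w3_congr (nm_congr (le3 _ hxy))]
      · intro x
        rw [Ideal.isCoprime_span_singleton_iff]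
        constructor
        · intro h
          exact (hsupp x).1 (left_ne_zero_of_mul (left_ne_zero_of_mul h))
        · intro h
          have hx3 := notMem_of_cop (Dvd.intro _ rfl) h
          refine mul_ne_zero (mul_ne_zero ((hsupp x).2 h) (wne x hx3)) ?_
          intro h0
          have := sq x hx3
          rw [h0] at this
          norm_num at this
      · have e : w3 (nm (-1 : OO A B)) = 1 := by
          rw [nm_neg_one]
          rfl
        simp only [hm1, wm1, e]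
        simp
    · intro x hxf hx3
      beta_reduce
      rw [he0 x hxf hx3, hwi x hx3]
    · intro x hx
      beta_reduce at hx ⊢
      have hcx := (hsupp x).1 (left_ne_zero_of_mul (left_ne_zero_of_mul hx))
      have hx3 := notMem_of_cop (Dvd.intro _ rfl) hcx
      have e1 : e0 x ^ (8 * r) = 1 := by
        rw [mul_comm, pow_mul, hpow x ((hsupp x).2 hcx), one_pow]
      have e2 : w x ^ (8 * r) = 1 := by
        rw [pow_mul, hw.pow x hx3, one_pow]
      have e3 : (if s = 1 then (1 : ℂ) else (w3 (nm x) : ℂ)) ^ (8 * r) = 1 := by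
        have e : 8 * r = 2 * (4 * r) := by ring
        rw [e, pow_mul, sq x hx3, one_pow]
      rw [mul_pow, mul_pow, e1, e2, e3]
      norm_num
    · intro x hx
      have hx3 := notMem_of_cop (Dvd.intro _ rfl) hx
      have h2 := sq x hx3
      beta_reduce
      rw [mul_assoc, ← pow_two, h2, mul_one]
  have w8 : ∀ x, x ∉ idl (A := A) (B := B) 3 → w x ^ 8 = 1 := hw.pow
  by_cases c1 : 3 ≤ j ∧ j ≤ 6
  · refine main 1 (j + 1) (Or.inl rfl) (by omega) (by omega) ?_
    intro x _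
    rw [if_pos rfl, mul_one, pow_succ]
  · by_cases c2 : j = 7
    · refine main (-1) 4 (Or.inr rfl) (by omega) (by omega) ?_
      intro x hx
      rw [if_neg (by norm_num), hw3 x hx, c2, ← pow_succ, w8 x hx, one_mul]
    · refine main (-1) (j + 5) (Or.inr rfl) (by omega) (by omega) ?_
      intro x hx
      rw [if_neg (by norm_num), hw3 x hx]
      ring

end

end Pool.Agent.NSI
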