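import Pool.Agent.NS.StIN
import Pool.Agent.MUX.K_NR1

/-!
# MUX-NS, block IN, module NR1: the norm relation for `c₀`, one step (proof: helper73, `MUX/K_NR1.lean`)
-/

set_option autoImplicit false

open NumberField IsDedekindDomain Finset
open scoped nonZeroDivisors Pointwise

namespace Pool.Agent.NSI

open Pool.Agent.MU3 Pool.Agent.RI Pool.Agent.RID Pool.Agent.MUXK Pool.Agent.Lib_helper28.FROB


open Pool.Agent.MUXK.K_NR1 in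
/-- the norm relation, one step -/
theorem tn_NR1 (h1 : S_GALX) (h2 : S_GENX) (h3 : S_LFX) : Sn_NR1 := by
  intro p _ k K₀ K B _ _ _ _ hX hk hk₀ S c c₀ n₁ hI n hn
  have hpr : p.Prime := Fact.out
  intro σ hσ
  have hBn : B n ≤ B (n + 1) := hX.b.mono (Nat.le_succ n)
  have hh : ∀ m, K₀ ⊔ B m ≤ K ⊔ B m := fun m => sup_le_sup_right hX.le _
  have hL : K ⊔ B n ≤ K ⊔ B (n + 1) := sup_le_sup_left hBn K
  have hM : K₀ ⊔ B n ≤ K₀ ⊔ B (n + 1) := sup_le_sup_left hBn K₀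
  let aL' : Algebra k ↥(K ⊔ B (n + 1)) := algC (hk (n + 1))
  let aL : Algebra k ↥(K ⊔ B n) := algC (hk n)
  let aM' : Algebra k ↥(K₀ ⊔ B (n + 1)) := algC (hk₀ (n + 1))
  let aK : Algebra k K := algC hX.b.hk
  obtain ⟨gL', cL'⟩ := h1 p k K B hX.b (n + 1) (hk (n + 1))
  obtain ⟨gL, cL⟩ := h1 p k K B hX.b n (hk n)
  have gK : IsGalois k K := (isGalois_algC hX.b.hk).2 hX.b.gal
  have fdL' : FiniteDimensional k ↥(K ⊔ B (n + 1)) :=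
    Module.Finite.of_restrictScalars_finite ℚ k _
  have fdL : FiniteDimensional k ↥(K ⊔ B n) := Module.Finite.of_restrictScalars_finite ℚ k _
  have fdK : FiniteDimensional k K := Module.Finite.of_restrictScalars_finite ℚ k _
  -- lift
  obtain ⟨τ, hτK, hτ⟩ := h3 p k K₀ K B hX.b0 hX.b hX.le (n + 1) (hk (n + 1)) (hk₀ (n + 1))
    (hh (n + 1)) σ (fun x hx => (hσ x).2 ((le_sup_left : K₀ ≤ K₀ ⊔ B n) hx))
  -- fixed field of `τ`
  have hτf : ∀ x : ↥(K ⊔ B (n + 1)), τ x = x ↔ (x : ℂ) ∈ K ⊔ B n := by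
    obtain ⟨g, hg1, hg2, hg3⟩ := h2 p k K B hX.b.hk hX.b.deg hX.b.lay hX.b.mono (n + 1)
      (hk (n + 1))
    obtain ⟨hg4, hg5⟩ := hg3 n (Nat.le_succ n)
    have hkL : k ≤ K ⊔ B n := hk n
    have ez := P_TWK.zp (g ^ (p ^ n)) (GCC.sub (hk (n + 1)) (K ⊔ B n) hkL)
      (fun x => (hg5 x).trans (GCC.mem_sub (hk (n + 1)) (K ⊔ B n) hkL x).symm)
    have hfixB : ∀ x : ↥(K ⊔ B (n + 1)), (x : ℂ) ∈ B n → τ x = x := by
      intro x hx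
      have hx1 : (x : ℂ) ∈ K₀ ⊔ B n := (le_sup_right : B n ≤ K₀ ⊔ B n) hx
      have h5 := hτ ⟨(x : ℂ), hM hx1⟩
      rw [(hσ ⟨(x : ℂ), hM hx1⟩).2 hx1] at h5
      exact Subtype.ext h5
    have hτS : τ ∈ (GCC.sub (hk (n + 1)) (K ⊔ B n) hkL).fixingSubgroup := by
      let aLL : Algebra ↥(K ⊔ B n) ↥(K ⊔ B (n + 1)) := algC hL
      have tLL : IsScalarTower k ↥(K ⊔ B n) ↥(K ⊔ B (n + 1)) := towerC (hk n) hL
      have hres : ∀ (x : ↥(K ⊔ B n)),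
          ((AlgEquiv.restrictNormalHom ↥(K ⊔ B n) τ x : ↥(K ⊔ B n)) : ℂ) =
            (τ ⟨(x : ℂ), hL x.2⟩ : ↥(K ⊔ B (n + 1))) := by
        intro x
        exact congrArg Subtype.val (AlgEquiv.restrictNormal_commutes τ ↥(K ⊔ B n) x)
      have hr1 : AlgEquiv.restrictNormalHom ↥(K ⊔ B n) τ = 1 := by
        apply GCC.triv (hk n)
        · intro x hx
          apply Subtype.ext
          rw [hres, hτK _ hx]
        · intro x hx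
          apply Subtype.ext
          rw [hres, hfixB _ hx]
      intro x
      obtain ⟨x, hx⟩ := x
      have h5 := hres ⟨(x : ℂ), hx⟩
      rw [hr1] at h5
      exact (Subtype.ext h5).symm
    have hτ1 : τ ≠ 1 := by
      intro h6
      have h7 : K₀ ⊔ B (n + 1) ≤ K₀ ⊔ B n := by
        intro z hz
        have h8 := hτ ⟨z, hz⟩
        rw [h6] at h8
        exact (hσ ⟨z, hz⟩).1 (Subtype.ext h8.symm)
      have h9 : K₀ ⊔ B (n + 1) = K₀ ⊔ B n := le_antisymm h7 hM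
      have d1 := hX.b0.deg (n + 1)
      have d2 := hX.b0.deg n
      rw [h9, d2, pow_succ] at d1
      have fK₀ : FiniteDimensional ℚ K₀ := FiniteDimensional.of_injective
        (IntermediateField.inclusion hX.le).toLinearMap
        (IntermediateField.inclusion hX.le).injective
      have d3 : 0 < Module.finrank ℚ K₀ := Module.finrank_pos
      have d4 : 0 < p ^ n := pow_pos hpr.pos n
      have d5 : Module.finrank ℚ K₀ * p ^ n * 1 = Module.finrank ℚ K₀ * p ^ n * p := by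
        rw [mul_one, mul_assoc]
        exact d1
      have d6 := Nat.eq_of_mul_eq_mul_left (Nat.mul_pos d3 d4) d5
      exact hpr.one_lt.ne d6
    rw [ez] at hτS
    intro x
    rw [fix_prime (g ^ (p ^ n)) τ p hpr (by rw [hg4]; simp) hτS hτ1 x]
    exact hg5 x
  obtain ⟨C, hC, hC0, hCe⟩ := hI.nrm n hn τ hτf
  -- powers of `τ` and `σ`
  have hpow : ∀ (i : ℕ) (x : ↥(K₀ ⊔ B (n + 1))),
      (((τ ^ i) ⟨(x : ℂ), hh (n + 1) x.2⟩ : ↥(K ⊔ B (n + 1))) : ℂ) =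
        (((σ ^ i) x : ↥(K₀ ⊔ B (n + 1))) : ℂ) := by
    intro i
    induction i with
    | zero =>
      intro x
      rfl
    | succ i ih =>
      intro x
      rw [pow_succ, pow_succ, AlgEquiv.mul_apply, AlgEquiv.mul_apply, ← ih (σ x)]
      congr 2
      exact Subtype.ext (hτ x)
  -- the groups
  have d1 := hX.b.deg (n + 1)
  have d2 := hX.b.deg n
  have d3 := hX.b0.deg (n + 1)
  have d4 := hX.b0.deg n
  obtain ⟨e, he⟩ := res (A := K₀ ⊔ B n) (A' := K₀ ⊔ B (n + 1)) (hk n) (hk (n + 1)) hL (hk₀ n)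
    (hk₀ (n + 1)) (hh n) (hh (n + 1)) hM gL gL'
    (by
      intro ρ q1 q2
      apply GCC.triv (hk (n + 1)) ρ
      · intro x hx
        exact q1 x ((le_sup_left : K ≤ K ⊔ B n) hx)
      · intro x hx
        exact q2 x ((le_sup_right : B (n + 1) ≤ K₀ ⊔ B (n + 1)) hx))
    (by rw [d1, d2, d3, d4]; ring)
  obtain ⟨e', he'⟩ := res (A := K₀) (A' := K₀ ⊔ B (n + 1)) hX.b.hk (hk (n + 1))
    (le_sup_left : K ≤ K ⊔ B (n + 1)) hX.b0.hk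
    (hk₀ (n + 1)) hX.le (hh (n + 1)) (le_sup_left : K₀ ≤ K₀ ⊔ B (n + 1)) gK gL'
    (by
      intro ρ q1 q2
      apply GCC.triv (hk (n + 1)) ρ
      · intro x hx
        exact q1 x hx
      · intro x hx
        exact q2 x ((le_sup_right : B (n + 1) ≤ K₀ ⊔ B (n + 1)) hx))
    (by rw [d1, d3]; ring)
  have fP : Fintype (NC (hk (n + 1)) (K₀ ⊔ B (n + 1))) := Fintype.ofFinite _
  have fQ : Fintype (NC (hk n) (K₀ ⊔ B n)) := Fintype.ofFinite _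
  have fR : Fintype (NC hX.b.hk K₀) := Fintype.ofFinite _
  have pr1 : ∀ x : ↥(K ⊔ B n), ((∏ g : NC (hk (n + 1)) (K₀ ⊔ B (n + 1)),
      (g : ↥(K ⊔ B (n + 1)) ≃ₐ[k] ↥(K ⊔ B (n + 1))) ⟨(x : ℂ), hL x.2⟩ : ↥(K ⊔ B (n + 1))) : ℂ) =
      ∏ g : NC (hk n) (K₀ ⊔ B n), (((g : ↥(K ⊔ B n) ≃ₐ[k] ↥(K ⊔ B n)) x : ↥(K ⊔ B n)) : ℂ) := by
    intro x
    refine (map_prod (K ⊔ B (n + 1)).val _ _).trans ?_
    exact Fintype.prod_equiv e _ _ (fun g => (he g x).symm)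
  have pr2 : ∀ x : K, ((∏ g : NC (hk (n + 1)) (K₀ ⊔ B (n + 1)),
      (g : ↥(K ⊔ B (n + 1)) ≃ₐ[k] ↥(K ⊔ B (n + 1)))
        ⟨(x : ℂ), (le_sup_left : K ≤ K ⊔ B (n + 1)) x.2⟩ : ↥(K ⊔ B (n + 1))) : ℂ) =
      ((∏ g : NC hX.b.hk K₀, (g : K ≃ₐ[k] K) x : K) : ℂ) := by
    intro x
    refine (map_prod (K ⊔ B (n + 1)).val _ _).trans ?_
    refine Eq.trans ?_ (map_prod K.val _ _).symm
    exact Fintype.prod_equiv e' _ _ (fun g => (he' g x).symm)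
  -- `c₀ (n + 1)` and `c₀ n`
  have hc' : (⟨c₀ (n + 1), hh (n + 1) (hI.mem₀ (n + 1))⟩ : ↥(K ⊔ B (n + 1))) =
      ∏ g : NC (hk (n + 1)) (K₀ ⊔ B (n + 1)),
        (g : ↥(K ⊔ B (n + 1)) ≃ₐ[k] ↥(K ⊔ B (n + 1))) ⟨c (n + 1), hI.mem (n + 1)⟩ := by
    apply Subtype.ext
    refine Eq.trans ?_ (map_prod (K ⊔ B (n + 1)).val _ _).symm
    have h5 := hI.norm (n + 1)
    rw [finprod_eq_prod_of_fintype] at h5
    exact h5
  have hc : c₀ n = ∏ g : NC (hk n) (K₀ ⊔ B n),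
      (((g : ↥(K ⊔ B n) ≃ₐ[k] ↥(K ⊔ B n)) ⟨c n, hI.mem n⟩ : ↥(K ⊔ B n)) : ℂ) := by
    have h5 := hI.norm n
    rw [finprod_eq_prod_of_fintype] at h5
    exact h5
  -- the constant
  let y : K := ∏ g : NC hX.b.hk K₀, (g : K ≃ₐ[k] K) ⟨C, hC⟩
  have hy : (y : ℂ) ∈ K₀ := by
    apply mem_of_fixed hX.b.hk hX.b0.hk gK y
    intro s hs
    show s (∏ g : NC hX.b.hk K₀, (g : K ≃ₐ[k] K) ⟨C, hC⟩) = _
    rw [map_prod]
    exact Fintype.prod_equiv (Equiv.mulLeft (⟨s, hs⟩ : NC hX.b.hk K₀)) _ _ (fun g => rfl)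
  have hy0 : (y : ℂ) ≠ 0 := by
    have h5 : y ≠ 0 := by
      apply Finset.prod_ne_zero_iff.2
      intro g _ h6
      have h7 : (⟨C, hC⟩ : K) = 0 := by
        have h8 : (g : K ≃ₐ[k] K) ⟨C, hC⟩ = (g : K ≃ₐ[k] K) 0 := by rw [h6, map_zero]
        exact (g : K ≃ₐ[k] K).injective h8
      exact hC0 (congrArg Subtype.val h7)
    intro h6
    exact h5 (Subtype.ext h6)
  refine ⟨y, hy, hy0, ?_⟩
  -- the computation
  have s1 : ∏ i ∈ range p, (((σ ^ i) ⟨c₀ (n + 1), hI.mem₀ (n + 1)⟩ : ↥(K₀ ⊔ B (n + 1))) : ℂ) =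
      ((∏ i ∈ range p, (τ ^ i) ⟨c₀ (n + 1), hh (n + 1) (hI.mem₀ (n + 1))⟩ :
        ↥(K ⊔ B (n + 1))) : ℂ) := by
    refine Eq.trans ?_ (map_prod (K ⊔ B (n + 1)).val _ _).symm
    exact Finset.prod_congr rfl fun i _ => (hpow i ⟨c₀ (n + 1), hI.mem₀ (n + 1)⟩).symm
  have s2 : (∏ i ∈ range p, (τ ^ i) ⟨c (n + 1), hI.mem (n + 1)⟩ : ↥(K ⊔ B (n + 1))) =
      ⟨C, (le_sup_left : K ≤ K ⊔ B (n + 1)) hC⟩ * ⟨c n, hL (hI.mem n)⟩ := by
    apply Subtype.ext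
    refine (map_prod (K ⊔ B (n + 1)).val _ _).trans ?_
    exact hCe
  have s3 : (∏ i ∈ range p, (τ ^ i) ⟨c₀ (n + 1), hh (n + 1) (hI.mem₀ (n + 1))⟩ :
        ↥(K ⊔ B (n + 1))) =
      (∏ g : NC (hk (n + 1)) (K₀ ⊔ B (n + 1)), (g : ↥(K ⊔ B (n + 1)) ≃ₐ[k] ↥(K ⊔ B (n + 1)))
        ⟨C, (le_sup_left : K ≤ K ⊔ B (n + 1)) hC⟩) *
      ∏ g : NC (hk (n + 1)) (K₀ ⊔ B (n + 1)), (g : ↥(K ⊔ B (n + 1)) ≃ₐ[k] ↥(K ⊔ B (n + 1)))
        ⟨c n, hL (hI.mem n)⟩ := by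
    rw [hc', ← Finset.prod_mul_distrib]
    simp only [map_prod]
    rw [Finset.prod_comm]
    refine Finset.prod_congr rfl fun g _ => ?_
    rw [← map_mul, ← s2, map_prod]
    refine Finset.prod_congr rfl fun i _ => ?_
    rw [← AlgEquiv.mul_apply, ← AlgEquiv.mul_apply, cL']
  have hcoe : ∀ (x y : ↥(K ⊔ B (n + 1))), ((x * y : ↥(K ⊔ B (n + 1))) : ℂ) = (x : ℂ) * (y : ℂ) :=
    fun x y => rfl
  rw [s1, s3, hcoe, pr2 ⟨C, hC⟩, pr1 ⟨c n, hI.mem n⟩, ← hc]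

end Pool.Agent.NSI
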