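import Pool.Agent.NS.StIN
import Pool.Agent.MUX.I_TH

/-!
# MUX-NS, block IN: module TH, the sums `That_j`, no condition on the decomposition of `p` (helper73)
-/

set_option autoImplicit false

namespace Pool.Agent.NSI

open _root_.MU3 Pool.Agent.MU3 Pool.Agent.MU3A Pool.Agent.MU3B Pool.Agent.RI Pool.Agent.RID
  Pool.Agent.MUX Pool.Agent.MUXK Pool.Agent.MUXI Pool.Agent.NS
open Pool.Agent.MU3I (w3 zt)

noncomputable section

namespace TH

lemma q0_cases {p : ℕ} (h : p = 2 ∨ p = 3) : (p = 3 ∧ q0 p = 3) ∨ (p = 2 ∧ q0 p = 4) := by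
  rcases h with rfl | rfl
  · exact Or.inr ⟨rfl, rfl⟩
  · exact Or.inl ⟨rfl, rfl⟩

/-- norm prime to `p` and prime to `f`: prime to the level -/
lemma cop_lv {p : ℕ} {A B : ℤ} {f : ℕ} (hp : p = 2 ∨ p = 3) (n : ℕ) (x : OO A B)
    (hx : ¬ (p : ℤ) ∣ nm x) (hf : IsCoprime x ((f : ℕ) : OO A B)) :
    IsCoprime x ((lvX p f n : ℕ) : OO A B) := by
  have hpr : p.Prime := by
    rcases hp with rfl | rfl
    · exact Nat.prime_two
    · exact Nat.prime_three
  have h1 : IsCoprime (nm x) (p : ℤ) :=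
    ((Prime.coprime_iff_not_dvd (Nat.prime_iff_prime_int.1 hpr)).2 hx).symm
  have h2 : IsCoprime ((nm x : ℤ) : OO A B) (((p : ℕ) : ℤ) : OO A B) := h1.intCast
  rw [← MUXI.TH.mul_star_nm, Int.cast_natCast] at h2
  have h3 : IsCoprime x ((p : ℕ) : OO A B) := h2.of_mul_left_left
  have h4 : IsCoprime x ((q0 p : ℕ) : OO A B) := by
    rcases q0_cases hp with ⟨h5, h6⟩ | ⟨h5, h6⟩
    · rw [h6]
      rw [h5] at h3
      exact h3
    · rw [h6]
      rw [h5] at h3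
      have h7 : ((4 : ℕ) : OO A B) = ((2 : ℕ) : OO A B) * ((2 : ℕ) : OO A B) := by
        push_cast
        norm_num
      rw [h7]
      exact h3.mul_right h3
  unfold lvX
  rw [Nat.cast_mul, Nat.cast_mul, Nat.cast_pow]
  exact (hf.mul_right h4).mul_right h3.pow_right

lemma cop_f {A B : ℤ} {f : ℕ} {g : Ideal (OO A B)} (hg : g ≤ idl f) {x : OO A B}
    (h : IsCoprime (sp x) g) : IsCoprime x ((f : ℕ) : OO A B) := by
  have h1 : IsCoprime (sp x) (idl (A := A) (B := B) f) := by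
    rw [Ideal.isCoprime_iff_sup_eq] at h ⊢
    rw [eq_top_iff, ← h]
    exact sup_le_sup_left hg _
  exact Ideal.isCoprime_span_singleton_iff _ _ |>.1 h1

/-! ### One summand -/

open Classical in
lemma term {p : ℕ} {A B : ℤ} {f : ℕ}
    (hS : SetL p A B f) (n : ℕ) {e0 e w : OO A B → ℂ} {s : ℤ} {g : Ideal (OO A B)} (hg : g ≤ idl f)
    (hE : IsEI g e) (hs : s = 1 ∨ s = -1) (hs2 : p = 2 → s = 1)
    (hes : ∀ x, IsCoprime x ((lvX p f 0 : ℕ) : OO A B) →
        e0 x * w x = e x * (if s = 1 then 1 else (w3 (nm x) : ℂ)))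
    (N : ℕ) (j : ℕ) (kp d c : ℂ) (x : OO A B) :
    (if IsCoprime x ((lvX p f n : ℕ) : OO A B) ∧
      (((q0 p * p ^ n : ℕ) : ℤ) ∣ nm x * N - (1 + (q0 p : ℤ)) ^ j ∨
      ((q0 p * p ^ n : ℕ) : ℤ) ∣ nm x * N + (1 + (q0 p : ℤ)) ^ j) then
      (kp * e0 x) * (w x * c * d) else 0) =
    (kp * c * (if s = 1 then 1 else (w3 N : ℂ))) *
      ((if ((q0 p * p ^ n : ℕ) : ℤ) ∣ nm x * N - (1 + (q0 p : ℤ)) ^ j then e x * d else 0) +
      s * (if ((q0 p * p ^ n : ℕ) : ℤ) ∣ nm x * N - -(1 + (q0 p : ℤ)) ^ j then e x * d else 0)) := by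
  set t : ℤ := (1 + (q0 p : ℤ)) ^ j with ht
  have ht1 : (q0 p : ℤ) ∣ t - 1 := MUXI.TH.pow_mod _ _
  have hM : (q0 p : ℤ) ∣ ((q0 p * p ^ n : ℕ) : ℤ) := ⟨(p : ℤ) ^ n, by push_cast; ring⟩
  have hpq : (p : ℤ) ∣ (q0 p : ℤ) := by
    rcases q0_cases hS.hp with ⟨h4, h5⟩ | ⟨h4, h5⟩
    · rw [h4, show q0 3 = 3 from rfl]
    · rw [h4, show q0 2 = 4 from rfl]; norm_num
  have hp2 : (p : ℤ) = 3 ∨ (p : ℤ) = 2 := by
    rcases q0_cases hS.hp with ⟨h4, h5⟩ | ⟨h4, h5⟩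
    · rw [h4]; left; rfl
    · rw [h4]; right; rfl
  have hq2 : (q0 p : ℤ) = 3 ∨ (q0 p : ℤ) = 4 := by
    rcases q0_cases hS.hp with ⟨h4, h5⟩ | ⟨h4, h5⟩
    · rw [h5]; left; rfl
    · rw [h5]; right; rfl
  -- not prime to the level, then `e x = 0`
  have hzero : ∀ u : ℤ, (p : ℤ) ∣ nm x * N - u → ¬ (p : ℤ) ∣ u →
      ¬ IsCoprime x ((lvX p f n : ℕ) : OO A B) → e x = 0 := by
    intro u hu hnu hnc
    by_contra h0
    apply hnc
    refine cop_lv hS.hp n x ?_ (cop_f hg ((hE.supp x).1 h0))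
    intro h1
    apply hnu
    have h2 : (p : ℤ) ∣ nm x * N := h1.mul_right _
    have h4 := dvd_sub h2 hu
    rwa [sub_sub_cancel] at h4
  have hlv : IsCoprime x ((lvX p f n : ℕ) : OO A B) →
      IsCoprime x ((lvX p f 0 : ℕ) : OO A B) := by
    intro h1
    refine h1.of_isCoprime_of_dvd_right ⟨((p ^ n : ℕ) : OO A B), ?_⟩
    unfold lvX
    push_cast
    ring
  have hnt : ¬ (p : ℤ) ∣ t := by
    intro h1
    have h2 := hpq.trans ht1
    have h4 := dvd_sub h1 h2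
    rw [sub_sub_cancel] at h4
    rcases hp2 with h5 | h5 <;> rw [h5] at h4 <;> omega
  have hnt' : ¬ (p : ℤ) ∣ -t := fun h1 => hnt ((dvd_neg).1 h1)
  have hnb : ((q0 p * p ^ n : ℕ) : ℤ) ∣ nm x * N - t →
      ¬ ((q0 p * p ^ n : ℕ) : ℤ) ∣ nm x * N - -t := by
    intro h1 h2
    have h4 := hM.trans (dvd_sub h2 h1)
    have h5 : nm x * N - -t - (nm x * N - t) = 2 * (t - 1) + 2 := by ring
    rw [h5] at h4
    have h6 := (Int.dvd_add_right (ht1.mul_left 2)).1 h4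
    rcases hq2 with h7 | h7 <;> rw [h7] at h6 <;> omega
  by_cases h1 : ((q0 p * p ^ n : ℕ) : ℤ) ∣ nm x * N - t
  · rw [if_pos h1, if_neg (hnb h1), mul_zero, add_zero]
    by_cases hc : IsCoprime x ((lvX p f n : ℕ) : OO A B)
    · rw [if_pos ⟨hc, Or.inl h1⟩]
      have h2 := hes x (hlv hc)
      have h4 : (if s = 1 then 1 else (w3 (nm x) : ℂ)) = (if s = 1 then 1 else (w3 N : ℂ)) := by
        by_cases hs1 : s = 1
        · rw [if_pos hs1, if_pos hs1]
        · rw [if_neg hs1, if_neg hs1]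
          rcases q0_cases hS.hp with ⟨h5, h6⟩ | ⟨h5, h6⟩
          · have h7 := dvd_add (hM.trans h1) ht1
            rw [sub_add_sub_cancel, h6] at h7
            rw [MUXI.TH.w3_mul_eq (by exact_mod_cast h7)]
          · exact absurd (hs2 h5) hs1
      rw [h4] at h2
      linear_combination (kp * c * d) * h2
    · rw [if_neg (fun h2 => hc h2.1), hzero t ((hpq.trans hM).trans h1) hnt hc, zero_mul, mul_zero]
  · by_cases h2 : ((q0 p * p ^ n : ℕ) : ℤ) ∣ nm x * N - -t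
    · rw [if_neg h1, if_pos h2, zero_add]
      have h2' : ((q0 p * p ^ n : ℕ) : ℤ) ∣ nm x * N + t := by
        rwa [sub_neg_eq_add] at h2
      by_cases hc : IsCoprime x ((lvX p f n : ℕ) : OO A B)
      · rw [if_pos ⟨hc, Or.inr h2'⟩]
        have h3 := hes x (hlv hc)
        have h4 : (if s = 1 then 1 else (w3 (nm x) : ℂ)) =
            (if s = 1 then 1 else (w3 N : ℂ)) * s := by
          rcases hs with hs1 | hs1
          · rw [if_pos hs1, if_pos hs1, hs1]; simp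
          · have hs3 : s ≠ 1 := by rw [hs1]; decide
            rw [if_neg hs3, if_neg hs3]
            rcases q0_cases hS.hp with ⟨h5, h6⟩ | ⟨h5, h6⟩
            · have h7 := dvd_sub (hM.trans h2') ht1
              rw [show nm x * N + t - (t - 1) = nm x * N + 1 by ring, h6] at h7
              rw [MUXI.TH.w3_mul_neg (by exact_mod_cast h7), hs1]
              push_cast
              ring
            · exact absurd (hs2 h5) hs3
        rw [h4] at h3
        linear_combination (kp * c * d) * h3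
      · rw [if_neg (fun h3 => hc h3.1), hzero (-t) ((hpq.trans hM).trans h2) hnt' hc, zero_mul,
          mul_zero, mul_zero]
    · rw [if_neg h1, if_neg h2, if_neg]
      · ring
      · rintro ⟨-, h4 | h4⟩
        · exact h1 h4
        · apply h2
          rwa [sub_neg_eq_add]

lemma q0_ne {p : ℕ} (h : p = 2 ∨ p = 3) : q0 p ≠ 0 := by
  rcases q0_cases h with ⟨-, h5⟩ | ⟨-, h5⟩ <;> rw [h5] <;> norm_num

lemma lvX_ne {p : ℕ} {A B : ℤ} {f : ℕ} (hS : SetL p A B f) (n : ℕ) : lvX p f n ≠ 0 := by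
  have hp : p ≠ 0 := by
    rcases q0_cases hS.hp with ⟨h5, -⟩ | ⟨h5, -⟩ <;> rw [h5] <;> norm_num
  unfold lvX
  exact mul_ne_zero (mul_ne_zero hS.f0 (q0_ne hS.hp)) (pow_ne_zero _ hp)

lemma muX_ne {p : ℕ} {A B : ℤ} {f : ℕ}
    (hS : SetL p A B f) {ι : Type} (R : Reps A B (p * f) ι) (i : ι) : muX R i ≠ 0 := by
  have h1 : nI (R.b i) ≠ 0 := by
    intro h0
    have h2 := R.cop i
    rw [h0, Nat.coprime_zero_left] at h2
    have h3 : p = 1 := Nat.eq_one_of_mul_eq_one_right h2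
    rcases q0_cases hS.hp with ⟨h5, -⟩ | ⟨h5, -⟩ <;> omega
  unfold muX
  refine div_ne_zero (mul_ne_zero (R.nl i).om_ne ?_) (R.nl R.i0).om_ne
  exact_mod_cast h1

end TH

open TH in
/-- (TH) the sums `That_j` -/
theorem tn_TH (h1 : Sn_TSH) : Sn_TH := by
  classical
  intro p A B f hS g hlv hg ι _ R n G _ _ γ Δ _ X hM χ e0 kp c w e s _ _ hE hs hs2 hes hχ j
  have hfin : Finite (OO A B ⧸ idl (A := A) (B := B) (lvX p f n)) := MUXI.TH.finR _ (lvX_ne hS n)
  rw [MUXI.TH.sum_disj (fun δ : Δ => X (γ ^ j * (δ : G)))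
    (fun q δ δ' h2 h4 => Subtype.ext (mul_left_cancel (hM.uniq q _ _ h2 h4)))
    (fun δ => (((χ δ)⁻¹ : ℂˣ) : ℂ)) _ (fun q => kp q.1 * e0 (Quotient.out q.2))
    (fun δ q hq => hχ δ j q hq)]
  have hind : ∀ q : ι × (OO A B ⧸ idl (A := A) (B := B) (lvX p f n)),
      (if ∃ δ : Δ, q ∈ X (γ ^ j * (δ : G)) then
        kp q.1 * e0 (Quotient.out q.2) * (w (Quotient.out q.2) *
        c q.1 * dlX (R.L q.1) (aX p f) (pt R (lvX p f n) q.1 (Quotient.out q.2))) else 0) =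
      kp q.1 * c q.1 * (if s = 1 then 1 else (w3 (nI (R.b q.1)) : ℂ)) *
      ((if ((q0 p * p ^ n : ℕ) : ℤ) ∣ nm (Quotient.out q.2) * nI (R.b q.1) -
          (1 + (q0 p : ℤ)) ^ j then
        e (Quotient.out q.2) * dlX (R.L q.1) (aX p f)
          (pt R (lvX p f n) q.1 (Quotient.out q.2)) else 0) +
      s * (if ((q0 p * p ^ n : ℕ) : ℤ) ∣ nm (Quotient.out q.2) * nI (R.b q.1) -
          -(1 + (q0 p : ℤ)) ^ j then
        e (Quotient.out q.2) * dlX (R.L q.1) (aX p f)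
          (pt R (lvX p f n) q.1 (Quotient.out q.2)) else 0)) := by
    intro q
    rw [if_congr (MUXI.TH.mem_iff hM q j) rfl rfl]
    exact term hS n hg hE hs hs2 hes _ j _ _ _ _
  rw [finsum_congr hind, MUXI.TH.sum_pairs]
  unfold STX
  rw [Finset.mul_sum, ← Finset.sum_add_distrib]
  refine Finset.sum_congr rfl fun i _ => ?_
  have hT := h1 p A B f hS g hlv ι R n e hE i ((1 + (q0 p : ℤ)) ^ j)
  have hT' := h1 p A B f hS g hlv ι R n e hE i (-(1 + (q0 p : ℤ)) ^ j)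
  rw [MUXI.TH.comb_sum (kp i * c i * (if s = 1 then 1 else (w3 (nI (R.b i)) : ℂ))) (s : ℂ) _ _ _
    (fun x => rfl), ← hT, ← hT']
  have hmu := muX_ne hS R i
  unfold kkC sumMod
  field_simp

end

end Pool.Agent.NSI
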