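import Pool.Agent.NS.StIN
import Pool.Agent.MUX.I_TSH

/-!
# MUX-NS, block IN: the sums of the logarithmic derivatives (TSH), `e` modulo any ideal `g` dividing `f q0`
-/

set_option autoImplicit false

namespace Pool.Agent.NSI

open _root_.MU3 Pool.Agent.MU3 Pool.Agent.MU3A Pool.Agent.MU3B Pool.Agent.RI Pool.Agent.RID
  Pool.Agent.MUX Pool.Agent.MUXK Pool.Agent.MUXI Pool.Agent.NS
open Pool.Agent.MU3I (w3 zt)

noncomputable section

open Pool.Agent.MUXI.TSH in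
theorem tn_TSH (h1 : Pool.Agent.MUXI.Si_PTP) (h3 : Pool.Agent.MUXF.Sx_ALG) : Sn_TSH := by
  intro p A B f hS g hg ι R n e he i t
  have hCQ : CQ A B := hS.cq
  obtain ⟨alg1, alg2, alg3, alg4, -⟩ := h3 A B (Pool.Agent.MUXY.cqF hCQ)
  have hpq : p ∣ q0 p := by
    unfold q0
    split_ifs with h
    · rw [h]; norm_num
    · exact dvd_rfl
  have hp0 : p ≠ 0 := by
    rcases hS.hp with h | h
    · rw [h]; norm_num
    · rw [h]; norm_num
  have hq0 : q0 p ≠ 0 := by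
    unfold q0
    split_ifs with h
    · norm_num
    · exact hp0
  have hm0 : lvX p f n ≠ 0 := mul_ne_zero (mul_ne_zero hS.f0 hq0) (pow_ne_zero _ hp0)
  obtain ⟨ptp1, ptp2⟩ := h1 A B hCQ (p * f) ι R (lvX p f n) hm0 i
  have hmO : ((lvX p f n : ℕ) : OO A B) ≠ 0 := by
    intro h0
    have h5 := (alg3 (lvX p f n : ℤ)).1
    rw [Int.cast_natCast, h0, (alg2 0).1.2 rfl] at h5
    apply hm0
    exact_mod_cast h5.symm
  have hfin : Finite (OO A B ⧸ Ideal.span {((lvX p f n : ℕ) : OO A B)}) := by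
    apply alg4
    rw [Ne, Ideal.span_singleton_eq_bot]
    exact hmO
  have hmM : lvX p f n = f * (q0 p * p ^ n) := by unfold lvX; ring
  have hcN := cop_nat p f n hpq
  have hcZ : IsCoprime ((aX p f : ℕ) : ℤ) ((lvX p f n : ℕ) : ℤ) :=
    Nat.isCoprime_iff_coprime.2 hcN
  have hcO : IsCoprime ((aX p f : ℕ) : OO A B) ((lvX p f n : ℕ) : OO A B) := by
    have h5 := hcZ.map (Int.castRingHom (OO A B))
    simpa using h5
  have hl0 : ((lvX p f 0 : ℕ) : OO A B) ∈ g := hg (Ideal.mem_span_singleton_self _)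
  have hle : idl (A := A) (B := B) (lvX p f n) ≤ g := by
    rw [Ideal.span_singleton_le_iff_mem]
    have h5 : ((lvX p f n : ℕ) : OO A B) = ((lvX p f 0 : ℕ) : OO A B) * ((p ^ n : ℕ) : OO A B) := by
      rw [← Nat.cast_mul]
      congr 1
      unfold lvX
      ring
    rw [h5]
    exact g.mul_mem_right _ hl0
  have hea : ∀ x, e (((aX p f : ℕ) : OO A B) * x) = e x := by
    intro x
    rw [he.mul, he.per ((aX p f : ℕ) : OO A B) 1, he.one, one_mul]
    have h5 : ((aX p f : ℕ) : OO A B) - 1 = ((lvX p f 0 : ℕ) : OO A B) * 2 := by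
      unfold aX lvX
      push_cast
      ring
    rw [h5]
    exact g.mul_mem_right _ hl0
  -- the summands
  set F0 : ℤ → OO A B → ℂ := fun c x =>
    if ((q0 p * p ^ n : ℕ) : ℤ) ∣ nm x * nI (R.b i) - c then
      e x * ee (R.L i) (pt R (lvX p f n) i x) else 0 with hF0
  have hMm : ((q0 p * p ^ n : ℕ) : ℤ) ∣ ((lvX p f n : ℕ) : ℤ) :=
    ⟨f, by rw [hmM]; push_cast; ring⟩
  have hper : ∀ c, Per ((lvX p f n : ℕ) : OO A B) (F0 c) := by
    intro c x y hxy
    have h5 : ((q0 p * p ^ n : ℕ) : ℤ) ∣ nm x * nI (R.b i) - nm y * nI (R.b i) := by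
      rw [← sub_mul]
      exact (hMm.trans (nm_per _ hxy)).mul_right _
    have h6 : ((q0 p * p ^ n : ℕ) : ℤ) ∣ nm x * nI (R.b i) - c ↔
        ((q0 p * p ^ n : ℕ) : ℤ) ∣ nm y * nI (R.b i) - c := by
      constructor
      · intro h7
        have := dvd_sub h7 h5
        rwa [sub_sub_sub_cancel_left, show nm y * (nI (R.b i) : ℤ) - c =
          nm y * (nI (R.b i) : ℤ) - c from rfl] at this
      · intro h7
        have := dvd_add h5 h7
        rwa [sub_add_sub_cancel] at this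
    simp only [hF0]
    rw [he.per x y (hle hxy), (ptp1 x y hxy).2.1]
    by_cases h7 : ((q0 p * p ^ n : ℕ) : ℤ) ∣ nm x * nI (R.b i) - c
    · rw [if_pos h7, if_pos (h6.1 h7)]
    · rw [if_neg h7, if_neg (fun h8 => h7 (h6.2 h8))]
  have hcop2 : IsCoprime ((q0 p * p ^ n : ℕ) : ℤ) ((aX p f : ℤ) ^ 2) := by
    have h5 := (hcZ.of_isCoprime_of_dvd_right hMm).symm
    exact h5.pow_right
  have hnma : ∀ x : OO A B, nm (((aX p f : ℕ) : OO A B) * x) = (aX p f : ℤ) ^ 2 * nm x := by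
    intro x
    have h5 := (alg3 (aX p f : ℤ)).2
    rw [Int.cast_natCast] at h5
    rw [(alg1 _ _).2.2, h5]
  have hdv : ∀ x : OO A B, ((q0 p * p ^ n : ℕ) : ℤ) ∣
      nm (((aX p f : ℕ) : OO A B) * x) * nI (R.b i) - (aX p f : ℤ) ^ 2 * t ↔
      ((q0 p * p ^ n : ℕ) : ℤ) ∣ nm x * nI (R.b i) - t := by
    intro x
    rw [hnma, show (aX p f : ℤ) ^ 2 * nm x * (nI (R.b i) : ℤ) - (aX p f : ℤ) ^ 2 * t =
      (aX p f : ℤ) ^ 2 * (nm x * (nI (R.b i) : ℤ) - t) by ring]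
    exact ⟨fun h => hcop2.dvd_of_dvd_mul_left h, fun h => h.mul_left _⟩
  have hS1 : ∀ c, SnX R (lvX p f n) (q0 p * p ^ n) e i c =
      muX R i * sumMod ((lvX p f n : ℕ) : OO A B) (F0 c) := fun c => rfl
  have hS2 : sumMod ((lvX p f n : ℕ) : OO A B) (F0 ((aX p f : ℤ) ^ 2 * t)) =
      sumMod ((lvX p f n : ℕ) : OO A B)
        (fun x => F0 ((aX p f : ℤ) ^ 2 * t) (((aX p f : ℕ) : OO A B) * x)) :=
    (sumMod_mul hcO (hper _)).symm
  rw [hS1, hS1, hS2]
  have key : sumMod ((lvX p f n : ℕ) : OO A B) (fun x =>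
      if ((q0 p * p ^ n : ℕ) : ℤ) ∣ nm x * nI (R.b i) - t then
        e x * dlX (R.L i) (aX p f) (pt R (lvX p f n) i x) else 0) =
      (aX p f : ℂ) * sumMod ((lvX p f n : ℕ) : OO A B)
        (fun x => F0 ((aX p f : ℤ) ^ 2 * t) (((aX p f : ℕ) : OO A B) * x)) -
      (aX p f : ℂ) ^ 2 * sumMod ((lvX p f n : ℕ) : OO A B) (F0 t) := by
    rw [← sumMod_cmul, ← sumMod_cmul, ← sumMod_sub hfin]
    congr 1
    funext x
    simp only [hF0]
    by_cases h7 : ((q0 p * p ^ n : ℕ) : ℤ) ∣ nm x * nI (R.b i) - t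
    · rw [if_pos h7, if_pos ((hdv x).2 h7), if_pos h7, hea, ← ptp2]
      unfold dlX
      ring
    · rw [if_neg h7, if_neg (fun h8 => h7 ((hdv x).1 h8)), if_neg h7]
      ring
  rw [key]
  ring

end

end Pool.Agent.NSI
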