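import Pool.Agent.MUX.IAll
import Pool.Agent.NS.I_EPS
import Pool.Agent.NS.I_TEI
import Pool.Agent.NS.I_FOU
import Pool.Agent.NS.I_E0
import Pool.Agent.NS.I_SUB
import Pool.Agent.NS.I_XMX
import Pool.Agent.NS.I_TSH
import Pool.Agent.NS.I_TH
import Pool.Agent.NS.I_NR1
import Pool.Agent.NS.I_NRX
import Pool.Agent.NS.I_LEM1
import Pool.Agent.NS.I_I31
import Pool.Agent.NS.I_INP

/-!
# MUX-NS, block IN: all statements of `StIN.lean` (helper36). The only input is `Sn_HFIN` (block H)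
-/

set_option autoImplicit false

namespace Pool.Agent.NSI

open Pool.Agent.MUXF Pool.Agent.MUXU Pool.Agent.MUXY Pool.Agent.MUXK Pool.Agent.MUXI

theorem n_EPS : Sn_EPS := tn_EPS
theorem n_TEI : Sn_TEI := tn_TEI
theorem n_FOU : Sn_FOU := tn_FOU
theorem n_E0 : Sn_E0 := tn_E0 i_ARF xf_NIM
theorem n_SUB : Sn_SUB := tn_SUB i_LAY i_IAF
theorem n_XMX : Sn_XMX := tn_XMX i_XXF i_ARF i_LAY
theorem n_TSH : Sn_TSH := tn_TSH i_PTP xf_ALG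
theorem n_TH : Sn_TH := tn_TH n_TSH
theorem n_NR1 : Sn_NR1 := tn_NR1 k_GALX k_GENX k_LFX
theorem n_NRX : Sn_NRX := tn_NRX n_NR1 k_RSX
theorem n_LEM1 : Sn_LEM1 := tn_LEM1 k_GALX k_RSX
theorem n_I31 (hH : Pool.Agent.NS.Sn_HFIN) : Sn_I31 :=
  tn_I31 Pool.Agent.MUXJ.j_RES i_CHI n_FOU Pool.Agent.MU3I.t_ITG n_EPS n_TEI n_E0 i_ARF i_XXF n_SUB
    i_GAM n_XMX i_BIJ n_TH i_GEN hH k_GALX

/-- the result of block IN -/
theorem n_INP (hH : Pool.Agent.NS.Sn_HFIN) : Sn_INP := tn_INP (n_I31 hH) n_LEM1 n_NRX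

end Pool.Agent.NSI
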