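import Pool.Agent.NS.ZVex

/-!
# MUX: a prime ideal of norm `p` from a root of `X² - B X - A` modulo `p` (helper36)

For the ramified cases `p = 2`, `p = 3`.
-/

set_option autoImplicit false

namespace Pool.Agent.NSZ

open _root_.MU3 Pool.Agent.MU3 Pool.Agent.MU3A Pool.Agent.MU3B Pool.Agent.RI Pool.Agent.RID
  Pool.Agent.MUX Pool.Agent.MUXK Pool.Agent.MUXE Pool.Agent.MUXJ

noncomputable section

/-- the homomorphism `O → ℤ/p` which maps `w` to `c` -/
def psiC (p : ℕ) (A B c : ℤ) (h : (p : ℤ) ∣ A + B * c - c ^ 2) : OO A B →+* ZMod p :=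
  (QuadraticAlgebra.lift (R := ℤ) (a := A) (b := B) (A := ZMod p)
    ⟨(c : ZMod p), by
      have h1 : ((A + B * c - c ^ 2 : ℤ) : ZMod p) = 0 :=
        (ZMod.intCast_zmod_eq_zero_iff_dvd _ _).2 h
      push_cast at h1
      simp only [zsmul_eq_mul, mul_one]
      linear_combination -h1⟩).toRingHom

/-- a prime ideal of norm `p` -/
theorem exists_isPN (p : ℕ) (hp : p.Prime) (A B c : ℤ) (h : (p : ℤ) ∣ A + B * c - c ^ 2) :
    ∃ P : Ideal (OO A B), IsPN p P ∧ P.IsMaximal := by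
  haveI : Fact p.Prime := ⟨hp⟩
  let ψ := psiC p A B c h
  have hsurj : Function.Surjective ψ := ZMod.ringHom_surjective ψ
  have hmax : (RingHom.ker ψ).IsMaximal := RingHom.ker_isMaximal_of_surjective ψ hsurj
  refine ⟨RingHom.ker ψ, ⟨hmax.isPrime, ?_, ?_⟩, hmax⟩
  · rw [RingHom.mem_ker, map_natCast, CharP.cast_eq_zero]
  · unfold MUX.nI
    rw [Nat.card_congr (RingHom.quotientKerEquivOfSurjective hsurj).toEquiv, Nat.card_zmod]

end

end Pool.Agent.NSZ
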