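import Pool.Agent.NS.DefsN
import Pool.Agent.MUX.StGX

/-!
# NS, block GN (helper6): Theorem G for a finite family of symbols with an abstract index set, Legendre form at `V`

As `MUX/StGX.lean`, with three changes: the family is indexed by an arbitrary finite type `J` (needed for the translates
`PhiI (x + t, y + t)`), the lattice `L' = Om' O` is in Legendre form (`GoodN V L' 1 e lam`), and `V ∩ O` is any prime at which `k` is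
unramified in the form `LocN`.
-/

set_option autoImplicit false

namespace Pool.Agent.NSG

open _root_.MU3 Pool.Agent.MU3A Pool.Agent.MU3B Pool.Agent.MU3Q Pool.Agent.MUX Pool.Agent.NS
  Pool.Agent.MUXN Pool.Agent.MuSym OnePoint UpperHalfPlane
open scoped MatrixGroups

noncomputable section

/-- The data for Theorem G: a finite family of symbols `Ψ j` with primitives `Θ j` of the forms, first coefficients `α₁ j`, period `om`. -/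
structure GDatN (A B : ℤ) (J : Type) (Ψ : J → OnePoint ℚ → OnePoint ℚ → ℂ) (Θ : J → ℂ → ℂ)
    (α₁ : J → ℂ) (om : ℂ) (N' : ℕ) : Prop where
  pos : 0 < N'
  add : ∀ j, ∀ x y z : OnePoint ℚ, Ψ j x y + Ψ j y z = Ψ j x z
  inv : ∀ j, ∀ a b c d : ℤ, a * d - b * c = 1 → (N' : ℤ) ∣ c → (N' : ℤ) ∣ d - 1 →
    ∀ x y : OnePoint ℚ, Ψ j (mob a b c d x) (mob a b c d y) = Ψ j x y
  per : ∀ j, ∀ a b c d : ℤ, a * d - b * c = 1 → (N' : ℤ) ∣ c → (N' : ℤ) ∣ d - 1 →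
    ∀ τ : ℂ, 0 < τ.im → Θ j ((a * τ + b) / (c * τ + d)) = Θ j τ + Ψ j ∞ (mob a b c d ∞)
  cusp : ∀ j, ∀ a b c d : ℤ, a * d - b * c = 1 → ∃ (C : ℂ) (w : ℕ → ℂ), ∀ τ : ℂ,
    0 < τ.im → HasSum (fun n : ℕ => w n *
      Complex.exp (2 * Real.pi * Complex.I * τ / N') ^ (n + 1))
      (Θ j ((a * τ + b) / (c * τ + d)) - C)
  qexp : ∀ j, ∃ α : ℕ → ℂ, (∀ n, IsIntegral ℤ (α n)) ∧
    (∃ K : Subfield ℂ, NumberField K ∧ ∀ n, α n ∈ K) ∧ α 1 = α₁ j ∧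
    ∀ τ : ℂ, 0 < τ.im → HasSum (fun n : ℕ => α n / n *
      Complex.exp (2 * Real.pi * Complex.I * τ) ^ n) (Θ j τ)
  rat : ∀ σ : ℂ ≃+* ℂ, FixK A B σ → ∀ j, ∃ (j' : J) (u : ℂ),
    ∀ x y : OnePoint ℚ, σ (Ψ j x y / om) = u * (Ψ j' x y / om)
  alg : ∀ j, ∀ x y : OnePoint ℚ, IsAlgebraic ℚ (Ψ j x y / om)

/-- common denominators prime to `V` of elements of `k ∩ V` -/
def LocN (A B : ℤ) (V : ValuationSubring ℂ) : Prop :=
  ∀ S : Finset ℂ, (∀ y ∈ S, y ∈ kk A B ∧ y ∈ V) →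
    ∃ t : OO A B, V.valuation (emb t) = 1 ∧ ∀ y ∈ S, ∃ c : OO A B, emb t * y = emb c

/-- the lattice is `om O` and in Legendre form with good reduction -/
structure LegN (A B : ℤ) (V : ValuationSubring ℂ) (L' : PeriodPair) (om e lam : ℂ) : Prop where
  om0 : om ≠ 0
  mem : ∀ z : ℂ, z ∈ L'.lattice ↔ ∃ x : OO A B, z = om * emb x
  eq : ∀ z ∉ L'.lattice, L'.derivWeierstrassP z ^ 2 / 4 =
    (L'.weierstrassP z - e) * (L'.weierstrassP z - e - 1) * (L'.weierstrassP z - e - lam)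
  alg : IsAlgebraic ℚ lam
  v1 : V.valuation lam = 1
  v2 : V.valuation (1 - lam) = 1

/-- (GJ) every vector of the descended basis comes from a form whose first coefficient is in `V`. -/
def Sn_GJ : Prop :=
  ∀ (A B : ℤ) (_ : CQ A B) (J : Type) [Fintype J] (Ψ : J → OnePoint ℚ → OnePoint ℚ → ℂ)
    (Θ : J → ℂ → ℂ) (α₁ : J → ℂ) (om : ℂ) (N' : ℕ) (_ : GDatN A B J Ψ Θ α₁ om N')
    (V : ValuationSubring ℂ) (p : ℕ) (_ : p.Prime) (_ : (p : ℂ) ∈ V.nonunits)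
    (_ : V.valuation (2 : ℂ) = 1) (_ : LocN A B V) (L' : PeriodPair) (e lam : ℂ)
    (_ : LegN A B V L' om e lam) (r : ℕ) (h : Fin r → SL(2, ℤ))
    (_ : ∀ i, h i ∈ CongruenceSubgroup.Gamma1 N')
    (_ : ∀ (ρ : SL(2, ℤ) → ℂ) (_ : ∀ g ∈ CongruenceSubgroup.Gamma1 N',
        ∀ g' ∈ CongruenceSubgroup.Gamma1 N', ρ (g * g') = ρ g + ρ g') (M : AddSubgroup ℂ)
      (_ : ∀ i, ρ (h i) ∈ M), ∀ g ∈ CongruenceSubgroup.Gamma1 N', ρ g ∈ M)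
    (w : Fin r → ℂ) (_ : ∀ i, w i ∈ kk A B ∧ w i ∈ V) (y : J → ℂ)
    (_ : ∀ l', ∑ c : J, y c * (Ψ c ∞
      (mob (h l' 0 0) (h l' 0 1) (h l' 1 0) (h l' 1 1) ∞) / om) = w l'),
    ∃ y' : J → ℂ, (∀ l', ∑ c : J, y' c * (Ψ c ∞
      (mob (h l' 0 0) (h l' 0 1) (h l' 1 0) (h l' 1 1) ∞) / om) = w l') ∧
      ∑ c : J, y' c * α₁ c ∈ V

/-- (GTH) THEOREM G. -/
def Sn_GTH : Prop :=
  ∀ (A B : ℤ) (_ : CQ A B) (J : Type) [Fintype J] (Ψ : J → OnePoint ℚ → OnePoint ℚ → ℂ)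
    (Θ : J → ℂ → ℂ) (α₁ : J → ℂ) (om : ℂ) (N' : ℕ) (_ : GDatN A B J Ψ Θ α₁ om N')
    (V : ValuationSubring ℂ) (p : ℕ) (_ : p.Prime) (_ : (p : ℂ) ∈ V.nonunits)
    (_ : V.valuation (2 : ℂ) = 1) (_ : LocN A B V) (L' : PeriodPair) (e lam : ℂ)
    (_ : LegN A B V L' om e lam) (kk : J → ℂ) (_ : ∑ j, kk j * α₁ j ∉ V.nonunits),
    ∃ a b c d : ℤ, a * d - b * c = 1 ∧ (N' : ℤ) ∣ c ∧ (N' : ℤ) ∣ d - 1 ∧
      (∑ j, kk j * Ψ j ∞ (mob a b c d ∞)) / om ∉ V.nonunits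

end

end Pool.Agent.NSG
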