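import Pool.Agent.NS.DefsN

/-!
# MUX-NS, ramified case: common definitions (helper87). See `Pool/Agent/MUX/PAPER_NSR.md`

`3 = P²` in `k`, `D ≠ -3` (`CaseR A B`), `V` a valuation ring of `ℂ` with `V ∩ O = P`, `v = V.valuation` (multiplicative; `v(emb x)² = v 3` for
`x ∈ P`, `x ∉ P²`). `δ = dD A B = 2 w - B = √D`, `v_P(δ) = 1`. Levels `m = lvX 3 f n = f 3^(n+1)`, `a = aX 3 f = 1 + 6 f`, `R : Reps A B (3 * f) ι`, all points
`pt R m i x` on the lattices `R.L i`, as in `DefsN.lean`. The fields `K B_n` are in `RF (lvR P f n)`, `lvR P f n = f P^(2n+1)` (`m = (lvR P f n) P`).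
The sign character of `(O/P)^*` is `wP P` (`DefsX2.lean`). Every odd character `e` of `(O/3f)^*` of order prime to `3` is `1` on
`1 + f P`, so it is `wP P ^ i` on `{x ≡ 1 mod f}`, `i ∈ {0, 1}` (TYPE).

* `GoodR V L u e lam` : `u L` is in Legendre form, with supersingular good reduction, `v(1 + lam)² ≤ v 3`.
* `IsB f n b` : `b c̄ ≡ c` modulo `m`, `c = 1 + 3 f δ`. So `N b ≡ 1` modulo `m`, `b ≡ 1` modulo `3 f P`; `b` has order `3^n` modulo `m`, and `b^(3^(n-1))`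
  generates the kernel of `(O/m)^* → (O/lvR)^*`. All `b^j` act trivially on `K B_n`, `K ≤ RF (3 f)`.
* `TTE R m a h τ = Σ emb(x) mu_i (Θ_a'/Θ_a)(pt R m i x; L_i)`, `(i, x) ∈ XX R m h τ`: the weights are `emb x`, not signs.
-/

set_option autoImplicit false

namespace Pool.Agent.NSRD

open _root_.MU3 Pool.Agent.MU3A Pool.Agent.MU3B Pool.Agent.RI Pool.Agent.MUX Pool.Agent.NS OnePoint

noncomputable section

/-- `3` is ramified in `k`, and `D ≠ -3` -/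
structure CaseR (A B : ℤ) : Prop extends CQ A B where
  three : (3 : ℤ) ∣ B ^ 2 + 4 * A
  exc : ¬ (B = 1 ∧ A = -1)

/-- the standing hypotheses -/
structure SetR (A B : ℤ) (P : Ideal (OO A B)) (V : ValuationSubring ℂ) (f : ℕ) : Prop where
  case : CaseR A B
  hP : IsPN 3 P
  hV : OverI V P
  f0 : f ≠ 0
  fp : ¬ 3 ∣ f
  fD : 2 * absD A B ∣ 3 * (f : ℤ)

/-- the lattice `u L` is in Legendre form, with supersingular good reduction at `V` -/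
structure GoodR (V : ValuationSubring ℂ) (L : PeriodPair) (u e lam : ℂ) : Prop where
  u0 : u ≠ 0
  eq : ∀ z ∉ L.lattice, (L.derivWeierstrassP z / (2 * u ^ 3)) ^ 2 =
    ((L.weierstrassP z - e) / u ^ 2) * ((L.weierstrassP z - e) / u ^ 2 - 1) *
      ((L.weierstrassP z - e) / u ^ 2 - lam)
  lam1 : V.valuation (1 + lam) ^ 2 ≤ V.valuation (3 : ℂ)

/-- `√D = 2 w - B` -/
def dD (A B : ℤ) : OO A B := ⟨-B, 2⟩

/-- the level of `K B_n` -/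
def lvR {A B : ℤ} (P : Ideal (OO A B)) (f n : ℕ) : Ideal (OO A B) :=
  idl (A := A) (B := B) f * P ^ (2 * n + 1)

/-- the generator of the small group, an element of norm `≡ 1` modulo `m` -/
def IsB {A B : ℤ} (f n : ℕ) (b : OO A B) : Prop :=
  b * (1 - ((3 * f : ℕ) : OO A B) * dD A B) - (1 + ((3 * f : ℕ) : OO A B) * dD A B) ∈
    idl (A := A) (B := B) (lvX 3 f n)

section
variable {A B : ℤ} {n : ℕ} {ι : Type}

/-- `T(τ)` with the weights `emb x` -/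
def TTE (R : Reps A B n ι) (m a : ℕ) {D : IntermediateField ℚ ℂ}
    (h : kk A B ≤ D) (τ : letI := algC h; D ≃ₐ[kk A B] D) : ℂ :=
  ∑ᶠ q ∈ XX R m h τ, emb (Quotient.out q.2 : OO A B) * muX R q.1 *
    dlX (R.L q.1) a (pt R m q.1 (Quotient.out q.2))

end

/-! ## Final statements of the blocks -/

/-- (RFIN) reduction of the normalised lattices (helper58's `StRN.lean` covers it: `Sr_ALR`, `Sr_UNR`, ..). -/
def Sq_RFIN : Prop :=
  ∀ (A B : ℤ) (P : Ideal (OO A B)) (V : ValuationSubring ℂ), CaseR A B → IsPN 3 P →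
    OverI V P → TorX A B →
    (∀ (b : Ideal (OO A B)) (L : PeriodPair) (om : ℂ), IsNL b L om →
      ∃ u e lam : ℂ, GoodR V L u e lam ∧ u ^ 2 ∈ RF (idl (A := A) (B := B) 2) ∧
        e ∈ RF (idl (A := A) (B := B) 2) ∧ lam ∈ RF (idl (A := A) (B := B) 2)) ∧
    ∀ f : ℕ, f ≠ 0 → ¬ 3 ∣ f → ∀ σ : ℂ ≃+* ℂ, FixK A B σ →
      (∀ y ∈ RF (idl (A := A) (B := B) f), y ∈ V → σ y - y ∈ V.nonunits) →
      ∀ y ∈ RF (idl (A := A) (B := B) f), σ y = y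

/-- (ECUB) cubes: additive valuation at least `3/2`. -/
def Sq_ECUB : Prop :=
  ∀ (A B : ℤ) (P : Ideal (OO A B)) (V : ValuationSubring ℂ) (f : ℕ), SetR A B P V f →
    TorX A B → ∀ (ι : Type) [Fintype ι] (R : Reps A B (3 * f) ι) (u e lam : ℂ),
    GoodR V (R.L R.i0) u e lam → ∀ n : ℕ, 1 ≤ n →
    ∀ (H : ι → Finset ℂ), (∀ i, IsHalf (R.L i) (aX 3 f : ℂ) (H i)) →
    ∀ (D : IntermediateField ℚ ℂ) (h : kk A B ≤ D), (∀ y ∈ D, y ∈ RF (lvR P f n)) →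
    letI := algC h
    (∀ τ : D ≃ₐ[kk A B] D, ∃ y : D, (y : ℂ) = cX R (lvX 3 f n) H h 1 ∧
      ((τ y : D) : ℂ) = cX R (lvX 3 f n) H h τ) →
    ∀ g : (D ≃ₐ[kk A B] D) → ℤ,
      (∃ y ∈ D, y ^ 3 = ∏ᶠ τ : D ≃ₐ[kk A B] D, cX R (lvX 3 f n) H h τ ^ g τ) →
      ∀ τ' : D ≃ₐ[kk A B] D,
        V.valuation ((∑ᶠ τ : D ≃ₐ[kk A B] D, (g τ : ℂ) *
          TTE R (lvX 3 f n) (aX 3 f) h (τ * τ')) / u) ^ 2 ≤ V.valuation (3 : ℂ) ^ 3

/-- (EINN) the sums over the kernel of `(O/m)^* → (O/lvR)^*`: additive valuation at least `1/2`; and integrality. -/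
def Sq_EINN : Prop :=
  ∀ (A B : ℤ) (P : Ideal (OO A B)) (V : ValuationSubring ℂ) (f : ℕ), SetR A B P V f →
    TorX A B → ∀ (ι : Type) [Fintype ι] (R : Reps A B (3 * f) ι) (u e lam : ℂ),
    GoodR V (R.L R.i0) u e lam → ∀ n : ℕ, 1 ≤ n → ∀ b : OO A B, IsB f n b →
    ∀ (i : ι) (x : OO A B), IsCoprime x ((lvX 3 f n : ℕ) : OO A B) →
      V.valuation (muX R i * dlX (R.L i) (aX 3 f) (pt R (lvX 3 f n) i x) / u) ≤ 1 ∧
      V.valuation (muX R i * (∑ l ∈ Finset.range 3, dlX (R.L i) (aX 3 f)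
        (pt R (lvX 3 f n) i (x * b ^ (3 ^ (n - 1) * l)))) / u) ^ 2 ≤ V.valuation (3 : ℂ)

/-- (EPAR) the sums over `b^l`, `l < 3^n`: additive valuation at least `3/4 - (5/6)/3^n`. -/
def Sq_EPAR : Prop :=
  ∀ (A B : ℤ) (P : Ideal (OO A B)) (V : ValuationSubring ℂ) (f : ℕ), SetR A B P V f →
    TorX A B → ∀ (ι : Type) [Fintype ι] (R : Reps A B (3 * f) ι) (u e lam : ℂ),
    GoodR V (R.L R.i0) u e lam → ∀ n : ℕ, 1 ≤ n → ∀ b : OO A B, IsB f n b →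
    ∀ (i : ι) (x : OO A B), IsCoprime x ((lvX 3 f n : ℕ) : OO A B) →
      V.valuation (muX R i * (∑ l ∈ Finset.range (3 ^ n), dlX (R.L i) (aX 3 f)
        (pt R (lvX 3 f n) i (x * b ^ l))) / u) ^ (12 * 3 ^ n) * V.valuation (3 : ℂ) ^ 10 ≤
        V.valuation (3 : ℂ) ^ (9 * 3 ^ n)

/-- (EFIN) THE RESULT of block ER (helper86), with the signs `wP P` as weights: additive valuation at least `5/4 - (5/6)/3^n`. The field condition: `D` is in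
`RF (3 f)(ζ)`, `ζ` of order `3^(n+1)` (so `b` acts trivially on `D`, and every set `XX R m h τ` is a union of cosets of `<b>`).

PROOF from ECUB, EINN, EPAR: `TTE - TTX = Σ (emb x - w x) mu_i dl(pt x)`; on a coset `x b^l` (`l < 3^n`): `w` is constant, `emb (x b^l) - emb x` is divisible by `3` and
depends modulo `9` (times a unit) only on `l` modulo `3^(n-1)`, `v(emb x - w x) ≥ 1/2`. -/
def Sq_EFIN : Prop :=
  ∀ (A B : ℤ) (P : Ideal (OO A B)) (V : ValuationSubring ℂ) (f : ℕ), SetR A B P V f →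
    TorX A B → ∀ (ι : Type) [Fintype ι] (R : Reps A B (3 * f) ι) (u e lam : ℂ),
    GoodR V (R.L R.i0) u e lam → ∀ n : ℕ, 1 ≤ n →
    ∀ (H : ι → Finset ℂ), (∀ i, IsHalf (R.L i) (aX 3 f : ℂ) (H i)) →
    ∀ (D : IntermediateField ℚ ℂ) (h : kk A B ≤ D), (∀ y ∈ D, y ∈ RF (lvR P f n)) →
    (∀ σ : ℂ ≃+* ℂ, FixK A B σ → (∀ y ∈ RF (idl (A := A) (B := B) (3 * f)), σ y = y) →
      (∀ z : ℂ, z ^ 3 ^ (n + 1) = 1 → σ z = z) → ∀ y ∈ D, σ y = y) →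
    letI := algC h
    (∀ τ : D ≃ₐ[kk A B] D, ∃ y : D, (y : ℂ) = cX R (lvX 3 f n) H h 1 ∧
      ((τ y : D) : ℂ) = cX R (lvX 3 f n) H h τ) →
    ∀ g : (D ≃ₐ[kk A B] D) → ℤ,
      (∃ y ∈ D, y ^ 3 = ∏ᶠ τ : D ≃ₐ[kk A B] D, cX R (lvX 3 f n) H h τ ^ g τ) →
      ∀ τ' : D ≃ₐ[kk A B] D,
        V.valuation ((∑ᶠ τ : D ≃ₐ[kk A B] D, (g τ : ℂ) *
          TTX R P (lvX 3 f n) (aX 3 f) h (τ * τ')) / u) ^ (12 * 3 ^ n) *
          V.valuation (3 : ℂ) ^ 10 ≤ V.valuation (3 : ℂ) ^ (15 * 3 ^ n)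

/-- (TYF) TYPE, ramified case. `F` a large Galois extension of `k`, `KI` its inertia field at `V`; on `KI` the additive valuation has values in `(1/2) ℤ`. For `σ` in the
inertia group, acting as `d_i c` on the points of `L_i` (`c ≡ 1` modulo `f..`): `e(c) = w(c)^i`, `w = wP P`, and `tau = t(R)`, `R` a point of order `P` of `u L_0` (`t = -x/y`; `v(t(R))^4 = v 3`),
`σ tau = w(c) tau`: so `tau^i P_i/(u om_0)` is fixed, for every family of weights. `pi = tau^(-i)`. -/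
def Sq_TYF : Prop :=
  ∀ (A B : ℤ) (P : Ideal (OO A B)) (V : ValuationSubring ℂ) (f : ℕ), SetR A B P V f →
    TorX A B → ∀ (ι : Type) [Fintype ι] (R : Reps A B (3 * f) ι) (u el lam : ℂ),
    GoodR V (R.L R.i0) u el lam →
    ∀ e : OO A B → ℂ, IsEI (idl (A := A) (B := B) (3 * f)) e → ∀ r : ℕ, ¬ 3 ∣ r →
    (∀ x, e x ≠ 0 → e x ^ r = 1) → ∀ i : ℕ, i ≤ 1 →
    (∀ x, x - 1 ∈ idl (A := A) (B := B) f → x ∉ P → e x = ((wP P x : ℤ) : ℂ) ^ i) →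
    ∀ kk kk' : ι → ℂ, (∀ j, kk j = 0 ∨ kk j ^ r = 1) → (∀ j, kk' j = 0 ∨ kk' j ^ r = 1) →
    ∃ (pi : ℂ) (KI : Subfield ℂ),
      (∀ x y : OnePoint ℚ, ∃ w ∈ KI, PhiK R e kk x y / (u * R.om R.i0) = pi * w) ∧
      (∀ x y : OnePoint ℚ, ∃ w ∈ KI, PhiK R e kk' x y / (u * R.om R.i0) = pi * w) ∧
      (∀ w ∈ KI, V.valuation w < 1 → V.valuation w ^ 2 ≤ V.valuation (3 : ℂ)) ∧
      V.valuation pi ^ 4 * V.valuation (3 : ℂ) ^ i = 1

/-- (HFIN) the character sums: additive valuation at most `5/4 - 1/3^n` (both types). -/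
def Sq_HFIN : Prop :=
  ∀ (A B : ℤ) (P : Ideal (OO A B)) (V : ValuationSubring ℂ) (f : ℕ), SetR A B P V f →
    TorX A B → ∀ (ι : Type) [Fintype ι] (R : Reps A B (3 * f) ι) (u el lam : ℂ),
    GoodR V (R.L R.i0) u el lam →
    ∀ e : OO A B → ℂ, IsEI (idl (A := A) (B := B) (3 * f)) e → ∀ r : ℕ, ¬ 3 ∣ r →
    (∀ x, e x ≠ 0 → e x ^ r = 1) → ∀ kk : ι → ℂ, (∀ i, kk i ^ r = 1) →
    ∀ n₀ : ℕ, ∃ n, n₀ ≤ n ∧ 1 ≤ n ∧
      V.valuation (3 : ℂ) ^ (15 * 3 ^ n) ≤ V.valuation ((∑ j ∈ Finset.range 2, (-1) ^ (1 - j) *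
        (STX R (lvX 3 f n) (3 ^ (n + 1)) (aX 3 f) e kk (4 ^ j) +
          STX R (lvX 3 f n) (3 ^ (n + 1)) (aX 3 f) e kk (-(4 ^ j)))) / u) ^ (12 * 3 ^ n) *
        V.valuation (3 : ℂ) ^ 12

end

end Pool.Agent.NSRD
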