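import Pool.Agent.NS.StGN
import Pool.Agent.NS.DefsR
import Pool.Agent.MUX.StGX
import Pool.Agent.MUX.StGF
import Pool.Agent.MUX.StHR

/-!
# MUX-NS, block GR (helper87): Theorem G+ and the producers of `HypR`, ramified case (`3 = P²`, `D ≠ -3`)

Definitions: `NS/DefsR.lean`, `NS/StGN.lean`. THEOREM G+: let `g = Σ b_n q^n` be a form in the span with `b_n = 0` for `3 ∣ n` (depleted), all closed periods
divided by `Om` in `V`. Then `v(b_1)^12 ≤ v 3` (additively: at least `1/12`). IDEA. `Z = ∫ g`, `Z(τ) + Z(τ + 1/3) + Z(τ + 2/3) = 0`, so the three points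
`Q = (X, Y)`, `α Q`, `α² Q` (`α : q ↦ ω q`, `ω` a third root of unity) of the curve over the field of `q`-series are collinear, and `α ≡ 1` modulo `ω - 1`, `v(ω - 1)² = v 3`.
Then as in helper3's Gauss lemma (`Sg_GV`, `Sg_GP`, `Sg_BIN`, `Sg_GJ`, `Sg_GTHX`).

Every statement is a `def Sv_X : Prop`; the module NSG_X (table `modules`: `NSGR_X`) proves `theorem tv_X (h : ..) .. : Sv_X` in `Pool/Agent/NS/GR_X.lean`, namespace
`Pool.Agent.NSGR` (private lemmas in `Pool.Agent.NSGR.X`), with the statements named under USES as hypotheses (fewer is fine). Unconditional and usable: `Pool.Agent.MU3B.b_X : St_X`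
(`MU3/BAll.lean`), the theorems of `Pool/Agent/MU3/Q_*.lean` (`t_ODE`, `t_ODEK`, ..), `Pool.Agent.MU3A.ta_SCP`, `Pool.Agent.MUXU.u_X : Su_X` (`MUX/UAll.lean`), `Pool.Agent.MUXF.xf_X : Sx_X`
(`MUX/XFAll.lean`). `v = V.valuation`.
-/

set_option autoImplicit false

namespace Pool.Agent.NSGR

open _root_.MU3 Pool.Agent.MU3A Pool.Agent.MU3B Pool.Agent.MU3Q Pool.Agent.MUX Pool.Agent.NS
  Pool.Agent.NSRD Pool.Agent.NSG Pool.Agent.MUXN Pool.Agent.MuSym OnePoint UpperHalfPlane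
open Pool.Agent.MUXF (qb)
open scoped MatrixGroups

noncomputable section

/-! ## Definitions -/

/-- `S` solves the differential equation of `1/x(Z)`, with the right first coefficients -/
structure OdeS (a2 a4 : ℂ) (z S : PowerSeries ℂ) : Prop where
  c0 : PowerSeries.coeff 0 S = 0
  c1 : PowerSeries.coeff 1 S = 0
  c2 : PowerSeries.coeff 2 S = PowerSeries.coeff 1 z ^ 2
  ode : thetaD S ^ 2 = 4 * S * (1 + a2 • S + a4 • S ^ 2) * thetaD z ^ 2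

/-- the three points `Z`, `α Z`, `α² Z` are collinear, in terms of `S = 1/x`; `S₁ = S(ω q)`, `S₂ = S(ω² q)`, `g = θ z` -/
def ColS (ω a2 a4 : ℂ) (z S : PowerSeries ℂ) : Prop :=
  (S * PowerSeries.rescale ω S + S * PowerSeries.rescale (ω ^ 2) S +
      PowerSeries.rescale ω S * PowerSeries.rescale (ω ^ 2) S +
      a2 • (S * PowerSeries.rescale ω S * PowerSeries.rescale (ω ^ 2) S)) *
    (thetaD S * PowerSeries.rescale ω (thetaD z) * PowerSeries.rescale ω S ^ 2 +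
      PowerSeries.rescale ω (thetaD S) * thetaD z * S ^ 2) ^ 2 =
  4 * S * PowerSeries.rescale ω S * PowerSeries.rescale (ω ^ 2) S * thetaD z ^ 2 *
    PowerSeries.rescale ω (thetaD z) ^ 2 *
    (S ^ 2 + S * PowerSeries.rescale ω S + PowerSeries.rescale ω S ^ 2 +
      a2 • (S * PowerSeries.rescale ω S * (S + PowerSeries.rescale ω S)) +
      a4 • (S ^ 2 * PowerSeries.rescale ω S ^ 2)) ^ 2

/-- the part of the family of weights with `N b_i ≡ 1` modulo `3` -/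
def kkp {A B : ℤ} {n : ℕ} {ι : Type} (R : Reps A B n ι) (kk : ι → ℂ) (i : ι) : ℂ :=
  open Classical in if (3 : ℤ) ∣ (nI (R.b i) : ℤ) - 1 then kk i else 0

/-- the part with `N b_i ≡ 2` modulo `3` -/
def kkm {A B : ℤ} {n : ℕ} {ι : Type} (R : Reps A B n ι) (kk : ι → ℂ) (i : ι) : ℂ :=
  open Classical in if (3 : ℤ) ∣ (nI (R.b i) : ℤ) - 1 then 0 else kk i

/-- `(Φ⁺ + ι^* Φ⁻)/Om`, `Om = u om_(i0)` -/
def PR {A B : ℤ} {n : ℕ} {ι : Type} [Fintype ι] (R : Reps A B n ι) (e : OO A B → ℂ)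
    (kk : ι → ℂ) (u : ℂ) (x y : OnePoint ℚ) : ℂ :=
  (PhiK R e (kkp R kk) x y +
    PhiK R e (kkm R kk) (mob (-1) 0 0 1 x) (mob (-1) 0 0 1 y)) / (u * R.om R.i0)

/-! ## Theorem G+ -/

/-- (ODU) uniqueness of the solution of the differential equation.

PROOF. Strong induction on `n`: `coeff n S = coeff n S'`. `n ≤ 2`: given. `n = k + 3`: as in `Q_ODEK.step` (`Pool/Agent/MU3/Q_ODEK.lean`): let `T` be the common truncation of `S`, `S'` below `k + 3`; the coefficient `k + 5` of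
`θT² - 4 T (1 + a2 T + a4 T²) θz²` is `-4 (k + 2) z_1² coeff (k+3) S` and also `-4 (k+2) z_1² coeff (k+3) S'`. -/
def Sv_ODU : Prop :=
  ∀ (a2 a4 : ℂ) (z S S' : PowerSeries ℂ), PowerSeries.coeff 1 z ≠ 0 → OdeS a2 a4 z S →
    OdeS a2 a4 z S' → S = S'

/-- (COL) collinearity.

PROOF. Everything as in the proof of `t_ODE` (`Pool/Agent/MU3/Q_ODE.lean`; `Ser`, `sf`, `sf_ode`): `φ(q) = Σ z_n q^n` near `0`, `S` = the Taylor series of `F = sf L c0 ∘ φ`. `PowerSeries.rescale ω f` is the series of `q ↦ f(ω q)`. `φ(q) + φ(ω q) + φ(ω² q) = 0`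
(`1 + ω^n + ω^(2n) = 0` for `3 ∤ n`, `z_n = 0` for `3 ∣ n`). For small `q ≠ 0` put `u_j = φ(ω^j q)`: `u_0, u_1, u_2`, `u_0 - u_1` are not in `L` (small and `≠ 0`: the leading coefficients are `ω^j z_1`, `(1 - ω) z_1`), `x_j = ℘(u_j) + c0 = 1/s_j`, `s_j = F(ω^j q)`, `y_j = ℘'(u_j)/2`.
Addition theorem (`b_ADD : St_ADD`, block B): `℘(u_0 + u_1) = ((℘'(u_0) - ℘'(u_1))/(℘(u_0) - ℘(u_1)))²/4 - ℘(u_0) - ℘(u_1)`, `u_0 + u_1 = -u_2`, `℘` even; the constants are compared by `hrel`: comparing `℘'² = 4℘³ - g₂℘ - g₃` with `hrel` gives `a2 = -3 c0`. So `x_0 + x_1 + x_2 + a2 = ((y_0 - y_1)/(x_0 - x_1))²`,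
and `(y_0 - y_1)(y_0 + y_1) = (x_0 - x_1) N`, `N = x_0² + x_0 x_1 + x_1² + a2 (x_0 + x_1) + a4`; so `(x_0 + x_1 + x_2 + a2)(y_0 + y_1)² = N²`. Next `F' = sf'(φ) φ'`, `sf'(u) = -℘'(u)/(℘(u) + c0)² = -2 y s²` (proof of `sf_ode`), so `θS` has the value `-2 y_0 s_0² g_0` and `rescale ω (θS)` the value `-2 y_1 s_1² g_1` at `q`
(`g_j` = value of `θz` at `ω^j q`; `θ` commutes with rescaling). Insert: both sides of `ColS` agree for all small `q ≠ 0`, so for all small `q`, and the power series are equal (`Ser.unique`). -/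
def Sv_COL : Prop :=
  ∀ (L : PeriodPair) (c0 a2 a4 a6 : ℂ),
    (∀ u : ℂ, u ∉ L.lattice → L.derivWeierstrassP u ^ 2 / 4 =
      (L.weierstrassP u + c0) ^ 3 + a2 * (L.weierstrassP u + c0) ^ 2 +
        a4 * (L.weierstrassP u + c0) + a6) → a6 = 0 →
    ∀ (Z : ℍ → ℂ) (z : PowerSeries ℂ), QS Z z → PowerSeries.coeff 1 z ≠ 0 →
      (∀ n, 3 ∣ n → PowerSeries.coeff n z = 0) → ∀ ω : ℂ, IsPrimitiveRoot ω 3 →
      ∃ S : PowerSeries ℂ, OdeS a2 a4 z S ∧ ColS ω a2 a4 z S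

/-- (GVP) the abstract estimate.

PROOF. `θ = v 3 < 1`, `d² = θ`, `d < 1`, `v 2 = 1`. `δ = al X - X`: `v δ ≤ d v(X)`, `X + al X + al (al X) = 3 X + 3 δ + (al δ - δ)` has valuation `≤ θ v(X)`. `v(al Y - Y) ≤ d v(Y)`, so `v(Y + al Y) = v(Y)` (if `Y = 0` then `D X = 0`.. use the hypothesis `Y ≠ 0`). `N = X² + X (X + δ) + (X + δ)² + a2 (2X + δ) + a4 = 3X² + 3Xδ + δ² + a2 (2X + δ) + a4`.
Case `v X ≤ 1`: `v(a2) < 1` (`v(a2)² ≤ θ`), so `v N = v a4 = 1`, `v Y ≤ 1` (equation), and the left side of the collinearity has valuation `< 1`: contradiction. Case `x = v X > 1`: `v(Y)² = x³` (compare the terms of the equation; `v(a2 X²) ≤ v(a2) x² < x³`, `v(a4 X) = x < x³`). `v(g)² = v(D X)²/v(2 Y)² ≤ x²/x³ = 1/x`, so it is enough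
that `θ x⁶ ≥ 1` (`v(g)^12 ≤ x^(-6) ≤ θ`). Suppose `θ x⁶ < 1`. Then `θ x² < 1`, `(v(a2) x)² ≤ θ x² < 1`: `v N = 1`. Left side: `v ≤ max(θ x, v(a2)) x³`, and `θ x⁴ < 1`, `(v(a2) x³)² ≤ θ x⁶ < 1`: `< 1`, contradiction. -/
def Sv_GVP : Prop :=
  ∀ (E Γ : Type) [Field E] [LinearOrderedCommGroupWithZero Γ] (v : Valuation E Γ)
    (D : E → E) (al : E ≃+* E) (d : Γ) (_ : v (3 : E) < 1) (_ : v (3 : E) ≠ 0) (_ : d ^ 2 = v (3 : E))
    (_ : ∀ x, v (D x) ≤ v x) (_ : ∀ x, v (al x - x) ≤ d * v x)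
    (a2 a4 X Y g : E) (_ : v a2 ^ 2 ≤ v (3 : E)) (_ : v a4 = 1)
    (_ : Y ^ 2 = X ^ 3 + a2 * X ^ 2 + a4 * X) (_ : D X = 2 * Y * g) (_ : Y ≠ 0) (_ : X ≠ 0)
    (_ : (X + al X + al (al X) + a2) * (Y + al Y) ^ 2 =
      (X ^ 2 + X * al X + al X ^ 2 + a2 * (X + al X) + a4) ^ 2),
    v g ^ 12 ≤ v (3 : E)

/-- (RSC) rescaling by a third root of unity on the fraction field of `O⟦q⟧`. `O` a discrete valuation ring, `v`, `D` as in `Sg_GD`.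

PROOF. `Sg_GD` (`tg_GD`, see its construction: `Pool/Agent/MUX/N_GD.lean`) gives `v`, `D`. `al` = the automorphism of the fraction field induced by `PowerSeries.rescale ω` (an automorphism of `O⟦q⟧`, inverse `rescale ω²`; `IsFractionRing.ringEquivOfRingEquiv`/`IsFractionRing.fieldEquivOfRingEquiv`).
`v(al f) = v f` for `f ∈ O⟦q⟧`: both of `v(al f) ≤ v f` and (with the inverse) `≥`: if `v f = v(C c)`.. use the third property (`v f ≤ v(C c)` implies `C c ∣ f`, so `C c ∣ al f` as `al (C c) = C c`, so `v(al f) ≤ v(C c)`), where every value `v f`, `f ≠ 0`, is some `v(C c)` (add this from the construction: `c = ϖ^n`).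
`al f - f = Σ (ω^n - 1) f_n q^n` is divisible by `C (ω - 1)`, and if `v f ≤ v (C c)` then `f = C c f'`, so `v(al f - f) ≤ v(C (ω - 1)) v f` for `f ∈ O⟦q⟧`. Quotients: `al(a/b) - a/b = (b (al a - a) - a (al b - b))/(b al b)`. `d = v(C (ω - 1))`: `(ω - 1)² = -3 ω`, `ω` a unit. -/
def Sv_RSC : Prop :=
  ∀ (O : Type) [CommRing O] [IsDomain O] [IsDiscreteValuationRing O] (ω : O)
    (_ : ω ^ 2 + ω + 1 = 0) (_ : (3 : O) ≠ 0),
    ∃ (v : Valuation (FractionRing (PowerSeries O)) (WithZero (Multiplicative ℤ)))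
      (D : Derivation ℤ (FractionRing (PowerSeries O)) (FractionRing (PowerSeries O)))
      (al : FractionRing (PowerSeries O) ≃+* FractionRing (PowerSeries O))
      (d : WithZero (Multiplicative ℤ)),
      (∀ f : PowerSeries O, v (algebraMap _ _ f) ≤ 1) ∧
      (∀ u : O, IsUnit u → v (algebraMap _ _ (PowerSeries.C u)) = 1) ∧
      (∀ u : O, ¬ IsUnit u → v (algebraMap _ _ (PowerSeries.C u)) < 1) ∧
      (∀ (f : PowerSeries O) (c : O), c ≠ 0 →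
        v (algebraMap _ _ f) ≤ v (algebraMap _ _ (PowerSeries.C c)) → PowerSeries.C c ∣ f) ∧
      (∀ x, v (D x) ≤ v x) ∧
      (∀ f : PowerSeries O, D (algebraMap _ _ f) =
        algebraMap _ _ (PowerSeries.mk fun n => (n : O) * PowerSeries.coeff n f)) ∧
      (∀ f : PowerSeries O, al (algebraMap _ _ f) = algebraMap _ _ (PowerSeries.rescale ω f)) ∧
      (∀ x, v (al x - x) ≤ d * v x) ∧ d ^ 2 = v (algebraMap _ _ (PowerSeries.C (3 : O)))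

/-- (GPP) the Gauss lemma for power series, depleted case. `x = P/Q`, `g = G/c`, `W₀ = Q θP - P θQ`, `P₁ = P(ω q)` and so on.

Uses RSC, GVP. PROOF. As `Sg_GP` (`Pool/Agent/MUX/N_GP.lean`). `E` the fraction field, `X = P/Q`, `g = G/C c`, `DX = W₀/Q²`, `Y = DX/(2 g)`. The first equation (divided by `4 Q⁴ G²`) is `Y² = X³ + a2 X² + a4 X`. `D` commutes with `al` on power series, so `al Y = al(DX)/(2 al g)`, `al (DX) = W₁/Q₁²`, `W₁ = rescale ω W₀`. The second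
equation divided by `4 Q⁵ Q₁⁵ Q₂ G² G₁²` is the collinearity: `X + al X + al² X + a2 = (P Q₁ Q₂ + P₁ Q Q₂ + P₂ Q Q₁ + a2 Q Q₁ Q₂)/(Q Q₁ Q₂)`, `Y + al Y = c (W₀ Q₁² G₁ + W₁ Q² G)/(2 Q² Q₁² G G₁)`, `N = (P² Q₁² + P P₁ Q Q₁ + P₁² Q² + a2 Q Q₁ (P Q₁ + P₁ Q) + a4 Q² Q₁²)/(Q² Q₁²)`.
`v(2) = 1`: `2` is a unit as `3` is not and `3 - 2 = 1`. GVP: `v(g)^12 ≤ v(3)`, i.e. `v(G^12) ≤ v(C (3 c^12))`. (`al (al f) = rescale ω² f`: `PowerSeries.rescale_rescale`.) If `G = 0` clear. -/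
def Sv_GPP : Prop :=
  ∀ (O : Type) [CommRing O] [IsDomain O] [IsDiscreteValuationRing O] (_ : (3 : O) ≠ 0)
    (_ : ¬ IsUnit (3 : O)) (_ : (2 : O) ≠ 0) (ω : O) (_ : ω ^ 2 + ω + 1 = 0) (a2 a4 : O)
    (_ : (3 : O) ∣ a2 ^ 2) (_ : IsUnit a4) (P Q G : PowerSeries O) (c : O) (_ : c ≠ 0)
    (W₀ : PowerSeries O) (_ : Q ≠ 0) (_ : P ≠ 0) (_ : W₀ ≠ 0)
    (_ : W₀ = Q * (PowerSeries.mk fun n => (n : O) * PowerSeries.coeff n P) -
      P * (PowerSeries.mk fun n => (n : O) * PowerSeries.coeff n Q))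
    (_ : PowerSeries.C c ^ 2 * W₀ ^ 2 =
      Q * (4 * P ^ 3 + 4 * PowerSeries.C a2 * P ^ 2 * Q + 4 * PowerSeries.C a4 * P * Q ^ 2) * G ^ 2)
    (P₁ Q₁ G₁ W₁ P₂ Q₂ : PowerSeries O) (_ : P₁ = PowerSeries.rescale ω P)
    (_ : Q₁ = PowerSeries.rescale ω Q) (_ : G₁ = PowerSeries.rescale ω G)
    (_ : W₁ = PowerSeries.rescale ω W₀) (_ : P₂ = PowerSeries.rescale (ω ^ 2) P)
    (_ : Q₂ = PowerSeries.rescale (ω ^ 2) Q)
    (_ : PowerSeries.C c ^ 2 * (P * Q₁ * Q₂ + P₁ * Q * Q₂ + P₂ * Q * Q₁ +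
        PowerSeries.C a2 * Q * Q₁ * Q₂) * (W₀ * Q₁ ^ 2 * G₁ + W₁ * Q ^ 2 * G) ^ 2 =
      4 * Q * Q₁ * Q₂ * G ^ 2 * G₁ ^ 2 * (P ^ 2 * Q₁ ^ 2 + P * P₁ * Q * Q₁ + P₁ ^ 2 * Q ^ 2 +
        PowerSeries.C a2 * Q * Q₁ * (P * Q₁ + P₁ * Q) + PowerSeries.C a4 * Q ^ 2 * Q₁ ^ 2) ^ 2),
    PowerSeries.C (3 * c ^ 12) ∣ G ^ 12

/-- (BNP) as `bin_leg` (`Pool/Agent/NS/G_Bin.lean`), for a depleted series.

Uses St_WQ, Sg_DV, ODU, COL, GPP. PROOF. As `bin_leg` (same lines, `K`, `O = V.comap K.subtype`, `A`, `B`, `lft`). WQ gives `S`, `A S = B` with `OdeS (-(1 + lam)) lam z S` (`a6 = 0`: `0 • S^3 = 0`); by COL and ODU `ColS ω (-(1 + lam)) lam z S`. Multiply `ColS` by the right powers of `A`, `A₁ = rescale ω A`, `A₂` (`P = A`, `Q = B`,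
`θS = (A θB - B θA)/A² = - W₀/A²`, `W₀ = B θA - A θB`; `C c θz = G`) to get the last equation of GPP for the series over `O` (map to `ℂ⟦q⟧` is injective and commutes with `rescale`: `ω ∈ K ∩ V`). GPP: `3 c^12 ∣ G^12`; `coeff 0 G = 0`, so `coeff 12 (G^12) = (coeff 1 G)^12 = (c z_1)^12`, and it is `3 c^12` times an element of `V`.
`v(a2)² ≤ v 3` means `3 ∣ a2²` in `O`. `3 ∈ V.nonunits`: `3` is not a unit of `O`. -/
def Sv_BNP : Prop :=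
  ∀ (K : Subfield ℂ) [NumberField K] (V : ValuationSubring ℂ) (_ : V.valuation (3 : ℂ) < 1)
    (N : ℕ) (_ : 0 < N) (_ : Complex.exp (2 * Real.pi * Complex.I / N) ∈ K) (ω : ℂ) (_ : ω ∈ K)
    (_ : IsPrimitiveRoot ω 3) (L : PeriodPair) (e lam : ℂ)
    (_ : ∀ z ∉ L.lattice, L.derivWeierstrassP z ^ 2 / 4 =
      (L.weierstrassP z - e) * (L.weierstrassP z - e - 1) * (L.weierstrassP z - e - lam))
    (_ : lam ∈ K) (_ : V.valuation lam = 1) (_ : V.valuation (1 + lam) ^ 2 ≤ V.valuation (3 : ℂ))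
    (Z : ℍ → ℂ) (z : PowerSeries ℂ) (_ : QS Z z) (_ : ∀ n, PowerSeries.coeff n z ∈ K)
    (_ : ∀ n, 3 ∣ n → PowerSeries.coeff n z = 0)
    (_ : ∃ c ∈ K, c ≠ 0 ∧ c ∈ V ∧ ∀ n : ℕ, c * (n * PowerSeries.coeff n z) ∈ V)
    (_ : ∀ γ : SL(2, ℤ), ∃ (C : ℂ) (w : ℕ → ℂ), ∀ τ : ℍ, HasSum (fun n : ℕ => w n *
      Complex.exp (2 * Real.pi * Complex.I * (τ : ℂ) / N) ^ (n + 1)) (Z (γ • τ) - C))
    (_ : ∀ γ ∈ CongruenceSubgroup.Gamma1 N, ∀ τ : ℍ, Z (γ • τ) - Z τ ∈ L.lattice),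
    V.valuation (PowerSeries.coeff 1 z) ^ 12 ≤ V.valuation (3 : ℂ)

/-- (GJP) as `Sn_GJ` (`NS/StGN.lean`, proof `tn_GJ` in `G_Gj.lean`), depleted.

Uses BNP, Sg_RET, Sg_NFE. PROOF. `tn_GJ` with `p = 3`, `ω = exp(2πi/3)` added to the field `K`, and BNP in place of `bin_leg` at the end. The hypothesis `coeff n z = 0` for `3 ∣ n`: `Z τ + Z (τ + 1/3) + Z (τ + 2/3) = 0` (hypothesis on the `Θ j`), whose power series is `3 Σ_(3 ∣ n) z_n q^n`; uniqueness (`St_QA`, `t_QA`). At the end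
`z_1 = emb t Σ y' α₁`, `v(emb t) = 1`. -/
def Sv_GJP : Prop :=
  ∀ (A B : ℤ) (_ : CQ A B) (J : Type) [Fintype J] (Ψ : J → OnePoint ℚ → OnePoint ℚ → ℂ)
    (Θ : J → ℂ → ℂ) (α₁ : J → ℂ) (om : ℂ) (N' : ℕ) (_ : GDatN A B J Ψ Θ α₁ om N')
    (_ : ∀ j, ∀ τ : ℂ, 0 < τ.im → Θ j τ + Θ j (τ + 1 / 3) + Θ j (τ + 2 / 3) = 0)
    (V : ValuationSubring ℂ) (_ : V.valuation (3 : ℂ) < 1) (_ : LocN A B V) (L' : PeriodPair)
    (e lam : ℂ) (_ : LegN A B V L' om e lam) (_ : V.valuation (1 + lam) ^ 2 ≤ V.valuation (3 : ℂ))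
    (r : ℕ) (h : Fin r → SL(2, ℤ)) (_ : ∀ i, h i ∈ CongruenceSubgroup.Gamma1 N')
    (_ : ∀ (ρ : SL(2, ℤ) → ℂ) (_ : ∀ g ∈ CongruenceSubgroup.Gamma1 N',
        ∀ g' ∈ CongruenceSubgroup.Gamma1 N', ρ (g * g') = ρ g + ρ g') (M : AddSubgroup ℂ)
      (_ : ∀ i, ρ (h i) ∈ M), ∀ g ∈ CongruenceSubgroup.Gamma1 N', ρ g ∈ M)
    (w : Fin r → ℂ) (_ : ∀ i, w i ∈ kk A B ∧ w i ∈ V) (y : J → ℂ)
    (_ : ∀ l', ∑ c : J, y c * (Ψ c ∞
      (mob (h l' 0 0) (h l' 0 1) (h l' 1 0) (h l' 1 1) ∞) / om) = w l'),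
    ∃ y' : J → ℂ, (∀ l', ∑ c : J, y' c * (Ψ c ∞
      (mob (h l' 0 0) (h l' 0 1) (h l' 1 0) (h l' 1 1) ∞) / om) = w l') ∧
      V.valuation (∑ c : J, y' c * α₁ c) ^ 12 ≤ V.valuation (3 : ℂ)

/-- (GTP) THEOREM G+.

Uses GJP, Sg_DSC, Sg_ZL, Sg_FK, Sg_FGG. PROOF. `tn_GTH` (`NS/G_Gth.lean`) with two changes: by contradiction all closed values are in `V` (not only in `V.nonunits`), so `x l' ∈ V`, and the `β_j = Σ y' α₁` have `v(β_j)^12 ≤ v 3`: `Σ_j kk_j α₁ j = Σ_j x_j β_j` has `v(..)^12 ≤ v 3` (ultrametric), against the hypothesis. -/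
def Sv_GTP : Prop :=
  ∀ (A B : ℤ) (_ : CQ A B) (J : Type) [Fintype J] (Ψ : J → OnePoint ℚ → OnePoint ℚ → ℂ)
    (Θ : J → ℂ → ℂ) (α₁ : J → ℂ) (om : ℂ) (N' : ℕ) (_ : GDatN A B J Ψ Θ α₁ om N')
    (_ : ∀ j, ∀ τ : ℂ, 0 < τ.im → Θ j τ + Θ j (τ + 1 / 3) + Θ j (τ + 2 / 3) = 0)
    (V : ValuationSubring ℂ) (_ : V.valuation (3 : ℂ) < 1) (_ : LocN A B V) (L' : PeriodPair)
    (e lam : ℂ) (_ : LegN A B V L' om e lam) (_ : V.valuation (1 + lam) ^ 2 ≤ V.valuation (3 : ℂ))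
    (kk : J → ℂ) (_ : V.valuation (3 : ℂ) < V.valuation (∑ j, kk j * α₁ j) ^ 12),
    ∃ a b c d : ℤ, a * d - b * c = 1 ∧ (N' : ℤ) ∣ c ∧ (N' : ℤ) ∣ d - 1 ∧
      1 < V.valuation ((∑ j, kk j * Ψ j ∞ (mob a b c d ∞)) / om)

/-! ## The lattice, units, denominators -/

/-- (UNR) units. MODEL: `NS/G_Unn.lean` (`unit_I`), with `CaseR`: `5 ≤ |D|`, since `3 ∣ D`, `D ≠ -3`. The same conclusion. Also the existence of the units part is all that is used by `gdat` (`NS/G_Gdn.lean`). -/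
def Sv_UNR : Prop :=
  ∀ (A B : ℤ), CaseR A B → (∀ x : OO A B, nm x = 1 → x = 1 ∨ x = -1) ∧
    ∀ (b : Ideal (OO A B)) (_ : b ≠ ⊥) (x : OO A B), x ∈ b → nm x = MUX.nI b → b = MUX.sp x

/-- (LCR) common denominators. MODEL: `Sg_LOC` (`tg_LOC` in `Pool/Agent/MUX/N_LOC.lean`, gives `t ∉ P`) and `loc_I` (`NS/G_Lcn.lean`).

PROOF. `Sg_LOC` for `l = 3`; `v(emb t) = 1`: `emb t ∉ V.nonunits` (`OverI`) and `v(emb t) ≤ 1` (integral). -/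
def Sv_LCR : Prop :=
  ∀ (A B : ℤ) (_ : CQ A B) (P : Ideal (OO A B)) (_ : IsPN 3 P) (V : ValuationSubring ℂ)
    (_ : OverI V P), LocN A B V

/-- (LGR) the lattice `u L_(i0)` in Legendre form, and algebraicity. MODEL: `cub`, `leg_alg`, `legN` of `NS/G_Leg.lean` (with `GoodR` instead of `GoodN`; `v(1 + lam)² ≤ v 3 < 1` gives `v(1 + lam) < 1`). `Su_SCX` is `Pool.Agent.MUXU.u_SCX`. -/
def Sv_LGR : Prop :=
  ∀ (A B : ℤ) (_ : CQ A B) (_ : TorX A B) (n : ℕ) (ι : Type) (R : Reps A B n ι)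
    (V : ValuationSubring ℂ) (_ : V.valuation (3 : ℂ) < 1) (u e lam : ℂ)
    (_ : GoodR V (R.L R.i0) u e lam),
    (IsAlgebraic ℚ u ∧ IsAlgebraic ℚ e ∧ IsAlgebraic ℚ lam) ∧
    ∃ (L' : PeriodPair), LegN A B V L' (u * R.om R.i0) (e / u ^ 2) lam

/-! ## The exponents of the theta series modulo 3 -/

/-- (QB3) the exponents modulo 3.

PROOF. `e x ≠ 0` gives `IsCoprime (sp x) (idl (3 f))`, so `x ∉ P` (`3 f ∈ P`; `P` is prime, `≠ ⊤`). `O/P` has 3 elements represented by `0, 1, -1` (`IsPN`), so `x - a ∈ P` with `a = ± 1`. `nm x - 1 = nm x - a²`; `x = a + p`, `nm x = a² + a tr p + nm p` with `tr p = p.re*2 + B p.im`, and `p ∈ P` implies `nm p, tr p ∈ P ∩ ℤ = 3 ℤ`: `nm p = p star p ∈ P`;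
`tr p = p + star p` and `star p ∈ P`, because `P` is the only prime above `3`: `3 ∣ D`: `(2 p - tr p)² = (p - star p)² = D p.im² ∈ 3 O ⊆ P`, so `p - star p ∈ P` and `star p ∈ P`. So `3 ∣ nm x - 1`. `nm x = nI b * qb b x` (`xf_QB`, or exact division: `Sx_QB`), `N = nI b` is prime to `3`: `qb b x ≡ N⁻¹ ≡ N` modulo `3`. -/
def Sv_QB3 : Prop :=
  ∀ (A B : ℤ) (P : Ideal (OO A B)) (V : ValuationSubring ℂ) (f : ℕ), SetR A B P V f →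
    ∀ e : OO A B → ℂ, IsEI (idl (A := A) (B := B) (3 * f)) e →
    ∀ b : Ideal (OO A B), b ≠ ⊥ → (nI b).Coprime (3 * f) → ∀ x ∈ b, e x ≠ 0 →
      (3 : ℤ) ∣ nm x - 1 ∧ (3 : ℤ) ∣ qb b x - nI b ∧ ¬ (3 : ℤ) ∣ qb b x

/-- (TYI) the type `i ≤ 1` of `e`. `w = wP P`.

PROOF. (1) `x ≡ 1` modulo `f` and modulo `P`: `x³ ≡ 1` modulo `f`, and `x³ - 1 = (x - 1)³ + 3 x (x - 1)`, `(x - 1)³ ∈ P³ ⊆ P² = (3)` (`(x - 1)² ∈ 3 O` for `x - 1 ∈ P`: in QB3 `p - star p ∈ P`..; or: `CaseR`, `IsPN 3 P`: `P² = (3)`, look at `CR_*`-type lemmas or do it by hand: `P = {x : 3 ∣ nm x}`). So `x³ ≡ 1` modulo `3 f`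
(`f` prime to `3`): `e(x)³ = 1`, and `e x ≠ 0` (`x` is prime to `3 f`: `x³ - 1 ∈ idl (3 f)`), `e(x)^r = 1`, `r` prime to `3`: `e x = 1`. (2) `y` an integer, `y ≡ 1` modulo `f`, `y ≡ -1` modulo `3`: `y² ≡ 1` modulo `3 f`, so `e(y) = ±1`; `i = 0` if `e y = 1`, `i = 1` otherwise. (3) `x ≡ 1` modulo `f`, `x ∉ P`: `x ≡ ±1` modulo `P`
(`O/P` has three elements, as in QB3). If `x ≡ 1`: (1), and `w x = 1`. If `x ≡ -1`: `x y ≡ 1` modulo `f` and `P`, so `e x e y = 1`, `e x = e y = (-1)^i`, `w x = -1` (`1 ≢ -1` modulo `P`). -/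
def Sv_TYI : Prop :=
  ∀ (A B : ℤ) (P : Ideal (OO A B)) (V : ValuationSubring ℂ) (f : ℕ), SetR A B P V f →
    ∀ e : OO A B → ℂ, IsEI (idl (A := A) (B := B) (3 * f)) e → ∀ r : ℕ, ¬ 3 ∣ r →
    (∀ x, e x ≠ 0 → e x ^ r = 1) →
    ∃ i : ℕ, i ≤ 1 ∧ ∀ x, x - 1 ∈ idl (A := A) (B := B) f → x ∉ P →
      e x = ((wP P x : ℤ) : ℂ) ^ i

/-- (SH3) the symbol under `x ↦ x + k/3`.

PROOF. `twist`-type lemma in `Pool/Agent/MUX/F_PRJ.lean` (`twist`, `twistI`: translation of `thetaI`, `IvI` by a rational number, term by term): `thetaI b e (z + k/3) = Σ .. exp (2πi n (z + k/3))`, `n = qb b x`, `exp (2πi n k/3) = ex (t k/3)` as `n ≡ t` modulo `3`. So `IvI b e (r + k/3) = ex (t k/3) IvI b e r`, `PhiI b e ∞ r = -IvI b e r`.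
The primitive: `thetaIntI` in the same way (for `3 ∤ t` this gives the depletion: `1 + ex(t/3) + ex(2t/3) = 0`). -/
def Sv_SH3 : Prop :=
  ∀ (A B : ℤ) (_ : CQ A B) (b g : Ideal (OO A B)) (e : OO A B → ℂ) (_ : b ≠ ⊥) (_ : g ≠ ⊥)
    (_ : IsEI g e) (t : ℤ) (_ : ∀ x ∈ b, e x ≠ 0 → (3 : ℤ) ∣ qb b x - t),
    (∀ (r : ℚ) (k : ℤ), PhiI b e ∞ ((r + k / 3 : ℚ) : OnePoint ℚ) =
      Complex.exp (2 * Real.pi * Complex.I * (t * k / 3)) * PhiI b e ∞ (r : OnePoint ℚ)) ∧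
    ∀ τ : ℂ, 0 < τ.im → ∀ k : ℤ, thetaIntI b e (τ + k / 3) =
      Complex.exp (2 * Real.pi * Complex.I * (t * k / 3)) * thetaIntI b e τ

/-! ## The projector -/

/-- (PHR) the function `φ` modulo `D' = |D|/3`.

PROOF. `Sx_PHX` (`xf_PHX`) gives `φ₀` of period `|D|` (`CQ` of `MUXF`: `MUXY.cqF`, `eiF`). `3 D' = |D|`, `3 ∤ D'` (`B = 1`: `D` squarefree; `B = 0`: `|D| = 4 |A|`, `A` squarefree). For `n` let `n'` be an integer with `n' ≡ n` modulo `D'`, `n' ≡ 1` modulo `3` (CRT: `n' = n + D' j`, `j` with `D' j ≡ 1 - n` modulo 3), `φ n := φ₀ n'`; well defined (`φ₀` has period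
`3 D'`), period `D'`. If `n = qb b x ≡ 1` modulo `3` then `φ n = φ₀ n = 1`; if `n ≡ -1` then `-n ≡ 1` and `φ(-n) = φ₀(-n) = 0`. -/
def Sv_PHR : Prop :=
  ∀ A B : ℤ, CaseR A B → ∃ (D' : ℕ) (φ : ℤ → ℂ), (3 * D' : ℤ) = absD A B ∧ ¬ 3 ∣ D' ∧ D' ≠ 0 ∧
    (∀ n, φ n = 0 ∨ φ n = 1) ∧ (∀ n, φ (n + D') = φ n) ∧
    ∀ (b g : Ideal (OO A B)) (e : OO A B → ℂ), b ≠ ⊥ → IsEI g e →
      g ≤ sp ((absD A B : ℤ) : OO A B) → ∀ x ∈ b, e x ≠ 0 →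
      ((3 : ℤ) ∣ qb b x - 1 → φ (qb b x) = 1) ∧ ((3 : ℤ) ∣ qb b x + 1 → φ (-qb b x) = 0)

/-- (TWR) the two halves of the projector. MODEL: `Pool/Agent/MUX/F_PRJ.lean` (`tx_PRJ`, its lemmas `inv`, `twistI`, `mob1`, `mob2`, `mob3`).

PROOF. `Σ_a c_a ex (a k/q) = φ k` (`inv`). (1) `Σ_a c_a IvI (r + a/q) = IvI r` (coefficients `φ (qb b x) = 1`). (2) `Σ_a c_a IvI (-(r + a/q)) = 0` (coefficients `φ (-qb b x) = 0`). At infinity everything is `0`. -/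
def Sv_TWR : Prop :=
  ∀ (A B : ℤ), CQ A B → ∀ (b g : Ideal (OO A B)) (e : OO A B → ℂ), b ≠ ⊥ → g ≠ ⊥ → IsEI g e →
    ∀ (q : ℕ) (φ : ℤ → ℂ), q ≠ 0 → (∀ n, φ (n + q) = φ n) →
    ((∀ x ∈ b, e x ≠ 0 → φ (qb b x) = 1) → ∀ x y : OnePoint ℚ,
      ∑ a ∈ Finset.range q, ((1 / q) * ∑ n ∈ Finset.range q, φ n *
        Complex.exp (2 * Real.pi * Complex.I * (-(a * n) / q))) *
        PhiI b e (mob q a 0 q x) (mob q a 0 q y) = PhiI b e x y) ∧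
    ((∀ x ∈ b, e x ≠ 0 → φ (-qb b x) = 0) → ∀ x y : OnePoint ℚ,
      ∑ a ∈ Finset.range q, ((1 / q) * ∑ n ∈ Finset.range q, φ n *
        Complex.exp (2 * Real.pi * Complex.I * (-(a * n) / q))) *
        PhiI b e (mob (-1) 0 0 1 (mob q a 0 q x)) (mob (-1) 0 0 1 (mob q a 0 q y)) = 0)

/-- (PJR) the projector for `PR`.

Uses PHR, TWR, QB3. PROOF. `q = D'`, `c_a = (1/q) Σ_n φ n exp(..)`, `v(c_a) ≤ 1` (`3 ∤ q`, so `v q = 1`; roots of unity). `g = idl (3 f) ≤ sp |D|`: `2 |D| ∣ 3 f·..` (`SetR.fD`). For `i` with `N b_i ≡ 1`: `qb ≡ 1` (QB3), TWR (1); for the others (`N b_i ≡ 2 ≡ -1`, as `N b_i` is prime to `3`) TWR (2). `PhiK` is the sum over `i`. -/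
def Sv_PJR : Prop :=
  ∀ (A B : ℤ) (P : Ideal (OO A B)) (V : ValuationSubring ℂ) (f : ℕ), SetR A B P V f →
    ∀ (ι : Type) [Fintype ι] (R : Reps A B (3 * f) ι) (e : OO A B → ℂ),
    IsEI (idl (A := A) (B := B) (3 * f)) e → ∀ (kk : ι → ℂ) (u : ℂ),
    ∃ (q : ℕ) (c : ℕ → ℂ), q ≠ 0 ∧ (∀ t, V.valuation (c t) ≤ 1) ∧ ∀ x y : OnePoint ℚ,
      ∑ t ∈ Finset.range q, c t * PR R e kk u (mob q t 0 q x) (mob q t 0 q y) =
        PhiK R e (kkp R kk) x y / (u * R.om R.i0)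

/-- (RLR) the relation `P ∞ (x + 1/3) = om P ∞ x`.

Uses QB3, SH3. PROOF. `om = exp(2πi/3)`. `PhiI (b_i) e ∞ (r + 1/3) = exp(2πi N/3) PhiI ∞ r`, `N = nI b_i ≡ 1` for the first part; for the second `mob (-1) 0 0 1 (r + 1/3) = -r - 1/3`, factor `exp(-2πi N/3)`, `N ≡ 2`: `exp(-4πi/3) = exp(2πi/3)`. -/
def Sv_RLR : Prop :=
  ∀ (A B : ℤ) (P : Ideal (OO A B)) (V : ValuationSubring ℂ) (f : ℕ), SetR A B P V f →
    ∀ (ι : Type) [Fintype ι] (R : Reps A B (3 * f) ι) (e : OO A B → ℂ),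
    IsEI (idl (A := A) (B := B) (3 * f)) e → ∀ (kk : ι → ℂ) (u : ℂ) (x : ℚ),
      PR R e kk u ∞ ((x + 1 / 3 : ℚ) : OnePoint ℚ) =
        Complex.exp (2 * Real.pi * Complex.I / 3) * PR R e kk u ∞ (x : OnePoint ℚ)

/-- (GPR) Theorem G+ for `PT (PhiK R e kk/(u om_(i0)))`.

Uses GTP, QB3, SH3, UNR, LCR, LGR and the hypotheses of `gdat` (`NS/G_Gdn.lean`). PROOF. As `gPT` (`NS/G_Gpt.lean`): index set `ι × EC e × Fin 27`, `PsT`, `ThT`, `a1T`; weights `kk_i` at `t = 0`, `-kk_i` at `t = 1`. `Σ w α₁ = kk_(i0) (1 - ζ_27)`, `v(1 - ζ_27)^18 = v 3`, `v(kk_(i0)) = 1`: `v(..)^12 > v 3` (`θ = v 3 < 1`, `x^18 = θ`, so `x^12 > θ`).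
Depletion: `ThT (τ) + ThT (τ + 1/3) + ThT (τ + 2/3) = 0` by SH3 with `t = nI b_i`, `3 ∤ nI b_i` (every `e' ∈ EC e` satisfies `IsEI` with the same zeros). -/
def Sv_GPR : Prop :=
  ∀ (A B : ℤ) (P : Ideal (OO A B)) (V : ValuationSubring ℂ) (f : ℕ), SetR A B P V f →
    TorX A B → ∀ (ι : Type) [Fintype ι] (R : Reps A B (3 * f) ι) (u el lam : ℂ),
    GoodR V (R.L R.i0) u el lam → ∀ e : OO A B → ℂ, IsEI (idl (A := A) (B := B) (3 * f)) e →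
    ∀ r : ℕ, r ≠ 0 → (∀ x, e x ≠ 0 → e x ^ r = 1) → ∀ kk : ι → ℂ, V.valuation (kk R.i0) = 1 →
    ∀ N' : ℕ, N' ≠ 0 → absD A B * ((3 * f : ℕ) : ℤ) ^ 2 ∣ (N' : ℤ) →
    ∃ a b c d : ℤ, a * d - b * c = 1 ∧ (N' : ℤ) ∣ c ∧ (N' : ℤ) ∣ d - 1 ∧
      1 < V.valuation (MUXHN.PT (fun x y => PhiK R e kk x y / (u * R.om R.i0)) ∞
        (mob a b c d ∞))

/-- (GQR) Theorem G+ for `PT (PR ..)`.

Uses GPR, PJR. MODEL: `Pool/Agent/MUX/HN_H1N.lean`. PROOF. `q`, `c` from PJR, `h` from GPR for `kkp R kk` (`kkp R kk i0 = kk i0`: `nI ⊤ = 1`) and the level `N' q²`. `T_t = mob q t 0 q`, `τ = mob 27 1 0 27` commute: `PT (PhiK kkp/..) ∞ (h ∞) = Σ_t c_t PT (PR ..) ∞ (h_t ∞)`, `h_t = T_t h T_t⁻¹ ∈ Γ₁(N')` integral. If all terms had `v ≤ 1` then so would the sum. -/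
def Sv_GQR : Prop :=
  ∀ (A B : ℤ) (P : Ideal (OO A B)) (V : ValuationSubring ℂ) (f : ℕ), SetR A B P V f →
    TorX A B → ∀ (ι : Type) [Fintype ι] (R : Reps A B (3 * f) ι) (u el lam : ℂ),
    GoodR V (R.L R.i0) u el lam → ∀ e : OO A B → ℂ, IsEI (idl (A := A) (B := B) (3 * f)) e →
    ∀ r : ℕ, r ≠ 0 → (∀ x, e x ≠ 0 → e x ^ r = 1) → ∀ kk : ι → ℂ, V.valuation (kk R.i0) = 1 →
    ∀ N' : ℕ, N' ≠ 0 → absD A B * ((3 * f : ℕ) : ℤ) ^ 2 ∣ (N' : ℤ) →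
    ∃ a b c d : ℤ, a * d - b * c = 1 ∧ (N' : ℤ) ∣ c ∧ (N' : ℤ) ∣ d - 1 ∧
      1 < V.valuation (MUXHN.PT (PR R e kk u) ∞ (mob a b c d ∞))

end

end Pool.Agent.NSGR
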