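import Pool.Agent.NS.StTN
import Pool.Agent.NS.StRN
import Pool.Agent.NS.DefsR

/-!
# MUX-NS, block TR: TYPE in the ramified case (helper87, after helper4's `StTN.lean`)

`3 = P²`, `D ≠ -3` (`CaseR A B`), `V` above `P`. RESULT: `Sq_TYF` (`NS/DefsR.lean`). IDEA as in `StTN.lean` (inert case): `σ` in the inertia group at `V` of a large Galois extension `F / k`
fixes `RF (m')`, `m'` prime to 3, so it acts on the points of level `m = 3^(j+1) m'` of every `L_i` as `d_i c`, `c ≡ 1` modulo `m'` (ACF). `σ u = d_0 u` (SGU), `σ mu_i = d_0 d_i mu_i`, `e(c) σ(PhiK/(u om_0)) = PhiK/(u om_0)` (`Nt_SGM`, `Nt_VAL`, `Nt_VAK` of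
`StTN.lean`, which are general), `e(c) = w(c)^i`, `w = wP P`. `tau = ru L_0 u e (om_0 δ/3)`, `δ = √D = dD A B`, a point of order `P`: `σ tau = w(c) tau`, `v(tau)^4 = v 3` (TAU). On the inertia field of `F` the additive valuation has values in `(1/2) ℤ` (UNF).

Every statement is a `def Sw_X : Prop`; the module NSTR_X proves `theorem tw_X (h : ..) : Sw_X` in `Pool/Agent/NS/TR_X.lean`, namespace `Pool.Agent.NSTR` (private lemmas in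
`Pool.Agent.NSTR.X`), with the statements named under USES as hypotheses (fewer is fine). Unconditional and usable: `Pool.Agent.MU3B.b_X : St_X` (`MU3/BAll.lean`),
`Pool.Agent.MU3A.ta_SCP`, `Pool.Agent.MUXU.u_X : Su_X` (`MUX/UAll.lean`), `MUX/XLib.lean`, the lemmas of `MUX/VX.lean`, `MUX/E_RNG.lean` (`te_RNG`), and helper58's block (`NS/RN_ALL.lean`, namespace `Pool.Agent.NSR`):
`rlgf : Sr_LGF`, `rgrl : Sr_GRL`, `rtor : Sr_TOR`, `rtr3 : Sr_TR3`, .. for lattices in Legendre form (`NSR.Leg L u e lam`; `GoodR` gives `Leg`: fields `u0`, `eq`).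
-/

set_option autoImplicit false

namespace Pool.Agent.NSTR

open _root_.MU3 Pool.Agent.MU3A Pool.Agent.MU3B Pool.Agent.RI Pool.Agent.MUX Pool.Agent.MUXU
open OnePoint Pool.Agent.NS Pool.Agent.NSRD
open Pool.Agent.MUXV (GR InK)
open Pool.Agent.NSE (su ru)
open Pool.Agent.NST (KIn ActT)
open Pool.Agent.MUXY (ActN Dn)

noncomputable section

/-- (DEL) the element `δ = √D = 2 w - B` and the residues modulo `P`.

PROOF. `δ² = B² + 4 A = -3 D'` (in `O`: `w² = A + B w`), `3 ∤ D'` (`B = 1`: `B² + 4A` is squarefree; `B = 0`: `A` is squarefree and `3 ∣ A`; `CQ.sqf`). `3 ∈ P`, so `δ² ∈ P`, `δ ∈ P`. `v(emb D') = 1` (`3 ∤ D'`: `D'` is not in `P`, since `P ∩ ℤ = 3 ℤ` because `1 ∉ P`; integral), so `v(δ)² = v(δ²) = v 3 < 1`.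
For `x ∈ P`: `2 x = t + s δ` with `t = x + star x = 2 x.re + B x.im`, `s = x.im` integers. `t² = (2x - sδ)² ∈ P`.. so `t ∈ P ∩ ℤ = 3 ℤ` (`t = 2 x - s δ ∈ P`). (1) `x δ`: `2 x δ = t δ + s δ² ∈ 3 O`, so `x δ = 3 x δ - 2 x δ ∈ 3 O`. (2) `v(emb x) = v(2 x) ≤ max(v 3, v δ) = v δ` (`v 2 = 1`), so every element of `P²` has valuation
`≤ (v δ)² = v 3` (`Submodule.mul_induction_on` or `Ideal.mul_le`..), and `v 3 < v δ` (as `v(δ)² = v 3`, `0 < v δ < 1`): `δ ∉ P²`. (3) `δ = ⟨-B, 2⟩`, `3 ∤ 2`: not in `3 O`. (4) residues: `nI P = 3` is the number of elements of `O/P` (`Submodule.cardQuot`); `0, 1, -1` are different modulo `P` (`1, 2 ∉ P`); so every `c` is congruent to one of them.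
See `Pool/Agent/MUX/I_EPS3.lean` (`QI`, `wP_eq`) and `MUX/E_ONE.lean` line 281 for the same fact with `wP`. (5) `B² + 4A = -absD`. -/
def Sw_DEL : Prop :=
  ∀ (A B : ℤ) (P : Ideal (OO A B)) (V : ValuationSubring ℂ), CaseR A B → IsPN 3 P → OverI V P →
    V.valuation (3 : ℂ) < 1 ∧ V.valuation (2 : ℂ) = 1 ∧
    dD A B * dD A B = ((-absD A B : ℤ) : OO A B) ∧ 15 ≤ absD A B ∧
    dD A B ∈ P ∧ dD A B ∉ P ^ 2 ∧
    V.valuation (emb (dD A B)) ^ 2 = V.valuation (3 : ℂ) ∧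
    (∀ x ∈ P, ∃ y, x * dD A B = 3 * y) ∧ (∀ y, dD A B ≠ 3 * y) ∧
    (∀ c : OO A B, c ∉ P → (wP P c = 1 ∨ wP P c = -1) ∧ c - ((wP P c : ℤ) : OO A B) ∈ P) ∧
    (∀ x : OO A B, V.valuation (emb x) ≤ 1) ∧ ∀ n : ℕ, ¬ 3 ∣ n → V.valuation (n : ℂ) = 1

/-- (UNF) the inertia field has values in `(1/2) ℤ`. MODEL: `nt_UNF` (`NS/T_UNF.lean`, lemmas `UNF.inertia_lt`, `val_card`, `card_fixed` are public and general).

USES DEL. PROOF. As there: `w` = the prime of `𝓞 F`, `v` = the prime `w ∩ 𝓞 k` of `𝓞 k` (`val_card`), `e` the order of the inertia group. New: `x ∈ v.asIdeal` iff `x = emb z`, `z ∈ P` (`te_RNG`, field `int`; `OverI`). `δ' = ek δ ∈ 𝓞 k`. `v.valuation δ' ≥ exp (-1)`, because `δ' ∉ v.asIdeal²` (`δ ∉ P²`: the isomorphism `O ≅ 𝓞 k` maps `P` to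
`v.asIdeal`; `v.intValuation_le_pow_iff_mem` or similar). `3 D' = -δ²`, `v.valuation (D') ≤ 1`, so `v.valuation 3 ≥ v.valuation (3 D') = v.valuation(δ')² ≥ exp (-2)`; `w.valuation F 3 = (v.valuation 3)^e ≥ exp(-2)^e`. For `y` in the inertia field, `v y < 1`: `w.valuation F y = (v₁.valuation K₁ y)^e ≤ exp(-1)^e`, so
`w.valuation F (y²) ≤ exp(-2)^e ≤ w.valuation F 3`, `w.valuation F (y²/3) ≤ 1`, `v(y²/3) ≤ 1` (`ord_le`). -/
def Sw_UNF : Prop :=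
  ∀ (A B : ℤ) (P : Ideal (OO A B)) (V : ValuationSubring ℂ), CaseR A B → IsPN 3 P → OverI V P →
    ∀ (F : IntermediateField (kk A B) ℂ) [FiniteDimensional (kk A B) F] [IsGalois (kk A B) F],
    ∀ w ∈ KIn A B V F, V.valuation w < 1 → V.valuation w ^ 2 ≤ V.valuation (3 : ℂ)

/-- (ALT) algebraicity. MODEL: `nt_ALT` (`NS/T_ALT.lean`).

USES nothing new. PROOF. `GoodR` gives `NSR.Leg`. `w₁` with `℘ w₁ = e` from `rlgf` (`Sr_LGF`); `w₂` with `℘ w₂ = e + u²`: `℘` takes every value (`b_SUR`), then `℘' w₂ = 0` (`GoodR.eq`: `x w₂ = 1`), `2 w₂ ∈ L` (`b_ZER`). The rest as in the model (`lam = -3 e/u² - 1` by `Sr_LGF`). -/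
def Sw_ALT : Prop :=
  ∀ (A B : ℤ), CQ A B → TorX A B → ∀ (V : ValuationSubring ℂ), V.valuation (3 : ℂ) < 1 →
    ∀ (b : Ideal (OO A B)) (L : PeriodPair) (om : ℂ), IsNL b L om →
    ∀ u e lam : ℂ, GoodR V L u e lam →
      u ^ 2 ∈ RF (idl (A := A) (B := B) 2) ∧ e ∈ RF (idl (A := A) (B := B) 2) ∧
      lam ∈ RF (idl (A := A) (B := B) 2) ∧ IsAlgebraic ℚ u ∧
      ∀ N : ℕ, N ≠ 0 → ∀ z, z ∉ L.lattice → (N : ℂ) * z ∈ L.lattice →
        IsAlgebraic ℚ (xu L u e z) ∧ IsAlgebraic ℚ (yu L u z) ∧ IsAlgebraic ℚ (ru L u e z)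

/-- (ACF) the number `c` and the signs `d_i`, for `σ` trivial on `RF (idl m')`. MODEL: `nt_ACI` (`NS/T_ACI.lean`): the same proof without its first step.

USES Sy_MUU, Sy_BRI. -/
def Sw_ACF : Prop :=
  ∀ (A B : ℤ), CQ A B → TorX A B → ∀ (n : ℕ) (ι : Type) (R : Reps A B n ι) (m m' : ℕ), m ≠ 0 →
    m' ∣ m → ∀ σ : ℂ ≃+* ℂ, FixK A B σ → (∀ y ∈ RF (idl (A := A) (B := B) m'), σ y = y) →
    ∃ (c : OO A B) (d : ι → ℤ), c - 1 ∈ idl (A := A) (B := B) m' ∧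
      IsCoprime (sp c) (idl (A := A) (B := B) m) ∧ ActT R m σ c d

/-- (VSR) the points of order `P` (the canonical subgroup).

USES DEL, ALT, ACF, Sr_UNR (`NSR.runr`), Sr_RAM, Sr_ALR (`tr_ALR`), Su_AUF. PROOF. `L = R.L R.i0`. (a) `℘ Y ∈ RF (idl 2)`: AUF (`RF (idl 2)` is finite over `k`, so algebraic over `ℚ`); let `σ` fix `RF (idl 2)`, in particular `FixK`. (ACF) with `m' = 2`, `m = 6`: `c - 1 ∈ idl 2`; `c ∉ P` (`6 ∈ P`, `sp c ⊔ idl 6 = ⊤`). By (DEL) `c - s ∈ P`, `s = wP P c = ±1`,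
so `emb c Y - s Y ∈ L`. `ActN.act` for `z = Y` (`6 Y ∈ L` as `6 ∈ P`): `σ(℘ Y) = ℘(d emb c Y) = ℘(± Y) = ℘ Y`. (b) `x = xu L u e Y ∈ RF (idl 2)` (ALT). (c) every `y ∈ RF (idl 2)`, `y ≠ 0`, has `v y = v(δ)^k`, `k ∈ ℤ`: (RAM) with `ϖ = δ`, `F = RF (idl 2)`, and (UNR) with `f = 2` (an automorphism of `F / k` extends to `ℂ`, see `RN_VAL3.lean`).
(d) `3 Y ∈ L`: `ψ(x) = 3x⁴ - 4(1+lam)x³ + 6lam x² - lam² = 0` (`rtr3`). `θ = v 3`, `a = v x`. `v(1 + lam)² ≤ θ`, `v lam = 1`, `v 2 = 1`. If `a ≤ 1` the first three terms have valuation `< 1` and `v(lam²) = 1`: contradiction. So `a > 1`, `a = v(δ)^k`, `k ≤ -1` (`v δ < 1`), `a² = θ^k ≥ θ⁻¹`: `1 ≤ a² θ`. If `1 < a² θ`: `v(3x⁴) = θ a⁴`,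
`v(4(1+lam)x³)² ≤ θ a⁶ < (θ a⁴)²`, `v(6 lam x²) = θ a² < θ a⁴`, `1 < a² θ ≤ θ a⁴`: the first term dominates, contradiction. So `a² θ = 1`. Last: `ru = -y/x²`, `y² = x (x-1)(x-lam)`, `v(y)² = a³` (`a > 1`), `v(ru)² = a⁻¹`. -/
def Sw_VSR : Prop :=
  ∀ (A B : ℤ) (P : Ideal (OO A B)) (V : ValuationSubring ℂ), CaseR A B → IsPN 3 P → OverI V P →
    TorX A B → ∀ (n : ℕ) (ι : Type) (R : Reps A B n ι) (u e lam : ℂ),
    GoodR V (R.L R.i0) u e lam → ∀ Y, Y ∉ (R.L R.i0).lattice →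
    (∀ x ∈ P, emb x * Y ∈ (R.L R.i0).lattice) →
      V.valuation (xu (R.L R.i0) u e Y) ^ 2 * V.valuation (3 : ℂ) = 1 ∧
      V.valuation (ru (R.L R.i0) u e Y) ^ 4 = V.valuation (3 : ℂ)

/-- (SGU) the sign `d_0`. MODEL: `nt_SGU` (`NS/T_SGU.lean`).

USES DEL. PROOF. As there. Good reduction: `rgrl` (`Sr_GRL`) gives `ξ` and `GR`; `z = om/m'` and `2 z` are not in the kernel of reduction: `Pool.Agent.MUXV.mem_of_nat_mul` with `v(m') = 1` (`3 ∤ m'`, DEL). `f ≥ 10` (`2 absD ∣ 3 f`, `absD ≥ 15`). -/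
def Sw_SGU : Prop :=
  ∀ (A B : ℤ) (P : Ideal (OO A B)) (V : ValuationSubring ℂ) (f : ℕ), SetR A B P V f →
    ∀ (ι : Type) (R : Reps A B (3 * f) ι) (u e lam : ℂ), GoodR V (R.L R.i0) u e lam →
    ∀ (j m' : ℕ), m' ≠ 0 → ¬ 3 ∣ m' → f ∣ m' → ∀ (σ : ℂ ≃+* ℂ) (c : OO A B) (d : ι → ℤ),
    c - 1 ∈ idl (A := A) (B := B) m' → ActT R (3 ^ (j + 1) * m') σ c d → σ (u ^ 2) = u ^ 2 →
    (V.valuation (yu (R.L R.i0) u (R.om R.i0 / m')) ≤ 1 →
      V.valuation (σ (yu (R.L R.i0) u (R.om R.i0 / m')) -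
        yu (R.L R.i0) u (R.om R.i0 / m')) < 1) → σ u = d R.i0 * u

/-- (TAU) the number `tau`.

USES DEL, ALT, VSR, Nt_TCJ (`nt_TCJ`). PROOF. `L = R.L R.i0 = om emb O` (`R.nl`, `R.b0`), `Y = om emb δ/3`. `Y ∉ L` (`δ ∉ 3 O`); for `x ∈ P`: `x δ = 3 y`, `emb x Y = om emb y ∈ L`. `tau = ru L u e Y`. `v(tau)^4 = v 3`: (VSR). Algebraic: (ALT), `N = 3`. `σ tau = ru L u e (emb c Y)` (TCJ, `3 ∣ m`); `c - s ∈ P`, `s = wP P c = ±1` (DEL), so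
`emb c Y - s Y ∈ L`; `ru` is periodic and odd (`xu`, `yu` by `℘`, `℘'`), so `σ tau = s tau`. -/
def Sw_TAU : Prop :=
  ∀ (A B : ℤ) (P : Ideal (OO A B)) (V : ValuationSubring ℂ), CaseR A B → IsPN 3 P → OverI V P →
    TorX A B → ∀ (n : ℕ) (ι : Type) (R : Reps A B n ι) (u e lam : ℂ),
    GoodR V (R.L R.i0) u e lam →
    ∃ tau : ℂ, V.valuation tau ^ 4 = V.valuation (3 : ℂ) ∧ IsAlgebraic ℚ tau ∧
      ∀ (m : ℕ), 3 ∣ m → ∀ (σ : ℂ ≃+* ℂ) (c : OO A B) (d : ι → ℤ), ActT R m σ c d →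
        c ∉ P → σ u = d R.i0 * u → σ e = e → σ tau = ((wP P c : ℤ) : ℂ) * tau

/-- (TYF) the result is `Sq_TYF` (`NS/DefsR.lean`). MODEL: `nt_TYF` (`NS/T_TYF.lean`).

USES Sq_RFIN (its second part; `rfinr` in `NS/RN_RFINR.lean`), DEL, UNF, ALT, ACF, SGU, TAU, Nt_RTU, Nt_GLC, Nt_FGP, Nt_FGV, Nt_ALV, Nt_VAK. PROOF. As `nt_TYF`, with `r` instead of `8 r`, and two families of weights `kk`, `kk'` at the same time: two finite sets of pairs `S`, `S'` (FGP) with numbers `3^j N`, `3^j' N'`; `m' = f N N'`, level `3^(j + j' + 1) m'`; `F` contains the values of both.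
`ka l = 0` or `ka l ^ r = 1`: `σ (ka l) = ka l` by RTU (`z = 0 ∨ z^r = 1`). ALV is stated for `kk i ^ r = 1`: for the algebraicity of the values of a family with zeros, write `kk i = (α i + β i)/2` with `α i ^ (2 r) = β i ^ (2 r) = 1` (`α = β = kk i`, or `α = 1, β = -1` if `kk i = 0`) and use ALV with `2 r`. -/
def Sw_TYF : Prop := Sq_TYF

end

end Pool.Agent.NSTR
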