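import Pool.Agent.MUX.J_VEX
import Pool.Agent.MUX.StJG
import Pool.Agent.NS.DefsR

/-!
# MUX-NS (helper87): existence of `V` above a maximal ideal; existence of `P`, `V` for `3` ramified
-/

set_option autoImplicit false

open NumberField IsDedekindDomain
open scoped nonZeroDivisors Pointwise

namespace Pool.Agent.NSIR

open _root_.MU3 Pool.Agent.MU3 Pool.Agent.MU3A Pool.Agent.MU3B Pool.Agent.RI Pool.Agent.RID
  Pool.Agent.MUX Pool.Agent.MUXK Pool.Agent.MUXE Pool.Agent.MUXJ Pool.Agent.NSRD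

noncomputable section

/-- every maximal ideal of `O` is `V ∩ O` for a valuation ring `V` of `ℂ` -/
theorem vex_gen (p : ℕ) (A B : ℤ) (h : CQ A B) (P : Ideal (OO A B))
    (hp : ((p : ℕ) : OO A B) ∈ P)
    (hm : P.IsMaximal) : ∃ V : ValuationSubring ℂ, OverI V P ∧ (p : ℂ) ∈ V.nonunits := by
  let φ : OO A B →+* ℂ := RNGaux.eH h
  have hφ : ∀ x, φ x = emb x := RNGaux.eH_apply h
  have hinj : ∀ x y, φ x = φ y → x = y := by
    intro x y hxy
    rw [hφ, hφ] at hxy
    exact RNGaux.emb_inj h hxy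
  let I : Ideal φ.range := P.map φ.rangeRestrict
  have hmem : ∀ y, y ∈ I ↔ ∃ x ∈ P, φ.rangeRestrict x = y := fun y =>
    Ideal.mem_map_iff_of_surjective _ φ.rangeRestrict_surjective
  have hI : I ≠ ⊤ := by
    intro hI
    have h1 : (1 : φ.range) ∈ I := by rw [hI]; trivial
    obtain ⟨x, hx, hx1⟩ := (hmem _).1 h1
    have h2 : φ x = φ 1 := by
      have := congrArg Subtype.val hx1
      rw [map_one]
      simpa using this
    rw [hinj _ _ h2] at hx
    exact hm.ne_top ((Ideal.eq_top_iff_one P).2 hx)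
  obtain ⟨V, hV, hVI⟩ := Ideal.image_subset_nonunits_valuationSubring I hI
  have hle : ∀ x : OO A B, V.valuation (emb x) ≤ 1 := by
    intro x
    rw [← hφ]
    exact (V.valuation_le_one_iff _).2 (hV ⟨x, rfl⟩)
  have hP1 : ∀ x ∈ P, emb x ∈ V.nonunits := by
    intro x hx
    rw [← hφ]
    exact hVI ⟨φ.rangeRestrict x, (hmem _).2 ⟨x, hx, rfl⟩, rfl⟩
  have hO : OverI V P := by
    intro x
    refine ⟨fun hx => ?_, hP1 x⟩
    by_contra hxP
    obtain ⟨y, i, hi, hy⟩ := hm.exists_inv hxP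
    have h1 : emb y * emb x + emb i = 1 := by
      rw [← hφ, ← hφ, ← hφ, ← map_mul, ← map_add, hy, map_one]
    rw [ValuationSubring.mem_nonunits_iff] at hx
    have hi' := hP1 i hi
    rw [ValuationSubring.mem_nonunits_iff] at hi'
    have h2 : V.valuation (emb y * emb x) < 1 := by
      rw [map_mul]
      exact lt_of_le_of_lt (mul_le_of_le_one_left' (hle y)) hx
    have h3 : V.valuation (emb y * emb x + emb i) < 1 := Valuation.map_add_lt _ h2 hi'
    rw [h1, map_one] at h3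
    exact lt_irrefl _ h3
  refine ⟨V, hO, ?_⟩
  have h4 : emb ((p : ℕ) : OO A B) = (p : ℂ) := by
    rw [← hφ, map_natCast]
  rw [← h4]
  exact (hO _).2 hp

/-- the homomorphism `O → ℤ/3` which maps `w` to `-B` -/
def psiR (A B : ℤ) (h : (3 : ℤ) ∣ B ^ 2 + 4 * A) : OO A B →+* ZMod 3 :=
  (QuadraticAlgebra.lift (R := ℤ) (a := A) (b := B) (A := ZMod 3)
    ⟨((-B : ℤ) : ZMod 3), by
      have h0 : ((3 : ℕ) : ℤ) ∣ B ^ 2 + A := by
        have h1 : B ^ 2 + A = (B ^ 2 + 4 * A) - 3 * A := by ring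
        rw [h1]
        exact_mod_cast dvd_sub h (Dvd.intro _ rfl)
      have h1 : ((B ^ 2 + A : ℤ) : ZMod 3) = 0 := (ZMod.intCast_zmod_eq_zero_iff_dvd _ _).2 h0
      have h3 : (3 : ZMod 3) = 0 := by decide
      push_cast at h1
      simp only [zsmul_eq_mul, mul_one]
      push_cast
      linear_combination (-1 : ZMod 3) * h1 + (B : ZMod 3) ^ 2 * h3⟩).toRingHom

/-- existence of `P` and `V` -/
theorem vexR (A B : ℤ) (h : CaseR A B) : ∃ (P : Ideal (OO A B)) (V : ValuationSubring ℂ),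
    IsPN 3 P ∧ OverI V P ∧ (3 : ℂ) ∈ V.nonunits := by
  haveI : Fact (Nat.Prime 3) := ⟨Nat.prime_three⟩
  let ψ := psiR A B h.three
  have hsurj : Function.Surjective ψ := ZMod.ringHom_surjective ψ
  have hmax : (RingHom.ker ψ).IsMaximal := RingHom.ker_isMaximal_of_surjective ψ hsurj
  have hP : IsPN 3 (RingHom.ker ψ) := by
    refine ⟨hmax.isPrime, ?_, ?_⟩
    · rw [RingHom.mem_ker, map_natCast]
      rfl
    · unfold MUX.nI
      rw [Nat.card_congr (RingHom.quotientKerEquivOfSurjective hsurj).toEquiv, Nat.card_zmod]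
  obtain ⟨V, hV, hpV⟩ := vex_gen 3 A B h.toCQ _ hP.mem hmax
  exact ⟨_, V, hP, hV, by exact_mod_cast hpV⟩

/-- the frame of block J -/
theorem aboR {A B : ℤ} {P : Ideal (OO A B)} {V : ValuationSubring ℂ} (h : CaseR A B)
    (hP : IsPN 3 P) (hV : OverI V P) (h3 : (3 : ℂ) ∈ V.nonunits) : AboX 3 2 A B P V :=
  ⟨h.toCQ, Or.inr rfl, Or.inr rfl, fun h => by omega, hP.prime, hP.mem, fun h => by omega, hV,
    by exact_mod_cast h3⟩

/-- `RF ⊤` is unramified at `V` -/
theorem unhR (hRF : Sq_RFIN) {A B : ℤ} {P : Ideal (OO A B)} {V : ValuationSubring ℂ}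
    (h : CaseR A B) (hP : IsPN 3 P) (hV : OverI V P) (hT : TorX A B) : UnrH A B V := by
  intro σ hσ hy
  have e : (idl (A := A) (B := B) 1) = ⊤ := by
    unfold idl
    rw [Nat.cast_one, Ideal.span_singleton_one]
  have h2 := (hRF A B P V h hP hV hT).2 1 one_ne_zero (by norm_num) σ hσ
  rw [e] at h2
  exact h2 hy

end

end Pool.Agent.NSIR
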