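import Pool.Agent.NS.StGN
import Pool.Agent.MUX.E_RNG
import Pool.Agent.MUX.N_GJ

/-!
# NS, block GN (helper6): common denominators prime to `V`, for `3` inert
-/

set_option autoImplicit false

namespace Pool.Agent.NSG

open _root_.MU3 Pool.Agent.MU3A Pool.Agent.MU3B Pool.Agent.MUX Pool.Agent.MUXN Pool.Agent.NS

noncomputable section

open N_GJ (eHom_apply)

variable {A B : ℤ}

theorem vN (V : ValuationSubring ℂ) (h3 : V.valuation (3 : ℂ) < 1) (N : ℕ) (hN : ¬ 3 ∣ N) :
    V.valuation (N : ℂ) = 1 := by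
  have hle : ∀ z : ℤ, V.valuation (z : ℂ) ≤ 1 := fun z =>
    (V.valuation_le_one_iff _).2 (Pool.Agent.MU3A2.int_mem z)
  have hc : IsCoprime (N : ℤ) 3 := by
    rw [Int.isCoprime_iff_gcd_eq_one, Int.gcd_comm]
    exact (Nat.Prime.coprime_iff_not_dvd Nat.prime_three).2 hN
  obtain ⟨a, b, hab⟩ := hc
  by_contra hne
  have hlt : V.valuation (N : ℂ) < 1 := lt_of_le_of_ne (by exact_mod_cast hle N) hne
  have h1 : V.valuation ((a : ℂ) * N + b * 3) < 1 := by
    refine lt_of_le_of_lt (V.valuation.map_add _ _) (max_lt ?_ ?_)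
    · rw [map_mul]
      exact mul_lt_one_of_nonneg_of_lt_one_right (hle a) zero_le hlt
    · rw [map_mul]
      exact mul_lt_one_of_nonneg_of_lt_one_right (hle b) zero_le h3
  have h2 : (a : ℂ) * N + b * 3 = 1 := by exact_mod_cast hab
  rw [h2, map_one] at h1
  exact lt_irrefl _ h1

theorem v3 {V : ValuationSubring ℂ} (hV : OverI V (idl (A := A) (B := B) 3)) :
    V.valuation (3 : ℂ) < 1 := by
  have h1 : emb ((3 : ℕ) : OO A B) ∈ V.nonunits := (hV _).2 (Ideal.mem_span_singleton_self _)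
  have h2 : emb ((3 : ℕ) : OO A B) = 3 := by
    unfold emb
    rw [QuadraticAlgebra.re_natCast, QuadraticAlgebra.im_natCast]
    norm_num
  rw [h2, ValuationSubring.mem_nonunits_iff] at h1
  exact h1

theorem div3 {V : ValuationSubring ℂ} (hc : CQ A B) (hV : OverI V (idl (A := A) (B := B) 3))
    (k : ℕ) : ∀ a : OO A B, V.valuation (emb a) ≤ V.valuation (3 : ℂ) ^ k →
    ∃ b : OO A B, emb a = 3 ^ k * emb b := by
  have h3 := v3 hV
  have h30 : V.valuation (3 : ℂ) ≠ 0 := (Valuation.ne_zero_iff _).2 (by norm_num)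
  induction k with
  | zero => exact fun a _ => ⟨a, by simp⟩
  | succ k ih =>
    intro a ha
    have h1 : V.valuation (emb a) < 1 := by
      refine lt_of_le_of_lt ha ?_
      exact pow_lt_one₀ zero_le h3 (by omega)
    have h2 : a ∈ idl (A := A) (B := B) 3 :=
      (hV a).1 ((ValuationSubring.mem_nonunits_iff _).2 h1)
    rw [Ideal.mem_span_singleton] at h2
    obtain ⟨c, hc3⟩ := h2
    have e1 : emb a = 3 * emb c := by
      rw [hc3, ← eHom_apply hc, map_mul, map_natCast, eHom_apply]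
      norm_num
    obtain ⟨b, hb⟩ := ih c (by
      rw [e1, map_mul, pow_succ, mul_comm] at ha
      exact (mul_le_mul_iff_left₀ (zero_lt_iff.2 h30)).1 ha)
    exact ⟨b, by rw [e1, hb]; ring⟩

theorem loc_I (A B : ℤ) (hc : CQ A B) (V : ValuationSubring ℂ)
    (hV : OverI V (idl (A := A) (B := B) 3)) : LocN A B V := by
  classical
  have h3 := v3 hV
  have h30 : V.valuation (3 : ℂ) ≠ 0 := (Valuation.ne_zero_iff _).2 (by norm_num)
  -- one element
  have one : ∀ y ∈ kk A B, y ∈ V → ∃ N : ℕ, ¬ 3 ∣ N ∧ ∃ c : OO A B, (N : ℂ) * y = emb c := by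
    intro y hy hyV
    obtain ⟨s, t, hst⟩ := Pool.Agent.MUXE.RNGaux.repr hc hy
    obtain ⟨D, hD⟩ : ∃ D : ℕ, D = s.den * t.den := ⟨_, rfl⟩
    have hD0 : D ≠ 0 := by rw [hD]; exact mul_ne_zero s.den_nz t.den_nz
    obtain ⟨k, N, hN, hDk⟩ := Nat.exists_eq_pow_mul_and_not_dvd hD0 3 (by norm_num)
    obtain ⟨c, hcD⟩ : ∃ c : OO A B, (D : ℂ) * y = emb c := by
      refine ⟨⟨s.num * t.den, t.num * s.den⟩, ?_⟩
      have hs : (s : ℂ) * s.den = s.num := by exact_mod_cast Rat.mul_den_eq_num s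
      have ht : (t : ℂ) * t.den = t.num := by exact_mod_cast Rat.mul_den_eq_num t
      rw [hst, hD]
      unfold emb
      push_cast
      rw [← hs, ← ht]
      ring
    have hv : V.valuation (emb c) ≤ V.valuation (3 : ℂ) ^ k := by
      rw [← hcD, map_mul, hDk]
      have h4 : V.valuation y ≤ 1 := (V.valuation_le_one_iff _).2 hyV
      have h5 : V.valuation (((3 ^ k * N : ℕ) : ℂ)) ≤ V.valuation (3 : ℂ) ^ k := by
        push_cast
        rw [map_mul, map_pow]
        refine mul_le_of_le_one_right' ((V.valuation_le_one_iff _).2 ?_)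
        have := Pool.Agent.MU3A2.int_mem (V := V) (N : ℤ)
        exact_mod_cast this
      exact (mul_le_mul' h5 h4).trans (by rw [mul_one])
    obtain ⟨b, hb⟩ := div3 hc hV k c hv
    refine ⟨N, hN, b, ?_⟩
    have h6 : (3 : ℂ) ^ k ≠ 0 := pow_ne_zero _ (by norm_num)
    apply mul_left_cancel₀ h6
    rw [← hb, ← hcD, hDk]
    push_cast
    ring
  intro S
  have key : ∀ S : Finset ℂ, (∀ y ∈ S, y ∈ kk A B ∧ y ∈ V) →
      ∃ N : ℕ, ¬ 3 ∣ N ∧ ∀ y ∈ S, ∃ c : OO A B, (N : ℂ) * y = emb c := by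
    intro S
    induction S using Finset.induction_on with
    | empty => exact fun _ => ⟨1, by norm_num, fun y hy => absurd hy (Finset.notMem_empty y)⟩
    | insert x S hx ih =>
      intro hS
      obtain ⟨N, hN, hNS⟩ := ih fun y hy => hS y (Finset.mem_insert_of_mem hy)
      obtain ⟨M, hM, hMx⟩ := one x (hS x (Finset.mem_insert_self _ _)).1
        (hS x (Finset.mem_insert_self _ _)).2
      refine ⟨M * N, fun h => ?_, fun y hy => ?_⟩
      · rcases (Nat.Prime.dvd_mul Nat.prime_three).1 h with h | h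
        · exact hM h
        · exact hN h
      · rcases Finset.mem_insert.1 hy with rfl | hy
        · obtain ⟨c, hc'⟩ := hMx
          refine ⟨N * c, ?_⟩
          rw [← eHom_apply hc, map_mul, map_natCast, eHom_apply, ← hc']
          push_cast
          ring
        · obtain ⟨c, hc'⟩ := hNS y hy
          refine ⟨M * c, ?_⟩
          rw [← eHom_apply hc, map_mul, map_natCast, eHom_apply, ← hc']
          push_cast
          ring
  intro hS
  obtain ⟨N, hN, hNS⟩ := key S hS
  refine ⟨(N : OO A B), ?_, fun y hy => ?_⟩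
  · rw [← eHom_apply hc, map_natCast]
    exact vN V h3 N hN
  · obtain ⟨c, hc'⟩ := hNS y hy
    refine ⟨c, ?_⟩
    rw [← eHom_apply hc, map_natCast]
    exact hc'

end

end Pool.Agent.NSG
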