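import Pool.Agent.MUX.J_VEX
import Pool.Agent.MUX.StJG

/-!
# MUX-NS: existence of the valuation ring above any maximal ideal, and the prime ideal `(p)` for `p = 2, 3` inert (helper36)

The proof of `vex` is that of `Pool/Agent/MUX/J_VEX.lean`.
-/

set_option autoImplicit false

open NumberField IsDedekindDomain

namespace Pool.Agent.NSZ

open _root_.MU3 Pool.Agent.MU3 Pool.Agent.MU3A Pool.Agent.MU3B Pool.Agent.RI Pool.Agent.RID
  Pool.Agent.MUX Pool.Agent.MUXK Pool.Agent.MUXE Pool.Agent.MUXJ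

noncomputable section

/-- a valuation ring above a maximal ideal -/
theorem vex {A B : ℤ} (h : MUX.CQ A B) (P : Ideal (OO A B)) (hm : P.IsMaximal) :
    ∃ V : ValuationSubring ℂ, OverI V P := by
  let φ : OO A B →+* ℂ := RNGaux.eH h
  have hφ : ∀ x, φ x = emb x := RNGaux.eH_apply h
  have hinj : ∀ x y, φ x = φ y → x = y := by
    intro x y hxy
    rw [hφ, hφ] at hxy
    exact RNGaux.emb_inj h hxy
  let I : Ideal φ.range := P.map φ.rangeRestrict
  have hmem : ∀ y, y ∈ I ↔ ∃ x ∈ P, φ.rangeRestrict x = y := fun y =>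
    Ideal.mem_map_iff_of_surjective _ φ.rangeRestrict_surjective
  have hI : I ≠ ⊤ := by
    intro hI
    have h1 : (1 : φ.range) ∈ I := by rw [hI]; trivial
    obtain ⟨x, hx, hx1⟩ := (hmem _).1 h1
    have h2 : φ x = φ 1 := by
      have := congrArg Subtype.val hx1
      rw [map_one]
      simpa using this
    rw [hinj _ _ h2] at hx
    exact hm.ne_top ((Ideal.eq_top_iff_one P).2 hx)
  obtain ⟨V, hV, hVI⟩ := Ideal.image_subset_nonunits_valuationSubring I hI
  have hle : ∀ x : OO A B, V.valuation (emb x) ≤ 1 := by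
    intro x
    rw [← hφ]
    exact (V.valuation_le_one_iff _).2 (hV ⟨x, rfl⟩)
  have hP1 : ∀ x ∈ P, emb x ∈ V.nonunits := by
    intro x hx
    rw [← hφ]
    exact hVI ⟨φ.rangeRestrict x, (hmem _).2 ⟨x, hx, rfl⟩, rfl⟩
  refine ⟨V, fun x => ⟨fun hx => ?_, hP1 x⟩⟩
  by_contra hxP
  obtain ⟨y, i, hi, hy⟩ := hm.exists_inv hxP
  have h1 : emb y * emb x + emb i = 1 := by
    rw [← hφ, ← hφ, ← hφ, ← map_mul, ← map_add, hy, map_one]
  rw [ValuationSubring.mem_nonunits_iff] at hx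
  have hi' := hP1 i hi
  rw [ValuationSubring.mem_nonunits_iff] at hi'
  have h2 : V.valuation (emb y * emb x) < 1 := by
    rw [map_mul]
    exact lt_of_le_of_lt (mul_le_of_le_one_left' (hle y)) hx
  have h3 : V.valuation (emb y * emb x + emb i) < 1 := Valuation.map_add_lt _ h2 hi'
  rw [h1, map_one] at h3
  exact lt_irrefl _ h3

lemma mem_idl {A B : ℤ} (n : ℕ) (x : OO A B) :
    x ∈ idl (A := A) (B := B) n ↔ (n : ℤ) ∣ x.re ∧ (n : ℤ) ∣ x.im := by
  rw [Ideal.mem_span_singleton]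
  constructor
  · rintro ⟨t, rfl⟩
    refine ⟨⟨t.re, ?_⟩, ⟨t.im, ?_⟩⟩
    · rw [QuadraticAlgebra.re_mul]; simp
    · rw [QuadraticAlgebra.im_mul]; simp
  · rintro ⟨⟨s, hs⟩, ⟨t, ht⟩⟩
    refine ⟨⟨s, t⟩, ?_⟩
    apply QuadraticAlgebra.ext
    · rw [QuadraticAlgebra.re_mul]; simp [hs]
    · rw [QuadraticAlgebra.im_mul]; simp [ht]

/-- if the norm of every element outside `(p)` is prime to `p` then `(p)` is maximal -/
theorem idl_max {A B : ℤ} (p : ℕ) (hp : p.Prime)
    (h : ∀ a b : ℤ, (p : ℤ) ∣ a ^ 2 + B * a * b - A * b ^ 2 → (p : ℤ) ∣ a ∧ (p : ℤ) ∣ b) :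
    (idl (A := A) (B := B) p).IsMaximal := by
  rw [Ideal.isMaximal_iff]
  refine ⟨?_, ?_⟩
  · rw [mem_idl]
    rintro ⟨h1, -⟩
    rw [QuadraticAlgebra.re_one] at h1
    have h2 : (p : ℤ) ≤ 1 := Int.le_of_dvd one_pos h1
    have h3 := hp.two_le
    omega
  · intro J x hJ hx hxJ
    have h1 : ¬ (p : ℤ) ∣ x.re ^ 2 + B * x.re * x.im - A * x.im ^ 2 := by
      intro h2
      exact hx ((mem_idl p x).2 (h _ _ h2))
    obtain ⟨N, hN⟩ : ∃ N, N = x.re ^ 2 + B * x.re * x.im - A * x.im ^ 2 := ⟨_, rfl⟩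
    rw [← hN] at h1
    have h2 : ((N : ℤ) : OO A B) ∈ J := by
      have h3 : ((N : ℤ) : OO A B) = ⟨x.re + B * x.im, -x.im⟩ * x := by
        apply QuadraticAlgebra.ext
        · rw [QuadraticAlgebra.re_mul, QuadraticAlgebra.re_intCast, hN, Int.cast_id]
          ring
        · rw [QuadraticAlgebra.im_mul, QuadraticAlgebra.im_intCast]
          ring
      rw [h3]
      exact J.mul_mem_left _ hxJ
    have h3 : IsCoprime (p : ℤ) N := (Nat.prime_iff_prime_int.1 hp).coprime_iff_not_dvd.2 h1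
    obtain ⟨s, t, hst⟩ := h3
    have h4 : ((p : ℕ) : OO A B) ∈ J := hJ (Ideal.mem_span_singleton_self _)
    have h5 : (1 : OO A B) = (s : OO A B) * ((p : ℕ) : OO A B) + (t : OO A B) * ((N : ℤ) : OO A B) := by
      have h6 := congrArg (fun z : ℤ => (z : OO A B)) hst
      push_cast at h6 ⊢
      exact h6.symm
    rw [h5]
    exact J.add_mem (J.mul_mem_left _ h4) (J.mul_mem_left _ h2)

/-- the data `AboX` for an inert prime -/
theorem aboX {A B : ℤ} (p : ℕ) (hp : p = 2 ∨ p = 3) (hC : MUX.CQ A B)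
    (hm : (idl (A := A) (B := B) p).IsMaximal) (V : ValuationSubring ℂ)
    (hV : OverI V (idl (A := A) (B := B) p)) : AboX p 1 A B (idl (A := A) (B := B) p) V := by
  have hpp : p.Prime := by
    rcases hp with rfl | rfl
    · exact Nat.prime_two
    · exact Nat.prime_three
  have h1 : ((p : ℕ) : OO A B) ∈ idl (A := A) (B := B) p := Ideal.mem_span_singleton_self _
  refine ⟨hC, hp, Or.inl rfl, fun _ => rfl, hm.isPrime, h1, fun _ h2 => ?_, hV, ?_⟩
  · have h3 : (idl (A := A) (B := B) p) ^ 2 = idl (p ^ 2) := by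
      unfold idl
      rw [Ideal.span_singleton_pow]
      push_cast
      rfl
    rw [h3, mem_idl] at h2
    obtain ⟨⟨c, hc⟩, -⟩ := h2
    rw [QuadraticAlgebra.re_natCast] at hc
    push_cast at hc
    have h4 : (p : ℤ) ≠ 0 := by exact_mod_cast hpp.ne_zero
    have h5 : (1 : ℤ) = p * c := by
      have : (p : ℤ) * 1 = p * (p * c) := by rw [mul_one]; linarith [hc]
      exact mul_left_cancel₀ h4 this
    have h6 : (p : ℤ) ≤ 1 := Int.le_of_dvd one_pos ⟨c, h5⟩
    have h7 := hpp.two_le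
    omega
  · have h2 := (hV ((p : ℕ) : OO A B)).2 h1
    have h3 : emb ((p : ℕ) : OO A B) = (p : ℂ) := by
      rw [← RNGaux.eH_apply hC, map_natCast]
    rwa [h3] at h2

end

end Pool.Agent.NSZ
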