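import Pool.Agent.NS.StEN

/-!
# MUX-NS, block EN, module PTS: the points of order three satisfy `Pts`
-/

set_option autoImplicit false

open Polynomial

namespace Pool.Agent.NSE

open _root_.MU3 Pool.Agent.MU3A Pool.Agent.MU3B Pool.Agent.MUX Pool.Agent.MUXU Pool.Agent.MUXE
open Pool.Agent.RI Pool.Agent.NS
open Pool.Agent.MUXV (GR InK tX)

noncomputable section

namespace PTS

/-- `(a ω₁ + b ω₂)/3 ∈ L` only if `3 ∣ a`, `3 ∣ b` -/
lemma third (L : PeriodPair) (a b : ℤ) (h : ((a : ℂ) * L.ω₁ + b * L.ω₂) / 3 ∈ L.lattice) :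
    (3 : ℤ) ∣ a ∧ (3 : ℤ) ∣ b := by
  obtain ⟨m, n, hmn⟩ := PeriodPair.mem_lattice.1 h
  have h1 : ((a - 3 * m : ℤ) : ℝ) • L.ω₁ + ((b - 3 * n : ℤ) : ℝ) • L.ω₂ = 0 := by
    rw [Complex.real_smul, Complex.real_smul]
    push_cast
    linear_combination -3 * hmn
  have h2 := LinearIndependent.pair_iff.1 L.indep _ _ h1
  have h3 : a - 3 * m = 0 := by exact_mod_cast h2.1
  have h4 : b - 3 * n = 0 := by exact_mod_cast h2.2
  exact ⟨⟨m, by linarith⟩, ⟨n, by linarith⟩⟩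

/-- the coefficients of the four points -/
def ca : Fin 4 → ℤ := ![1, 0, 1, 1]

/-- the coefficients of the four points -/
def cb : Fin 4 → ℤ := ![0, 1, 1, -1]

lemma sep : ∀ i j : Fin 4, ((3 : ℤ) ∣ ca i - ca j ∧ (3 : ℤ) ∣ cb i - cb j) ∨
    ((3 : ℤ) ∣ ca i + ca j ∧ (3 : ℤ) ∣ cb i + cb j) → i = j := by
  decide

lemma nz : ∀ i : Fin 4, ¬ ((3 : ℤ) ∣ ca i ∧ (3 : ℤ) ∣ cb i) := by
  decide

/-- the four points -/
def pnt (L : PeriodPair) (i : Fin 4) : ℂ := ((ca i : ℂ) * L.ω₁ + (cb i : ℂ) * L.ω₂) / 3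

lemma pnt_mem (L : PeriodPair) (i : Fin 4) : pnt L i ∈ E3 L := by
  constructor
  · rw [pnt, mul_div_cancel₀ _ (by norm_num : (3 : ℂ) ≠ 0)]
    exact PeriodPair.mem_lattice.2 ⟨_, _, rfl⟩
  · intro h
    exact nz i (third L _ _ h)

end PTS

open PTS in
/-- PTS. -/
theorem te_PTS (hCOE : Se_COE) (hTW3 : Se_TW3) : Se_PTS := by
  intro V L u e lam hG h3
  obtain ⟨-, -, -, -, hl, -, heq, -, hper⟩ := hCOE V L u e lam hG h3
  have htw := hTW3 V L u e lam hG h3
  have hE : ∀ Y ∈ E3 L, ∀ w ∈ L.lattice, Y + w ∈ E3 L := by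
    intro Y hY w hw
    constructor
    · rw [mul_add]
      refine add_mem hY.1 ?_
      have h1 : (3 : ℂ) * w = w + w + w := by ring
      rw [h1]
      exact add_mem (add_mem hw hw) hw
    · intro h
      apply hY.2
      have h1 := sub_mem h hw
      rwa [add_sub_cancel_right] at h1
  have hP : ∀ (z w : ℂ), w ∈ L.lattice → su L u e (z + w) = su L u e z ∧
      ru L u e (z + w) = ru L u e z := by
    intro z w hw
    obtain ⟨h1, h2⟩ := (hper z).1 w hw
    unfold su ru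
    rw [h1, h2]
    exact ⟨rfl, rfl⟩
  refine ⟨⟨h3, ?_, hl.le, fun Y hY => (htw Y hY).2.2, ?_, ?_, ?_, ?_⟩, ?_⟩
  · rw [Valuation.map_neg]
    exact hG.lam1.trans h3.le
  · intro Y hY
    have hx : xu L u e Y ≠ 0 := (htw Y hY).2.1
    have h1 := heq Y hY.2
    unfold ru su
    rw [div_pow, neg_sq, h1]
    field_simp
    ring
  · intro Y hY
    refine ⟨-Y, ⟨?_, ?_⟩, ?_, ?_⟩
    · rw [mul_neg]
      exact neg_mem hY.1
    · intro h
      apply hY.2
      have h1 := neg_mem h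
      rwa [neg_neg] at h1
    · unfold su
      rw [(hper Y).2.1]
    · unfold ru
      rw [(hper Y).2.1, (hper Y).2.2, neg_div, neg_div, neg_neg]
  · refine ⟨pnt L, pnt_mem L, ?_⟩
    intro i j hij
    simp only [su] at hij
    have h1 : xu L u e (pnt L i) = xu L u e (pnt L j) := inv_injective hij
    have h2 : L.weierstrassP (pnt L i) = L.weierstrassP (pnt L j) := by
      unfold xu at h1
      have hu : u ^ 2 ≠ 0 := pow_ne_zero 2 hG.u0
      have h4 := (div_left_inj' hu).1 h1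
      exact sub_left_injective h4
    apply sep
    rcases b_NEQ L (pnt L j) (pnt L i) (pnt_mem L j).2 (pnt_mem L i).2 h2 with h | h
    · left
      apply third L
      have e1 : (((ca i - ca j : ℤ) : ℂ) * L.ω₁ + ((cb i - cb j : ℤ) : ℂ) * L.ω₂) / 3 =
          pnt L i - pnt L j := by
        unfold pnt
        push_cast
        ring
      rw [e1]
      exact h
    · right
      apply third L
      have e1 : (((ca i + ca j : ℤ) : ℂ) * L.ω₁ + ((cb i + cb j : ℤ) : ℂ) * L.ω₂) / 3 =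
          pnt L i + pnt L j := by
        unfold pnt
        push_cast
        ring
      rw [e1]
      exact h
  · refine (Set.finite_range (fun p : Fin 3 × Fin 3 =>
      (su L u e (((p.1 : ℕ) * L.ω₁ + (p.2 : ℕ) * L.ω₂) / 3),
        ru L u e (((p.1 : ℕ) * L.ω₁ + (p.2 : ℕ) * L.ω₂) / 3)))).subset ?_
    rintro _ ⟨Y, hY, rfl⟩
    obtain ⟨i, j, hij⟩ := PeriodPair.mem_lattice.1 hY.1
    have hi0 : 0 ≤ i % 3 := Int.emod_nonneg i (by norm_num)
    have hi1 : i % 3 < 3 := Int.emod_lt_of_pos i (by norm_num)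
    have hj0 : 0 ≤ j % 3 := Int.emod_nonneg j (by norm_num)
    have hj1 : j % 3 < 3 := Int.emod_lt_of_pos j (by norm_num)
    have hi : i = 3 * (i / 3) + i % 3 := (Int.mul_ediv_add_emod i 3).symm
    have hj : j = 3 * (j / 3) + j % 3 := (Int.mul_ediv_add_emod j 3).symm
    refine ⟨(⟨(i % 3).toNat, by omega⟩, ⟨(j % 3).toNat, by omega⟩), ?_⟩
    have c1 : (((i % 3).toNat : ℕ) : ℂ) = ((i % 3 : ℤ) : ℂ) := by
      have := Int.toNat_of_nonneg hi0
      exact_mod_cast congrArg (fun n : ℤ => (n : ℂ)) this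
    have c2 : (((j % 3).toNat : ℕ) : ℂ) = ((j % 3 : ℤ) : ℂ) := by
      have := Int.toNat_of_nonneg hj0
      exact_mod_cast congrArg (fun n : ℤ => (n : ℂ)) this
    have hiC : (i : ℂ) = 3 * ((i / 3 : ℤ) : ℂ) + ((i % 3 : ℤ) : ℂ) := by
      exact_mod_cast congrArg (fun n : ℤ => (n : ℂ)) hi
    have hjC : (j : ℂ) = 3 * ((j / 3 : ℤ) : ℂ) + ((j % 3 : ℤ) : ℂ) := by
      exact_mod_cast congrArg (fun n : ℤ => (n : ℂ)) hj
    have e1 : Y = (((i % 3).toNat : ℕ) * L.ω₁ + ((j % 3).toNat : ℕ) * L.ω₂) / 3 +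
        (((i / 3 : ℤ) : ℂ) * L.ω₁ + ((j / 3 : ℤ) : ℂ) * L.ω₂) := by
      rw [c1, c2]
      have h4 : (3 : ℂ) ≠ 0 := by norm_num
      apply mul_left_cancel₀ h4
      rw [← hij, hiC, hjC]
      ring
    have h5 := hP ((((i % 3).toNat : ℕ) * L.ω₁ + ((j % 3).toNat : ℕ) * L.ω₂) / 3) _
      (PeriodPair.mem_lattice.2 ⟨i / 3, j / 3, rfl⟩)
    rw [← e1] at h5
    simp only [h5.1, h5.2]
  · intro Y hY w hw
    exact ⟨hE Y hY w hw, hP Y w hw⟩

end

end Pool.Agent.NSE
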