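import Pool.Agent.NS.StER

/-!
# MUX-NS, block ER, module COE (helper65): the coefficients of the Legendre model
-/

set_option autoImplicit false

open Polynomial

namespace Pool.Agent.NSER

open _root_.MU3 Pool.Agent.MU3A Pool.Agent.MU3B Pool.Agent.MUX Pool.Agent.MUXU Pool.Agent.MUXE
open Pool.Agent.RI Pool.Agent.NS Pool.Agent.NSRD
open Pool.Agent.NSE (E3 su ru WL IntP Rep)
open Pool.Agent.MUXV (GR InK tX)

noncomputable section

namespace COE

lemma hasDeriv (L : PeriodPair) {z : ℂ} (hz : z ∉ L.lattice) :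
    HasDerivAt L.weierstrassP (L.derivWeierstrassP z) z := by
  have h1 : DifferentiableAt ℂ L.weierstrassP z :=
    L.differentiableOn_weierstrassP.differentiableAt
      (L.isClosed_lattice.isOpen_compl.mem_nhds hz)
  have h2 := h1.hasDerivAt
  rwa [L.deriv_weierstrassP] at h2

end COE

open COE in
theorem tf_COE : Sf_COE := by
  intro V L u e lam hG h3
  have hu := hG.u0
  -- the polynomial identity
  have key : ∀ T : ℂ, 4 * T ^ 3 - L.g₂ * T - L.g₃ =
      4 * (T - e) * (T - e - u ^ 2) * (T - e - lam * u ^ 2) := by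
    intro T
    obtain ⟨z, hz, hT⟩ := b_SUR L T
    have h1 := L.derivWeierstrassP_sq z hz
    have h2 := hG.eq z hz
    rw [← hT, ← h1]
    have h4 : L.derivWeierstrassP z ^ 2 =
        (L.derivWeierstrassP z / (2 * u ^ 3)) ^ 2 * (4 * u ^ 6) := by
      field_simp
      ring
    rw [h4, h2]
    field_simp
  have k0 := key 0
  have k1 := key 1
  have k2 := key (-1)
  have a1 : 3 * e = -(1 + lam) * u ^ 2 := by
    have : 4 * (3 * e + (1 + lam) * u ^ 2) = 0 := by
      linear_combination (1 / 2 : ℂ) * k1 + (1 / 2 : ℂ) * k2 - k0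
    have h5 : 3 * e + (1 + lam) * u ^ 2 = 0 := by
      rcases mul_eq_zero.1 this with h | h
      · norm_num at h
      · exact h
    linear_combination h5
  have a2 : L.g₂ = 4 * (3 * e ^ 2 - lam * u ^ 4) := by
    linear_combination (-1 / 2 : ℂ) * k1 + (1 / 2 : ℂ) * k2 - 8 * e * a1
  have a3 : L.g₃ = 4 * e ^ 3 - L.g₂ * e := by
    linear_combination -k0 + 4 * e ^ 2 * a1 + e * a2
  have hv1 : V.valuation (1 : ℂ) = 1 := map_one _
  have v2 : V.valuation (2 : ℂ) = 1 := by
    have h5 : V.valuation ((-1 : ℂ) + 3) = V.valuation (-1 : ℂ) :=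
      Valuation.map_add_eq_of_lt_left _ (by rw [Valuation.map_neg, hv1]; exact h3)
    rw [Valuation.map_neg, hv1] at h5
    rw [← h5]
    congr 1
    norm_num
  have hl : V.valuation (1 + lam) < 1 := by
    by_contra hcon
    exact absurd (lt_of_le_of_lt hG.lam1 h3) (not_lt.2 (one_le_pow₀ (not_lt.1 hcon)))
  have vl : V.valuation lam = 1 := by
    have h5 : V.valuation ((-1 : ℂ) + (1 + lam)) = V.valuation (-1 : ℂ) :=
      Valuation.map_add_eq_of_lt_left _ (by rw [Valuation.map_neg, hv1]; exact hl)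
    rw [Valuation.map_neg, hv1] at h5
    rw [← h5]
    congr 1
    ring
  have vl1 : V.valuation (1 - lam) = 1 := by
    have h5 : V.valuation ((2 : ℂ) + -(1 + lam)) = V.valuation (2 : ℂ) :=
      Valuation.map_add_eq_of_lt_left _ (by rw [Valuation.map_neg, v2]; exact hl)
    rw [v2] at h5
    rw [← h5]
    congr 1
    ring
  refine ⟨a1, a2, a3, v2, vl, vl1, ?_, ?_, ?_⟩
  · intro z hz
    have h5 := hG.eq z hz
    show (L.derivWeierstrassP z / (2 * u ^ 3)) ^ 2 = _
    rw [h5]
    unfold xu
    ring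
  · intro z hz
    have h5 := ((hasDeriv L hz).sub_const e).div_const (u ^ 2)
    have h6 : L.derivWeierstrassP z / u ^ 2 = 2 * u * yu L u z := by
      unfold yu
      field_simp
    rw [h6] at h5
    exact h5
  · intro z
    refine ⟨fun w hw => ⟨?_, ?_⟩, ?_, ?_⟩
    · unfold xu
      rw [L.weierstrassP_add_coe z ⟨w, hw⟩]
    · unfold yu
      rw [L.derivWeierstrassP_add_coe z ⟨w, hw⟩]
    · unfold xu
      rw [L.weierstrassP_neg]
    · unfold yu
      rw [L.derivWeierstrassP_neg]
      ring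

end

end Pool.Agent.NSER
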