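import Pool.Agent.NS.StER

/-!
# MUX-NS, block ER, module DEG: the degree of `RF (f P^(2n+1))` over `RF (f)`
-/

set_option autoImplicit false

open Polynomial

namespace Pool.Agent.NSER

open _root_.MU3 Pool.Agent.MU3A Pool.Agent.MU3B Pool.Agent.MUX Pool.Agent.MUXU Pool.Agent.MUXE
open Pool.Agent.RI Pool.Agent.NS Pool.Agent.NSRD
open Pool.Agent.MUXV (GR InK tX)
open Pool.Agent.NSE (E3 su ru WL IntP Rep)

noncomputable section

namespace DEG

/-- the pairs `(u, s)`, `u` modulo `3^(n+1)` prime to `3`, `s` modulo `3^n` -/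
def box (n : ℕ) : Finset (ℕ × ℕ) :=
  (Finset.range (3 ^ (n + 1)) \ (Finset.range (3 ^ n)).image fun q => 3 * q) ×ˢ
    Finset.range (3 ^ n)

lemma card_box (n : ℕ) : (box n).card = 2 * 9 ^ n := by
  unfold box
  rw [Finset.card_product, Finset.card_sdiff_of_subset, Finset.card_image_of_injective]
  · simp only [Finset.card_range]
    have h1 : 3 ^ (n + 1) - 3 ^ n = 2 * 3 ^ n := by rw [pow_succ]; omega
    have h2 : 3 ^ n * 3 ^ n = 9 ^ n := by rw [← mul_pow]; norm_num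
    rw [h1, mul_assoc, h2]
  · intro a b h
    simp only at h
    omega
  · intro q hq
    simp only [Finset.mem_image, Finset.mem_range] at hq ⊢
    obtain ⟨q', h1, rfl⟩ := hq
    rw [pow_succ]
    omega

/-- the class of an element -/
def cls {A B : ℤ} (n : ℕ) (x : OO A B) : ℕ × ℕ :=
  (((2 * x.re + x.im * B) % (3 ^ (n + 1) : ℕ)).toNat, (x.im % (3 ^ n : ℕ)).toNat)

lemma int_mul {A B : ℤ} (a b t : ℤ) (x : OO A B) (ha : a = 2)
    (h : 2 * x.re + x.im * B = b * t) :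
    ((a : ℤ) : OO A B) * x =
      ((b : ℤ) : OO A B) * ((t : ℤ) : OO A B) + ((x.im : ℤ) : OO A B) * dD A B := by
  ext
  · simp [dD]
    rw [ha]
    linarith
  · simp [dD]
    rw [ha]
    ring

lemma nat_mul {A B : ℤ} (N : ℕ) (r s : ℤ) (x : OO A B) (h1 : x.re = N * r) (h2 : x.im = N * s) :
    x = (N : OO A B) * (⟨r, s⟩ : OO A B) := by
  ext <;> simp [h1, h2]

/-- the elements of `P` -/
lemma mem_P {A B : ℤ} (P : Ideal (OO A B)) (h3 : (3 : OO A B) ∈ P) (hd : dD A B ∈ P)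
    (x : OO A B) (h : (3 : ℤ) ∣ 2 * x.re + x.im * B) : x ∈ P := by
  obtain ⟨t, ht⟩ := h
  have e1 : (2 : OO A B) * x = 3 * ((t : ℤ) : OO A B) + ((x.im : ℤ) : OO A B) * dD A B := by
    have hx : (2 : OO A B) * x = (((2 : ℤ)) : OO A B) * x := by norm_num
    have h3' : (3 : OO A B) = (((3 : ℤ)) : OO A B) := by norm_num
    rw [hx, h3']
    exact int_mul 2 3 t x rfl ht
  have e2 : (2 : OO A B) * x ∈ P := by
    rw [e1]
    exact P.add_mem (P.mul_mem_right _ h3) (P.mul_mem_left _ hd)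
  have e3 : x = 3 * x - 2 * x := by ring
  rw [e3]
  exact P.sub_mem (P.mul_mem_right _ h3) e2

lemma cls_mem {A B : ℤ} (P : Ideal (OO A B)) (h3 : (3 : OO A B) ∈ P) (hd : dD A B ∈ P)
    (n : ℕ) (x : OO A B) (hx : x ∉ P) : cls n x ∈ box n := by
  have hN : (0 : ℤ) < ((3 ^ (n + 1) : ℕ) : ℤ) := by positivity
  have hN' : (0 : ℤ) < ((3 ^ n : ℕ) : ℤ) := by positivity
  have h1 := Int.emod_nonneg (2 * x.re + x.im * B) hN.ne'
  have h2 := Int.emod_lt_of_pos (2 * x.re + x.im * B) hN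
  have h4 := Int.emod_nonneg x.im hN'.ne'
  have h5 := Int.emod_lt_of_pos x.im hN'
  unfold box cls
  rw [Finset.mem_product, Finset.mem_sdiff]
  refine ⟨⟨?_, ?_⟩, ?_⟩
  · simp only [Finset.mem_range]
    omega
  · intro h
    simp only [Finset.mem_image, Finset.mem_range] at h
    obtain ⟨q, -, e1⟩ := h
    apply hx
    apply mem_P P h3 hd
    have h6 : (3 : ℤ) ∣ ((3 ^ (n + 1) : ℕ) : ℤ) := by
      push_cast
      exact dvd_pow_self 3 (by omega)
    have h7 := Int.emod_add_mul_ediv (2 * x.re + x.im * B) ((3 ^ (n + 1) : ℕ) : ℤ)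
    rw [← h7]
    refine dvd_add ?_ (dvd_mul_of_dvd_left h6 _)
    exact ⟨q, by omega⟩
  · simp only [Finset.mem_range]
    omega

lemma cls_inj {A B : ℤ} (P : Ideal (OO A B)) (h3 : (3 : OO A B) ∈ P) (hd : dD A B ∈ P)
    (n : ℕ) (hn : P ^ (2 * n) = idl (A := A) (B := B) (3 ^ n)) (x y : OO A B)
    (h : cls n x = cls n y) : x - y ∈ P ^ (2 * n + 1) := by
  have hN : (0 : ℤ) < ((3 ^ (n + 1) : ℕ) : ℤ) := by positivity
  have hN' : (0 : ℤ) < ((3 ^ n : ℕ) : ℤ) := by positivity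
  have h1 := Int.emod_nonneg (2 * x.re + x.im * B) hN.ne'
  have h2 := Int.emod_nonneg (2 * y.re + y.im * B) hN.ne'
  have h4 := Int.emod_nonneg x.im hN'.ne'
  have h5 := Int.emod_nonneg y.im hN'.ne'
  unfold cls at h
  rw [Prod.mk.injEq] at h
  obtain ⟨e1, e2⟩ := h
  have e3 : (2 * x.re + x.im * B) % ((3 ^ (n + 1) : ℕ) : ℤ) =
      (2 * y.re + y.im * B) % ((3 ^ (n + 1) : ℕ) : ℤ) := by omega
  have e4 : x.im % ((3 ^ n : ℕ) : ℤ) = y.im % ((3 ^ n : ℕ) : ℤ) := by omega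
  have e5 : ((3 ^ (n + 1) : ℕ) : ℤ) ∣ (2 * x.re + x.im * B) - (2 * y.re + y.im * B) :=
    Int.ModEq.dvd (Int.ModEq.symm e3)
  have e6 : ((3 ^ n : ℕ) : ℤ) ∣ x.im - y.im := Int.ModEq.dvd (Int.ModEq.symm e4)
  have e7 : ((3 ^ n : ℕ) : ℤ) ∣ 2 * (x.re - y.re) := by
    have e8 : ((3 ^ n : ℕ) : ℤ) ∣ ((3 ^ (n + 1) : ℕ) : ℤ) := by
      push_cast
      exact pow_dvd_pow 3 (by omega)
    have e9 : 2 * (x.re - y.re) =
        ((2 * x.re + x.im * B) - (2 * y.re + y.im * B)) - (x.im - y.im) * B := by ring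
    rw [e9]
    exact dvd_sub (e8.trans e5) (dvd_mul_of_dvd_left e6 _)
  have e10 : ((3 ^ n : ℕ) : ℤ) ∣ x.re - y.re := by
    have hc : IsCoprime ((3 ^ n : ℕ) : ℤ) 2 := by
      push_cast
      exact IsCoprime.pow_left ⟨1, -1, by norm_num⟩
    exact hc.dvd_of_dvd_mul_left e7
  obtain ⟨s, hs⟩ := e6
  obtain ⟨r, hr⟩ := e10
  have e11 : x - y = ((3 ^ n : ℕ) : OO A B) * (⟨r, s⟩ : OO A B) := nat_mul _ r s _ hr hs
  have e12 : (⟨r, s⟩ : OO A B) ∈ P := by
    apply mem_P P h3 hd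
    show (3 : ℤ) ∣ 2 * r + s * B
    have e13 : (2 * x.re + x.im * B) - (2 * y.re + y.im * B) =
        ((3 ^ n : ℕ) : ℤ) * (2 * r + s * B) := by
      have : (2 * x.re + x.im * B) - (2 * y.re + y.im * B) =
        2 * (x.re - y.re) + (x.im - y.im) * B := by ring
      rw [this, hr, hs]
      ring
    rw [e13] at e5
    have e14 : ((3 ^ (n + 1) : ℕ) : ℤ) = ((3 ^ n : ℕ) : ℤ) * 3 := by
      push_cast
      exact pow_succ 3 n
    rw [e14] at e5
    exact Int.dvd_of_mul_dvd_mul_left hN'.ne' e5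
  rw [e11, pow_succ, hn]
  exact Ideal.mul_mem_mul (Ideal.mem_span_singleton_self _) e12

end DEG

open DEG in
theorem tf_DEG (hIDL : Sf_IDL) : Sf_DEG := by
  classical
  intro A B P V hC hG n f hf h3f
  have hR := hC.ring
  obtain ⟨f1, -, f3, -, f5⟩ := Pool.Agent.MUXE.te_FAC Pool.Agent.MUXE.te_TRA A B hR
  obtain ⟨i3, -, ipow, -, ilv⟩ := hIDL A B P V hC
  obtain ⟨-, -, -, -, ibot, -⟩ := ilv f n hf
  have hd := hC.dP
  -- ideals
  set m : Ideal (OO A B) := lvR P f n with hm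
  set m' : Ideal (OO A B) := idl (A := A) (B := B) f with hm'
  have hmm' : m ≤ m' := Ideal.mul_le_left
  have hmP : m ≤ P := Ideal.mul_le_right.trans (Ideal.pow_le_self (by omega))
  have hm0 : m ≠ ⊥ := ibot
  have hcop0 : IsCoprime (((3 ^ (n + 1) : ℕ)) : OO A B) ((f : ℕ) : OO A B) := by
    have h4 : Nat.Coprime (3 ^ (n + 1)) f :=
      Nat.Coprime.pow_left _ ((Nat.Prime.coprime_iff_not_dvd Nat.prime_three).2 h3f)
    have h5 := (Nat.isCoprime_iff_coprime.2 h4).intCast (R := OO A B)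
    simpa using h5
  have hmem3 : (((3 ^ (n + 1) : ℕ)) : OO A B) ∈ P ^ (2 * n + 1) := by
    rw [pow_succ, ipow n]
    have : (((3 ^ (n + 1) : ℕ)) : OO A B) = ((3 ^ n : ℕ) : OO A B) * 3 := by
      push_cast
      exact pow_succ 3 n
    rw [this]
    exact Ideal.mul_mem_mul (Ideal.mem_span_singleton_self _) i3
  have hcop : IsCoprime m' (P ^ (2 * n + 1)) := by
    rw [Ideal.isCoprime_iff_exists]
    obtain ⟨a, b, hab⟩ := hcop0
    exact ⟨b * (f : OO A B), Ideal.mul_mem_left _ _ (Ideal.mem_span_singleton_self _),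
      a * ((3 ^ (n + 1) : ℕ) : OO A B), Ideal.mul_mem_left _ _ hmem3, by rw [add_comm]; exact hab⟩
  have hinf : ∀ x : OO A B, x ∈ P ^ (2 * n + 1) → x ∈ m' → x ∈ m := by
    intro x h4 h5
    have h6 : m' * P ^ (2 * n + 1) = m' ⊓ P ^ (2 * n + 1) := Ideal.mul_eq_inf_of_isCoprime hcop
    show x ∈ m' * P ^ (2 * n + 1)
    rw [h6]
    exact ⟨h5, h4⟩
  -- fields
  have hF : RF m' ≤ RF m := f1 m m' hmm'
  haveI := hG.fin m hm0
  haveI := hG.gal m hm0
  set E : IntermediateField (kk A B) (RF m) := IntermediateField.restrict hF with hE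
  have e1 : Module.finrank (kk A B) (RF m') = Module.finrank (kk A B) E :=
    (IntermediateField.restrictAlgEquiv hF).toLinearEquiv.finrank_eq
  have e2 : Module.finrank (kk A B) E * Module.finrank E (RF m) =
      Module.finrank (kk A B) (RF m) := Module.finrank_mul_finrank _ _ _
  have e3 : Nat.card E.fixingSubgroup = Module.finrank E (RF m) :=
    IsGalois.card_fixingSubgroup_eq_finrank E
  rw [← e2, ← e3, e1, mul_comm]
  refine Nat.mul_le_mul_right _ ?_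
  -- the kernel
  have hker : ∀ σ : E.fixingSubgroup, ∃ α : OO A B, α - 1 ∈ m' ∧
      ActE (em (σ : RF m ≃ₐ[kk A B] RF m)) m α := by
    intro σ
    refine hG.ker m m' hm0 hmm' (em (σ : RF m ≃ₐ[kk A B] RF m)) ?_
    intro y hy hy'
    have h4 : (⟨y, hy⟩ : RF m) ∈ E := (IntermediateField.mem_restrict hF _).2 hy'
    have h5 := (IntermediateField.mem_fixingSubgroup_iff E _).1 σ.2 ⟨y, hy⟩ h4
    exact congrArg Subtype.val h5
  choose α hα1 hα2 using hker
  have hα3 : ∀ σ, α σ ∉ P := by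
    intro σ hσ
    have h4 := (hα2 σ).1
    have h5 : sp (α σ) ≤ P := (Ideal.span_singleton_le_iff_mem _).2 hσ
    have h7 : sp (α σ) ⊔ m = ⊤ := Ideal.isCoprime_iff_sup_eq.1 h4
    have h8 : (⊤ : Ideal (OO A B)) ≤ P := h7 ▸ sup_le h5 hmP
    exact hC.max.ne_top (top_le_iff.1 h8)
  have hinj : ∀ σ τ, α σ - α τ ∈ P ^ (2 * n + 1) → σ = τ := by
    intro σ τ h
    have h4 : α σ - α τ ∈ m' := by
      have := sub_mem (hα1 σ) (hα1 τ)
      rwa [sub_sub_sub_cancel_right] at this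
    have h5 : α σ - α τ ∈ m := hinf _ h h4
    have h6 := f5 m (RF m) (em (σ : RF m ≃ₐ[kk A B] RF m)) (α σ) (α τ) (Or.inl h5) (hα2 σ)
    have h7 := f3 m _ _ _ h6 (hα2 τ)
    apply Subtype.ext
    apply AlgEquiv.ext
    intro x
    apply Subtype.ext
    exact DFunLike.congr_fun h7 x
  have hcard : Nat.card E.fixingSubgroup ≤ Nat.card (box n) := by
    refine Nat.card_le_card_of_injective
      (fun σ => ⟨cls n (α σ), cls_mem P i3 hd n _ (hα3 σ)⟩) ?_
    intro σ τ h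
    exact hinj _ _ (cls_inj P i3 hd n (ipow n) _ _ (congrArg Subtype.val h))
  refine hcard.trans (le_of_eq ?_)
  rw [Nat.card_eq_fintype_card, Fintype.card_coe, card_box]

end

end Pool.Agent.NSER
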