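import Pool.Agent.NS.StER
import Pool.Agent.MUX.Q_YUN

/-!
# MUX-NS, block ER: the differences `x(b^l z₁) - x(z₁)` (DIF), `3` ramified (helper45)
-/

set_option autoImplicit false

open Polynomial

namespace Pool.Agent.NSER

open _root_.MU3 Pool.Agent.MU3A Pool.Agent.MU3B Pool.Agent.MUX Pool.Agent.MUXU Pool.Agent.MUXE
open Pool.Agent.RI Pool.Agent.NS Pool.Agent.NSRD
open Pool.Agent.MUXV (GR InK tX)
open Pool.Agent.NSE (E3 su ru WL IntP Rep)

noncomputable section

namespace DIF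

theorem sum3 (F : ℕ → ℕ) (k : ℕ) : ∑ l ∈ Finset.range (3 * k), F l =
    ∑ l ∈ Finset.range k, (F (3 * l) + F (3 * l + 1) + F (3 * l + 2)) := by
  induction k with
  | zero => simp
  | succ k ih =>
    rw [show 3 * (k + 1) = 3 * k + 1 + 1 + 1 by ring, Finset.sum_range_succ,
      Finset.sum_range_succ, Finset.sum_range_succ, ih, Finset.sum_range_succ]
    ring

/-- the exponent of the difference number `l` -/
def ex (l : ℕ) : ℕ := if l = 0 then 0 else 27 * 9 ^ (padicValNat 3 l)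

theorem ex_mul (l : ℕ) : ex (3 * l) = 9 * ex l := by
  unfold ex
  by_cases h : l = 0
  · simp [h]
  · have : Fact (Nat.Prime 3) := ⟨by norm_num⟩
    rw [if_neg (by omega), if_neg h, padicValNat.mul (by norm_num) h, padicValNat_self]
    ring

theorem ex_of_not {l : ℕ} (h : ¬ 3 ∣ l) : ex l = 27 := by
  unfold ex
  rw [if_neg (by rintro rfl; exact h (dvd_zero _)), padicValNat.eq_zero_of_not_dvd h]
  rfl

theorem ex_sum (M : ℕ) : ∑ l ∈ Finset.range (3 ^ M), ex l + 9 * 3 ^ M = 9 * 9 ^ M := by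
  induction M with
  | zero => simp [ex]
  | succ M ih =>
    rw [pow_succ', sum3]
    have h1 : ∑ l ∈ Finset.range (3 ^ M), (ex (3 * l) + ex (3 * l + 1) + ex (3 * l + 2)) =
        9 * ∑ l ∈ Finset.range (3 ^ M), ex l + 54 * 3 ^ M := by
      have h2 : ∀ l : ℕ, ex (3 * l) + ex (3 * l + 1) + ex (3 * l + 2) = 9 * ex l + 54 := by
        intro l
        rw [ex_mul, ex_of_not (l := 3 * l + 1) (by omega),
          ex_of_not (l := 3 * l + 2) (by omega)]
      simp only [h2]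
      rw [Finset.sum_add_distrib, ← Finset.mul_sum, Finset.sum_const, Finset.card_range,
        smul_eq_mul]
      ring
    rw [h1, pow_succ]
    linarith

theorem ex_sum' (M : ℕ) : ∑ l ∈ Finset.Ico 1 (3 ^ M), ex l = 3 ^ M * (9 * (3 ^ M - 1)) := by
  have h1 := ex_sum M
  have h0 : 1 ≤ 3 ^ M := Nat.one_le_pow _ _ (by norm_num)
  rw [Finset.range_eq_Ico, Finset.sum_eq_sum_Ico_succ_bot (by omega)] at h1
  have h2 : ex 0 = 0 := by simp [ex]
  rw [h2, zero_add, zero_add] at h1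
  obtain ⟨y, hy⟩ := Nat.exists_eq_add_of_le h0
  have h3 : (9 : ℕ) ^ M = 3 ^ M * 3 ^ M := by
    rw [← mul_pow]
    norm_num
  rw [h3] at h1
  rw [hy] at h1 ⊢
  rw [Nat.add_sub_cancel_left]
  nlinarith

theorem pow_inj {Γ : Type*} [LinearOrderedCommGroupWithZero Γ] {a b : Γ} {k : ℕ} (hk : k ≠ 0)
    (h : a ^ k = b ^ k) : a = b :=
  (pow_left_inj₀ zero_le zero_le hk).1 h

end DIF

open DIF in
theorem tf_DIF (h1 : Sf_GRN) (h2 : Sf_TNC) (h3 : Sf_TPR) (h4 : Sf_IDL) (h5 : Sf_BPW) :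
    Sf_DIF := by
  intro A B P V hC hT hG N u e lam hN hg n f hn hf h3f z₁ hz₁ b hb t ht
  have hR := hC.ring
  have hded := hR.ded
  obtain ⟨φ, hφ⟩ := hR.hom
  have hmul : ∀ x y : OO A B, emb (x * y) = emb x * emb y := fun x y => by
    rw [← hφ, map_mul, hφ, hφ]
  have hsub : ∀ x y : OO A B, emb (x - y) = emb x - emb y := fun x y => by
    rw [← hφ, map_sub, hφ, hφ]
  have hone : emb (1 : OO A B) = 1 := by rw [← hφ, map_one]
  have hnat : ∀ k : ℕ, emb ((k : ℕ) : OO A B) = k := fun k => by rw [← hφ, map_natCast]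
  have hint : ∀ k : ℤ, emb ((k : ℤ) : OO A B) = k := fun k => by rw [← hφ, map_intCast]
  have hnz : ∀ k : ℕ, k ≠ 0 → ((k : ℕ) : OO A B) ≠ 0 := by
    intro k hk h
    have h' := hnat k
    rw [h, ← hφ, map_zero] at h'
    exact hk (by exact_mod_cast h'.symm)
  have hv3 := hC.v3
  have hv30 : V.valuation (3 : ℂ) ≠ 0 := (Valuation.ne_zero_iff _).2 (by norm_num)
  have hf0 : f ≠ 0 := by omega
  obtain ⟨i1, i2, i3, i4, i5⟩ := h4 A B P V hC
  obtain ⟨j1, j2, j3, j4, j5, j6, j7⟩ := i5 f n hf0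
  obtain ⟨b1, b2, -⟩ := h5 A B P V hC f n b hf0 hb
  obtain ⟨ξ, G⟩ := h1 V N u e lam hg hv3
  have hlv : lvX 3 f n = 3 ^ (n + 1) * f := by
    unfold lvX q0
    rw [if_neg (by norm_num)]
    ring
  rw [hlv] at b2
  -- the points `z₁`, `2 z₁`
  have hord : ∀ k : ℕ, InK V N (xu N u e) ((k : ℂ) * z₁) → f ∣ k := by
    intro k hk
    have e1 := Pool.Agent.MUXV.inK_nat G hk (3 ^ (n + 1))
    have e2 := (h2 V N u e lam hg hv3 f h3f).2 _ (by
      have e3 := (hz₁ (((3 ^ (n + 1) * f * k : ℕ)) : OO A B)).2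
        ((j6 _).2 (dvd_mul_right _ _))
      rw [hnat] at e3
      convert e3 using 1
      push_cast
      ring) e1
    have e4 : emb (((3 ^ (n + 1) * k : ℕ)) : OO A B) * z₁ ∈ N.lattice := by
      rw [hnat]
      convert e2 using 1
      push_cast
      ring
    have e5 := (j6 _).1 ((hz₁ _).1 e4)
    exact (Nat.mul_dvd_mul_iff_left (by positivity)).1 e5
  have hz1 : ¬ InK V N (xu N u e) z₁ := by
    intro h
    have e1 := hord 1 (by simpa using h)
    have e2 := Nat.le_of_dvd (by norm_num) e1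
    omega
  have hz2 : ¬ InK V N (xu N u e) (2 * z₁) := by
    intro h
    have e1 := hord 2 (by exact_mod_cast h)
    have e2 := Nat.le_of_dvd (by norm_num) e1
    omega
  -- the discriminant
  have hdd : dD A B * dD A B = ((B ^ 2 + 4 * A : ℤ) : OO A B) := by
    have re_int : ∀ n : ℤ, ((n : ℤ) : OO A B).re = n := fun n => rfl
    have im_int : ∀ n : ℤ, ((n : ℤ) : OO A B).im = 0 := fun n => rfl
    ext
    · rw [QuadraticAlgebra.re_mul, re_int]
      simp only [dD]
      ring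
    · rw [QuadraticAlgebra.im_mul, im_int]
      simp only [dD]
      ring
  have hvD : V.valuation (((B ^ 2 + 4 * A : ℤ)) : ℂ) = V.valuation (3 : ℂ) := by
    rw [← hint, ← hdd, hmul, map_mul, ← sq, hC.vd]
  have hvint : ∀ k : ℤ, V.valuation (k : ℂ) ≤ 1 := fun k => by
    rw [← hint]; exact hC.int _
  have hD3 : (3 : ℤ) ∣ B ^ 2 + 4 * A := by
    by_contra hc
    have e1 : ¬ 3 ∣ (B ^ 2 + 4 * A).natAbs := by
      intro h
      exact hc (Int.natCast_dvd.2 h)
    have e2 := hC.nat _ e1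
    have e3 : V.valuation (((B ^ 2 + 4 * A).natAbs : ℕ) : ℂ) =
        V.valuation (((B ^ 2 + 4 * A : ℤ)) : ℂ) := by
      rcases Int.natAbs_eq (B ^ 2 + 4 * A) with h | h
      · rw [← Int.cast_natCast, ← h]
      · rw [← Valuation.map_neg, ← Int.cast_natCast, ← Int.cast_neg, ← h]
    rw [e3, hvD] at e2
    exact absurd e2 hv3.ne
  obtain ⟨D', hD'⟩ := hD3
  have hD'3 : ¬ (3 : ℤ) ∣ D' := by
    rintro ⟨D'', hD''⟩
    have e1 : (((B ^ 2 + 4 * A : ℤ)) : ℂ) = 3 * (3 * (D'' : ℂ)) := by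
      rw [hD', hD'']
      push_cast
      ring
    rw [e1, map_mul, map_mul] at hvD
    have e2 : V.valuation (3 : ℂ) * V.valuation (D'' : ℂ) = 1 := by
      apply mul_left_cancel₀ hv30
      rw [hvD, mul_one]
    have e3 : V.valuation (3 : ℂ) * V.valuation (D'' : ℂ) < 1 :=
      mul_lt_one_of_lt_of_le hv3 (hvint _)
    exact absurd e2 e3.ne
  obtain ⟨α, β, hαβ⟩ : IsCoprime (3 : ℤ) D' := by
    rw [Int.isCoprime_iff_gcd_eq_one]
    have hp : Prime (3 : ℤ) := Int.prime_three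
    exact Int.isCoprime_iff_gcd_eq_one.1 ((Prime.coprime_iff_not_dvd hp).2 hD'3)
  have hsq : ∀ y ∈ P, ∀ p ∈ P, dD A B * y = 3 * p → y ∈ P * P := by
    intro y hy p hp hyp
    have e1 : (D' : OO A B) * y = dD A B * p := by
      have e2 : (3 : OO A B) ≠ 0 := by exact_mod_cast hnz 3 (by norm_num)
      apply mul_left_cancel₀ e2
      have e3 : dD A B * (dD A B * y) = (3 : OO A B) * ((D' : OO A B) * y) := by
        rw [← mul_assoc, hdd, hD']
        push_cast
        ring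
      rw [← e3, hyp]
      ring
    have e4 : (D' : OO A B) * y ∈ P * P := by
      rw [e1]
      exact Ideal.mul_mem_mul hC.dP hp
    have e5 : (3 : OO A B) * y ∈ P * P := by
      rw [hC.sq]
      exact Ideal.mul_mem_right _ _ (Ideal.mem_span_singleton'.2 ⟨1, by push_cast; ring⟩)
    have e6 : y = (α : OO A B) * ((3 : OO A B) * y) + (β : OO A B) * ((D' : OO A B) * y) := by
      have e7 : ((α * 3 + β * D' : ℤ) : OO A B) = 1 := by rw [hαβ]; norm_num
      push_cast at e7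
      linear_combination (-y) * e7
    rw [e6]
    exact add_mem (Ideal.mul_mem_left _ _ e5) (Ideal.mul_mem_left _ _ e4)
  -- one difference
  have key : ∀ l, 0 < l → l < 3 ^ (n - 1) →
      V.valuation (xu N u e (emb (b ^ l) * z₁) - xu N u e z₁) = V.valuation t ^ ex l := by
    intro l hl0 hl
    have : Fact (Nat.Prime 3) := ⟨by norm_num⟩
    set j := padicValNat 3 l with hj
    have d1 : 3 ^ j ∣ l := pow_padicValNat_dvd
    have d2 : ¬ 3 ^ (j + 1) ∣ l := pow_succ_padicValNat_not_dvd hl0.ne'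
    have d3 : j < n - 1 :=
      (Nat.pow_lt_pow_iff_right (by norm_num)).1 (lt_of_le_of_lt (Nat.le_of_dvd hl0 d1) hl)
    obtain ⟨k, hk⟩ : ∃ k, n = k + j + 2 := ⟨n - 2 - j, by omega⟩
    obtain ⟨y, hy, hyP, hys⟩ := b2 l j d1 d2 (by omega)
    have hs : b ^ l - 1 - ((3 ^ (j + 1) * f : ℕ) : OO A B) * y ∈ lvR P f n := j3 hys
    obtain ⟨P₂, hP₂⟩ : ∃ w, w = emb (b ^ l - 1) * z₁ := ⟨_, rfl⟩
    have hzz : emb (b ^ l) * z₁ = z₁ + P₂ := by
      rw [hP₂, hsub, hone]
      ring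
    have hx : ∀ x : OO A B, emb x * P₂ ∈ N.lattice ↔
        x * (((3 ^ (j + 1) * f : ℕ) : OO A B) * y) ∈ lvR P f n := by
      intro x
      rw [hP₂, ← mul_assoc, ← hmul, hz₁]
      have e1 : x * (b ^ l - 1) = x * (b ^ l - 1 - ((3 ^ (j + 1) * f : ℕ) : OO A B) * y) +
          x * (((3 ^ (j + 1) * f : ℕ) : OO A B) * y) := by ring
      rw [e1]
      exact Ideal.add_mem_iff_right _ (Ideal.mul_mem_left _ _ hs)
    have t1 : Tor (P ^ (2 * k + 1 + 1)) N P₂ := by
      intro x hxP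
      rw [show 2 * k + 1 + 1 = 2 * (k + 1) by ring, i3] at hxP
      obtain ⟨c, rfl⟩ := Ideal.mem_span_singleton'.1 hxP
      rw [hx, j1]
      refine ⟨c * y, Ideal.mul_mem_left _ _ hy, ?_⟩
      rw [hk]
      push_cast
      ring
    have t2 : ¬ Tor (P ^ (2 * k + 1)) N P₂ := by
      intro hTor
      have e1 : ((3 ^ k : ℕ) : OO A B) * dD A B ∈ P ^ (2 * k + 1) := by
        rw [pow_succ, i3]
        exact Ideal.mul_mem_mul (Ideal.mem_span_singleton_self _) hC.dP
      have e2 := hTor _ e1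
      rw [hx, j1] at e2
      obtain ⟨p, hp, hpe⟩ := e2
      apply hyP
      apply hsq y hy p hp
      have e3 : ((3 ^ (k + j + 1) * f : ℕ) : OO A B) ≠ 0 := hnz _ (by positivity)
      apply mul_left_cancel₀ e3
      rw [hk] at hpe
      push_cast at hpe ⊢
      linear_combination hpe
    have hP₂L : P₂ ∉ N.lattice := by
      intro h
      apply t2
      intro x _
      obtain ⟨tra1, -⟩ := te_TRA A B hR N hN
      exact tra1 x P₂ h
    obtain ⟨q1, q2, q3⟩ := h3 A B P V hC hT hG (2 * k + 1) N u e lam hN hg P₂ t1 t2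
    have h11 := (Pool.Agent.MUXV.tq_YUN V (WL lam) N (xu N u e) (yu N u) ξ G z₁ hz1 hz2).2 P₂
      q1 hP₂L
    obtain ⟨-, h12, h13⟩ := Pool.Agent.MUXV.v_tX_lt G q1 hP₂L
    have h14 : V.valuation (su N u e P₂) = V.valuation (tX (xu N u e) (yu N u) P₂) ^ 2 := by
      unfold su
      rw [map_inv₀]
      exact inv_eq_of_mul_eq_one_right h13
    rw [hzz, h11]
    have hexl : ex l = 27 * 9 ^ j := by
      unfold ex
      rw [if_neg hl0.ne']
    rw [hexl]
    apply pow_inj (k := 4 * 3 ^ (2 * k + 1)) (by positivity)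
    rw [h14, ← pow_mul] at q3
    have e5 : 4 * 3 ^ (2 * k + 1) = 2 * (2 * 3 ^ (2 * k + 1)) := by ring
    rw [e5, q3, ← ht, ← pow_mul, hk]
    congr 1
    have e6 : (9 : ℕ) = 3 ^ 2 := by norm_num
    have e7 : (27 : ℕ) = 3 ^ 3 := by norm_num
    rw [e6, e7, ← pow_mul, ← pow_mul]
    ring
  refine ⟨?_, ?_⟩
  · intro l hl0 hl heq
    have e1 := key l hl0 hl
    rw [heq, sub_self, map_zero] at e1
    have e2 : V.valuation t = 0 := by
      by_contra hc
      exact pow_ne_zero _ hc e1.symm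
    rw [e2, zero_pow (by positivity)] at ht
    exact hv30 ht.symm
  · rw [map_prod]
    have e1 : ∀ l ∈ Finset.Ico 1 (3 ^ (n - 1)),
        V.valuation (xu N u e z₁ - xu N u e (emb (b ^ l) * z₁)) = V.valuation t ^ ex l := by
      intro l hl
      obtain ⟨hl1, hl2⟩ := Finset.mem_Ico.1 hl
      rw [← key l (by omega) hl2, Valuation.map_sub_swap]
    rw [Finset.prod_congr rfl e1, Finset.prod_pow_eq_pow_sum, ex_sum']

end

end Pool.Agent.NSER
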