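import Pool.Agent.NS.StER
import Pool.Agent.MUX.E_GAL

/-!
# MUX-NS, block ER, module FIN: the final form (helper86)
-/

set_option autoImplicit false

namespace Pool.Agent.NSER

open _root_.MU3 Pool.Agent.MU3A Pool.Agent.MU3B Pool.Agent.MUX Pool.Agent.MUXU Pool.Agent.MUXE
open Pool.Agent.RI Pool.Agent.NS Pool.Agent.NSRD

theorem tf_FIN (h1 : Sf_CTX) (h2 : Sf_RED) : Sf_FIN := by
  intro hR A B P V f hS hT ι _ R u e lam hG n hn H hH D h hD hb
  have hC := h1 A B P V hS.case hS.hP hS.hV hT hR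
  have hE := Pool.Agent.MUXE.te_GAL A B hC.ring hT
  have hf2 : 2 ∣ f := by
    have h3 : (2 : ℤ) ∣ 3 * (f : ℤ) := (Dvd.intro _ rfl : (2 : ℤ) ∣ 2 * absD A B).trans hS.fD
    omega
  have hf3 : 3 ≤ f := by
    have h3 : 2 * absD A B ≤ 3 * (f : ℤ) :=
      Int.le_of_dvd (by have := Nat.pos_of_ne_zero hS.f0; omega) hS.fD
    have h4 : 6 ≤ absD A B := by
      have hneg := hS.case.neg
      have h3' := hS.case.three
      have hexc := hS.case.exc
      unfold absD
      rcases hS.case.hB with hB | hB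
      · subst hB
        norm_num at hneg h3' ⊢
        omega
      · subst hB
        norm_num at hneg h3' hexc ⊢
        omega
    omega
  exact h2 A B P V hC hT hE n f hn hf3 hf2 hS.fp ι R u e lam hG H hH D h hD hb

end Pool.Agent.NSER
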