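import Pool.Agent.NS.StER

/-!
# MUX-NS, block ER, module IDL: the ideals `f P^(2n+1) = 3^n f P` (helper29)

`P² = (3)`, so `lvR P f n = (3^n f) P`; the ideal `P` is cancelled in the Dedekind domain `O`.
-/

set_option autoImplicit false

open Polynomial

namespace Pool.Agent.NSER

open _root_.MU3 Pool.Agent.MU3A Pool.Agent.MU3B Pool.Agent.MUX Pool.Agent.MUXU Pool.Agent.MUXE
open Pool.Agent.RI Pool.Agent.NS Pool.Agent.NSRD

noncomputable section

namespace IDLaux

variable {A B : ℤ} {P : Ideal (OO A B)}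

lemma three_mem (hsq : P * P = idl (A := A) (B := B) 3) : (3 : OO A B) ∈ P := by
  have h0 : ((3 : ℕ) : OO A B) ∈ P * P := by
    rw [hsq]
    exact Ideal.mem_span_singleton_self _
  have h1 := Ideal.mul_le_left h0
  exact_mod_cast h1

lemma nat_re (k : ℕ) : ((k : ℕ) : OO A B).re = (k : ℤ) := by
  simp

lemma nat_im (k : ℕ) : ((k : ℕ) : OO A B).im = 0 := by
  simp

lemma nat_ne (k : ℕ) (hk : k ≠ 0) : ((k : ℕ) : OO A B) ≠ 0 := by
  intro h
  have h1 := congrArg QuadraticAlgebra.re h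
  rw [nat_re, QuadraticAlgebra.re_zero] at h1
  exact hk (by exact_mod_cast h1)

lemma int_mem (h1 : (1 : OO A B) ∉ P) (h3 : (3 : OO A B) ∈ P) (n : ℤ) :
    ((n : ℤ) : OO A B) ∈ P ↔ (3 : ℤ) ∣ n := by
  constructor
  · intro hn
    by_contra hnd
    obtain ⟨a, b, hab⟩ := (Int.prime_three.coprime_iff_not_dvd).2 hnd
    apply h1
    have h4 := congrArg (Int.cast : ℤ → OO A B) hab
    push_cast at h4
    rw [← h4]
    exact P.add_mem (P.mul_mem_left _ h3) (P.mul_mem_left _ hn)
  · rintro ⟨k, rfl⟩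
    push_cast
    exact P.mul_mem_right _ h3

/-- cancelling `P` -/
lemma cancel {R : Type} [CommRing R] [IsDedekindDomain R] {P : Ideal R} (hP : P ≠ ⊥)
    (J : Ideal R) (x : R) (h : ∀ p ∈ P, p * x ∈ J * P) : x ∈ J := by
  have h1 : Ideal.span {x} * P ≤ J * P := by
    rw [Ideal.mul_le]
    intro r hr s hs
    obtain ⟨y, rfl⟩ := Ideal.mem_span_singleton.1 hr
    have h2 : x * y * s = y * (s * x) := by ring
    rw [h2]
    exact Ideal.mul_mem_left _ _ (h s hs)
  have h2 : J * P ∣ Ideal.span {x} * P := Ideal.dvd_iff_le.2 h1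
  have hP0 : P ≠ 0 := hP
  have h3 : J ∣ Ideal.span {x} := (mul_dvd_mul_iff_right hP0).1 h2
  have h4 : Ideal.span {x} ≤ J := Ideal.dvd_iff_le.1 h3
  exact (Ideal.span_singleton_le_iff_mem _).1 h4

lemma pow_two_mul (hsq : P * P = idl (A := A) (B := B) 3) (n : ℕ) :
    P ^ (2 * n) = idl (A := A) (B := B) (3 ^ n) := by
  rw [pow_mul, pow_two, hsq]
  unfold idl
  rw [Ideal.span_singleton_pow, Nat.cast_pow]

lemma idl_mul (a b : ℕ) : idl (A := A) (B := B) (a * b) = idl a * idl b := by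
  unfold idl
  rw [Ideal.span_singleton_mul_span_singleton, Nat.cast_mul]

lemma lvR_eq (hsq : P * P = idl (A := A) (B := B) 3) (f n : ℕ) :
    lvR P f n = idl (A := A) (B := B) (3 ^ n * f) * P := by
  unfold lvR
  rw [pow_succ, pow_two_mul hsq, ← mul_assoc, mul_comm (3 ^ n) f, idl_mul]

end IDLaux

open IDLaux in
/-- (IDL) the ideals `lvR P f n = f P^(2n+1) = 3^n f P` -/
theorem tf_IDL : Sf_IDL := by
  intro A B P V hc
  have := hc.ring.ded
  have h3 : (3 : OO A B) ∈ P := three_mem hc.sq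
  have h1 : (1 : OO A B) ∉ P := fun h => hc.max.ne_top ((Ideal.eq_top_iff_one P).2 h)
  have hP : P ≠ ⊥ := by
    intro h
    rw [h, Ideal.mem_bot] at h3
    exact nat_ne (A := A) (B := B) 3 (by norm_num) (by exact_mod_cast h3)
  refine ⟨h3, fun x hx => cancel hP P x hx, pow_two_mul hc.sq, ?_, ?_⟩
  · intro k
    have h := int_mem h1 h3 (k : ℤ)
    rw [Int.cast_natCast] at h
    rw [h]
    exact_mod_cast Iff.rfl
  intro f n hf
  have hlv := lvR_eq hc.sq f n
  have hc0 : 3 ^ n * f ≠ 0 := mul_ne_zero (pow_ne_zero _ (by norm_num)) hf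
  have hc1 : 3 ^ (n + 1) * f ≠ 0 := mul_ne_zero (pow_ne_zero _ (by norm_num)) hf
  have e1 : 3 ^ (n + 1) * f = 3 ^ n * f * 3 := by rw [pow_succ]; ring
  have hmem : ∀ x : OO A B, x ∈ lvR P f n ↔ ∃ p ∈ P, x = ((3 ^ n * f : ℕ) : OO A B) * p := by
    intro x
    rw [hlv]
    exact Ideal.mem_span_singleton_mul.trans
      ⟨fun ⟨p, hp, h⟩ => ⟨p, hp, h.symm⟩, fun ⟨p, hp, h⟩ => ⟨p, hp, h.symm⟩⟩
  have e2 : idl (A := A) (B := B) (3 ^ (n + 1) * f) = lvR P f n * P := by
    rw [e1, idl_mul, hlv, ← hc.sq, mul_assoc]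
  have hle : idl (A := A) (B := B) (3 ^ (n + 1) * f) ≤ lvR P f n := by
    rw [e2]
    exact Ideal.mul_le_left
  refine ⟨hmem, ?_, hle, ?_, ?_, ?_, ?_⟩
  · intro x
    rw [e2]
    constructor
    · intro hx p hp
      rw [mul_comm p x]
      exact Ideal.mul_mem_mul hx hp
    · intro hx
      exact cancel hP _ x hx
  · rw [hlv]
    exact Ideal.mul_le_left
  · intro h
    have h4 : ((3 ^ (n + 1) * f : ℕ) : OO A B) ∈ lvR P f n :=
      hle (Ideal.mem_span_singleton_self _)
    rw [h, Ideal.mem_bot] at h4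
    exact nat_ne _ hc1 h4
  · intro k
    constructor
    · intro hk
      obtain ⟨p, hp, h4⟩ := (hmem _).1 hk
      have hre := congrArg QuadraticAlgebra.re h4
      have him := congrArg QuadraticAlgebra.im h4
      rw [QuadraticAlgebra.re_mul, nat_re, nat_re, nat_im] at hre
      rw [QuadraticAlgebra.im_mul, nat_re, nat_im, nat_im] at him
      have hcz : ((3 ^ n * f : ℕ) : ℤ) ≠ 0 := by exact_mod_cast hc0
      have him0 : p.im = 0 := by
        have h5 : ((3 ^ n * f : ℕ) : ℤ) * p.im = 0 := by linarith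
        exact (mul_eq_zero.1 h5).resolve_left hcz
      have hp1 : p = ((p.re : ℤ) : OO A B) := by
        apply QuadraticAlgebra.ext
        · rw [QuadraticAlgebra.re_intCast]
          simp
        · rw [QuadraticAlgebra.im_intCast, him0]
      rw [hp1, int_mem h1 h3] at hp
      obtain ⟨t, ht⟩ := hp
      have h6 : ((3 ^ (n + 1) * f : ℕ) : ℤ) ∣ (k : ℤ) := by
        refine ⟨t, ?_⟩
        rw [hre, ht, e1]
        push_cast
        ring
      exact_mod_cast h6
    · rintro ⟨t, rfl⟩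
      rw [Nat.cast_mul]
      exact Ideal.mul_mem_right _ _ (hle (Ideal.mem_span_singleton_self _))
  · intro c hcop
    have h4 : IsCoprime c ((3 ^ (n + 1) * f : ℕ) : OO A B) := by
      rw [Nat.cast_mul] at hcop
      have h5 := IsCoprime.of_mul_right_left hcop
      have h6 := IsCoprime.of_mul_right_right hcop
      rw [Nat.cast_mul, Nat.cast_pow]
      exact IsCoprime.mul_right h5.pow_right h6
    refine ⟨?_, h4⟩
    have h7 : IsCoprime (sp c) (idl (A := A) (B := B) (3 ^ (n + 1) * f)) :=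
      (Ideal.isCoprime_span_singleton_iff _ _).2 h4
    rw [Ideal.isCoprime_iff_sup_eq] at h7 ⊢
    rw [eq_top_iff] at h7 ⊢
    exact h7.trans (sup_le_sup_left hle _)

end

end Pool.Agent.NSER
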