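import Pool.Agent.NS.StER

/-!
# MUX-NS, block ER, module INN: integrality and the sums over `E[P]` (helper44)
-/

set_option autoImplicit false

open Polynomial

namespace Pool.Agent.NSER

open _root_.MU3 Pool.Agent.MU3A Pool.Agent.MU3B Pool.Agent.MUX Pool.Agent.MUXU Pool.Agent.MUXE
open Pool.Agent.RI Pool.Agent.NS Pool.Agent.NSRD
open Pool.Agent.MUXV (GR InK tX)
open Pool.Agent.NSE (E3 su ru WL IntP Rep)

noncomputable section

namespace INN

/-- `|H|` is divisible by `3` -/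
lemma card3 {L : PeriodPair} {a : ℕ} {H : Finset ℂ} (ha : a ≠ 0) (h3 : ¬ 3 ∣ a)
    (hH : IsHalf L (a : ℂ) H) : 3 ∣ H.card := by
  obtain ⟨-, -, h⟩ := b_HRE L a H (by exact_mod_cast ha) (fun w hw => by
    have := nsmul_mem hw a
    rwa [nsmul_eq_mul] at this) hH
  have h1 : 2 * H.card + 1 = a ^ 2 := by
    rw [Complex.norm_natCast] at h
    exact_mod_cast h
  have h2 : a ^ 2 % 3 = 1 := by
    rw [Nat.pow_mod]
    have h4 : a % 3 = 1 ∨ a % 3 = 2 := by omega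
    rcases h4 with h4 | h4 <;> rw [h4]
  omega

/-- the theta product and the logarithmic derivative at one point -/
lemma core (hTHN : Sf_THN) (hNE1 : Sf_NE1) {V : ValuationSubring ℂ} {L M : PeriodPair}
    {u e lam u' e' lam' mu : ℂ} {N : ℕ} (hg : GoodR V L u e lam) (hg' : GoodR V M u' e' lam')
    (hv3 : V.valuation (3 : ℂ) < 1) (hmu : mu ≠ 0) (hI : Isg L M mu) (hN : ¬ 3 ∣ N)
    (hk : ∀ z, mu * z ∈ M.lattice → (N : ℂ) * z ∈ L.lattice) {j f a : ℕ} (hf2 : 2 ≤ f)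
    (hf : ¬ 3 ∣ f) (ha0 : a ≠ 0) (ha : ¬ 3 ∣ a) (hco : a.Coprime f) {H : Finset ℂ}
    (hH : IsHalf M (a : ℂ) H) {z : ℂ} (hm : ((3 ^ j * f : ℕ) : ℂ) * z ∈ M.lattice)
    (ho : ∀ c : ℕ, (c : ℂ) * z ∈ M.lattice → f ∣ c) :
    V.valuation (ThetaH M H z) = V.valuation (u' ^ 2) ^ H.card ∧
      V.valuation (mu * dlX M a z / u) ≤ 1 := by
  obtain ⟨hzK, hza, hzq⟩ := hNE1 V M u' e' lam' hg' hv3 j f a hf2 hf ha hco z hm ho
  obtain ⟨k1, k2, -⟩ := hTHN V L M u e lam u' e' lam' mu N hg hg' hv3 hmu hI hN hk a H ha0 hH z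
    hzK hza (fun q hq => hzq q (hH.mem q hq) (fun hqL => hH.ne q hq (by
      rw [two_mul]; exact add_mem hqL hqL)))
  exact ⟨k1, k2⟩

/-- a natural number in the ideal `(f)` is divisible by `f` -/
lemma dvd_of_idl {A B : ℤ} {f c : ℕ} (h : (c : OO A B) ∈ idl (A := A) (B := B) f) : f ∣ c := by
  obtain ⟨y, hy⟩ := Ideal.mem_span_singleton.1 h
  have h6 : (c : ℤ) = (f : ℤ) * y.re := by
    have := congrArg QuadraticAlgebra.re hy
    rw [QuadraticAlgebra.re_natCast, QuadraticAlgebra.re_mul, QuadraticAlgebra.re_natCast,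
      QuadraticAlgebra.im_natCast] at this
    linarith
  exact_mod_cast (Dvd.intro _ h6.symm : (f : ℤ) ∣ c)

end INN

open INN in
theorem tf_INN (hTHN : Sf_THN) (hNE1 : Sf_NE1) (hEXO : Sf_EXO) (hMUL : Sf_MUL) (hPIS : Sf_PIS)
    (hDIS : Sf_DIS) (hUNR : Sf_UNR) (hRP1 : Sf_RP1) : Sf_INN := by
  intro A B P V hC hT hG n f a hf3 hf2 hf ha3 hao hpa hco ι R u e lam hgood H hH i x hx q hq
  have ha0 : a ≠ 0 := by omega
  have hf0 : f ≠ 0 := by omega
  have hv3 := hC.v3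
  have hring := hC.ring
  obtain ⟨φ, hφ⟩ := hring.hom
  have emul : ∀ x y : OO A B, emb (x * y) = emb x * emb y := fun x y => by
    rw [← hφ, map_mul, hφ, hφ]
  have enat : ∀ n : ℕ, emb ((n : ℕ) : OO A B) = n := fun n => by rw [← hφ, map_natCast]
  have h3P : (3 : OO A B) ∈ P := by
    have h1 : (3 : OO A B) ∈ P * P := by
      rw [hC.sq]
      exact Ideal.mem_span_singleton.2 ⟨1, by push_cast; ring⟩
    exact Ideal.mul_le_left h1
  have hxP : x ∉ P := by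
    intro h
    apply hC.max.ne_top
    rw [Ideal.eq_top_iff_one]
    obtain ⟨b1, b2, hb⟩ := hx
    rw [← hb]
    refine add_mem (Ideal.mul_mem_left _ _ h) (Ideal.mul_mem_left _ _ ?_)
    have h2 : ((3 ^ (n + 1) * f : ℕ) : OO A B) = ((3 ^ n * f : ℕ) : OO A B) * 3 := by
      push_cast
      ring
    rw [h2]
    exact Ideal.mul_mem_left _ _ h3P
  have vx : V.valuation (emb x) = 1 := hC.unit x hxP
  obtain ⟨⟨hmu, hisg, N, hN3, hN⟩, hsec⟩ := hMUL A B P V hC (3 * f) ι R (by omega)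
    (dvd_mul_right _ _) i x hxP
  obtain ⟨hEx, hExN, hzl, -⟩ := hEXO A B P V hC n f ι R hf0 i x hx
  have hLi : NL A B (R.L i) := ⟨_, _, R.nl i⟩
  have hL0 : NL A B (R.L R.i0) := ⟨_, _, R.nl R.i0⟩
  obtain ⟨u', e', lam', hg'⟩ := hC.good (R.L i) hLi
  refine ⟨fun l => ?_, fun hqL => ?_⟩
  · obtain ⟨hm', ho'⟩ := hzl q hq l
    obtain ⟨k1, k2⟩ := core hTHN hNE1 hgood hg' hv3 hmu hisg hN3 hN (by omega) hf ha0 hpa hco
      (hH i) hm' ho'
    refine ⟨?_, ?_⟩
    · obtain ⟨k, hk⟩ := hUNR A B P V hC hT 2 (by norm_num) (by norm_num) _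
        (hRP1 A B P V hC hG (R.L i) u' e' lam' hLi hg').1
        (pow_ne_zero 2 hg'.u0)
      obtain ⟨t, ht⟩ := card3 ha0 hpa (hH i)
      refine ⟨k * t, ?_⟩
      rw [k1, hk, ht, ← zpow_natCast, ← zpow_mul]
      congr 1
      push_cast
      ring
    · have e1 : muX R i * emb x * dlX (R.L i) a (pt R (3 ^ (n + 1) * f) i x + l * q) / u =
          emb x * (muX R i * dlX (R.L i) a (pt R (3 ^ (n + 1) * f) i x + l * q) / u) := by ring
      rwa [e1, map_mul, vx, one_mul] at k2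
  · obtain ⟨N1, nu, hNL1, hQ⟩ := hC.exq (R.L i) hLi
    obtain ⟨N0, nu0, hNL0, hQ0⟩ := hC.exq (R.L R.i0) hL0
    obtain ⟨u1, e1, lam1, hg1⟩ := hC.good N1 hNL1
    obtain ⟨u0, e0, lam0, hg0⟩ := hC.good N0 hNL0
    obtain ⟨H', hH'⟩ := b_HAL N1 (a : ℂ) (by exact_mod_cast ha0) (fun w hw => by
      have := nsmul_mem hw a
      rwa [nsmul_eq_mul] at this) (fun z h1 h2 => by
        obtain ⟨k, hk⟩ := hao
        have h3 := nsmul_mem h2 k
        rw [nsmul_eq_mul] at h3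
        have h4 : z = (a : ℂ) * z - (k : ℂ) * (2 * z) := by
          rw [hk]
          push_cast
          ring
        rw [h4]
        exact sub_mem h1 h3)
    obtain ⟨hmu', hisg', N', hN3', hN'⟩ := hsec N0 N1 nu0 nu hQ0 hQ
    have hExN1 := hExN N1 nu hQ
    have hle : lvR P f n ≤ idl (A := A) (B := B) f := Ideal.mul_le_left
    have ho1 : ∀ c : ℕ, (c : ℂ) * (nu * pt R (3 ^ (n + 1) * f) i x) ∈ N1.lattice → f ∣ c := by
      intro c hc
      have hc' : (c : OO A B) ∈ lvR P f n := by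
        refine (hExN1 _).1 ?_
        rw [enat]
        exact hc
      exact dvd_of_idl (hle hc')
    have hm1 : ((3 ^ (n + 1) * f : ℕ) : ℂ) * (nu * pt R (3 ^ (n + 1) * f) i x) ∈ N1.lattice := by
      have e2 : ((3 ^ (n + 1) * f : ℕ) : ℂ) * (nu * pt R (3 ^ (n + 1) * f) i x) =
          nu * (((3 ^ (n + 1) * f : ℕ) : ℂ) * pt R (3 ^ (n + 1) * f) i x) := by ring
      rw [e2, hQ.2]
      intro p _
      have e3 : emb p * (((3 ^ (n + 1) * f : ℕ) : ℂ) * pt R (3 ^ (n + 1) * f) i x) =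
          emb (((3 ^ (n + 1) * f : ℕ) : OO A B) * p) * pt R (3 ^ (n + 1) * f) i x := by
        rw [emul, enat]
        ring
      rw [e3, hEx]
      exact Ideal.mem_span_singleton.2 ⟨p, rfl⟩
    obtain ⟨-, k2⟩ := core hTHN hNE1 hg0 hg1 hv3 hmu' hisg' hN3' hN' (by omega) hf ha0 hpa hco
      hH' hm1 ho1
    obtain ⟨C, -, hdis⟩ := hDIS A B P V hC (R.L i) N1 nu hLi hNL1 hQ a (H i) H' ha0 hpa (hH i)
      hH' q hq hqL
    have hsum := (hdis (pt R (3 ^ (n + 1) * f) i x) (fun h => by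
      have h7 := ho1 a h
      have h8 : Nat.gcd a f = f := Nat.gcd_eq_right h7
      rw [hco.gcd_eq_one] at h8
      omega)).2
    have hpis := hPIS A B P V hC hT hG (R.L R.i0) N0 nu0 u e lam u0 e0 lam0 hL0 hNL0 hQ0 hgood
      hg0
    have e4 : emb x * (muX R i * (∑ l ∈ Finset.range 3,
        dlX (R.L i) a (pt R (3 ^ (n + 1) * f) i x + l * q)) / u) =
        (muX R i * emb x * nu / nu0 * dlX N1 a (nu * pt R (3 ^ (n + 1) * f) i x) / u0) *
          (nu0 * u0 / u) := by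
      rw [hsum]
      have h9 := hQ0.1
      have h10 := hg0.u0
      have h11 := hgood.u0
      field_simp
    have e5 := congrArg V.valuation e4
    rw [map_mul, vx, one_mul, map_mul] at e5
    rw [e5, mul_pow, hpis]
    exact mul_le_of_le_one_left' (pow_le_one' k2 2)

end

end Pool.Agent.NSER
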