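import Pool.Agent.NS.StER

/-!
# MUX-NS, block ER, module ISO: the isogeny on the points of order three
-/

set_option autoImplicit false

open Polynomial

namespace Pool.Agent.NSER

open _root_.MU3 Pool.Agent.MU3A Pool.Agent.MU3B Pool.Agent.MUX Pool.Agent.MUXU Pool.Agent.MUXE
open Pool.Agent.RI Pool.Agent.NS Pool.Agent.NSRD
open Pool.Agent.NSE (E3 su ru WL IntP Rep)
open Pool.Agent.MUXV (GR InK tX)

noncomputable section

namespace ISO

variable {V : ValuationSubring ℂ}

lemma intP_iff {P : ℂ[X]} : IntP V P ↔ ∃ p : V[X], p.map (algebraMap V ℂ) = P := by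
  constructor
  · intro h
    have h1 : P ∈ Polynomial.lifts (algebraMap V ℂ) := by
      rw [Polynomial.lifts_iff_coeff_lifts]
      intro n
      exact ⟨⟨P.coeff n, (V.valuation_le_one_iff _).1 (h n)⟩, rfl⟩
    exact (Polynomial.mem_lifts _).1 h1
  · rintro ⟨p, rfl⟩ i
    rw [Polynomial.coeff_map]
    exact (V.valuation_le_one_iff _).2 (p.coeff i).2

lemma intP_W {P Q : ℂ[X]} (hP : IntP V P) (hQ : IntP V Q) :
    IntP V (derivative P * Q - P * derivative Q) := by
  obtain ⟨p, rfl⟩ := intP_iff.1 hP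
  obtain ⟨q, rfl⟩ := intP_iff.1 hQ
  refine intP_iff.2 ⟨derivative p * q - p * derivative q, ?_⟩
  rw [Polynomial.map_sub, Polynomial.map_mul, Polynomial.map_mul, Polynomial.derivative_map,
    Polynomial.derivative_map]

lemma intP_reflect {P : ℂ[X]} (N : ℕ) (h : IntP V P) : IntP V (reflect N P) := fun i => by
  rw [coeff_reflect]
  exact h _

lemma eval_reflect {P : ℂ[X]} {N : ℕ} (hf : P.natDegree ≤ N) {x : ℂ} (hx : x ≠ 0) :
    P.eval x = x ^ N * (reflect N P).eval x⁻¹ := by
  let _ := invertibleOfNonzero hx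
  have h := eval₂_reflect_mul_pow (RingHom.id ℂ) x N P hf
  rw [invOf_eq_inv] at h
  unfold Polynomial.eval
  rw [← h, mul_comm]

lemma eval_reflect_zero (P : ℂ[X]) (N : ℕ) : (reflect N P).eval 0 = P.coeff N := by
  rw [← coeff_zero_eq_eval_zero, coeff_reflect, revAt_zero]

lemma deg_W {P Q : ℂ[X]} (hPQ : P.natDegree = Q.natDegree + 1) :
    (derivative P * Q - P * derivative Q).natDegree ≤ Q.natDegree + Q.natDegree := by
  refine (natDegree_sub_le _ _).trans (max_le ?_ ?_)
  · refine natDegree_mul_le.trans ?_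
    have h := natDegree_derivative_le P
    omega
  · rcases Nat.eq_zero_or_pos Q.natDegree with h0 | h0
    · have h1 : derivative Q = 0 := by
        rw [eq_C_of_natDegree_eq_zero h0, derivative_C]
      rw [h1, mul_zero, natDegree_zero]
      omega
    · refine natDegree_mul_le.trans ?_
      have h := natDegree_derivative_le Q
      omega

lemma coeff_W {P Q : ℂ[X]} (hm : P.Monic) (hPQ : P.natDegree = Q.natDegree + 1) :
    (derivative P * Q - P * derivative Q).coeff (Q.natDegree + Q.natDegree) =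
      Q.leadingCoeff := by
  have hP1 : P.coeff (Q.natDegree + 1) = 1 := by
    rw [← hPQ]
    exact hm
  have h1 : (derivative P * Q).coeff (Q.natDegree + Q.natDegree) =
      (Q.natDegree + 1) * Q.leadingCoeff := by
    have h' : (derivative P).natDegree ≤ Q.natDegree := by
      have h := natDegree_derivative_le P
      omega
    rw [coeff_mul_add_eq_of_natDegree_le h' le_rfl, coeff_derivative, hP1, one_mul]
    rfl
  have h2 : (P * derivative Q).coeff (Q.natDegree + Q.natDegree) =
      Q.natDegree * Q.leadingCoeff := by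
    rcases Nat.eq_zero_or_pos Q.natDegree with h0 | h0
    · have h1 : derivative Q = 0 := by
        rw [eq_C_of_natDegree_eq_zero h0, derivative_C]
      rw [h1, mul_zero, coeff_zero, h0, Nat.cast_zero, zero_mul]
    · obtain ⟨d, hd⟩ : ∃ d, Q.natDegree = d + 1 := ⟨Q.natDegree - 1, by omega⟩
      have h3 : Q.natDegree + Q.natDegree = (d + 2) + d := by omega
      have h4 : (derivative Q).natDegree ≤ d := by
        have h := natDegree_derivative_le Q
        omega
      have h5 : P.natDegree ≤ d + 2 := by omega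
      rw [h3, coeff_mul_add_eq_of_natDegree_le h5 h4, coeff_derivative]
      have h6 : P.coeff (d + 2) = 1 := by
        rw [hd] at hP1
        exact hP1
      rw [h6, one_mul]
      unfold Polynomial.leadingCoeff
      rw [hd]
      push_cast
      ring
  rw [coeff_sub, h1, h2]
  ring

end ISO

open ISO in
/-- ISO. -/
theorem tf_ISO (h1 : Sf_ALG) (h2 : Sf_PRO) (h3 : Sf_PTS) (h4 : Sf_TW3) (h5 : Sf_UNT)
    (h6 : Sf_RAT) : Sf_ISO := by
  intro V L M u e lam u' e' lam' μ N hL hM hv hμ hI hN hz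
  have hE : ∀ Y ∈ E3 L, μ * Y ∈ E3 M := by
    rintro Y ⟨hY3, hY⟩
    refine ⟨?_, fun hmem => hY ?_⟩
    · have h7 := hI _ hY3
      rwa [mul_left_comm] at h7
    · have h7 := hz Y hmem
      have h8 : IsCoprime (3 : ℤ) (N : ℤ) := by
        rw [show (3 : ℤ) = ((3 : ℕ) : ℤ) by norm_num, Nat.isCoprime_iff_coprime]
        exact (Nat.Prime.coprime_iff_not_dvd Nat.prime_three).2 hN
      obtain ⟨a, b, hab⟩ := h8
      have h9 := add_mem (L.lattice.smul_mem a hY3) (L.lattice.smul_mem b h7)
      have h10 : a • (3 * Y) + b • ((N : ℂ) * Y) = Y := by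
        have h11 : (a : ℂ) * 3 + b * N = 1 := by exact_mod_cast hab
        rw [zsmul_eq_mul, zsmul_eq_mul]
        linear_combination Y * h11
      rwa [h10] at h9
  refine ⟨hE, ?_⟩
  have hν := h5 V L M u e lam u' e' lam' μ N hL hM hv hμ hI hN hz
  obtain ⟨P, Q, hP, hQ, hPm, hPQ, hQl, hPE⟩ := h6 V L M u e lam u' e' lam' μ N hL hM hv hμ hI hN hz
  set ν : ℂ := μ * u' / u with hνdef
  have hν0 : ν ≠ 0 := by
    intro h0
    rw [h0, map_zero] at hν
    exact zero_ne_one hν
  have hpts := (h3 V L u e lam hL hv).1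
  obtain ⟨hc, hs, hr, hch, -, hmul, hinv, -, -⟩ :=
    h1 V (E3 L) (su L u e) (ru L u e) (-(1 + lam)) lam hpts
  obtain ⟨hpol, -, -⟩ := h2 V (E3 L) (su L u e) (ru L u e) (-(1 + lam)) lam hpts
  -- exact change of representatives
  have hch0 : ∀ (F G : ℂ → ℂ) (α β α' β' : ℂ), Rep V (E3 L) (su L u e) (ru L u e) F α β →
      (∀ Y ∈ E3 L, G Y = F Y) → α' = α → β' = β →
      Rep V (E3 L) (su L u e) (ru L u e) G α' β' := by
    intro F G α β α' β' hF hG ha hb
    refine hch F G α β α' β' hF hG ?_ ?_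
    · rw [ha, sub_self, map_zero]
      exact zero_le
    · rw [hb, sub_self, map_zero]
      exact zero_le
  have hpR : ∀ (R : ℂ[X]) (n : ℕ), IntP V R → Rep V (E3 L) (su L u e) (ru L u e)
      (fun Y => (reflect n R).eval (su L u e Y)) (R.coeff n) 0 := by
    intro R n hR
    refine hch0 _ _ _ _ _ _ (hpol (su L u e) 0 0 (reflect n R) hs (intP_reflect n hR))
      (fun _ _ => rfl) ?_ ?_
    · rw [eval_reflect_zero]
    · rw [zero_mul]
  have hP1 : P.coeff (Q.natDegree + 1) = 1 := by
    rw [← hPQ]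
    exact hPm
  have rp := hpR P (Q.natDegree + 1) hP
  rw [hP1] at rp
  have rq := hpR Q Q.natDegree hQ
  have rw' := hpR (derivative P * Q - P * derivative Q) (Q.natDegree + Q.natDegree) (intP_W hP hQ)
  rw [coeff_W hPm hPQ, hQl] at rw'
  have hq0 : Q.coeff Q.natDegree = ν ^ 2 := hQl
  rw [hq0] at rq
  obtain ⟨hpu, rpi⟩ := hinv _ 1 0 rp (map_one _)
  have rpi' : Rep V (E3 L) (su L u e) (ru L u e)
      (fun Y => ((reflect (Q.natDegree + 1) P).eval (su L u e Y))⁻¹) 1 0 := by
    refine hch0 _ _ _ _ _ _ rpi (fun _ _ => rfl) ?_ ?_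
    · rw [inv_one]
    · rw [neg_zero, zero_div]
  have r1 := hmul _ _ _ _ _ _ hs (hmul _ _ _ _ _ _ rq rpi')
  have hνi : V.valuation ν⁻¹ ≤ 1 := by
    rw [map_inv₀, hν, inv_one]
  have r2 := hmul _ _ _ _ _ _ (hc ν⁻¹ hνi)
    (hmul _ _ _ _ _ _ hr (hmul _ _ _ _ _ _ rw' (hmul _ _ _ _ _ _ rpi' rpi')))
  -- the identities
  have key : ∀ Y ∈ E3 L,
      su M u' e' (μ * Y) = su L u e Y * ((reflect Q.natDegree Q).eval (su L u e Y) *
        ((reflect (Q.natDegree + 1) P).eval (su L u e Y))⁻¹) ∧
      ru M u' e' (μ * Y) = ν⁻¹ * (ru L u e Y *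
        ((reflect (Q.natDegree + Q.natDegree) (derivative P * Q - P * derivative Q)).eval
          (su L u e Y) * (((reflect (Q.natDegree + 1) P).eval (su L u e Y))⁻¹ *
            ((reflect (Q.natDegree + 1) P).eval (su L u e Y))⁻¹))) := by
    intro Y hY
    obtain ⟨-, hx0, -⟩ := h4 V L u e lam hL hv Y hY
    obtain ⟨e1, e2⟩ := hPE Y (hE Y hY).2
    have hp1 := hpu Y hY
    have hPe := eval_reflect (P := P) (N := Q.natDegree + 1) hPQ.le hx0
    have hQe := eval_reflect (P := Q) (N := Q.natDegree) le_rfl hx0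
    have hWe := eval_reflect (P := derivative P * Q - P * derivative Q) (deg_W hPQ) hx0
    have hsu : su L u e Y = (xu L u e Y)⁻¹ := rfl
    have hru : ru L u e Y = -yu L u Y / xu L u e Y ^ 2 := rfl
    have hsu' : su M u' e' (μ * Y) = (xu M u' e' (μ * Y))⁻¹ := rfl
    have hru' : ru M u' e' (μ * Y) = -yu M u' (μ * Y) / xu M u' e' (μ * Y) ^ 2 := rfl
    rw [hsu] at hp1 ⊢
    rw [hru, hsu', hru']
    rw [hQe, hPe] at e1
    rw [hQe, hWe] at e2
    clear hPe hQe hWe hsu hru hsu' hru' r1 r2 rp rq rw' rpi rpi'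
    generalize (reflect (Q.natDegree + 1) P).eval (xu L u e Y)⁻¹ = p at *
    generalize (reflect Q.natDegree Q).eval (xu L u e Y)⁻¹ = q at *
    generalize (reflect (Q.natDegree + Q.natDegree)
      (derivative P * Q - P * derivative Q)).eval (xu L u e Y)⁻¹ = w at *
    generalize xu L u e Y = x at *
    generalize xu M u' e' (μ * Y) = x' at *
    generalize yu L u Y = y at *
    generalize yu M u' (μ * Y) = y' at *
    generalize Q.natDegree = d at *
    have hp0 : p ≠ 0 := by
      intro h0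
      rw [h0, map_zero] at hp1
      exact zero_ne_one hp1
    have hxd : x ^ d ≠ 0 := pow_ne_zero _ hx0
    have e1' : x' * q = x * p := by
      apply mul_left_cancel₀ hxd
      rw [pow_succ] at e1
      linear_combination e1
    have hx'0 : x' ≠ 0 := by
      rintro rfl
      rw [zero_mul] at e1'
      exact mul_ne_zero hx0 hp0 e1'.symm
    have hq0 : q ≠ 0 := by
      rintro rfl
      rw [mul_zero] at e1'
      exact mul_ne_zero hx0 hp0 e1'.symm
    have e2' : ν * y' * q ^ 2 = y * w := by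
      apply mul_left_cancel₀ (mul_ne_zero hxd hxd)
      rw [pow_add] at e2
      linear_combination e2
    constructor
    · field_simp
      linear_combination -e1'
    · have hx'e : x' = x * p / q := by
        field_simp
        exact e1'
      have hy'e : y' = y * w / (ν * q ^ 2) := by
        field_simp
        linear_combination e2'
      rw [hx'e, hy'e]
      field_simp
  refine ⟨?_, ?_⟩
  · refine hch0 _ _ _ _ _ _ r1 (fun Y hY => (key Y hY).1) ?_ ?_
    · rw [zero_mul]
    · ring
  · refine hch0 _ _ _ _ _ _ r2 (fun Y hY => (key Y hY).2) ?_ ?_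
    · ring
    · field_simp
      ring

end

end Pool.Agent.NSER
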