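import Pool.Agent.NS.StER

/-!
# MUXER_LAG: Lagrange interpolation over a valuation ring
-/

set_option autoImplicit false

open Polynomial

namespace Pool.Agent.NSER

open Pool.Agent.NSE (IntP)

noncomputable section

/-- `Sf_LAG`. -/
theorem tf_LAG : Sf_LAG := by
  intro V e π H hπ hinj hH
  have hφinj : Function.Injective (algebraMap V ℂ) := fun a b h => Subtype.ext h
  have hHl : H ∈ Polynomial.lifts (algebraMap V ℂ) := by
    rw [Polynomial.lifts_iff_coeff_lifts]
    intro n
    exact ⟨⟨H.coeff n, (V.valuation_le_one_iff _).1 (hH n)⟩, rfl⟩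
  obtain ⟨H', hH'⟩ := (Polynomial.mem_lifts H).1 hHl
  let p : ℕ → V := fun l => if h : l < e then ⟨π l, (V.valuation_le_one_iff _).1 (hπ l h)⟩ else 0
  have hp : ∀ l < e, ((p l : V) : ℂ) = π l := by
    intro l hl
    simp only [p, dif_pos hl]
  have hG : (Lagrange.nodal (Finset.range e) p).map (algebraMap V ℂ) =
      Lagrange.nodal (Finset.range e) π := by
    rw [Lagrange.nodal_eq, Lagrange.nodal_eq, Polynomial.map_prod]
    refine Finset.prod_congr rfl fun l hl => ?_
    rw [Polynomial.map_sub, Polynomial.map_X, Polynomial.map_C]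
    congr 2
    exact hp l (Finset.mem_range.1 hl)
  have hmon : (Lagrange.nodal (Finset.range e) p).Monic := Lagrange.nodal_monic
  have hmonC : (Lagrange.nodal (Finset.range e) π).Monic := Lagrange.nodal_monic
  have hR : (H' %ₘ Lagrange.nodal (Finset.range e) p).map (algebraMap V ℂ) =
      H %ₘ Lagrange.nodal (Finset.range e) π := by
    rw [Polynomial.map_modByMonic _ hmon, hG, hH']
  rcases Nat.eq_zero_or_pos e with he | he
  · subst he
    simp
  have hdeg : (H %ₘ Lagrange.nodal (Finset.range e) π).degree < (e : WithBot ℕ) := by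
    have h := Polynomial.degree_modByMonic_lt H hmonC
    rwa [Lagrange.degree_nodal, Finset.card_range] at h
  have hvs : Set.InjOn π (Finset.range e : Set ℕ) := by
    intro a ha b hb hab
    exact hinj a (by simpa using ha) b (by simpa using hb) hab
  have hco := Lagrange.coeff_eq_sum (s := Finset.range e) (v := π) hvs
    (P := H %ₘ Lagrange.nodal (Finset.range e) π)
    (by rw [Finset.card_range]; exact hdeg)
  have hev : ∀ l ∈ Finset.range e,
      (H %ₘ Lagrange.nodal (Finset.range e) π).eval (π l) = H.eval (π l) := by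
    intro l hl
    have h := congrArg (Polynomial.eval (π l))
      (Polynomial.modByMonic_add_div H (Lagrange.nodal (Finset.range e) π))
    rw [Polynomial.eval_add, Polynomial.eval_mul, Lagrange.eval_nodal_at_node hl, zero_mul,
      add_zero] at h
    exact h
  have hsum : (∑ l ∈ Finset.range e, H.eval (π l) /
      ∏ l' ∈ (Finset.range e).erase l, (π l - π l')) =
      (H %ₘ Lagrange.nodal (Finset.range e) π).coeff ((Finset.range e).card - 1) := by
    rw [hco]
    exact Finset.sum_congr rfl fun l hl => by rw [hev l hl]
  rw [hsum, ← hR, Polynomial.coeff_map]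
  exact (V.valuation_le_one_iff _).2 (Subtype.mem _)

end

end Pool.Agent.NSER
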