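import Pool.Agent.NS.StER

/-!
# MUX-NS, block ER, module LEG (helper86): the points of order two
-/

set_option autoImplicit false

open Polynomial

namespace Pool.Agent.NSER

open _root_.MU3 Pool.Agent.MU3A Pool.Agent.MU3B Pool.Agent.MUX Pool.Agent.MUXU Pool.Agent.MUXE
open Pool.Agent.RI Pool.Agent.NS
open Pool.Agent.MUXV (GR InK tX)

noncomputable section

theorem tf_LEG : Sf_LEG := by
  intro V L u e lam h h3
  have hu := h.u0
  obtain ⟨w₁, hw₁, h1⟩ := b_SUR L e
  obtain ⟨w₂, hw₂, h2⟩ := b_SUR L (e + u ^ 2)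
  have x1 : xu L u e w₁ = 0 := by
    unfold xu
    rw [h1]
    simp
  have x2 : xu L u e w₂ = 1 := by
    unfold xu
    rw [h2]
    field_simp
    ring
  have key : ∀ w : ℂ, w ∉ L.lattice → (xu L u e w = 0 ∨ xu L u e w = 1) →
      2 * w ∈ L.lattice := by
    intro w hw hx
    have h5 : yu L u w ^ 2 = xu L u e w * (xu L u e w - 1) * (xu L u e w - lam) := h.eq w hw
    have h6 : yu L u w ^ 2 = 0 := by
      rw [h5]
      rcases hx with hx | hx
      · rw [hx]
        ring
      · rw [hx]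
        ring
    have h7 : yu L u w = 0 := by
      exact pow_eq_zero_iff (two_ne_zero) |>.mp h6
    have h8 : L.derivWeierstrassP w = 0 := by
      unfold yu at h7
      rcases div_eq_zero_iff.mp h7 with h9 | h9
      · exact h9
      · exact absurd h9 (mul_ne_zero two_ne_zero (pow_ne_zero 3 hu))
    exact (b_ZER L w hw).mp h8
  refine ⟨w₁, w₂, key w₁ hw₁ (Or.inl x1), hw₁, key w₂ hw₂ (Or.inr x2), hw₂, h1, ?_, x1⟩
  rw [h1, h2]
  ring

end

end Pool.Agent.NSER
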