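import Pool.Agent.NS.StER
import Pool.Agent.MUX.XLib

/-!
# MUX-NS, block ER, module MUL: the isogenies `μ_i x : L_(i0) → L_i` and `μ_i x ν/ν_0 : N_0 → N`
have degree prime to 3 (first part adapted from helper83's `E_MUL.lean`)
-/

set_option autoImplicit false

namespace Pool.Agent.NSER

open _root_.MU3 Pool.Agent.MU3A Pool.Agent.MU3B Pool.Agent.MUX Pool.Agent.MUXU Pool.Agent.MUXE
open Pool.Agent.RI Pool.Agent.NS Pool.Agent.NSRD

noncomputable section

namespace MUL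

/-- the first part -/
lemma first {A B : ℤ} {P : Ideal (OO A B)} {V : ValuationSubring ℂ} (hC : CtxR A B P V)
    {n : ℕ} {ι : Type} (R : Reps A B n ι) (h3n : 3 ∣ n) (i : ι) (x : OO A B) (hx : x ∉ P) :
    muX R i * emb x ≠ 0 ∧ Isg (R.L R.i0) (R.L i) (muX R i * emb x) ∧
      ∃ N : ℕ, ¬ 3 ∣ N ∧ ∀ z, muX R i * emb x * z ∈ (R.L i).lattice →
        (N : ℂ) * z ∈ (R.L R.i0).lattice := by
  have h := hC.cq
  have hnl := R.nl i
  have hnl0 := R.nl R.i0
  have hom : R.om i ≠ 0 := hnl.om_ne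
  have hom0 : R.om R.i0 ≠ 0 := hnl0.om_ne
  have hN0 : nI (R.b i) ≠ 0 := nI_ne_zero h hnl.b_ne
  have hNC : ((nI (R.b i) : ℕ) : ℂ) ≠ 0 := by exact_mod_cast hN0
  have hNb : ((nI (R.b i) : ℕ) : OO A B) ∈ R.b i := nI_mem h hnl.b_ne
  have hx0 : x ≠ 0 := by
    rintro rfl
    exact hx (Ideal.zero_mem _)
  have hex : emb x ≠ 0 := emb_ne_zero h hx0
  have hmu : muX R i ≠ 0 := by
    unfold muX
    exact div_ne_zero (mul_ne_zero hom hNC) hom0
  have hL0 : ∀ z, z ∈ (R.L R.i0).lattice ↔ ∃ x : OO A B, z = R.om R.i0 * emb x := by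
    intro z
    rw [hnl0.mem, R.b0]
    simp
  have h3 : Nat.Prime 3 := Nat.prime_three
  refine ⟨mul_ne_zero hmu hex, ?_, (nm x).natAbs * nI (R.b i), ?_, ?_⟩
  · intro u hu
    obtain ⟨y, rfl⟩ := (hL0 u).1 hu
    rw [hnl.mem]
    refine ⟨(nI (R.b i) : ℕ) * (x * y), (R.b i).mul_mem_right _ hNb, ?_⟩
    rw [emb_mul h, emb_mul h, emb_natCast h]
    unfold muX
    field_simp
  · intro hd
    rcases h3.dvd_mul.1 hd with h4 | h4
    · apply hC.nrm x hx
      exact Int.natCast_dvd.2 h4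
    · have h5 : 3 ∣ Nat.gcd (nI (R.b i)) n := Nat.dvd_gcd h4 h3n
      rw [Nat.Coprime.gcd_eq_one (R.cop i)] at h5
      omega
  · intro z hz
    obtain ⟨y, -, hy⟩ := (hnl.mem _).1 hz
    rw [hL0]
    refine ⟨star x * y, ?_⟩
    have h1 : (nI (R.b i) : ℂ) * emb x * z = R.om R.i0 * emb y := by
      unfold muX at hy
      field_simp at hy
      linear_combination hy
    have h2 : (((nm x).natAbs : ℕ) : ℂ) = emb x * emb (star x) := by
      have h6 : (((nm x).natAbs : ℕ) : ℤ) = nm x := Int.natAbs_of_nonneg (nm_nonneg h x)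
      rw [← emb_mul h, mul_star, emb_intCast h, ← Int.cast_natCast, h6]
    rw [emb_mul h]
    have h7 : (((nm x).natAbs : ℕ) : ℂ) * (nI (R.b i) : ℂ) * z =
        R.om R.i0 * (emb (star x) * emb y) := by
      rw [h2]
      linear_combination (emb (star x)) * h1
    rw [← h7, Nat.cast_mul]

end MUL

theorem tf_MUL : Sf_MUL := by
  intro A B P V hC n ι R _ h3n i x hx
  obtain ⟨h1, h2, m, hm, h3⟩ := MUL.first hC R h3n i x hx
  refine ⟨⟨h1, h2, m, hm, h3⟩, ?_⟩
  intro N0 N nu0 nu hq0 hq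
  set μ : ℂ := muX R i * emb x with hμ
  have n0 : nu0 ≠ 0 := hq0.1
  have n1 : nu ≠ 0 := hq.1
  refine ⟨div_ne_zero (mul_ne_zero h1 n1) n0, ?_, m, hm, ?_⟩
  · intro z hz
    have e1 : nu0 * (z / nu0) = z := by field_simp
    have h4 := (hq0.2 (z / nu0)).1 (by rw [e1]; exact hz)
    have e2 : μ * nu / nu0 * z = nu * (μ * (z / nu0)) := by field_simp
    rw [e2, hq.2]
    intro p hp
    have h5 := h2 _ (h4 p hp)
    have e3 : emb p * (μ * (z / nu0)) = μ * (emb p * (z / nu0)) := by ring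
    rw [e3]
    exact h5
  · intro z hz
    have e2 : μ * nu / nu0 * z = nu * (μ * (z / nu0)) := by field_simp
    rw [e2, hq.2] at hz
    have e1 : (m : ℂ) * z = nu0 * (m * (z / nu0)) := by field_simp
    rw [e1, hq0.2]
    intro p hp
    have h5 := hz p hp
    have e3 : emb p * (μ * (z / nu0)) = μ * (emb p * (z / nu0)) := by ring
    rw [e3] at h5
    have h6 := h3 _ h5
    have e4 : emb p * ((m : ℂ) * (z / nu0)) = m * (emb p * (z / nu0)) := by ring
    rw [e4]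
    exact h6

end

end Pool.Agent.NSER
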