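import Pool.Agent.NS.StER

/-!
# MUX-NS, block ER, module ORB: a transversal of the orbits of a free cyclic action (helper80)
-/

set_option autoImplicit false

open Polynomial

namespace Pool.Agent.NSER

open _root_.MU3 Pool.Agent.MU3A Pool.Agent.MU3B Pool.Agent.MUX Pool.Agent.MUXU Pool.Agent.MUXE
open Pool.Agent.RI Pool.Agent.NS Pool.Agent.NSRD
open Pool.Agent.MUXV (GR InK tX)
open Pool.Agent.NSE (E3 su ru WL IntP Rep)

noncomputable section

namespace ORB

/-- two exponents give the same point only if they are equal -/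
lemma inj {α : Type} {φ : α → α} {e : ℕ} {x : α} (h1 : φ^[e] x = x)
    (h2 : ∀ l, 0 < l → l < e → φ^[l] x ≠ x) {l m : ℕ} (hlm : l < m) (hm : m < e) :
    φ^[l] x ≠ φ^[m] x := by
  intro h
  have h3 : φ^[e - l] (φ^[l] x) = φ^[e - l] (φ^[m] x) := by rw [h]
  rw [← Function.iterate_add_apply, ← Function.iterate_add_apply] at h3
  have e1 : e - l + l = e := by omega
  have e2 : e - l + m = (m - l) + e := by omega
  rw [e1, e2, Function.iterate_add_apply, h1] at h3
  exact h2 (m - l) (by omega) (by omega) h3.symm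

lemma iter_mem {α : Type} {S : Finset α} {φ : α → α} (h : ∀ x ∈ S, φ x ∈ S) {x : α} (hx : x ∈ S) :
    ∀ l : ℕ, φ^[l] x ∈ S
  | 0 => hx
  | l + 1 => by
    rw [Function.iterate_succ_apply']
    exact h _ (iter_mem h hx l)

lemma iter_mod {α : Type} {φ : α → α} {e : ℕ} {x : α} (h1 : φ^[e] x = x) (k : ℕ) :
    φ^[k] x = φ^[k % e] x := by
  have h2 : ∀ q : ℕ, φ^[e * q] x = x := by
    intro q
    rw [Function.iterate_mul]
    exact Function.iterate_fixed h1 q
  conv_lhs => rw [← Nat.mod_add_div k e, Function.iterate_add_apply, h2]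

lemma main {α : Type} {φ : α → α} {e : ℕ} (he : 0 < e) : ∀ (n : ℕ) (S : Finset α), S.card = n →
    (∀ x ∈ S, φ x ∈ S) → (∀ x ∈ S, φ^[e] x = x) →
    (∀ x ∈ S, ∀ l, 0 < l → l < e → φ^[l] x ≠ x) →
    ∃ T : Finset α, T ⊆ S ∧
      (∀ F : α → ℂ, ∏ x ∈ S, F x = ∏ x ∈ T, ∏ l ∈ Finset.range e, F (φ^[l] x)) ∧
      ∀ F : α → ℂ, ∑ x ∈ S, F x = ∑ x ∈ T, ∑ l ∈ Finset.range e, F (φ^[l] x) := by
  classical
  intro n
  induction n using Nat.strong_induction_on with
  | _ n ih =>
    intro S hS h1 h2 h3
    rcases S.eq_empty_or_nonempty with rfl | ⟨x, hx⟩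
    · exact ⟨∅, Finset.Subset.refl _, fun F => by simp, fun F => by simp⟩
    · set O : Finset α := (Finset.range e).image (fun l => φ^[l] x) with hO
      have hOS : O ⊆ S := by
        intro y hy
        obtain ⟨l, -, rfl⟩ := Finset.mem_image.1 hy
        exact iter_mem h1 hx l
      have hxO : x ∈ O := Finset.mem_image.2 ⟨0, Finset.mem_range.2 he, rfl⟩
      have hinj : Set.InjOn (fun l => φ^[l] x) (Finset.range e : Set ℕ) := by
        intro l hl m hm hlm
        have hl' : l < e := Finset.mem_range.1 hl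
        have hm' : m < e := Finset.mem_range.1 hm
        rcases lt_trichotomy l m with h | h | h
        · exact absurd hlm (inj (h2 x hx) (h3 x hx) h hm')
        · exact h
        · exact absurd hlm.symm (inj (h2 x hx) (h3 x hx) h hl')
      have hcard : (S \ O).card < n := by
        rw [← hS]
        refine Finset.card_lt_card ⟨Finset.sdiff_subset, fun h => ?_⟩
        exact (Finset.mem_sdiff.1 (h hx)).2 hxO
      have hst : ∀ y ∈ S \ O, φ y ∈ S \ O := by
        intro y hy
        obtain ⟨hyS, hyO⟩ := Finset.mem_sdiff.1 hy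
        refine Finset.mem_sdiff.2 ⟨h1 y hyS, fun h => hyO ?_⟩
        obtain ⟨l, -, hl⟩ := Finset.mem_image.1 h
        have e1 : φ^[e - 1] (φ y) = y := by
          rw [← Function.iterate_succ_apply]
          have : (e - 1).succ = e := by omega
          rw [this]
          exact h2 y hyS
        rw [← hl] at e1
        have e2 : φ^[e - 1 + l] x = y := by
          rw [Function.iterate_add_apply]
          exact e1
        rw [iter_mod (h2 x hx)] at e2
        exact Finset.mem_image.2 ⟨_, Finset.mem_range.2 (Nat.mod_lt _ he), e2⟩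
      obtain ⟨T, hT, hp, hs⟩ := ih _ hcard (S \ O) rfl hst
        (fun y hy => h2 y (Finset.mem_sdiff.1 hy).1) (fun y hy => h3 y (Finset.mem_sdiff.1 hy).1)
      have hxT : x ∉ T := fun h => (Finset.mem_sdiff.1 (hT h)).2 hxO
      refine ⟨insert x T, ?_, fun F => ?_, fun F => ?_⟩
      · intro y hy
        rcases Finset.mem_insert.1 hy with rfl | h
        · exact hx
        · exact (Finset.mem_sdiff.1 (hT h)).1
      · rw [Finset.prod_insert hxT, ← hp F, ← Finset.prod_sdiff hOS, mul_comm]
        congr 1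
        rw [hO, Finset.prod_image hinj]
      · rw [Finset.sum_insert hxT, ← hs F, ← Finset.sum_sdiff hOS, add_comm]
        congr 1
        rw [hO, Finset.sum_image hinj]

end ORB

/-- (ORB) a transversal of the orbits of a free cyclic action -/
theorem tf_ORB : Sf_ORB := fun _ S _ _ he h1 h2 h3 => ORB.main he S.card S rfl h1 h2 h3

end

end Pool.Agent.NSER
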