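import Pool.Agent.NS.F_RED

/-!
# MUX-NS, block ER, module PAL (helper75): the sums over the small group, on `L_i`

The manipulations of the points (`RED.orbit`, `RED.sum_split`, `RED.notPP`) are those of `F_RED.lean`.
-/

set_option autoImplicit false

namespace Pool.Agent.NSER

open _root_.MU3 Pool.Agent.MU3A Pool.Agent.MU3B Pool.Agent.MUX Pool.Agent.MUXU Pool.Agent.MUXE
open Pool.Agent.RI Pool.Agent.NS Pool.Agent.NSRD

noncomputable section

namespace PAL75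

/-- half systems exist for odd natural numbers -/
theorem half (N : PeriodPair) {a : ℕ} (ha : Odd a) : ∃ H : Finset ℂ, IsHalf N (a : ℂ) H := by
  have ha0 : a ≠ 0 := by
    rintro rfl
    simp at ha
  refine b_HAL N (a : ℂ) (by exact_mod_cast ha0) (fun w hw => ?_) (fun z h1 h2 => ?_)
  · have := nsmul_mem hw a
    rwa [nsmul_eq_mul] at this
  · obtain ⟨k, rfl⟩ := ha
    have h3 := nsmul_mem h2 k
    rw [nsmul_eq_mul] at h3
    have h4 := sub_mem h1 h3
    have e : ((2 * k + 1 : ℕ) : ℂ) * z - (k : ℂ) * (2 * z) = z := by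
      push_cast
      ring
    rwa [e] at h4

/-- `dlX` is periodic -/
theorem dl_per (L : PeriodPair) (a : ℕ) (z w : ℂ) (hw : w ∈ L.lattice) :
    dlX L a (z + w) = dlX L a z := by
  have h6 := (b_PER L).1
  unfold dlX
  rw [h6 z w hw, mul_add, h6 (a * z) (a * w) (by
    have := nsmul_mem hw a
    rwa [nsmul_eq_mul] at this)]

/-- the valuations -/
theorem val {V : ValuationSubring ℂ} {n : ℕ} (hn : 1 ≤ n) {c d e : ℂ}
    (h1 : V.valuation c ^ (4 * 3 ^ n) ≤ V.valuation (3 : ℂ) ^ (3 ^ n - 3))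
    (h2 : V.valuation d ^ 2 = V.valuation (3 : ℂ)) (h3 : V.valuation e = 1) :
    V.valuation (c * d * e) ^ (4 * 3 ^ n) ≤ V.valuation (3 : ℂ) ^ (3 * 3 ^ n - 3) := by
  have h4 : 3 ≤ 3 ^ n := by
    calc 3 = 3 ^ 1 := by norm_num
      _ ≤ 3 ^ n := Nat.pow_le_pow_right (by norm_num) hn
  rw [map_mul, map_mul, h3, mul_one, mul_pow]
  have h5 : V.valuation d ^ (4 * 3 ^ n) = V.valuation (3 : ℂ) ^ (2 * 3 ^ n) := by
    rw [show 4 * 3 ^ n = 2 * (2 * 3 ^ n) by ring, pow_mul, h2]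
  rw [h5]
  calc V.valuation c ^ (4 * 3 ^ n) * V.valuation (3 : ℂ) ^ (2 * 3 ^ n)
      ≤ V.valuation (3 : ℂ) ^ (3 ^ n - 3) * V.valuation (3 : ℂ) ^ (2 * 3 ^ n) :=
        mul_le_mul' h1 le_rfl
    _ = V.valuation (3 : ℂ) ^ (3 * 3 ^ n - 3) := by
        rw [← pow_add]
        congr 1
        omega

end PAL75

open PAL75 in
theorem tf_PAL (hPAR : Sf_PAR) (hPIS : Sf_PIS) (hDIS : Sf_DIS) (hEXO : Sf_EXO) (hUNT : Sf_UNT)
    (hMUL : Sf_MUL) (hBPW : Sf_BPW) (hIDL : Sf_IDL) : Sf_PAL := by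
  intro A B P V hC hT hE n f a hn hf3 hf2 hf ha3 hao ha haf ι R u e lam hG b hb i x hx
  have hf0 : f ≠ 0 := by omega
  have hv3 := hC.v3
  obtain ⟨φ, hφ⟩ := hC.ring.hom
  obtain ⟨hb1, hb2, -, -, -⟩ := hBPW A B P V hC f n b hf0 hb
  obtain ⟨h3P, -, -, hnP, hlev⟩ := hIDL A B P V hC
  obtain ⟨-, -, -, -, -, hlvn, -⟩ := hlev f n hf0
  obtain ⟨k, rfl⟩ : ∃ k, n = k + 1 := ⟨n - 1, by omega⟩
  have hlv : lvX 3 f (k + 1) = 3 ^ (k + 1 + 1) * f := by
    simp [lvX, q0]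
    ring
  rw [hlv] at hx hb1 hb2 ⊢
  obtain ⟨m, hm⟩ : ∃ m, m = 3 ^ (k + 1 + 1) * f := ⟨_, rfl⟩
  -- `b^(3^k) = 1 + t`
  obtain ⟨y, hyP, hyPP, hy⟩ := hb2 (3 ^ k) k dvd_rfl (by
    intro h5
    have := (Nat.pow_dvd_pow_iff_le_right (by norm_num : 1 < 3)).1 h5
    omega) le_rfl
  obtain ⟨t, ht⟩ : ∃ t : OO A B, t = ((3 ^ (k + 1) * f : ℕ) : OO A B) * y := ⟨_, rfl⟩
  rw [← ht] at hy
  have htt : t * t ∈ idl (A := A) (B := B) m := by
    rw [ht, Ideal.mem_span_singleton, hm]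
    refine ⟨((3 ^ k * f : ℕ) : OO A B) * (y * y), ?_⟩
    push_cast
    ring
  have hEX := hEXO A B P V hC (k + 1) f ι R hf0 i
  rw [← hm] at hx hb1 hy hEX ⊢
  -- the points
  obtain ⟨z0, hz0⟩ : ∃ z0 : ℂ, ∀ x, pt R m i x = φ x * z0 :=
    ⟨R.om i * nI (R.b i) / m, fun x => by unfold pt; rw [hφ]; ring⟩
  have hex : ∀ x : OO A B, IsCoprime x ((m : ℕ) : OO A B) →
      ∀ c : OO A B, φ c * pt R m i x ∈ (R.L i).lattice ↔ c ∈ idl (A := A) (B := B) m := by
    intro x hx c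
    rw [hφ]
    exact (hEX x hx).1 c
  have hper : ∀ c ∈ idl (A := A) (B := B) m, φ c * z0 ∈ (R.L i).lattice := by
    intro c hc
    have h6 := (hex 1 isCoprime_one_left c).2 hc
    rwa [hz0, map_one, one_mul] at h6
  have hxl : ∀ l : ℕ, IsCoprime (x * b ^ l) ((m : ℕ) : OO A B) := fun l =>
    hx.mul_left hb1.pow_left
  have htor : ∀ x : OO A B, IsCoprime x ((m : ℕ) : OO A B) →
      Tor P (R.L i) (φ t * pt R m i x) ∧ φ t * pt R m i x ∉ (R.L i).lattice := by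
    intro x hx
    refine ⟨fun p hp => ?_, fun h6 => ?_⟩
    · rw [← hφ, ← mul_assoc, ← map_mul, hex x hx]
      have h7 : p * y ∈ P * P := Ideal.mul_mem_mul hp hyP
      rw [hC.sq, Ideal.mem_span_singleton] at h7
      obtain ⟨w, hw⟩ := h7
      rw [Ideal.mem_span_singleton]
      refine ⟨w, ?_⟩
      rw [ht, hm]
      calc p * (((3 ^ (k + 1) * f : ℕ) : OO A B) * y) =
            ((3 ^ (k + 1) * f : ℕ) : OO A B) * (p * y) := by ring
        _ = _ := by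
            rw [hw]
            push_cast
            ring
    · rw [hex x hx, ht] at h6
      refine hyPP (RED.notPP hC (k := 3 ^ (k + 1) * f) (r := 1)
        (mul_ne_zero (by positivity) hf0) ?_)
      rw [hm] at h6
      rw [show 3 ^ (k + 1) * f * (3 * 1) = 3 ^ (k + 1 + 1) * f by ring]
      exact h6
  have horb : ∀ l j : ℕ, dlX (R.L i) a (pt R m i (x * b ^ (l + 3 ^ k * j))) =
      dlX (R.L i) a (pt R m i (x * b ^ l) + j * (φ t * pt R m i (x * b ^ l))) := by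
    intro l j
    rw [hz0, hz0]
    exact RED.orbit φ hper (dlX (R.L i) a) (dl_per (R.L i) a) hy htt (by rw [sub_self]; exact zero_mem _)
  -- the lattice `N`
  have hNL : NL A B (R.L i) := ⟨_, _, R.nl i⟩
  obtain ⟨N, nu, hN, hQ⟩ := hC.exq (R.L i) hNL
  obtain ⟨u1, e1, lam1, hG1⟩ := hC.good (R.L i) hNL
  obtain ⟨u2, e2, lam2, hG2⟩ := hC.good N hN
  obtain ⟨H', hH'⟩ := half N hao
  obtain ⟨H, hH⟩ := half (R.L i) hao
  have ha0 : a ≠ 0 := by omega
  have hEx2 : ∀ x : OO A B, IsCoprime x ((m : ℕ) : OO A B) →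
      Ex (lvR P f (k + 1)) N (nu * pt R m i x) := fun x hx => (hEX x hx).2.1 N nu hQ
  -- the distribution relation
  have hdis : ∀ l : ℕ, (∑ j ∈ Finset.range 3, dlX (R.L i) a (pt R m i (x * b ^ (l + 3 ^ k * j)))) =
      nu * dlX N a (emb (b ^ l) * (nu * pt R m i x)) := by
    intro l
    obtain ⟨hq1, hq2⟩ := htor _ (hxl l)
    obtain ⟨C, -, hCC⟩ := hDIS A B P V hC (R.L i) N nu hNL hN hQ a H H' ha0 ha hH hH' _ hq1 hq2
    have h1 := (hCC (pt R m i (x * b ^ l)) ?_).2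
    · rw [Finset.sum_congr rfl fun j _ => horb l j, h1]
      congr 2
      rw [hz0, hz0, map_mul, ← hφ]
      ring
    · intro h2
      have h3 : ((a : ℕ) : OO A B) ∈ lvR P f (k + 1) := by
        rw [← hEx2 _ (hxl l), ← hφ, map_natCast]
        exact h2
      rw [hlvn] at h3
      exact ha ((dvd_mul_right 3 _).trans ((by
        rw [pow_succ', mul_assoc] at h3
        exact h3)))
  have hsum : (∑ l ∈ Finset.range (3 ^ (k + 1)), dlX (R.L i) a (pt R m i (x * b ^ l))) =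
      nu * ∑ l ∈ Finset.range (3 ^ k), dlX N a (emb (b ^ l) * (nu * pt R m i x)) := by
    rw [show 3 ^ (k + 1) = 3 ^ k * 3 from pow_succ 3 k, RED.sum_split, Finset.mul_sum]
    exact Finset.sum_congr rfl fun l _ => hdis l
  -- the three factors
  have hpar := hPAR A B P V hC hT hE N u2 e2 lam2 hN hG2 (k + 1) f a hn hf3 hf2 hf ha3 ha haf H' hH'
    (nu * pt R m i x) (hEx2 x hx) b hb
  have hpis := hPIS A B P V hC hT hE (R.L i) N nu u1 e1 lam1 u2 e2 lam2 hNL hN hQ hG1 hG2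
  have hunt : V.valuation (muX R i * u1 / u) = 1 := by
    obtain ⟨⟨h1, h2, M, h3, h4⟩, -⟩ := hMUL A B P V hC (3 * f) ι R (by omega) (dvd_mul_right _ _) i 1
      (by
        have := hC.max.ne_top
        rwa [Ne, Ideal.eq_top_iff_one] at this)
    have h5 : emb (1 : OO A B) = 1 := by rw [← hφ, map_one]
    rw [h5, mul_one] at h1 h2 h4
    exact hUNT V (R.L R.i0) (R.L i) u e lam u1 e1 lam1 (muX R i) M hG hG1 hv3 h1 h2 h3 h4
  have hu := hG.u0
  have hu1 := hG1.u0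
  have hu2 := hG2.u0
  have hfin := val hn hpar hpis hunt
  rw [Nat.add_sub_cancel] at hfin
  have e3 : muX R i * (∑ l ∈ Finset.range (3 ^ (k + 1)), dlX (R.L i) a
      (pt R m i (x * b ^ l))) / u =
      (∑ l ∈ Finset.range (3 ^ k), dlX N a (emb (b ^ l) * (nu * pt R m i x))) / u2 *
        (nu * u2 / u1) * (muX R i * u1 / u) := by
    rw [hsum]
    generalize (∑ l ∈ Finset.range (3 ^ k), dlX N a (emb (b ^ l) * (nu * pt R m i x))) = S
    field_simp
  rw [e3]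
  exact hfin

end

end Pool.Agent.NSER
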