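import Pool.Agent.NS.StER
import Pool.Agent.MUX.Q_YUN

/-!
# MUX-NS, block ER, module PAR: the sums over the small group, on `N` (helper90)
-/

set_option autoImplicit false

open Polynomial

namespace Pool.Agent.NSER

open _root_.MU3 Pool.Agent.MU3A Pool.Agent.MU3B Pool.Agent.MUX Pool.Agent.MUXU Pool.Agent.MUXE
open Pool.Agent.RI Pool.Agent.NS Pool.Agent.NSRD
open Pool.Agent.MUXV (GR InK tX)
open Pool.Agent.NSE (E3 su ru WL IntP Rep)

noncomputable section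

namespace PAR

variable {A B : ℤ}

/-- the exponents -/
theorem expo {Γ : Type*} [LinearOrderedCommGroupWithZero Γ] (S p t : Γ) (n : ℕ) (hn : 1 ≤ n)
    (h1 : S ≤ p ^ (3 ^ (n - 1) * (9 * (3 ^ (n - 1) - 1)))) (h2 : p ^ (4 * 9 ^ n) = t) :
    S ^ (4 * 3 ^ n) ≤ t ^ (3 ^ n - 3) := by
  obtain ⟨m, rfl⟩ : ∃ m, n = m + 1 := ⟨n - 1, by omega⟩
  rw [Nat.add_sub_cancel] at h1
  obtain ⟨e, he⟩ : ∃ e, e + 1 = 3 ^ m := ⟨3 ^ m - 1, Nat.sub_add_cancel (Nat.one_le_pow _ _ (by norm_num))⟩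
  have h9 : 9 ^ m = (e + 1) ^ 2 := by
    rw [he, ← pow_mul, mul_comm m 2, pow_mul]; norm_num
  have h3 : 3 ^ (m + 1) - 3 = 3 * e := by
    rw [pow_succ, ← he]; omega
  rw [← he, Nat.add_sub_cancel] at h1
  rw [h3, ← h2, ← pow_mul]
  refine (pow_le_pow_left' h1 _).trans_eq ?_
  rw [← pow_mul]
  congr 1
  rw [pow_succ 9 m, h9, pow_succ 3 m, ← he]
  ring

/-- a point of `E[P^(2n)]` is in the kernel of reduction, and its parameter is smaller than a uniformiser -/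
theorem small (h1 : Sf_TPR) (hGRN : Sf_GRN) {P : Ideal (OO A B)} {V : ValuationSubring ℂ}
    (hC : CtxR A B P V) (hT : TorX A B) (hG : GalE A B) {N : PeriodPair} {u e lam : ℂ}
    (hN : NL A B N) (hgood : GoodR V N u e lam) (n : ℕ) (w : ℂ) (hw : Tor (P ^ (2 * n)) N w)
    (hwN : w ∉ N.lattice) (p : V.ValueGroup) (hp : p ^ (4 * 9 ^ n) = V.valuation (3 : ℂ)) :
    InK V N (xu N u e) w ∧ V.valuation (tX (xu N u e) (yu N u) w) < p := by
  classical
  obtain ⟨φ, hφ⟩ := hC.ring.hom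
  have hone : emb (1 : OO A B) = 1 := by rw [← hφ, map_one]
  have hex : ∃ i, Tor (P ^ i) N w := ⟨_, hw⟩
  obtain ⟨i, hi⟩ : ∃ i, i = Nat.find hex := ⟨_, rfl⟩
  have hi1 : Tor (P ^ i) N w := by rw [hi]; exact Nat.find_spec hex
  have hi2 : i ≤ 2 * n := by rw [hi]; exact Nat.find_min' hex hw
  have hi0 : i ≠ 0 := by
    rintro h
    rw [h, pow_zero, Ideal.one_eq_top] at hi1
    have := hi1 1 Submodule.mem_top
    rw [hone, one_mul] at this
    exact hwN this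
  obtain ⟨j, rfl⟩ : ∃ j, i = j + 1 := ⟨i - 1, by omega⟩
  have hj : ¬ Tor (P ^ j) N w := fun h => by
    have := Nat.find_min' hex h
    omega
  obtain ⟨hE, hx0, hv⟩ := h1 A B P V hC hT hG j N u e lam hN hgood w hi1 hj
  refine ⟨hE, ?_⟩
  obtain ⟨ξ, G⟩ := hGRN V N u e lam hgood hC.v3
  obtain ⟨t1, t2, t3⟩ := Pool.Agent.MUXV.v_tX_lt G hE hwN
  have h14 : V.valuation (su N u e w) = V.valuation (tX (xu N u e) (yu N u) w) ^ 2 := by
    unfold su
    rw [map_inv₀]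
    exact inv_eq_of_mul_eq_one_right t3
  rw [h14, ← pow_mul, ← hp] at hv
  by_contra hlt
  rw [not_lt] at hlt
  have h5 : V.valuation (tX (xu N u e) (yu N u) w) ^ (2 * (2 * 3 ^ j)) ≤
      V.valuation (tX (xu N u e) (yu N u) w) ^ (4 * 9 ^ n) := by
    rw [hv]; exact pow_le_pow_left' hlt _
  have h6 : (2 * (2 * 3 ^ j)) < 4 * 9 ^ n := by
    have : 3 ^ j < 3 ^ (2 * n) := Nat.pow_lt_pow_right (by norm_num) (by omega)
    have h9 : 9 ^ n = 3 ^ (2 * n) := by rw [pow_mul]; norm_num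
    omega
  have h7 := pow_lt_pow_right_of_lt_one₀ (zero_lt_iff.2 t2) t1 h6
  exact absurd h5 (not_le.2 h7)

/-- iterating a field automorphism -/
theorem iter {K : Type} [Field K] [Algebra K ℂ] {M : IntermediateField K ℂ} (σ : M ≃ₐ[K] M)
    (X : ℕ → ℂ) (hX : ∀ l, X l ∈ M) (h : ∀ l, (σ ⟨X l, hX l⟩ : ℂ) = X (l + 1)) (l : ℕ) :
    (σ ^ l) ⟨X 0, hX 0⟩ = ⟨X l, hX l⟩ := by
  induction l with
  | zero => rfl
  | succ l ih =>
    rw [pow_succ', AlgEquiv.mul_apply, ih]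
    exact Subtype.ext (h l)

end PAR

open PAR in
theorem tf_PAR (hCOE : Sf_COE) (hGRN : Sf_GRN) (hNE1 : Sf_NE1) (hTPR : Sf_TPR) (hUNI : Sf_UNI)
    (hTRV : Sf_TRV) (hBPW : Sf_BPW) (hDIF : Sf_DIF) (hXCJ : Sf_XCJ) (hIDL : Sf_IDL) :
    Sf_PAR := by
  intro A B P V hC hT hG N u e lam hN hgood n f a hn hf h2f h3f ha h3a haf H' hH' z₁ hz₁ b hb
  have hR := hC.ring
  obtain ⟨φ, hφ⟩ := hR.hom
  have hmul : ∀ x y : OO A B, emb (x * y) = emb x * emb y := fun x y => by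
    rw [← hφ, map_mul, hφ, hφ]
  have hadd : ∀ x y : OO A B, emb (x + y) = emb x + emb y := fun x y => by
    rw [← hφ, map_add, hφ, hφ]
  have hsub : ∀ x y : OO A B, emb (x - y) = emb x - emb y := fun x y => by
    rw [← hφ, map_sub, hφ, hφ]
  have hone : emb (1 : OO A B) = 1 := by rw [← hφ, map_one]
  have hnat : ∀ k : ℕ, emb ((k : ℕ) : OO A B) = k := fun k => by rw [← hφ, map_natCast]
  have hint : ∀ k : ℤ, emb ((k : ℤ) : OO A B) = k := fun k => by rw [← hφ, map_intCast]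
  have hv3 := hC.v3
  have hf0 : f ≠ 0 := by omega
  have ha0 : a ≠ 0 := by omega
  have hfa0 : f * a ≠ 0 := Nat.mul_ne_zero hf0 ha0
  obtain ⟨h3P, -, hpow, -, hidl⟩ := hIDL A B P V hC
  obtain ⟨m1, -, m3, -, -, m6, -⟩ := hidl f n hf0
  obtain ⟨k1, -, k3, -, k5, -, k7⟩ := hidl (f * a) n hfa0
  obtain ⟨o1, -, -, o4, -, -, -⟩ := hidl f 1 hf0
  have hlv : lvX 3 f n = 3 ^ (n + 1) * f := by
    simp [lvX, q0]; ring
  -- `b'`
  obtain ⟨α, β, hαβ⟩ : ∃ α β : ℤ, α * a + β * (3 ^ (n + 1) * f) = 1 := by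
    have h1 : IsCoprime (a : ℤ) ((3 ^ (n + 1) * f : ℕ) : ℤ) := by
      rw [Nat.isCoprime_iff_coprime]
      refine Nat.Coprime.mul_right (Nat.Coprime.pow_right _ ?_) haf
      exact ((Nat.Prime.coprime_iff_not_dvd (by norm_num)).2 h3a).symm
    obtain ⟨α, β, h⟩ := h1
    refine ⟨α, β, ?_⟩
    push_cast at h
    exact h
  have hαβ' : (α : OO A B) * (a : OO A B) + (β : OO A B) * (3 ^ (n + 1) * (f : OO A B)) = 1 := by
    have := congrArg (fun t : ℤ => (t : OO A B)) hαβ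
    push_cast at this
    exact this
  obtain ⟨b', hb'⟩ : ∃ b' : OO A B, b' = b + (1 - b) * ((β : OO A B) *
    (3 ^ (n + 1) * (f : OO A B))) := ⟨_, rfl⟩
  have hIB : IsB f n b' := by
    unfold IsB at hb ⊢
    have h1 : b' * (1 - ((3 * f : ℕ) : OO A B) * dD A B) - (1 + ((3 * f : ℕ) : OO A B) * dD A B) =
        (b * (1 - ((3 * f : ℕ) : OO A B) * dD A B) - (1 + ((3 * f : ℕ) : OO A B) * dD A B)) +
        ((1 - b) * (β : OO A B) * (1 - ((3 * f : ℕ) : OO A B) * dD A B)) *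
          ((lvX 3 f n : ℕ) : OO A B) := by
      rw [hb', hlv]
      push_cast
      ring
    rw [h1]
    exact add_mem hb (Ideal.mul_mem_left _ _ (Ideal.mem_span_singleton_self _))
  obtain ⟨-, -, -, -, hbf⟩ := hBPW A B P V hC f n b hf0 hb
  obtain ⟨hbc, hbl, -, -, hb'f⟩ := hBPW A B P V hC f n b' hf0 hIB
  have hb1 : b' - 1 ∈ idl (A := A) (B := B) (f * a) := by
    have h0 := hbf hn 1
    rw [pow_one] at h0
    have h1 := o4 h0
    obtain ⟨c, hc⟩ := Ideal.mem_span_singleton'.1 h1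
    rw [Ideal.mem_span_singleton']
    refine ⟨3 * c * (α : OO A B), ?_⟩
    have h2 : b' - 1 = (b - 1) * ((α : OO A B) * (a : OO A B)) := by
      rw [hb']
      linear_combination (b - 1) * (-hαβ')
    rw [h2, ← hc]
    push_cast
    ring
  have hcop : IsCoprime b' ((3 * (f * a) : ℕ) : OO A B) := by
    have h1 : IsCoprime b' ((3 * f : ℕ) : OO A B) := by
      have h2 : ((lvX 3 f n : ℕ) : OO A B) = ((3 * f : ℕ) : OO A B) * ((3 ^ n : ℕ) : OO A B) := by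
        rw [hlv]; push_cast; ring
      rw [h2] at hbc
      exact hbc.of_mul_right_left
    have h2 : IsCoprime b' ((a : ℕ) : OO A B) := by
      obtain ⟨c, hc⟩ := Ideal.mem_span_singleton'.1 hb1
      refine ⟨1, -(c * f), ?_⟩
      push_cast at hc
      linear_combination -hc
    have h3 : ((3 * (f * a) : ℕ) : OO A B) = ((3 * f : ℕ) : OO A B) * ((a : ℕ) : OO A B) := by
      push_cast; ring
    rw [h3]
    exact h1.mul_right h2
  obtain ⟨σ, hσ⟩ := hG.sur (lvR P (f * a) n) k5 b' (k7 b' hcop).1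
  -- periodicity
  obtain ⟨-, -, -, v2, -, -, -, -, hper⟩ := hCOE V N u e lam hgood hv3
  have hxper : ∀ z : ℂ, ∀ w ∈ N.lattice, xu N u e (z + w) = xu N u e z := fun z w hw =>
    ((hper z).1 w hw).1
  have hdper : ∀ z : ℂ, ∀ w ∈ N.lattice, dlX N a (z + w) = dlX N a z := by
    intro z w hw
    have haw : (a : ℂ) * w ∈ N.lattice := by
      have := N.lattice.smul_mem (a : ℤ) hw
      simpa [zsmul_eq_mul] using this
    obtain ⟨p1, -⟩ := b_PER N
    unfold dlX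
    rw [mul_add, p1 _ _ haw, p1 _ _ hw]
  -- the points
  obtain ⟨zl, hzl⟩ : ∃ zl : ℕ → ℂ, ∀ l, zl l = emb (b' ^ l) * z₁ := ⟨_, fun _ => rfl⟩
  have hzl0 : zl 0 = z₁ := by rw [hzl, pow_zero, hone, one_mul]
  have hzls : ∀ l, emb b' * zl l = zl (l + 1) := fun l => by
    rw [hzl, hzl, pow_succ', hmul, mul_assoc]
  have hMlv : ((lvX 3 f n : ℕ) : OO A B) ∈ lvR P f n := by
    rw [hlv]; exact m3 (Ideal.mem_span_singleton_self _)
  have hEx : ∀ l, Ex (lvR P f n) N (zl l) := by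
    intro l x
    rw [hzl, ← mul_assoc, ← hmul, hz₁]
    constructor
    · intro h
      obtain ⟨s, t, hst⟩ := (hbc.pow_left (m := l))
      have h1 : x = s * (x * b' ^ l) + x * t * ((lvX 3 f n : ℕ) : OO A B) := by
        linear_combination (-x) * hst
      rw [h1]
      exact add_mem (Ideal.mul_mem_left _ _ h) (Ideal.mul_mem_left _ _ hMlv)
    · intro h
      exact Ideal.mul_mem_right _ _ h
  have hTor : ∀ l, Tor (lvR P f n) N (zl l) := fun l x hx => (hEx l x).2 hx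
  have hnatEx : ∀ (l c : ℕ), (c : ℂ) * zl l ∈ N.lattice → 3 ^ (n + 1) * f ∣ c := by
    intro l c hc
    rw [← hnat, hEx l] at hc
    exact (m6 c).1 hc
  have hcf : ∀ (l c : ℕ), (c : ℂ) * zl l ∈ N.lattice → f ∣ c := fun l c hc =>
    (Dvd.intro_left _ rfl).trans (hnatEx l c hc)
  have hm0 : ∀ l, ((3 ^ (n + 1) * f : ℕ) : ℂ) * zl l ∈ N.lattice := by
    intro l
    rw [← hnat, hEx l]
    exact (m6 _).2 dvd_rfl
  have hne1 := fun l => hNE1 V N u e lam hgood hv3 (n + 1) f a (by omega) h3f h3a haf (zl l)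
    (hm0 l) (hcf l)
  have hlvP : ∀ x ∈ lvR P f n, x ∈ P := by
    intro x hx
    obtain ⟨p, hp, rfl⟩ := (m1 x).1 hx
    exact Ideal.mul_mem_left _ _ hp
  have hlvP1 : ∀ x ∈ lvR P f 1, x ∈ P := by
    intro x hx
    obtain ⟨p, hp, rfl⟩ := (o1 x).1 hx
    exact Ideal.mul_mem_left _ _ hp
  have h1P : (1 : OO A B) ∉ P := fun h => hC.max.ne_top ((Ideal.eq_top_iff_one _).2 h)
  -- the uniformiser
  obtain ⟨P₀, k, hP₀, hfP₀, hP₀L, h2P₀, -, -, hP₀E, h2P₀E, hz₁E, -, -, -, hvπ, hexp⟩ :=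
    hUNI A B P V hC hT hG N u e lam hN hgood n f a hf h2f h3f ha0 h3a z₁ hz₁
  have hkP : ((k : ℤ) : OO A B) ∈ P := by
    have h1 : ((f : ℕ) : OO A B) * ((k : ℤ) : OO A B) ∈ lvR P f n := by
      rw [← hz₁, hmul, hnat, hint, mul_assoc, ← hP₀]
      exact hfP₀
    obtain ⟨p, hp, hpe⟩ := (m1 _).1 h1
    have hfO : ((f : ℕ) : ℂ) ≠ 0 := by exact_mod_cast hf0
    have h2 : ((k : ℤ) : OO A B) - ((3 ^ n : ℕ) : OO A B) * p = 0 := by
      apply hR.inj0
      have h3 := congrArg (fun t : OO A B => emb t) hpe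
      simp only [hmul, hnat, hint] at h3
      rw [hsub, hmul, hnat, hint]
      apply mul_left_cancel₀ hfO
      rw [mul_zero, mul_sub, h3]
      push_cast
      ring
    rw [sub_eq_zero.1 h2]
    exact Ideal.mul_mem_left _ _ hp
  have hbP : ∀ l, b' ^ l - 1 ∈ P := fun l => hlvP1 _ (hb'f hn l)
  have hza : ∀ l, (a : ℂ) * zl l ∉ N.lattice := fun l => (hne1 l).2.1
  have hzm : ∀ l, zl l - P₀ ∉ N.lattice := by
    intro l h
    have h1 : b' ^ l - (k : OO A B) ∈ lvR P f n := by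
      rw [← hz₁, hsub, hint, sub_mul, ← hP₀, ← hzl]
      exact h
    apply h1P
    have h2 : (1 : OO A B) = (b' ^ l - (k : OO A B)) - (b' ^ l - 1) + (k : OO A B) := by ring
    rw [h2]
    exact add_mem (sub_mem (hlvP _ h1) (hbP l)) hkP
  have hzp : ∀ l, zl l + P₀ ∉ N.lattice := by
    intro l h
    have h1 : b' ^ l + (k : OO A B) ∈ lvR P f n := by
      rw [← hz₁, hadd, hint, add_mul, ← hP₀, ← hzl]
      exact h
    apply h1P
    have h2 : (1 : OO A B) = (b' ^ l + (k : OO A B)) - (b' ^ l - 1) - (k : OO A B) := by ring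
    rw [h2]
    exact sub_mem (sub_mem (hlvP _ h1) (hbP l)) hkP
  -- the conjugates
  obtain ⟨X, hX⟩ : ∃ X : ℕ → ℂ, ∀ l, X l = yu N u (zl l) * yu N u P₀ *
    ∑ q ∈ H', (xu N u e (zl l) - xu N u e q)⁻¹ := ⟨_, fun _ => rfl⟩
  obtain ⟨π, hπ⟩ : ∃ π : ℕ → ℂ, ∀ l, π l = xu N u e (zl l) - xu N u e P₀ := ⟨_, fun _ => rfl⟩
  have hxcj : ∀ l, ∃ (hXM : X l ∈ RF (lvR P (f * a) n)) (hπM : π l ∈ RF (lvR P (f * a) n)),
      yu N u P₀ ≠ 0 ∧ dlX N a (zl l) / u = 2 * X l / yu N u P₀ ∧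
      (σ ⟨X l, hXM⟩ : ℂ) = X (l + 1) ∧ (σ ⟨π l, hπM⟩ : ℂ) = π (l + 1) := by
    intro l
    obtain ⟨Y, hYM, hxM, y0, hY, hd, hcj⟩ := hXCJ A B P V hC hG N u e lam hN hgood n f a hf h2f h3f
      ha h3a haf H' hH' (zl l) P₀ (hTor l) hfP₀ hP₀L h2P₀ (hza l) (hzm l) (hzp l)
    have hYX : Y = X l := by rw [hY, hX]
    subst hYX
    have hxM' : π l ∈ RF (lvR P (f * a) n) := by rw [hπ]; exact hxM
    refine ⟨hYM, hxM', y0, hd, ?_, ?_⟩
    · rw [(hcj σ b' hσ hb1 hYM hxM).1, hX (l + 1), hzls]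
    · have h1 := (hcj σ b' hσ hb1 hYM hxM).2
      rw [hzls] at h1
      rw [hπ (l + 1), ← h1]
      congr 2
      exact Subtype.ext (hπ l)
  choose hXM hπM y0 hdl hσX hσπ using hxcj
  have hiX := iter σ X hXM hσX
  have hiπ := iter σ π hπM hσπ
  -- valuations
  obtain ⟨ξ, G⟩ := hGRN V N u e lam hgood hv3
  have hvπ0 : V.valuation (π 0) ^ (2 * 9 ^ n) = V.valuation (emb (dD A B)) := by
    rw [hπ, hzl0]; exact hvπ
  have hv4 : V.valuation (π 0) ^ (4 * 9 ^ n) = V.valuation (3 : ℂ) := by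
    rw [← hC.vd, ← hvπ0, ← pow_mul]
    congr 1
    ring
  have h30 : V.valuation (3 : ℂ) ≠ 0 := by
    rw [Valuation.ne_zero_iff]; norm_num
  have hπ0 : π 0 ≠ 0 := by
    intro h
    rw [h, map_zero, zero_pow (by positivity)] at hv4
    exact h30 hv4.symm
  have hπ1 : V.valuation (π 0) ≤ 1 := by
    by_contra h
    rw [not_le] at h
    have h1 := one_le_pow₀ (n := 4 * 9 ^ n) h.le
    rw [hv4] at h1
    exact absurd hv3 (not_lt.2 h1)
  have hπl : ∀ l, V.valuation (π l) = V.valuation (π 0) := by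
    intro l
    by_cases hw : emb (b' ^ l - 1) * z₁ ∈ N.lattice
    · have h1 : zl l = z₁ + emb (b' ^ l - 1) * z₁ := by rw [hzl, hsub, hone]; ring
      rw [hπ, hπ, hzl0, h1, hxper _ _ hw]
    · have h1 : zl l = z₁ + emb (b' ^ l - 1) * z₁ := by rw [hzl, hsub, hone]; ring
      have h2 : Tor (P ^ (2 * n)) N (emb (b' ^ l - 1) * z₁) := by
        intro x hx
        rw [hpow] at hx
        obtain ⟨c, rfl⟩ := Ideal.mem_span_singleton'.1 hx
        rw [← mul_assoc, ← hmul, hz₁]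
        obtain ⟨p, hp, hpe⟩ := (o1 _).1 (hb'f hn l)
        refine (m1 _).2 ⟨c * 3 * p, Ideal.mul_mem_left _ _ hp, ?_⟩
        rw [hpe]
        push_cast
        ring
      obtain ⟨h3, h4⟩ := small hTPR hGRN hC hT hG hN hgood n _ h2 hw _ hv4
      have h5 := (Pool.Agent.MUXV.near G hz₁E h3 hw).2.2.1
      have h6 : π l = π 0 + (xu N u e (z₁ + emb (b' ^ l - 1) * z₁) - xu N u e z₁) := by
        rw [hπ, hπ, hzl0, h1]; ring
      rw [h6]
      exact Valuation.map_add_eq_of_lt_left _ (h5.trans_lt h4)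
  have hvX : V.valuation (X 0) ≤ 1 := by
    rw [hX, hzl0, map_mul, map_mul]
    refine mul_le_one' (mul_le_one' (Pool.Agent.MUXV.int_Y G hz₁E)
      (Pool.Agent.MUXV.int_Y G hP₀E)) ?_
    refine Valuation.map_sum_le _ fun q hq => ?_
    obtain ⟨n1, -, n3⟩ := hne1 0
    rw [hzl0] at n3
    obtain ⟨q1, q2, q3⟩ := n3 q (hH'.mem q hq) (fun h => hH'.ne q hq (by
      rw [two_mul]; exact add_mem h h))
    rw [map_inv₀, Pool.Agent.MUXV.v_X_sub G hz₁E q1 q2 q3, inv_one]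
  have hbe : b' ^ (3 ^ (n - 1)) - 1 ∈ lvR P f n := by
    obtain ⟨y, hy, -, hy2⟩ := hbl (3 ^ (n - 1)) (n - 1) dvd_rfl (fun h => by
      have := (Nat.pow_dvd_pow_iff_le_right (by norm_num : 1 < 3)).1 h
      omega) (by omega)
    have h1 : n - 1 + 1 = n := by omega
    rw [h1] at hy2
    have h2 := m3 (by rw [← hlv]; exact hy2)
    have h3 : ((3 ^ n * f : ℕ) : OO A B) * y ∈ lvR P f n := (m1 _).2 ⟨y, hy, rfl⟩
    have h4 := add_mem h2 h3
    rwa [sub_add_cancel] at h4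
  obtain ⟨c1, -, -, c4, -⟩ := Pool.Agent.MUXE.te_FAC Pool.Agent.MUXE.te_TRA A B hR
  have hlefa : lvR P (f * a) n ≤ idl (A := A) (B := B) (f * a) := Ideal.mul_le_left
  obtain ⟨D1, D2⟩ := hDIF A B P V hC hT hG N u e lam hN hgood n f hn hf h3f z₁ hz₁ b' hIB (π 0) hv4
  have hmain := hTRV (kk A B) V (RF (idl (A := A) (B := B) (f * a))) (RF (lvR P (f * a) n)) σ
    (2 * 9 ^ n) (3 ^ (n - 1)) (9 * (3 ^ (n - 1) - 1)) ⟨π 0, hπM 0⟩ (by positivity)
    (fun y hy hy' => c4 _ _ hlefa (em σ) _ hσ hb1 y hy hy')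
    (c1 _ _ hlefa)
    (fun w hw hvw => by
      obtain ⟨c, hc1, hc2⟩ := hexp w hw hvw
      refine ⟨c, hc1, ?_⟩
      rw [hc2]
      show _ = ∑ i, (c i : ℂ) * (π 0) ^ (i : ℕ)
      rw [hπ, hzl0])
    (by
      rw [hiπ]
      apply Subtype.ext
      show π (3 ^ (n - 1)) = π 0
      have h1 : zl (3 ^ (n - 1)) = z₁ + emb (b' ^ (3 ^ (n - 1)) - 1) * z₁ := by
        rw [hzl, hsub, hone]; ring
      rw [hπ, hπ, hzl0, h1, hxper _ _ ((hz₁ _).2 hbe)])
    hπ0 hπ1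
    (fun l => by
      rw [hiπ]
      exact hπl l)
    (fun l hl hl' h => by
      rw [hiπ] at h
      have h1 : π l = π 0 := congrArg Subtype.val h
      rw [hπ, hπ, hzl0, sub_left_inj, hzl] at h1
      exact D1 l hl hl' h1)
    (by
      refine le_of_eq ?_
      rw [← D2]
      congr 1
      refine Finset.prod_congr rfl fun l _ => ?_
      rw [hiπ]
      show π 0 - π l = _
      rw [hπ, hπ, hzl0, hzl]
      ring)
    ⟨X 0, hXM 0⟩ hvX
  -- the sum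
  have hS : (∑ l ∈ Finset.range (3 ^ (n - 1)), dlX N a (emb (b ^ l) * z₁)) / u =
      2 / yu N u P₀ * ∑ l ∈ Finset.range (3 ^ (n - 1)),
        (((σ ^ l) ⟨X 0, hXM 0⟩ : RF (lvR P (f * a) n)) : ℂ) := by
    rw [Finset.sum_div, Finset.mul_sum]
    refine Finset.sum_congr rfl fun l _ => ?_
    rw [hiX]
    show _ = 2 / yu N u P₀ * X l
    have h1 : b ^ l - b' ^ l ∈ lvR P f n := by
      have h2 : b - b' ∈ lvR P f n := by
        have h3 : b - b' = ((b - 1) * (β : OO A B)) * ((lvX 3 f n : ℕ) : OO A B) := by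
          rw [hb', hlv]; push_cast; ring
        rw [h3]
        exact Ideal.mul_mem_left _ _ hMlv
      obtain ⟨c, hc⟩ := sub_dvd_pow_sub_pow b b' l
      rw [hc]
      exact Ideal.mul_mem_right _ _ h2
    have h4 : emb (b ^ l) * z₁ = zl l + emb (b ^ l - b' ^ l) * z₁ := by
      rw [hzl, hsub]; ring
    rw [h4, hdper _ _ ((hz₁ _).2 h1), hdl l]
    ring
  have hvy : V.valuation (yu N u P₀) = 1 :=
    (Pool.Agent.MUXV.tq_YUN V (WL lam) N (xu N u e) (yu N u) ξ G P₀ hP₀E h2P₀E).1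
  have hSv : V.valuation ((∑ l ∈ Finset.range (3 ^ (n - 1)), dlX N a (emb (b ^ l) * z₁)) / u) ≤
      V.valuation (π 0) ^ (3 ^ (n - 1) * (9 * (3 ^ (n - 1) - 1))) := by
    rw [hS, map_mul, map_div₀, hvy, v2, div_one, one_mul]
    exact hmain
  exact expo _ _ _ n hn hSv hv4

end

end Pool.Agent.NSER
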