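import Pool.Agent.NS.StER
import Pool.Agent.NS.E_PTS
import Mathlib.LinearAlgebra.Lagrange

/-!
# MUX-NS, block ER, module PTS: the points of order three satisfy `PtsR` (helper95; after `E_PTS.lean`)
-/

set_option autoImplicit false

open Polynomial

namespace Pool.Agent.NSER

open _root_.MU3 Pool.Agent.MU3A Pool.Agent.MU3B Pool.Agent.MUX Pool.Agent.MUXU Pool.Agent.MUXE
open Pool.Agent.RI Pool.Agent.NS Pool.Agent.NSRD
open Pool.Agent.MUXV (GR InK tX)
open Pool.Agent.NSE (E3 su ru WL IntP Rep)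
open Pool.Agent.NSE.PTS (ca cb sep nz third pnt pnt_mem)

noncomputable section

/-- the product of the four roots of a quartic polynomial -/
theorem pts_prod {a b c d : ℂ} (ha : a ≠ 0) (s : Fin 4 → ℂ) (hs : Function.Injective s)
    (h : ∀ i, a * s i ^ 4 + b * s i ^ 2 + c * s i + d = 0) : a * ∏ i, s i = d := by
  have hdeg : (C a * X ^ 4 + C b * X ^ 2 + C c * X + C d : ℂ[X]).degree = 4 := by
    have h4 : (C a * X ^ 4 + C b * X ^ 2 + C c * X + C d : ℂ[X]) =
        C a * X ^ 4 + (C b * X ^ 2 + C c * X + C d) := by ring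
    rw [h4]
    have h1 : (C a * X ^ 4 : ℂ[X]).degree = 4 := degree_C_mul_X_pow 4 ha
    have h2 : (C b * X ^ 2 + C c * X + C d : ℂ[X]).degree < (C a * X ^ 4 : ℂ[X]).degree := by
      rw [h1]
      exact lt_of_le_of_lt degree_quadratic_le (by norm_num)
    rw [degree_add_eq_left_of_degree_lt h2, h1]
  have hlead : (C a * X ^ 4 + C b * X ^ 2 + C c * X + C d : ℂ[X]).leadingCoeff = a := by
    have h1 : (C a * X ^ 4 + C b * X ^ 2 + C c * X + C d : ℂ[X]).natDegree = 4 :=
      natDegree_eq_of_degree_eq_some hdeg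
    rw [leadingCoeff, h1]
    simp
  set Q : ℂ[X] := C a * ∏ i : Fin 4, (X - C (s i)) with hQ
  have hQm : (∏ i : Fin 4, (X - C (s i)) : ℂ[X]).Monic := monic_prod_X_sub_C _ _
  have hQn : (∏ i : Fin 4, (X - C (s i)) : ℂ[X]).natDegree = 4 := by
    rw [natDegree_finsetProd_X_sub_C_eq_card]
    simp
  have hQd : Q.degree = 4 := by
    rw [hQ, degree_C_mul ha, degree_eq_natDegree hQm.ne_zero, hQn]
    rfl
  have hQl : Q.leadingCoeff = a := by
    rw [hQ, leadingCoeff_mul, leadingCoeff_C, hQm.leadingCoeff, mul_one]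
  have key : (C a * X ^ 4 + C b * X ^ 2 + C c * X + C d : ℂ[X]) = Q := by
    apply eq_of_degree_sub_lt_of_eval_index_eq (s := Finset.univ) (v := s) hs.injOn
    · have := degree_sub_lt_left (hdeg.trans hQd.symm) (by
        intro h0
        rw [h0] at hdeg
        simp at hdeg) (hlead.trans hQl.symm)
      rw [hdeg] at this
      simpa using this
    · intro i _
      have e1 : Q.eval (s i) = 0 := by
        rw [hQ, eval_mul, eval_prod]
        have : ∏ j : Fin 4, eval (s i) (X - C (s j)) = 0 :=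
          Finset.prod_eq_zero (Finset.mem_univ i) (by simp)
        rw [this, mul_zero]
      rw [e1]
      simp only [eval_add, eval_mul, eval_C, eval_pow, eval_X]
      exact h i
  have h0 := congrArg (fun p : ℂ[X] => p.eval 0) key
  simp only [eval_add, eval_mul, eval_C, eval_pow, eval_X, hQ, eval_prod, eval_sub] at h0
  rw [Fin.prod_univ_four] at h0 ⊢
  linear_combination -h0

/-- PTS. -/
theorem tf_PTS (hCOE : Sf_COE) (hTW3 : Sf_TW3) : Sf_PTS := by
  intro V L u e lam hG h3
  obtain ⟨-, -, -, -, hl, -, heq, -, hper⟩ := hCOE V L u e lam hG h3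
  have htw := hTW3 V L u e lam hG h3
  have hE : ∀ Y ∈ E3 L, ∀ w ∈ L.lattice, Y + w ∈ E3 L := by
    intro Y hY w hw
    constructor
    · rw [mul_add]
      refine add_mem hY.1 ?_
      have h1 : (3 : ℂ) * w = w + w + w := by ring
      rw [h1]
      exact add_mem (add_mem hw hw) hw
    · intro h
      apply hY.2
      have h1 := sub_mem h hw
      rwa [add_sub_cancel_right] at h1
  have hP : ∀ (z w : ℂ), w ∈ L.lattice → su L u e (z + w) = su L u e z ∧
      ru L u e (z + w) = ru L u e z := by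
    intro z w hw
    obtain ⟨h1, h2⟩ := (hper z).1 w hw
    unfold su ru
    rw [h1, h2]
    exact ⟨rfl, rfl⟩
  refine ⟨⟨h3, ?_, hl.le, ?_, ?_, ?_, ?_, ?_⟩, ?_⟩
  · rw [Valuation.map_neg]
    by_contra hgt
    rw [not_le] at hgt
    have h1 : (1 : V.ValueGroup) < V.valuation (1 + lam) ^ 2 := one_lt_pow₀ hgt two_ne_zero
    exact absurd (h1.trans_le hG.lam1) (not_lt.2 h3.le)
  · intro Y hY
    refine ⟨?_, (htw Y hY).2.2.1⟩
    unfold su
    exact inv_ne_zero (htw Y hY).2.1
  · intro Y hY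
    have hx : xu L u e Y ≠ 0 := (htw Y hY).2.1
    have h1 := heq Y hY.2
    unfold ru su
    rw [div_pow, neg_sq, h1]
    field_simp
    ring
  · intro Y hY
    refine ⟨-Y, ⟨?_, ?_⟩, ?_, ?_⟩
    · rw [mul_neg]
      exact neg_mem hY.1
    · intro h
      apply hY.2
      have h1 := neg_mem h
      rwa [neg_neg] at h1
    · unfold su
      rw [(hper Y).2.1]
    · unfold ru
      rw [(hper Y).2.1, (hper Y).2.2, neg_div, neg_div, neg_neg]
  · have hinj : Function.Injective fun i => su L u e (pnt L i) := by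
      intro i j hij
      simp only [su] at hij
      have h1 : xu L u e (pnt L i) = xu L u e (pnt L j) := inv_injective hij
      have h2 : L.weierstrassP (pnt L i) = L.weierstrassP (pnt L j) := by
        unfold xu at h1
        have hu : u ^ 2 ≠ 0 := pow_ne_zero 2 hG.u0
        have h4 := (div_left_inj' hu).1 h1
        exact sub_left_injective h4
      apply sep
      rcases b_NEQ L (pnt L j) (pnt L i) (pnt_mem L j).2 (pnt_mem L i).2 h2 with h | h
      · left
        apply third L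
        have e1 : (((ca i - ca j : ℤ) : ℂ) * L.ω₁ + ((cb i - cb j : ℤ) : ℂ) * L.ω₂) / 3 =
            pnt L i - pnt L j := by
          unfold pnt
          push_cast
          ring
        rw [e1]
        exact h
      · right
        apply third L
        have e1 : (((ca i + ca j : ℤ) : ℂ) * L.ω₁ + ((cb i + cb j : ℤ) : ℂ) * L.ω₂) / 3 =
            pnt L i + pnt L j := by
          unfold pnt
          push_cast
          ring
        rw [e1]
        exact h
    refine ⟨pnt L, pnt_mem L, hinj, ?_⟩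
    have hl0 : lam ^ 2 ≠ 0 := by
      intro h0
      have h1 : V.valuation (lam ^ 2) = 1 := by rw [map_pow, hl, one_pow]
      rw [h0, map_zero] at h1
      exact zero_ne_one h1
    have hprod := pts_prod (a := lam ^ 2) (b := -(6 * lam)) (c := 4 * (1 + lam)) (d := -3) hl0
      (fun i => su L u e (pnt L i)) hinj (fun i => by
        have h5 := (htw _ (pnt_mem L i)).2.2.2
        linear_combination h5)
    have h6 := congrArg V.valuation hprod
    rw [map_mul, map_pow, hl, one_pow, one_mul, Valuation.map_neg] at h6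
    exact h6.le
  · refine (Set.finite_range (fun p : Fin 3 × Fin 3 =>
      (su L u e (((p.1 : ℕ) * L.ω₁ + (p.2 : ℕ) * L.ω₂) / 3),
        ru L u e (((p.1 : ℕ) * L.ω₁ + (p.2 : ℕ) * L.ω₂) / 3)))).subset ?_
    rintro _ ⟨Y, hY, rfl⟩
    obtain ⟨i, j, hij⟩ := PeriodPair.mem_lattice.1 hY.1
    have hi0 : 0 ≤ i % 3 := Int.emod_nonneg i (by norm_num)
    have hi1 : i % 3 < 3 := Int.emod_lt_of_pos i (by norm_num)
    have hj0 : 0 ≤ j % 3 := Int.emod_nonneg j (by norm_num)
    have hj1 : j % 3 < 3 := Int.emod_lt_of_pos j (by norm_num)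
    have hi : i = 3 * (i / 3) + i % 3 := (Int.mul_ediv_add_emod i 3).symm
    have hj : j = 3 * (j / 3) + j % 3 := (Int.mul_ediv_add_emod j 3).symm
    refine ⟨(⟨(i % 3).toNat, by omega⟩, ⟨(j % 3).toNat, by omega⟩), ?_⟩
    have c1 : (((i % 3).toNat : ℕ) : ℂ) = ((i % 3 : ℤ) : ℂ) := by
      have := Int.toNat_of_nonneg hi0
      exact_mod_cast congrArg (fun n : ℤ => (n : ℂ)) this
    have c2 : (((j % 3).toNat : ℕ) : ℂ) = ((j % 3 : ℤ) : ℂ) := by
      have := Int.toNat_of_nonneg hj0
      exact_mod_cast congrArg (fun n : ℤ => (n : ℂ)) this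
    have hiC : (i : ℂ) = 3 * ((i / 3 : ℤ) : ℂ) + ((i % 3 : ℤ) : ℂ) := by
      exact_mod_cast congrArg (fun n : ℤ => (n : ℂ)) hi
    have hjC : (j : ℂ) = 3 * ((j / 3 : ℤ) : ℂ) + ((j % 3 : ℤ) : ℂ) := by
      exact_mod_cast congrArg (fun n : ℤ => (n : ℂ)) hj
    have e1 : Y = (((i % 3).toNat : ℕ) * L.ω₁ + ((j % 3).toNat : ℕ) * L.ω₂) / 3 +
        (((i / 3 : ℤ) : ℂ) * L.ω₁ + ((j / 3 : ℤ) : ℂ) * L.ω₂) := by
      rw [c1, c2]
      have h4 : (3 : ℂ) ≠ 0 := by norm_num
      apply mul_left_cancel₀ h4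
      rw [← hij, hiC, hjC]
      ring
    have h5 := hP ((((i % 3).toNat : ℕ) * L.ω₁ + ((j % 3).toNat : ℕ) * L.ω₂) / 3) _
      (PeriodPair.mem_lattice.2 ⟨i / 3, j / 3, rfl⟩)
    rw [← e1] at h5
    simp only [h5.1, h5.2]
  · intro Y hY w hw
    exact ⟨hE Y hY w hw, hP Y w hw⟩

end

end Pool.Agent.NSER
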