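import Pool.Agent.NS.F_UNT

/-!
# MUX-NS, block ER, module RAT (helper50): the isogeny as a rational function over V
-/

set_option autoImplicit false

open Filter Topology Polynomial

namespace Pool.Agent.NSER

open _root_.MU3 Pool.Agent.MU3A Pool.Agent.MU3B Pool.Agent.MUX Pool.Agent.MUXU Pool.Agent.MUXE
open Pool.Agent.RI Pool.Agent.NS Pool.Agent.NSRD
open Pool.Agent.NSE (E3 su ru WL IntP Rep)
open Pool.Agent.MUXV (GR InK tX)

noncomputable section

namespace RAT

variable {V : ValuationSubring ℂ}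

theorem iff_mem {P : ℂ[X]} : IntP V P ↔ ∀ i, P.coeff i ∈ V :=
  forall_congr' fun _ => V.valuation_le_one_iff _

theorem int_add {P Q : ℂ[X]} (hP : IntP V P) (hQ : IntP V Q) : IntP V (P + Q) := by
  rw [iff_mem] at *
  intro i
  rw [coeff_add]
  exact add_mem (hP i) (hQ i)

theorem int_mul {P Q : ℂ[X]} (hP : IntP V P) (hQ : IntP V Q) : IntP V (P * Q) := by
  rw [iff_mem] at *
  intro i
  rw [coeff_mul]
  exact sum_mem fun x _ => mul_mem (hP _) (hQ _)

theorem int_C {a : ℂ} (ha : V.valuation a ≤ 1) : IntP V (C a) := by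
  rw [iff_mem]
  intro i
  rw [coeff_C]
  split_ifs
  · exact (V.valuation_le_one_iff _).1 ha
  · exact zero_mem V

theorem int_XC {a : ℂ} (ha : V.valuation a ≤ 1) : IntP V (X - C a) := by
  have h1 : IntP V (C (-a)) := int_C (by rwa [Valuation.map_neg])
  have h2 : IntP V (X : ℂ[X]) := by
    rw [iff_mem]
    intro i
    rw [coeff_X]
    split_ifs
    · exact one_mem V
    · exact zero_mem V
  have e : (X - C a : ℂ[X]) = X + C (-a) := by
    rw [C_neg, sub_eq_add_neg]
  rw [e]
  exact int_add h2 h1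

theorem int_prod (R : Finset ℂ) (f : ℂ → ℂ) (h : ∀ q ∈ R, V.valuation (f q) ≤ 1) :
    IntP V (∏ q ∈ R, (X - C (f q))) := by
  classical
  induction R using Finset.induction_on with
  | empty =>
    rw [Finset.prod_empty, ← C_1]
    exact int_C (by rw [map_one])
  | insert a S ha ih =>
    rw [Finset.prod_insert ha]
    exact int_mul (int_XC (h a (Finset.mem_insert_self _ _)))
      (ih fun q hq => h q (Finset.mem_insert_of_mem hq))

end RAT

open RAT UNT in
theorem tf_RAT (h1 : Sf_COE) (h3 : Sf_TNC) (h4 : Sf_UNT) : Sf_RAT := by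
  intro V L M u e lam u' e' lam' μ N hL hM hv3 hμ hI hN3 hN
  have hν := h4 V L M u e lam u' e' lam' μ N hL hM hv3 hμ hI hN3 hN
  have tL := h3 V L u e lam hL hv3
  have tM := h3 V M u' e' lam' hM hv3
  obtain ⟨-, -, -, -, -, -, -, dL, -⟩ := h1 V L u e lam hL hv3
  obtain ⟨-, -, -, -, -, -, -, dM, -⟩ := h1 V M u' e' lam' hM hv3
  have hN0 : N ≠ 0 := by
    rintro rfl
    exact hN3 (dvd_zero 3)
  have hNpos : 0 < N := Nat.pos_of_ne_zero hN0
  obtain ⟨⟨R, hR⟩, -⟩ := u_BAC.2 L M μ hμ hI
  obtain ⟨l, hl1, hl⟩ := Nat.exists_infinite_primes (3 * N + 1)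
  have h3l : ¬ 3 ∣ l := by
    intro h
    have := (Nat.prime_dvd_prime_iff_eq Nat.prime_three hl).1 h
    omega
  have hlN : ¬ l ∣ N := fun h => by
    have := Nat.le_of_dvd hNpos h
    omega
  have h3m : ¬ 3 ∣ N * l := by
    intro h
    rcases Nat.prime_three.dvd_mul.1 h with h | h
    · exact hN3 h
    · exact h3l h
  have hl0 : (l : ℂ) ≠ 0 := by exact_mod_cast hl.ne_zero
  set w : ℂ := L.ω₁ / l with hw
  have lw : (l : ℂ) * w ∈ L.lattice := by
    rw [hw, mul_div_cancel₀ _ hl0]
    exact L.ω₁_mem_lattice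
  have Nw : (N : ℂ) * w ∉ L.lattice := by
    intro hm
    have e1 : (N : ℂ) * w = ((N : ℤ) : ℂ) * (L.ω₁ / (l : ℂ)) := by
      rw [hw]
      push_cast
      ring
    rw [e1] at hm
    have h5 := frac L _ _ hl.ne_zero hm
    exact hlN (by exact_mod_cast h5)
  have jw : ¬ InK V L (xu L u e) w := fun h => Nw (by
    have := zmul L N ((tL l h3l).2 w lw h)
    simpa using this)
  have jq : ∀ q ∈ R, ¬ InK V L (xu L u e) q := fun q hq h =>
    hR.ne q hq ((tL N hN3).2 q (hN q (hR.mem q hq)) h)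
  have jwq : ∀ q ∈ R, ¬ InK V L (xu L u e) (w + q) := by
    intro q hq h
    have hNq := hN q (hR.mem q hq)
    have hm := (tL (N * l) h3m).2 (w + q) (by
      have e1 : ((N * l : ℕ) : ℂ) * (w + q) = ((N : ℤ) : ℂ) * ((l : ℂ) * w) +
          ((l : ℤ) : ℂ) * ((N : ℂ) * q) := by
        push_cast
        ring
      rw [e1]
      exact add_mem (zmul L _ lw) (zmul L _ hNq)) h
    apply Nw
    have e2 : (N : ℂ) * w = ((N : ℤ) : ℂ) * (w + q) - (N : ℂ) * q := by
      push_cast
      ring
    rw [e2]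
    exact sub_mem (zmul L _ hm) hNq
  have mw : μ * w ∉ M.lattice := fun h => Nw (hN w h)
  have jM : ¬ InK V M (xu M u' e') (μ * w) := fun h => mw ((tM l h3l).2 _ (by
    have e1 : (l : ℂ) * (μ * w) = μ * ((l : ℂ) * w) := by ring
    rw [e1]
    exact hI _ lw) h)
  have vq : ∀ q ∈ R, V.valuation (xu L u e q) ≤ 1 := fun q hq =>
    (Pool.Agent.MUXV.int_X (jq q hq)).2
  have vwq : ∀ q ∈ R, V.valuation (xu L u e (w + q)) ≤ 1 := fun q hq =>
    (Pool.Agent.MUXV.int_X (jwq q hq)).2
  have vw : V.valuation (xu L u e w) ≤ 1 := (Pool.Agent.MUXV.int_X jw).2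
  have vc : V.valuation (xu M u' e' (μ * w)) ≤ 1 := (Pool.Agent.MUXV.int_X jM).2
  set c : ℂ := xu M u' e' (μ * w) with hc
  set ν : ℂ := μ * u' / u with hνd
  have hν0 : ν ^ 2 ≠ 0 := by
    apply pow_ne_zero
    intro h0
    rw [h0, map_zero] at hν
    exact zero_ne_one hν
  have vν : V.valuation (ν ^ 2) ≤ 1 := by rw [map_pow, hν, one_pow]
  set A : ℂ[X] := ∏ q ∈ R, (X - C (xu L u e q)) with hA
  set B : ℂ[X] := ∏ q ∈ R, (X - C (xu L u e (w + q))) with hB
  have mA : A.Monic := monic_prod_of_monic _ _ fun q _ => monic_X_sub_C _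
  have mB : B.Monic := monic_prod_of_monic _ _ fun q _ => monic_X_sub_C _
  have nA : A.natDegree = R.card := by
    rw [hA, natDegree_prod_of_monic _ _ fun q _ => monic_X_sub_C _]
    simp
  have nB : B.natDegree = R.card := by
    rw [hB, natDegree_prod_of_monic _ _ fun q _ => monic_X_sub_C _]
    simp
  set Q : ℂ[X] := C (ν ^ 2) * A with hQ
  have nQ : Q.natDegree = R.card := by rw [hQ, natDegree_C_mul hν0, nA]
  set T : ℂ[X] := (X - C (xu L u e w)) * B with hT
  have mT : T.Monic := (monic_X_sub_C _).mul mB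
  have nT : T.natDegree = R.card + 1 := by
    rw [hT, (monic_X_sub_C _).natDegree_mul mB, natDegree_X_sub_C, nB, add_comm]
  have hlt : (C c * Q).natDegree < T.natDegree := by
    rw [nT]
    calc (C c * Q).natDegree ≤ Q.natDegree := natDegree_C_mul_le _ _
      _ < R.card + 1 := by rw [nQ]; exact Nat.lt_succ_self _
  have iQ : IntP V Q := int_mul (int_C vν) (int_prod R _ vq)
  -- the first identity
  have hu0 : u ^ 2 ≠ 0 := pow_ne_zero _ hL.u0
  have hu0' : u' ^ 2 ≠ 0 := pow_ne_zero _ hM.u0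
  have eL : ∀ a b : ℂ, L.weierstrassP a - L.weierstrassP b =
      u ^ 2 * (xu L u e a - xu L u e b) := by
    intro a b
    unfold xu
    rw [← sub_div, mul_div_cancel₀ _ hu0]
    ring
  have eM : ∀ a b : ℂ, M.weierstrassP a - M.weierstrassP b =
      u' ^ 2 * (xu M u' e' a - xu M u' e' b) := by
    intro a b
    unfold xu
    rw [← sub_div, mul_div_cancel₀ _ hu0']
    ring
  have id1 : ∀ z, μ * z ∉ M.lattice →
      xu M u' e' (μ * z) * Q.eval (xu L u e z) = (C c * Q + T).eval (xu L u e z) := by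
    intro z hz
    have pf := u_PFI L M μ R hμ hI hR w mw z hz
    have p1 : ∏ q ∈ R, (L.weierstrassP z - L.weierstrassP q) =
        (u ^ 2) ^ R.card * A.eval (xu L u e z) := by
      rw [hA, eval_prod, ← Finset.prod_const, ← Finset.prod_mul_distrib]
      refine Finset.prod_congr rfl fun q _ => ?_
      rw [eL, eval_sub, eval_X, eval_C]
    have p2 : ∏ q ∈ R, (L.weierstrassP z - L.weierstrassP (w + q)) =
        (u ^ 2) ^ R.card * B.eval (xu L u e z) := by
      rw [hB, eval_prod, ← Finset.prod_const, ← Finset.prod_mul_distrib]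
      refine Finset.prod_congr rfl fun q _ => ?_
      rw [eL, eval_sub, eval_X, eval_C]
    rw [p1, p2, eM, eL] at pf
    have hpow : (u ^ 2) ^ R.card ≠ 0 := pow_ne_zero _ hu0
    have q1 : ν ^ 2 * (xu M u' e' (μ * z) - c) * A.eval (xu L u e z) =
        (xu L u e z - xu L u e w) * B.eval (xu L u e z) := by
      apply mul_left_cancel₀ (mul_ne_zero hu0 hpow)
      rw [hνd]
      have e3 : u ^ 2 * (u ^ 2) ^ R.card * ((μ * u' / u) ^ 2 * (xu M u' e' (μ * z) - c) *
          A.eval (xu L u e z)) = μ ^ 2 * (u' ^ 2 * (xu M u' e' (μ * z) - c)) *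
          ((u ^ 2) ^ R.card * A.eval (xu L u e z)) := by
        have hu : u ≠ 0 := hL.u0
        field_simp
      rw [e3, pf]
      ring
    simp only [hQ, hT, eval_add, eval_mul, eval_C, eval_sub, eval_X]
    rw [← q1]
    ring
  refine ⟨C c * Q + T, Q, int_add (int_mul (int_C vc) iQ) (int_mul (int_XC vw)
    (int_prod R _ vwq)), iQ, mT.add_of_right (degree_lt_degree hlt), ?_, ?_, ?_⟩
  · rw [natDegree_add_eq_right_of_natDegree_lt hlt, nT, nQ]
  · rw [hQ, leadingCoeff_mul, leadingCoeff_C, mA.leadingCoeff, mul_one]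
  · intro z hz
    refine ⟨id1 z hz, ?_⟩
    have hzL : z ∉ L.lattice := fun h => hz (hI z h)
    have hev : ∀ᶠ t in 𝓝 z, xu M u' e' (μ * t) * Q.eval (xu L u e t) =
        (C c * Q + T).eval (xu L u e t) := by
      have e2 : ∀ᶠ t in 𝓝 z, μ * t ∉ M.lattice := by
        have hcont : ContinuousAt (fun t : ℂ => μ * t) z := by fun_prop
        exact hcont.eventually_mem ((M.isClosed_lattice.isOpen_compl).mem_nhds hz)
      filter_upwards [e2] with t ht
      exact id1 t ht
    have hxL := dL z hzL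
    have hxM := dM (μ * z) hz
    have hM' : HasDerivAt (fun t : ℂ => xu M u' e' (μ * t))
        (2 * u' * yu M u' (μ * z) * μ) z := by
      have h5 : HasDerivAt (fun t : ℂ => μ * t) μ z := by
        simpa using (hasDerivAt_id z).const_mul μ
      exact HasDerivAt.comp z hxM h5
    have hB' : HasDerivAt (fun t : ℂ => Q.eval (xu L u e t))
        ((derivative Q).eval (xu L u e z) * (2 * u * yu L u z)) z :=
      HasDerivAt.comp z (Q.hasDerivAt (xu L u e z)) hxL
    have hA' : HasDerivAt (fun t : ℂ => (C c * Q + T).eval (xu L u e t))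
        ((derivative (C c * Q + T)).eval (xu L u e z) * (2 * u * yu L u z)) z :=
      HasDerivAt.comp z ((C c * Q + T).hasDerivAt (xu L u e z)) hxL
    have heq := (hM'.mul hB').unique (hA'.congr_of_eventuallyEq hev)
    have hid := id1 z hz
    have hu : u ≠ 0 := hL.u0
    generalize C c * Q + T = P at *
    simp only [eval_sub, eval_mul]
    have h2u : (2 * u : ℂ) ≠ 0 := mul_ne_zero two_ne_zero hu
    apply mul_left_cancel₀ h2u
    rw [hνd]
    have e5 : 2 * u * (μ * u' / u * yu M u' (μ * z) * Q.eval (xu L u e z) ^ 2) =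
        2 * u' * yu M u' (μ * z) * μ * Q.eval (xu L u e z) ^ 2 := by
      field_simp
    rw [e5]
    linear_combination (Q.eval (xu L u e z)) * heq -
      (derivative Q).eval (xu L u e z) * (2 * u * yu L u z) * hid

end

end Pool.Agent.NSER
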