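import Pool.Agent.NS.StER
import Pool.Agent.MUX.E_MAIN0

/-!
# MUX-NS, block ER, module RED (helper4): the final form, from the context
-/

set_option autoImplicit false

namespace Pool.Agent.NSER

open _root_.MU3 Pool.Agent.MU3A Pool.Agent.MU3B Pool.Agent.MUX Pool.Agent.MUXU Pool.Agent.MUXE
open Pool.Agent.RI Pool.Agent.NS Pool.Agent.NSRD

noncomputable section

namespace RED

/-! ### Valuations -/

/-- the final bound -/
def Bd (V : ValuationSubring ℂ) (n : ℕ) (z : ℂ) : Prop :=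
  V.valuation z ^ (12 * 3 ^ n) * V.valuation (3 : ℂ) ^ 10 ≤ V.valuation (3 : ℂ) ^ (15 * 3 ^ n)

variable {V : ValuationSubring ℂ} {n : ℕ}

lemma Bd.zero : Bd V n 0 := by
  unfold Bd
  rw [map_zero, zero_pow (by positivity), zero_mul]
  exact zero_le

lemma Bd.mono {z w : ℂ} (h : Bd V n w) (hz : V.valuation z ≤ V.valuation w) : Bd V n z := by
  unfold Bd at *
  exact (mul_le_mul' (pow_le_pow_left₀ zero_le hz _) le_rfl).trans h

lemma Bd.add {z w : ℂ} (hz : Bd V n z) (hw : Bd V n w) : Bd V n (z + w) := by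
  rcases le_total (V.valuation z) (V.valuation w) with h | h
  · exact hw.mono ((V.valuation.map_add z w).trans (max_le h le_rfl))
  · exact hz.mono ((V.valuation.map_add z w).trans (max_le le_rfl h))

lemma Bd.neg {z : ℂ} (hz : Bd V n z) : Bd V n (-z) := hz.mono (by rw [Valuation.map_neg])

lemma Bd.sub {z w : ℂ} (hz : Bd V n z) (hw : Bd V n w) : Bd V n (z - w) := by
  rw [sub_eq_add_neg]
  exact hz.add hw.neg

lemma Bd.mul {c z : ℂ} (hz : Bd V n z) (hc : V.valuation c ≤ 1) : Bd V n (c * z) :=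
  hz.mono (by rw [map_mul]; exact mul_le_of_le_one_left' hc)

lemma Bd.sum {α : Type} (s : Finset α) (F : α → ℂ) (h : ∀ x ∈ s, Bd V n (F x)) :
    Bd V n (∑ x ∈ s, F x) := by
  classical
  induction s using Finset.induction_on with
  | empty => exact Bd.zero
  | insert a s ha ih =>
    rw [Finset.sum_insert ha]
    exact (h a (Finset.mem_insert_self _ _)).add
      (ih fun x hx => h x (Finset.mem_insert_of_mem hx))

lemma Bd.of_sq {z : ℂ} (h3 : V.valuation (3 : ℂ) < 1)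
    (h : V.valuation z ^ 2 ≤ V.valuation (3 : ℂ) ^ 3) : Bd V n z := by
  unfold Bd
  have h1 : V.valuation z ^ (12 * 3 ^ n) ≤ V.valuation (3 : ℂ) ^ (18 * 3 ^ n) := by
    calc V.valuation z ^ (12 * 3 ^ n) = (V.valuation z ^ 2) ^ (6 * 3 ^ n) := by
          rw [← pow_mul]; congr 1; ring
      _ ≤ (V.valuation (3 : ℂ) ^ 3) ^ (6 * 3 ^ n) := pow_le_pow_left₀ zero_le h _
      _ = V.valuation (3 : ℂ) ^ (18 * 3 ^ n) := by rw [← pow_mul]; congr 1; ring
  calc V.valuation z ^ (12 * 3 ^ n) * V.valuation (3 : ℂ) ^ 10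
      ≤ V.valuation (3 : ℂ) ^ (18 * 3 ^ n) * 1 :=
        mul_le_mul' h1 (pow_le_one₀ zero_le h3.le)
    _ ≤ V.valuation (3 : ℂ) ^ (15 * 3 ^ n) := by
        rw [mul_one]
        exact pow_le_pow_right_of_le_one' h3.le (by omega)

lemma Bd.of_pal {c z : ℂ} (h3 : V.valuation (3 : ℂ) < 1)
    (hc : V.valuation c ^ 2 ≤ V.valuation (3 : ℂ))
    (h : V.valuation z ^ (4 * 3 ^ n) ≤ V.valuation (3 : ℂ) ^ (3 * 3 ^ n - 3)) :
    Bd V n (c * z) := by
  unfold Bd
  have h1 : V.valuation c ^ (12 * 3 ^ n) ≤ V.valuation (3 : ℂ) ^ (6 * 3 ^ n) := by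
    calc V.valuation c ^ (12 * 3 ^ n) = (V.valuation c ^ 2) ^ (6 * 3 ^ n) := by
          rw [← pow_mul]; congr 1; ring
      _ ≤ (V.valuation (3 : ℂ)) ^ (6 * 3 ^ n) := pow_le_pow_left₀ zero_le hc _
  have h2 : V.valuation z ^ (12 * 3 ^ n) ≤ V.valuation (3 : ℂ) ^ (3 * (3 * 3 ^ n - 3)) := by
    calc V.valuation z ^ (12 * 3 ^ n) = (V.valuation z ^ (4 * 3 ^ n)) ^ 3 := by
          rw [← pow_mul]; congr 1; ring
      _ ≤ (V.valuation (3 : ℂ) ^ (3 * 3 ^ n - 3)) ^ 3 := pow_le_pow_left₀ zero_le h _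
      _ = V.valuation (3 : ℂ) ^ (3 * (3 * 3 ^ n - 3)) := by rw [← pow_mul]; congr 1; ring
  have h4 : 1 ≤ 3 ^ n := Nat.one_le_pow _ _ (by norm_num)
  rw [map_mul, mul_pow]
  calc V.valuation c ^ (12 * 3 ^ n) * V.valuation z ^ (12 * 3 ^ n) * V.valuation (3 : ℂ) ^ 10
      ≤ V.valuation (3 : ℂ) ^ (6 * 3 ^ n) * V.valuation (3 : ℂ) ^ (3 * (3 * 3 ^ n - 3)) *
          V.valuation (3 : ℂ) ^ 10 := mul_le_mul' (mul_le_mul' h1 h2) le_rfl
    _ = V.valuation (3 : ℂ) ^ (6 * 3 ^ n + 3 * (3 * 3 ^ n - 3) + 10) := by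
        rw [← pow_add, ← pow_add]
    _ ≤ V.valuation (3 : ℂ) ^ (15 * 3 ^ n) :=
        pow_le_pow_right_of_le_one' h3.le (by omega)

/-! ### Splitting of ranges -/

lemma prod_split (N : ℕ) (F : ℕ → ℂ) : ∏ l ∈ Finset.range (N * 3), F l =
    ∏ l ∈ Finset.range N, ∏ j ∈ Finset.range 3, F (l + N * j) := by
  rw [show N * 3 = N + N + N by ring, Finset.prod_range_add, Finset.prod_range_add,
    ← Finset.prod_mul_distrib, ← Finset.prod_mul_distrib]
  refine Finset.prod_congr rfl fun l _ => ?_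
  rw [Finset.prod_range_succ, Finset.prod_range_succ, Finset.prod_range_one,
    show l + N * 0 = l by ring, show l + N * 1 = N + l by ring,
    show l + N * 2 = N + N + l by ring]

lemma sum_split (N : ℕ) (F : ℕ → ℂ) : ∑ l ∈ Finset.range (N * 3), F l =
    ∑ l ∈ Finset.range N, ∑ j ∈ Finset.range 3, F (l + N * j) := by
  rw [show N * 3 = N + N + N by ring, Finset.sum_range_add, Finset.sum_range_add,
    ← Finset.sum_add_distrib, ← Finset.sum_add_distrib]
  refine Finset.sum_congr rfl fun l _ => ?_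
  rw [Finset.sum_range_succ, Finset.sum_range_succ, Finset.sum_range_one,
    show l + N * 0 = l by ring, show l + N * 1 = N + l by ring,
    show l + N * 2 = N + N + l by ring]

/-! ### Algebra -/

variable {A B : ℤ} {P : Ideal (OO A B)}

lemma exb (f n : ℕ) : ∃ b : OO A B, IsB f n b := by
  obtain ⟨T, hT⟩ : ∃ T : OO A B, T = ((3 * f : ℕ) : OO A B) * dD A B := ⟨_, rfl⟩
  have h1 : IsCoprime (1 - T) ((3 * f : ℕ) : OO A B) := ⟨1, dD A B, by rw [hT]; ring⟩
  have h2 : IsCoprime (1 - T) (((3 * f : ℕ) : OO A B) ^ (n + 1)) := h1.pow_right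
  have h3 : ((lvX 3 f n : ℕ) : OO A B) ∣ ((3 * f : ℕ) : OO A B) ^ (n + 1) := by
    rw [← Nat.cast_pow]
    have h4 : lvX 3 f n ∣ (3 * f) ^ (n + 1) := by
      have h5 : lvX 3 f n = 3 ^ (n + 1) * f := by
        simp [lvX, q0]
        ring
      rw [h5, mul_pow]
      exact mul_dvd_mul_left _ (dvd_pow_self f (by omega))
    exact map_dvd (Nat.castRingHom (OO A B)) h4
  obtain ⟨c, w, hcw⟩ := h2.of_isCoprime_of_dvd_right h3
  refine ⟨(1 + T) * c, ?_⟩
  unfold IsB
  rw [← hT]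
  have h6 : (1 + T) * c * (1 - T) - (1 + T) =
      (-(1 + T) * w) * ((lvX 3 f n : ℕ) : OO A B) := by
    linear_combination (1 + T) * hcw
  rw [h6]
  exact Ideal.mul_mem_left _ _ (Ideal.mem_span_singleton_self _)

section
variable {m : Ideal (OO A B)}

/-- powers of `1 + t`, `t² = 0` modulo `m` -/
lemma pow_mod {c t : OO A B} (hc : c - 1 - t ∈ m) (ht : t * t ∈ m) (l : ℕ) :
    c ^ l - (1 + l * t) ∈ m := by
  induction l with
  | zero => simp
  | succ l ih =>
    have e : c ^ (l + 1) - (1 + ((l + 1 : ℕ) : OO A B) * t) =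
        c * (c ^ l - (1 + l * t)) + (1 + l * t) * (c - 1 - t) + l * (t * t) := by
      push_cast
      ring
    rw [e]
    exact add_mem (add_mem (m.mul_mem_left _ ih) (m.mul_mem_left _ hc)) (m.mul_mem_left _ ht)

end

lemma wP_per {x y : OO A B} (h : x - y ∈ P) : wP P x = wP P y := by
  classical
  have h1 : x ∈ P ↔ y ∈ P := by
    constructor
    · intro hx
      have := sub_mem hx h
      rwa [sub_sub_cancel] at this
    · intro hy
      have := add_mem h hy
      rwa [sub_add_cancel] at this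
  have h2 : x - 1 ∈ P ↔ y - 1 ∈ P := by
    constructor
    · intro hx
      have := sub_mem hx h
      rwa [show x - 1 - (x - y) = y - 1 by ring] at this
    · intro hy
      have := add_mem h hy
      rwa [show x - y + (y - 1) = x - 1 by ring] at this
  unfold wP
  simp only [h1, h2]

lemma wP_sub (pm : ∀ x : OO A B, x ∉ P → x - 1 ∈ P ∨ x + 1 ∈ P) {x : OO A B} (hx : x ∉ P) :
    x - (wP P x : OO A B) ∈ P := by
  classical
  unfold wP
  rw [if_neg hx]
  split_ifs with h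
  · simpa using h
  · rcases pm x hx with h' | h'
    · exact absurd h' h
    · simpa using h'

/-! ### The points -/

/-- the iterates of the action of `b` -/
lemma iter {ι Q : Type} [CommMonoid Q] (β : Q) (q : ι × Q) (l : ℕ) :
    (fun q : ι × Q => (q.1, q.2 * β))^[l] q = (q.1, q.2 * β ^ l) := by
  induction l with
  | zero => simp
  | succ l ih =>
    rw [Function.iterate_succ_apply', ih, pow_succ, mul_assoc]

/-- everything about one orbit. `z x = pt R m i x`; `Θ`, `G` are functions with the period lattice `L`. -/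
lemma orbit {L : PeriodPair} (φ : OO A B →+* ℂ) {m : Ideal (OO A B)} {z0 : ℂ}
    (hper : ∀ c ∈ m, φ c * z0 ∈ L.lattice) (G : ℂ → ℂ) (hG : ∀ z, ∀ w ∈ L.lattice, G (z + w) = G z)
    {b t : OO A B} {N : ℕ} (hb : b ^ N - 1 - t ∈ m) (ht : t * t ∈ m) {x x' : OO A B} {l j : ℕ}
    (hx : x' - x * b ^ (l + N * j) ∈ m) :
    G (φ x' * z0) = G (φ (x * b ^ l) * z0 + j * (φ t * (φ (x * b ^ l) * z0))) := by
  have h1 := pow_mod hb ht j
  have h2 : x' - (x * b ^ l + x * b ^ l * (j * t)) ∈ m := by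
    have e : x' - (x * b ^ l + x * b ^ l * (j * t)) =
        (x' - x * b ^ (l + N * j)) + x * b ^ l * ((b ^ N) ^ j - (1 + j * t)) := by
      rw [pow_add, pow_mul]
      ring
    rw [e]
    exact add_mem hx (m.mul_mem_left _ h1)
  have h3 := hper _ h2
  have h4 := hG (φ (x * b ^ l) * z0 + j * (φ t * (φ (x * b ^ l) * z0))) _ h3
  rw [← h4]
  congr 1
  rw [map_sub, map_add, map_mul φ (x * b ^ l) (j * t), map_mul φ (j : OO A B) t, map_natCast]
  ring

lemma fin_quot (hr : RingE A B) {m : ℕ} (hm : m ≠ 0) :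
    Finite (OO A B ⧸ idl (A := A) (B := B) m) := by
  have := hr.ded
  apply Ideal.finiteQuotientOfFreeOfNeBot
  exact m0_ne A B hr hm

lemma notPP (hC : CtxR A B P V) {k r : ℕ} (hk : k ≠ 0) {y : OO A B}
    (h : ((k : ℕ) : OO A B) * y ∈ idl (A := A) (B := B) (k * (3 * r))) : y ∈ P * P := by
  have := hC.ring.ded
  rw [Ideal.mem_span_singleton] at h
  obtain ⟨z, hz⟩ := h
  have hk0 : ((k : ℕ) : OO A B) ≠ 0 := by
    intro h0
    obtain ⟨φ, -⟩ := hC.ring.hom
    have h1 : φ ((k : ℕ) : OO A B) = 0 := by rw [h0, map_zero]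
    rw [map_natCast] at h1
    exact hk (by exact_mod_cast h1)
  have h1 : y = ((3 : ℕ) : OO A B) * ((r : OO A B) * z) := by
    apply mul_left_cancel₀ hk0
    rw [hz]
    push_cast
    ring
  rw [hC.sq, h1]
  exact Ideal.mul_mem_right _ _ (Ideal.mem_span_singleton_self _)

/-- `D` is finite over `k` -/
lemma finD (hT : TorX A B) {m : Ideal (OO A B)} (hm : m ≠ ⊥) (D : IntermediateField ℚ ℂ)
    (h : kk A B ≤ D) (hD : ∀ y ∈ D, y ∈ RF m) :
    letI := algC h
    Finite (D ≃ₐ[kk A B] D) := by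
  letI := algC h
  have := hT.fin m hm
  let φ : D →ₗ[kk A B] RF m :=
    { toFun := fun y => ⟨y, hD y y.2⟩
      map_add' := fun x y => rfl
      map_smul' := fun c x => by
        apply Subtype.ext
        show ((c • x : D) : ℂ) = ((c • (⟨x, hD x x.2⟩ : RF m) : RF m) : ℂ)
        rw [Algebra.smul_def, Algebra.smul_def]
        rfl }
  have hφ : Function.Injective φ := by
    intro x y hxy
    apply Subtype.ext
    exact congrArg (fun z : RF m => (z : ℂ)) hxy
  have : FiniteDimensional (kk A B) D := FiniteDimensional.of_injective φ hφ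
  exact inferInstance

end RED

open RED in
theorem tf_RED (hMAIN : Sf_MAIN) (hPAL : Sf_PAL) (hINN : Sf_INN) (hORB : Sf_ORB) (hSTB : Sf_STB)
    (hBPW : Sf_BPW) (hEXO : Sf_EXO) (hIDL : Sf_IDL) : Sf_RED := by
  classical
  intro A B P V hC hT hE n f hn hf3 hf2 hf ι _ R u e lam hG H hH D h hD hfix
  letI := algC h
  intro hCC g hcube τ'
  have hf0 : f ≠ 0 := by omega
  have h3 := hC.v3
  obtain ⟨φ, hφ⟩ := hC.ring.hom
  obtain ⟨b, hb⟩ := exb (A := A) (B := B) f n
  obtain ⟨hb1, hb2, hb3, -, hb5⟩ := hBPW A B P V hC f n b hf0 hb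
  obtain ⟨h3P, -, -, hnP, hlev⟩ := hIDL A B P V hC
  obtain ⟨k, rfl⟩ : ∃ k, n = k + 1 := ⟨n - 1, by omega⟩
  obtain ⟨m, hm⟩ : ∃ m, m = lvX 3 f (k + 1) := ⟨_, rfl⟩
  have hlv : m = 3 ^ (k + 1 + 1) * f := by
    rw [hm]
    simp [lvX, q0]
    ring
  obtain ⟨ha3, hap, haf⟩ := m0_aX (p := 3) (Or.inr rfl) hf0
  have hao : Odd (aX 3 f) := ⟨3 * f, by simp [aX, q0]; ring⟩
  obtain ⟨a, ha⟩ : ∃ a, a = aX 3 f := ⟨_, rfl⟩
  rw [← hm] at hb1 hb2 hb3 hcube hCC ⊢
  rw [← ha] at ha3 hap haf hao hH ⊢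
  have hm0 : m ≠ 0 := by
    rw [hlv]
    exact mul_ne_zero (pow_ne_zero _ (by norm_num)) hf0
  have : Finite (D ≃ₐ[kk A B] D) := finD hT (hlev f (k + 1) hf0).2.2.2.2.1 D h hD
  letI : Fintype (D ≃ₐ[kk A B] D) := Fintype.ofFinite _
  have := fin_quot hC.ring hm0
  -- multiples of `m` are in `P`
  have hmP : ∀ x ∈ idl (A := A) (B := B) m, x ∈ P := by
    intro x hx
    rw [Ideal.mem_span_singleton] at hx
    obtain ⟨z, rfl⟩ := hx
    exact P.mul_mem_right _ ((hnP m).2 (by rw [hlv, pow_succ', mul_assoc]; exact dvd_mul_right _ _))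
  -- `b^(3^k) = 1 + t`
  obtain ⟨y, hyP, hyPP, hy⟩ := hb2 (3 ^ k) k dvd_rfl (by
    intro h5
    have := (Nat.pow_dvd_pow_iff_le_right (by norm_num : 1 < 3)).1 h5
    omega) le_rfl
  obtain ⟨t, ht⟩ : ∃ t : OO A B, t = ((3 ^ (k + 1) * f : ℕ) : OO A B) * y := ⟨_, rfl⟩
  rw [← ht] at hy
  have htt : t * t ∈ idl (A := A) (B := B) m := by
    rw [ht, Ideal.mem_span_singleton, hlv]
    refine ⟨((3 ^ k * f : ℕ) : OO A B) * (y * y), ?_⟩
    push_cast
    ring
  -- the sets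
  have hfin : ∀ τ : D ≃ₐ[kk A B] D, (XX R m h τ).Finite := fun τ => Set.toFinite _
  let S : (D ≃ₐ[kk A B] D) → Finset (ι × (OO A B ⧸ idl (A := A) (B := B) m)) :=
    fun τ => (hfin τ).toFinset
  have hScop : ∀ τ, ∀ q ∈ S τ, IsCoprime (Quotient.out q.2 : OO A B) ((m : ℕ) : OO A B) :=
    fun τ q hq => ((hfin τ).mem_toFinset.1 hq).1
  obtain ⟨β, hβ⟩ : ∃ β : OO A B ⧸ idl (A := A) (B := B) m, β = Ideal.Quotient.mk _ b := ⟨_, rfl⟩
  let ψ : ι × (OO A B ⧸ idl (A := A) (B := B) m) → ι × (OO A B ⧸ idl (A := A) (B := B) m) :=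
    fun q => (q.1, q.2 * β)
  have hit : ∀ (q : ι × (OO A B ⧸ idl (A := A) (B := B) m)) (l : ℕ),
      ψ^[l] q = (q.1, q.2 * β ^ l) := fun q l => iter β q l
  have hβn : β ^ 3 ^ (k + 1) = 1 := by
    rw [hβ, ← map_pow, ← map_one (Ideal.Quotient.mk (idl (A := A) (B := B) m)),
      Ideal.Quotient.eq]
    exact hb3
  have hmain : ∀ τ : D ≃ₐ[kk A B] D, ∃ T : Finset (ι × (OO A B ⧸ idl (A := A) (B := B) m)),
      T ⊆ S τ ∧ (∀ F : ι × (OO A B ⧸ idl (A := A) (B := B) m) → ℂ, ∏ x ∈ S τ, F x =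
        ∏ x ∈ T, ∏ l ∈ Finset.range (3 ^ (k + 1)), F (ψ^[l] x)) ∧
      ∀ F : ι × (OO A B ⧸ idl (A := A) (B := B) m) → ℂ, ∑ x ∈ S τ, F x =
        ∑ x ∈ T, ∑ l ∈ Finset.range (3 ^ (k + 1)), F (ψ^[l] x) := by
    intro τ
    refine hORB _ (S τ) ψ (3 ^ (k + 1)) (by positivity) (fun q hq => ?_) (fun q hq => ?_)
      (fun q hq l hl0 hl => ?_)
    · rw [(hfin τ).mem_toFinset] at hq ⊢
      have h6 := hSTB A B P V hC hT (k + 1) f hn hf0 hf ι R D h hfix τ b hb
      subst hm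
      subst hβ
      exact h6 q hq
    · rw [hit, hβn, mul_one]
    · rw [hit]
      intro h6
      have h7 : q.2 * β ^ l = q.2 := congrArg Prod.snd h6
      obtain ⟨a1, a2, h8⟩ := hScop τ q hq
      have h9 : (Ideal.Quotient.mk (idl (A := A) (B := B) m) a1) * q.2 = 1 := by
        have h10 := congrArg (Ideal.Quotient.mk (idl (A := A) (B := B) m)) h8
        rw [map_add, map_mul, map_mul, Ideal.Quotient.mk_out, map_one,
          Ideal.Quotient.eq_zero_iff_mem.2 (Ideal.mem_span_singleton_self _), mul_zero,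
          add_zero] at h10
        exact h10
      have h11 : β ^ l = 1 := by
        calc β ^ l = (Ideal.Quotient.mk (idl (A := A) (B := B) m) a1) * q.2 * β ^ l := by
              rw [h9, one_mul]
          _ = 1 := by rw [mul_assoc, h7, h9]
      rw [hβ, ← map_pow, ← map_one (Ideal.Quotient.mk (idl (A := A) (B := B) m)),
        Ideal.Quotient.eq] at h11
      obtain ⟨j, l', hl', hlj⟩ := Nat.exists_eq_pow_mul_and_not_dvd hl0.ne' 3 (by norm_num)
      have hjn : j + 1 ≤ k + 1 := by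
        by_contra h12
        have h13 : 3 ^ (k + 1) ≤ 3 ^ j := Nat.pow_le_pow_right (by norm_num) (by omega)
        have h14 : 3 ^ j ≤ l := Nat.le_of_dvd hl0 (hlj ▸ dvd_mul_right _ _)
        omega
      obtain ⟨y', -, hy'P, hy'⟩ := hb2 l j (hlj ▸ dvd_mul_right _ _) (by
        rw [hlj, pow_succ]
        intro h12
        exact hl' (Nat.dvd_of_mul_dvd_mul_left (by positivity) h12)) hjn
      apply hy'P
      have h12 := sub_mem h11 hy'
      rw [sub_sub_cancel] at h12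
      refine notPP hC (k := 3 ^ (j + 1) * f) (r := 3 ^ (k - j))
        (mul_ne_zero (by positivity) hf0) ?_
      have h13 : 3 ^ (j + 1) * f * (3 * 3 ^ (k - j)) = m := by
        rw [hlv, ← pow_succ', mul_right_comm, ← pow_add]
        congr 2
        omega
      rw [h13]
      exact h12
  choose T hTS hTp hTs using hmain
  clear hORB hSTB
  -- points
  obtain ⟨z0, hz0⟩ : ∃ z0 : ι → ℂ, ∀ i x, pt R m i x = φ x * z0 i :=
    ⟨fun i => R.om i * nI (R.b i) / m, fun i x => by unfold pt; rw [hφ]; ring⟩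
  have hex : ∀ (i : ι) (x : OO A B), IsCoprime x ((m : ℕ) : OO A B) →
      ∀ c : OO A B, φ c * pt R m i x ∈ (R.L i).lattice ↔ c ∈ idl (A := A) (B := B) m := by
    intro i x hx c
    rw [hlv] at hx ⊢
    rw [hφ]
    exact (hEXO A B P V hC (k + 1) f ι R hf0 i x hx).1 c
  have hper : ∀ i, ∀ c ∈ idl (A := A) (B := B) m, φ c * z0 i ∈ (R.L i).lattice := by
    intro i c hc
    have h6 := (hex i 1 isCoprime_one_left c).2 hc
    rwa [hz0, map_one, one_mul] at h6
  -- the point of `E[P]`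
  let xx : (ι × (OO A B ⧸ idl (A := A) (B := B) m)) × ℕ → OO A B := fun K =>
    (Quotient.out K.1.2 : OO A B) * b ^ K.2
  let qq : (ι × (OO A B ⧸ idl (A := A) (B := B) m)) × ℕ → ℂ := fun K =>
    φ t * pt R m K.1.1 (xx K)
  have hxx : ∀ (q : ι × (OO A B ⧸ idl (A := A) (B := B) m)) (l : ℕ),
      IsCoprime (Quotient.out q.2 : OO A B) ((m : ℕ) : OO A B) →
      IsCoprime (xx (q, l)) ((m : ℕ) : OO A B) := fun q l hq => hq.mul_left hb1.pow_left
  have htor : ∀ (i : ι) (x : OO A B), IsCoprime x ((m : ℕ) : OO A B) →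
      Tor P (R.L i) (φ t * pt R m i x) ∧ φ t * pt R m i x ∉ (R.L i).lattice := by
    intro i x hx
    refine ⟨fun p hp => ?_, fun h6 => ?_⟩
    · rw [← hφ, ← mul_assoc, ← map_mul, hex i x hx]
      have h7 : p * y ∈ P * P := Ideal.mul_mem_mul hp hyP
      rw [hC.sq, Ideal.mem_span_singleton] at h7
      obtain ⟨w, hw⟩ := h7
      rw [Ideal.mem_span_singleton]
      refine ⟨w, ?_⟩
      rw [ht, hlv]
      calc p * (((3 ^ (k + 1) * f : ℕ) : OO A B) * y) =
            ((3 ^ (k + 1) * f : ℕ) : OO A B) * (p * y) := by ring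
        _ = _ := by
            rw [hw]
            push_cast
            ring
    · rw [hex i x hx, ht] at h6
      refine hyPP (notPP hC (k := 3 ^ (k + 1) * f) (r := 1)
        (mul_ne_zero (by positivity) hf0) ?_)
      rw [hlv] at h6
      rw [show 3 ^ (k + 1) * f * (3 * 1) = 3 ^ (k + 1 + 1) * f by ring]
      exact h6
  -- values of periodic functions
  have horb : ∀ (i : ι) (G : ℂ → ℂ), (∀ z, ∀ w ∈ (R.L i).lattice, G (z + w) = G z) →
      ∀ (x x' : OO A B) (l j : ℕ), x' - x * b ^ (l + 3 ^ k * j) ∈ idl (A := A) (B := B) m →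
      G (pt R m i x') = G (pt R m i (x * b ^ l) + j * (φ t * pt R m i (x * b ^ l))) := by
    intro i G hGp x x' l j hx
    rw [hz0, hz0]
    exact orbit φ (hper i) G hGp hy htt hx
  have hout : ∀ (q : ι × (OO A B ⧸ idl (A := A) (B := B) m)) (l : ℕ),
      (Quotient.out (ψ^[l] q).2 : OO A B) - (Quotient.out q.2 : OO A B) * b ^ l ∈
        idl (A := A) (B := B) m := by
    intro q l
    rw [← Ideal.Quotient.eq, Ideal.Quotient.mk_out, map_mul, Ideal.Quotient.mk_out, hit, hβ,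
      map_pow]
  have hfst : ∀ (q : ι × (OO A B ⧸ idl (A := A) (B := B) m)) (l : ℕ), (ψ^[l] q).1 = q.1 := by
    intro q l
    rw [hit]
  have hTh : ∀ i, ∀ z, ∀ w ∈ (R.L i).lattice,
      ThetaH (R.L i) (H i) (z + w) = ThetaH (R.L i) (H i) z := by
    intro i z w hw
    have h2 : (R.L i).weierstrassP (z + w) = (R.L i).weierstrassP z :=
      (R.L i).weierstrassP_add_coe z ⟨w, hw⟩
    simp only [ThetaH, h2]
  have hdl : ∀ i, ∀ z, ∀ w ∈ (R.L i).lattice, dlX (R.L i) a (z + w) = dlX (R.L i) a z := by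
    intro i z w hw
    have h6 := (b_PER (R.L i)).1
    unfold dlX
    rw [h6 z w hw, mul_add, h6 (a * z) (a * w) (by
      have := nsmul_mem hw a
      rwa [nsmul_eq_mul] at this)]
  have hsp : 3 ^ (k + 1) = 3 ^ k * 3 := pow_succ 3 k
  -- the products
  let S' : (D ≃ₐ[kk A B] D) → Finset ((ι × (OO A B ⧸ idl (A := A) (B := B) m)) × ℕ) := fun τ =>
    T τ ×ˢ Finset.range (3 ^ k)
  have hprod : ∀ τ : D ≃ₐ[kk A B] D, cX R m H h τ = ∏ K ∈ S' τ, ∏ l ∈ Finset.range 3,
      ThetaH (R.L K.1.1) (H K.1.1) (pt R m K.1.1 (xx K) + l * qq K) := by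
    intro τ
    rw [cX, finprod_mem_eq_finite_toFinset_prod _ (hfin τ)]
    refine (hTp τ _).trans ?_
    rw [Finset.prod_product]
    refine Finset.prod_congr rfl fun q _ => ?_
    rw [hsp, prod_split]
    refine Finset.prod_congr rfl fun l _ => Finset.prod_congr rfl fun j _ => ?_
    rw [hfst]
    exact horb q.1 _ (hTh q.1) _ _ l j (hout q _)
  -- the sums
  have hbP : ∀ l : ℕ, b ^ l - 1 ∈ P := by
    intro l
    obtain ⟨p, hp, h6⟩ := ((hlev f 1 hf0).1 _).1 (hb5 hn l)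
    rw [h6]
    exact P.mul_mem_left _ hp
  let W : (ι × (OO A B ⧸ idl (A := A) (B := B) m)) → ℂ := fun q =>
    (wP P (Quotient.out q.2 : OO A B) : ℂ)
  let d : (ι × (OO A B ⧸ idl (A := A) (B := B) m)) → ℕ → ℕ → ℂ := fun q l j =>
    dlX (R.L q.1) a (pt R m q.1 (xx (q, l)) + j * qq (q, l))
  have hsum : ∀ τ : D ≃ₐ[kk A B] D, TTX R P m a h τ = ∑ q ∈ T τ, ∑ l ∈ Finset.range (3 ^ k),
      ∑ j ∈ Finset.range 3, W q * muX R q.1 * d q l j := by
    intro τ
    rw [TTX, finsum_mem_eq_finite_toFinset_sum _ (hfin τ)]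
    refine (hTs τ _).trans ?_
    refine Finset.sum_congr rfl fun q _ => ?_
    rw [hsp, sum_split]
    refine Finset.sum_congr rfl fun l _ => Finset.sum_congr rfl fun j _ => ?_
    have h6 : wP P (Quotient.out (ψ^[l + 3 ^ k * j] q).2 : OO A B) =
        wP P (Quotient.out q.2 : OO A B) := by
      apply wP_per
      have h7 := add_mem (hmP _ (hout q (l + 3 ^ k * j)))
        (P.mul_mem_left (Quotient.out q.2 : OO A B) (hbP (l + 3 ^ k * j)))
      rwa [show (Quotient.out (ψ^[l + 3 ^ k * j] q).2 : OO A B) -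
        (Quotient.out q.2 : OO A B) * b ^ (l + 3 ^ k * j) +
        (Quotient.out q.2 : OO A B) * (b ^ (l + 3 ^ k * j) - 1) =
        (Quotient.out (ψ^[l + 3 ^ k * j] q).2 : OO A B) - Quotient.out q.2 by ring] at h7
    rw [h6, hfst, horb q.1 _ (hdl q.1) _ _ l j (hout q _)]
  -- the sum of `MAIN`
  obtain ⟨Y, hY⟩ : ∃ Y : (D ≃ₐ[kk A B] D) → ℂ, ∀ τ, Y τ = ∑ K ∈ S' τ, emb (xx K) *
      muX R K.1.1 * ∑ l ∈ Finset.range 3, dlX (R.L K.1.1) a (pt R m K.1.1 (xx K) + l * qq K) :=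
    ⟨_, fun τ => rfl⟩
  have hM : V.valuation ((∑ᶠ τ : D ≃ₐ[kk A B] D, (g τ : ℂ) * Y (τ * τ')) / u) ^ 2 ≤
      V.valuation (3 : ℂ) ^ 3 := by
    simp only [hY]
    subst hm
    subst ha
    refine hMAIN A B P V hC hT hE (k + 1) f hn hf3 hf2 hf ι R u e lam hG H hH D h hD
      (cX R (lvX 3 f (k + 1)) H h) _ S' (fun K => K.1.1) xx qq hCC ?_ hprod g hcube τ'
    intro τ K hK
    obtain ⟨hK1, -⟩ := Finset.mem_product.1 hK
    have h6 := hxx K.1 K.2 (hScop τ _ (hTS τ hK1))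
    exact ⟨h6, htor K.1.1 _ h6⟩
  have hΔ : ∀ τ : D ≃ₐ[kk A B] D, Bd V (k + 1) ((Y τ - TTX R P m a h τ) / u) := by
    intro τ
    rw [hsum τ, hY, Finset.sum_product, ← Finset.sum_sub_distrib, Finset.sum_div]
    refine Bd.sum _ _ fun q hq => ?_
    have hqc := hScop τ q (hTS τ hq)
    obtain ⟨x, hx⟩ : ∃ x : OO A B, x = Quotient.out q.2 := ⟨_, rfl⟩
    have e1 : ∀ l, emb (xx (q, l)) = emb x * emb (b ^ l) := by
      intro l
      rw [← hφ, ← hφ, ← hφ, hx]
      exact map_mul φ _ _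
    have e2 : (∑ l ∈ Finset.range (3 ^ k), emb (xx (q, l)) * muX R q.1 *
        ∑ j ∈ Finset.range 3, d q l j -
        ∑ l ∈ Finset.range (3 ^ k), ∑ j ∈ Finset.range 3, W q * muX R q.1 * d q l j) / u =
        (emb x - W q) * (muX R q.1 * (∑ l ∈ Finset.range (3 ^ k), ∑ j ∈ Finset.range 3,
          d q l j) / u) + ∑ l ∈ Finset.range (3 ^ k), ∑ j ∈ Finset.range 3,
          (emb x * (emb (b ^ l) - 1)) * (muX R q.1 * d q l j / u) := by
      simp only [Finset.mul_sum, Finset.sum_div, ← Finset.sum_sub_distrib,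
        ← Finset.sum_add_distrib, e1]
      refine Finset.sum_congr rfl fun l _ => Finset.sum_congr rfl fun j _ => ?_
      ring
    refine Eq.subst (motive := fun z => Bd V (k + 1) z) e2.symm ?_
    have hxP : x ∉ P := by
      intro h6
      obtain ⟨c1, c2, h7⟩ := hqc
      apply hC.max.ne_top
      rw [Ideal.eq_top_iff_one, ← h7]
      refine add_mem (P.mul_mem_left _ (hx ▸ h6)) (P.mul_mem_left _ ?_)
      exact hmP _ (Ideal.mem_span_singleton_self _)
    refine Bd.add (Bd.of_pal h3 ?_ ?_) (Bd.sum _ _ fun l _ => Bd.sum _ _ fun j _ => ?_)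
    · have h6 := hC.vP _ (wP_sub hC.pm hxP)
      rw [← hφ, map_sub, map_intCast, hφ] at h6
      rw [hx] at h6 ⊢
      exact h6
    · have h6 := hPAL A B P V hC hT hE (k + 1) f a hn hf3 hf2 hf ha3 hao hap haf ι R u e lam hG b
        hb q.1 x (by rw [← hm, hx]; exact hqc)
      rw [← hm, hsp, sum_split] at h6
      have e3 : ∑ l ∈ Finset.range (3 ^ k), ∑ j ∈ Finset.range 3,
          dlX (R.L q.1) a (pt R m q.1 (x * b ^ (l + 3 ^ k * j))) =
          ∑ l ∈ Finset.range (3 ^ k), ∑ j ∈ Finset.range 3, d q l j := by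
        refine Finset.sum_congr rfl fun l _ => Finset.sum_congr rfl fun j _ => ?_
        rw [horb q.1 _ (hdl q.1) x _ l j (by rw [sub_self]; exact zero_mem _), hx]
      rw [e3, ← hsp] at h6
      exact h6
    · have hxl := hxx q l hqc
      have h6 := ((hINN A B P V hC hT hE (k + 1) f a hf3 hf2 hf ha3 hao hap haf ι R u e lam hG H
        hH q.1 (xx (q, l)) (by rw [← hlv]; exact hxl) (qq (q, l)) (htor q.1 _ hxl).1).1 j).2
      rw [← hlv] at h6
      refine Bd.of_sq h3 ?_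
      obtain ⟨p, hp, h7⟩ := ((hlev f 1 hf0).1 _).1 (hb5 hn l)
      have h8 : emb (b ^ l) - 1 = 3 * (f * emb p) := by
        have h9 := congrArg φ h7
        rw [map_sub, map_one, map_mul, map_natCast, hφ, hφ] at h9
        rw [h9]
        push_cast
        ring
      have hnat : V.valuation (f : ℂ) ≤ 1 := by
        rw [V.valuation_le_one_iff]
        exact natCast_mem V f
      have h9 : V.valuation ((emb x * (emb (b ^ l) - 1)) * (muX R q.1 * d q l j / u)) ≤
          V.valuation (3 : ℂ) * V.valuation (emb p) := by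
        rw [h8]
        calc V.valuation ((emb x * (3 * (f * emb p))) * (muX R q.1 * d q l j / u))
            = V.valuation (emb x) * (V.valuation (3 : ℂ) * (V.valuation (f : ℂ) *
                V.valuation (emb p))) * V.valuation (muX R q.1 * d q l j / u) := by
              simp only [map_mul]
          _ ≤ 1 * (V.valuation (3 : ℂ) * (1 * V.valuation (emb p))) * 1 :=
              mul_le_mul' (mul_le_mul' (hC.int x) (mul_le_mul' le_rfl
                (mul_le_mul' hnat le_rfl))) h6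
          _ = _ := by rw [one_mul, one_mul, mul_one]
      calc V.valuation ((emb x * (emb (b ^ l) - 1)) * (muX R q.1 * d q l j / u)) ^ 2
          ≤ (V.valuation (3 : ℂ) * V.valuation (emb p)) ^ 2 := pow_le_pow_left₀ zero_le h9 _
        _ = V.valuation (3 : ℂ) ^ 2 * V.valuation (emb p) ^ 2 := mul_pow _ _ _
        _ ≤ V.valuation (3 : ℂ) ^ 2 * V.valuation (3 : ℂ) := mul_le_mul' le_rfl (hC.vP p hp)
        _ = V.valuation (3 : ℂ) ^ 3 := (pow_succ _ 2).symm
  rw [finsum_eq_sum_of_fintype] at hM ⊢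
  have e4 : (∑ τ : D ≃ₐ[kk A B] D, (g τ : ℂ) * TTX R P m a h (τ * τ')) / u =
      (∑ τ : D ≃ₐ[kk A B] D, (g τ : ℂ) * Y (τ * τ')) / u -
      ∑ τ : D ≃ₐ[kk A B] D, (g τ : ℂ) * ((Y (τ * τ') - TTX R P m a h (τ * τ')) / u) := by
    rw [Finset.sum_div, Finset.sum_div, ← Finset.sum_sub_distrib]
    exact Finset.sum_congr rfl fun τ _ => by ring
  rw [e4]
  refine (Bd.of_sq h3 hM).sub (Bd.sum _ _ fun τ _ => (hΔ _).mul ?_)
  rw [V.valuation_le_one_iff]
  exact intCast_mem V _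

end

end Pool.Agent.NSER
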