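import Pool.Agent.NS.StER

/-!
# MUX-NS, block ER, module RPV (helper89): the values of the points of `E[P]`
-/

set_option autoImplicit false

open Polynomial

namespace Pool.Agent.NSER

open _root_.MU3 Pool.Agent.MU3A Pool.Agent.MU3B Pool.Agent.MUX Pool.Agent.MUXU Pool.Agent.MUXE
open Pool.Agent.RI Pool.Agent.NS Pool.Agent.NSRD
open Pool.Agent.MUXV (GR InK tX)
open Pool.Agent.NSE (E3 su ru WL IntP Rep)

noncomputable section

theorem rpv_emb_three {A B : ℤ} (h : RingE A B) : emb (3 : OO A B) = (3 : ℂ) := by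
  obtain ⟨φ, hφ⟩ := h.hom
  rw [← hφ, map_ofNat]

/-- the estimate: `v(s) = ρ^n`, `ρ² = v 3`, and the equation of `s` force `n ≤ 1` -/
theorem rpv_core (V : ValuationSubring ℂ) (s lam : ℂ) (ρ : V.ValueGroup) (n : ℕ)
    (h3 : V.valuation (3 : ℂ) < 1) (hρ : ρ ^ 2 = V.valuation (3 : ℂ))
    (h2 : V.valuation (2 : ℂ) = 1) (hl : V.valuation lam = 1)
    (h1l : V.valuation (1 + lam) ^ 2 ≤ V.valuation (3 : ℂ))
    (hs : V.valuation s = ρ ^ n) (hn : 2 ≤ n)
    (he : lam ^ 2 * s ^ 4 = 3 - 4 * (1 + lam) * s + 6 * lam * s ^ 2) : False := by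
  have v3 : V.valuation (3 : ℂ) ≠ 0 := (Valuation.ne_zero_iff _).mpr (by norm_num)
  have r0 : ρ ≠ 0 := by
    rintro rfl
    exact v3 (by rw [← hρ]; simp)
  have rp : 0 < ρ := zero_lt_iff.mpr r0
  have r1 : ρ < 1 := by
    by_contra hc
    have hc' : 1 ≤ ρ := not_lt.mp hc
    have : (1 : V.ValueGroup) ≤ ρ ^ 2 := one_le_pow₀ hc'
    rw [hρ] at this
    exact absurd h3 (not_lt.mpr this)
  have lt : ∀ {a b : ℕ}, a < b → ρ ^ b < ρ ^ a := fun h => pow_lt_pow_right_of_lt_one₀ rp r1 h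
  have l1 : V.valuation (1 + lam) ≤ ρ := by
    rw [← hρ] at h1l
    exact (pow_le_pow_iff_left₀ zero_le zero_le two_ne_zero).mp h1l
  have v4 : V.valuation (4 : ℂ) = 1 := by
    have : (4 : ℂ) = 2 * 2 := by norm_num
    rw [this, map_mul, h2, one_mul]
  have v6 : V.valuation (6 : ℂ) = ρ ^ 2 := by
    have : (6 : ℂ) = 2 * 3 := by norm_num
    rw [this, map_mul, h2, one_mul, hρ]
  have b1 : V.valuation (4 * (1 + lam) * s) < V.valuation (3 : ℂ) := by
    rw [map_mul, map_mul, v4, one_mul, hs, ← hρ]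
    calc V.valuation (1 + lam) * ρ ^ n ≤ ρ * ρ ^ n := mul_le_mul_left l1 _
      _ = ρ ^ (n + 1) := by rw [pow_succ']
      _ < ρ ^ 2 := lt (by omega)
  have b2 : V.valuation (6 * lam * s ^ 2) < V.valuation (3 : ℂ) := by
    rw [map_mul, map_mul, v6, hl, mul_one, map_pow, hs, ← hρ, ← pow_mul, ← pow_add]
    exact lt (by omega)
  have b3 : V.valuation (3 - 4 * (1 + lam) * s + 6 * lam * s ^ 2) = V.valuation (3 : ℂ) := by
    have e1 : (3 : ℂ) - 4 * (1 + lam) * s + 6 * lam * s ^ 2 =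
        3 + (6 * lam * s ^ 2 - 4 * (1 + lam) * s) := by ring
    rw [e1]
    exact Valuation.map_add_eq_of_lt_left _
      (lt_of_le_of_lt (Valuation.map_sub _ _ _) (max_lt b2 b1))
  have b4 : V.valuation (lam ^ 2 * s ^ 4) = ρ ^ (n * 4) := by
    rw [map_mul, map_pow, hl, one_pow, one_mul, map_pow, hs, ← pow_mul]
  rw [he, b3, ← hρ] at b4
  exact absurd b4 (ne_of_gt (lt (by omega)))

theorem tf_RPV (hCOE : Sf_COE) (hTW3 : Sf_TW3) (hUNR : Sf_UNR) (hRP1 : Sf_RP1) : Sf_RPV := by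
  intro A B P V c tx ge L u e lam nl g z ht hz
  have h3P : (3 : OO A B) ∈ P := by
    have h1 : (3 : OO A B) ∈ idl (A := A) (B := B) 3 := by
      have : (3 : OO A B) = ((3 : ℕ) : OO A B) := by norm_num
      rw [this]
      exact Ideal.mem_span_singleton_self _
    rw [← c.sq] at h1
    exact Ideal.mul_le_left h1
  have hE : z ∈ E3 L := by
    refine ⟨?_, hz⟩
    have := ht 3 h3P
    rwa [rpv_emb_three c.ring] at this
  obtain ⟨-, -, -, h2, hl, -, -, -, -⟩ := hCOE V L u e lam g c.v3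
  obtain ⟨hk, hx0, hs1, heq⟩ := hTW3 V L u e lam g c.v3 z hE
  obtain ⟨-, -, hmem⟩ := hRP1 A B P V c ge L u e lam nl g
  have hxR := (hmem z ht hz).2
  obtain ⟨k, hkv⟩ := hUNR A B P V c tx 2 two_ne_zero (by norm_num) _ hxR hx0
  refine ⟨hk, hx0, ?_⟩
  set ρ : V.ValueGroup := V.valuation (emb (dD A B)) with hρd
  have hρ : ρ ^ 2 = V.valuation (3 : ℂ) := c.vd
  have v3 : V.valuation (3 : ℂ) ≠ 0 := (Valuation.ne_zero_iff _).mpr (by norm_num)
  have r0 : ρ ≠ 0 := by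
    intro h0
    exact v3 (by rw [← hρ, h0]; simp)
  have rp : 0 < ρ := zero_lt_iff.mpr r0
  have r1 : ρ < 1 := by
    by_contra hc
    have hc' : 1 ≤ ρ := not_lt.mp hc
    have : (1 : V.ValueGroup) ≤ ρ ^ 2 := one_le_pow₀ hc'
    rw [hρ] at this
    exact absurd c.v3 (not_lt.mpr this)
  have hsv : V.valuation (su L u e z) = ρ ^ (-k) := by
    unfold su
    rw [map_inv₀, hkv, zpow_neg]
  rcases le_or_gt (-k) 0 with hk0 | hk0
  · exfalso
    obtain ⟨m, hm⟩ := Int.eq_ofNat_of_zero_le (a := k) (by omega)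
    have h1 : (1 : V.ValueGroup) ≤ ρ ^ (-k) := by
      rw [hm, zpow_neg, zpow_natCast]
      exact (one_le_inv₀ (pow_pos rp m)).mpr (pow_le_one₀ zero_le r1.le)
    rw [hsv] at hs1
    exact absurd hs1 (not_lt.mpr h1)
  · obtain ⟨n, hn⟩ := Int.eq_ofNat_of_zero_le hk0.le
    rw [hn, zpow_natCast] at hsv
    have hn1 : 1 ≤ n := by
      have : (0 : ℤ) < n := hn ▸ hk0
      omega
    rcases Nat.lt_or_ge n 2 with h | h
    · have : n = 1 := by omega
      rw [hsv, this, pow_one, hρ]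
    · exact absurd (rpv_core V (su L u e z) lam ρ n c.v3 hρ h2 hl g.lam1 hsv h heq) id

end

end Pool.Agent.NSER
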