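import Pool.Agent.NS.StER
import Pool.Agent.MUX.I_XXF
import Pool.Agent.MUX.XLib

/-!
# MUXER_STB: the sets `XX` are stable under multiplication by `b`
-/

set_option autoImplicit false

open Polynomial

namespace Pool.Agent.NSER

open _root_.MU3 Pool.Agent.MU3A Pool.Agent.MU3B Pool.Agent.MUX Pool.Agent.MUXU Pool.Agent.MUXE
open Pool.Agent.RI Pool.Agent.NS Pool.Agent.NSRD
open Pool.Agent.MUXV (GR InK tX)
open Pool.Agent.NSE (E3 su ru WL IntP Rep)

noncomputable section

open Pool.Agent.MUXI in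
theorem tf_STB (hHIT : Si_HIT) (hIAF : Si_IAF) (hBPW : Sf_BPW) : Sf_STB := by
  intro A B P V hR T n f hn hf hf3 ι R D h hD
  let := algC h
  intro τ b hb q hq
  have hC : MUX.CQ A B := hR.cq
  have hml : lvX 3 f n = 3 ^ (n + 1) * f := by
    unfold lvX q0
    rw [if_neg (by norm_num)]
    ring
  have h3n : 3 ≤ 3 ^ (n + 1) := by
    calc 3 = 3 ^ 1 := by norm_num
      _ ≤ 3 ^ (n + 1) := Nat.pow_le_pow_right (by norm_num) (by omega)
  have hm2 : 2 ≤ lvX 3 f n := by
    rw [hml]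
    have := Nat.mul_le_mul h3n (Nat.one_le_iff_ne_zero.2 hf)
    omega
  have hcop : ∀ i, (nI (R.b i)).Coprime (lvX 3 f n) := by
    intro i
    rw [hml]
    have h1 := R.cop i
    exact Nat.Coprime.mul_right ((h1.coprime_mul_right_right).pow_right _)
      h1.coprime_mul_left_right
  have hex : ∃ (b : Ideal (OO A B)) (L : PeriodPair) (om : ℂ), IsNL b L om := ⟨_, _, _, R.nl R.i0⟩
  have hm0 := XXF.idl_ne (A := A) (B := B) hm2
  obtain ⟨-, hsur, hcmp, -, hch, -, hlow, hzet⟩ := hIAF A B hC T hex _ hm0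
  have h3f0 : idl (A := A) (B := B) (3 * f) ≠ ⊥ := by
    refine XXF.idl_ne ?_
    omega
  obtain ⟨-, -, -, -, -, htriv, -, -⟩ := hIAF A B hC T hex _ h3f0
  obtain ⟨hbc, -, -, hnm, hlv⟩ := hBPW A B P V hR f n b hf hb
  have hb0 : b ≠ 0 := XXF.not_coprime_zero hm2 hbc
  have hit := hHIT A B hC T _ ι R _ hm2 hcop
  obtain ⟨hq1, σ, hσ, hτ, hh⟩ := hq
  have hIA := (hit σ hσ q.1 _ hq1).1 hh
  obtain ⟨ρ, hρ⟩ := hsur (sp b) (by rw [Ne, Ideal.span_singleton_eq_bot]; exact hb0)
    ((Ideal.isCoprime_span_singleton_iff _ _).2 hbc)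
  -- `ρ` is trivial on `D`
  have hle : idl (A := A) (B := B) (lvX 3 f n) ≤ idl (3 * f) := by
    rw [Ideal.span_singleton_le_span_singleton, hml]
    refine ⟨((3 ^ n : ℕ) : OO A B), ?_⟩
    push_cast
    ring
  have hρD : ∀ y ∈ D, ρ y = y := by
    refine hD ρ hρ.fix ?_ ?_
    · refine (htriv ρ (sp b) (hlow ρ _ _ hle hρ)).2 ⟨b, ?_, rfl⟩
      have h1 := hlv hn 1
      rw [pow_one] at h1
      have h2 : lvR P f 1 ≤ idl (A := A) (B := B) (3 * f) := by
        unfold lvR
        have h3 : P ^ (2 * 1 + 1) = P * P * P := by ring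
        rw [h3, hR.sq]
        have h4 : idl (A := A) (B := B) (3 * f) = idl f * idl 3 := by
          change Ideal.span {((3 * f : ℕ) : OO A B)} =
            Ideal.span {((f : ℕ) : OO A B)} * Ideal.span {((3 : ℕ) : OO A B)}
          rw [Ideal.span_singleton_mul_span_singleton, Nat.cast_mul, mul_comm]
        rw [h4]
        exact Ideal.mul_mono_right Ideal.mul_le_left
      exact h2 h1
    · intro z hz
      obtain ⟨-, h2⟩ := hzet (3 ^ (n + 1)) ρ (sp b) z (by positivity) (by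
        rw [Ideal.span_singleton_le_span_singleton, hml]
        refine ⟨((f : ℕ) : OO A B), ?_⟩
        push_cast
        ring) hρ hz
      rw [h2, nI_sp hC hb0]
      have h3 : (3 : ℤ) ^ (n + 1) ∣ ((nm b).natAbs : ℤ) - 1 := by
        rw [Int.natAbs_of_nonneg (nm_nonneg hC b)]
        exact hnm
      have h4 : 1 ≤ (nm b).natAbs := by
        rw [Nat.one_le_iff_ne_zero, Int.natAbs_ne_zero]
        exact fun h0 => hb0 ((nm_eq_zero hC).1 h0)
      obtain ⟨k, hk⟩ : 3 ^ (n + 1) ∣ (nm b).natAbs - 1 := by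
        have h5 : ((3 ^ (n + 1) : ℕ) : ℤ) ∣ (((nm b).natAbs - 1 : ℕ) : ℤ) := by
          push_cast [Nat.cast_sub h4]
          have h6 := h3
          push_cast at h6
          exact h6
        exact_mod_cast h5
      have h5 : (nm b).natAbs = 3 ^ (n + 1) * k + 1 := by omega
      rw [h5, pow_succ, pow_mul, hz, one_pow, one_mul]
  -- the composition
  have hIA2 := hcmp ρ σ _ _ hρ hIA
  have hτ2 : ExtC h τ (ρ.trans σ) := by
    intro y
    rw [RingEquiv.trans_apply, hρD y y.2]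
    exact hτ y
  set x' : OO A B := Quotient.out (q.2 * Ideal.Quotient.mk (idl (A := A) (B := B) (lvX 3 f n)) b)
    with hx'
  have e1 : Ideal.Quotient.mk (idl (A := A) (B := B) (lvX 3 f n)) x' =
      q.2 * Ideal.Quotient.mk (idl (A := A) (B := B) (lvX 3 f n)) b := Quotient.out_eq _
  have e2 : q.2 = Ideal.Quotient.mk (idl (A := A) (B := B) (lvX 3 f n)) (Quotient.out q.2) :=
    (Quotient.out_eq _).symm
  have e3 : x' - Quotient.out q.2 * b ∈ idl (A := A) (B := B) (lvX 3 f n) := by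
    apply Ideal.Quotient.eq.1
    rw [e1, map_mul, ← e2]
  have e4 : IsCoprime (Quotient.out q.2 * b : OO A B) ((lvX 3 f n : ℕ) : OO A B) :=
    IsCoprime.mul_left hq1 hbc
  have e5 : IsCoprime x' ((lvX 3 f n : ℕ) : OO A B) := by
    obtain ⟨y, hy⟩ := Ideal.mem_span_singleton'.1 e3
    have e6 : x' = Quotient.out q.2 * b + y * ((lvX 3 f n : ℕ) : OO A B) := by rw [hy]; ring
    rw [e6]
    exact e4.add_mul_right_left y
  have e7 : IsCoprime (sp x' * cjI (R.b q.1)) (idl (A := A) (B := B) (lvX 3 f n)) :=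
    IsCoprime.mul_left ((Ideal.isCoprime_span_singleton_iff _ _).2 e5) hIA.cop.of_mul_left_right
  have e8 : RE (idl (lvX 3 f n)) (sp b * (sp (Quotient.out q.2 : OO A B) * cjI (R.b q.1)))
      (sp x' * cjI (R.b q.1)) := by
    have e9 := XXF.re_swap hm2 (cjI (R.b q.1)) e4 e5 e3
    have e10 : sp (Quotient.out q.2 * b : OO A B) * cjI (R.b q.1) =
        sp b * (sp (Quotient.out q.2 : OO A B) * cjI (R.b q.1)) := by
      rw [← mul_assoc, Ideal.span_singleton_mul_span_singleton, mul_comm b]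
    rwa [e10] at e9
  have hIA3 := hch _ _ _ hIA2 e7 e8
  exact ⟨e5, ρ.trans σ, hIA3.fix, hτ2, (hit _ hIA3.fix q.1 x' e5).2 hIA3⟩

end

end Pool.Agent.NSER
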