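import Pool.Agent.NS.StER

/-!
# MUX-NS, block ER: points of order prime to 3 (TNC)
-/

set_option autoImplicit false

open Polynomial

namespace Pool.Agent.NSER

open _root_.MU3 Pool.Agent.MU3A Pool.Agent.MU3B Pool.Agent.MUX Pool.Agent.MUXU Pool.Agent.MUXE
open Pool.Agent.RI Pool.Agent.NS Pool.Agent.NSRD
open Pool.Agent.MUXV (GR InK tX)
open Pool.Agent.NSE (E3 su ru WL IntP Rep)

namespace FTNC

theorem v_int (V : ValuationSubring ℂ) (a : ℤ) : V.valuation (a : ℂ) ≤ 1 :=
  (V.valuation_le_one_iff _).2 (intCast_mem V a)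

/-- integers prime to `3` are units at `V` -/
theorem v_nat (V : ValuationSubring ℂ) (h3 : V.valuation (3 : ℂ) < 1) (N : ℕ) (hN : ¬ 3 ∣ N) :
    V.valuation (N : ℂ) = 1 := by
  have hc : Nat.Coprime N 3 := ((Nat.Prime.coprime_iff_not_dvd Nat.prime_three).2 hN).symm
  obtain ⟨a, b, hab⟩ := Nat.isCoprime_iff_coprime.2 hc
  refine le_antisymm ?_ ?_
  · have := v_int V (N : ℤ)
    rwa [Int.cast_natCast] at this
  · by_contra hlt
    have hlt' : V.valuation (N : ℂ) < 1 := not_le.1 hlt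
    have e : (a : ℂ) * (N : ℂ) + (b : ℂ) * 3 = 1 := by
      have := congrArg (fun t : ℤ => (t : ℂ)) hab
      push_cast at this
      exact this
    have h1 : V.valuation ((a : ℂ) * (N : ℂ)) < 1 := by
      rw [map_mul]
      exact lt_of_le_of_lt (mul_le_of_le_one_left' (v_int V a)) hlt'
    have h2 : V.valuation ((b : ℂ) * 3) < 1 := by
      rw [map_mul]
      exact lt_of_le_of_lt (mul_le_of_le_one_left' (v_int V b)) h3
    have h4 := Valuation.map_add_lt V.valuation h1 h2
    rw [e, map_one] at h4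
    exact lt_irrefl _ h4

end FTNC

open FTNC in
theorem tf_TNC (h : Sf_GRN) : Sf_TNC := by
  intro V L u e lam hG hv3
  obtain ⟨ξ, G⟩ := h V L u e lam hG hv3
  exact fun N hN => ⟨v_nat V hv3 N hN, fun z hz hK =>
    Pool.Agent.MUXV.mem_of_nat_mul G hK (v_nat V hv3 N hN) hz⟩

end Pool.Agent.NSER
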