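import Pool.Agent.NS.StER

/-!
# MUX-NS, block ER, module TRV (helper12): the valuation of a trace
-/

set_option autoImplicit false

open Polynomial

namespace Pool.Agent.NSER

open Pool.Agent.NSE (IntP)

noncomputable section

namespace Trv

/-- the product over `l < e` of `x - p l`, the zero factors left out -/
def GG {F : Type*} [Field F] (p : ℕ → F) (e : ℕ) (x : F) : F :=
  open Classical in ∏ l ∈ Finset.range e, (if p l = x then 1 else x - p l)

theorem prod_shift {F : Type*} [CommMonoid F] (g : ℕ → F) (e : ℕ) (h : g e = g 0) :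
    ∏ l ∈ Finset.range e, g (l + 1) = ∏ l ∈ Finset.range e, g l := by
  rcases Nat.eq_zero_or_pos e with h0 | h0
  · subst h0; simp
  · obtain ⟨n, rfl⟩ : ∃ n, e = n + 1 := ⟨e - 1, by omega⟩
    rw [Finset.prod_range_succ (fun l => g (l + 1)), Finset.prod_range_succ' (fun l => g l), h]

theorem gg_map {F : Type*} [Field F] (p : ℕ → F) (e : ℕ) (s : F ≃+* F)
    (hs : ∀ l, s (p l) = p (l + 1)) (he : p e = p 0) (x : F) :
    s (GG p e x) = GG p e (s x) := by
  classical
  unfold GG
  rw [map_prod, ← prod_shift (fun l => if p l = s x then 1 else s x - p l) e (by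
    simp only [he])]
  refine Finset.prod_congr rfl fun l _ => ?_
  by_cases h : p l = x
  · rw [if_pos h, if_pos (by rw [← hs l, h]), map_one]
  · rw [if_neg h, if_neg (by rw [← hs l]; exact fun h' => h (s.injective h')), map_sub, hs l]

theorem gg_erase {F : Type*} [Field F] (p : ℕ → F) (e j : ℕ) (hj : j < e)
    (hp : ∀ l < e, ∀ l' < e, p l = p l' → l = l') :
    GG p e (p j) = ∏ l' ∈ (Finset.range e).erase j, (p j - p l') := by
  classical
  unfold GG
  rw [← Finset.mul_prod_erase _ _ (Finset.mem_range.2 hj), if_pos rfl, one_mul]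
  refine Finset.prod_congr rfl fun l hl => ?_
  have h1 := Finset.mem_erase.1 hl
  rw [if_neg]
  exact fun h => h1.1 (hp _ (Finset.mem_range.1 h1.2) _ hj h)

end Trv

open Trv

theorem tf_TRV (hLAG : Sf_LAG) : Sf_TRV := by
  classical
  intro K _ _ V M₀ M σ N e k π he hfix hM₀ hgen hσe hπ0 hπ1 hval hne hG X hX
  -- the conjugates
  set p : ℕ → M := fun l => (σ ^ l) π with hp
  have hp0 : p 0 = π := by simp [hp]
  have hpe : p e = p 0 := by rw [hp0]; exact hσe
  have hps : ∀ l, σ (p l) = p (l + 1) := by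
    intro l
    simp only [hp]
    rw [pow_succ']
    rfl
  have hinj : ∀ l < e, ∀ l' < e, p l = p l' → l = l' := by
    have key : ∀ l < e, ∀ l' < e, l < l' → p l ≠ p l' := by
      intro l hl l' hl' hll h
      obtain ⟨d, rfl⟩ : ∃ d, l' = l + d := ⟨l' - l, by omega⟩
      refine hne d (by omega) (by omega) ?_
      have h2 : (σ ^ l) ((σ ^ d) π) = (σ ^ l) π := by
        have : (σ ^ (l + d)) π = (σ ^ l) π := h.symm
        rw [pow_add] at this
        exact this
      exact (σ ^ l).injective h2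
    intro l hl l' hl' h
    rcases lt_trichotomy l l' with h1 | h1 | h1
    · exact absurd h (key l hl l' hl' h1)
    · exact h1
    · exact absurd h.symm (key l' hl' l hl h1)
  -- the constant kappa
  set κ : M := (∏ l ∈ Finset.range e, p l) ^ k with hκ
  have hκs : σ κ = κ := by
    rw [hκ, map_pow, map_prod]
    congr 1
    rw [← prod_shift p e hpe]
    exact Finset.prod_congr rfl fun l _ => hps l
  have hκl : ∀ l : ℕ, (σ ^ l) κ = κ := by
    intro l
    induction l with
    | zero => simp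
    | succ n ih => rw [pow_succ]; exact (congrArg (σ ^ n) hκs).trans ih
  have hvκ : V.valuation (κ : ℂ) = V.valuation (π : ℂ) ^ (e * k) := by
    rw [hκ, pow_mul]
    push_cast
    rw [map_pow, map_prod, Finset.prod_congr rfl fun l _ => hval l, Finset.prod_const,
      Finset.card_range]
  have hvπ : V.valuation (π : ℂ) ≠ 0 := (Valuation.ne_zero_iff _).2 hπ0
  have hκ0 : (κ : ℂ) ≠ 0 := by
    intro h
    rw [h, map_zero] at hvκ
    exact pow_ne_zero _ hvπ hvκ.symm
  -- the product G
  have hGs : ∀ l : ℕ, (σ ^ l) (GG p e π) = GG p e (p l) := by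
    intro l
    induction l with
    | zero => rw [hp0]; simp
    | succ n ih =>
      rw [pow_succ']
      have h1 : (σ * σ ^ n) (GG p e π) = σ ((σ ^ n) (GG p e π)) := rfl
      rw [h1, ih, ← hps n]
      exact gg_map p e σ.toRingEquiv hps hpe (p n)
  have hGv : V.valuation ((GG p e π : M) : ℂ) ≤ V.valuation (π : ℂ) ^ (e * k) := by
    have h1 := gg_erase p e 0 he hinj
    rw [hp0] at h1
    rw [h1]
    have h2 : (Finset.range e).erase 0 = Finset.Ico 1 e := by
      ext l
      simp only [Finset.mem_erase, Finset.mem_range, Finset.mem_Ico]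
      omega
    rw [h2]
    push_cast
    exact hG
  have hG0 : ∀ l < e, ((GG p e (p l) : M) : ℂ) ≠ 0 := by
    intro l hl
    rw [gg_erase p e l hl hinj]
    push_cast
    refine Finset.prod_ne_zero_iff.2 fun l' hl' => ?_
    have h1 := Finset.mem_erase.1 hl'
    intro h
    refine h1.1 (hinj _ (Finset.mem_range.1 h1.2) _ hl ?_)
    exact Subtype.ext (sub_eq_zero.1 h).symm
  -- the element Y
  set Y : M := X * GG p e π / κ with hY
  have hvY : V.valuation (Y : ℂ) ≤ 1 := by
    rw [hY]
    push_cast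
    rw [map_div₀, map_mul, hvκ]
    refine div_le_one_of_le₀ ?_ zero_le'
    calc V.valuation (X : ℂ) * V.valuation ((GG p e π : M) : ℂ)
        ≤ 1 * V.valuation (π : ℂ) ^ (e * k) := mul_le_mul' hX hGv
      _ = _ := one_mul _
  obtain ⟨a, ha, hYa⟩ := hgen (Y : ℂ) Y.2 hvY
  set h : ℂ[X] := ∑ i : Fin N, C ((a i : M₀) : ℂ) * Polynomial.X ^ (i : ℕ) with hh
  have hint : IntP V h := by
    intro m
    rw [hh, Polynomial.finset_sum_coeff]
    refine Valuation.map_sum_le V.valuation fun i _ => ?_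
    rw [Polynomial.coeff_C_mul, Polynomial.coeff_X_pow]
    split_ifs
    · rw [mul_one]; exact ha i
    · rw [mul_zero, map_zero]; exact zero_le'
  have hYM : Y = ∑ i : Fin N, (⟨((a i : M₀) : ℂ), hM₀ (a i).2⟩ : M) * π ^ (i : ℕ) := by
    refine Subtype.ext ?_
    rw [hYa]
    push_cast
    rfl
  have hal : ∀ (l : ℕ) (i : Fin N), (σ ^ l) (⟨((a i : M₀) : ℂ), hM₀ (a i).2⟩ : M) =
      ⟨((a i : M₀) : ℂ), hM₀ (a i).2⟩ := by
    intro l i
    induction l with
    | zero => simp
    | succ n ih =>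
      rw [pow_succ]
      have h1 : σ (⟨((a i : M₀) : ℂ), hM₀ (a i).2⟩ : M) = ⟨((a i : M₀) : ℂ), hM₀ (a i).2⟩ :=
        Subtype.ext (hfix _ _ (a i).2)
      exact (congrArg (σ ^ n) h1).trans ih
  have hYl : ∀ l : ℕ, (((σ ^ l) Y : M) : ℂ) = h.eval ((p l : M) : ℂ) := by
    intro l
    rw [hYM, map_sum, hh, Polynomial.eval_finset_sum]
    push_cast
    refine Finset.sum_congr rfl fun i _ => ?_
    rw [map_mul, map_pow, hal l i, Polynomial.eval_mul, Polynomial.eval_C, Polynomial.eval_pow,
      Polynomial.eval_X]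
    push_cast
    rfl
  have hYl' : ∀ l : ℕ, (σ ^ l) Y = (σ ^ l) X * GG p e (p l) / κ := by
    intro l
    rw [hY, map_div₀, map_mul, hGs l, hκl l]
  have hL := hLAG V e (fun l => ((p l : M) : ℂ)) h
    (fun l _ => by
      show V.valuation (((σ ^ l) π : M) : ℂ) ≤ 1
      rw [hval l]; exact hπ1)
    (fun l hl l' hl' hh' => hinj l hl l' hl' (Subtype.ext hh')) hint
  have hsum : ∑ l ∈ Finset.range e, h.eval ((p l : M) : ℂ) /
      ∏ l' ∈ (Finset.range e).erase l, (((p l : M) : ℂ) - ((p l' : M) : ℂ)) =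
      (∑ l ∈ Finset.range e, (((σ ^ l) X : M) : ℂ)) / (κ : ℂ) := by
    rw [Finset.sum_div]
    refine Finset.sum_congr rfl fun l hl => ?_
    have hl' := Finset.mem_range.1 hl
    have h1 : ∏ l' ∈ (Finset.range e).erase l, (((p l : M) : ℂ) - ((p l' : M) : ℂ)) =
        ((GG p e (p l) : M) : ℂ) := by
      rw [gg_erase p e l hl' hinj]
      push_cast
      rfl
    rw [h1, ← hYl l, hYl' l]
    push_cast
    have := hG0 l hl'
    field_simp
  rw [hsum, map_div₀] at hL
  have hκv : V.valuation (κ : ℂ) ≠ 0 := (Valuation.ne_zero_iff _).2 hκ0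
  rw [← hvκ]
  exact (div_le_one₀ (zero_lt_iff.2 hκv)).1 hL

end

end Pool.Agent.NSER
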