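import Pool.Agent.NS.StER
import Pool.Agent.NS.E_BAS
import Pool.Agent.MUX.Q_YUN
import Pool.Agent.MUX.E_FAC
import Pool.Agent.MUX.E_TRA

/-!
# MUX-NS, block ER, module UNI: a uniformiser of `RF (f a P^(2n+1))` over `RF (f a)`
-/

set_option autoImplicit false

open Polynomial

namespace Pool.Agent.NSER

open _root_.MU3 Pool.Agent.MU3A Pool.Agent.MU3B Pool.Agent.MUX Pool.Agent.MUXU Pool.Agent.MUXE
open Pool.Agent.RI Pool.Agent.NS Pool.Agent.NSRD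
open Pool.Agent.MUXV (GR InK tX)
open Pool.Agent.NSE (E3 su ru WL IntP Rep)

noncomputable section

theorem tf_UNI (h3 : Sf_GRN) (h6 : Sf_TNC) (hTPR : Sf_TPR) (h8 : Sf_UNR) (h9 : Sf_DEG)
    (hRP : Sf_RP1) (hIDL : Sf_IDL) : Sf_UNI := by
  intro A B P V hC hT hG N u e lam hN hgood n f a hf h2f h3f ha h3a z₁ hz₁
  have hR := hC.ring
  obtain ⟨φ, hφ⟩ := hR.hom
  have hmul : ∀ x y : OO A B, emb (x * y) = emb x * emb y := fun x y => by
    rw [← hφ, map_mul, hφ, hφ]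
  have hnat : ∀ k : ℕ, emb ((k : ℕ) : OO A B) = k := fun k => by rw [← hφ, map_natCast]
  have hint0 : ∀ k : ℤ, emb ((k : ℤ) : OO A B) = k := fun k => by rw [← hφ, map_intCast]
  have hv3 := hC.v3
  have hf0 : f ≠ 0 := by omega
  have hfa0 : f * a ≠ 0 := Nat.mul_ne_zero hf0 ha
  have h3fa : ¬ 3 ∣ f * a := fun h => by
    rcases (Nat.Prime.dvd_mul (by norm_num)).1 h with h | h
    · exact h3f h
    · exact h3a h
  obtain ⟨c1, c2, c3, c4, c5⟩ := Pool.Agent.MUXE.te_FAC Pool.Agent.MUXE.te_TRA A B hR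
  obtain ⟨r1, r2, r3, r4, r5, -⟩ := Pool.Agent.MUXE.te_TRA A B hR N hN
  obtain ⟨-, -, i3, -, i5⟩ := hIDL A B P V hC
  obtain ⟨-, -, -, -, -, a6, -⟩ := i5 f n hf0
  obtain ⟨-, -, -, -, a5', -, -⟩ := i5 (f * a) n hfa0
  obtain ⟨ξ, G⟩ := h3 V N u e lam hgood hv3
  have t1 := h6 V N u e lam hgood hv3
  have t2 := hTPR A B P V hC hT hG
  obtain ⟨huM', heM', -⟩ := hRP A B P V hC hG N u e lam hN hgood
  -- multiples of `z₁`
  have hzk : ∀ k : ℤ, (k : ℂ) * z₁ ∈ N.lattice ↔ ((3 ^ (n + 1) * f : ℕ) : ℤ) ∣ k := by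
    intro k
    rw [← hint0, hz₁]
    have h11 : ((k : ℤ) : OO A B) ∈ lvR P f n ↔ ((k.natAbs : ℕ) : OO A B) ∈ lvR P f n := by
      obtain ⟨m, rfl | rfl⟩ := k.eq_nat_or_neg
      · simp
      · rw [Int.cast_neg, neg_mem_iff]; simp
    rw [h11, a6, ← Int.natCast_dvd]
  have hcop : IsCoprime ((3 ^ (n + 1) : ℕ) : ℤ) (f : ℤ) := by
    rw [Nat.isCoprime_iff_coprime]
    exact Nat.Coprime.pow_left _ ((Nat.Prime.coprime_iff_not_dvd (by norm_num)).2 h3f)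
  obtain ⟨α, β, hαβ⟩ := hcop
  push_cast at hαβ
  have h3z : (3 : ℤ) ^ (n + 1) ≠ 0 := pow_ne_zero _ (by norm_num)
  have hfz : (f : ℤ) ≠ 0 := by exact_mod_cast hf0
  have h3one : ¬ (3 : ℤ) ∣ 1 := by norm_num
  obtain ⟨P₀, hP₀⟩ : ∃ z, z = ((α * 3 ^ (n + 1) : ℤ) : ℂ) * z₁ := ⟨_, rfl⟩
  obtain ⟨P₁, hP₁⟩ : ∃ z, z = ((β * f : ℤ) : ℂ) * z₁ := ⟨_, rfl⟩
  have hsum : P₀ + P₁ = z₁ := by
    have h11 : ((α * 3 ^ (n + 1) + β * f : ℤ) : ℂ) = 1 := by rw [hαβ]; simp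
    rw [hP₀, hP₁, ← add_mul, ← Int.cast_add, h11, one_mul]
  have hfP₀ : (f : ℂ) * P₀ ∈ N.lattice := by
    have h11 : (f : ℂ) * P₀ = ((f * (α * 3 ^ (n + 1)) : ℤ) : ℂ) * z₁ := by
      rw [hP₀]; push_cast; ring
    rw [h11, hzk]
    refine ⟨α, ?_⟩
    push_cast; ring
  have h2P₀ : 2 * P₀ ∉ N.lattice := by
    have h11 : 2 * P₀ = ((2 * (α * 3 ^ (n + 1)) : ℤ) : ℂ) * z₁ := by
      rw [hP₀]; push_cast; ring
    rw [h11, hzk]
    intro h12
    have h12' : (f : ℤ) ∣ 2 * α := by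
      obtain ⟨t, ht⟩ := h12
      refine ⟨t, mul_left_cancel₀ h3z ?_⟩
      push_cast at ht
      linear_combination ht
    have h13 : IsCoprime (f : ℤ) α := ⟨β, 3 ^ (n + 1), by linear_combination hαβ⟩
    have h14 := h13.dvd_of_dvd_mul_right h12'
    have h15 := Int.le_of_dvd (by norm_num) h14
    omega
  have hP₀L : P₀ ∉ N.lattice := fun h => h2P₀ (by rw [two_mul]; exact add_mem h h)
  have hP₀E : ¬ InK V N (xu N u e) P₀ := fun h => hP₀L ((t1 f h3f).2 P₀ hfP₀ h)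
  have h2P₀E : ¬ InK V N (xu N u e) (2 * P₀) := fun h => h2P₀ ((t1 f h3f).2 _ (by
    have h11 : (f : ℂ) * (2 * P₀) = f * P₀ + f * P₀ := by ring
    rw [h11]; exact add_mem hfP₀ hfP₀) h)
  have h3β : ¬ (3 : ℤ) ∣ β := fun h => h3one (by
    rw [← hαβ]
    exact dvd_add (Dvd.dvd.mul_left (dvd_pow_self 3 (Nat.succ_ne_zero n)) _)
      (Dvd.dvd.mul_right h _))
  -- `P₁` is of exact order `P^(2n+1)`
  have hTP₁ : Tor (P ^ (2 * n + 1)) N P₁ := by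
    intro x hx
    have h11 : emb x * P₁ = emb (((β : ℤ) : OO A B) * (((f : ℕ) : OO A B) * x)) * z₁ := by
      rw [hmul, hmul, hint0, hnat, hP₁]; push_cast; ring
    rw [h11, hz₁]
    exact Ideal.mul_mem_left _ _ (Ideal.mul_mem_mul (Ideal.mem_span_singleton_self _) hx)
  have hTP₁' : ¬ Tor (P ^ (2 * n)) N P₁ := by
    intro h
    have h11 := h ((3 ^ n : ℕ) : OO A B) (by
      rw [i3]; exact Ideal.mem_span_singleton_self _)
    rw [hnat, hP₁, ← mul_assoc] at h11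
    have h12 : ((3 ^ n : ℕ) : ℂ) * ((β * f : ℤ) : ℂ) = ((3 ^ n * (β * f) : ℤ) : ℂ) := by
      push_cast; ring
    rw [h12, hzk] at h11
    obtain ⟨t, ht⟩ := h11
    apply h3β
    refine ⟨t, mul_left_cancel₀ (mul_ne_zero (pow_ne_zero n (by norm_num : (3 : ℤ) ≠ 0)) hfz) ?_⟩
    push_cast at ht
    rw [pow_succ] at ht
    linear_combination ht
  obtain ⟨hP₁E, hxP₁, hP₁v⟩ := t2 (2 * n) N u e lam hN hgood P₁ hTP₁ hTP₁'
  have hP₁L : P₁ ∉ N.lattice := fun h => hTP₁' (fun x _ => r1 x _ h)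
  obtain ⟨hPE, -⟩ := Pool.Agent.MUXV.near G hP₀E hP₁E hP₁L
  rw [hsum] at hPE
  have hPL : z₁ ∉ N.lattice := fun h => hPE (Or.inl h)
  have h2PE : ¬ InK V N (xu N u e) (2 * z₁) := by
    rw [Pool.Agent.MUXV.inK_congr G (w := 2 * P₀) (by
      have h11 : 2 * z₁ - 2 * P₀ = P₁ + P₁ := by rw [← hsum]; ring
      rw [h11]
      exact Pool.Agent.MUXV.inK_add G hP₁E hP₁E)]
    exact h2P₀E
  have hsub : z₁ - P₀ ∉ N.lattice := by rw [← hsum, add_sub_cancel_left]; exact hP₁L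
  have hadd' : z₁ + P₀ ∉ N.lattice := by
    have h11 : z₁ + P₀ = ((1 + α * 3 ^ (n + 1) : ℤ) : ℂ) * z₁ := by
      rw [hP₀]; push_cast; ring
    rw [h11, hzk]
    intro h12
    apply h3one
    have h13 : (3 : ℤ) ∣ ((3 ^ (n + 1) * f : ℕ) : ℤ) := by
      push_cast
      exact Dvd.dvd.mul_right (dvd_pow_self 3 (Nat.succ_ne_zero n)) _
    have h14 := h13.trans h12
    rwa [Int.dvd_add_left (Dvd.dvd.mul_left (dvd_pow_self 3 (Nat.succ_ne_zero n)) _)] at h14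
  -- the fields
  have hfa2 : idl (A := A) (B := B) (f * a) ≤ idl 2 := by
    rw [Ideal.span_singleton_le_span_singleton]
    obtain ⟨f', hf'⟩ := h2f
    refine ⟨((f' * a : ℕ) : OO A B), ?_⟩
    rw [hf']; push_cast; ring
  have huM : u ^ 2 ∈ RF (idl (A := A) (B := B) (f * a)) := c1 _ _ hfa2 huM'
  have heM : e ∈ RF (idl (A := A) (B := B) (f * a)) := c1 _ _ hfa2 heM'
  have hlv : lvR P (f * a) n ≤ idl (f * a) := Ideal.mul_le_left
  have hle := c1 _ _ hlv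
  have hlvf : lvR P (f * a) n ≤ lvR P f n := by
    refine Ideal.mul_mono_left ?_
    rw [Ideal.span_singleton_le_span_singleton]
    exact ⟨((a : ℕ) : OO A B), by push_cast; ring⟩
  have hP₀M : xn N P₀ ∈ RF (idl (A := A) (B := B) (f * a)) := by
    refine (c2 _ N hN).2 _ ((r5 ((f * a : ℕ) : OO A B) P₀).2 ?_) hP₀L
    have h11 : emb ((f * a : ℕ) : OO A B) * P₀ = emb ((a : ℕ) : OO A B) * (f * P₀) := by
      rw [hnat, hnat]; push_cast; ring
    rw [h11]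
    exact r1 _ _ hfP₀
  have hPM : xn N z₁ ∈ RF (lvR P (f * a) n) :=
    (c2 _ N hN).2 _ (fun x hx => (hz₁ x).2 (hlvf hx)) hPL
  have hxx : ∀ z : ℂ, xu N u e z = (xn N z + ((1 / 12 : ℚ) : ℂ) - e) / u ^ 2 := by
    intro z; unfold xu xn; push_cast; ring
  have hx0M : xu N u e P₀ ∈ RF (idl (A := A) (B := B) (f * a)) := by
    rw [hxx]
    exact div_mem (sub_mem (add_mem hP₀M (SubfieldClass.ratCast_mem _ _)) heM) huM
  have hxPM : xu N u e z₁ ∈ RF (lvR P (f * a) n) := by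
    rw [hxx]
    exact div_mem (sub_mem (add_mem hPM (SubfieldClass.ratCast_mem _ _)) (hle heM)) (hle huM)
  obtain ⟨π, hπ⟩ : ∃ z, z = xu N u e z₁ - xu N u e P₀ := ⟨_, rfl⟩
  have hπM : π ∈ RF (lvR P (f * a) n) := by
    rw [hπ]; exact sub_mem hxPM (hle hx0M)
  have hvπ : V.valuation π ^ (2 * 9 ^ n) = V.valuation (emb (dD A B)) := by
    have h11 := (Pool.Agent.MUXV.tq_YUN V (WL lam) N (xu N u e) (yu N u) ξ G P₀ hP₀E h2P₀E).2 P₁
      hP₁E hP₁L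
    rw [hsum, ← hπ] at h11
    obtain ⟨-, h12, h13⟩ := Pool.Agent.MUXV.v_tX_lt G hP₁E hP₁L
    have h14 : V.valuation (su N u e P₁) = V.valuation (tX (xu N u e) (yu N u) P₁) ^ 2 := by
      unfold su
      rw [map_inv₀]
      exact inv_eq_of_mul_eq_one_right h13
    rw [h14, ← pow_mul] at hP₁v
    have h15 : (V.valuation π ^ (2 * 9 ^ n)) ^ 2 = V.valuation (emb (dD A B)) ^ 2 := by
      rw [hC.vd, ← hP₁v, h11, ← pow_mul]
      congr 1
      rw [pow_mul 3 2 n]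
      norm_num
      ring
    exact (pow_left_inj₀ zero_le zero_le (by norm_num)).1 h15
  have hvp : V.valuation (emb (dD A B)) < 1 := by
    by_contra h
    have h11 : (1 : V.ValueGroup) ≤ V.valuation (emb (dD A B)) ^ 2 := one_le_pow₀ (not_lt.1 h)
    rw [hC.vd] at h11
    exact absurd hv3 (not_lt.2 h11)
  have hp0 : emb (dD A B) ≠ 0 := by
    intro h
    have h11 := hC.vd
    rw [h, map_zero] at h11
    have h12 : V.valuation (3 : ℂ) = 0 := by rw [← h11]; simp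
    exact absurd ((Valuation.zero_iff _).1 h12) (by norm_num)
  have hbot : idl (A := A) (B := B) (f * a) ≠ ⊥ := by
    intro h
    rw [Ideal.span_singleton_eq_bot] at h
    apply hfa0
    have h' := hnat (f * a)
    rw [h, ← hφ, map_zero] at h'
    exact_mod_cast h'.symm
  have := hG.fin _ hbot
  have := hG.fin _ a5'
  refine ⟨P₀, α * 3 ^ (n + 1), hP₀, hfP₀, hP₀L, h2P₀, hsub, hadd', hP₀E, h2P₀E, hPE, h2PE, hx0M,
    hπ ▸ hπM, hπ ▸ hvπ, ?_⟩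
  intro w hw hvw
  rw [← hπ]
  exact Pool.Agent.NSE.te_BAS (kk A B) ℂ V.ValueGroup V.valuation
    (RF (idl (A := A) (B := B) (f * a))) (RF (lvR P (f * a) n))
    (2 * 9 ^ n) (emb (dD A B)) π hle (by positivity) (h9 A B P V hC hG n (f * a) hfa0 h3fa) hp0
    hvp (h8 A B P V hC hT (f * a) hfa0 h3fa) hπM hvπ w hw hvw

end

end Pool.Agent.NSER
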