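import Pool.Agent.NS.StER

/-!
# MUX-NS, block ER, module XCJ: the logarithmic derivative in the ray class field
-/

set_option autoImplicit false

open Polynomial

namespace Pool.Agent.NSER

open _root_.MU3 Pool.Agent.MU3A Pool.Agent.MU3B Pool.Agent.MUX Pool.Agent.MUXU Pool.Agent.MUXE
open Pool.Agent.RI Pool.Agent.NS Pool.Agent.NSRD
open Pool.Agent.MUXV (GR InK tX)
open Pool.Agent.NSE (E3 su ru WL IntP Rep)

noncomputable section

namespace XCJ

/-- `4 y(z) y(P) = (x z - x P)² (x(z - P) - x(z + P))` -/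
theorem yy_mul {L : PeriodPair} {u e lam : ℂ} (hL : Pool.Agent.NSR.Leg L u e lam)
    (hxn : ∀ z, xu L u e (-z) = xu L u e z ∧ yu L u (-z) = -yu L u z) {z P : ℂ}
    (hz : z ∉ L.lattice) (hP : P ∉ L.lattice) (h1 : z + P ∉ L.lattice)
    (h2 : z - P ∉ L.lattice) :
    yu L u z * yu L u P * 4 = (xu L u e z - xu L u e P) ^ 2 *
      (xu L u e (z - P) - xu L u e (z + P)) := by
  obtain ⟨hr, -⟩ := Pool.Agent.NSR.rcht L u e lam hL
  obtain ⟨d, hx, -⟩ := hr z P hz hP h1 h2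
  obtain ⟨-, hx', -⟩ := hr z (-P) hz (fun h => hP (by simpa using neg_mem h))
    (by rwa [← sub_eq_add_neg]) (by rwa [sub_neg_eq_add])
  rw [(hxn P).1, (hxn P).2, ← sub_eq_add_neg] at hx'
  rw [hx, hx']
  field_simp
  ring

end XCJ

open XCJ in
theorem tf_XCJ (hCOE : Sf_COE) (hRP1 : Sf_RP1) : Sf_XCJ := by
  intro A B P V hC hG N u e lam hN hgood n f a hf h2f h3f ha h3a haf H' hH' z P₀ hz hfP₀ hP₀L
    h2P₀ haz hzP hzP'
  have hR := hC.ring
  obtain ⟨φ, hφ⟩ := hR.hom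
  have hmul : ∀ x y : OO A B, emb (x * y) = emb x * emb y := fun x y => by
    rw [← hφ, map_mul, hφ, hφ]
  have hsub : ∀ x y : OO A B, emb (x - y) = emb x - emb y := fun x y => by
    rw [← hφ, map_sub, hφ, hφ]
  have hone : emb (1 : OO A B) = 1 := by rw [← hφ, map_one]
  have hnat : ∀ k : ℕ, emb ((k : ℕ) : OO A B) = k := fun k => by rw [← hφ, map_natCast]
  have hv3 := hC.v3
  have ha0 : (a : ℂ) ≠ 0 := by
    have : a ≠ 0 := by omega
    exact_mod_cast this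
  have hu0 := hgood.u0
  have hL : Pool.Agent.NSR.Leg N u e lam := ⟨hgood.u0, hgood.eq⟩
  obtain ⟨-, -, -, -, -, -, -, -, hper⟩ := hCOE V N u e lam hgood hv3
  have hxn : ∀ w, xu N u e (-w) = xu N u e w ∧ yu N u (-w) = -yu N u w := fun w => (hper w).2
  have hcl : ∀ (x : OO A B) (w : ℂ), w ∈ N.lattice → emb x * w ∈ N.lattice := by
    obtain ⟨b0, om, hNL⟩ := hN
    intro x w hw
    obtain ⟨y, hy, rfl⟩ := (hNL.mem _).1 hw
    exact (hNL.mem _).2 ⟨x * y, Ideal.mul_mem_left _ _ hy, by rw [hmul]; ring⟩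
  have hzL : z ∉ N.lattice := fun h => haz (by
    have := hcl (a : OO A B) z h
    rwa [hnat] at this)
  obtain ⟨hu2M, heM, -⟩ := hRP1 A B P V hC hG N u e lam hN hgood
  -- the ideals
  obtain ⟨m, hm⟩ : ∃ m : Ideal (OO A B), m = lvR P (f * a) n := ⟨_, rfl⟩
  rw [← hm]
  have hmm : m ≤ idl (A := A) (B := B) (f * a) := by
    rw [hm]
    unfold lvR
    exact (Ideal.mul_le_inf (I := idl (A := A) (B := B) (f * a))).trans inf_le_left
  have hmf : m ≤ lvR P f n := by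
    have h0 : idl (A := A) (B := B) (f * a) ≤ idl f := by
      rw [Ideal.span_singleton_le_span_singleton]
      refine ⟨(a : OO A B), ?_⟩
      push_cast; ring
    rw [hm]
    unfold lvR
    exact Ideal.mul_mono_left h0
  have hm2 : idl (A := A) (B := B) (f * a) ≤ idl 2 := by
    obtain ⟨f', rfl⟩ := h2f
    rw [Ideal.span_singleton_le_span_singleton]
    refine ⟨((f' * a : ℕ) : OO A B), ?_⟩
    push_cast; ring
  obtain ⟨c1, c2, -, c4, -⟩ := Pool.Agent.MUXE.te_FAC Pool.Agent.MUXE.te_TRA A B hR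
  have hle := c1 _ _ hmm
  have huM : u ^ 2 ∈ RF (idl (A := A) (B := B) (f * a)) := c1 _ _ hm2 hu2M
  have heM : e ∈ RF (idl (A := A) (B := B) (f * a)) := c1 _ _ hm2 heM
  -- torsion
  have hTadd : ∀ w w' : ℂ, Tor m N w → Tor m N w' → Tor m N (w + w') := by
    intro w w' h h' x hx
    rw [mul_add]
    exact add_mem (h x hx) (h' x hx)
  have hTneg : ∀ w : ℂ, Tor m N w → Tor m N (-w) := by
    intro w h x hx
    rw [mul_neg]
    exact neg_mem (h x hx)
  have hTz : Tor m N z := fun x hx => hz x (hmf hx)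
  have hTP' : Tor (idl (A := A) (B := B) (f * a)) N P₀ := by
    intro x hx
    obtain ⟨y, rfl⟩ := Ideal.mem_span_singleton'.1 hx
    have h1 := hcl (y * (a : OO A B)) _ hfP₀
    have h2 : emb (y * ((f * a : ℕ) : OO A B)) * P₀ = emb (y * (a : OO A B)) * (f * P₀) := by
      rw [hmul, hmul, hnat, hnat]; push_cast; ring
    rw [h2]; exact h1
  have hTq' : ∀ q ∈ H', Tor (idl (A := A) (B := B) (f * a)) N q := by
    intro q hq x hx
    obtain ⟨y, rfl⟩ := Ideal.mem_span_singleton'.1 hx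
    have h1 := hcl (y * (f : OO A B)) _ (hH'.mem q hq)
    have h2 : emb (y * ((f * a : ℕ) : OO A B)) * q = emb (y * (f : OO A B)) * (a * q) := by
      rw [hmul, hmul, hnat, hnat]; push_cast; ring
    rw [h2]; exact h1
  have hTP : Tor m N P₀ := fun x hx => hTP' x (hmm hx)
  have hqL : ∀ q ∈ H', q ∉ N.lattice := fun q hq h => hH'.ne q hq (by
    rw [two_mul]; exact add_mem h h)
  have hxx : ∀ w : ℂ, xu N u e w = (xn N w + ((1 / 12 : ℚ) : ℂ) - e) / u ^ 2 := by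
    intro w; unfold xu xn; push_cast; ring
  have hF' : ∀ w, Tor (idl (A := A) (B := B) (f * a)) N w → w ∉ N.lattice →
      xu N u e w ∈ RF (idl (A := A) (B := B) (f * a)) := by
    intro w h1 h2
    rw [hxx]
    exact div_mem (sub_mem (add_mem ((c2 _ N hN).2 _ h1 h2) (SubfieldClass.ratCast_mem _ _)) heM)
      huM
  have hF : ∀ w, Tor m N w → w ∉ N.lattice → xu N u e w ∈ RF m := by
    intro w h1 h2
    rw [hxx]
    exact div_mem (sub_mem (add_mem ((c2 _ N hN).2 _ h1 h2) (SubfieldClass.ratCast_mem _ _))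
      (hle heM)) (hle huM)
  have hTp : Tor m N (z + P₀) := hTadd _ _ hTz hTP
  have hTm : Tor m N (z - P₀) := by
    rw [sub_eq_add_neg]; exact hTadd _ _ hTz (hTneg _ hTP)
  have hxz := hF z hTz hzL
  have hxP := hF P₀ hTP hP₀L
  have hxp := hF _ hTp hzP'
  have hxm := hF _ hTm hzP
  obtain ⟨g, hg⟩ : ∃ g : ℂ → RF m, ∀ q ∈ H', (g q : ℂ) = xu N u e q := by
    classical
    refine ⟨fun q => if h : xu N u e q ∈ RF m then ⟨xu N u e q, h⟩ else 0, fun q hq => ?_⟩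
    have h : xu N u e q ∈ RF m := hle (hF' q (hTq' q hq) (hqL q hq))
    simp only [dif_pos h]
  have h4 : yu N u z * yu N u P₀ * 4 = (xu N u e z - xu N u e P₀) ^ 2 *
      (xu N u e (z - P₀) - xu N u e (z + P₀)) := yy_mul hL hxn hzL hP₀L hzP' hzP
  obtain ⟨X', hX'⟩ : ∃ X' : RF m, X' = ((⟨xu N u e z, hxz⟩ : RF m) - ⟨xu N u e P₀, hxP⟩) ^ 2 *
      ((⟨xu N u e (z - P₀), hxm⟩ : RF m) - ⟨xu N u e (z + P₀), hxp⟩) *
      (∑ q ∈ H', ((⟨xu N u e z, hxz⟩ : RF m) - g q)⁻¹) * 4⁻¹ := ⟨_, rfl⟩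
  have hXc : (X' : ℂ) = yu N u z * yu N u P₀ * ∑ q ∈ H', (xu N u e z - xu N u e q)⁻¹ := by
    have h41 : (X' : ℂ) = (xu N u e z - xu N u e P₀) ^ 2 *
        (xu N u e (z - P₀) - xu N u e (z + P₀)) *
        (∑ q ∈ H', (xu N u e z - xu N u e q)⁻¹) * 4⁻¹ := by
      rw [hX']
      have h42 : ((∑ q ∈ H', ((⟨xu N u e z, hxz⟩ : RF m) - g q)⁻¹ : RF m) : ℂ) =
          ∑ q ∈ H', (xu N u e z - xu N u e q)⁻¹ := by
        show (RF m).val (∑ q ∈ H', ((⟨xu N u e z, hxz⟩ : RF m) - g q)⁻¹) = _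
        rw [map_sum]
        refine Finset.sum_congr rfl fun q hq => ?_
        rw [← hg q hq]
        rfl
      rw [← h42]
      rfl
    rw [h41, ← h4]
    ring
  have hyP : yu N u P₀ ≠ 0 :=
    ((Pool.Agent.NSR.rcht N u e lam hL).2 P₀ h2P₀).1
  refine ⟨X', X'.2, sub_mem hxz hxP, hyP, hXc, ?_, ?_⟩
  · have h1 := (b_TDL N a H' ha0 (fun w hw => by
      have := hcl (a : OO A B) w hw
      rwa [hnat] at this) hH' z haz).1
    have h2 : dlX N a z = ∑ q ∈ H', N.derivWeierstrassP z /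
        (N.weierstrassP z - N.weierstrassP q) := by
      rw [h1]
      unfold dlX
      rw [Complex.norm_natCast]
      push_cast
      ring
    have h3 : ∀ q, N.derivWeierstrassP z / (N.weierstrassP z - N.weierstrassP q) =
        u * (2 * yu N u z * (xu N u e z - xu N u e q)⁻¹) := by
      intro q
      have h5 : N.weierstrassP z - N.weierstrassP q = u ^ 2 * (xu N u e z - xu N u e q) := by
        unfold xu; field_simp; ring
      have h6 : N.derivWeierstrassP z = 2 * u ^ 3 * yu N u z := by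
        unfold yu; field_simp
      rw [h5, h6, div_eq_mul_inv, mul_inv]
      field_simp
    rw [h2, hXc, Finset.sum_congr rfl fun q _ => h3 q, ← Finset.mul_sum, ← Finset.mul_sum]
    field_simp
  · intro σ c hσ hc hX hπ
    have hfix : ∀ (t : ℂ) (ht : t ∈ RF m), t ∈ RF (idl (A := A) (B := B) (f * a)) →
        (σ ⟨t, ht⟩ : ℂ) = t := by
      intro t ht ht'
      exact c4 _ _ hmm (em σ) _ hσ hc t ht ht'
    have hσx : ∀ w (_ : Tor m N w) (_ : w ∉ N.lattice) (h : xu N u e w ∈ RF m),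
        (σ ⟨xu N u e w, h⟩ : ℂ) = xu N u e (emb c * w) := by
      intro w hw hwL h
      have h0 : xn N w ∈ RF m := (c2 _ N hN).2 _ hw hwL
      have h1 : (σ ⟨xn N w, h0⟩ : ℂ) = xn N (emb c * w) := ((hσ.2 N hN).2 w hw hwL).2 h0
      have h11 : (⟨xu N u e w, h⟩ : RF m) =
          (⟨xn N w, h0⟩ + (((1 / 12 : ℚ)) : RF m) - ⟨e, hle heM⟩) / ⟨u ^ 2, hle huM⟩ := by
        apply Subtype.ext
        show xu N u e w = _
        rw [hxx w]
        rfl
      rw [h11, map_div₀, map_sub, map_add, map_ratCast]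
      show ((σ ⟨xn N w, h0⟩ : ℂ) + ((1 / 12 : ℚ) : ℂ) - (σ ⟨e, hle heM⟩ : ℂ)) /
        (σ ⟨u ^ 2, hle huM⟩ : ℂ) = _
      rw [h1, hfix _ _ heM, hfix _ _ huM, ← hxx]
    have hcP : emb c * P₀ = P₀ + emb (c - 1) * P₀ := by
      rw [hsub, hone]; ring
    have hcPL : emb (c - 1) * P₀ ∈ N.lattice := hTP' _ hc
    have hNz : ∀ w, Tor m N w → w ∉ N.lattice → emb c * w ∉ N.lattice :=
      fun w hw hwL => ((hσ.2 N hN).2 w hw hwL).1
    have hcz := hNz z hTz hzL
    have hczp : emb c * z + P₀ ∉ N.lattice := by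
      intro h
      refine hNz _ hTp hzP' ?_
      have h1 : emb c * (z + P₀) = (emb c * z + P₀) + emb (c - 1) * P₀ := by
        rw [mul_add, hcP]; ring
      rw [h1]
      exact add_mem h hcPL
    have hczm : emb c * z - P₀ ∉ N.lattice := by
      intro h
      refine hNz _ hTm hzP ?_
      have h1 : emb c * (z - P₀) = (emb c * z - P₀) - emb (c - 1) * P₀ := by
        rw [mul_sub, hcP]; ring
      rw [h1]
      exact sub_mem h hcPL
    have hσp : (σ ⟨xu N u e (z + P₀), hxp⟩ : ℂ) = xu N u e (emb c * z + P₀) := by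
      rw [hσx _ hTp hzP']
      have h1 : emb c * (z + P₀) = (emb c * z + P₀) + emb (c - 1) * P₀ := by
        rw [mul_add, hcP]; ring
      rw [h1]
      exact ((hper _).1 _ hcPL).1
    have hσm : (σ ⟨xu N u e (z - P₀), hxm⟩ : ℂ) = xu N u e (emb c * z - P₀) := by
      rw [hσx _ hTm hzP]
      have h1 : emb c * (z - P₀) = (emb c * z - P₀) + -(emb (c - 1) * P₀) := by
        rw [mul_sub, hcP]; ring
      rw [h1]
      exact ((hper _).1 _ (neg_mem hcPL)).1
    have hσz := hσx z hTz hzL hxz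
    have hσP : (σ ⟨xu N u e P₀, hxP⟩ : ℂ) = xu N u e P₀ := hfix _ _ (hF' P₀ hTP' hP₀L)
    have hσg : ∀ q ∈ H', (σ (g q) : ℂ) = xu N u e q := by
      intro q hq
      have h1 : g q = ⟨xu N u e q, hle (hF' q (hTq' q hq) (hqL q hq))⟩ := Subtype.ext (hg q hq)
      rw [h1]
      exact hfix _ _ (hF' q (hTq' q hq) (hqL q hq))
    refine ⟨?_, ?_⟩
    · have h40 : (⟨(X' : ℂ), hX⟩ : RF m) = X' := rfl
      rw [h40, hX', map_mul, map_mul, map_mul, map_pow, map_sub, map_sub, map_sum, map_inv₀,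
        map_ofNat]
      have h42 : ((∑ q ∈ H', σ (((⟨xu N u e z, hxz⟩ : RF m) - g q)⁻¹) : RF m) : ℂ) =
          ∑ q ∈ H', (xu N u e (emb c * z) - xu N u e q)⁻¹ := by
        show (RF m).val (∑ q ∈ H', σ (((⟨xu N u e z, hxz⟩ : RF m) - g q)⁻¹)) = _
        rw [map_sum]
        refine Finset.sum_congr rfl fun q hq => ?_
        rw [map_inv₀, map_sub, ← hσg q hq, ← hσz]
        rfl
      have h41 := yy_mul hL hxn hcz hP₀L hczp hczm
      show ((σ ⟨xu N u e z, hxz⟩ : ℂ) - (σ ⟨xu N u e P₀, hxP⟩ : ℂ)) ^ 2 *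
        ((σ ⟨xu N u e (z - P₀), hxm⟩ : ℂ) - (σ ⟨xu N u e (z + P₀), hxp⟩ : ℂ)) *
        ((∑ q ∈ H', σ (((⟨xu N u e z, hxz⟩ : RF m) - g q)⁻¹) : RF m) : ℂ) * (4 : ℂ)⁻¹ = _
      rw [h42, hσz, hσP, hσp, hσm, ← h41]
      ring
    · have h11 : (⟨xu N u e z - xu N u e P₀, hπ⟩ : RF m) =
          ⟨xu N u e z, hxz⟩ - ⟨xu N u e P₀, hxP⟩ := rfl
      rw [h11, map_sub]
      show (σ ⟨xu N u e z, hxz⟩ : ℂ) - (σ ⟨xu N u e P₀, hxP⟩ : ℂ) = _
      rw [hσz, hσP]

end

end Pool.Agent.NSER
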