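import Pool.Agent.NS.DefsR
import Pool.Agent.NS.RN_ALL
import Pool.Agent.NS.RN_ALR

/-!
# MUX-NS, block RN, ramified case: the final statement of the block
-/

set_option autoImplicit false

namespace Pool.Agent.NSRD

open _root_.MU3 Pool.Agent.MU3A Pool.Agent.MU3B Pool.Agent.RI Pool.Agent.MUX Pool.Agent.NS
open Pool.Agent.NSR

theorem rfinr : Sq_RFIN := by
  intro A B P V hR hP hV hT
  have h3P : ((3 : ℕ) : OO A B) ∈ P := hP.mem
  obtain ⟨⟨N, hN⟩, hal⟩ := tr_ALR A B V P hR.toCQ hR.three hV h3P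
  refine ⟨fun b L om hL => ?_, fun f hf0 hf3 σ hσ hin y hy => ?_⟩
  · obtain ⟨w₁, w₂, w₃, u, ⟨a1, a2⟩, ⟨b1, b2⟩, ⟨c1, c2⟩, hne, hu, hleg, hv⟩ := tr_HPD V L
    have hred := (rred A B V N hN b L om hL.toIsLI _ _ _ hleg hv).1
    have m1 := xn_mem_two hN.cq hL a1 a2
    have m2 := xn_mem_two hN.cq hL b1 b2
    have m3 := xn_mem_two hN.cq hL c1 c2
    refine ⟨u, _, _, ⟨hleg.u0, hleg.eq, ?_⟩, ?_, m1, ?_⟩
    · have h30 : V.valuation (3 : ℂ) ≠ 0 := by
        rw [Valuation.ne_zero_iff]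
        norm_num
      have h1 := mul_le_mul' hred hred
      rw [mul_mul_mul_comm, ← pow_two, ← pow_two, hal] at h1
      exact le_of_mul_le_mul_right h1 (zero_lt_iff.2 h30)
    · rw [hu]
      exact sub_mem m2 m1
    · exact div_mem (sub_mem m3 m1) (sub_mem m2 m1)
  · refine runr' A B V N hN hT f hf0 hf3 σ hσ (fun y hy hyv => ?_) y hy
    rw [← ValuationSubring.mem_nonunits_iff]
    exact hin y hy ((ValuationSubring.valuation_le_one_iff _ _).1 hyv)

end Pool.Agent.NSRD
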