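import Pool.Agent.MUX.UAll
import Pool.Agent.MUX.XFAll
import Pool.Agent.MUX.YAll
import Pool.Agent.MUX.I_IAF
import Pool.Agent.MUX.I_IAG
import Pool.Agent.MUX.I_RPR
import Pool.Agent.MUX.I_HIT
import Pool.Agent.NS.F_ADD
import Pool.Agent.NS.F_ALG
import Pool.Agent.NS.F_BPW
import Pool.Agent.NS.F_COE
import Pool.Agent.NS.F_CTX
import Pool.Agent.NS.F_DEG
import Pool.Agent.NS.F_DIF
import Pool.Agent.NS.F_DIS
import Pool.Agent.NS.F_EXO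
import Pool.Agent.NS.F_FIN
import Pool.Agent.NS.F_GRN
import Pool.Agent.NS.F_IDL
import Pool.Agent.NS.F_INN
import Pool.Agent.NS.F_ISO
import Pool.Agent.NS.F_LAG
import Pool.Agent.NS.F_LEG
import Pool.Agent.NS.F_MAIN
import Pool.Agent.NS.F_MUL
import Pool.Agent.NS.F_NE1
import Pool.Agent.NS.F_ONE
import Pool.Agent.NS.F_ORB
import Pool.Agent.NS.F_PAL
import Pool.Agent.NS.F_PAR
import Pool.Agent.NS.F_PIS
import Pool.Agent.NS.F_PRO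
import Pool.Agent.NS.F_PTS
import Pool.Agent.NS.F_PUL
import Pool.Agent.NS.F_RAT
import Pool.Agent.NS.F_RED
import Pool.Agent.NS.F_RP1
import Pool.Agent.NS.F_RPV
import Pool.Agent.NS.F_SIG
import Pool.Agent.NS.F_STB
import Pool.Agent.NS.F_THN
import Pool.Agent.NS.F_TNC
import Pool.Agent.NS.F_TPR
import Pool.Agent.NS.F_TRV
import Pool.Agent.NS.F_TW3
import Pool.Agent.NS.F_UNI
import Pool.Agent.NS.F_UNR
import Pool.Agent.NS.F_UNT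
import Pool.Agent.NS.F_XCJ
import Pool.Agent.NS.RN_RFINR

/-! # Block ER of the project MUX-NS, assembled (helper86)

`StER.lean` states Lemma E at the ramified prime `3`; the files `F_*.lean` prove the statements.
This file puts them together: `f_X : Sf_X` for every name `X` of block ER, without hypotheses; the
last one, `f_FIN`, derives `Sq_EFIN` from `Sq_RFIN`; `efinr` is `Sq_EFIN`. -/

set_option autoImplicit false

namespace Pool.Agent.NSER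

theorem f_IAF : Pool.Agent.MUXI.Si_IAF := Pool.Agent.MUXI.ti_IAF Pool.Agent.MUXU.u_DET
theorem f_HIT : Pool.Agent.MUXI.Si_HIT :=
  Pool.Agent.MUXI.ti_HIT f_IAF (Pool.Agent.MUXI.ti_IAG f_IAF)
    (Pool.Agent.MUXI.ti_RPR Pool.Agent.MUXF.xf_ALG Pool.Agent.MUXF.xf_IDL Pool.Agent.MUXF.xf_NIM)
    Pool.Agent.MUXY.y_MUI Pool.Agent.MUXY.y_UNJ Pool.Agent.MUXF.xf_ALG

theorem f_ALG : Sf_ALG := tf_ALG
theorem f_COE : Sf_COE := tf_COE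
theorem f_CTX : Sf_CTX := tf_CTX
theorem f_DIS : Sf_DIS := tf_DIS Pool.Agent.MUXU.u_PFI
theorem f_GRN : Sf_GRN := tf_GRN f_COE
theorem f_IDL : Sf_IDL := tf_IDL
theorem f_LAG : Sf_LAG := tf_LAG
theorem f_LEG : Sf_LEG := tf_LEG
theorem f_MUL : Sf_MUL := tf_MUL
theorem f_ORB : Sf_ORB := tf_ORB
theorem f_PRO : Sf_PRO := tf_PRO f_ALG
theorem f_PUL : Sf_PUL := tf_PUL f_ALG f_PRO
theorem f_RP1 : Sf_RP1 := tf_RP1 f_LEG
theorem f_TNC : Sf_TNC := tf_TNC f_GRN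
theorem f_TRV : Sf_TRV := tf_TRV f_LAG
theorem f_TW3 : Sf_TW3 := tf_TW3 f_COE
theorem f_UNR : Sf_UNR := tf_UNR
theorem f_UNT : Sf_UNT := tf_UNT f_GRN f_TNC
theorem f_XCJ : Sf_XCJ := tf_XCJ f_COE f_RP1
theorem f_BPW : Sf_BPW := tf_BPW f_IDL
theorem f_DEG : Sf_DEG := tf_DEG f_IDL
theorem f_EXO : Sf_EXO := tf_EXO f_IDL
theorem f_NE1 : Sf_NE1 := tf_NE1 f_TNC f_GRN
theorem f_PTS : Sf_PTS := tf_PTS f_COE f_TW3
theorem f_RAT : Sf_RAT := tf_RAT f_COE f_TNC f_UNT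
theorem f_RPV : Sf_RPV := tf_RPV f_COE f_TW3 f_UNR f_RP1
theorem f_STB : Sf_STB := tf_STB f_HIT f_IAF f_BPW
theorem f_ADD : Sf_ADD := tf_ADD f_ALG f_COE f_GRN f_TW3 f_PTS
theorem f_ISO : Sf_ISO := tf_ISO f_ALG f_PRO f_PTS f_TW3 f_UNT f_RAT
theorem f_PIS : Sf_PIS := tf_PIS f_GRN f_TNC f_RPV Pool.Agent.MUXU.u_BAC Pool.Agent.MUXU.u_PFI
theorem f_THN : Sf_THN := tf_THN f_ALG f_PRO f_PUL f_GRN f_ISO f_ADD f_PTS
theorem f_TPR : Sf_TPR :=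
  tf_TPR f_GRN f_TNC f_RPV f_PIS Pool.Agent.MUXU.u_BAC Pool.Agent.MUXU.u_PFI
theorem f_UNI : Sf_UNI := tf_UNI f_GRN f_TNC f_TPR f_UNR f_DEG f_RP1 f_IDL
theorem f_DIF : Sf_DIF := tf_DIF f_GRN f_TNC f_TPR f_IDL f_BPW
theorem f_INN : Sf_INN := tf_INN f_THN f_NE1 f_EXO f_MUL f_PIS f_DIS f_UNR f_RP1
theorem f_PAR : Sf_PAR := tf_PAR f_COE f_GRN f_NE1 f_TPR f_UNI f_TRV f_BPW f_DIF f_XCJ f_IDL
theorem f_SIG : Sf_SIG := tf_SIG f_ALG f_PRO f_PTS f_ADD f_UNI f_RP1 f_IDL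
theorem f_ONE : Sf_ONE :=
  tf_ONE f_ALG f_PRO f_PTS f_THN f_SIG f_NE1 f_MUL f_EXO f_IDL f_DIS f_PIS f_INN
theorem f_PAL : Sf_PAL := tf_PAL f_PAR f_PIS f_DIS f_EXO f_UNT f_MUL f_BPW f_IDL
theorem f_MAIN : Sf_MAIN := tf_MAIN f_ONE
theorem f_RED : Sf_RED := tf_RED f_MAIN f_PAL f_INN f_ORB f_STB f_BPW f_EXO f_IDL
theorem f_FIN : Sf_FIN := tf_FIN f_CTX f_RED

/-- the function `E` of the ramified case -/
theorem efinr : Pool.Agent.NSRD.Sq_EFIN := f_FIN Pool.Agent.NSRD.rfinr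

end Pool.Agent.NSER
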