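import Pool.Agent.NS.StGR

/-!
# MUX-NS, block GR, module PHR (helper50): the function `φ` modulo `D' = |D|/3`
-/

set_option autoImplicit false

namespace Pool.Agent.NSGR

open _root_.MU3 Pool.Agent.MU3A Pool.Agent.MU3B Pool.Agent.MU3Q Pool.Agent.MUX Pool.Agent.NS
  Pool.Agent.NSRD Pool.Agent.NSG Pool.Agent.MUXN Pool.Agent.MuSym OnePoint UpperHalfPlane
open Pool.Agent.MUXF (qb)
open scoped MatrixGroups

noncomputable section

namespace PHR

private theorem per_mul {φ : ℤ → ℂ} {d : ℤ} (h : ∀ n, φ (n + d) = φ n) :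
    ∀ (k n : ℤ), φ (n + d * k) = φ n := by
  intro k
  induction k using Int.induction_on with
  | zero => intro n; simp
  | succ i ih =>
    intro n
    have := h (n + d * i)
    rw [ih n] at this
    rw [← this]
    congr 1
    ring
  | pred i ih =>
    intro n
    have := h (n + d * (-i - 1))
    rw [← this]
    have h2 := ih n
    rw [← h2]
    congr 1
    ring

private theorem nine {A B : ℤ} (h : CQ A B) : ¬ (9 : ℤ) ∣ B ^ 2 + 4 * A := by
  have hu : ¬ IsUnit (3 : ℤ) := by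
    intro hu
    rcases Int.isUnit_iff.1 hu with h | h <;> omega
  intro hd
  rcases h.hB with hB | hB
  · have hs := (h.fund0 hB).1
    subst hB
    apply hu
    apply hs 3
    obtain ⟨c, hc⟩ := hd
    refine ⟨A - 2 * c, ?_⟩
    omega
  · have hs := h.fund1 hB
    subst hB
    apply hu
    apply hs 3
    obtain ⟨c, hc⟩ := hd
    exact ⟨c, by omega⟩

end PHR

open PHR in
theorem tv_PHR (h1 : MUXF.Sx_PHX) : Sv_PHR := by
  intro A B hc
  obtain ⟨φ, v01, hper, hval⟩ := h1 A B (Pool.Agent.MUXY.cqF hc.toCQ)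
  obtain ⟨c, hc3⟩ := hc.three
  have hneg := hc.neg
  have h9 := nine hc.toCQ
  have hcneg : c < 0 := by omega
  have habs : (3 * ((-c).toNat : ℕ) : ℤ) = absD A B := by
    rw [Int.toNat_of_nonneg (by omega)]
    unfold absD
    omega
  have hD : (((-c).toNat : ℕ) : ℤ) = -c := Int.toNat_of_nonneg (by omega)
  set D : ℕ := (-c).toNat with hDdef
  have h3D : ¬ (3 : ℤ) ∣ (D : ℤ) := by
    intro hd
    rw [hD] at hd
    apply h9
    obtain ⟨d, hd⟩ := hd
    exact ⟨-d, by omega⟩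
  have hsq : (3 : ℤ) ∣ (D : ℤ) ^ 2 - 1 := by
    have hm : (D : ℤ) % 3 = 1 ∨ (D : ℤ) % 3 = 2 := by omega
    rcases hm with hm | hm
    · obtain ⟨k, hk⟩ : ∃ k : ℤ, (D : ℤ) = 3 * k + 1 := ⟨(D : ℤ) / 3, by omega⟩
      rw [hk]
      exact ⟨3 * k ^ 2 + 2 * k, by ring⟩
    · obtain ⟨k, hk⟩ : ∃ k : ℤ, (D : ℤ) = 3 * k + 2 := ⟨(D : ℤ) / 3, by omega⟩
      rw [hk]
      exact ⟨3 * k ^ 2 + 4 * k + 1, by ring⟩
  have hpm : ∀ k n : ℤ, φ (n + 3 * (D : ℤ) * k) = φ n := by
    intro k n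
    rw [habs]
    exact per_mul hper k n
  refine ⟨D, fun n => φ (n + (D : ℤ) ^ 2 * (1 - n)), habs, ?_, ?_, ?_, ?_, ?_⟩
  · intro hd
    exact h3D (by exact_mod_cast hd)
  · intro h0
    apply h3D
    rw [h0]
    simp
  · intro n
    exact v01 _
  · intro n
    obtain ⟨k, hk⟩ := hsq
    have := hpm (-k) (n + (D : ℤ) ^ 2 * (1 - n))
    show φ (n + (D : ℤ) + (D : ℤ) ^ 2 * (1 - (n + (D : ℤ)))) = φ (n + (D : ℤ) ^ 2 * (1 - n))
    rw [← this]
    congr 1
    linear_combination (-(D : ℤ)) * hk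
  · intro b g e hb he hg x hx hex
    obtain ⟨v1, v2⟩ := hval b g e hb (Pool.Agent.MUXY.eiF he) hg x hx hex
    constructor
    · rintro ⟨k, hk⟩
      show φ (qb b x + (D : ℤ) ^ 2 * (1 - qb b x)) = 1
      have := hpm (-((D : ℤ) * k)) (qb b x)
      rw [v1] at this
      rw [← this]
      congr 1
      linear_combination (-(D : ℤ) ^ 2) * hk
    · rintro ⟨k, hk⟩
      show φ (-qb b x + (D : ℤ) ^ 2 * (1 - -qb b x)) = 0
      have := hpm ((D : ℤ) * k) (-qb b x)
      rw [v2] at this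
      rw [← this]
      congr 1
      linear_combination ((D : ℤ) ^ 2) * hk

end

end Pool.Agent.NSGR
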