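import Pool.Agent.NS.G_Trl
import Pool.Agent.NS.G_Qxn
import Pool.Agent.MUX.N_GDT

/-!
# NS, block GN (helper6): the data for Theorem G, for the translates of the symbols
-/

set_option autoImplicit false

namespace Pool.Agent.NSG

open _root_.MU3 Pool.Agent.MU3A Pool.Agent.MU3B Pool.Agent.MU3Q Pool.Agent.MUX Pool.Agent.MuSym
  Pool.Agent.MUXN Pool.Agent.NS OnePoint UpperHalfPlane

noncomputable section

/-- the conjugates of `e` -/
abbrev EC {A B : ℤ} (e : OO A B → ℂ) : Set (OO A B → ℂ) :=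
  {e' | ∃ σ : ℂ ≃+* ℂ, e' = fun x => σ (e x)}

variable {A B : ℤ} {n : ℕ} {ι : Type}

/-- the symbols -/
def PsT (R : Reps A B n ι) (e : OO A B → ℂ) (j : ι × EC e × Fin 27) (x y : OnePoint ℚ) : ℂ :=
  PhiI (R.b j.1) j.2.1 (mob 27 (j.2.2 : ℕ) 0 27 x) (mob 27 (j.2.2 : ℕ) 0 27 y)

/-- their primitives -/
def ThT (R : Reps A B n ι) (e : OO A B → ℂ) (j : ι × EC e × Fin 27) (τ : ℂ) : ℂ :=
  thetaIntI (R.b j.1) j.2.1 (τ + ((j.2.2 : ℕ) : ℤ) / 27)

/-- `ζ_27` -/
def z27 : ℂ := Complex.exp (2 * Real.pi * Complex.I / 27)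

/-- the first coefficients -/
def a1T (R : Reps A B n ι) (e : OO A B → ℂ) (j : ι × EC e × Fin 27) : ℂ :=
  open Classical in if j.1 = R.i0 then z27 ^ (j.2.2 : ℕ) else 0

theorem z27_pow : z27 ^ 27 = 1 := by
  unfold z27
  rw [← Complex.exp_nat_mul]
  have : ((27 : ℕ) : ℂ) * (2 * Real.pi * Complex.I / 27) = 2 * Real.pi * Complex.I := by
    push_cast
    ring
  rw [this, Complex.exp_two_pi_mul_I]

theorem z27_int : IsIntegral ℤ z27 :=
  IsIntegral.of_pow (n := 27) (by norm_num) (by rw [z27_pow]; exact isIntegral_one)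

open MUXY in
/-- the data for Theorem G, for `g = (n)` -/
theorem gdat (h2 : MUXT.Xs_FTI) (h3 : MUXF.Sx_CHI) (h4 : Sy_CON) (h5 : Sy_ALP)
    (h7 : Sy_FEC) (h8 : Sy_COP) (hA : MUXF.Sx_ALG) (hI : MUXF.Sx_IDL) (hQB : MUXF.Sx_QB)
    (hBD : MUXF.Sx_BDD) (hTS : MUXF.Sx_TSM) (hQ : MUX.CQ A B)
    (u1 : ∀ x : OO A B, nm x = 1 → x = 1 ∨ x = -1)
    (u2 : ∀ (b : Ideal (OO A B)) (_ : b ≠ ⊥) (x : OO A B), x ∈ b → nm x = MUX.nI b → b = MUX.sp x)
    (hT : TorX A B) [hι : Finite ι] (hn : 2 ≤ n) (R : Reps A B n ι) (e : OO A B → ℂ)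
    (he : IsEI (idl n) e) (r : ℕ) (hr : r ≠ 0) (her : ∀ x, e x ≠ 0 → e x ^ r = 1) (u : ℂ)
    (hu : u ≠ 0) (hua : IsAlgebraic ℚ u) (N' : ℕ) (hN : N' ≠ 0)
    (hNd : absD A B * (n : ℤ) ^ 2 ∣ (N' : ℤ)) :
    GDatN A B (ι × EC e × Fin 27) (PsT R e) (ThT R e) (a1T R e) (u * R.om R.i0) (729 * N') := by
  classical
  have hn0 : n ≠ 0 := by omega
  set g : Ideal (OO A B) := idl n with hg
  have hpf : ((n : ℕ) : OO A B) ∈ g := Ideal.mem_span_singleton_self _
  have hgb : g ≠ ⊥ := by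
    intro h
    rw [h, Ideal.mem_bot] at hpf
    exact Gdt.nat_ne _ hn0 hpf
  have hgt : g ≠ ⊤ := by
    intro h
    rw [Ideal.eq_top_iff_one, hg, Ideal.mem_span_singleton] at h
    obtain ⟨y, hy⟩ := h
    have h1 := congrArg QuadraticAlgebra.re hy
    rw [QuadraticAlgebra.re_one, QuadraticAlgebra.re_mul, QuadraticAlgebra.re_natCast,
      QuadraticAlgebra.im_natCast, mul_zero, zero_mul, add_zero] at h1
    have h9 : (n : ℤ) ∣ 1 := ⟨y.re, h1⟩
    have h10 : (n : ℤ) ≤ 1 := Int.le_of_dvd one_pos h9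
    omega
  have hcop : ∀ i, IsCoprime (MUX.sp ((MUX.nI (R.b i) : ℕ) : OO A B)) g :=
    h8 A B n ι R g 1 (by rw [pow_one]; exact hpf)
  have hEI : ∀ e' ∈ EC e, IsEI g e' := by
    rintro e' ⟨σ, rfl⟩
    exact Gdt.ei_conj he σ
  have hEr : ∀ e' ∈ EC e, ∀ x, e' x ≠ 0 → e' x ^ r = 1 := by
    rintro e' ⟨σ, rfl⟩ x hx
    show σ (e x) ^ r = 1
    have hx' : e x ≠ 0 := by
      intro h0
      apply hx
      show σ (e x) = 0
      rw [h0, map_zero]
    rw [← map_pow, her x hx', map_one]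
  have hEG : ∀ e' ∈ EC e, ∀ x y : OO A B, ((n : ℕ) : OO A B) ∣ x - y → e' x = e' y := by
    rintro e' he' x y ⟨z, hz⟩
    apply (hEI e' he').per
    rw [hz]
    exact Ideal.mul_mem_right _ _ hpf
  have hb : ∀ i, R.b i ≠ ⊥ := fun i => (R.nl i).b_ne
  have hNd' : -(B ^ 2 + 4 * A) * ((n : ℕ) : ℤ) ^ 2 ∣ (N' : ℤ) := by
    have : -(B ^ 2 + 4 * A) * ((n : ℕ) : ℤ) ^ 2 = absD A B * n ^ 2 := by
      unfold absD
      push_cast
      ring
    rw [this]
    exact hNd
  have hF : ∀ e' ∈ EC e, ∀ i, _ := fun e' he' i =>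
    (h2 A B hQ.hB hQ.neg (R.b i) (hb i) e' n (Nat.pos_of_ne_zero hn0)
      (hEI e' he').mul (hEG e' he') (hEI e' he').neg).2 N' hN hNd'
  have hDN : absD A B ∣ (N' : ℤ) := dvd_trans (Dvd.intro _ rfl) hNd
  have hGN : ((n : ℕ) : ℤ) ∣ (N' : ℤ) := by
    refine dvd_trans ?_ hNd
    exact ⟨absD A B * n, by push_cast; ring⟩
  have hnu : ∀ e' ∈ EC e, ∀ d : ℤ, (N' : ℤ) ∣ d - 1 →
      (MUXT.chiQ A B d : ℂ) * e' (d : OO A B) = 1 := by
    intro e' he' d hd
    have h10 : MUXF.chiQ A B d = 1 := by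
      have := (h3 A B (cqF hQ) 1 isCoprime_one_left).2.2 d (by
        rw [← dvd_neg, neg_sub]
        exact dvd_trans hDN hd)
      rw [this, Gdt.chiQ_one]
    have h11 : e' (d : OO A B) = 1 := by
      rw [← (hEI e' he').one]
      apply (hEI e' he').per
      obtain ⟨t, ht⟩ := dvd_trans hGN hd
      have h12 : (d : OO A B) - 1 = ((n : ℕ) : OO A B) * (t : OO A B) := by
        have := congrArg (fun z : ℤ => (z : OO A B)) ht
        push_cast at this
        push_cast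
        exact this
      rw [h12]
      exact Ideal.mul_mem_right _ _ hpf
    have h13 : MUXT.chiQ A B d = 1 := h10
    rw [h13, h11]
    norm_num
  have hS : ∀ (i : ι) (e' : OO A B → ℂ), e' ∈ EC e →
      SymN N' (PhiI (R.b i) e') (thetaIntI (R.b i) e') := by
    intro i e' he'
    refine
      { pos := Nat.pos_of_ne_zero hN
        add := ?_
        inv := ?_
        per := ?_
        cusp := ?_ }
    · intro x y z
      unfold PhiI
      ring
    · intro a b c d hdet hc hd x y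
      have := (hF e' he' i).1.equiv a b c d hdet hc x y
      rw [hnu e' he' d hd, one_mul] at this
      exact this
    · intro a b c d hdet hc hd τ hτ
      have := ((hF e' he' i).2.1 a b c d hdet hc τ hτ).2
      rw [hnu e' he' d hd, one_mul] at this
      exact this
    · intro a b c d hdet
      obtain ⟨w, hw⟩ := (hF e' he' i).2.2 a b c d hdet
      exact ⟨_, w, hw⟩
  have hST : ∀ j : ι × EC e × Fin 27, SymN (729 * N') (PsT R e j) (ThT R e j) := fun j =>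
    Trl.tr (hS j.1 j.2.1 j.2.1.2) ((j.2.2 : ℕ) : ℤ)
  refine
    { pos := Nat.mul_pos (by norm_num) (Nat.pos_of_ne_zero hN)
      add := fun j => (hST j).add
      inv := fun j => (hST j).inv
      per := fun j => (hST j).per
      cusp := fun j => (hST j).cusp
      qexp := ?_
      rat := ?_
      alg := ?_ }
  · rintro ⟨i, ⟨e', he'⟩, t⟩
    obtain ⟨α, hα1, ⟨K, hK1, hK2⟩, hα3, hα4, hα5⟩ :=
      qx hA hI hQB hBD hTS A B hQ u1 u2 n ι R g hgb e' (hEI e' he') r hr (hEr e' he') i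
    refine ⟨fun m => α m * z27 ^ ((t : ℕ) * m), ?_, ?_, ?_, ?_⟩
    · intro m
      exact (hα1 m).mul (z27_int.pow _)
    · set K1 : IntermediateField ℚ ℂ := K.toIntermediateField fun x => by
        have : (algebraMap ℚ ℂ x) = (x : ℂ) := rfl
        rw [this]
        exact SubfieldClass.ratCast_mem K x
      set K2 : IntermediateField ℚ ℂ := IntermediateField.adjoin ℚ {z27}
      have hf1 : FiniteDimensional ℚ K1 := hK1.to_finiteDimensional
      have hf2 : FiniteDimensional ℚ K2 :=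
        IntermediateField.adjoin.finiteDimensional z27_int.tower_top
      have hf3 : FiniteDimensional ℚ ↥(K1 ⊔ K2) := IntermediateField.finiteDimensional_sup K1 K2
      refine ⟨(K1 ⊔ K2).toSubfield, ?_, fun m => ?_⟩
      · have h4 : NumberField ↥(K1 ⊔ K2) := ⟨⟩
        exact h4
      · show α m * z27 ^ ((t : ℕ) * m) ∈ K1 ⊔ K2
        have m1 : α m ∈ K1 ⊔ K2 := (le_sup_left : K1 ≤ K1 ⊔ K2) (hK2 m)
        have m2 : z27 ∈ K1 ⊔ K2 := (le_sup_right : K2 ≤ K1 ⊔ K2)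
          (IntermediateField.mem_adjoin_simple_self ℚ z27)
        exact mul_mem m1 (pow_mem m2 _)
    · show α 1 * z27 ^ ((t : ℕ) * 1) = if i = R.i0 then z27 ^ (t : ℕ) else 0
      rw [mul_one]
      split_ifs with hi
      · rw [hα3 hi, one_mul]
      · rw [hα4 hi, zero_mul]
    · intro τ hτ
      have him : 0 < (τ + (((t : ℕ) : ℤ) : ℂ) / 27).im := by
        have : ((((t : ℕ) : ℤ) : ℂ) / 27).im = 0 := by
          have : ((((t : ℕ) : ℤ) : ℂ) / 27) = (((t : ℕ) / 27 : ℝ) : ℂ) := by push_cast; ring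
          rw [this]
          exact Complex.ofReal_im _
        rw [Complex.add_im, this, add_zero]
        exact hτ
      have h9 := hα5 _ him
      show HasSum _ (thetaIntI (R.b i) e' (τ + (((t : ℕ) : ℤ) : ℂ) / 27))
      have e1 : (fun m : ℕ => α m / m * Complex.exp (2 * Real.pi * Complex.I *
          (τ + (((t : ℕ) : ℤ) : ℂ) / 27)) ^ m) = fun m : ℕ => α m * z27 ^ ((t : ℕ) * m) / m *
          Complex.exp (2 * Real.pi * Complex.I * τ) ^ m := by
        funext m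
        have e2 : Complex.exp (2 * Real.pi * Complex.I * (τ + (((t : ℕ) : ℤ) : ℂ) / 27)) =
            z27 ^ (t : ℕ) * Complex.exp (2 * Real.pi * Complex.I * τ) := by
          unfold z27
          rw [← Complex.exp_nat_mul, ← Complex.exp_add]
          congr 1
          push_cast
          ring
        rw [e2, mul_pow, ← pow_mul]
        ring
      rw [e1] at h9
      exact h9
  · intro σ hσ
    rintro ⟨i, ⟨e', he'⟩, t⟩
    obtain ⟨-, j, C, -, hC0, hC⟩ := h4 A B hQ hT n ι R g e' hgb hgt (hEI e' he') hcop σ hσ i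
    obtain ⟨τ, hτ⟩ := he'
    subst hτ
    refine ⟨⟨j, ⟨fun x => σ (τ (e x)), ⟨τ.trans σ, rfl⟩⟩, t⟩, C * u / σ u, fun x y => ?_⟩
    have hσu : σ u ≠ 0 := (map_ne_zero σ).2 hu
    have ho : R.om R.i0 ≠ 0 := (R.nl R.i0).om_ne
    have e1 : PsT R e (i, ⟨fun x => τ (e x), ⟨τ, rfl⟩⟩, t) x y / (u * R.om R.i0) =
        PhiI (R.b i) (fun x => τ (e x)) (mob 27 (t : ℕ) 0 27 x) (mob 27 (t : ℕ) 0 27 y) /
          R.om R.i0 / u := by
      unfold PsT
      rw [div_div, mul_comm u]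
    rw [e1, map_div₀, hC]
    unfold PsT
    field_simp
  · rintro ⟨i, ⟨e', he'⟩, t⟩ x y
    have h9 := (h5 A B hQ hT n ι hι R g e' hgb hgt (hEI e' he') hcop r hr (hEr e' he') i
      (mob 27 (t : ℕ) 0 27 x) (mob 27 (t : ℕ) 0 27 y)).2
    have e1 : PsT R e (i, ⟨e', he'⟩, t) x y / (u * R.om R.i0) =
        PhiI (R.b i) e' (mob 27 (t : ℕ) 0 27 x) (mob 27 (t : ℕ) 0 27 y) / R.om R.i0 * u⁻¹ := by
      unfold PsT
      have ho : R.om R.i0 ≠ 0 := (R.nl R.i0).om_ne
      field_simp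
    rw [e1]
    exact h9.mul hua.inv

end

end Pool.Agent.NSG
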