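import Pool.Agent.NS.StGN
import Pool.Agent.MUX.HN_H1N

/-!
# NS, block GN (helper6): translates by `t / 27` of a symbol and of its primitive
-/

set_option autoImplicit false

namespace Pool.Agent.NSG

open _root_.MU3 Pool.Agent.MuSym OnePoint

noncomputable section

/-- a symbol `Φ` of level `Γ₁(N)` with primitive `ϑ` -/
structure SymN (N : ℕ) (Φ : OnePoint ℚ → OnePoint ℚ → ℂ) (ϑ : ℂ → ℂ) : Prop where
  pos : 0 < N
  add : ∀ x y z : OnePoint ℚ, Φ x y + Φ y z = Φ x z
  inv : ∀ a b c d : ℤ, a * d - b * c = 1 → (N : ℤ) ∣ c → (N : ℤ) ∣ d - 1 →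
    ∀ x y : OnePoint ℚ, Φ (mob a b c d x) (mob a b c d y) = Φ x y
  per : ∀ a b c d : ℤ, a * d - b * c = 1 → (N : ℤ) ∣ c → (N : ℤ) ∣ d - 1 →
    ∀ τ : ℂ, 0 < τ.im → ϑ ((a * τ + b) / (c * τ + d)) = ϑ τ + Φ ∞ (mob a b c d ∞)
  cusp : ∀ a b c d : ℤ, a * d - b * c = 1 → ∃ (C : ℂ) (w : ℕ → ℂ), ∀ τ : ℂ,
    0 < τ.im → HasSum (fun n : ℕ => w n *
      Complex.exp (2 * Real.pi * Complex.I * τ / N) ^ (n + 1))
      (ϑ ((a * τ + b) / (c * τ + d)) - C)

namespace Trl

theorem mob_inf (D a : ℤ) : mob D a 0 D ∞ = ∞ := MUXH.H1.mob_inf D a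

theorem mob_tr (t : ℤ) (r : ℚ) :
    mob 27 t 0 27 (r : OnePoint ℚ) = ((r + (t : ℚ) / 27 : ℚ) : OnePoint ℚ) := by
  have := Pool.Agent.MUXHN.H1N.mob_tr 27 t (by norm_num) r
  exact_mod_cast this

/-- conjugation by the translation -/
theorem conj (t a b c d c1 d1 : ℤ) (h : a * d - b * c = 1) (hc : c = 729 * c1)
    (hd : d = 1 + 729 * d1) : ∃ a' b' d' : ℤ, a' * d' - b' * c = 1 ∧ d' = d - 27 * t * c1 ∧
      (∀ x, mob 27 t 0 27 (mob a b c d x) = mob a' b' c d' (mob 27 t 0 27 x)) ∧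
      ∀ τ : ℂ, (c : ℂ) * τ + d ≠ 0 → ((a : ℂ) * τ + b) / (c * τ + d) + t / 27 =
        ((a' : ℂ) * (τ + t / 27) + b') / (c * (τ + t / 27) + d') := by
  obtain ⟨a1, ha1⟩ : ∃ a1 : ℤ, a1 = b * c1 - a * d1 := ⟨_, rfl⟩
  have ha : a = 1 + 729 * a1 := by
    rw [ha1]
    have : a = 1 + b * c - a * (d - 1) := by linarith
    rw [hc, hd] at this
    linarith
  have hda : d - a = 729 * (d1 - a1) := by rw [hd, ha]; ring
  refine ⟨a + 27 * t * c1, b + 27 * t * (d1 - a1) - t ^ 2 * c1, d - 27 * t * c1, ?_, rfl, ?_, ?_⟩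
  · have e1 : a * d - b * (729 * c1) = 1 := by rw [← hc]; exact h
    rw [hc]
    linear_combination e1 + 27 * t * c1 * hda
  · have hdaq : (d : ℚ) - a = 729 * (d1 - a1) := by exact_mod_cast hda
    intro x
    induction x using OnePoint.rec with
    | infty =>
      rw [mob_inf]
      by_cases hc0 : c = 0
      · have hc10 : c1 = 0 := by omega
        rw [hc0, hc10]
        simp [mob]
      · have hcq : (c : ℚ) ≠ 0 := by exact_mod_cast hc0
        have e1 : mob a b c d ∞ = ((a / c : ℚ) : OnePoint ℚ) := by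
          simp only [mob, OnePoint.elim_infty, if_neg hc0]
        rw [e1, mob_tr]
        simp only [mob, OnePoint.elim_infty, if_neg hc0]
        congr 1
        push_cast
        have : (c : ℚ) = 729 * c1 := by exact_mod_cast hc
        field_simp
        rw [this]
        ring
    | coe r =>
      rw [mob_tr]
      have hcq : (c : ℚ) = 729 * c1 := by exact_mod_cast hc
      have e1 : (c : ℚ) * (r + t / 27) + ((d - 27 * t * c1 : ℤ) : ℚ) = c * r + d := by
        push_cast
        rw [hcq]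
        ring
      by_cases hz : (c : ℚ) * r + d = 0
      · have hz' : (c : ℚ) * (r + t / 27) + ((d - 27 * t * c1 : ℤ) : ℚ) = 0 := by rw [e1, hz]
        have e2 : mob a b c d (r : OnePoint ℚ) = ∞ := by
          simp only [mob, OnePoint.elim_some, if_pos hz]
        rw [e2, mob_inf]
        simp only [mob, OnePoint.elim_some, if_pos hz']
      · have hz' : (c : ℚ) * (r + t / 27) + ((d - 27 * t * c1 : ℤ) : ℚ) ≠ 0 := by rw [e1]; exact hz
        have e2 : mob a b c d (r : OnePoint ℚ) = (((a * r + b) / (c * r + d) : ℚ) : OnePoint ℚ) := by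
          simp only [mob, OnePoint.elim_some, if_neg hz]
        rw [e2, mob_tr]
        simp only [mob, OnePoint.elim_some, if_neg hz']
        congr 1
        rw [e1, ← mul_left_inj' hz, add_mul, div_mul_cancel₀ _ hz, div_mul_cancel₀ _ hz]
        push_cast
        rw [hcq]
        linear_combination (t : ℚ) / 27 * hdaq
  · intro τ hz
    have hcq : (c : ℂ) = 729 * c1 := by exact_mod_cast hc
    have hdaq : (d : ℂ) - a = 729 * (d1 - a1) := by exact_mod_cast hda
    have e1 : (c : ℂ) * (τ + t / 27) + ((d - 27 * t * c1 : ℤ) : ℂ) = c * τ + d := by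
      push_cast
      rw [hcq]
      ring
    rw [e1, ← mul_left_inj' hz, add_mul, div_mul_cancel₀ _ hz, div_mul_cancel₀ _ hz]
    push_cast
    rw [hcq]
    linear_combination (t : ℂ) / 27 * hdaq

/-- Hermite normal form of `(27, t; 0, 27) γ` -/
theorem herm (t a b c d : ℤ) (h : a * d - b * c = 1) :
    ∃ p q r s A' B' D' : ℤ, p * s - q * r = 1 ∧ 0 < A' ∧ 0 < D' ∧ A' * D' = 729 ∧
      ∀ τ : ℂ, (c : ℂ) * τ + d ≠ 0 → (r : ℂ) * ((A' * τ + B') / D') + s ≠ 0 ∧
        ((a : ℂ) * τ + b) / (c * τ + d) + t / 27 =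
        ((p : ℂ) * ((A' * τ + B') / D') + q) / (r * ((A' * τ + B') / D') + s) := by
  set u : ℤ := 27 * a + t * c with hu
  set v : ℤ := 27 * c with hv
  have hne : u ≠ 0 ∨ v ≠ 0 := by
    by_contra hcon
    push Not at hcon
    have hc0 : c = 0 := by omega
    have ha0 : a = 0 := by
      have h1 := hcon.1
      rw [hu, hc0] at h1
      omega
    rw [hc0, ha0] at h
    simp at h
  set G : ℤ := (Int.gcd u v : ℤ) with hG
  have hGpos : 0 < G := by
    have : Int.gcd u v ≠ 0 := by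
      intro h0
      rw [Int.gcd_eq_zero_iff] at h0
      rcases hne with h1 | h1
      · exact h1 h0.1
      · exact h1 h0.2
    rw [hG]
    exact_mod_cast Nat.pos_of_ne_zero this
  obtain ⟨p, hp⟩ : G ∣ u := Int.gcd_dvd_left _ _
  obtain ⟨r, hr⟩ : G ∣ v := Int.gcd_dvd_right _ _
  have hbz : G = u * Int.gcdA u v + v * Int.gcdB u v := Int.gcd_eq_gcd_ab u v
  obtain ⟨s, hs⟩ : ∃ s, s = Int.gcdA u v := ⟨_, rfl⟩
  obtain ⟨q, hq⟩ : ∃ q, q = -Int.gcdB u v := ⟨_, rfl⟩
  have hdet : p * s - q * r = 1 := by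
    have h1 : G * (p * s - q * r) = G * 1 := by
      rw [hs, hq]
      calc G * (p * Int.gcdA u v - -Int.gcdB u v * r)
          = (G * p) * Int.gcdA u v + (G * r) * Int.gcdB u v := by ring
        _ = u * Int.gcdA u v + v * Int.gcdB u v := by rw [← hp, ← hr]
        _ = G * 1 := by rw [← hbz, mul_one]
    exact mul_left_cancel₀ hGpos.ne' h1
  obtain ⟨B', hB'⟩ : ∃ B', B' = s * (27 * b + t * d) - q * (27 * d) := ⟨_, rfl⟩
  obtain ⟨D', hD'⟩ : ∃ D', D' = -r * (27 * b + t * d) + p * (27 * d) := ⟨_, rfl⟩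
  have hGD : G * D' = 729 := by
    have h1 : G * D' = -(G * r) * (27 * b + t * d) + (G * p) * (27 * d) := by
      rw [hD']; ring
    rw [h1, ← hp, ← hr, hu, hv]
    linear_combination 729 * h
  have hD'pos : 0 < D' := by
    by_contra hcon
    have : G * D' ≤ 0 := mul_nonpos_of_nonneg_of_nonpos hGpos.le (not_lt.1 hcon)
    omega
  refine ⟨p, q, r, s, G, B', D', hdet, hGpos, hD'pos, hGD, fun τ hz => ?_⟩
  have hDc : (D' : ℂ) ≠ 0 := by exact_mod_cast hD'pos.ne'
  have k1 : p * B' + q * D' = 27 * b + t * d := by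
    rw [hB', hD']
    linear_combination (27 * b + t * d) * hdet
  have k2 : r * B' + s * D' = 27 * d := by
    rw [hB', hD']
    linear_combination (27 * d) * hdet
  have k1c : (p : ℂ) * B' + q * D' = 27 * b + t * d := by exact_mod_cast k1
  have k2c : (r : ℂ) * B' + s * D' = 27 * d := by exact_mod_cast k2
  have hpc : (27 : ℂ) * a + t * c = G * p := by exact_mod_cast hp
  have hrc : (27 : ℂ) * c = G * r := by exact_mod_cast hr
  have e1 : (r : ℂ) * ((G * τ + B') / D') + s = 27 * (c * τ + d) / D' := by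
    field_simp
    linear_combination (-τ) * hrc + k2c
  have e2 : (p : ℂ) * ((G * τ + B') / D') + q = (27 * (a * τ + b) + t * (c * τ + d)) / D' := by
    field_simp
    linear_combination (-τ) * hpc + k1c
  constructor
  · rw [e1]
    exact div_ne_zero (mul_ne_zero (by norm_num) hz) hDc
  · rw [e1, e2]
    generalize (c : ℂ) * τ + d = Z at hz
    generalize (a : ℂ) * τ + b = Y
    rw [div_div_div_cancel_right₀ hDc]
    field_simp

theorem ne0 (c d : ℤ) (a b : ℤ) (h : a * d - b * c = 1) (τ : ℂ) (hτ : 0 < τ.im) :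
    (c : ℂ) * τ + d ≠ 0 := by
  intro h0
  have him := congrArg Complex.im h0
  have hre := congrArg Complex.re h0
  simp at him hre
  rcases him with h1 | h1
  · subst h1
    simp at hre
    subst hre
    simp at h
  · exact hτ.ne' h1

variable {N : ℕ} {Φ : OnePoint ℚ → OnePoint ℚ → ℂ} {ϑ : ℂ → ℂ}

/-- the translate has level `729 N` -/
theorem tr (h : SymN N Φ ϑ) (t : ℤ) :
    SymN (729 * N) (fun x y => Φ (mob 27 t 0 27 x) (mob 27 t 0 27 y))
      (fun τ => ϑ (τ + t / 27)) where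
  pos := Nat.mul_pos (by norm_num) h.pos
  add := by
    intro x y z
    exact h.add _ _ _
  inv := by
    rintro a b c d h1 ⟨c1, hc⟩ ⟨d1, hd⟩ x y
    obtain ⟨a', b', d', k1, k2, k3, -⟩ := conj t a b c d (N * c1) (N * d1) h1
      (by rw [hc]; push_cast; ring) (by
        have : d = 1 + (d - 1) := by ring
        rw [this, hd]; push_cast; ring)
    show Φ _ _ = Φ _ _
    rw [k3, k3]
    refine h.inv a' b' c d' k1 ⟨729 * c1, by rw [hc]; push_cast; ring⟩ ⟨729 * d1 - 27 * t * c1, ?_⟩ _ _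
    rw [k2]
    have : d = 1 + (d - 1) := by ring
    rw [this, hd]
    push_cast
    ring
  per := by
    rintro a b c d h1 ⟨c1, hc⟩ ⟨d1, hd⟩ τ hτ
    obtain ⟨a', b', d', k1, k2, k3, k4⟩ := conj t a b c d (N * c1) (N * d1) h1
      (by rw [hc]; push_cast; ring) (by
        have : d = 1 + (d - 1) := by ring
        rw [this, hd]; push_cast; ring)
    show ϑ _ = ϑ _ + Φ _ _
    rw [k4 τ (ne0 c d a b h1 τ hτ), k3, mob_inf]
    refine h.per a' b' c d' k1 ⟨729 * c1, by rw [hc]; push_cast; ring⟩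
      ⟨729 * d1 - 27 * t * c1, ?_⟩ _ ?_
    · rw [k2]
      have : d = 1 + (d - 1) := by ring
      rw [this, hd]
      push_cast
      ring
    · have : ((t : ℂ) / 27).im = 0 := by
        have : ((t : ℂ) / 27) = (((t : ℝ) / 27 : ℝ) : ℂ) := by push_cast; ring
        rw [this]
        exact Complex.ofReal_im _
      rw [Complex.add_im, this, add_zero]
      exact hτ
  cusp := by
    intro a b c d h1
    obtain ⟨p, q, r, s, A', B', D', k1, hA, hD, hAD, k2⟩ := herm t a b c d h1
    obtain ⟨C, w, hw⟩ := h.cusp p q r s k1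
    have hDc : (D' : ℂ) ≠ 0 := by exact_mod_cast hD.ne'
    have hADc : (A' : ℂ) * D' = 729 := by exact_mod_cast hAD
    have hNc : (N : ℂ) ≠ 0 := by exact_mod_cast h.pos.ne'
    obtain ⟨A1, hA1⟩ : ∃ A1 : ℕ, (A1 : ℤ) = A' := ⟨A'.toNat, Int.toNat_of_nonneg hA.le⟩
    have hA1p : 0 < A1 := by
      have : (0 : ℤ) < A1 := by rw [hA1]; exact hA
      exact_mod_cast this
    have hA1c : (A1 : ℂ) = A' := by exact_mod_cast hA1
    set ζ : ℂ := Complex.exp (2 * Real.pi * Complex.I * (B' / D') / N) with hζ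
    set fn : ℕ → ℕ := fun n => A1 ^ 2 * (n + 1) - 1 with hfn
    have hfn1 : ∀ n, fn n + 1 = A1 ^ 2 * (n + 1) := by
      intro n
      have : 0 < A1 ^ 2 * (n + 1) := by positivity
      show A1 ^ 2 * (n + 1) - 1 + 1 = _
      omega
    have hinj : Function.Injective fn := by
      intro n m hnm
      have h3 : A1 ^ 2 * (n + 1) = A1 ^ 2 * (m + 1) := by rw [← hfn1, ← hfn1, hnm]
      have h4 := Nat.eq_of_mul_eq_mul_left (by positivity) h3
      omega
    classical
    refine ⟨C, fun m => if hm : ∃ n, fn n = m then w hm.choose * ζ ^ (hm.choose + 1) else 0,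
      fun τ hτ => ?_⟩
    have hz := ne0 c d a b h1 τ hτ
    have him : 0 < (((A' : ℂ) * τ + B') / D').im := by
      have e1 : ((A' : ℂ) * τ + B') / D' = ((A' / D' : ℝ) : ℂ) * τ + ((B' / D' : ℝ) : ℂ) := by
        push_cast
        field_simp
      rw [e1, Complex.add_im, Complex.ofReal_im, add_zero, Complex.im_ofReal_mul]
      have hA' : (0 : ℝ) < A' := by exact_mod_cast hA
      have hD' : (0 : ℝ) < D' := by exact_mod_cast hD
      positivity
    have hs := hw _ him
    show HasSum _ (ϑ (((a : ℂ) * τ + b) / (c * τ + d) + t / 27) - C)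
    rw [(k2 τ hz).2]
    have e3 : ∀ n, w n * Complex.exp (2 * Real.pi * Complex.I * (((A' : ℂ) * τ + B') / D') / N) ^
        (n + 1) = (fun m => (if hm : ∃ n, fn n = m then w hm.choose * ζ ^ (hm.choose + 1) else 0) *
          Complex.exp (2 * Real.pi * Complex.I * τ / ((729 * N : ℕ) : ℂ)) ^ (m + 1)) (fn n) := by
      intro n
      have hex : ∃ k, fn k = fn n := ⟨n, rfl⟩
      have hch : hex.choose = n := hinj hex.choose_spec
      show _ = (if hm : ∃ k, fn k = fn n then w hm.choose * ζ ^ (hm.choose + 1) else 0) * _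
      rw [dif_pos hex, hch, hfn1, mul_assoc (w n)]
      congr 1
      rw [hζ, ← Complex.exp_nat_mul, ← Complex.exp_nat_mul, ← Complex.exp_nat_mul, ← Complex.exp_add]
      congr 1
      push_cast
      rw [hA1c, ← hADc]
      have hA'c : (A' : ℂ) ≠ 0 := by exact_mod_cast hA.ne'
      field_simp
      ring
    have e4 := hs
    simp_rw [e3] at e4
    refine (hinj.hasSum_iff ?_).1 e4
    intro m hm
    have hm' : ¬ ∃ n, fn n = m := hm
    show (if hm : ∃ n, fn n = m then w hm.choose * ζ ^ (hm.choose + 1) else 0) * _ = 0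
    rw [dif_neg hm', zero_mul]

end Trl

end

end Pool.Agent.NSG
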