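import Pool.Agent.NS.H_Hfin
import Pool.Agent.NS.G_Gpt
import Pool.Agent.NS.G_Gj
import Pool.Agent.NS.G_Gth
import Pool.Agent.NS.TAll
import Pool.Agent.NS.IAll
import Pool.Agent.MU3.Q_ALL
import Pool.Agent.MUX.N_RET
import Pool.Agent.MUX.N_NFE
import Pool.Agent.MUX.N_DSC
import Pool.Agent.MUX.N_DSI
import Pool.Agent.MUX.N_ZL
import Pool.Agent.MUX.N_FK
import Pool.Agent.MUX.N_FGG
import Pool.Agent.MUX.N_GV
import Pool.Agent.MUX.N_GD
import Pool.Agent.MUX.N_GP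
import Pool.Agent.MUX.N_DV
import Pool.Agent.MUX.YAll
import Pool.Agent.MUX.XTMain

/-!
# NS, blocks GN, HG, IN without hypotheses (helper6): `3` inert
-/

set_option autoImplicit false

namespace Pool.Agent.NSZ

open _root_.MU3 Pool.Agent.MUX Pool.Agent.MUXN Pool.Agent.MUXF Pool.Agent.MUXY Pool.Agent.MUXU
  Pool.Agent.MuSym Pool.Agent.NS Pool.Agent.NSG OnePoint

/-- Theorem G for the translates -/
theorem g_GPTn : Sn_GPT :=
  gPT u_SCX (tn_GTH (tn_GJ Pool.Agent.MU3Q.wq (tg_GP tg_GV tg_GD) tg_DV tg_RET tg_NFE)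
    (tg_DSC tg_DSI) tg_ZL (tg_FK u_AUF) tg_FGG) Pool.Agent.MUXT.main_FTI xf_CHI y_CON y_ALP
    y_FEC y_COP xf_ALG xf_IDL xf_NIM xf_QB xf_BDD xf_TSM

/-- the character sums -/
theorem h_HFINn : Sn_HFIN :=
  Pool.Agent.NSH.th_HFIN g_GPTn Pool.Agent.NST.x_TYF y_ALP y_COP

/-- the inputs of block K, except for the first part -/
theorem i_INPn : Pool.Agent.NSI.Sn_INP := Pool.Agent.NSI.n_INP h_HFINn

end Pool.Agent.NSZ
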