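import Pool.Agent.NS.HGR_Sup
import Pool.Agent.NS.StTN
import Pool.Agent.NS.T_FGV
import Pool.Agent.NS.T_ALV
import Pool.Agent.NS.G_Leg
import Pool.Agent.MUX.HRAll
import Pool.Agent.MUX.HY_SYM
import Pool.Agent.MUX.HX_HK
import Pool.Agent.MUX.XFAll
import Pool.Agent.MUX.XTF7

/-!
# MUX-NS, ramified case, glue (helper87): the character sums (`Sq_HFIN`)
-/

set_option autoImplicit false

namespace Pool.Agent.NSHR

open _root_.MU3 Pool.Agent.MU3A Pool.Agent.MU3B Pool.Agent.MU3F Pool.Agent.MUX Pool.Agent.MUXH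
  Pool.Agent.MUXHY Pool.Agent.MuSym Pool.Agent.NS Pool.Agent.NSRD Pool.Agent.NSGR Pool.Agent.MUXHN
  OnePoint

noncomputable section

variable {A B : ℤ}

/-- the symbol `ι^* P` -/
theorem isSym_neg {N : ℕ} {nu : ℤ → ℂ} {P : OnePoint ℚ → OnePoint ℚ → ℂ} (h : IsSym N nu P) :
    IsSym N nu (fun x y => P (mob (-1) 0 0 1 x) (mob (-1) 0 0 1 y)) := by
  constructor
  · intro x y z
    exact h.add _ _ _
  · intro a b c d hd hc x y
    show P (mob (-1) 0 0 1 (mob a b c d x)) (mob (-1) 0 0 1 (mob a b c d y)) = _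
    rw [Hk.mob_conj, Hk.mob_conj]
    exact h.equiv a (-b) (-c) d (by linear_combination hd) (hc.neg_right) _ _

theorem isSym_add {N : ℕ} {nu : ℤ → ℂ} {P Q : OnePoint ℚ → OnePoint ℚ → ℂ} (h : IsSym N nu P)
    (h' : IsSym N nu Q) (s : ℂ) : IsSym N nu (fun x y => (P x y + Q x y) / s) := by
  constructor
  · intro x y z
    rw [← h.add x y z, ← h'.add x y z]
    ring
  · intro a b c d hd hc x y
    show (P (mob a b c d x) (mob a b c d y) + Q (mob a b c d x) (mob a b c d y)) / s = _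
    rw [h.equiv a b c d hd hc, h'.equiv a b c d hd hc]
    ring

/-- the hypotheses of the abstract part -/
theorem hypR (hG : Sv_GQR) (hT' : Sq_TYF) (hRL : Sv_RLR) (hP : MUXY.Sy_ALP)
    (hCOP : MUXY.Sy_COP) {P : Ideal (OO A B)} {V : ValuationSubring ℂ} {f : ℕ}
    (hS : SetR A B P V f) (hT : TorX A B) {ι : Type} [Fintype ι] (R : Reps A B (3 * f) ι)
    {u el lam : ℂ} (hg : GoodR V (R.L R.i0) u el lam) (hua : IsAlgebraic ℚ u)
    {e : OO A B → ℂ} (he : IsEI (idl (A := A) (B := B) (3 * f)) e) {r : ℕ} (hr3 : ¬ 3 ∣ r)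
    (her : ∀ x, e x ≠ 0 → e x ^ r = 1) {i : ℕ} (hi : i ≤ 1)
    (hty : ∀ x, x - 1 ∈ idl (A := A) (B := B) f → x ∉ P → e x = ((wP P x : ℤ) : ℂ) ^ i)
    {kk : ι → ℂ} (hkk : ∀ i, kk i ^ r = 1) :
    ∃ (pi : ℂ) (KI : Subfield ℂ), HypR V (N0R A B f) 2 i (nuX e)
      (PR R e kk u) pi KI (Complex.exp (2 * Real.pi * Complex.I / 3)) := by
  have hp0 : ∀ j, kkp R kk j = 0 ∨ kkp R kk j ^ r = 1 := by
    intro j
    unfold kkp
    split_ifs
    · exact Or.inr (hkk j)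
    · exact Or.inl rfl
  have hm0 : ∀ j, kkm R kk j = 0 ∨ kkm R kk j ^ r = 1 := by
    intro j
    unfold kkm
    split_ifs
    · exact Or.inl rfl
    · exact Or.inr (hkk j)
  obtain ⟨pi, KI, typ, typ', unr, vpi⟩ := hT' A B P V f hS hT ι R u el lam hg e he r hr3 her i hi
    hty (kkp R kk) (kkm R kk) hp0 hm0
  obtain ⟨v3, vZ, v1, vr, D0, gD, gb, gt, h3f⟩ := valR hS
  have hcq : CQ A B := hS.case.toCQ
  have hr0 : r ≠ 0 := by
    rintro rfl
    exact hr3 (dvd_zero 3)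
  have hf0 := hS.f0
  obtain ⟨nu1, num, nuper, nuv⟩ := chrR MUXF.xf_CHI hS he hr0 her
  have hN0 : ((3 * N0R A B f : ℕ) : ℤ) = absD A B * (f : ℤ) ^ 2 := N0R_cast hS.case f
  have hDz : absD A B * ((3 * f : ℕ) : ℤ) ^ 2 = ((3 ^ (2 + 1) * N0R A B f : ℕ) : ℤ) := by
    push_cast at hN0 ⊢
    linear_combination (-9) * hN0
  have hfz : (f : ℤ) ≠ 0 := by exact_mod_cast hf0
  have hNne : N0R A B f ≠ 0 := by
    intro h
    rw [h, mul_zero] at hN0
    have h1 : absD A B * (f : ℤ) ^ 2 = 0 := by rw [← hN0]; rfl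
    exact mul_ne_zero D0.ne' (pow_ne_zero _ hfz) h1
  have hcop : ∀ i, IsCoprime (MUX.sp ((MUX.nI (R.b i) : ℕ) : OO A B))
      (idl (A := A) (B := B) (3 * f)) :=
    hCOP A B (3 * f) ι R _ 1 (by rw [pow_one]; exact h3f)
  have hka : ∀ k : ι → ℂ, (∀ j, k j = 0 ∨ k j ^ r = 1) → ∀ c, IsAlgebraic ℚ (k c) := by
    intro k hk c
    rcases hk c with h | h
    · rw [h]; exact isAlgebraic_zero
    · exact IsAlgebraic.of_pow (Nat.pos_of_ne_zero hr0) (by rw [h]; exact isAlgebraic_one)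
  have halg : ∀ k : ι → ℂ, (∀ j, k j = 0 ∨ k j ^ r = 1) → ∀ x y,
      IsAlgebraic ℚ (PhiK R e k x y / (u * R.om R.i0)) := by
    intro k hk x y
    have h1 := fun c => (hP A B hcq hT (3 * f) ι inferInstance R _ e gb gt he hcop r hr0 her c x y).2
    have e1 : PhiK R e k x y / (u * R.om R.i0) =
        (∑ c, k c * (PhiI (R.b c) e x y / R.om R.i0)) * u⁻¹ := by
      unfold PhiK
      have ho : R.om R.i0 ≠ 0 := (R.nl R.i0).om_ne
      have hu := hg.u0
      rw [mul_comm u, ← div_div, Finset.sum_div, div_eq_mul_inv]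
      congr 1
      refine Finset.sum_congr rfl fun c _ => ?_
      ring
    rw [e1]
    exact (NST.ALV.sum _ _ fun c _ => (hka k hk c).mul (h1 c)).mul hua.inv
  have hPR : ∀ x y, PR R e kk u x y = PhiK R e (kkp R kk) x y / (u * R.om R.i0) +
      PhiK R e (kkm R kk) (mob (-1) 0 0 1 x) (mob (-1) 0 0 1 y) / (u * R.om R.i0) := by
    intro x y
    unfold PR
    rw [add_div]
  have hsymc : ∀ c, IsSym (3 ^ (2 + 1) * N0R A B f) (nuX e) (PhiI (R.b c) e) := fun c =>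
    MUXT.sym_EI (toCQ hcq) (R.b c) (R.nl c).b_ne _ e (toEI he) (3 * f) (by omega) h3f _
      (mul_ne_zero (by norm_num) hNne) (by rw [hDz])
  refine ⟨pi, KI, ?_⟩
  exact
    { vp := v3
      N0 := hNne
      cop := by
        rw [Nat.Prime.coprime_iff_not_dvd Nat.prime_three]
        intro h
        obtain ⟨e3, hD3, -⟩ := absD_three hS.case
        have h1 : (3 : ℤ) * 3 ∣ ((3 * N0R A B f : ℕ) : ℤ) := by
          obtain ⟨k, hk⟩ := h
          refine ⟨(k : ℤ), ?_⟩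
          rw [hk]
          push_cast
          ring
        rw [hN0, ← e3, mul_assoc, mul_dvd_mul_iff_left (by norm_num : (3 : ℤ) ≠ 0)] at h1
        rcases Int.prime_three.dvd_or_dvd h1 with h2 | h2
        · exact hD3 h2
        · have h4 := Int.prime_three.dvd_of_dvd_pow h2
          exact hS.fp (by exact_mod_cast h4)
      nu1 := nu1
      num := num
      nuper := nuper
      nuv := nuv
      sym := by
        have h1 := Sym.isSym_lin hsymc (kkp R kk) 1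
        have h2 := isSym_neg (Sym.isSym_lin hsymc (kkm R kk) 1)
        have h3 := isSym_add h1 h2 (u * R.om R.i0)
        have h4 : (fun x y => ((∑ c, kkp R kk c * PhiI (R.b c) e x y) / 1 +
            (∑ c, kkm R kk c * PhiI (R.b c) e (mob (-1) 0 0 1 x) (mob (-1) 0 0 1 y)) / 1) /
              (u * R.om R.i0)) = PR R e kk u := by
          funext x y
          unfold PR PhiK
          rw [div_one, div_one]
        rw [← h4]
        exact h3
      omp := by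
        have := Complex.isPrimitiveRoot_exp 3 (by norm_num)
        exact_mod_cast this
      rel := fun x => hRL A B P V f hS ι R e he kk u x
      alg := by
        intro x y
        rw [hPR]
        exact (halg _ hp0 _ _).add (halg _ hm0 _ _)
      fin := by
        classical
        obtain ⟨T, hT1⟩ := NST.nt_FGV A B hcq (3 * f) ι R _ e gb he (kkp R kk) (u * R.om R.i0)
        obtain ⟨T', hT2⟩ := NST.nt_FGV A B hcq (3 * f) ι R _ e gb he (kkm R kk) (u * R.om R.i0)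
        refine ⟨T ∪ T', fun x y => ?_⟩
        rw [hPR]
        refine add_mem ?_ ?_
        · exact AddSubgroup.closure_mono (by rw [Finset.coe_union]; exact Set.subset_union_left)
            (hT1 x y)
        · exact AddSubgroup.closure_mono (by rw [Finset.coe_union]; exact Set.subset_union_right)
            (hT2 _ _)
      typ := by
        intro x y
        obtain ⟨w, hw, hw1⟩ := typ x y
        obtain ⟨w', hw', hw2⟩ := typ' (mob (-1) 0 0 1 x) (mob (-1) 0 0 1 y)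
        refine ⟨w + w', KI.add_mem hw hw', ?_⟩
        rw [hPR, hw1, hw2]
        ring
      unr := unr
      i1 := hi
      vpi := vpi
      G := by
        intro N' hN' hd
        refine hG A B P V f hS hT ι R u el lam hg e he r hr0 her kk (vr r _ hr0 (hkk _)) N' hN' ?_
        rw [hDz]
        exact_mod_cast hd }

lemma pow_lem {Γ : Type} [LinearOrderedCommGroupWithZero Γ] {t : Γ} (ht : t ≤ 1) {a b : ℕ}
    (h : a ≤ b) : t ^ b ≤ t ^ a := pow_le_pow_right_of_le_one' ht h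

/-- the character sums -/
theorem tq_HFIN (hG : Sv_GQR) (hT' : Sq_TYF) (hTI : Sv_TYI) (hRL : Sv_RLR) (hQ : Sv_QB3)
    (hP : MUXY.Sy_ALP) (hCOP : MUXY.Sy_COP)
    (hLG : Sv_LGR) : Sq_HFIN := by
  intro A B P V f hS hT ι _ R u el lam hg e he r hr3 her kk hkk n₀
  obtain ⟨v3, vZ, v1, vr, D0, gD, gb, gt, h3f⟩ := valR hS
  have hcq : CQ A B := hS.case.toCQ
  have hr0 : r ≠ 0 := by
    rintro rfl
    exact hr3 (dvd_zero 3)
  have hf0 := hS.f0
  obtain ⟨i, hi, hty⟩ := hTI A B P V f hS e he r hr3 her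
  have hua : IsAlgebraic ℚ u := (hLG A B hcq hT (3 * f) ι R V v3 u el lam hg).1.1
  set kk' : ι → ℂ := fun c => kk c / e ((nI (R.b c) : ℕ) : OO A B) with hkk'
  have heN : ∀ c, e ((nI (R.b c) : ℕ) : OO A B) ≠ 0 := Brg.e_nI R he h3f
  have hk1 : ∀ c, kk' c ^ r = 1 := by
    intro c
    rw [hkk']
    beta_reduce
    rw [div_pow, hkk, her _ (heN c), div_one]
  obtain ⟨pi, KI, hyp⟩ := hypR hG hT' hRL hP hCOP hS hT R hg hua he hr3 her hi hty hk1
  have hfz : (0 : ℤ) < f := by exact_mod_cast Nat.pos_of_ne_zero hf0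
  have haz : ((aX 3 f : ℕ) : ℤ) - 1 = 3 * (2 * f) := by
    unfold aX q0
    push_cast
    norm_num
    ring
  have ha3 : (3 : ℤ) ∣ ((aX 3 f : ℕ) : ℤ) - 1 := by rw [haz]; exact Dvd.intro _ rfl
  have ha1 : ((aX 3 f : ℕ) : ℤ) ≠ 1 := by
    intro h
    rw [h] at haz
    omega
  obtain ⟨m, hn, hmain⟩ := xn_HR V (N0R A B f) 2 i (nuX e) _ pi KI _ hyp ((aX 3 f : ℕ) : ℤ) 4
    ha3 ha1 (by norm_num) (by norm_num) (n₀ + 2)
  refine ⟨m, by omega, by omega, ?_⟩
  rw [qsr (ty_QSX MUXF.xf_F5 MUXF.xf_PRD) hQ hS he R kk m]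
  have hprim := Hfx.prim 3 (m + 1) Nat.prime_three (-(4 * ((aX 3 f : ℕ) : ℤ) ^ 2)) (by
    intro h
    rw [dvd_neg] at h
    rcases Int.prime_three.dvd_or_dvd h with h | h
    · omega
    · have h5 := Int.prime_three.dvd_of_dvd_pow h
      have h6 := dvd_sub h5 ha3
      rw [sub_sub_cancel] at h6
      omega)
  have hζ : ex (-((4 : ℚ) ^ 1 * (aX 3 f : ℚ) ^ 2) / ((3 ^ (m + 1) : ℕ) : ℚ)) =
      ex (((-(4 * ((aX 3 f : ℕ) : ℤ) ^ 2) : ℤ) : ℚ) / (3 : ℕ) ^ (m + 1)) := by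
    push_cast
    rw [pow_one]
  rw [hζ]
  set ζ : ℂ := ex (((-(4 * ((aX 3 f : ℕ) : ℤ) ^ 2) : ℤ) : ℚ) / (3 : ℕ) ^ (m + 1)) with hζd
  have hrel : ζ ^ 3 ^ m * Complex.exp (2 * Real.pi * Complex.I / 3) = 1 := by
    have h1 : Complex.exp (2 * Real.pi * Complex.I / 3) = ex ((1 : ℚ) / 3) := by
      unfold ex
      congr 1
      push_cast
      ring
    have h2 : ζ ^ 3 ^ m = ex (((-(4 * ((aX 3 f : ℕ) : ℤ) ^ 2) : ℤ) : ℚ) / 3) := by
      rw [hζd, Pool.Agent.MU3H.Qs.ex_pow]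
      congr 1
      push_cast
      have : (3 : ℚ) ^ m ≠ 0 := pow_ne_zero _ (by norm_num)
      field_simp
      try ring
    obtain ⟨t, ht⟩ := ha3
    have h3 : ∃ k : ℤ, (-(4 * ((aX 3 f : ℕ) : ℤ) ^ 2) : ℤ) + 1 = 3 * k := by
      refine ⟨-(12 * t ^ 2 + 8 * t + 1), ?_⟩
      have h4 : ((aX 3 f : ℕ) : ℤ) = 1 + 3 * t := by linarith
      rw [h4]
      ring
    obtain ⟨k, hk⟩ := h3
    rw [h1, h2, ← Pool.Agent.MU3H.Qs.ex_add]
    have h5 : ((-(4 * ((aX 3 f : ℕ) : ℤ) ^ 2) : ℤ) : ℚ) / 3 + 1 / 3 = (k : ℚ) := by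
      have h6 : (((-(4 * ((aX 3 f : ℕ) : ℤ) ^ 2) : ℤ) + 1 : ℤ) : ℚ) = ((3 * k : ℤ) : ℚ) := by
        rw [hk]
      push_cast at h6 ⊢
      linear_combination (1 / 3) * h6
    rw [h5]
    exact Pool.Agent.MU3H.Qs.ex_int k
  obtain ⟨hm0, hm1⟩ := hmain ζ hprim hrel
  have hz : V.valuation (ζ - 1) ^ (2 * 3 ^ m) = V.valuation (3 : ℂ) := by
    have h1 := Hz.val_p 3 Nat.prime_three V m ζ hprim
    rw [mul_comm 2 (3 ^ m)]
    simpa using h1
  have hu := hg.u0
  set Y : ℂ := ∑ b ∈ Finset.range (3 ^ (m + 1)), ζ ^ b *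
      comb ((aX 3 f : ℕ) : ℤ) 4 1 (fun b => PR R e kk' u ∞
        (((b : ℚ) / 3 ^ (m + 1) : ℚ) : OnePoint ℚ)) b with hY
  have e5 : (2 * (f : ℂ) * ∑ b ∈ Finset.range (3 ^ (m + 1)), ζ ^ b *
      comb ((aX 3 f : ℕ) : ℤ) 4 1 (fun b => PP R ⊤ e (kkp R kk) 0 ∞
              ((b / ((3 ^ (m + 1) : ℕ) : ℚ) : ℚ) : OnePoint ℚ) +
            PP R ⊤ e (kkm R kk) 0 (mob (-1) 0 0 1 ∞)
              (mob (-1) 0 0 1 ((b / ((3 ^ (m + 1) : ℕ) : ℚ) : ℚ) : OnePoint ℚ))) b) / u =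
      2 * f * Y := by
    rw [mul_div_assoc, Finset.sum_div, hY]
    congr 1
    refine Finset.sum_congr rfl fun b _ => ?_
    rw [mul_div_assoc]
    congr 1
    have e6 : ∀ b : ℤ, PP R ⊤ e (kkp R kk) 0 ∞
              ((b / ((3 ^ (m + 1) : ℕ) : ℚ) : ℚ) : OnePoint ℚ) +
            PP R ⊤ e (kkm R kk) 0 (mob (-1) 0 0 1 ∞)
              (mob (-1) 0 0 1 ((b / ((3 ^ (m + 1) : ℕ) : ℚ) : ℚ) : OnePoint ℚ)) =
        u * PR R e kk' u ∞ (((b : ℚ) / 3 ^ (m + 1) : ℚ) : OnePoint ℚ) := by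
      intro b
      have e7 : ∀ (k k' : ι → ℂ), (∀ c, k' c = k c / e ((nI (R.b c) : ℕ) : OO A B)) → ∀ x y,
          PP R ⊤ e k 0 x y = PhiK R e k' x y / R.om R.i0 := by
        intro k k' hk x y
        have h1 : k' = fun c => k c / e ((nI (R.b c) : ℕ) : OO A B) := funext hk
        rw [h1]
        exact Brg.PP_zero R ⊤ e k x y
      have e8 : ∀ c, kkp R kk' c = kkp R kk c / e ((nI (R.b c) : ℕ) : OO A B) := by
        intro c
        unfold kkp
        split_ifs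
        · rfl
        · rw [zero_div]
      have e9 : ∀ c, kkm R kk' c = kkm R kk c / e ((nI (R.b c) : ℕ) : OO A B) := by
        intro c
        unfold kkm
        split_ifs
        · rw [zero_div]
        · rfl
      rw [e7 _ _ e8, e7 _ _ e9]
      unfold PR
      have ho : R.om R.i0 ≠ 0 := (R.nl R.i0).om_ne
      push_cast
      field_simp
    unfold comb
    rw [Finset.sum_div]
    refine Finset.sum_congr rfl fun j _ => ?_
    rw [mul_div_assoc]
    congr 1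
    beta_reduce
    rw [e6, e6]
    field_simp
  have e5' : V.valuation ((2 * (f : ℂ) * ∑ b ∈ Finset.range (3 ^ (m + 1)), ζ ^ b *
      comb (aX 3 f) 4 1 (fun b => PP R ⊤ e (kkp R kk) 0 ∞
              ((b / ((3 ^ (m + 1) : ℕ) : ℚ) : ℚ) : OnePoint ℚ) +
            PP R ⊤ e (kkm R kk) 0 (mob (-1) 0 0 1 ∞)
              (mob (-1) 0 0 1 ((b / ((3 ^ (m + 1) : ℕ) : ℚ) : ℚ) : OnePoint ℚ))) b) / u) =
      V.valuation Y := by
    rw [e5, map_mul, map_mul]
    have e8 : V.valuation (2 : ℂ) = 1 := by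
      have := v1 2 (by norm_num)
      exact_mod_cast this
    have e9 : V.valuation (f : ℂ) = 1 := by
      have := v1 f (by
        intro h
        exact hS.fp (by exact_mod_cast h))
      exact_mod_cast this
    rw [e8, e9, one_mul, one_mul]
  rw [e5']
  have h9 : 9 ≤ 3 ^ m := by
    calc 9 = 3 ^ 2 := by norm_num
      _ ≤ 3 ^ m := Nat.pow_le_pow_right (by norm_num) (by omega)
  rcases Nat.le_one_iff_eq_zero_or_eq_one.1 hi with h0 | h0
  · have h1 := hm0 h0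
    calc V.valuation (3 : ℂ) ^ (15 * 3 ^ m) =
        V.valuation (3 : ℂ) ^ (12 * 3 ^ m) * V.valuation (3 : ℂ) ^ (3 * 3 ^ m) := by
          rw [← pow_add]
          congr 1
          ring
      _ ≤ V.valuation Y ^ (12 * 3 ^ m) * V.valuation (3 : ℂ) ^ 12 := by
          refine mul_le_mul' (pow_le_pow_left₀ zero_le h1.le _) (pow_lem v3.le ?_)
          omega
  · have h1 := hm1 h0
    calc V.valuation (3 : ℂ) ^ (15 * 3 ^ m) = (V.valuation (3 : ℂ) ^ 5) ^ (3 * 3 ^ m) := by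
          rw [← pow_mul]
          congr 1
          ring
      _ ≤ (V.valuation Y ^ 4 * V.valuation (ζ - 1) ^ 8) ^ (3 * 3 ^ m) :=
          pow_le_pow_left₀ zero_le h1 _
      _ = V.valuation Y ^ (12 * 3 ^ m) * (V.valuation (ζ - 1) ^ (2 * 3 ^ m)) ^ 12 := by
          rw [mul_pow, ← pow_mul, ← pow_mul, ← pow_mul]
          congr 2 <;> ring
      _ = V.valuation Y ^ (12 * 3 ^ m) * V.valuation (3 : ℂ) ^ 12 := by rw [hz]

end

end Pool.Agent.NSHR
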