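import Pool.Agent.NS.StTR
import Pool.Agent.NS.RN_ALR

/-!
# MUX-NS, block TR, module DEL: the element `δ = √D = 2 w - B` and the residues modulo `P`
-/

set_option autoImplicit false

namespace Pool.Agent.NSTR

open _root_.MU3 Pool.Agent.MU3A Pool.Agent.MU3B Pool.Agent.RI Pool.Agent.MUX Pool.Agent.MUXU
open OnePoint Pool.Agent.NS Pool.Agent.NSRD
open Pool.Agent.MUXV (GR InK)
open Pool.Agent.NSE (su ru)
open Pool.Agent.NST (KIn ActT)
open Pool.Agent.MUXY (ActN Dn)

noncomputable section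

namespace DEL

variable {A B : ℤ}

lemma int_eq (n : ℤ) : ((n : ℤ) : OO A B) = ⟨n, 0⟩ := by
  ext
  · simp
  · simp

lemma three_eq : (3 : OO A B) = ⟨3, 0⟩ := by
  have h : (3 : OO A B) = ((3 : ℤ) : OO A B) := by norm_cast
  rw [h, int_eq]

lemma two_eq : (2 : OO A B) = ⟨2, 0⟩ := by
  have h : (2 : OO A B) = ((2 : ℤ) : OO A B) := by norm_cast
  rw [h, int_eq]

lemma three_im (z : OO A B) : (3 * z).im = 3 * z.im := by
  rw [three_eq]
  simp

lemma dD_sq (A B : ℤ) : dD A B * dD A B = ((-absD A B : ℤ) : OO A B) := by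
  rw [int_eq]
  ext
  · simp only [dD, absD, QuadraticAlgebra.re_mul]
    ring
  · simp only [dD, QuadraticAlgebra.im_mul]
    ring

/-- an element in terms of `w + B` -/
lemma decomp (x : OO A B) : x = ((x.re - B * x.im : ℤ) : OO A B) +
    ((x.im : ℤ) : OO A B) * (⟨B, 1⟩ : OO A B) := by
  rw [int_eq, int_eq]
  ext
  · simp only [QuadraticAlgebra.re_add, QuadraticAlgebra.re_mul]
    ring
  · simp only [QuadraticAlgebra.im_add, QuadraticAlgebra.im_mul]
    ring

lemma dD_eq (A B : ℤ) : dD A B = 2 * (⟨B, 1⟩ : OO A B) - ((3 * B : ℤ) : OO A B) := by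
  rw [two_eq, int_eq]
  ext
  · simp only [dD, QuadraticAlgebra.re_sub, QuadraticAlgebra.re_mul]
    ring
  · simp only [dD, QuadraticAlgebra.im_sub, QuadraticAlgebra.im_mul]
    ring

lemma wB_dD (A B : ℤ) : (⟨B, 1⟩ : OO A B) * dD A B =
    ((2 * A - B ^ 2 : ℤ) : OO A B) + 3 * (⟨0, B⟩ : OO A B) := by
  rw [three_eq, int_eq]
  ext
  · simp only [dD, QuadraticAlgebra.re_add, QuadraticAlgebra.re_mul]
    ring
  · simp only [dD, QuadraticAlgebra.im_add, QuadraticAlgebra.im_mul]
    ring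

lemma absD_ge (h : CaseR A B) : 15 ≤ absD A B := by
  have h3 := h.three
  have hn := h.neg
  unfold absD
  rcases h.hB with rfl | rfl
  · have h4 := (h.fund0 rfl).2
    norm_num at h3 hn ⊢
    omega
  · have h4 := h.exc
    norm_num at h3 hn h4 ⊢
    omega

lemma not_dvd (h : CaseR A B) {d : ℤ} (hd : B ^ 2 + 4 * A = 3 * d) : ¬ (3 : ℤ) ∣ d := by
  intro h3
  obtain ⟨k, rfl⟩ := h3
  have hu : ¬ IsUnit (3 : ℤ) := by
    rw [Int.isUnit_iff]
    omega
  rcases h.hB with rfl | rfl
  · apply hu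
    apply (h.fund0 rfl).1
    norm_num at hd ⊢
    omega
  · apply hu
    apply h.fund1 rfl
    exact ⟨k, by linarith⟩

end DEL

open DEL in
/-- (DEL) the element `δ = √D` and the residues modulo `P` -/
theorem tw_DEL : Sw_DEL := by
  intro A B P V hR hP hV
  have hC : CQ A B := hR.toCQ
  have hlt : ∀ x : OO A B, V.valuation (emb x) < 1 ↔ x ∈ P := fun x =>
    (ValuationSubring.mem_nonunits_iff (A := V)).symm.trans (hV x)
  have h3P : (3 : OO A B) ∈ P := by
    have := hP.mem
    exact_mod_cast this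
  have e3 : emb (3 : OO A B) = 3 := by
    have h := emb_natCast hC 3
    exact_mod_cast h
  have e2 : emb (2 : OO A B) = 2 := by
    have h := emb_natCast hC 2
    exact_mod_cast h
  have v3 : V.valuation (3 : ℂ) < 1 := by
    have h := (hlt 3).2 h3P
    rwa [e3] at h
  have v2 : V.valuation (2 : ℂ) = 1 := by
    have h : V.valuation ((2 : ℤ) : ℂ) = 1 := NSR.ALRaux.v_int_unit v3 (by norm_num)
    exact_mod_cast h
  have vle : ∀ x : OO A B, V.valuation (emb x) ≤ 1 := NSR.ALRaux.v_emb hC V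
  obtain ⟨d, hd⟩ := hR.three
  have hnd : ¬ (3 : ℤ) ∣ d := not_dvd hR hd
  have hsq := dD_sq A B
  have hsq' : dD A B * dD A B = 3 * ((d : ℤ) : OO A B) := by
    rw [hsq]
    have h : -absD A B = 3 * d := by
      unfold absD
      linarith
    rw [h]
    push_cast
    ring
  have hdP : dD A B ∈ P := by
    have h : dD A B * dD A B ∈ P := by
      rw [hsq']
      exact P.mul_mem_right _ h3P
    rcases hP.prime.mem_or_mem h with h | h <;> exact h
  have h1P : (1 : OO A B) ∉ P := fun h => hP.prime.ne_top ((Ideal.eq_top_iff_one _).2 h)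
  -- integers in `P`
  have hint : ∀ n : ℤ, (n : OO A B) ∈ P → (3 : ℤ) ∣ n := by
    intro n hn
    by_contra h3
    obtain ⟨a, b, hab⟩ := (Int.prime_three.coprime_iff_not_dvd).2 h3
    apply h1P
    have h := congrArg (Int.cast : ℤ → OO A B) hab
    push_cast at h
    rw [← h]
    exact P.add_mem (P.mul_mem_left _ h3P) (P.mul_mem_left _ hn)
  have hint' : ∀ n : ℤ, (3 : ℤ) ∣ n → (n : OO A B) ∈ P := by
    rintro n ⟨k, rfl⟩
    push_cast
    exact P.mul_mem_right _ h3P
  -- `w + B ∈ P`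
  have hwB : (⟨B, 1⟩ : OO A B) ∈ P := by
    have h : 2 * (⟨B, 1⟩ : OO A B) ∈ P := by
      have h5 : 2 * (⟨B, 1⟩ : OO A B) = dD A B + ((3 * B : ℤ) : OO A B) := by
        rw [dD_eq]
        ring
      rw [h5]
      exact P.add_mem hdP (hint' _ ⟨B, rfl⟩)
    rcases hP.prime.mem_or_mem h with h | h
    · exact absurd (hint 2 (by exact_mod_cast h)) (by norm_num)
    · exact h
  have hred : ∀ x : OO A B, x - ((x.re - B * x.im : ℤ) : OO A B) ∈ P := by
    intro x
    have h : x - ((x.re - B * x.im : ℤ) : OO A B) = ((x.im : ℤ) : OO A B) * (⟨B, 1⟩ : OO A B) := by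
      nth_rewrite 1 [decomp x]
      ring
    rw [h]
    exact P.mul_mem_left _ hwB
  have hmemP : ∀ x ∈ P, (3 : ℤ) ∣ x.re - B * x.im := by
    intro x hx
    apply hint
    have h := P.sub_mem hx (hred x)
    rwa [sub_sub_cancel] at h
  have vd2 : V.valuation (emb (dD A B)) ^ 2 = V.valuation (3 : ℂ) := by
    have h : emb (dD A B) ^ 2 = 3 * ((d : ℤ) : ℂ) := by
      rw [sq, ← emb_mul hC, hsq', emb_mul hC, e3, emb_intCast hC]
    rw [← map_pow, h, map_mul, NSR.ALRaux.v_int_unit v3 hnd, mul_one]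
  have vd1 : V.valuation (emb (dD A B)) < 1 := (hlt _).2 hdP
  have v30 : V.valuation (3 : ℂ) ≠ 0 := by
    rw [Ne, map_eq_zero]
    norm_num
  have vd0 : V.valuation (emb (dD A B)) ≠ 0 := by
    intro h
    rw [h] at vd2
    apply v30
    rw [← vd2]
    simp
  have v3d : V.valuation (3 : ℂ) < V.valuation (emb (dD A B)) := by
    rw [← vd2, sq]
    exact mul_lt_of_lt_one_left (zero_lt_iff.2 vd0) vd1
  have vwB : V.valuation (emb (⟨B, 1⟩ : OO A B)) ≤ V.valuation (emb (dD A B)) := by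
    have h : (2 : ℂ) * emb (⟨B, 1⟩ : OO A B) = emb (dD A B) + 3 * ((B : ℤ) : ℂ) := by
      rw [dD_eq, emb_sub hC, emb_mul hC, e2, emb_intCast hC]
      push_cast
      ring
    have h5 : V.valuation (emb (⟨B, 1⟩ : OO A B)) =
        V.valuation ((2 : ℂ) * emb (⟨B, 1⟩ : OO A B)) := by
      rw [map_mul, v2, one_mul]
    rw [h5, h]
    refine (V.valuation.map_add _ _).trans (max_le le_rfl ?_)
    rw [map_mul]
    exact (mul_le_of_le_one_right' (NSR.ALRaux.v_int V B)).trans v3d.le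
  have vP : ∀ x ∈ P, V.valuation (emb x) ≤ V.valuation (emb (dD A B)) := by
    intro x hx
    obtain ⟨k, hk⟩ := hmemP x hx
    have h : emb x = 3 * (k : ℂ) + ((x.im : ℤ) : ℂ) * emb (⟨B, 1⟩ : OO A B) := by
      nth_rewrite 1 [decomp x]
      rw [emb_add hC, emb_mul hC, emb_intCast hC, emb_intCast hC, hk]
      push_cast
      ring
    rw [h]
    refine (V.valuation.map_add _ _).trans (max_le ?_ ?_)
    · rw [map_mul]
      exact (mul_le_of_le_one_right' (NSR.ALRaux.v_int V k)).trans v3d.le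
    · rw [map_mul]
      exact (mul_le_of_le_one_left' (NSR.ALRaux.v_int V _)).trans vwB
  have vP2 : ∀ x ∈ P ^ 2, V.valuation (emb x) ≤ V.valuation (3 : ℂ) := by
    intro x hx
    rw [sq] at hx
    refine Submodule.mul_induction_on hx ?_ ?_
    · intro y hy z hz
      rw [emb_mul hC, map_mul, ← vd2, sq]
      exact mul_le_mul' (vP y hy) (vP z hz)
    · intro y z hy hz
      rw [emb_add hC]
      exact (V.valuation.map_add _ _).trans (max_le hy hz)
  refine ⟨v3, v2, hsq, absD_ge hR, hdP, fun h => absurd (vP2 _ h) (not_le.2 v3d), vd2,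
    ?_, ?_, ?_, vle, ?_⟩
  · -- `x δ ∈ 3 O`
    intro x hx
    obtain ⟨k, hk⟩ := hmemP x hx
    obtain ⟨l, hl⟩ : (3 : ℤ) ∣ 2 * A - B ^ 2 := by
      obtain ⟨t, ht⟩ := hR.three
      exact ⟨2 * A - t, by linarith⟩
    refine ⟨(k : OO A B) * dD A B + ((x.im : ℤ) : OO A B) * ((l : OO A B) + (⟨0, B⟩ : OO A B)), ?_⟩
    have h1 : x * dD A B = ((x.re - B * x.im : ℤ) : OO A B) * dD A B +
        ((x.im : ℤ) : OO A B) * ((⟨B, 1⟩ : OO A B) * dD A B) := by
      nth_rewrite 1 [decomp x]
      ring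
    rw [h1, wB_dD, hk, hl]
    push_cast
    ring
  · intro y h
    have h1 := congrArg QuadraticAlgebra.im h
    rw [three_im] at h1
    simp only [dD] at h1
    omega
  · intro c hc
    have h1 : ¬ (3 : ℤ) ∣ c.re - B * c.im := by
      intro h
      apply hc
      have h2 := P.add_mem (hred c) (hint' _ h)
      rwa [sub_add_cancel] at h2
    by_cases h2 : c - 1 ∈ P
    · have hw : wP P c = 1 := by simp [wP, hc, h2]
      rw [hw]
      exact ⟨Or.inl rfl, by simpa using h2⟩
    · have hw : wP P c = -1 := by simp [wP, hc, h2]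
      rw [hw]
      refine ⟨Or.inr rfl, ?_⟩
      have h3 : ¬ (3 : ℤ) ∣ (c.re - B * c.im) - 1 := by
        intro h
        apply h2
        have h4 := P.add_mem (hred c) (hint' _ h)
        have h5 : c - ((c.re - B * c.im : ℤ) : OO A B) +
            (((c.re - B * c.im) - 1 : ℤ) : OO A B) = c - 1 := by
          push_cast
          ring
        rwa [h5] at h4
      have h6 : (3 : ℤ) ∣ (c.re - B * c.im) + 1 := by omega
      have h4 := P.add_mem (hred c) (hint' _ h6)
      have h5 : c - ((c.re - B * c.im : ℤ) : OO A B) +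
          (((c.re - B * c.im) + 1 : ℤ) : OO A B) = c - ((-1 : ℤ) : OO A B) := by
        push_cast
        ring
      rwa [h5] at h4
  · intro n hn
    have h : V.valuation ((n : ℤ) : ℂ) = 1 := NSR.ALRaux.v_int_unit v3 (by omega)
    exact_mod_cast h

end

end Pool.Agent.NSTR
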