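import Pool.Agent.NS.IAll
import Pool.Agent.NS.IR_I31
import Pool.Agent.NS.IR_SUB

/-!
# MUX-NS, block IR put together (helper87). The only input is `Sq_HFIN` (block H)
-/

set_option autoImplicit false

namespace Pool.Agent.NSIR

open Pool.Agent.MUXF Pool.Agent.MUXU Pool.Agent.MUXY Pool.Agent.MUXK Pool.Agent.MUXI
  Pool.Agent.NSI Pool.Agent.NSRD

theorem p_SUB : Sp_SUB := tp_SUB i_LAY
theorem p_I31 (hH : Sq_HFIN) : Sp_I31 :=
  tp_I31 Pool.Agent.MUXJ.j_RES i_CHI n_FOU Pool.Agent.MU3I.t_ITG n_E0 i_ARF i_XXF n_SUB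
    i_GAM n_XMX i_BIJ n_TH i_GEN hH k_GALX

/-- the result of block IR -/
theorem p_INP (hH : Sq_HFIN) : Sp_INP := tp_INP (p_I31 hH) n_LEM1 n_NRX

end Pool.Agent.NSIR
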