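import Pool.Agent.NS.StTR
import Pool.Agent.NS.T_TCJ
import Pool.Agent.MUX.XLib

/-!
# MUX-NS, block TR, module TAU: the number `tau`, ramified case (helper22)
-/

set_option autoImplicit false

namespace Pool.Agent.NSTR

open _root_.MU3 Pool.Agent.MU3A Pool.Agent.MU3B Pool.Agent.RI Pool.Agent.MUX Pool.Agent.MUXU
open OnePoint Pool.Agent.NS Pool.Agent.NSRD
open Pool.Agent.MUXV (GR InK)
open Pool.Agent.NSE (su ru)
open Pool.Agent.NST (KIn ActT)
open Pool.Agent.MUXY (ActN Dn)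

noncomputable section

namespace TAU

/-- `ru` is periodic -/
lemma ru_congr (L : PeriodPair) (u e : ℂ) {z w : ℂ} (h : w - z ∈ L.lattice) :
    ru L u e w = ru L u e z := by
  have h4 := L.derivWeierstrassP_add_coe z ⟨w - z, h⟩
  have h6 := L.weierstrassP_add_coe z ⟨w - z, h⟩
  have h5 : z + ((⟨w - z, h⟩ : L.lattice) : ℂ) = w := by
    show z + (w - z) = w
    ring
  rw [h5] at h4 h6
  unfold ru xu yu
  rw [h4, h6]

/-- `ru` is odd -/
lemma ru_neg (L : PeriodPair) (u e z : ℂ) : ru L u e (-z) = -ru L u e z := by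
  unfold ru xu yu
  rw [L.derivWeierstrassP_neg, L.weierstrassP_neg]
  ring

end TAU

open TAU in
theorem tw_TAU (h1 : Sw_DEL) (h2 : Sw_ALT) (h3 : Sw_VSR) : Sw_TAU := by
  intro A B P V hC hP hV hTor n ι R u e lam hg
  obtain ⟨hv3, -, -, -, hdP, -, -, hx3, hd3, hres, -, -⟩ := h1 A B P V hC hP hV
  have hcq : CQ A B := hC.toCQ
  set L := R.L R.i0 with hL
  set om := R.om R.i0 with hom
  have hli : IsLI (R.b R.i0) L om := (R.nl R.i0).toIsLI
  have hmem : ∀ z : ℂ, z ∈ L.lattice ↔ ∃ x : OO A B, z = om * emb x := by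
    intro z
    rw [hli.mem z, R.b0]
    simp
  have hom0 : om ≠ 0 := hli.om_ne
  have e3 : emb (3 : OO A B) = 3 := by
    have := emb_natCast hcq 3
    simpa using this
  set Y : ℂ := om * emb (dD A B) / 3 with hY
  have hYL : Y ∉ L.lattice := by
    intro hc
    obtain ⟨x, hx⟩ := (hmem _).1 hc
    apply hd3 x
    apply emb_inj hcq
    rw [emb_mul hcq, e3]
    have h5 : om * emb (dD A B) = om * (3 * emb x) := by
      rw [hY] at hx
      linear_combination 3 * hx
    exact mul_left_cancel₀ hom0 h5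
  have hxY : ∀ x ∈ P, emb x * Y ∈ L.lattice := by
    intro x hx
    obtain ⟨y, hy⟩ := hx3 x hx
    rw [hmem]
    refine ⟨y, ?_⟩
    have h5 : emb x * emb (dD A B) = 3 * emb y := by
      rw [← emb_mul hcq, hy, emb_mul hcq, e3]
    rw [hY]
    linear_combination (om / 3) * h5
  have h3Y : (3 : ℂ) * Y ∈ L.lattice := by
    rw [hmem]
    exact ⟨dD A B, by rw [hY]; ring⟩
  refine ⟨ru L u e Y, (h3 A B P V hC hP hV hTor n ι R u e lam hg Y hYL hxY).2, ?_, ?_⟩
  · obtain ⟨-, -, -, -, halg⟩ := h2 A B hcq hTor V hv3 (R.b R.i0) L om (R.nl R.i0) u e lam hg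
    exact (halg 3 (by norm_num) Y hYL (by push_cast; exact h3Y)).2.2
  · intro m hm σ c d hact hc hσu hσe
    obtain ⟨k, rfl⟩ := hm
    have h5 := (Pool.Agent.NST.nt_TCJ A B n ι R (3 * k) σ c d hact u e hg.u0 hσu hσe Y (by
      have h6 : ((3 * k : ℕ) : ℂ) * Y = (k : ℕ) • (3 * Y) := by
        rw [nsmul_eq_mul]
        push_cast
        ring
      rw [h6]
      exact nsmul_mem h3Y k) hYL).2.2.2
    rw [← hL] at h5
    rw [h5]
    obtain ⟨hs, hcs⟩ := hres c hc
    have h7 : emb c * Y - emb ((wP P c : ℤ) : OO A B) * Y ∈ L.lattice := by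
      rw [← sub_mul, ← emb_sub hcq]
      exact hxY _ hcs
    rw [emb_intCast hcq] at h7
    rw [ru_congr L u e h7]
    rcases hs with h8 | h8
    · rw [h8]
      push_cast
      rw [one_mul, one_mul]
    · rw [h8]
      push_cast
      rw [neg_one_mul, neg_one_mul, ru_neg]

end

end Pool.Agent.NSTR
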