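import Pool.Agent.NS.StTR
import Pool.Agent.NS.T_ALT
import Pool.Agent.NS.RN_ALL
import Pool.Agent.NS.RN_ALR
import Pool.Agent.MUX.C_CMM
import Pool.Agent.MUX.U_AUE

/-!
# MUX-NS, block TR, module VSR: the points of order `P`, the canonical subgroup (helper76)
-/

set_option autoImplicit false

namespace Pool.Agent.NSTR

open _root_.MU3 Pool.Agent.MU3A Pool.Agent.MU3B Pool.Agent.RI Pool.Agent.MUX Pool.Agent.MUXU
open OnePoint Pool.Agent.NS Pool.Agent.NSRD
open Pool.Agent.MUXV (GR InK)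
open Pool.Agent.NSE (su ru)
open Pool.Agent.NST (KIn ActT)
open Pool.Agent.MUXY (ActN Dn)

noncomputable section

namespace VSR

/-- the valuation of a root of the division polynomial, if it is at least `v(3)^(-1/2)` -/
lemma dom {V : ValuationSubring ℂ} {x lam : ℂ} (h3 : V.valuation (3 : ℂ) < 1)
    (h2 : V.valuation (2 : ℂ) = 1) (hl : V.valuation (1 + lam) ^ 2 ≤ V.valuation (3 : ℂ))
    (hψ : 3 * x ^ 4 - 4 * (1 + lam) * x ^ 3 + 6 * lam * x ^ 2 - lam ^ 2 = 0)
    (hx : 1 < V.valuation x → 1 ≤ V.valuation x ^ 2 * V.valuation (3 : ℂ)) :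
    1 < V.valuation x ∧ V.valuation x ^ 2 * V.valuation (3 : ℂ) = 1 ∧ V.valuation lam = 1 := by
  have hb : V.valuation (1 + lam) < 1 := by
    by_contra h
    exact absurd ((one_le_pow_of_one_le' (not_lt.1 h) 2).trans hl) (not_le.2 h3)
  have vlam : V.valuation lam = 1 := by
    have h4 : lam = (1 + lam) - 1 := by ring
    rw [h4, V.valuation.map_sub_eq_of_lt_right (by rwa [map_one]), map_one]
  have v4 : V.valuation (4 : ℂ) = 1 := by
    have h4 : (4 : ℂ) = 2 * 2 := by norm_num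
    rw [h4, map_mul, h2, one_mul]
  have v6 : V.valuation (6 : ℂ) = V.valuation (3 : ℂ) := by
    have h4 : (6 : ℂ) = 2 * 3 := by norm_num
    rw [h4, map_mul, h2, one_mul]
  have t1 : V.valuation (3 * x ^ 4) = V.valuation (3 : ℂ) * V.valuation x ^ 4 := by
    rw [map_mul, map_pow]
  have t2 : V.valuation (4 * (1 + lam) * x ^ 3) = V.valuation (1 + lam) * V.valuation x ^ 3 := by
    rw [map_mul, map_mul, map_pow, v4, one_mul]
  have t3 : V.valuation (6 * lam * x ^ 2) = V.valuation (3 : ℂ) * V.valuation x ^ 2 := by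
    rw [map_mul, map_mul, map_pow, v6, vlam, mul_one]
  have t4 : V.valuation (lam ^ 2) = 1 := by rw [map_pow, vlam, one_pow]
  have hθ : 0 < V.valuation (3 : ℂ) :=
    lt_of_le_of_ne zero_le (Ne.symm ((Valuation.ne_zero_iff _).2 (by norm_num)))
  have ha : 1 < V.valuation x := by
    by_contra h
    rw [not_lt] at h
    have e1 : lam ^ 2 = 3 * x ^ 4 - 4 * (1 + lam) * x ^ 3 + 6 * lam * x ^ 2 := by
      linear_combination -hψ
    have e2 : V.valuation (lam ^ 2) < 1 := by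
      rw [e1]
      refine V.valuation.map_add_lt (V.valuation.map_sub_lt ?_ ?_) ?_
      · rw [t1]
        exact (mul_le_of_le_one_right' (pow_le_one' h 4)).trans_lt h3
      · rw [t2]
        exact (mul_le_of_le_one_right' (pow_le_one' h 3)).trans_lt hb
      · rw [t3]
        exact (mul_le_of_le_one_right' (pow_le_one' h 2)).trans_lt h3
    rw [t4] at e2
    exact lt_irrefl _ e2
  refine ⟨ha, ?_, vlam⟩
  by_contra hne
  have h5 : 1 < V.valuation x ^ 2 * V.valuation (3 : ℂ) := lt_of_le_of_ne (hx ha) (Ne.symm hne)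
  have ha2 : 1 < V.valuation x ^ 2 := one_lt_pow₀ ha two_ne_zero
  have hpos2 : 0 < V.valuation x ^ 2 := lt_trans zero_lt_one ha2
  have e0 : V.valuation (3 : ℂ) * V.valuation x ^ 4 =
      (V.valuation (3 : ℂ) * V.valuation x ^ 2) * V.valuation x ^ 2 := by
    rw [mul_assoc, ← pow_add]
  have s3 : V.valuation (3 : ℂ) * V.valuation x ^ 2 < V.valuation (3 : ℂ) * V.valuation x ^ 4 := by
    rw [e0]
    have h6 := mul_lt_mul_of_pos_left ha2 (mul_pos hθ hpos2)
    rwa [mul_one] at h6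
  have s4 : 1 < V.valuation (3 : ℂ) * V.valuation x ^ 4 := by
    rw [mul_comm] at h5
    exact h5.trans s3
  have s2 : V.valuation (1 + lam) * V.valuation x ^ 3 <
      V.valuation (3 : ℂ) * V.valuation x ^ 4 := by
    refine lt_of_pow_lt_pow_left₀ 2 zero_le ?_
    rw [mul_pow, mul_pow, ← pow_mul, ← pow_mul]
    have hpos6 : 0 < V.valuation x ^ (3 * 2) := pow_pos (lt_trans zero_lt_one ha) _
    calc V.valuation (1 + lam) ^ 2 * V.valuation x ^ (3 * 2)
        ≤ V.valuation (3 : ℂ) * V.valuation x ^ (3 * 2) := mul_le_mul_left hl _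
      _ < (V.valuation (3 : ℂ) * V.valuation x ^ (3 * 2)) *
          (V.valuation x ^ 2 * V.valuation (3 : ℂ)) := by
            have h6 := mul_lt_mul_of_pos_left h5 (mul_pos hθ hpos6)
            rwa [mul_one] at h6
      _ = V.valuation (3 : ℂ) ^ 2 * V.valuation x ^ (4 * 2) := by
            have h7 : V.valuation x ^ (4 * 2) = V.valuation x ^ (3 * 2) * V.valuation x ^ 2 := by
              rw [← pow_add]
            rw [h7, pow_two (V.valuation (3 : ℂ))]
            ac_rfl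
  have e1 : 3 * x ^ 4 = 4 * (1 + lam) * x ^ 3 - 6 * lam * x ^ 2 + lam ^ 2 := by
    linear_combination hψ
  have e2 : V.valuation (3 * x ^ 4) < V.valuation (3 : ℂ) * V.valuation x ^ 4 := by
    rw [e1]
    refine V.valuation.map_add_lt (V.valuation.map_sub_lt ?_ ?_) ?_
    · rw [t2]; exact s2
    · rw [t3]; exact s3
    · rw [t4]; exact s4
  rw [t1] at e2
  exact lt_irrefl _ e2

/-- `℘` at `± c Y` -/
lemma wp_sign {L : PeriodPair} {Y l : ℂ} (hl : l ∈ L.lattice) {s d : ℤ} (hs : s = 1 ∨ s = -1)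
    (hd : d = 1 ∨ d = -1) : L.weierstrassP ((d : ℂ) * (s * Y + l)) = L.weierstrassP Y := by
  have hp : ∀ z : ℂ, ∀ v ∈ L.lattice, L.weierstrassP (z + v) = L.weierstrassP z :=
    fun z v hv => L.weierstrassP_add_coe z ⟨v, hv⟩
  rcases hs with rfl | rfl <;> rcases hd with rfl | rfl
  · have e : ((1 : ℤ) : ℂ) * (((1 : ℤ) : ℂ) * Y + l) = Y + l := by push_cast; ring
    rw [e, hp _ _ hl]
  · have e : ((-1 : ℤ) : ℂ) * (((1 : ℤ) : ℂ) * Y + l) = -Y + -l := by push_cast; ring
    rw [e, hp _ _ (neg_mem hl), L.weierstrassP_neg]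
  · have e : ((1 : ℤ) : ℂ) * (((-1 : ℤ) : ℂ) * Y + l) = -Y + l := by push_cast; ring
    rw [e, hp _ _ hl, L.weierstrassP_neg]
  · have e : ((-1 : ℤ) : ℂ) * (((-1 : ℤ) : ℂ) * Y + l) = Y + -l := by push_cast; ring
    rw [e, hp _ _ (neg_mem hl)]

end VSR

open VSR Pool.Agent.NST.ALT in
/-- (VSR) -/
theorem tw_VSR (hDEL : Sw_DEL) (hALT : Sw_ALT) (hACF : Sw_ACF) : Sw_VSR := by
  intro A B P V hR hP hV hT n ι R u e lam hg Y hYL hYP
  have hC : CQ A B := hR.toCQ
  obtain ⟨v3, v2, -, -, hδP, hδP2, vδ, -, -, hres, -, -⟩ := hDEL A B P V hR hP hV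
  have h3P : ((3 : ℕ) : OO A B) ∈ P := hP.mem
  have h6P : ((6 : ℕ) : OO A B) ∈ P := by
    have e6 : ((6 : ℕ) : OO A B) = 2 * ((3 : ℕ) : OO A B) := by push_cast; norm_num
    rw [e6]
    exact P.mul_mem_left _ h3P
  have hNL := R.nl R.i0
  obtain ⟨hu2, he2, -, -, -⟩ := hALT A B hC hT V v3 (R.b R.i0) (R.L R.i0) (R.om R.i0) hNL u e lam hg
  -- (a) `℘ Y ∈ RF (idl 2)`
  have h3Y : 3 * Y ∈ (R.L R.i0).lattice := by
    have := hYP _ h3P
    rwa [emb_natCast hC, Nat.cast_ofNat] at this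
  have h6Y : ((6 : ℕ) : ℂ) * Y ∈ (R.L R.i0).lattice := by
    have := hYP _ h6P
    rwa [emb_natCast hC] at this
  have hYm : (R.L R.i0).weierstrassP Y ∈ RF (idl (A := A) (B := B) 2) := by
    have halg : Algebra.IsAlgebraic ℚ
        ((RF (idl (A := A) (B := B) 2)).restrictScalars ℚ : IntermediateField ℚ ℂ) :=
      ⟨fun x => (IntermediateField.isAlgebraic_iff).2 (alg_RF hC hT two_ne_zero x.2)⟩
    have key := u_AUF ((RF (idl (A := A) (B := B) 2)).restrictScalars ℚ) halg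
      ((R.L R.i0).weierstrassP Y) (fun σ hσ => by
        have hσ' : ∀ y ∈ RF (idl (A := A) (B := B) 2), σ y = y := fun y hy => hσ y hy
        have hfix : FixK A B σ :=
          hσ' _ (IntermediateField.algebraMap_mem (RF (idl (A := A) (B := B) 2))
            (⟨wC A B, IntermediateField.mem_adjoin_simple_self ℚ (wC A B)⟩ : kk A B))
        obtain ⟨c, d, -, hcop, hact⟩ := hACF A B hC hT n ι R 6 2 (by norm_num) (by norm_num) σ
          hfix hσ'
        have hcP : c ∉ P := by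
          intro h
          apply hP.prime.ne_top
          rw [Ideal.isCoprime_iff_sup_eq] at hcop
          rw [eq_top_iff, ← hcop]
          refine sup_le ?_ ?_
          · rwa [Ideal.span_singleton_le_iff_mem]
          · rwa [Ideal.span_singleton_le_iff_mem]
        obtain ⟨hs, hsP⟩ := hres c hcP
        have h1 := ((hact.act R.i0).act Y h6Y hYL).2.1
        rw [← h1]
        have hl := hYP _ hsP
        have e1 : (d R.i0 : ℂ) * emb c * Y = (d R.i0 : ℂ) * ((wP P c : ℤ) * Y +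
            emb (c - ((wP P c : ℤ) : OO A B)) * Y) := by
          rw [emb_sub hC, emb_intCast hC]
          ring
        rw [e1]
        exact wp_sign hl hs (hact.sgn R.i0))
    exact key
  -- (b)
  have hxm : xu (R.L R.i0) u e Y ∈ RF (idl (A := A) (B := B) 2) :=
    div_mem (sub_mem hYm he2) hu2
  -- (c)
  obtain ⟨⟨N, hN⟩, -⟩ := Pool.Agent.NSR.tr_ALR A B V P hC hR.three hV h3P
  have hval : ∀ y ∈ RF (idl (A := A) (B := B) 2), y ≠ 0 →
      ∃ k : ℤ, V.valuation y = V.valuation (emb (dD A B)) ^ k := by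
    have : FiniteDimensional (kk A B) (RF (idl (A := A) (B := B) 2)) :=
      hT.fin _ (idl_ne hC two_ne_zero)
    have : IsGalois (kk A B) (RF (idl (A := A) (B := B) 2)) := hT.gal _ (idl_ne hC two_ne_zero)
    have hPne : P ≠ ⊥ := by
      rintro rfl
      rw [Ideal.mem_bot] at h3P
      have h4 := emb_natCast (A := A) (B := B) hC 3
      rw [h3P, emb_zero hC] at h4
      norm_num at h4
    refine Pool.Agent.NSR.tr_RAM A B V P (dD A B) hC hP.prime hPne hV hδP hδP2
      (RF (idl (A := A) (B := B) 2)) ?_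
    intro σ hσ
    obtain ⟨s, hs, hsσ⟩ := Pool.Agent.MUXC.CMM.ext tu_AUE hC _ σ
    have h4 := Pool.Agent.NSR.runr' A B V N hN hT 2 two_ne_zero (by norm_num) s hs (by
      intro z hz hvz
      have h5 := hσ ⟨z, hz⟩ hvz
      rw [← hsσ] at h5
      exact h5)
    ext z
    have h5 := h4 z z.2
    rw [hsσ] at h5
    exact h5
  -- (d)
  have hψ := (Pool.Agent.NSR.rtr3 (R.L R.i0) u e lam ⟨hg.u0, hg.eq⟩ Y hYL).1 h3Y
  obtain ⟨x, hx⟩ : ∃ x, x = xu (R.L R.i0) u e Y := ⟨_, rfl⟩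
  rw [← hx] at hψ hxm ⊢
  have hθ : 0 < V.valuation (3 : ℂ) :=
    lt_of_le_of_ne zero_le (Ne.symm ((Valuation.ne_zero_iff _).2 (by norm_num)))
  obtain ⟨ha, hax, vlam⟩ := dom v3 v2 hg.lam1 hψ (by
    intro ha
    have hx0 : x ≠ 0 := by
      rintro rfl
      rw [map_zero] at ha
      exact absurd ha (not_lt.2 zero_le)
    obtain ⟨k, hk⟩ := hval x hxm hx0
    have hk2 : V.valuation x ^ 2 = V.valuation (3 : ℂ) ^ k := by
      rw [hk, ← vδ, ← zpow_natCast, ← zpow_natCast, ← zpow_mul, ← zpow_mul, mul_comm]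
    have hk0 : k < 0 := by
      by_contra h
      obtain ⟨j, rfl⟩ := Int.eq_ofNat_of_zero_le (not_lt.1 h)
      have h6 : 1 < V.valuation x ^ 2 := one_lt_pow₀ ha two_ne_zero
      rw [hk2, zpow_natCast] at h6
      exact absurd (pow_le_one' v3.le j) (not_le.2 h6)
    obtain ⟨j, hj⟩ := Int.eq_ofNat_of_zero_le (show 0 ≤ -k - 1 by omega)
    have hj' : k = -((j : ℤ) + 1) := by omega
    rw [hk2, hj', zpow_neg, zpow_add₀ hθ.ne', zpow_one, zpow_natCast, mul_inv, mul_assoc,
      inv_mul_cancel₀ hθ.ne', mul_one]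
    exact (one_le_inv₀ (pow_pos hθ j)).2 (pow_le_one' v3.le j))
  refine ⟨hax, ?_⟩
  have hy2 : V.valuation (yu (R.L R.i0) u Y) ^ 2 = V.valuation x ^ 3 := by
    have h1 : yu (R.L R.i0) u Y ^ 2 = x * (x - 1) * (x - lam) := by
      rw [hx]
      exact hg.eq Y hYL
    rw [← map_pow, h1, map_mul, map_mul,
      V.valuation.map_sub_eq_of_lt_left (by rwa [map_one]),
      V.valuation.map_sub_eq_of_lt_left (by rwa [vlam])]
    rw [pow_succ, pow_two]
  have hpos : 0 < V.valuation x := lt_trans zero_lt_one ha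
  rw [ru, map_div₀, Valuation.map_neg, map_pow, ← hx, div_pow]
  have h4 : V.valuation (yu (R.L R.i0) u Y) ^ 4 = V.valuation x ^ 6 := by
    have h5 : V.valuation (yu (R.L R.i0) u Y) ^ 4 =
        (V.valuation (yu (R.L R.i0) u Y) ^ 2) ^ 2 := by rw [← pow_mul]
    rw [h5, hy2, ← pow_mul]
  rw [h4, ← pow_mul, div_eq_iff (pow_ne_zero _ hpos.ne')]
  have h6 : V.valuation x ^ (2 * 4) = V.valuation x ^ 2 * V.valuation x ^ 6 := by rw [← pow_add]
  rw [h6, ← mul_assoc, mul_comm (V.valuation (3 : ℂ)), hax, one_mul]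

end

end Pool.Agent.NSTR
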