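import Pool.Agent.NS.TAll
import Pool.Agent.NS.RN_RFINR
import Pool.Agent.NS.TR_DEL
import Pool.Agent.NS.TR_UNF
import Pool.Agent.NS.TR_ALT
import Pool.Agent.NS.TR_ACF
import Pool.Agent.NS.TR_VSR
import Pool.Agent.NS.TR_SGU
import Pool.Agent.NS.TR_TAU
import Pool.Agent.NS.TR_TYF

/-!
# MUX-NS, block TR put together (helper87): TYPE, `3` ramified
-/

set_option autoImplicit false

namespace Pool.Agent.NSTR

open Pool.Agent.MUXY Pool.Agent.NSRD Pool.Agent.NST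

theorem w_DEL : Sw_DEL := tw_DEL
theorem w_ALT : Sw_ALT := tw_ALT
theorem w_ACF : Sw_ACF := tw_ACF y_MUU y_BRI
theorem w_VSR : Sw_VSR := tw_VSR w_DEL w_ALT w_ACF
theorem w_UNF : Sw_UNF := tw_UNF w_DEL
theorem w_SGU : Sw_SGU := tw_SGU w_DEL
theorem w_TAU : Sw_TAU := tw_TAU w_DEL w_ALT w_VSR

/-- TYPE, ramified case -/
theorem w_TYF : Sq_TYF :=
  tw_TYF rfinr w_DEL w_UNF w_ALT w_ACF w_SGU w_TAU x_RTU x_GLC x_FGP x_FGV x_ALV x_VAK

end Pool.Agent.NSTR
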