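import Pool.Agent.NS.GRAll
import Pool.Agent.NS.TRAll
import Pool.Agent.NS.IRAll
import Pool.Agent.NS.HGR

/-!
# MUX-NS, `3` ramified (helper87): blocks GR, TR, HR, IR together, no hypotheses
-/

set_option autoImplicit false

namespace Pool.Agent.NSIR

open Pool.Agent.NSRD Pool.Agent.NSGR Pool.Agent.NSTR

/-- the character sums -/
theorem q_HFIN : Sq_HFIN :=
  Pool.Agent.NSHR.tq_HFIN v_GQR w_TYF v_TYI v_RLR v_QB3 Pool.Agent.MUXY.y_ALP
    Pool.Agent.MUXY.y_COP v_LGR

/-- the result of block IR -/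
theorem q_INP : Sp_INP := p_INP q_HFIN

end Pool.Agent.NSIR
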