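import Pool.Agent.NS.HGR_Chr
import Pool.Agent.NS.StGR
import Pool.Agent.MUX.HY_QSX
import Pool.Agent.MUX.HY_HFX
import Pool.Agent.MUX.HY_BRG

/-!
# MUX-NS, ramified case, glue (helper87): the quantity of the final statement as a character sum

The sum `STX .. (4^j)` sees only the classes with `N b_i ≡ 1` modulo 3, the sum `STX .. (-4^j)` only those with `N b_i ≡ -1`.
-/

set_option autoImplicit false

namespace Pool.Agent.NSHR

open _root_.MU3 Pool.Agent.MU3A Pool.Agent.MU3B Pool.Agent.MU3F Pool.Agent.MUX Pool.Agent.MUXH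
  Pool.Agent.MUXHY Pool.Agent.MuSym Pool.Agent.NS Pool.Agent.NSRD Pool.Agent.NSGR OnePoint

noncomputable section

variable {A B : ℤ}

/-- the sums over the other genus vanish -/
theorem SnX_zero (hQ : Sv_QB3) {P : Ideal (OO A B)} {V : ValuationSubring ℂ} {f : ℕ}
    (H : SetR A B P V f) {e : OO A B → ℂ} (he : IsEI (idl (A := A) (B := B) (3 * f)) e) {ι : Type}
    (R : Reps A B (3 * f) ι) (m M : ℕ) (hM : 3 ∣ M) (i : ι) (c : ℤ)
    (hc : ¬ (3 : ℤ) ∣ (nI (R.b i) : ℤ) - c) : SnX R m M e i c = 0 := by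
  unfold SnX
  have h0 : ∀ x : OO A B, (if (M : ℤ) ∣ nm x * nI (R.b i) - c then
      e x * ee (R.L i) (pt R m i x) else 0) = 0 := by
    intro x
    split_ifs with h
    · by_cases hx : e x = 0
      · rw [hx, zero_mul]
      · exfalso
        obtain ⟨h1, -, -⟩ := hQ A B P V f H e he ⊤ (by
          intro h2
          have h3 := (Ideal.eq_top_iff_one (I := (⊤ : Ideal (OO A B)))).1 rfl
          rw [h2, Ideal.mem_bot] at h3
          have h4 := congrArg QuadraticAlgebra.re h3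
          rw [QuadraticAlgebra.re_one, QuadraticAlgebra.re_zero] at h4
          omega) (by
            have h5 : nI (⊤ : Ideal (OO A B)) = 1 := by
              have := R.cop R.i0
              unfold nI
              simp
            rw [h5]
            exact Nat.coprime_one_left _) x trivial hx
        apply hc
        have h2 : (3 : ℤ) ∣ nm x * nI (R.b i) - c := by
          refine dvd_trans ?_ h
          exact_mod_cast hM
        have h3 : ((nI (R.b i) : ℕ) : ℤ) - c = (nm x * nI (R.b i) - c) -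
            (nm x - 1) * nI (R.b i) := by ring
        rw [h3]
        exact dvd_sub h2 (Dvd.dvd.mul_right h1 _)
    · rfl
  have h1 : sumMod ((m : ℕ) : OO A B) (fun x => if (M : ℤ) ∣ nm x * nI (R.b i) - c then
      e x * ee (R.L i) (pt R m i x) else 0) = 0 := by
    unfold sumMod
    exact finsum_eq_zero_of_forall_eq_zero fun q => h0 _
  rw [h1, mul_zero]

/-- splitting of `STX`, for `c ≡ 1` modulo 3 -/
theorem STX_one (hQ : Sv_QB3) {P : Ideal (OO A B)} {V : ValuationSubring ℂ} {f : ℕ}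
    (H : SetR A B P V f) {e : OO A B → ℂ} (he : IsEI (idl (A := A) (B := B) (3 * f)) e) {ι : Type}
    [Fintype ι] (R : Reps A B (3 * f) ι) (m M a : ℕ) (hM : 3 ∣ M) (ha : (3 : ℤ) ∣ (a : ℤ) - 1)
    (kk : ι → ℂ) (c : ℤ) (hc : (3 : ℤ) ∣ c - 1) :
    STX R m M a e (kkp R kk) c = STX R m M a e kk c ∧ STX R m M a e (kkm R kk) c = 0 := by
  have hac : (3 : ℤ) ∣ (a : ℤ) ^ 2 * c - 1 := by
    have : (a : ℤ) ^ 2 * c - 1 = ((a : ℤ) - 1) * ((a + 1) * c) + (c - 1) := by ring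
    rw [this]
    exact dvd_add (Dvd.dvd.mul_right ha _) hc
  have key : ∀ i, ¬ (3 : ℤ) ∣ (nI (R.b i) : ℤ) - 1 → SnX R m M e i ((a : ℤ) ^ 2 * c) = 0 ∧
      SnX R m M e i c = 0 := by
    intro i hi
    refine ⟨SnX_zero hQ H he R m M hM i _ fun h => hi ?_,
      SnX_zero hQ H he R m M hM i _ fun h => hi ?_⟩
    · have := dvd_add h hac
      rwa [show (nI (R.b i) : ℤ) - (a : ℤ) ^ 2 * c + ((a : ℤ) ^ 2 * c - 1) =
        (nI (R.b i) : ℤ) - 1 by ring] at this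
    · have := dvd_add h hc
      rwa [show (nI (R.b i) : ℤ) - c + (c - 1) = (nI (R.b i) : ℤ) - 1 by ring] at this
  constructor
  · unfold STX
    refine Finset.sum_congr rfl fun i _ => ?_
    unfold kkp
    split_ifs with h
    · rfl
    · obtain ⟨h1, h2⟩ := key i h
      rw [h1, h2]
      ring
  · unfold STX
    refine Finset.sum_eq_zero fun i _ => ?_
    unfold kkm
    split_ifs with h
    · ring
    · obtain ⟨h1, h2⟩ := key i h
      rw [h1, h2]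
      ring

/-- splitting of `STX`, for `c ≡ -1` modulo 3 -/
theorem STX_neg (hQ : Sv_QB3) {P : Ideal (OO A B)} {V : ValuationSubring ℂ} {f : ℕ}
    (H : SetR A B P V f) {e : OO A B → ℂ} (he : IsEI (idl (A := A) (B := B) (3 * f)) e) {ι : Type}
    [Fintype ι] (R : Reps A B (3 * f) ι) (m M a : ℕ) (hM : 3 ∣ M) (ha : (3 : ℤ) ∣ (a : ℤ) - 1)
    (kk : ι → ℂ) (c : ℤ) (hc : (3 : ℤ) ∣ c + 1) :
    STX R m M a e (kkm R kk) c = STX R m M a e kk c ∧ STX R m M a e (kkp R kk) c = 0 := by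
  have hac : (3 : ℤ) ∣ (a : ℤ) ^ 2 * c + 1 := by
    have : (a : ℤ) ^ 2 * c + 1 = ((a : ℤ) - 1) * ((a + 1) * c) + (c + 1) := by ring
    rw [this]
    exact dvd_add (Dvd.dvd.mul_right ha _) hc
  have key : ∀ i, (3 : ℤ) ∣ (nI (R.b i) : ℤ) - 1 → SnX R m M e i ((a : ℤ) ^ 2 * c) = 0 ∧
      SnX R m M e i c = 0 := by
    intro i hi
    have h3 : ∀ c' : ℤ, (3 : ℤ) ∣ c' + 1 → ¬ (3 : ℤ) ∣ (nI (R.b i) : ℤ) - c' := by
      intro c' h1 h2
      have h4 := dvd_add h1 h2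
      have h5 := dvd_sub h4 hi
      rw [show c' + 1 + ((nI (R.b i) : ℤ) - c') - ((nI (R.b i) : ℤ) - 1) = 2 by ring] at h5
      omega
    exact ⟨SnX_zero hQ H he R m M hM i _ (h3 _ hac), SnX_zero hQ H he R m M hM i _ (h3 _ hc)⟩
  constructor
  · unfold STX
    refine Finset.sum_congr rfl fun i _ => ?_
    unfold kkm
    split_ifs with h
    · obtain ⟨h1, h2⟩ := key i h
      rw [h1, h2]
      ring
    · rfl
  · unfold STX
    refine Finset.sum_eq_zero fun i _ => ?_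
    unfold kkp
    split_ifs with h
    · obtain ⟨h1, h2⟩ := key i h
      rw [h1, h2]
      ring
    · ring

/-- `comb` is additive -/
lemma comb_lin (a g : ℤ) (N : ℕ) (F G : ℤ → ℂ) (s t : ℂ) (b : ℤ) :
    comb a g N (fun b => s * F b + t * G b) b = s * comb a g N F b + t * comb a g N G b := by
  unfold comb
  rw [Finset.mul_sum, Finset.mul_sum, ← Finset.sum_add_distrib]
  refine Finset.sum_congr rfl fun j _ => ?_
  ring

/-- the quantity of the final statement as a character sum -/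
theorem qsr (hQS : Sy_QSX) (hQ : Sv_QB3) {P : Ideal (OO A B)} {V : ValuationSubring ℂ} {f : ℕ}
    (H : SetR A B P V f) {e : OO A B → ℂ} (he : IsEI (idl (A := A) (B := B) (3 * f)) e) {ι : Type}
    [Fintype ι] (R : Reps A B (3 * f) ι) (kk : ι → ℂ) (m : ℕ) :
    ∑ j ∈ Finset.range 2, (-1 : ℂ) ^ (1 - j) *
        (STX R (lvX 3 f m) (3 ^ (m + 1)) (aX 3 f) e kk (4 ^ j) +
          STX R (lvX 3 f m) (3 ^ (m + 1)) (aX 3 f) e kk (-(4 ^ j))) =
      2 * f * ∑ b ∈ Finset.range (3 ^ (m + 1)),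
        ex (-((4 : ℚ) ^ 1 * (aX 3 f : ℚ) ^ 2) / ((3 ^ (m + 1) : ℕ) : ℚ)) ^ b *
          comb (aX 3 f) 4 1 (fun b => PP R ⊤ e (kkp R kk) 0 ∞
              ((b / ((3 ^ (m + 1) : ℕ) : ℚ) : ℚ) : OnePoint ℚ) +
            PP R ⊤ e (kkm R kk) 0 (mob (-1) 0 0 1 ∞)
              (mob (-1) 0 0 1 ((b / ((3 ^ (m + 1) : ℕ) : ℚ) : ℚ) : OnePoint ℚ))) b := by
  have hcq : CQ A B := H.case.toCQ
  have h3f : ((3 * f : ℕ) : OO A B) ∈ idl (A := A) (B := B) (3 * f) :=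
    Ideal.mem_span_singleton_self _
  have hM : q0 3 * 3 ^ m = 3 ^ (m + 1) := by
    unfold q0
    norm_num
    ring
  have hq3 : (q0 3 : ℤ) = 3 := by
    unfold q0
    norm_num
  have hq3' : (q0 3 : ℚ) = 3 := by
    unfold q0
    norm_num
  have e4 : (1 + 3 : ℤ) = 4 := by norm_num
  have e4' : (1 + 3 : ℚ) = 4 := by norm_num
  have haz : ((aX 3 f : ℕ) : ℤ) - 1 = 3 * (2 * f) := by
    unfold aX q0
    push_cast
    norm_num
    ring
  have ha3 : (3 : ℤ) ∣ ((aX 3 f : ℕ) : ℤ) - 1 := by rw [haz]; exact Dvd.intro _ rfl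
  have h3M : 3 ∣ 3 ^ (m + 1) := dvd_pow_self 3 (Nat.succ_ne_zero m)
  have Q := fun (k : ι → ℂ) (s : ℤ) => hQS 3 Nat.prime_three A B hcq ⊤ f H.f0 ι inferInstance R _ e
    he h3f k s 1 m
  rw [hM, hq3, hq3', e4, e4'] at Q
  have c1 : ∀ j : ℕ, (3 : ℤ) ∣ 4 ^ j - 1 := by
    intro j
    have := sub_dvd_pow_sub_pow (4 : ℤ) 1 j
    rw [one_pow] at this
    exact dvd_trans (by norm_num) this
  have c2 : ∀ j : ℕ, (3 : ℤ) ∣ -4 ^ j + 1 := by
    intro j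
    have := (dvd_neg).2 (c1 j)
    rwa [neg_sub, sub_eq_neg_add] at this
  have P1 := fun j => STX_one hQ H he R (lvX 3 f m) (3 ^ (m + 1)) (aX 3 f) h3M ha3 kk (4 ^ j) (c1 j)
  have P2 := fun j => STX_neg hQ H he R (lvX 3 f m) (3 ^ (m + 1)) (aX 3 f) h3M ha3 kk (-4 ^ j) (c2 j)
  set ζ : ℂ := ex (-((4 : ℚ) ^ 1 * (aX 3 f : ℚ) ^ 2) / ((3 ^ (m + 1) : ℕ) : ℚ)) with hζ
  -- the four sums
  have A1 := Q (kkp R kk) 1
  have A2 := Q (kkp R kk) (-1)
  have B1 := Q (kkm R kk) 1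
  have B2 := Q (kkm R kk) (-1)
  have L1 : ∀ s : ℤ, ∑ j ∈ Finset.range (1 + 1), ((-1 : ℂ) ^ (1 - j) * ((1 : ℕ).choose j : ℂ)) *
      (STX R (lvX 3 f m) (3 ^ (m + 1)) (aX 3 f) e (kkp R kk) (4 ^ j) +
        s * STX R (lvX 3 f m) (3 ^ (m + 1)) (aX 3 f) e (kkp R kk) (-4 ^ j)) =
      ∑ j ∈ Finset.range 2, (-1 : ℂ) ^ (1 - j) *
        STX R (lvX 3 f m) (3 ^ (m + 1)) (aX 3 f) e kk (4 ^ j) := by
    intro s
    refine Finset.sum_congr rfl fun j hj => ?_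
    rw [(P1 j).1, (P2 j).2]
    have hj2 : j = 0 ∨ j = 1 := by
      have := Finset.mem_range.1 hj
      omega
    rcases hj2 with rfl | rfl <;> simp
  have L2 : ∀ s : ℤ, ∑ j ∈ Finset.range (1 + 1), ((-1 : ℂ) ^ (1 - j) * ((1 : ℕ).choose j : ℂ)) *
      (STX R (lvX 3 f m) (3 ^ (m + 1)) (aX 3 f) e (kkm R kk) (4 ^ j) +
        s * STX R (lvX 3 f m) (3 ^ (m + 1)) (aX 3 f) e (kkm R kk) (-4 ^ j)) =
      s * ∑ j ∈ Finset.range 2, (-1 : ℂ) ^ (1 - j) *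
        STX R (lvX 3 f m) (3 ^ (m + 1)) (aX 3 f) e kk (-4 ^ j) := by
    intro s
    rw [Finset.mul_sum]
    refine Finset.sum_congr rfl fun j hj => ?_
    rw [(P1 j).2, (P2 j).1]
    have hj2 : j = 0 ∨ j = 1 := by
      have := Finset.mem_range.1 hj
      omega
    rcases hj2 with rfl | rfl <;> simp
  rw [L1] at A1 A2
  rw [L2] at B1 B2
  have E : ∀ b : ℕ, comb (aX 3 f) 4 1 (fun b => PP R ⊤ e (kkp R kk) 0 ∞
              ((b / ((3 ^ (m + 1) : ℕ) : ℚ) : ℚ) : OnePoint ℚ) +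
            PP R ⊤ e (kkm R kk) 0 (mob (-1) 0 0 1 ∞)
              (mob (-1) 0 0 1 ((b / ((3 ^ (m + 1) : ℕ) : ℚ) : ℚ) : OnePoint ℚ))) b =
      (1 / 2) * (comb (aX 3 f) 4 1 (fun b => sgnPart (((1 : ℤ)) : ℂ) (PP R ⊤ e (kkp R kk) 0) ∞
            ((b / ((3 ^ (m + 1) : ℕ) : ℚ) : ℚ) : OnePoint ℚ)) b +
        comb (aX 3 f) 4 1 (fun b => sgnPart (((-1 : ℤ)) : ℂ) (PP R ⊤ e (kkp R kk) 0) ∞
            ((b / ((3 ^ (m + 1) : ℕ) : ℚ) : ℚ) : OnePoint ℚ)) b) +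
      (1 / 2) * (comb (aX 3 f) 4 1 (fun b => sgnPart (((1 : ℤ)) : ℂ) (PP R ⊤ e (kkm R kk) 0) ∞
            ((b / ((3 ^ (m + 1) : ℕ) : ℚ) : ℚ) : OnePoint ℚ)) b -
        comb (aX 3 f) 4 1 (fun b => sgnPart (((-1 : ℤ)) : ℂ) (PP R ⊤ e (kkm R kk) 0) ∞
            ((b / ((3 ^ (m + 1) : ℕ) : ℚ) : ℚ) : OnePoint ℚ)) b) := by
    intro b
    unfold comb sgnPart
    rw [← Finset.sum_add_distrib, ← Finset.sum_sub_distrib, Finset.mul_sum, Finset.mul_sum,
      ← Finset.sum_add_distrib]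
    refine Finset.sum_congr rfl fun j _ => ?_
    push_cast
    ring
  have hL : ∑ j ∈ Finset.range 2, (-1 : ℂ) ^ (1 - j) *
        (STX R (lvX 3 f m) (3 ^ (m + 1)) (aX 3 f) e kk (4 ^ j) +
          STX R (lvX 3 f m) (3 ^ (m + 1)) (aX 3 f) e kk (-(4 ^ j))) =
      ∑ j ∈ Finset.range 2, (-1 : ℂ) ^ (1 - j) *
        STX R (lvX 3 f m) (3 ^ (m + 1)) (aX 3 f) e kk (4 ^ j) +
      ∑ j ∈ Finset.range 2, (-1 : ℂ) ^ (1 - j) *
        STX R (lvX 3 f m) (3 ^ (m + 1)) (aX 3 f) e kk (-4 ^ j) := by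
    rw [← Finset.sum_add_distrib]
    refine Finset.sum_congr rfl fun j _ => ?_
    ring
  rw [hL]
  simp only [E, mul_add, Finset.sum_add_distrib, mul_sub, Finset.sum_sub_distrib]
  have hs : ∀ G : ℕ → ℂ, ∑ b ∈ Finset.range (3 ^ (m + 1)), ζ ^ b * (1 / 2 * G b) =
      (1 / 2) * ∑ b ∈ Finset.range (3 ^ (m + 1)), ζ ^ b * G b := by
    intro G
    rw [Finset.mul_sum]
    refine Finset.sum_congr rfl fun b _ => ?_
    ring
  rw [hs, hs, hs, hs]
  push_cast at A1 A2 B1 B2 ⊢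
  linear_combination (1 / 2) * A1 + (1 / 2) * A2 + (1 / 2) * B1 - (1 / 2) * B2

end

end Pool.Agent.NSHR
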