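import Pool.Agent.NS.StRN
import Pool.Agent.MUX.XLib

/-!
# MUX-NS, block RN, module RFIN (helper58): the final statement of the block
-/

set_option autoImplicit false

open WeierstrassCurve Polynomial

namespace Pool.Agent.NSR

open _root_.MU3 Pool.Agent.MU3A Pool.Agent.MU3B Pool.Agent.RI Pool.Agent.MUX Pool.Agent.MUXU
open Pool.Agent.NS

noncomputable section

theorem xn_mem_two {A B : ℤ} (hc : CQ A B) {b : Ideal (OO A B)} {L : PeriodPair} {om : ℂ}
    (h : IsNL b L om) {w : ℂ} (hw : w ∉ L.lattice) (hw2 : 2 * w ∈ L.lattice) :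
    L.weierstrassP w ∈ RF (idl (A := A) (B := B) 2) := by
  have h1 : xn L w ∈ RF (idl (A := A) (B := B) 2) := by
    refine IntermediateField.subset_adjoin _ _ ⟨b, L, om, h, Or.inr ⟨w, ?_, hw, rfl⟩⟩
    intro x hx
    obtain ⟨y, rfl⟩ := Ideal.mem_span_singleton'.1 hx
    have h2 : emb (y * ((2 : ℕ) : OO A B)) = emb y * 2 := by
      rw [emb_mul hc]
      congr 1
      have := map_natCast (Pool.Agent.MUX.embHom hc) 2
      rw [Pool.Agent.MUX.embHom_apply] at this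
      rw [this]
      norm_num
    rw [h2, mul_assoc]
    exact h.toIsLI.hasCM hc y _ hw2
  have h3 : L.weierstrassP w = xn L w + ((1 / 12 : ℚ) : ℂ) := by
    unfold xn
    push_cast
    ring
  rw [h3]
  refine add_mem h1 ?_
  exact SubfieldClass.ratCast_mem _ _

theorem tr_RFIN (h1 : Sr_ALP) (h2 : Sr_HPD) (h3 : Sr_RED) (h4 : Sr_UNR) : Sn_RFIN := by
  intro A B V hI hV hT
  obtain ⟨⟨N, hN⟩, hal⟩ := h1 A B V hI hV
  refine ⟨fun b L om hL => ?_, fun f hf0 hf3 σ hσ hin y hy => ?_⟩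
  · obtain ⟨w₁, w₂, w₃, u, ⟨a1, a2⟩, ⟨b1, b2⟩, ⟨c1, c2⟩, hne, hu, hleg, hv⟩ := h2 V L
    have hred := (h3 A B V N hN b L om hL.toIsLI _ _ _ hleg hv).1
    rw [hal, mul_one] at hred
    have m1 := xn_mem_two hN.cq hL a1 a2
    have m2 := xn_mem_two hN.cq hL b1 b2
    have m3 := xn_mem_two hN.cq hL c1 c2
    refine ⟨u, _, _, ⟨hleg.u0, hleg.eq, hred⟩, ?_, m1, ?_⟩
    · rw [hu]
      exact sub_mem m2 m1
    · exact div_mem (sub_mem m3 m1) (sub_mem m2 m1)
  · refine h4 A B V N hN hT f hf0 hf3 σ hσ (fun y hy hyv => ?_) y hy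
    rw [← ValuationSubring.mem_nonunits_iff]
    exact hin y hy ((ValuationSubring.valuation_le_one_iff _ _).1 hyv)

end

end Pool.Agent.NSR
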