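import Pool.Agent.NS.Y_Sheet

/-!
# Block Y (KEY0), part 2: the function `h` and its equivariance (helper6)
-/

set_option autoImplicit false

namespace Pool.Agent.NSY

open OnePoint Pool.Agent.MuSym Pool.Agent.MuW2

variable {M : Type} [AddCommGroup M] {p N r n0 : ℕ} {Φ : OnePoint ℚ → OnePoint ℚ → M}

/-- the denominator of `x` is prime to `N` -/
def Dm (N : ℕ) (x : ℚ) : Prop := ∃ u v : ℤ, IsCoprime v (N : ℤ) ∧ x = (u : ℚ) / v

lemma ne_of_cop {N : ℕ} (hN : 1 < N) {v : ℤ} (h : IsCoprime v (N : ℤ)) : v ≠ 0 := by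
  rintro rfl
  have h1 : IsUnit (N : ℤ) := isCoprime_zero_left.mp h
  rw [Int.isUnit_iff] at h1
  omega

lemma cop_p (hpN : p.Coprime N) (n : ℕ) : IsCoprime ((p : ℤ) ^ n) (N : ℤ) :=
  (Nat.isCoprime_iff_coprime.mpr hpN).pow_left

lemma int_form (hp : p.Prime) {x : ℤ} (hx : x ≠ 0) :
    ∃ (n : ℕ) (y : ℤ), ¬ (p : ℤ) ∣ y ∧ x = (p : ℤ) ^ n * y := by
  have hfin : FiniteMultiplicity (p : ℤ) x := by
    apply Int.finiteMultiplicity_iff.mpr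
    exact ⟨by simpa using hp.ne_one, hx⟩
  obtain ⟨m, hm1, hm2⟩ := hfin.exists_eq_pow_mul_and_not_dvd
  exact ⟨_, m, hm2, hm1⟩

/-- reduced form -/
lemma Dm.form (hp : p.Prime) {x : ℚ} (h : Dm N x) : ∃ (B : ℤ) (n : ℕ) (D : ℤ), D ≠ 0 ∧
    ¬ (p : ℤ) ∣ D ∧ IsCoprime D (N : ℤ) ∧ IsCoprime B ((p : ℤ) ^ n * D) ∧
    x = (B : ℚ) / ((p : ℚ) ^ n * D) := by
  obtain ⟨u, v, hv, rfl⟩ := h
  obtain ⟨x, hx⟩ : ∃ x : ℚ, x = (u : ℚ) / v := ⟨_, rfl⟩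
  rw [← hx]
  have hden : (x.den : ℤ) ≠ 0 := by exact_mod_cast x.den_ne_zero
  obtain ⟨n, D, hD, hDD⟩ := int_form hp hden
  have hdv : (x.den : ℤ) ∣ v := by
    rw [hx, ← Rat.divInt_eq_div]
    exact Rat.den_dvd u v
  have hD0 : D ≠ 0 := by
    rintro rfl
    exact hD (dvd_zero _)
  refine ⟨x.num, n, D, hD0, hD, ?_, ?_, ?_⟩
  · have h1 : D ∣ v := by
      refine dvd_trans ?_ hdv
      rw [hDD]
      exact dvd_mul_left _ _
    exact hv.of_isCoprime_of_dvd_left h1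
  · rw [← hDD]
    exact x.isCoprime_num_den
  · have h2 : ((p : ℚ) ^ n * D) = x.den := by
      have : ((x.den : ℤ) : ℚ) = (((p : ℤ) ^ n * D : ℤ) : ℚ) := by rw [hDD]
      push_cast at this
      rw [this]
    rw [h2]
    exact (Rat.num_div_den x).symm

lemma Dm.add (hp : p.Prime) (hpN : p.Coprime N) {x : ℚ} (h : Dm N x) (hN : 1 < N) (e : ℤ) (n : ℕ) :
    Dm N (x + e / p ^ n) := by
  obtain ⟨u, v, hv, rfl⟩ := h
  refine ⟨u * (p : ℤ) ^ n + e * v, v * (p : ℤ) ^ n, hv.mul_left (cop_p hpN n), ?_⟩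
  have h1 : (p : ℚ) ≠ 0 := by exact_mod_cast hp.ne_zero
  have h2 : (v : ℚ) ≠ 0 := by exact_mod_cast ne_of_cop hN hv
  push_cast
  field_simp

/-- existence of a sheet -/
lemma exists_sheet (hp : p.Prime) (hpN : p.Coprime N) (i : ℕ) {b d : ℤ} (hbd : IsCoprime b d)
    (hpd : ¬ (p : ℤ) ∣ d) (hdN : IsCoprime d (N : ℤ)) {e : ℤ} (he : ¬ (p : ℤ) ∣ e) {n : ℕ}
    (hn : 0 < n) : ∃ (a c m : ℤ) (J : ℕ), Sheet p N i J a b c d m ∧ n ≤ J ∧
      (p : ℤ) ^ n ∣ m - e := by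
  have hpp : Prime (p : ℤ) := Nat.prime_iff_prime_int.mp hp
  have hcop : ∀ {x : ℤ}, ¬ (p : ℤ) ∣ x → ∀ k : ℕ, IsCoprime x ((p : ℤ) ^ k) := fun h k =>
    (isCoprime_natCast_of_not_dvd hp h).pow_right
  have hpNp : ¬ (p : ℤ) ∣ N := not_dvd_level' hp hpN
  -- inverses
  obtain ⟨x1, hx1⟩ := exists_inverse (m := d) (e := (p : ℤ) ^ i * N * b)
    (((hcop hpd i).symm.mul_left hdN.symm).mul_left hbd)
  obtain ⟨x2, hx2⟩ := exists_inverse (m := (p : ℤ) ^ n) (e := (N : ℤ) * d * e)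
    (((hcop hpNp n).mul_left (hcop hpd n)).mul_left (hcop he n))
  obtain ⟨c0, hc1, hc2⟩ := crt (hcop hpd n) (-x1) (-x2)
  have h1 : d ∣ (p : ℤ) ^ i * (N * c0) * b + 1 := by
    have : (p : ℤ) ^ i * (N * c0) * b + 1 =
        (c0 - -x1) * ((p : ℤ) ^ i * N * b) - (x1 * ((p : ℤ) ^ i * N * b) - 1) := by ring
    rw [this]
    exact dvd_sub (hc1.mul_right _) hx1
  have h2 : (p : ℤ) ^ n ∣ (N * c0) * d * e + 1 := by
    have : (N * c0) * d * e + 1 =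
        (c0 - -x2) * ((N : ℤ) * d * e) - (x2 * ((N : ℤ) * d * e) - 1) := by ring
    rw [this]
    exact dvd_sub (hc2.mul_right _) hx2
  obtain ⟨c, hc⟩ : ∃ c : ℤ, c = N * c0 := ⟨_, rfl⟩
  rw [← hc] at h1 h2
  have hpn : (p : ℤ) ∣ (p : ℤ) ^ n := dvd_pow_self _ (by omega)
  have hpc : ¬ (p : ℤ) ∣ c := by
    intro h
    have h3 := hpn.trans h2
    have h4 : (p : ℤ) ∣ 1 := (dvd_add_right ((h.mul_right d).mul_right e)).mp h3
    exact hpp.not_isUnit (isUnit_of_dvd_one h4)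
  obtain ⟨a, ha⟩ := h1
  obtain ⟨J0, hJ0, hJd⟩ := exists_order hp (m := c * d) (fun h => (hpp.dvd_or_dvd h).elim hpc hpd)
  obtain ⟨m, hm⟩ := dvd_pow_mul_sub hJd n
  have hJn : n ≤ J0 * n := Nat.le_mul_of_pos_left n hJ0
  refine ⟨a, c, m, J0 * n, ⟨by linear_combination -ha, ⟨c0, hc⟩, hpc, hpd, hm.symm⟩, hJn, ?_⟩
  have h5 : (p : ℤ) ^ n ∣ c * d * (m - e) := by
    have : c * d * (m - e) = (p : ℤ) ^ (J0 * n) - (c * d * e + 1) := by linear_combination -hm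
    rw [this]
    exact dvd_sub (pow_dvd_pow _ hJn) h2
  exact ((hcop hpc n).mul_left (hcop hpd n)).symm.dvd_of_dvd_mul_left h5

lemma Sheet.value (K : Key p N r n0 Φ) {i J : ℕ} {a b c d m : ℤ} (hr : r ≤ i) (hn0 : n0 ≤ i)
    (S : Sheet p N i J a b c d m) {n : ℕ} (hn : i < n) (hnJ : n ≤ J) {e : ℤ}
    (hm : (p : ℤ) ^ n ∣ m - e) :
    ff Φ ((b : ℚ) / d + e / p ^ n) = ff Φ ((a : ℚ) / ((p : ℚ) ^ i * c)) := by
  have hpQ : (p : ℚ) ≠ 0 := by exact_mod_cast K.hp.ne_zero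
  have hJ : 0 < J := by omega
  have h1 := S.main K hr hn0 hJ (p ^ (J + i - n)) (Nat.one_le_pow _ _ K.hp.pos)
    (Nat.pow_lt_pow_right K.hp.one_lt (by omega))
  rw [← h1]
  obtain ⟨q, hq⟩ := hm
  rw [← K.per ((b : ℚ) / d + e / p ^ n) q]
  congr 1
  have hmq : (m : ℚ) = e + p ^ n * q := by
    have : ((m : ℤ) : ℚ) = ((e + (p : ℤ) ^ n * q : ℤ) : ℚ) := by
      congr 1
      linear_combination hq
    push_cast at this
    exact this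
  rw [hmq]
  have h2 : (p : ℚ) ^ (J + i) = p ^ (J + i - n) * p ^ n := by
    rw [← pow_add]
    congr 1
    omega
  rw [h2]
  push_cast
  field_simp
  ring

lemma Key.uniq (K : Key p N r n0 Φ) {i : ℕ} (hr : r ≤ i) {a c a' c' b d : ℤ} (hc : c ≠ 0)
    (hc' : c' ≠ 0) (hd : d ≠ 0)
    (h1 : a * d - (p : ℤ) ^ i * c * b = 1) (h2 : a' * d - (p : ℤ) ^ i * c' * b = 1)
    (hN : (N : ℤ) ∣ c) (hN' : (N : ℤ) ∣ c') :
    ff Φ ((a : ℚ) / ((p : ℚ) ^ i * c)) = ff Φ ((a' : ℚ) / ((p : ℚ) ^ i * c')) := by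
  have hpQ : (p : ℚ) ≠ 0 := by exact_mod_cast K.hp.ne_zero
  have hcQ : (c : ℚ) ≠ 0 := by exact_mod_cast hc
  have hcQ' : (c' : ℚ) ≠ 0 := by exact_mod_cast hc'
  have hdQ : (d : ℚ) ≠ 0 := by exact_mod_cast hd
  have e1 : (a : ℚ) * d - (p : ℚ) ^ i * c * b = 1 := by exact_mod_cast h1
  have e2 : (a' : ℚ) * d - (p : ℚ) ^ i * c' * b = 1 := by exact_mod_cast h2
  have hri : (p : ℤ) ^ r ∣ (p : ℤ) ^ i := pow_dvd_pow _ hr
  have hcc : (N : ℤ) ∣ c' - c := dvd_sub hN' hN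
  have h3 := K.inv (a' * d - (p : ℤ) ^ i * c * b) (-(a' * b) + b * a)
    ((p : ℤ) ^ i * c' * d - d * ((p : ℤ) ^ i * c)) (-((p : ℤ) ^ i * c' * b) + d * a)
    (by linear_combination (a' * d - (p : ℤ) ^ i * c' * b) * h1 + h2)
    (by
      rw [show (p : ℤ) ^ i * c' * d - d * ((p : ℤ) ^ i * c) = (p : ℤ) ^ i * ((c' - c) * d) by ring]
      exact mul_dvd_mul hri (hcc.mul_right _))
    (by
      rw [show -((p : ℤ) ^ i * c' * b) + d * a - 1 = (p : ℤ) ^ i * ((c' - c) * (-b)) by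
        linear_combination h1]
      exact mul_dvd_mul hri (hcc.mul_right _))
    (((a : ℚ) / ((p : ℚ) ^ i * c) : ℚ) : OnePoint ℚ) (((b : ℚ) / d : ℚ) : OnePoint ℚ)
  have n1 : (((p : ℤ) ^ i * c' * d - d * ((p : ℤ) ^ i * c) : ℤ) : ℚ) * (a / ((p : ℚ) ^ i * c)) +
      ((-((p : ℤ) ^ i * c' * b) + d * a : ℤ) : ℚ) = c' / c := by
    push_cast
    field_simp
    linear_combination ((c' : ℚ)) * e1
  have n2 : (((p : ℤ) ^ i * c' * d - d * ((p : ℤ) ^ i * c) : ℤ) : ℚ) * (b / d) +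
      ((-((p : ℤ) ^ i * c' * b) + d * a : ℤ) : ℚ) = 1 := by
    push_cast
    field_simp
    linear_combination e1
  rw [mob_coe _ _ _ _ _ (by rw [n1]; exact div_ne_zero hcQ' hcQ), n1,
    mob_coe _ _ _ _ _ (by rw [n2]; exact one_ne_zero), n2] at h3
  have m1 : (((a' * d - (p : ℤ) ^ i * c * b : ℤ) : ℚ) * (a / ((p : ℚ) ^ i * c)) +
      ((-(a' * b) + b * a : ℤ) : ℚ)) / (c' / c) = a' / ((p : ℚ) ^ i * c') := by
    push_cast
    field_simp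
    linear_combination (a' : ℚ) * e1
  have m2 : (((a' * d - (p : ℤ) ^ i * c * b : ℤ) : ℚ) * (b / d) +
      ((-(a' * b) + b * a : ℤ) : ℚ)) / 1 = b / d := by
    push_cast
    field_simp
    linear_combination (b : ℚ) * e1
  rw [m1, m2, K.sub, K.sub] at h3
  exact (sub_right_injective h3).symm

end Pool.Agent.NSY
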