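import Pool.Agent.NS.Y_Hfun

/-!
# Block Y (KEY0), part 4: equivariance of `h` under `Γ₁(N)[1/p]` (helper6)
-/

set_option autoImplicit false

namespace Pool.Agent.NSY

open OnePoint Pool.Agent.MuSym Pool.Agent.MuW2

variable {M : Type} [AddCommGroup M] {p N r n0 : ℕ} {Φ : OnePoint ℚ → OnePoint ℚ → M}

/-- the shift by `1 / p ^ e`, with `e` different from the exponent of `p` in the denominator -/
lemma exists_shift (hp : p.Prime) {x : ℚ} (h : Dm N x) (i : ℕ) :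
    ∃ e : ℕ, i < e ∧ e ≤ i + 2 ∧ Lg p N i (x + ((1 : ℤ) : ℚ) / p ^ e) := by
  obtain ⟨B, n, D, hD0, hD, hDN, hB, rfl⟩ := h.form hp
  have hpQ : (p : ℚ) ≠ 0 := by exact_mod_cast hp.ne_zero
  have hDQ : (D : ℚ) ≠ 0 := by exact_mod_cast hD0
  have hpp : Prime (p : ℤ) := Nat.prime_iff_prime_int.mp hp
  have hBD : IsCoprime B D := hB.of_isCoprime_of_dvd_right (dvd_mul_left _ _)
  have hcop : ∀ {x : ℤ}, ¬ (p : ℤ) ∣ x → ∀ k : ℕ, IsCoprime x ((p : ℤ) ^ k) := fun h k =>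
    (isCoprime_natCast_of_not_dvd hp h).pow_right
  obtain ⟨e, he1, he2, hne⟩ : ∃ e : ℕ, i < e ∧ e ≤ i + 2 ∧ n ≠ e := by
    by_cases h1 : n = i + 1
    · exact ⟨i + 2, by omega, by omega, by omega⟩
    · exact ⟨i + 1, by omega, by omega, h1⟩
  refine ⟨e, he1, he2, ?_⟩
  rcases lt_or_gt_of_ne hne with hlt | hgt
  · -- small denominator
    refine ⟨B * (p : ℤ) ^ (e - n) + 1 * D, e, D, by omega, hD, hDN, ?_, ?_⟩
    · apply IsCoprime.mul_right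
      · apply hcop
        intro hcon
        apply hD
        have h3 : (p : ℤ) ∣ B * (p : ℤ) ^ (e - n) := (dvd_pow_self _ (by omega)).mul_left _
        simpa using (dvd_add_right h3).mp hcon
      · exact (hBD.mul_left (hcop hD _).symm).add_mul_right_left 1
    · have h4 : (p : ℚ) ^ e = p ^ n * p ^ (e - n) := by
        rw [← pow_add]
        congr 1
        omega
      rw [h4]
      push_cast
      field_simp
  · have hBp : ¬ (p : ℤ) ∣ B := by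
      intro hcon
      have h3 := hB.of_isCoprime_of_dvd_right
        ((dvd_pow_self (p : ℤ) (by omega : n ≠ 0)).mul_right D)
      exact hpp.not_isUnit (h3.isUnit_of_dvd' hcon dvd_rfl)
    refine ⟨B + (1 * (p : ℤ) ^ (n - e)) * D, n, D, by omega, hD, hDN, ?_, ?_⟩
    · apply IsCoprime.mul_right
      · apply hcop
        intro hcon
        apply hBp
        have h3 : (p : ℤ) ∣ (1 * (p : ℤ) ^ (n - e)) * D :=
          ((dvd_pow_self _ (by omega)).mul_left _).mul_right _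
        exact (dvd_add_left h3).mp hcon
      · exact hBD.add_mul_right_left _
    · have h4 : (p : ℚ) ^ n = p ^ e * p ^ (n - e) := by
        rw [← pow_add]
        congr 1
        omega
      rw [h4]
      push_cast
      field_simp

lemma Dm.mob (hN : 1 < N) {x : ℚ} (h : Dm N x) {a b c d : ℤ}
    (hc : (N : ℤ) ∣ c) (hd : IsCoprime d (N : ℤ)) :
    (c : ℚ) * x + d ≠ 0 ∧ Dm N ((a * x + b) / (c * x + d)) := by
  obtain ⟨u, v, hv, rfl⟩ := h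
  have hv0 : (v : ℚ) ≠ 0 := by exact_mod_cast ne_of_cop hN hv
  have h1 : IsCoprime (c * u + d * v) (N : ℤ) := by
    apply coprime_of_dvd_sub (y := d * v) _ (hd.mul_left hv)
    rw [show c * u + d * v - d * v = c * u by ring]
    exact hc.mul_right _
  have h2 : ((c * u + d * v : ℤ) : ℚ) ≠ 0 := by exact_mod_cast ne_of_cop hN h1
  have h3 : (c : ℚ) * (u / v) + d = ((c * u + d * v : ℤ) : ℚ) / v := by
    push_cast
    field_simp
  refine ⟨by rw [h3]; exact div_ne_zero h2 hv0, a * u + b * v, c * u + d * v, h1, ?_⟩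
  rw [h3]
  push_cast
  field_simp

lemma cop_of_dvd_sub_one {d : ℤ} (h : (N : ℤ) ∣ d - 1) : IsCoprime d (N : ℤ) := by
  obtain ⟨q, hq⟩ := h
  exact ⟨1, -q, by linear_combination hq⟩

lemma dm_int (x : ℤ) : Dm N (x : ℚ) := ⟨x, 1, isCoprime_one_left, by simp⟩

lemma Key.eqv1 (K : Key p N r n0 Φ) {i s s' : ℕ} (hr : r ≤ i) (hn0 : n0 ≤ i) (hs : i < s)
    (hs' : s' = s + (i + 2)) {a b c d : ℤ} (hdet : a * d - b * c = 1)
    (hc : (p : ℤ) ^ s' * N ∣ c) (hd : (p : ℤ) ^ s' * N ∣ d - 1) {x : ℚ} (hx : Dm N x) :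
    hh p Φ ((a * x + b) / (c * x + d)) = hh p Φ ((b : ℚ) / d) + hh p Φ x := by
  subst hs'
  have hpQ : (p : ℚ) ≠ 0 := by exact_mod_cast K.hp.ne_zero
  have hpp := K.pp
  obtain ⟨E, hEi, hE2, hjx⟩ := exists_shift K.hp hx i
  obtain ⟨j, hj, hjx⟩ : ∃ j : ℤ, ¬ (p : ℤ) ∣ j ∧ Lg p N i (x + j / p ^ E) :=
    ⟨1, not_dvd_one K.hp, hjx⟩
  obtain ⟨c2, hc2⟩ := hc
  obtain ⟨c1, hc1⟩ : ∃ c1 : ℤ, c1 = (p : ℤ) ^ s * N * ((p : ℤ) ^ (i + 2 - E) * c2) := ⟨_, rfl⟩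
  have hc12 : c = (p : ℤ) ^ E * c1 := by
    rw [hc2, hc1, pow_add, show i + 2 = E + (i + 2 - E) by omega, pow_add,
      show E + (i + 2 - E) - E = i + 2 - E by omega]
    ring
  have hc1s : (p : ℤ) ^ s * N ∣ c1 := ⟨_, hc1⟩
  have hpc1 : (p : ℤ) ∣ c1 :=
    ((dvd_pow_self _ (by omega : s ≠ 0)).mul_right _).trans hc1s
  have hds : (p : ℤ) ^ s * N ∣ d - 1 :=
    (mul_dvd_mul_right (pow_dvd_pow _ (by omega)) _).trans hd
  have hpd : (p : ℤ) ∣ d - 1 :=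
    ((dvd_pow_self _ (by omega : s ≠ 0)).mul_right _).trans hds
  -- the second shift
  have hdj : ¬ (p : ℤ) ∣ d - c1 * j := by
    intro hcon
    apply not_dvd_one K.hp
    have h1 : (1 : ℤ) = (d - c1 * j) - (d - 1) + c1 * j := by ring
    rw [h1]
    exact dvd_add (dvd_sub hcon hpd) (hpc1.mul_right _)
  obtain ⟨x1, hx1⟩ := exists_inverse (m := (p : ℤ) ^ E) (e := d - c1 * j)
    ((isCoprime_natCast_of_not_dvd K.hp hdj).pow_right)
  obtain ⟨j', hj'⟩ : ∃ j' : ℤ, j' = a * j * x1 := ⟨_, rfl⟩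
  obtain ⟨q, hq⟩ : (p : ℤ) ^ E ∣ j' * (d - c1 * j) - a * j := by
    rw [hj', show a * j * x1 * (d - c1 * j) - a * j = a * j * (x1 * (d - c1 * j) - 1) by ring]
    exact hx1.mul_left _
  -- the matrix
  have hdet' : (a + j' * c1) * (d - c1 * j) - (b + q) * c = 1 := by
    rw [hc12]
    linear_combination hdet + b * hc12 + c1 * hq
  have hcs : (p : ℤ) ^ s * N ∣ c := by
    rw [hc12]
    exact hc1s.mul_left _
  have hds' : (p : ℤ) ^ s * N ∣ (d - c1 * j) - 1 := by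
    rw [show (d - c1 * j) - 1 = (d - 1) - c1 * j by ring]
    exact dvd_sub hds (hc1s.mul_right _)
  have key : ∀ y : ℚ, Dm N y → Lg p N i (y + j / p ^ E) →
      hh p Φ ((a * y + b) / (c * y + d)) =
        Φ ∞ (mob (a + j' * c1) (b + q) c (d - c1 * j) ∞) + hh p Φ y := by
    intro y hy hly
    have h1 := (K.lg_eqv hr hn0 hs hdet' hcs hds' hly).2
    rw [K.hh_tr hy] at h1
    rw [← h1]
    have hNc : (N : ℤ) ∣ c := (dvd_mul_left _ _).trans hcs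
    have hNd : (N : ℤ) ∣ d - 1 := (dvd_mul_left _ _).trans hds
    obtain ⟨hne, hDm⟩ := hy.mob (a := a) (b := b) K.hN hNc (cop_of_dvd_sub_one hNd)
    rw [← K.hh_tr hDm j' E]
    congr 1
    have e1 : (c : ℚ) * (y + j / (p : ℚ) ^ E) + ((d - c1 * j : ℤ) : ℚ) = c * y + d := by
      have : (c : ℚ) = (p : ℚ) ^ E * c1 := by exact_mod_cast hc12
      push_cast
      rw [this]
      field_simp
      ring
    rw [e1]
    have e2 : (((a + j' * c1 : ℤ) : ℚ)) * (y + j / (p : ℚ) ^ E) + ((b + q : ℤ) : ℚ) =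
        (a * y + b) + (j' / (p : ℚ) ^ E) * (c * y + d) := by
      have h2 : (c : ℚ) = (p : ℚ) ^ E * c1 := by exact_mod_cast hc12
      have h3 : (j' : ℚ) * (d - c1 * j) - a * j = (p : ℚ) ^ E * q := by exact_mod_cast hq
      push_cast
      rw [h2]
      field_simp
      linear_combination -h3
    rw [e2]
    generalize (c : ℚ) * y + d = Z at hne ⊢
    field_simp
  have hzero := key 0 (by simpa using dm_int (N := N) 0) (by
    refine ⟨j, E, 1, by omega, not_dvd_one K.hp, isCoprime_one_left, ?_, by simp⟩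
    rw [mul_one]
    exact (isCoprime_natCast_of_not_dvd K.hp hj).pow_right)
  rw [K.hh_zero, add_zero, mul_zero, mul_zero, zero_add, zero_add] at hzero
  rw [key x hx hjx, hzero]

/-- The properties of `h` which are used: `h` is invariant under the translations by elements of `ℤ[1/p]`
and equivariant under `Γ₁(p ^ s N)`. -/
structure HH (p N s : ℕ) (h : ℚ → M) : Prop where
  hp : p.Prime
  hN : 1 < N
  hpN : p.Coprime N
  h0 : h 0 = 0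
  tr : ∀ x, Dm N x → ∀ (e : ℤ) (n : ℕ), h (x + e / p ^ n) = h x
  eqv : ∀ a b c d : ℤ, a * d - b * c = 1 → (p : ℤ) ^ s * N ∣ c → (p : ℤ) ^ s * N ∣ d - 1 →
    ∀ x, Dm N x → h ((a * x + b) / (c * x + d)) = h ((b : ℚ) / d) + h x

lemma Key.HH (K : Key p N r n0 Φ) :
    HH p N (max r n0 + 1 + (max r n0 + 2)) (hh p Φ) where
  hp := K.hp
  hN := K.hN
  hpN := K.hpN
  h0 := K.hh_zero
  tr := fun _ hx e n => K.hh_tr hx e n
  eqv := fun _ _ _ _ hdet hc hd _ hx =>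
    K.eqv1 (le_max_left r n0) (le_max_right r n0) (lt_add_one _) rfl hdet hc hd hx

section HH

variable {s : ℕ} {h : ℚ → M}

lemma HH.low1 (H : HH p N s h) {c : ℤ} (hc : (p : ℤ) ^ s * N ∣ c) {x : ℚ} (hx : Dm N x) :
    h (x / (c * x + 1)) = h x := by
  have h1 := H.eqv 1 0 c 1 (by ring) hc (by simp) x hx
  have e1 : ((0 : ℤ) : ℚ) / ((1 : ℤ) : ℚ) = 0 := by simp
  rw [e1, H.h0, zero_add] at h1
  rw [← h1]
  congr 1
  push_cast
  ring

lemma HH.pQ (H : HH p N s h) : (p : ℚ) ≠ 0 := by exact_mod_cast H.hp.ne_zero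

lemma dm_mul {x : ℚ} (hx : Dm N x) (j : ℕ) : Dm N (p ^ j * x) := by
  obtain ⟨u, v, hv, rfl⟩ := hx
  refine ⟨(p : ℤ) ^ j * u, v, hv, ?_⟩
  push_cast
  ring

lemma HH.dm_div (H : HH p N s h) {x : ℚ} (hx : Dm N x) (j : ℕ) : Dm N (x / p ^ j) := by
  obtain ⟨u, v, hv, rfl⟩ := hx
  refine ⟨u, v * (p : ℤ) ^ j, hv.mul_left (cop_p H.hpN j), ?_⟩
  push_cast
  rw [div_div]

lemma HH.dm_low (H : HH p N s h) {x : ℚ} (hx : Dm N x) {c : ℤ} (hc : (N : ℤ) ∣ c) :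
    (c : ℚ) * x + 1 ≠ 0 ∧ Dm N (x / (c * x + 1)) := by
  have h1 := hx.mob (a := 1) (b := 0) (c := c) (d := 1) H.hN hc isCoprime_one_left
  push_cast at h1
  simpa using h1

/-- homogeneity -/
lemma HH.scal (H : HH p N s h) {l : ℕ} (hl : (N : ℤ) ∣ (p : ℤ) ^ l - 1) {x : ℚ} (hx : Dm N x) :
    h (p ^ (2 * l) * x) = h x := by
  have hpQ := H.pQ
  obtain ⟨W, hW⟩ := hl
  have hWQ : (p : ℚ) ^ l - 1 = N * W := by exact_mod_cast hW
  have hC : (p : ℤ) ^ s * N ∣ -((p : ℤ) ^ l * ((p : ℤ) ^ s * N)) := (dvd_mul_left _ _).neg_right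
  have hNC : (N : ℤ) ∣ -((p : ℤ) ^ l * ((p : ℤ) ^ s * N)) := (dvd_mul_left _ _).trans hC
  obtain ⟨n1, d1⟩ := H.dm_low hx hNC
  have s1 := H.low1 hC hx
  obtain ⟨x1, hx1⟩ : ∃ x1 : ℚ, x1 = x / ((-((p : ℤ) ^ l * ((p : ℤ) ^ s * N)) : ℤ) * x + 1) :=
    ⟨_, rfl⟩
  rw [← hx1] at s1 d1
  -- first translation
  have s2 := H.tr x1 d1 (-W) (s + l)
  have d2 : Dm N (x1 + ((-W : ℤ) : ℚ) / p ^ (s + l)) := d1.add H.hp H.hpN H.hN _ _
  obtain ⟨x2, hx2⟩ : ∃ x2 : ℚ, x2 = x1 + ((-W : ℤ) : ℚ) / p ^ (s + l) := ⟨_, rfl⟩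
  rw [← hx2] at s2 d2
  -- second lower triangular matrix
  have s3 := H.low1 (c := (p : ℤ) ^ s * N) dvd_rfl d2
  obtain ⟨n3, d3⟩ := H.dm_low d2 (c := (p : ℤ) ^ s * N) (dvd_mul_left _ _)
  obtain ⟨x3, hx3⟩ : ∃ x3 : ℚ, x3 = x2 / (((p : ℤ) ^ s * N : ℤ) * x2 + 1) := ⟨_, rfl⟩
  rw [← hx3] at s3 d3
  have s4 := H.tr x3 d3 W s
  rw [← s1, ← s2, ← s3, ← s4]
  congr 1
  push_cast at n1 hx1 hx2 n3 hx3 ⊢
  obtain ⟨P, hP⟩ : ∃ P : ℚ, P = (p : ℚ) ^ l := ⟨_, rfl⟩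
  obtain ⟨S, hS⟩ : ∃ S : ℚ, S = (p : ℚ) ^ s := ⟨_, rfl⟩
  have hP0 : P ≠ 0 := by rw [hP]; exact pow_ne_zero _ hpQ
  have hS0 : S ≠ 0 := by rw [hS]; exact pow_ne_zero _ hpQ
  have e2l : (p : ℚ) ^ (2 * l) = P ^ 2 := by rw [hP, ← pow_mul, mul_comm]
  have esl : (p : ℚ) ^ (s + l) = S * P := by rw [hP, hS, pow_add]
  rw [← hP] at n1 hx1 hWQ
  rw [← hS] at n1 hx1 n3 hx3 ⊢
  rw [esl] at hx2
  rw [e2l]
  obtain ⟨T, hT⟩ : ∃ T : ℚ, T = -(P * (S * N)) * x + 1 := ⟨_, rfl⟩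
  rw [← hT] at n1 hx1
  have hx2' : S * N * x2 + 1 = 1 / (P * T) := by
    rw [hx2, hx1]
    field_simp
    linear_combination hT + T * hWQ
  rw [hx2'] at hx3
  rw [hx3, hx2, hx1]
  field_simp
  linear_combination (W : ℚ) * hT + (x * P * S) * hWQ

lemma HH.scal_pow (H : HH p N s h) {l : ℕ} (hl : (N : ℤ) ∣ (p : ℤ) ^ l - 1) {x : ℚ}
    (hx : Dm N x) (q : ℕ) : h (p ^ (2 * (l * q)) * x) = h x :=
  H.scal (dvd_pow_mul_sub hl q) hx

lemma HH.exists_l (H : HH p N s h) : ∃ l : ℕ, 0 < l ∧ (N : ℤ) ∣ (p : ℤ) ^ l - 1 :=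
  exists_order H.hp (not_dvd_level' H.hp H.hpN)

lemma HH.low (H : HH p N s h) {c : ℤ} (hc : (N : ℤ) ∣ c) {x : ℚ} (hx : Dm N x) :
    h (x / (c * x + 1)) = h x := by
  obtain ⟨l, hl0, hl⟩ := H.exists_l
  have hpQ := H.pQ
  obtain ⟨t, ht⟩ : ∃ t : ℕ, t = 2 * (l * s) := ⟨_, rfl⟩
  have hst : s ≤ t := by
    rw [ht]
    nlinarith
  have h1 := H.low1 (c := c * (p : ℤ) ^ t) (by
    rw [mul_comm]
    exact mul_dvd_mul hc (pow_dvd_pow _ hst)) (H.dm_div hx t)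
  have d1 := (H.dm_low (c := c * (p : ℤ) ^ t) (H.dm_div hx t) (hc.mul_right _)).2
  have h2 := H.scal_pow hl d1 s
  have h3 := H.scal_pow hl (H.dm_div hx t) s
  rw [← ht] at h2 h3
  rw [h1, ← h3] at h2
  have e1 : (p : ℚ) ^ t * (x / p ^ t) = x := by field_simp
  have e2 : (p : ℚ) ^ t * (x / p ^ t / (((c * (p : ℤ) ^ t : ℤ) : ℚ) * (x / p ^ t) + 1)) =
      x / (c * x + 1) := by
    have : ((c * (p : ℤ) ^ t : ℤ) : ℚ) * (x / p ^ t) = c * x := by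
      push_cast
      field_simp
    rw [this, ← mul_div_assoc, e1]
  rw [e1, e2] at h2
  exact h2

lemma HH.tr_int (H : HH p N s h) {x : ℚ} (hx : Dm N x) (e : ℤ) : h (x + e) = h x := by
  have := H.tr x hx e 0
  simpa using this

lemma HH.unip (H : HH p N s h) {x : ℚ} (hx : Dm N x) {c e c' : ℤ} (hc : (N : ℤ) ∣ c)
    (hc' : (N : ℤ) ∣ c') :
    ((c' : ℚ) * (x / (c * x + 1) + e) + 1 ≠ 0 ∧ (c : ℚ) * x + 1 ≠ 0) ∧
    Dm N ((x / (c * x + 1) + e) / (c' * (x / (c * x + 1) + e) + 1)) ∧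
    h ((x / (c * x + 1) + e) / (c' * (x / (c * x + 1) + e) + 1)) = h x := by
  obtain ⟨n1, d1⟩ := H.dm_low hx hc
  have s1 := H.low hc hx
  have s2 := H.tr_int d1 e
  have d2 : Dm N (x / (c * x + 1) + e) := by
    have := d1.add H.hp H.hpN H.hN e 0
    simpa using this
  obtain ⟨n3, d3⟩ := H.dm_low d2 hc'
  have s3 := H.low hc' d2
  exact ⟨⟨n3, n1⟩, d3, by rw [s3, s2, s1]⟩

/-- equivariance under `Γ₁(N)` -/
lemma HH.eqvN (H : HH p N s h) {a b c d : ℤ} (hdet : a * d - b * c = 1) (hc : (N : ℤ) ∣ c)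
    (hd : (N : ℤ) ∣ d - 1) {x : ℚ} (hx : Dm N x) :
    h ((a * x + b) / (c * x + d)) = h ((b : ℚ) / d) + h x := by
  have hpp : Prime (p : ℤ) := Nat.prime_iff_prime_int.mp H.hp
  obtain ⟨C, hC⟩ := hc
  have hcd : IsCoprime c d := ⟨-b, a, by linear_combination hdet⟩
  -- first step: make the lower left entry prime to `p`
  obtain ⟨z0, hz0⟩ : ∃ z0 : ℤ, ¬ (p : ℤ) ∣ C + d * z0 := by
    by_cases h1 : (p : ℤ) ∣ C
    · refine ⟨1, fun h2 => ?_⟩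
      rw [mul_one] at h2
      have h3 : (p : ℤ) ∣ d := (dvd_add_right h1).mp h2
      have h4 : (p : ℤ) ∣ c := by
        rw [hC]
        exact h1.mul_left _
      exact hpp.not_isUnit (hcd.isUnit_of_dvd' h4 h3)
    · exact ⟨0, by simpa using h1⟩
  obtain ⟨C1, hC1⟩ : ∃ C1 : ℤ, C1 = C + d * z0 := ⟨_, rfl⟩
  rw [← hC1] at hz0
  -- second step: make the lower right entry `1` modulo `p ^ s`
  have hcop : ∀ {x : ℤ}, ¬ (p : ℤ) ∣ x → ∀ k : ℕ, IsCoprime x ((p : ℤ) ^ k) := fun h k =>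
    (isCoprime_natCast_of_not_dvd H.hp h).pow_right
  obtain ⟨q1, hq1⟩ := exists_inverse (m := (p : ℤ) ^ (s + 1)) (e := N * C1)
    ((hcop (not_dvd_level' H.hp H.hpN) _).mul_left (hcop hz0 _))
  obtain ⟨y, hy⟩ : ∃ y : ℤ, y = (1 - d) * q1 := ⟨_, rfl⟩
  obtain ⟨d1, hd1⟩ : ∃ d1 : ℤ, d1 = d + N * C1 * y := ⟨_, rfl⟩
  have hd1s : (p : ℤ) ^ (s + 1) ∣ d1 - 1 := by
    rw [hd1, hy, show d + N * C1 * ((1 - d) * q1) - 1 = (1 - d) * (q1 * (N * C1) - 1) by ring]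
    exact hq1.mul_left _
  have hd1N : (N : ℤ) ∣ d1 - 1 := by
    rw [hd1, show d + N * C1 * y - 1 = (d - 1) + N * (C1 * y) by ring]
    exact dvd_add hd (dvd_mul_right _ _)
  have hcopN : IsCoprime ((p : ℤ) ^ (s + 1)) (N : ℤ) := cop_p H.hpN _
  have hd1sN : (p : ℤ) ^ (s + 1) * N ∣ d1 - 1 := hcopN.mul_dvd hd1s hd1N
  have hpd1 : ¬ (p : ℤ) ∣ d1 := by
    intro h1
    have h2 : (p : ℤ) ∣ d1 - 1 := (dvd_pow_self _ (by omega)).trans hd1s
    have h3 := dvd_sub h1 h2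
    rw [sub_sub_cancel] at h3
    exact not_dvd_one H.hp h3
  -- third step: make the lower left entry divisible by `p ^ s`
  obtain ⟨q2, hq2⟩ := exists_inverse (m := (p : ℤ) ^ (s + 1)) (e := d1) (hcop hpd1 _)
  obtain ⟨z, hz⟩ : ∃ z : ℤ, z = -(C1 * q2) := ⟨_, rfl⟩
  have hC2 : (p : ℤ) ^ (s + 1) ∣ C1 + d1 * z := by
    rw [hz, show C1 + d1 * -(C1 * q2) = -(C1 * (q2 * d1 - 1)) by ring, dvd_neg]
    exact hq2.mul_left _
  -- the matrix `g1 = g n^-(N z0) n(y) n^-(N z)`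
  obtain ⟨a1, ha1⟩ : ∃ a1 : ℤ, a1 = a + b * (N * z0) := ⟨_, rfl⟩
  obtain ⟨b1, hb1⟩ : ∃ b1 : ℤ, b1 = b + a1 * y := ⟨_, rfl⟩
  obtain ⟨a2, ha2⟩ : ∃ a2 : ℤ, a2 = a1 + b1 * (N * z) := ⟨_, rfl⟩
  obtain ⟨c2, hc2⟩ : ∃ c2 : ℤ, c2 = N * (C1 + d1 * z) := ⟨_, rfl⟩
  have hc1 : c + d * (N * z0) = N * C1 := by rw [hC, hC1]; ring
  have hdet1 : a1 * d - b * (N * C1) = 1 := by
    rw [ha1, ← hc1]
    linear_combination hdet
  have hdet2 : a1 * d1 - b1 * (N * C1) = 1 := by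
    rw [hd1, hb1]
    linear_combination hdet1
  have hdet3 : a2 * d1 - b1 * c2 = 1 := by
    rw [ha2, hc2]
    linear_combination hdet2
  have hss : (p : ℤ) ^ s ∣ (p : ℤ) ^ (s + 1) := pow_dvd_pow _ (by omega)
  have hc2s : (p : ℤ) ^ s * N ∣ c2 := by
    rw [hc2, mul_comm (N : ℤ)]
    exact mul_dvd_mul_right (hss.trans hC2) _
  have hd1s' : (p : ℤ) ^ s * N ∣ d1 - 1 := (mul_dvd_mul_right hss _).trans hd1sN
  -- inverse transformations of the argument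
  have key : ∀ w : ℚ, Dm N w → h ((a * w + b) / (c * w + d)) = h ((b1 : ℚ) / d1) + h w := by
    intro w hw
    obtain ⟨⟨n3, n1⟩, d3, s3⟩ := H.unip hw (c := -(N * z0)) (e := -y) (c' := -(N * z))
      (dvd_mul_right _ _).neg_right (dvd_mul_right _ _).neg_right
    have h4 := H.eqv a2 b1 c2 d1 hdet3 hc2s hd1s' _ d3
    rw [s3] at h4
    rw [← h4]
    congr 1
    have hNc2 : (N : ℤ) ∣ c2 := by rw [hc2]; exact dvd_mul_right _ _
    obtain ⟨n5, -⟩ := d3.mob (a := a2) (b := b1) H.hN hNc2 (cop_of_dvd_sub_one hd1N)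
    obtain ⟨n6, -⟩ := hw.mob (a := a) (b := b) (c := c) (d := d) H.hN (by rw [hC]; exact dvd_mul_right _ _)
      (cop_of_dvd_sub_one hd)
    rw [div_eq_div_iff n6 n5]
    have E1 : (c : ℚ) + d * (N * z0) = N * C1 := by exact_mod_cast hc1
    have Ea1 : (a1 : ℚ) = a + b * (N * z0) := by exact_mod_cast ha1
    have Eb1 : (b1 : ℚ) = b + a1 * y := by exact_mod_cast hb1
    have Ea2 : (a2 : ℚ) = a1 + b1 * (N * z) := by exact_mod_cast ha2
    have Ec2 : (c2 : ℚ) = N * (C1 + d1 * z) := by exact_mod_cast hc2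
    have Ed1 : (d1 : ℚ) = d + N * C1 * y := by exact_mod_cast hd1
    obtain ⟨w1, hw1⟩ : ∃ w1 : ℚ, w1 = w / (((-(N * z0) : ℤ) : ℚ) * w + 1) := ⟨_, rfl⟩
    rw [← hw1] at n3 ⊢
    obtain ⟨w2, hw2⟩ : ∃ w2 : ℚ, w2 = w1 + ((-y : ℤ) : ℚ) := ⟨_, rfl⟩
    rw [← hw2] at n3 ⊢
    obtain ⟨w3, hw3⟩ : ∃ w3 : ℚ, w3 = w2 / (((-(N * z) : ℤ) : ℚ) * w2 + 1) := ⟨_, rfl⟩
    rw [← hw3]
    push_cast at hw1 hw2 hw3 n1 n3
    -- relations without denominators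
    have r1 : w1 * (-(N * z0) * w + 1) = w := by
      rw [hw1]
      exact div_mul_cancel₀ _ n1
    have r3 : w3 * (-(N * z) * w2 + 1) = w2 := by
      rw [hw3]
      exact div_mul_cancel₀ _ n3
    have g1 : ((c2 : ℚ) * w3 + d1) * (-(N * z) * w2 + 1) = N * C1 * w2 + d1 := by
      rw [Ec2]
      linear_combination (N * (C1 + d1 * z) : ℚ) * r3
    have g2 : ((a2 : ℚ) * w3 + b1) * (-(N * z) * w2 + 1) = a1 * w2 + b1 := by
      rw [Ea2]
      linear_combination (a1 + b1 * (N * z) : ℚ) * r3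
    have g3 : (N * C1 * w2 + d1) * (-(N * z0) * w + 1) = c * w + d := by
      rw [Ed1, hw2]
      linear_combination ((N : ℚ) * C1) * r1 - w * E1
    have g4 : ((a1 : ℚ) * w2 + b1) * (-(N * z0) * w + 1) = a * w + b := by
      rw [Eb1, hw2]
      linear_combination (a1 : ℚ) * r1 + w * Ea1
    rw [← g3, ← g4, ← g1, ← g2]
    ring
  have h0 := key 0 (by simpa using dm_int (N := N) 0)
  rw [H.h0, add_zero, mul_zero, mul_zero, zero_add, zero_add] at h0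
  rw [key x hx, h0]

end HH

end Pool.Agent.NSY
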