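import Pool.Agent.NS.Y_Eqv

/-!
# Block Y (KEY0), part 3: the function `h` (helper6)
-/

set_option autoImplicit false

namespace Pool.Agent.NSY

open OnePoint Pool.Agent.MuSym Pool.Agent.MuW2

variable {M : Type} [AddCommGroup M] {p N r n0 : ℕ} {Φ : OnePoint ℚ → OnePoint ℚ → M}

/-- `u` is the value of `h` at `x` -/
def IsH (p : ℕ) (Φ : OnePoint ℚ → OnePoint ℚ → M) (x : ℚ) (u : M) : Prop :=
  ∃ n1 : ℕ, ∀ n ≥ n1, ∀ e : ℤ, ¬ (p : ℤ) ∣ e → ff Φ (x + e / p ^ n) = u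

lemma not_dvd_one (hp : p.Prime) : ¬ (p : ℤ) ∣ 1 := fun h =>
  (Nat.prime_iff_prime_int.mp hp).not_isUnit (isUnit_of_dvd_one h)

omit [AddCommGroup M] in
lemma IsH.unique (hp : p.Prime) {x : ℚ} {u u' : M} (h : IsH p Φ x u) (h' : IsH p Φ x u') :
    u = u' := by
  obtain ⟨n1, h1⟩ := h
  obtain ⟨n2, h2⟩ := h'
  rw [← h1 (max n1 n2) (le_max_left _ _) 1 (not_dvd_one hp),
    ← h2 (max n1 n2) (le_max_right _ _) 1 (not_dvd_one hp)]

omit [AddCommGroup M] in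
lemma IsH.add (hp : p.Prime) {x : ℚ} {u : M} (h : IsH p Φ x u) (e : ℤ) (n : ℕ) :
    IsH p Φ (x + e / p ^ n) u := by
  have hpQ : (p : ℚ) ≠ 0 := by exact_mod_cast hp.ne_zero
  obtain ⟨n1, h1⟩ := h
  refine ⟨n1 + n + 1, fun k hk e' he' => ?_⟩
  have h2 := h1 k (by omega) (e * (p : ℤ) ^ (k - n) + e') (by
    intro hcon
    apply he'
    exact (dvd_add_right ((dvd_pow_self _ (by omega)).mul_left _)).mp hcon)
  rw [← h2]
  congr 1
  have h3 : (p : ℚ) ^ k = p ^ (k - n) * p ^ n := by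
    rw [← pow_add]
    congr 1
    omega
  rw [h3]
  push_cast
  field_simp
  ring

lemma Key.big (K : Key p N r n0 Φ) {i : ℕ} (hr : r ≤ i) (hn0 : n0 ≤ i) {b d : ℤ}
    (hbd : IsCoprime b d) (hpd : ¬ (p : ℤ) ∣ d) (hdN : IsCoprime d (N : ℤ)) :
    ∃ u : M, (∀ n, i < n → ∀ e : ℤ, ¬ (p : ℤ) ∣ e → ff Φ ((b : ℚ) / d + e / p ^ n) = u) ∧
      ((p : ℤ) ^ r * N ∣ d - 1 → u = ff Φ ((b : ℚ) / d) - ff Φ 0) := by
  obtain ⟨a, c, m, J, S, -, -⟩ := exists_sheet K.hp K.hpN i hbd hpd hdN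
    (not_dvd_one K.hp) (n := 1) one_pos
  refine ⟨ff Φ ((a : ℚ) / ((p : ℚ) ^ i * c)), ?_, ?_⟩
  · intro n hn e he
    obtain ⟨a', c', m', J', S', hJ', hm'⟩ := exists_sheet K.hp K.hpN i hbd hpd hdN he
      (n := n) (by omega)
    rw [S'.value K hr hn0 hn hJ' hm']
    exact (K.uniq hr S.c_ne S'.c_ne S.d_ne S.det S'.det S.hNc S'.hNc).symm
  · intro hd1
    have hpQ : (p : ℚ) ≠ 0 := by exact_mod_cast K.hp.ne_zero
    have hcQ : (c : ℚ) ≠ 0 := by exact_mod_cast S.c_ne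
    have hdQ : (d : ℚ) ≠ 0 := by exact_mod_cast S.d_ne
    have hc0 : (p : ℤ) ^ i * c ≠ 0 :=
      mul_ne_zero (pow_ne_zero _ (by exact_mod_cast K.hp.ne_zero)) S.c_ne
    have h3 := K.inv a b ((p : ℤ) ^ i * c) d (by linear_combination S.det)
      (mul_dvd_mul (pow_dvd_pow _ hr) S.hNc) hd1 ∞ ((0 : ℚ) : OnePoint ℚ)
    rw [mob_infty _ _ _ _ hc0, mob_coe _ _ _ _ _ (by simpa using hdQ)] at h3
    have e1 : ((a : ℚ) * 0 + b) / ((((p : ℤ) ^ i * c : ℤ) : ℚ) * 0 + d) = b / d := by simp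
    rw [e1, K.sub] at h3
    push_cast at h3
    change ff Φ (b / d) - ff Φ (a / ((p : ℚ) ^ i * c)) = ff Φ 0 at h3
    rw [← h3]
    abel

/-- `x` has a large denominator at `p` -/
def Lg (p N i : ℕ) (x : ℚ) : Prop := ∃ (B : ℤ) (n : ℕ) (D : ℤ), i < n ∧ ¬ (p : ℤ) ∣ D ∧
  IsCoprime D (N : ℤ) ∧ IsCoprime B ((p : ℤ) ^ n * D) ∧ x = (B : ℚ) / ((p : ℚ) ^ n * D)

lemma Lg.dm (hpN : p.Coprime N) {i : ℕ} {x : ℚ} (h : Lg p N i x) : Dm N x := by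
  obtain ⟨B, n, D, hn, hD, hDN, hB, rfl⟩ := h
  exact ⟨B, (p : ℤ) ^ n * D, (cop_p hpN n).mul_left hDN, by push_cast; rfl⟩

/-- partial fractions -/
lemma part_frac (hp : p.Prime) {B D : ℤ} {n : ℕ} (hD0 : D ≠ 0) (hD : ¬ (p : ℤ) ∣ D)
    (hB : IsCoprime B ((p : ℤ) ^ n * D)) : ∃ α β : ℤ, IsCoprime β D ∧
      (0 < n → ¬ (p : ℤ) ∣ α) ∧ (B : ℚ) / ((p : ℚ) ^ n * D) = β / D + α / p ^ n := by
  have hpp : Prime (p : ℤ) := Nat.prime_iff_prime_int.mp hp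
  have hpQ : (p : ℚ) ≠ 0 := by exact_mod_cast hp.ne_zero
  have hDQ : (D : ℚ) ≠ 0 := by exact_mod_cast hD0
  have hcop : IsCoprime D ((p : ℤ) ^ n) := (isCoprime_natCast_of_not_dvd hp hD).pow_right
  obtain ⟨x, y, hxy⟩ := hcop
  have hB1 : B = (B * x) * D + (B * y) * (p : ℤ) ^ n := by linear_combination -B * hxy
  refine ⟨B * x, B * y, ?_, ?_, ?_⟩
  · have h1 : IsCoprime B D := hB.of_isCoprime_of_dvd_right (dvd_mul_left _ _)
    have h2 : IsCoprime y D := ⟨(p : ℤ) ^ n, x, by linear_combination hxy⟩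
    exact h1.mul_left h2
  · intro hn hcon
    have h1 : (p : ℤ) ∣ (p : ℤ) ^ n := dvd_pow_self _ (by omega)
    have h2 : (p : ℤ) ∣ B := by
      rw [hB1]
      exact dvd_add (hcon.mul_right _) (h1.mul_left _)
    have h3 := hB.of_isCoprime_of_dvd_right (h1.mul_right D)
    exact hpp.not_isUnit (h3.isUnit_of_dvd' h2 dvd_rfl)
  · have hB2 : (B : ℚ) = (B * x) * D + (B * y) * (p : ℚ) ^ n := by exact_mod_cast hB1
    rw [hB2]
    push_cast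
    rw [← hB2]
    field_simp
    linear_combination hB2

lemma Key.isH_lg (K : Key p N r n0 Φ) {i : ℕ} (hr : r ≤ i) (hn0 : n0 ≤ i) {x : ℚ}
    (h : Lg p N i x) : IsH p Φ x (ff Φ x) := by
  obtain ⟨B, n, D, hn, hD, hDN, hB, rfl⟩ := h
  have hD0 : D ≠ 0 := ne_of_cop K.hN hDN
  obtain ⟨α, β, hβ, hα, hx⟩ := part_frac K.hp hD0 hD hB
  obtain ⟨u, hu, -⟩ := K.big hr hn0 hβ hD hDN
  have h1 := hu n hn α (hα (by omega))
  rw [hx, h1]
  exact IsH.add K.hp ⟨i + 1, fun n hn e he => hu n (by omega) e he⟩ α n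

lemma Key.exists_H (K : Key p N r n0 Φ) {x : ℚ} (h : Dm N x) : ∃ u, IsH p Φ x u := by
  obtain ⟨B, n, D, hD0, hD, hDN, hB, rfl⟩ := h.form K.hp
  obtain ⟨α, β, hβ, hα, hx⟩ := part_frac K.hp hD0 hD hB
  obtain ⟨u, hu, -⟩ := K.big (le_max_left r n0) (le_max_right r n0) hβ hD hDN
  rw [hx]
  exact ⟨u, IsH.add K.hp ⟨max r n0 + 1, fun n hn e he => hu n (by omega) e he⟩ α n⟩

open Classical in
/-- the function `h` -/
noncomputable def hh (p : ℕ) (Φ : OnePoint ℚ → OnePoint ℚ → M) (x : ℚ) : M :=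
  if h : ∃ u, IsH p Φ x u then h.choose else 0

lemma IsH.eq (hp : p.Prime) {x : ℚ} {u : M} (h : IsH p Φ x u) : hh p Φ x = u := by
  have h1 : ∃ u, IsH p Φ x u := ⟨u, h⟩
  unfold hh
  rw [dif_pos h1]
  exact IsH.unique hp h1.choose_spec h

lemma Key.hh_spec (K : Key p N r n0 Φ) {x : ℚ} (h : Dm N x) : IsH p Φ x (hh p Φ x) := by
  obtain ⟨u, hu⟩ := K.exists_H h
  rw [hu.eq K.hp]
  exact hu

lemma Key.hh_tr (K : Key p N r n0 Φ) {x : ℚ} (h : Dm N x) (e : ℤ) (n : ℕ) :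
    hh p Φ (x + e / p ^ n) = hh p Φ x :=
  ((K.hh_spec h).add K.hp e n).eq K.hp

lemma Key.hh_zero (K : Key p N r n0 Φ) : hh p Φ 0 = 0 := by
  apply IsH.eq K.hp
  refine ⟨n0, fun n hn e he => ?_⟩
  rw [zero_add]
  exact K.A0 e n hn he

lemma Key.hh_lg (K : Key p N r n0 Φ) {i : ℕ} (hr : r ≤ i) (hn0 : n0 ≤ i) {x : ℚ}
    (h : Lg p N i x) : hh p Φ x = ff Φ x := (K.isH_lg hr hn0 h).eq K.hp

lemma Key.hh_one (K : Key p N r n0 Φ) {b d : ℤ} (hbd : IsCoprime b d) (hpd : ¬ (p : ℤ) ∣ d)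
    (hd : (p : ℤ) ^ r * N ∣ d - 1) : hh p Φ ((b : ℚ) / d) = ff Φ ((b : ℚ) / d) - ff Φ 0 := by
  have hdN : IsCoprime d (N : ℤ) := by
    obtain ⟨q, hq⟩ := hd
    exact ⟨1, -((p : ℤ) ^ r * q), by linear_combination hq⟩
  obtain ⟨u, hu, hu1⟩ := K.big (le_max_left r n0) (le_max_right r n0) hbd hpd hdN
  rw [← hu1 hd]
  exact IsH.eq K.hp ⟨max r n0 + 1, fun n hn e he => hu n (by omega) e he⟩

/-- equivariance on the points of large denominator -/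
lemma Key.lg_eqv (K : Key p N r n0 Φ) {i s : ℕ} (hr : r ≤ i) (hn0 : n0 ≤ i) (hs : i < s)
    {a b c d : ℤ} (hdet : a * d - b * c = 1) (hc : (p : ℤ) ^ s * N ∣ c)
    (hd : (p : ℤ) ^ s * N ∣ d - 1) {z : ℚ} (hz : Lg p N i z) :
    Lg p N i ((a * z + b) / (c * z + d)) ∧
      hh p Φ ((a * z + b) / (c * z + d)) = Φ ∞ (mob a b c d ∞) + hh p Φ z := by
  have hpQ : (p : ℚ) ≠ 0 := by exact_mod_cast K.hp.ne_zero
  have hpp := K.pp
  have hz' := hz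
  obtain ⟨B, n, D, hn, hD, hDN, hB, rfl⟩ := hz'
  have hD0 : D ≠ 0 := ne_of_cop K.hN hDN
  have hDQ : (D : ℚ) ≠ 0 := by exact_mod_cast hD0
  have hps : (p : ℤ) ^ s ∣ c := (dvd_mul_right _ _).trans hc
  have hps1 : (p : ℤ) ^ s ∣ d - 1 := (dvd_mul_right _ _).trans hd
  have hNc : (N : ℤ) ∣ c := (dvd_mul_left _ _).trans hc
  have hNd : (N : ℤ) ∣ d - 1 := (dvd_mul_left _ _).trans hd
  have hpi : (p : ℤ) ^ (i + 1) ∣ (p : ℤ) ^ s := pow_dvd_pow _ hs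
  have hpsp : (p : ℤ) ∣ (p : ℤ) ^ s := dvd_pow_self _ (by omega)
  -- the new numerator and denominator
  obtain ⟨X, hX⟩ : ∃ X : ℤ, X = a * B + b * ((p : ℤ) ^ n * D) := ⟨_, rfl⟩
  obtain ⟨Y, hY⟩ : ∃ Y : ℤ, Y = c * B + d * ((p : ℤ) ^ n * D) := ⟨_, rfl⟩
  have hXY : IsCoprime X Y := by
    obtain ⟨x, y, hxy⟩ := hB
    refine ⟨x * d - y * c, -(x * b) + y * a, ?_⟩
    rw [hX, hY]
    linear_combination (x * B + y * ((p : ℤ) ^ n * D)) * hdet + hxy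
  have hYN : IsCoprime Y (N : ℤ) := by
    have h1 : IsCoprime ((p : ℤ) ^ n * D) (N : ℤ) := (cop_p K.hpN n).mul_left hDN
    apply coprime_of_dvd_sub (y := (p : ℤ) ^ n * D) ?_ h1
    rw [hY, show c * B + d * ((p : ℤ) ^ n * D) - (p : ℤ) ^ n * D =
      c * B + (d - 1) * ((p : ℤ) ^ n * D) by ring]
    exact dvd_add (hNc.mul_right _) (hNd.mul_right _)
  have hY0 : Y ≠ 0 := ne_of_cop K.hN hYN
  have hYQ : (Y : ℚ) ≠ 0 := by exact_mod_cast hY0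
  have hpY : (p : ℤ) ^ (i + 1) ∣ Y := by
    rw [hY]
    exact dvd_add ((hpi.trans hps).mul_right _)
      (((pow_dvd_pow _ hn).mul_right _).mul_left _)
  obtain ⟨w, D', hD', hYD⟩ := int_form K.hp hY0
  have hw : i < w := by
    by_contra hcon
    push Not at hcon
    apply hD'
    rw [hYD] at hpY
    have h1 : (p : ℤ) ^ w * p ∣ (p : ℤ) ^ w * D' := by
      refine dvd_trans ?_ hpY
      rw [← pow_succ]
      exact pow_dvd_pow _ (by omega)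
    exact (mul_dvd_mul_iff_left (pow_ne_zero w (by exact_mod_cast K.hp.ne_zero))).mp h1
  have hden : (c : ℚ) * (B / ((p : ℚ) ^ n * D)) + d = Y / ((p : ℚ) ^ n * D) := by
    rw [hY]
    push_cast
    field_simp
  have hval : ((a : ℚ) * (B / ((p : ℚ) ^ n * D)) + b) / (c * (B / ((p : ℚ) ^ n * D)) + d) =
      X / ((p : ℚ) ^ w * D') := by
    have h1 : (Y : ℚ) = (p : ℚ) ^ w * D' := by exact_mod_cast hYD
    rw [hden, ← h1, hX]
    push_cast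
    field_simp
  have hlg : Lg p N i (((a : ℚ) * (B / ((p : ℚ) ^ n * D)) + b) /
      (c * (B / ((p : ℚ) ^ n * D)) + d)) := by
    refine ⟨X, w, D', hw, hD', ?_, ?_, hval⟩
    · exact hYN.of_isCoprime_of_dvd_left (by rw [hYD]; exact dvd_mul_left _ _)
    · rw [← hYD]
      exact hXY
  refine ⟨hlg, ?_⟩
  rw [K.hh_lg hr hn0 hlg, K.hh_lg hr hn0 hz]
  have h3 := K.inv a b c d hdet
    ((mul_dvd_mul_right (pow_dvd_pow _ (by omega : r ≤ s)) _).trans hc)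
    ((mul_dvd_mul_right (pow_dvd_pow _ (by omega : r ≤ s)) _).trans hd)
    ∞ (((B : ℚ) / ((p : ℚ) ^ n * D) : ℚ) : OnePoint ℚ)
  rw [mob_coe a b c d (B / ((p : ℚ) ^ n * D)) (by
    rw [hden]
    exact div_ne_zero hYQ (mul_ne_zero (pow_ne_zero _ hpQ) hDQ))] at h3
  unfold ff
  rw [← h3]
  exact (K.add _ _ _).symm

end Pool.Agent.NSY
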