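import Pool.Agent.NS.Y_Gam

/-!
# Block Y (KEY0), part 5: Ihara's lemma for functions with values in a `p`-primary group (helper6)

Adapted from `Pool/Agent/MuW2/Const.lean` and `Ihara.lean` (values in a field).
-/

set_option autoImplicit false

open Finset

namespace Pool.Agent.NSY

open Pool.Agent.MuW2

section Const

variable {K : Type} [Field K] [Fintype K] [DecidableEq K] {M : Type} [AddCommGroup M]

/-- The relations of the function `f`. -/
def RelM (w : Kˣ) (f : Kˣ → M) : Prop :=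
  (∀ t, f (w * t) = f t) ∧ ∀ t y r : Kˣ, y ≠ 1 → y ≠ w → (r : K) * (w - y) = 1 - y →
    f (t * y) - f t = f (t * r * y) - f (t * r)

theorem constM_aux {w : Kˣ} (hw : w ≠ 1) (hcard : ∀ m : M, (Fintype.card Kˣ) • m = 0 → m = 0)
    (n : ℕ) : ∀ f : Kˣ → M, RelM w f →
      (∃ T : Finset Kˣ, T.card ≤ n ∧ ∀ s ∉ T, ∀ t, f (s * t) = f t) → ∀ t, f t = f 1 := by
  classical
  induction n with
  | zero =>
    rintro f _ ⟨T, hT, hT2⟩ t
    have hT0 : T = ∅ := card_eq_zero.mp (by omega)
    have h1 := hT2 t (by rw [hT0]; exact notMem_empty _) 1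
    rw [mul_one] at h1
    exact h1
  | succ n ih =>
    rintro f hf ⟨T0, hT0, hT02⟩ t
    by_cases hall : ∀ s t, f (s * t) = f t
    · have h1 := hall t 1
      rw [mul_one] at h1
      exact h1
    exfalso
    push Not at hall
    obtain ⟨z, tz, hz⟩ := hall
    let S : Finset Kˣ := univ.filter fun s => ∀ t, f (s * t) = f t
    let T : Finset Kˣ := univ.filter fun s => ¬ ∀ t, f (s * t) = f t
    have hTT0 : T ⊆ T0 := by
      intro s hs
      by_contra hcon
      exact (mem_filter.mp hs).2 (hT02 s hcon)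
    have h1 : S.card ≤ T.card := by
      apply card_le_card_of_injOn (fun s => z * s)
      · intro s hs
        have hs' : ∀ t, f (s * t) = f t := (mem_filter.mp hs).2
        simp only [T, coe_filter, mem_univ, true_and, Set.mem_ofPred_eq]
        intro hcon
        apply hz
        have h2 := hcon (s⁻¹ * tz)
        have h3 := hs' (s⁻¹ * tz)
        rw [mul_inv_cancel_left] at h3
        rw [mul_assoc, mul_inv_cancel_left] at h2
        rw [h2, ← h3]
      · intro s _ s' _ hss
        exact mul_left_cancel hss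
    have h1S : (1 : Kˣ) ∈ S := by
      simp [S]
    have hwS : w ∈ S := by
      simp only [S, mem_filter, mem_univ, true_and]
      exact hf.1
    have hne : ∀ y ∈ T, y ≠ 1 ∧ y ≠ w := by
      intro y hy
      constructor
      · rintro rfl
        exact (mem_filter.mp hy).2 (mem_filter.mp h1S).2
      · rintro rfl
        exact (mem_filter.mp hy).2 (mem_filter.mp hwS).2
    have h2 : ∃ y ∈ T, rho w y ∈ T := by
      by_contra hcon
      push Not at hcon
      have h3 : T.card ≤ (S.erase 1).card := by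
        apply card_le_card_of_injOn (fun y => rho w y)
        · intro y hy
          have hy' := hcon y hy
          rw [mem_coe, mem_erase]
          constructor
          · intro h4
            change rho w y = 1 at h4
            have h5 := rho_spec (hne y hy).1 (hne y hy).2
            rw [h4, Units.val_one, one_mul] at h5
            apply hw
            apply Units.ext
            rw [Units.val_one]
            linear_combination h5
          · simp only [S, mem_filter, mem_univ, true_and]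
            by_contra h6
            apply hy'
            simp only [T, mem_filter, mem_univ, true_and]
            exact h6
        · intro y hy y' hy' hyy
          exact rho_inj hw (hne y hy).1 (hne y hy).2 (hne y' hy').1 (hne y' hy').2 hyy
      rw [card_erase_of_mem h1S] at h3
      have h4 : 0 < S.card := card_pos.mpr ⟨1, h1S⟩
      omega
    obtain ⟨y, hy, hr⟩ := h2
    set r := rho w y with hrdef
    have hrel : ∀ t, f (t * y) - f t = f (t * r * y) - f (t * r) := fun t =>
      hf.2 t y r (hne y hy).1 (hne y hy).2 (rho_spec (hne y hy).1 (hne y hy).2)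
    let f1 : Kˣ → M := fun t => f (t * r) - f t
    have hf1 : RelM w f1 := by
      constructor
      · intro t
        change f (w * t * r) - f (w * t) = f (t * r) - f t
        rw [mul_assoc, hf.1, hf.1]
      · intro t y' r' h3 h4 h5
        change f (t * y' * r) - f (t * y') - (f (t * r) - f t) =
          f (t * r' * y' * r) - f (t * r' * y') - (f (t * r' * r) - f (t * r'))
        have e1 := hf.2 t y' r' h3 h4 h5
        have e2 := hf.2 (t * r) y' r' h3 h4 h5
        rw [show t * r * y' = t * y' * r by rw [mul_right_comm], show t * r * r' * y' = t * r' * y' * r by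
          rw [mul_right_comm t r r', mul_right_comm (t * r') r y'],
          show t * r * r' = t * r' * r by rw [mul_right_comm]] at e2
        linear_combination (norm := abel) e2 - e1
    have hconst := ih f1 hf1 ⟨T.erase y, by
      rw [card_erase_of_mem hy]
      have := card_le_card hTT0
      omega, by
      intro s hs t
      change f (s * t * r) - f (s * t) = f (t * r) - f t
      rw [mem_erase] at hs
      push Not at hs
      by_cases hsy : s = y
      · subst hsy
        have := hrel t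
        rw [mul_comm s t, mul_right_comm t s r]
        linear_combination (norm := abel) -this
      · have hsT := hs hsy
        have hsS : ∀ t, f (s * t) = f t := by
          by_contra h6
          apply hsT
          simp only [T, mem_filter, mem_univ, true_and]
          exact h6
        rw [mul_assoc, hsS, hsS]⟩
    have hr2 : ¬ ∀ t, f (r * t) = f t := (mem_filter.mp hr).2
    push Not at hr2
    obtain ⟨t0, ht0⟩ := hr2
    have hne0 : f1 t0 ≠ 0 := by
      change f (t0 * r) - f t0 ≠ 0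
      rw [mul_comm]
      exact sub_ne_zero.mpr ht0
    have hsum : ∑ t, f1 t = 0 := by
      change ∑ t, (f (t * r) - f t) = 0
      rw [sum_sub_distrib, sub_eq_zero]
      exact Equiv.sum_comp (Equiv.mulRight r) f
    have hsum2 : ∑ t, f1 t = (Fintype.card Kˣ) • f1 1 := by
      rw [sum_congr rfl (fun t _ => hconst t), sum_const, card_univ]
    rw [hsum] at hsum2
    have h7 := hcard _ hsum2.symm
    rw [hconst t0, h7] at hne0
    exact hne0 rfl

theorem constM_of_rel {w : Kˣ} (hw : w ≠ 1) (hcard : ∀ m : M, (Fintype.card Kˣ) • m = 0 → m = 0)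
    {f : Kˣ → M} (hf : RelM w f) (t : Kˣ) : f t = f 1 := by
  classical
  exact constM_aux hw hcard (univ : Finset Kˣ).card f hf
    ⟨univ, le_rfl, fun s hs => absurd (mem_univ s) hs⟩ t

/-- The version for groups without odd torsion: `|K^*| = 2 m`, `m` odd; the function `f` is invariant under
the squares, that is under the elements `s` with `s ^ m = 1`. -/
theorem constM2_aux {w : Kˣ} (hw : w ≠ 1) {m : ℕ} (hwm : w ^ m = 1)
    (hcard : Fintype.card Kˣ = 2 * m) (hodd : Odd m) (htor : ∀ x : M, m • x = 0 → x = 0)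
    (n : ℕ) : ∀ f : Kˣ → M, RelM w f →
      (∃ T : Finset Kˣ, T.card ≤ n ∧ ∀ s ∉ T, ∀ t, f (s * t) = f t) →
      ∀ s : Kˣ, s ^ m = 1 → ∀ t, f (s * t) = f t := by
  classical
  induction n with
  | zero =>
    rintro f _ ⟨T, hT, hT2⟩ s _ t
    have hT0 : T = ∅ := card_eq_zero.mp (by omega)
    exact hT2 s (by rw [hT0]; exact notMem_empty _) t
  | succ n ih =>
    rintro f hf ⟨T0, hT0, hT02⟩
    by_contra hall
    push Not at hall
    obtain ⟨z, hzm, tz, hz⟩ := hall
    let S : Finset Kˣ := univ.filter fun s => ∀ t, f (s * t) = f t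
    let T : Finset Kˣ := univ.filter fun s => ¬ ∀ t, f (s * t) = f t
    let T2 : Finset Kˣ := univ.filter fun s => s ^ m = 1 ∧ ¬ ∀ t, f (s * t) = f t
    have memS : ∀ s, s ∈ S ↔ ∀ t, f (s * t) = f t := fun s => by simp [S]
    have memT : ∀ s, s ∈ T ↔ ¬ ∀ t, f (s * t) = f t := fun s => by simp [T]
    have memT2 : ∀ s, s ∈ T2 ↔ s ^ m = 1 ∧ ¬ ∀ t, f (s * t) = f t := fun s => by simp [T2]
    have hTT0 : T ⊆ T0 := by
      intro s hs
      by_contra hcon
      exact (memT s).mp hs (hT02 s hcon)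
    have h1S : (1 : Kˣ) ∈ S := by simp [S]
    have mulS : ∀ s s', s ∈ S → s' ∈ S → s * s' ∈ S := by
      intro s s' hs hs'
      rw [memS] at hs hs' ⊢
      intro t
      rw [mul_assoc, hs, hs']
    have invS : ∀ s, s ∈ S → s⁻¹ ∈ S := by
      intro s hs
      rw [memS] at hs ⊢
      intro t
      have := hs (s⁻¹ * t)
      rw [mul_inv_cancel_left] at this
      exact this.symm
    have hzS : z ∉ S := by
      rw [memS]
      intro hcon
      exact hz (hcon tz)
    have hwS : w ∈ S := (memS w).mpr hf.1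
    have hz2 : z * z ∉ S := by
      intro hcon
      apply hzS
      obtain ⟨q, hq⟩ := hodd
      have h1 : ∀ k : ℕ, (z * z) ^ k ∈ S := by
        intro k
        induction k with
        | zero => simpa using h1S
        | succ k ihk =>
          rw [pow_succ]
          exact mulS _ _ ihk hcon
      have h2 : z = (z * z) ^ (q + 1) := by
        have h3 : (z * z) ^ (q + 1) = z ^ m * z := by
          rw [← pow_two, ← pow_mul, hq, ← pow_succ]
          congr 1
        rw [h3, hzm, one_mul]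
      rw [h2]
      exact h1 _
    have hpm : ∀ s s' : Kˣ, s ^ m ≠ 1 → s' ^ m ≠ 1 → (s * s') ^ m = 1 := by
      have h1 : ∀ s : Kˣ, s ^ m ≠ 1 → s ^ m = -1 := by
        intro s hs
        have h2 : (s ^ m) ^ 2 = 1 := by
          rw [← pow_mul, mul_comm, ← hcard]
          exact pow_card_eq_one
        have h3 : ((s ^ m : Kˣ) : K) ^ 2 = 1 := by
          rw [← Units.val_pow_eq_pow_val, h2, Units.val_one]
        rcases sq_eq_one_iff.mp h3 with h4 | h4
        · exact absurd (Units.ext (by rw [h4, Units.val_one])) hs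
        · exact Units.ext (by rw [h4, Units.val_neg, Units.val_one])
      intro s s' hs hs'
      rw [mul_pow, h1 s hs, h1 s' hs', neg_mul_neg, one_mul]
    have h1 : S.card ≤ T2.card := by
      by_cases hn : ∃ n0 ∈ S, n0 ^ m ≠ 1
      · obtain ⟨n0, hn0S, hn0⟩ := hn
        apply card_le_card_of_injOn (fun s => if s ^ m = 1 then z * s else z * z * (n0 * s))
        · intro s hs
          rw [mem_coe] at hs ⊢
          rw [memT2, ← memS]
          dsimp only
          split_ifs with h4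
          · refine ⟨by rw [mul_pow, hzm, h4, one_mul], fun hcon => hzS ?_⟩
            have := mulS _ _ hcon (invS _ hs)
            rwa [mul_inv_cancel_right] at this
          · refine ⟨by rw [mul_pow, mul_pow, hzm, hpm _ _ hn0 h4, one_mul, one_mul], fun hcon => hz2 ?_⟩
            have := mulS _ _ hcon (invS _ (mulS _ _ hn0S hs))
            rwa [mul_inv_cancel_right] at this
        · intro s hs s' hs' hss
          rw [mem_coe] at hs hs'
          dsimp only at hss
          split_ifs at hss with h4 h5 h5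
          · exact mul_left_cancel hss
          · exfalso
            apply hzS
            rw [mul_assoc] at hss
            have h6 := mul_left_cancel hss
            have h7 : z = s * (n0 * s')⁻¹ := by rw [h6, mul_inv_cancel_right]
            rw [h7]
            exact mulS _ _ hs (invS _ (mulS _ _ hn0S hs'))
          · exfalso
            apply hzS
            rw [mul_assoc] at hss
            have h6 := mul_left_cancel hss
            have h7 : z = s' * (n0 * s)⁻¹ := by rw [← h6, mul_inv_cancel_right]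
            rw [h7]
            exact mulS _ _ hs' (invS _ (mulS _ _ hn0S hs))
          · exact mul_left_cancel (mul_left_cancel hss)
      · push Not at hn
        apply card_le_card_of_injOn (fun s => z * s)
        · intro s hs
          rw [mem_coe] at hs ⊢
          rw [memT2, ← memS]
          refine ⟨by rw [mul_pow, hzm, hn s hs, one_mul], fun hcon => hzS ?_⟩
          have := mulS _ _ hcon (invS _ hs)
          rwa [mul_inv_cancel_right] at this
        · intro s _ s' _ hss
          exact mul_left_cancel hss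
    have hne : ∀ y ∈ T2, y ≠ 1 ∧ y ≠ w := by
      intro y hy
      have hy' : y ∉ S := by
        rw [memS]
        exact ((memT2 y).mp hy).2
      exact ⟨by rintro rfl; exact hy' h1S, by rintro rfl; exact hy' hwS⟩
    have h2 : ∃ y ∈ T2, rho w y ∈ T := by
      by_contra hcon
      push Not at hcon
      have h3 : T2.card ≤ (S.erase 1).card := by
        apply card_le_card_of_injOn (fun y => rho w y)
        · intro y hy
          have hy' := hcon y hy
          rw [mem_coe, mem_erase]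
          constructor
          · intro h4
            change rho w y = 1 at h4
            have h5 := rho_spec (hne y hy).1 (hne y hy).2
            rw [h4, Units.val_one, one_mul] at h5
            apply hw
            apply Units.ext
            rw [Units.val_one]
            linear_combination h5
          · rw [memS]
            by_contra h6
            exact hy' ((memT _).mpr h6)
        · intro y hy y' hy' hyy
          exact rho_inj hw (hne y hy).1 (hne y hy).2 (hne y' hy').1 (hne y' hy').2 hyy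
      rw [card_erase_of_mem h1S] at h3
      have h4 : 0 < S.card := card_pos.mpr ⟨1, h1S⟩
      omega
    obtain ⟨y, hy, hr⟩ := h2
    set r := rho w y with hrdef
    have hrel : ∀ t, f (t * y) - f t = f (t * r * y) - f (t * r) := fun t =>
      hf.2 t y r (hne y hy).1 (hne y hy).2 (rho_spec (hne y hy).1 (hne y hy).2)
    let f1 : Kˣ → M := fun t => f (t * y) - f t
    have hf1 : RelM w f1 := by
      constructor
      · intro t
        change f (w * t * y) - f (w * t) = f (t * y) - f t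
        rw [mul_assoc, hf.1, hf.1]
      · intro t y' r' h3 h4 h5
        change f (t * y' * y) - f (t * y') - (f (t * y) - f t) =
          f (t * r' * y' * y) - f (t * r' * y') - (f (t * r' * y) - f (t * r'))
        have e1 := hf.2 t y' r' h3 h4 h5
        have e2 := hf.2 (t * y) y' r' h3 h4 h5
        rw [show t * y * y' = t * y' * y by rw [mul_right_comm], show t * y * r' * y' = t * r' * y' * y by
          rw [mul_right_comm t y r', mul_right_comm (t * r') y y'],
          show t * y * r' = t * r' * y by rw [mul_right_comm]] at e2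
        linear_combination (norm := abel) e2 - e1
    have hinv := ih f1 hf1 ⟨T.erase r, by
      rw [card_erase_of_mem hr]
      have := card_le_card hTT0
      omega, by
      intro s hs t
      change f (s * t * y) - f (s * t) = f (t * y) - f t
      rw [mem_erase] at hs
      push Not at hs
      by_cases hsy : s = r
      · have := hrel t
        rw [hsy, mul_comm r t]
        exact this.symm
      · have hsT := hs hsy
        have hsS : ∀ t, f (s * t) = f t := by
          by_contra h6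
          exact hsT ((memT _).mpr h6)
        rw [mul_assoc, hsS, hsS]⟩
    have hym : y ^ m = 1 := ((memT2 y).mp hy).1
    apply ((memT2 y).mp hy).2
    intro t
    have h7 : ∀ k : ℕ, f (t * y ^ (k + 1)) - f (t * y ^ k) = f1 t := by
      intro k
      have h8 := hinv (y ^ k) (by rw [← pow_mul, mul_comm, pow_mul, hym, one_pow]) t
      rw [← h8]
      change _ = f (y ^ k * t * y) - f (y ^ k * t)
      rw [pow_succ, mul_comm (y ^ k) t, mul_assoc]
    have h9 : ∑ k ∈ range m, (f (t * y ^ (k + 1)) - f (t * y ^ k)) = 0 := by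
      rw [sum_range_sub (fun k => f (t * y ^ k)), hym, pow_zero, sub_self]
    rw [sum_congr rfl (fun k _ => h7 k), sum_const, card_range] at h9
    have h10 : f (t * y) - f t = 0 := htor _ h9
    rw [mul_comm]
    exact sub_eq_zero.mp h10

theorem constM2_of_rel {w : Kˣ} (hw : w ≠ 1) {m : ℕ} (hwm : w ^ m = 1)
    (hcard : Fintype.card Kˣ = 2 * m) (hodd : Odd m) (htor : ∀ x : M, m • x = 0 → x = 0)
    {f : Kˣ → M} (hf : RelM w f) {s : Kˣ} (hs : s ^ m = 1) (t : Kˣ) : f (s * t) = f t := by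
  classical
  exact constM2_aux hw hwm hcard hodd htor (univ : Finset Kˣ).card f hf
    ⟨univ, le_rfl, fun s hs => absurd (mem_univ s) hs⟩ s hs t

end Const

/-- The hypotheses of Ihara's lemma: `h` on the fractions with denominator prime to `N`. -/
structure Ih {M : Type} [AddCommGroup M] (p N L : ℕ) (h : ℚ → M) : Prop where
  hp : p.Prime
  hN : 1 < N
  hpN : p.Coprime N
  hL : (N : ℤ) ∣ (p : ℤ) ^ L - 1
  hL0 : 0 < L
  h0 : h 0 = 0
  per : ∀ b d : ℤ, IsCoprime d (N : ℤ) → h ((b : ℚ) / d + 1) = h ((b : ℚ) / d)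
  eqv : ∀ a b c d : ℤ, a * d - b * c = 1 → (N : ℤ) ∣ c → (N : ℤ) ∣ d - 1 → ∀ u v : ℤ,
    IsCoprime v (N : ℤ) →
    h (((a * u + b * v : ℤ) : ℚ) / ((c * u + d * v : ℤ) : ℚ)) = h ((b : ℚ) / d) + h ((u : ℚ) / v)
  sc : ∀ u v : ℤ, IsCoprime v (N : ℤ) → h ((p : ℚ) ^ L * ((u : ℚ) / v)) = h ((u : ℚ) / v)

variable {M : Type} [AddCommGroup M] {p N L : ℕ} {h : ℚ → M}

lemma Ih.per_int (H : Ih p N L h) (b d n : ℤ) (hdN : IsCoprime d (N : ℤ)) :
    h (((b + n * d : ℤ) : ℚ) / d) = h ((b : ℚ) / d) := by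
  have hdQ : (d : ℚ) ≠ 0 := by exact_mod_cast ne_of_cop H.hN hdN
  have step : ∀ m : ℤ, h (((b + (m + 1) * d : ℤ) : ℚ) / d) = h (((b + m * d : ℤ) : ℚ) / d) := by
    intro m
    rw [← H.per (b + m * d) d hdN]
    congr 1
    push_cast
    field_simp
    ring
  induction n using Int.induction_on with
  | zero => simp
  | succ n ih => rw [step, ih]
  | pred n ih =>
    rw [← ih, ← step (-(n : ℤ) - 1)]
    congr 4
    ring

lemma Ih.congr (H : Ih p N L h) {b d n : ℤ} (hdN : IsCoprime d (N : ℤ))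
    (hn : d ∣ n - b) : h ((n : ℚ) / d) = h ((b : ℚ) / d) := by
  obtain ⟨m, hm⟩ := hn
  rw [← H.per_int b d m hdN]
  congr 3
  linear_combination hm

lemma Ih.low (H : Ih p N L h) {b d d' : ℤ}
    (hdN : IsCoprime d (N : ℤ)) (hdd : (N : ℤ) * b ∣ d' - d) :
    h ((b : ℚ) / d') = h ((b : ℚ) / d) := by
  obtain ⟨x, hx⟩ := hdd
  have hd2 : d' = N * x * b + 1 * d := by linear_combination hx
  have h1 := H.eqv 1 0 (N * x) 1 (by ring) (dvd_mul_right _ _) (by simp) b d hdN
  rw [← hd2] at h1
  have e1 : ((0 : ℤ) : ℚ) / ((1 : ℤ) : ℚ) = 0 := by simp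
  rw [e1, H.h0, zero_add] at h1
  simpa using h1

lemma Ih.sc_pow (H : Ih p N L h) {u v : ℤ} (hvN : IsCoprime v (N : ℤ)) (j : ℕ) (hj : L ∣ j) :
    h (((u * (p : ℤ) ^ j : ℤ) : ℚ) / v) = h ((u : ℚ) / v) := by
  obtain ⟨q, rfl⟩ := hj
  induction q with
  | zero => simp
  | succ q ih =>
    have h2 := H.sc (u * (p : ℤ) ^ (L * q)) v hvN
    rw [← ih, ← h2]
    congr 1
    push_cast
    rw [show L * (q + 1) = L * q + L by ring, pow_add]
    ring

lemma Ih.sc_den (H : Ih p N L h) {u v : ℤ} (hvN : IsCoprime v (N : ℤ)) (j : ℕ) (hj : L ∣ j) :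
    h ((u : ℚ) / ((p ^ j * v : ℤ) : ℚ)) = h ((u : ℚ) / v) := by
  have hp0 : (p : ℤ) ≠ 0 := by exact_mod_cast H.hp.ne_zero
  have hpQ : (p : ℚ) ≠ 0 := by exact_mod_cast H.hp.ne_zero
  have hvQ : (v : ℚ) ≠ 0 := by exact_mod_cast ne_of_cop H.hN hvN
  have h1 := H.sc_pow (u := u) ((cop_p H.hpN j).mul_left hvN) j hj
  have e1 : ((u * (p : ℤ) ^ j : ℤ) : ℚ) / ((p ^ j * v : ℤ) : ℚ) = (u : ℚ) / v := by
    push_cast
    field_simp
  rw [e1] at h1
  exact h1.symm

/-- The basic relation. -/
lemma Ih.basic (H : Ih p N L h) {l : ℕ} {a e k : ℤ} {j : ℕ} (hj : L ∣ j)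
    (hae : (N : ℤ) * l ∣ a * e - 1) (he1 : (N : ℤ) ∣ e - 1) :
    h ((l : ℚ) / ((e * ((p : ℤ) ^ j - N * k * a) : ℤ) : ℚ)) =
      h ((l : ℚ) / e) + h (((N * k * l : ℤ) : ℚ) / (((p : ℤ) ^ j - N * k * a : ℤ) : ℚ)) := by
  obtain ⟨m, hm⟩ := hae
  obtain ⟨Y, hYd⟩ : ∃ Y : ℤ, Y = (p : ℤ) ^ j - N * k * a := ⟨_, rfl⟩
  rw [← hYd]
  have hYN : IsCoprime Y (N : ℤ) :=
    coprime_of_dvd_sub ⟨-(k * a), by rw [hYd]; ring⟩ (cop_p H.hpN j)
  have heN : IsCoprime e (N : ℤ) := ⟨a, -(l * m), by linear_combination hm⟩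
  have hcop : IsCoprime (N * m * (N * k * l) + e * Y) (N : ℤ) :=
    coprime_of_dvd_sub (y := e * Y) ⟨m * (N * k * l), by ring⟩ (heN.mul_left hYN)
  have h1 := H.eqv a l (N * m) e (by linear_combination hm) (dvd_mul_right _ _) he1 (N * k * l) Y
    hYN
  have e1 : a * (N * k * l) + l * Y = l * (p : ℤ) ^ j := by
    rw [hYd]
    ring
  rw [e1, H.sc_pow hcop j hj] at h1
  have h2 := H.low (b := (l : ℤ)) (d := e * Y) (d' := N * m * (N * k * l) + e * Y)
    (heN.mul_left hYN) ⟨m * (N * k), by ring⟩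
  rw [h2] at h1
  push_cast at h1 ⊢
  exact h1

/-- The same symbol expressed in two ways. -/
lemma Ih.twoway (H : Ih p N L h) {l : ℕ} {a a' e e' k : ℤ} {j : ℕ} (hj : L ∣ j)
    (hae : (N : ℤ) * l ∣ a * e - 1) (hae' : (N : ℤ) * l ∣ a' * e' - 1)
    (hk : N * k * (a' - a) = (p : ℤ) ^ j - 1) (he1 : (N : ℤ) ∣ e - 1) (he1' : (N : ℤ) ∣ e' - 1) :
    h ((l : ℚ) / ((e * (1 - N * k * a) : ℤ) : ℚ)) - h ((l : ℚ) / e) =
      h ((l : ℚ) / ((e' * (1 - N * k * a) : ℤ) : ℚ)) - h ((l : ℚ) / e') := by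
  have hY1 : (p : ℤ) ^ 0 - N * k * a = 1 - N * k * a := by rw [pow_zero]
  have hY2 : (p : ℤ) ^ j - N * k * a' = 1 - N * k * a := by linear_combination -hk
  have h1 := H.basic (j := 0) (k := k) (dvd_zero _) hae he1
  have h2 := H.basic (j := j) (k := k) hj hae' he1'
  rw [hY1] at h1
  rw [hY2] at h2
  rw [h1, h2]
  abel

/-- For a large prime `l` the value at `l / D`, `D ≡ 1` modulo `N`, is a function `f` of `D` modulo `l` which
satisfies the relations `RelM`. -/
theorem Ih.numlf (H : Ih p N L h) {l J : ℕ} [Fact l.Prime] (hl : l.Prime) (hJL : L ∣ J)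
    (hJN : (N : ℤ) ^ 2 ∣ (p : ℤ) ^ J - 1) (hJ0 : 0 < J) (hlN : N < l)
    (hlJ : p ^ (2 * J) < l) : ∃ (w : (ZMod l)ˣ) (f : (ZMod l)ˣ → M), w ≠ 1 ∧
      (w : ZMod l) = (p : ZMod l) ^ (2 * J) ∧ RelM w f ∧
      ∀ (t : (ZMod l)ˣ) (e : ℤ), (N : ℤ) ∣ e - 1 → ((e : ℤ) : ZMod l) = t →
        h ((l : ℚ) / ((e : ℤ) : ℚ)) = f t := by
  classical
  have hll : Prime (l : ℤ) := Nat.prime_iff_prime_int.mp hl
  have hp2 := H.hp.two_le
  have hpl : p < l := by
    refine lt_of_le_of_lt ?_ hlJ
    calc p = p ^ 1 := (pow_one p).symm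
      _ ≤ p ^ (2 * J) := Nat.pow_le_pow_right (by omega) (by omega)
  have hl2 : 2 < l := by omega
  have hNpos : 0 < N := by have := H.hN; omega
  have hNl : ¬ (l : ℤ) ∣ N := by
    intro hcon
    have h1 : l ∣ N := by exact_mod_cast hcon
    have := Nat.le_of_dvd hNpos h1
    omega
  have hNlc : IsCoprime (N : ℤ) (l : ℤ) := isCoprime_natCast_of_not_dvd hl hNl
  have hNK : ((N : ℤ) : ZMod l) ≠ 0 := by
    intro hcon
    exact hNl ((ZMod.intCast_zmod_eq_zero_iff_dvd _ _).mp hcon)
  have hpK : (p : ZMod l) ≠ 0 := by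
    intro hcon
    have h1 := (ZMod.natCast_eq_zero_iff _ _).mp hcon
    have := Nat.le_of_dvd H.hp.pos h1
    omega
  -- dependence on the class modulo `N l`
  have hcls : ∀ e e' : ℤ, IsCoprime e (N : ℤ) → (N : ℤ) ∣ e' - e →
      (l : ℤ) ∣ e' - e → h ((l : ℚ) / e') = h ((l : ℚ) / e) := by
    intro e e' h1 h3 h4
    have h5 : (N : ℤ) * (l : ℤ) ∣ e' - e := hNlc.mul_dvd h3 h4
    have := H.low (b := (l : ℤ)) h1 h5
    push_cast at this
    exact this
  have hch : ∀ t : (ZMod l)ˣ, ∃ e : ℤ, (N : ℤ) ∣ e - 1 ∧ ((e : ℤ) : ZMod l) = t := by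
    intro t
    obtain ⟨x, hx1, hx2⟩ := crt hNlc 1 ((t : ZMod l).val : ℤ)
    refine ⟨x, hx1, ?_⟩
    rw [← zmod_eq_iff] at hx2
    rw [hx2]
    simp
  choose E hE1 hE2 using hch
  have hEN : ∀ t, IsCoprime (E t) (N : ℤ) := fun t => cop_of_dvd_sub_one (hE1 t)
  have hEl : ∀ t, ¬ (l : ℤ) ∣ E t := by
    intro t hcon
    have h1 := (ZMod.intCast_zmod_eq_zero_iff_dvd _ _).mpr hcon
    rw [hE2 t] at h1
    exact t.ne_zero h1
  let f : (ZMod l)ˣ → M := fun t => h ((l : ℚ) / ((E t : ℤ) : ℚ))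
  have hf : ∀ (t : (ZMod l)ˣ) (e : ℤ), (N : ℤ) ∣ e - 1 → ((e : ℤ) : ZMod l) = t →
      h ((l : ℚ) / ((e : ℤ) : ℚ)) = f t := by
    intro t e h1 h2
    apply hcls (E t) e (hEN t)
    · have : e - E t = (e - 1) - (E t - 1) := by ring
      rw [this]
      exact dvd_sub h1 (hE1 t)
    · rw [← zmod_eq_iff, h2, hE2]
  have hpu : IsUnit ((p : ZMod l) ^ (2 * J)) := (pow_ne_zero _ hpK).isUnit
  obtain ⟨w, hw⟩ := hpu
  have hw1 : w ≠ 1 := by
    rintro rfl
    rw [Units.val_one] at hw
    have h1 : (((p ^ (2 * J) - 1 : ℕ) : ℕ) : ZMod l) = 0 := by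
      rw [Nat.cast_sub (Nat.one_le_pow _ _ (by omega)), Nat.cast_pow, ← hw]
      simp
    rw [ZMod.natCast_eq_zero_iff] at h1
    have h2 : 1 < p ^ (2 * J) := Nat.one_lt_pow (by omega) (by omega)
    have h3 := Nat.le_of_dvd (by omega) h1
    omega
  have hNJ : ∀ n : ℕ, (N : ℤ) ∣ (p : ℤ) ^ (J * n) - 1 := by
    intro n
    exact (dvd_pow_self _ (by norm_num)).trans (dvd_pow_mul_sub hJN n)
  have hrel : RelM w f := by
    constructor
    · intro t
      rw [← hf (w * t) ((p : ℤ) ^ (2 * J) * E t)]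
      · have h1 := H.sc_den (u := (l : ℤ)) (v := E t) (hEN t) (2 * J) (hJL.mul_left 2)
        push_cast at h1 ⊢
        exact h1
      · have h1 : (p : ℤ) ^ (2 * J) * E t - 1 = ((p : ℤ) ^ (J * 2) - 1) * E t + (E t - 1) := by
          ring
        rw [h1]
        exact dvd_add ((hNJ 2).mul_right _) (hE1 t)
      · push_cast
        rw [hE2, hw]
    · intro t y r hy1 hyw hr
      -- an inverse of `E t` modulo `N l`
      have hENl : IsCoprime (E t) ((N : ℤ) * l) :=
        (hEN t).mul_right (isCoprime_natCast_of_not_dvd hl (hEl t))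
      obtain ⟨a, ha⟩ := exists_inverse hENl
      have haN : IsCoprime a (N : ℤ) := by
        obtain ⟨q, hq⟩ := ha
        exact ⟨E t, -(l * q), by linear_combination hq⟩
      have haK : ((a : ℤ) : ZMod l) * t = 1 := by
        have h1 := (ZMod.intCast_zmod_eq_zero_iff_dvd _ _).mpr ((dvd_mul_left _ _).trans ha)
        push_cast at h1
        rw [hE2] at h1
        linear_combination h1
      have haK0 : ((a : ℤ) : ZMod l) ≠ 0 := left_ne_zero_of_mul_eq_one haK
      -- the prime `k`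
      obtain ⟨x1, hx1⟩ : ∃ x1 : ℤ, ((x1 : ℤ) : ZMod l) * (((N : ℤ) : ZMod l) * ((a : ℤ) : ZMod l)) =
          1 - y := by
        refine ⟨(((1 - (y : ZMod l)) / (((N : ℤ) : ZMod l) * ((a : ℤ) : ZMod l))).val : ℤ), ?_⟩
        have h1 : (((N : ℤ) : ZMod l) * ((a : ℤ) : ZMod l)) ≠ 0 := mul_ne_zero hNK haK0
        rw [Int.cast_natCast, ZMod.natCast_zmod_val, div_mul_cancel₀ _ h1]
      have hx1c : IsCoprime x1 (l : ℤ) := by
        apply isCoprime_natCast_of_not_dvd hl
        intro hcon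
        have h1 := (ZMod.intCast_zmod_eq_zero_iff_dvd _ _).mpr hcon
        rw [h1, zero_mul] at hx1
        exact hy1 (Units.ext (by rw [Units.val_one]; exact (sub_eq_zero.mp hx1.symm).symm))
      have hll1 : IsCoprime (l : ℤ) ((l - 1 : ℕ) : ℤ) := by
        refine ⟨1, -1, ?_⟩
        rw [Nat.cast_sub (by omega)]
        push_cast
        ring
      obtain ⟨k, hkgt, hkp, hkl, hkl1⟩ := dir2 (m₁ := l) (m₂ := l - 1) (by omega) (by omega) hll1
        (x₁ := x1) (x₂ := -1) hx1c (isCoprime_one_left.neg_left) (N + p)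
      have hkK : ((k : ℕ) : ZMod l) * (((N : ℤ) : ZMod l) * ((a : ℤ) : ZMod l)) = 1 - y := by
        rw [← zmod_eq_iff] at hkl
        rw [← hx1, ← hkl]
        push_cast
        rfl
      obtain ⟨j, hj⟩ : ∃ j : ℕ, j = J * ((l - 2) * (k - 1)) := ⟨_, rfl⟩
      have hjL : L ∣ j := by
        rw [hj]
        exact hJL.mul_right _
      have hmod : (l - 2) * (k - 1) ≡ 2 [MOD (l - 1)] := by
        apply Nat.ModEq.symm
        rw [Nat.modEq_iff_dvd]
        obtain ⟨q, hq⟩ := hkl1
        have h1 : ((l - 1 : ℕ) : ℤ) = l - 1 := by rw [Nat.cast_sub (by omega), Nat.cast_one]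
        have h2 : ((l - 2 : ℕ) : ℤ) = l - 2 := by rw [Nat.cast_sub (by omega)]; rfl
        have h3 : ((k - 1 : ℕ) : ℤ) = k - 1 := by
          rw [Nat.cast_sub (by have := hkp.two_le; omega), Nat.cast_one]
        rw [Nat.cast_mul, h1, h2, h3]
        rw [h1] at hq
        refine ⟨(k - 1) - q, ?_⟩
        push_cast
        linear_combination -hq
      have hpj : ((p : ZMod l)) ^ j = w := by
        rw [hw, hj, mul_comm J, mul_comm 2 J, pow_mul, pow_mul (p : ZMod l) J 2, ← pow_mul,
          mul_comm _ J, pow_mul]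
        apply pow_eq_pow_of_modEq hmod
        rw [← pow_mul, mul_comm, pow_mul, ZMod.pow_card_sub_one_eq_one hpK, one_pow]
      have hkpc : Nat.Coprime p k := by
        rw [H.hp.coprime_iff_not_dvd]
        intro hcon
        have := (Nat.prime_dvd_prime_iff_eq H.hp hkp).mp hcon
        omega
      have hkd : (k : ℤ) ∣ (p : ℤ) ^ j - 1 := by
        have h1 : (k : ℤ) ∣ (p : ℤ) ^ (k - 1) - 1 := by
          have h2 := Nat.ModEq.pow_totient hkpc
          rw [Nat.totient_prime hkp] at h2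
          have h3 := Nat.modEq_iff_dvd.mp h2
          push_cast at h3
          rw [← dvd_neg, neg_sub]
          exact h3
        have h2 := dvd_pow_mul_sub h1 (J * (l - 2))
        rw [hj, show J * ((l - 2) * (k - 1)) = (k - 1) * (J * (l - 2)) by ring]
        exact h2
      have hNd : (N : ℤ) ^ 2 ∣ (p : ℤ) ^ j - 1 := by
        rw [hj]
        exact dvd_pow_mul_sub hJN _
      have hkN : IsCoprime ((N : ℤ) ^ 2) (k : ℤ) := by
        apply IsCoprime.pow_left
        apply isCoprime_natCast_of_not_dvd hkp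
        intro hcon
        have h1 : k ∣ N := by exact_mod_cast hcon
        have := Nat.le_of_dvd hNpos h1
        omega
      obtain ⟨m, hm⟩ := hkN.mul_dvd hNd hkd
      obtain ⟨a', ha'⟩ : ∃ a' : ℤ, a' = a + N * m := ⟨_, rfl⟩
      have hkey : (N : ℤ) * k * (a' - a) = (p : ℤ) ^ j - 1 := by
        rw [ha']
        linear_combination -hm
      have haa : (N : ℤ) ∣ a' - a := ⟨m, by rw [ha']; ring⟩
      have haK' : ((k : ℕ) : ZMod l) * (((N : ℤ) : ZMod l) * ((a' : ℤ) : ZMod l)) = w - y := by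
        have h1 : (((N : ℤ) * k * (a' - a) : ℤ) : ZMod l) = (((p : ℤ) ^ j - 1 : ℤ) : ZMod l) := by
          rw [hkey]
        push_cast at h1
        rw [hpj] at h1
        push_cast at hkK ⊢
        linear_combination h1 + hkK
      have hwy : (w : ZMod l) - y ≠ 0 := by
        intro hcon
        exact hyw (Units.ext (sub_eq_zero.mp hcon).symm)
      have haK0' : ((a' : ℤ) : ZMod l) ≠ 0 := by
        intro hcon
        rw [hcon, mul_zero, mul_zero] at haK'
        exact hwy haK'.symm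
      have hal' : ¬ (l : ℤ) ∣ a' := by
        intro hcon
        exact haK0' ((ZMod.intCast_zmod_eq_zero_iff_dvd _ _).mpr hcon)
      have haNl' : IsCoprime a' ((N : ℤ) * l) :=
        (coprime_of_dvd_sub haa haN).mul_right (isCoprime_natCast_of_not_dvd hl hal')
      obtain ⟨e', he'⟩ := exists_inverse haNl'
      have he'K : ((e' : ℤ) : ZMod l) = (t * r : (ZMod l)ˣ) := by
        have h1 := (ZMod.intCast_zmod_eq_zero_iff_dvd _ _).mpr ((dvd_mul_left _ _).trans he')
        push_cast at h1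
        rw [Units.val_mul]
        have h2 : ((a' : ℤ) : ZMod l) * (t * r) = 1 := by
          have h3 : (w : ZMod l) - y ≠ 0 := hwy
          have h4 : ((k : ℕ) : ZMod l) * ((N : ℤ) : ZMod l) ≠ 0 := by
            intro hcon
            rw [← mul_assoc, hcon, zero_mul] at haK'
            exact hwy haK'.symm
          apply mul_left_cancel₀ h4
          linear_combination (t : ZMod l) * r * haK' + (t : ZMod l) * hr - (t : ZMod l) * hkK +
            ((k : ℕ) : ZMod l) * ((N : ℤ) : ZMod l) * haK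
        apply mul_left_cancel₀ haK0'
        linear_combination h1 - h2
      have he'D : (N : ℤ) ∣ e' - 1 := by
        have h1 : (N : ℤ) ∣ a * e' - 1 := by
          have : a * e' - 1 = (e' * a' - 1) - (a' - a) * e' := by ring
          rw [this]
          exact dvd_sub ((dvd_mul_right _ _).trans he') (haa.mul_right _)
        have h2 : (N : ℤ) ∣ a * E t - 1 := (dvd_mul_right _ _).trans ha
        have h3 : (N : ℤ) ∣ a * (e' - E t) := by
          have : a * (e' - E t) = (a * e' - 1) - (a * E t - 1) := by ring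
          rw [this]
          exact dvd_sub h1 h2
        have h4 := haN.symm.dvd_of_dvd_mul_left h3
        have : e' - 1 = (e' - E t) + (E t - 1) := by ring
        rw [this]
        exact dvd_add h4 (hE1 t)
      have hYK : ((1 - N * k * a : ℤ) : ZMod l) = y := by
        push_cast at hkK ⊢
        linear_combination -hkK
      have htw := H.twoway (a := a) (a' := a') (e := E t) (e' := e') (k := k) (j := j) hjL
        (by rw [mul_comm a]; rw [mul_comm (E t) a]; exact ha)
        (by rw [mul_comm a' e']; exact he') hkey (hE1 t) he'D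
      rw [hf t (E t) (hE1 t) (hE2 t), hf (t * r) e' he'D he'K,
        hf (t * y) (E t * (1 - N * k * a)), hf (t * r * y) (e' * (1 - N * k * a))] at htw
      · exact htw
      · have : e' * (1 - N * k * a) - 1 = (e' - 1) - N * (k * a * e') := by ring
        rw [this]
        exact dvd_sub he'D (dvd_mul_right _ _)
      · rw [Int.cast_mul, he'K, hYK, ← Units.val_mul]
      · have : E t * (1 - N * k * a) - 1 = (E t - 1) - N * (k * a * E t) := by ring
        rw [this]
        exact dvd_sub (hE1 t) (dvd_mul_right _ _)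
      · rw [Int.cast_mul, hE2, hYK, ← Units.val_mul]
  exact ⟨w, f, hw1, hw, hrel, hf⟩

lemma exists_unit_of_not_dvd {l : ℕ} [Fact l.Prime] {e : ℤ} (he : ¬ (l : ℤ) ∣ e) :
    ∃ t : (ZMod l)ˣ, ((e : ℤ) : ZMod l) = t := by
  have h1 : ((e : ℤ) : ZMod l) ≠ 0 := by
    intro hcon
    exact he ((ZMod.intCast_zmod_eq_zero_iff_dvd _ _).mp hcon)
  exact ⟨Units.mk0 _ h1, rfl⟩

/-- For a large prime `l` the value at `l / D`, `D ≡ 1` modulo `N`, does not depend on `D`. -/
theorem Ih.numl (H : Ih p N L h) {l J : ℕ} (hl : l.Prime) (hJL : L ∣ J)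
    (hJN : (N : ℤ) ^ 2 ∣ (p : ℤ) ^ J - 1) (hJ0 : 0 < J)
    (hlM : ∀ m : M, (l - 1) • m = 0 → m = 0) (hlN : N < l)
    (hlJ : p ^ (2 * J) < l) {D D' : ℤ} (hD : (N : ℤ) ∣ D - 1) (hDl : ¬ (l : ℤ) ∣ D)
    (hDl' : ¬ (l : ℤ) ∣ D') (hDD : (N : ℤ) ∣ D' - 1) :
    h ((l : ℚ) / D) = h ((l : ℚ) / D') := by
  classical
  have : Fact l.Prime := ⟨hl⟩
  obtain ⟨w, f, hw1, -, hrel, hf⟩ := H.numlf hl hJL hJN hJ0 hlN hlJ
  have hcard : ∀ m : M, (Fintype.card (ZMod l)ˣ) • m = 0 → m = 0 := by
    rw [ZMod.card_units]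
    exact hlM
  have hconst := constM_of_rel hw1 hcard hrel
  obtain ⟨t, ht⟩ := exists_unit_of_not_dvd hDl
  obtain ⟨t', ht'⟩ := exists_unit_of_not_dvd hDl'
  rw [hf t D hD ht, hf t' D' hDD ht', hconst t, hconst t']

/-- The version for values without odd torsion, `l ≡ 3` modulo `4`: the value at `l / D` depends only on the
quadratic character of `D` modulo `l`. -/
theorem Ih.numl2 (H : Ih p N L h) {l J : ℕ} [Fact l.Prime] (hl4 : l % 4 = 3) (hJL : L ∣ J)
    (hJN : (N : ℤ) ^ 2 ∣ (p : ℤ) ^ J - 1) (hJ0 : 0 < J)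
    (htor : ∀ q : ℕ, q.Coprime 2 → ∀ m : M, q • m = 0 → m = 0) (hlN : N < l)
    (hlJ : p ^ (2 * J) < l) {D D' : ℤ} (hD : (N : ℤ) ∣ D - 1) (hDl : ¬ (l : ℤ) ∣ D)
    (hDl' : ¬ (l : ℤ) ∣ D') (hDD : (N : ℤ) ∣ D' - 1)
    (hsq : IsSquare (D : ZMod l) ↔ IsSquare (D' : ZMod l)) :
    h ((l : ℚ) / D) = h ((l : ℚ) / D') := by
  classical
  have hl : l.Prime := Fact.out
  obtain ⟨w, f, hw1, hwp, hrel, hf⟩ := H.numlf hl hJL hJN hJ0 hlN hlJ
  obtain ⟨m, hm⟩ : ∃ m : ℕ, m = l / 2 := ⟨_, rfl⟩
  have hlm : l = 2 * m + 1 := by omega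
  have hcard : Fintype.card (ZMod l)ˣ = 2 * m := by
    rw [ZMod.card_units]
    omega
  have hodd : Odd m := by
    rw [Nat.odd_iff]
    omega
  have hmc : m.Coprime 2 := by
    rw [Nat.coprime_two_right]
    exact hodd
  have hwm : w ^ m = 1 := by
    have h1 := ZMod.euler_criterion_units l w
    rw [← hm] at h1
    apply h1.mp
    have hw0 : (p : ZMod l) ^ J ≠ 0 := by
      intro hcon
      apply w.ne_zero
      rw [hwp, mul_comm, pow_mul, hcon]
      norm_num
    refine ⟨Units.mk0 _ hw0, Units.ext ?_⟩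
    rw [Units.val_pow_eq_pow_val, Units.val_mk0, hwp]
    ring
  obtain ⟨t, ht⟩ := exists_unit_of_not_dvd hDl
  obtain ⟨t', ht'⟩ := exists_unit_of_not_dvd hDl'
  rw [hf t D hD ht, hf t' D' hDD ht']
  -- the quotient
  have hE : ∀ u : (ZMod l)ˣ, (u ^ m = 1 ↔ IsSquare (u : ZMod l)) := by
    intro u
    have h1 := ZMod.euler_criterion_units l u
    rw [← hm] at h1
    rw [← h1]
    constructor
    · rintro ⟨y, hy⟩
      exact ⟨y, by rw [← hy, Units.val_pow_eq_pow_val, pow_two]⟩
    · rintro ⟨y, hy⟩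
      have hy0 : y ≠ 0 := by
        rintro rfl
        rw [mul_zero] at hy
        exact u.ne_zero hy
      exact ⟨Units.mk0 _ hy0, Units.ext (by rw [Units.val_pow_eq_pow_val, Units.val_mk0, hy, pow_two])⟩
  have hpm : ∀ u : (ZMod l)ˣ, u ^ m = 1 ∨ u ^ m = -1 := by
    intro u
    have h2 : (u ^ m) ^ 2 = 1 := by
      rw [← pow_mul, mul_comm, ← hcard]
      exact pow_card_eq_one
    have h3 : ((u ^ m : (ZMod l)ˣ) : ZMod l) ^ 2 = 1 := by
      rw [← Units.val_pow_eq_pow_val, h2, Units.val_one]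
    rcases sq_eq_one_iff.mp h3 with h4 | h4
    · exact Or.inl (Units.ext (by rw [h4, Units.val_one]))
    · exact Or.inr (Units.ext (by rw [h4, Units.val_neg, Units.val_one]))
  rw [ht, ht', ← hE, ← hE] at hsq
  have hq : (t * t'⁻¹) ^ m = 1 := by
    rw [mul_pow, inv_pow]
    rcases hpm t with h1 | h1
    · rw [h1, hsq.mp h1, inv_one, one_mul]
    · rcases hpm t' with h2 | h2
      · rw [h2, hsq.mpr h2, inv_one, one_mul]
      · rw [h1, h2, mul_inv_cancel]
  have h5 := constM2_of_rel hw1 hwm hcard hodd (htor m hmc) hrel hq t'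
  rw [inv_mul_cancel_right] at h5
  exact h5

/-- The case `p = 2`. -/
theorem Ih.main2 (H : Ih 2 N L h)
    (htor : ∀ q : ℕ, q.Coprime 2 → ∀ m : M, q • m = 0 → m = 0) (b d : ℤ)
    (hbd : IsCoprime b d) (hdN : (N : ℤ) ∣ d - 1) (hpd : ¬ (2 : ℤ) ∣ d) :
    h ((b : ℚ) / d) = 0 := by
  have hdNc : IsCoprime d (N : ℤ) := cop_of_dvd_sub_one hdN
  have hd : d ≠ 0 := ne_of_cop H.hN hdNc
  have hpp : Prime ((2 : ℕ) : ℤ) := Nat.prime_iff_prime_int.mp H.hp
  obtain ⟨J2, hJ2, hJ2N⟩ := exists_order H.hp (m := (N : ℤ) ^ 2) (fun hcon =>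
    not_dvd_level' H.hp H.hpN (hpp.dvd_of_dvd_pow hcon))
  obtain ⟨J, hJ⟩ : ∃ J : ℕ, J = J2 * L := ⟨_, rfl⟩
  have hJN : (N : ℤ) ^ 2 ∣ ((2 : ℕ) : ℤ) ^ J - 1 := by
    rw [hJ]
    exact dvd_pow_mul_sub hJ2N _
  have hJ0 : 0 < J := by rw [hJ]; exact Nat.mul_pos hJ2 H.hL0
  have hJL : L ∣ J := by rw [hJ]; exact dvd_mul_left _ _
  have hdabs : 0 < d.natAbs := Int.natAbs_pos.mpr hd
  have hNpos : N ≠ 0 := by have := H.hN; omega
  have h4N : IsCoprime ((4 : ℕ) : ℤ) (N : ℤ) := by
    have h1 : Nat.Coprime (2 ^ 2) N := H.hpN.pow_left 2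
    exact Nat.isCoprime_iff_coprime.mpr (by simpa using h1)
  have h34 : IsCoprime (3 : ℤ) ((4 : ℕ) : ℤ) := by
    rw [Int.isCoprime_iff_gcd_eq_one]
    rfl
  -- the auxiliary prime `q`
  obtain ⟨q, hqgt, hqp, hq4, hqN⟩ := dir2 (m₁ := 4) (m₂ := N) (by norm_num) hNpos h4N
    (x₁ := 3) (x₂ := 1) h34 isCoprime_one_left (N + d.natAbs)
  have hq43 : q % 4 = 3 := by push_cast at hq4; omega
  -- the prime `l`
  have hdq : IsCoprime d (q : ℤ) := by
    apply isCoprime_natCast_of_not_dvd hqp
    intro hcon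
    have h1 := Int.natAbs_dvd_natAbs.mpr hcon
    rw [Int.natAbs_natCast] at h1
    have := Nat.le_of_dvd hdabs h1
    omega
  obtain ⟨x, hxd, hxq⟩ := crt hdq b 1
  have hxc : IsCoprime x ((d.natAbs * q : ℕ) : ℤ) := by
    push_cast
    apply IsCoprime.mul_right
    · exact (coprime_of_dvd_sub hxd hbd).abs_right
    · exact coprime_of_dvd_sub hxq isCoprime_one_left
  have hd4 : IsCoprime ((d.natAbs * q : ℕ) : ℤ) ((4 : ℕ) : ℤ) := by
    have h2q : ¬ 2 ∣ q := by omega
    have h2d : ¬ 2 ∣ d.natAbs := by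
      intro hcon
      exact hpd (by omega)
    rw [Nat.isCoprime_iff_coprime]
    have h1 : Nat.Coprime (d.natAbs * q) 2 := by
      rw [Nat.coprime_comm, Nat.prime_two.coprime_iff_not_dvd, Nat.prime_two.dvd_mul]
      exact fun h3 => h3.elim h2d h2q
    have h2 := h1.pow_right 2
    simpa using h2
  obtain ⟨l, hlgt, hlp, hlx, hl4⟩ := dir2 (m₁ := d.natAbs * q) (m₂ := 4)
    (mul_ne_zero (by omega) hqp.ne_zero) (by norm_num) hd4 hxc (x₂ := 3) h34
    (N + d.natAbs + q + 2 ^ (2 * J) + 1)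
  have hJpos : 0 < 2 ^ (2 * J) := by positivity
  have hl43 : l % 4 = 3 := by push_cast at hl4; omega
  have hlb : d ∣ (l : ℤ) - b := by
    have h1 : d ∣ (l : ℤ) - x := by
      refine dvd_trans ?_ hlx
      push_cast
      exact ((dvd_abs d d).mpr dvd_rfl).mul_right _
    have h2 := dvd_add h1 hxd
    rwa [sub_add_sub_cancel] at h2
  have hlq : (q : ℤ) ∣ (l : ℤ) - 1 := by
    have h1 : (q : ℤ) ∣ (l : ℤ) - x := by
      refine dvd_trans ?_ hlx
      push_cast
      exact dvd_mul_left _ _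
    have h2 := dvd_add h1 hxq
    rwa [sub_add_sub_cancel] at h2
  have : Fact l.Prime := ⟨hlp⟩
  have : Fact q.Prime := ⟨hqp⟩
  have hld : ¬ (l : ℤ) ∣ d := by
    intro hcon
    have h1 := Int.natAbs_dvd_natAbs.mpr hcon
    rw [Int.natAbs_natCast] at h1
    have := Nat.le_of_dvd hdabs h1
    omega
  have hlq' : ¬ (l : ℤ) ∣ (q : ℤ) := by
    intro hcon
    have h1 : l ∣ q := by exact_mod_cast hcon
    have := Nat.le_of_dvd hqp.pos h1
    omega
  have hl1 : ¬ (l : ℤ) ∣ 1 := not_dvd_one hlp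
  have hqN1 : (N : ℤ) ∣ (q : ℤ) - 1 := hqN
  have s1 := H.congr hdNc hlb
  have s3 := H.congr (b := 0) (d := 1) (n := (l : ℤ)) isCoprime_one_left (one_dvd _)
  push_cast at s1 s3
  by_cases hsq : IsSquare (d : ZMod l)
  · have s2 := H.numl2 (D := d) (D' := 1) hl43 hJL hJN hJ0 htor (by omega) (by omega) hdN hld hl1
      (by simp) ⟨fun _ => by simp, fun _ => hsq⟩
    push_cast at s2
    rw [← s1, s2, s3, zero_div, H.h0]
  · -- `q` is not a square modulo `l`
    have hlne : l ≠ q := by omega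
    have h1 := ZMod.exists_sq_eq_prime_iff_of_mod_four_eq_three hl43 hq43 hlne
    have h2 : IsSquare (l : ZMod q) := by
      have h3 : (((l : ℤ) - 1 : ℤ) : ZMod q) = 0 := (ZMod.intCast_zmod_eq_zero_iff_dvd _ _).mpr hlq
      push_cast at h3
      rw [sub_eq_zero.mp h3]
      exact IsSquare.one
    have h3 : ¬ IsSquare (q : ZMod l) := fun h4 => h1.mp h4 h2
    have s2 := H.numl2 (D := d) (D' := (q : ℤ)) hl43 hJL hJN hJ0 htor (by omega) (by omega) hdN hld
      hlq' hqN1 ⟨fun h4 => absurd h4 hsq, fun h4 => absurd (by exact_mod_cast h4) h3⟩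
    have s4 := H.congr (b := 1) (d := (q : ℤ)) (n := (l : ℤ)) (cop_of_dvd_sub_one hqN1) hlq
    have s5 := H.low (b := 1) (d := 1) (d' := (q : ℤ)) isCoprime_one_left (by simpa using hqN1)
    have s6 := H.congr (b := 0) (d := 1) (n := 1) isCoprime_one_left (one_dvd _)
    push_cast at s2 s4 s5 s6
    rw [← s1, s2, s4, s5, s6, zero_div, H.h0]

theorem Ih.main (hp2 : p ≠ 2) (H : Ih p N L h)
    (htor : ∀ q : ℕ, q.Coprime p → ∀ m : M, q • m = 0 → m = 0) (b d : ℤ)
    (hbd : IsCoprime b d) (hdN : (N : ℤ) ∣ d - 1) (hpd : ¬ (p : ℤ) ∣ d) :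
    h ((b : ℚ) / d) = 0 := by
  have hpp : Prime (p : ℤ) := Nat.prime_iff_prime_int.mp H.hp
  have hdNc : IsCoprime d (N : ℤ) := cop_of_dvd_sub_one hdN
  have hd : d ≠ 0 := ne_of_cop H.hN hdNc
  obtain ⟨J2, hJ2, hJ2N⟩ := exists_order H.hp (m := (N : ℤ) ^ 2) (fun hcon =>
    not_dvd_level' H.hp H.hpN (hpp.dvd_of_dvd_pow hcon))
  obtain ⟨J, hJ⟩ : ∃ J : ℕ, J = J2 * L := ⟨_, rfl⟩
  have hJN : (N : ℤ) ^ 2 ∣ (p : ℤ) ^ J - 1 := by
    rw [hJ]
    exact dvd_pow_mul_sub hJ2N _
  have hJ0 : 0 < J := by rw [hJ]; exact Nat.mul_pos hJ2 H.hL0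
  have hJL : L ∣ J := by rw [hJ]; exact dvd_mul_left _ _
  have hdabs : 0 < d.natAbs := Int.natAbs_pos.mpr hd
  -- a large prime `l = b` modulo `d`, `l = -1` modulo `p`
  have hpdc : IsCoprime (d.natAbs : ℤ) (p : ℤ) := by
    push_cast
    exact (isCoprime_natCast_of_not_dvd H.hp hpd).abs_left
  have hbc : IsCoprime b (d.natAbs : ℤ) := by
    push_cast
    exact hbd.abs_right
  obtain ⟨l, hlgt, hlp, hlb, hl2⟩ := dir2 (m₁ := d.natAbs) (m₂ := p) (by omega)
    H.hp.ne_zero hpdc hbc (x₂ := -1) (isCoprime_one_left.neg_left) (N + d.natAbs + p ^ (2 * J) + 1)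
  have hlb' : d ∣ (l : ℤ) - b := Int.natAbs_dvd.mp hlb
  have hlM : ∀ m : M, (l - 1) • m = 0 → m = 0 := by
    apply htor
    rw [Nat.coprime_comm, H.hp.coprime_iff_not_dvd]
    intro hcon
    have h1 : (p : ℤ) ∣ (l : ℤ) - 1 := by
      have h2 : ((p : ℕ) : ℤ) ∣ ((l - 1 : ℕ) : ℤ) := by exact_mod_cast hcon
      rwa [Nat.cast_sub (by omega), Nat.cast_one] at h2
    have h3 := dvd_sub hl2 h1
    rw [show (l : ℤ) - -1 - (l - 1) = 2 by ring] at h3
    have h4 : p ∣ 2 := by exact_mod_cast h3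
    exact hp2 ((Nat.prime_dvd_prime_iff_eq H.hp Nat.prime_two).mp h4)
  have hld : ¬ (l : ℤ) ∣ d := by
    intro hcon
    have h1 := Int.natAbs_dvd_natAbs.mpr hcon
    rw [Int.natAbs_natCast] at h1
    have := Nat.le_of_dvd hdabs h1
    omega
  have hl1 : ¬ (l : ℤ) ∣ 1 := not_dvd_one hlp
  have s1 := H.congr hdNc hlb'
  have s2 := H.numl (D := d) (D' := 1) hlp hJL hJN hJ0 hlM (by omega) (by omega) hdN hld hl1
    (by simp)
  have s3 := H.congr (b := 0) (d := 1) (n := (l : ℤ)) isCoprime_one_left (one_dvd _)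
  push_cast at s1 s2 s3
  rw [← s1, s2, s3, zero_div, H.h0]

end Pool.Agent.NSY
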