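import Pool.Agent.MuW2.Ihara
import Pool.Agent.MuSym.Defs

/-!
# Block Y (KEY0): a topological key lemma. Part 1: the sheets (helper6)

See `PAPER_NS.md`, section 4. `Φ` is an additive function of pairs of cusps with values in an abelian group
`M`, invariant under `Γ₁(p ^ r N)`, which vanishes on the pairs of determinant `p ^ n`, `n ≥ n0`.
-/

set_option autoImplicit false

namespace Pool.Agent.NSY

open OnePoint Pool.Agent.MuSym Pool.Agent.MuW2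

/-- The hypotheses of the key lemma. -/
structure Key {M : Type} [AddCommGroup M] (p N r n0 : ℕ) (Φ : OnePoint ℚ → OnePoint ℚ → M) :
    Prop where
  hp : p.Prime
  hN : 1 < N
  hpN : p.Coprime N
  tor : ∀ q : ℕ, q.Coprime p → ∀ m : M, q • m = 0 → m = 0
  add : ∀ x y z, Φ x y + Φ y z = Φ x z
  inv : ∀ a b c d : ℤ, a * d - b * c = 1 → ((p : ℤ) ^ r * N) ∣ c → ((p : ℤ) ^ r * N) ∣ d - 1 →
    ∀ x y, Φ (mob a b c d x) (mob a b c d y) = Φ x y
  A : ∀ a b c d : ℤ, ∀ n ≥ n0, c ≠ 0 → d ≠ 0 → IsCoprime a c → IsCoprime b d →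
    ((p : ℤ) ^ r * N) ∣ c → a * d - b * c = (p : ℤ) ^ n →
    Φ (((a : ℚ) / c : ℚ) : OnePoint ℚ) (((b : ℚ) / d : ℚ) : OnePoint ℚ) = 0
  A0 : ∀ b : ℤ, ∀ n ≥ n0, ¬ (p : ℤ) ∣ b → Φ ∞ (((b : ℚ) / p ^ n : ℚ) : OnePoint ℚ) = 0

variable {M : Type} [AddCommGroup M] {p N r n0 : ℕ} {Φ : OnePoint ℚ → OnePoint ℚ → M}

/-- The value of the path from infinity. -/
def ff (Φ : OnePoint ℚ → OnePoint ℚ → M) (x : ℚ) : M := Φ ∞ (x : OnePoint ℚ)

lemma Key.self (K : Key p N r n0 Φ) (x : OnePoint ℚ) : Φ x x = 0 := by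
  have := K.add x x x
  simpa using this

lemma Key.sub (K : Key p N r n0 Φ) (x y : ℚ) :
    Φ (x : OnePoint ℚ) (y : OnePoint ℚ) = ff Φ y - ff Φ x := by
  have := K.add ∞ (x : OnePoint ℚ) (y : OnePoint ℚ)
  unfold ff
  rw [← this]
  abel

lemma Key.eq_of_A (K : Key p N r n0 Φ) (a b c d : ℤ) (n : ℕ) (hn : n0 ≤ n) (hc : c ≠ 0)
    (hd : d ≠ 0) (hac : IsCoprime a c) (hbd : IsCoprime b d) (hN : ((p : ℤ) ^ r * N) ∣ c)
    (hdet : a * d - b * c = (p : ℤ) ^ n) : ff Φ ((b : ℚ) / d) = ff Φ ((a : ℚ) / c) := by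
  have := K.A a b c d n hn hc hd hac hbd hN hdet
  rw [K.sub] at this
  exact sub_eq_zero.mp this

lemma mob_infty (a b c d : ℤ) (hc : c ≠ 0) :
    mob a b c d ∞ = (((a : ℚ) / c : ℚ) : OnePoint ℚ) := by
  unfold mob
  simp [hc]

lemma mob_infty0 (a b d : ℤ) : mob a b 0 d ∞ = ∞ := by
  unfold mob
  simp

lemma mob_coe (a b c d : ℤ) (x : ℚ) (h : (c : ℚ) * x + d ≠ 0) :
    mob a b c d (x : OnePoint ℚ) = (((a * x + b) / (c * x + d) : ℚ) : OnePoint ℚ) := by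
  unfold mob
  simp [h]

lemma Key.per (K : Key p N r n0 Φ) (x : ℚ) (n : ℤ) : ff Φ (x + n) = ff Φ x := by
  have h := K.inv 1 n 0 1 (by ring) (dvd_zero _) (by simp) ∞ (x : OnePoint ℚ)
  rw [mob_infty0, mob_coe _ _ _ _ _ (by simp)] at h
  unfold ff
  rw [← h]
  congr 2
  push_cast
  ring

lemma Key.pp (K : Key p N r n0 Φ) : Prime (p : ℤ) := Nat.prime_iff_prime_int.mp K.hp

lemma Key.cop_pow (K : Key p N r n0 Φ) {x : ℤ} (h : ¬ (p : ℤ) ∣ x) (n : ℕ) :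
    IsCoprime x ((p : ℤ) ^ n) :=
  (isCoprime_natCast_of_not_dvd K.hp h).pow_right

/-- data of a sheet: `a d - p ^ i c b = 1`, `c d m = p ^ J - 1` -/
structure Sheet (p N i J : ℕ) (a b c d m : ℤ) : Prop where
  det : a * d - (p : ℤ) ^ i * c * b = 1
  hNc : (N : ℤ) ∣ c
  hpc : ¬ (p : ℤ) ∣ c
  hpd : ¬ (p : ℤ) ∣ d
  hm : c * d * m = (p : ℤ) ^ J - 1

section

variable {i J : ℕ} {a b c d m : ℤ}

lemma Sheet.c_ne (S : Sheet p N i J a b c d m) : c ≠ 0 := by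
  rintro rfl
  exact S.hpc (dvd_zero _)

lemma Sheet.d_ne (S : Sheet p N i J a b c d m) : d ≠ 0 := by
  rintro rfl
  exact S.hpd (dvd_zero _)

lemma Sheet.ac (S : Sheet p N i J a b c d m) : IsCoprime a c :=
  ⟨d, -((p : ℤ) ^ i * b), by linear_combination S.det⟩

lemma Sheet.bd (S : Sheet p N i J a b c d m) : IsCoprime b d :=
  ⟨-((p : ℤ) ^ i * c), a, by linear_combination S.det⟩

lemma Sheet.hpm (K : Key p N r n0 Φ) (hJ : 0 < J) (S : Sheet p N i J a b c d m) :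
    ¬ (p : ℤ) ∣ m := by
  intro h
  have h1 : (p : ℤ) ∣ (p : ℤ) ^ J - 1 := by
    rw [← S.hm]
    exact h.mul_left _
  have h2 : (p : ℤ) ∣ 1 := by
    have h3 : (p : ℤ) ∣ (p : ℤ) ^ J := dvd_pow_self _ (by omega)
    have := dvd_sub h3 h1
    simpa using this
  exact K.pp.not_isUnit (isUnit_of_dvd_one h2)

/-- the vector `W / p ^ v` is primitive -/
lemma Sheet.copW (K : Key p N r n0 Φ) (hJ : 0 < J) (S : Sheet p N i J a b c d m) {t : ℕ}
    (ht : 0 < t) {k : ℤ} (hk : ¬ (p : ℤ) ∣ k) :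
    IsCoprime (a * (p : ℤ) ^ t + k * m * c) ((p : ℤ) ^ (t + i) * c) := by
  have hpm := S.hpm K hJ
  apply IsCoprime.mul_right
  · apply K.cop_pow
    intro h
    have h1 : (p : ℤ) ∣ k * m * c := by
      have h3 : (p : ℤ) ∣ a * (p : ℤ) ^ t := (dvd_pow_self _ (by omega)).mul_left _
      exact (dvd_add_right h3).mp h
    rcases K.pp.dvd_or_dvd h1 with h2 | h2
    · rcases K.pp.dvd_or_dvd h2 with h4 | h4
      · exact hk h4
      · exact hpm h4
    · exact S.hpc h2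
  · have h1 : IsCoprime (a * (p : ℤ) ^ t) c := by
      apply IsCoprime.mul_left S.ac
      exact (K.cop_pow S.hpc t).symm
    rw [show a * (p : ℤ) ^ t + k * m * c = a * (p : ℤ) ^ t + c * (k * m) by ring]
    exact h1.add_mul_left_left (k * m)

/-- the vector `X / p ^ v` is primitive -/
lemma Sheet.copX (K : Key p N r n0 Φ) (hJ : 0 < J) (S : Sheet p N i J a b c d m) {t : ℕ}
    (ht : 0 < t) {k : ℤ} (hk : ¬ (p : ℤ) ∣ k) :
    IsCoprime (b * (p : ℤ) ^ (t + i) + k * m * d) ((p : ℤ) ^ (t + i) * d) := by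
  have hpm := S.hpm K hJ
  apply IsCoprime.mul_right
  · apply K.cop_pow
    intro h
    have h1 : (p : ℤ) ∣ k * m * d := by
      have h3 : (p : ℤ) ∣ b * (p : ℤ) ^ (t + i) := (dvd_pow_self _ (by omega)).mul_left _
      exact (dvd_add_right h3).mp h
    rcases K.pp.dvd_or_dvd h1 with h2 | h2
    · rcases K.pp.dvd_or_dvd h2 with h4 | h4
      · exact hk h4
      · exact hpm h4
    · exact S.hpd h2
  · have h1 : IsCoprime (b * (p : ℤ) ^ (t + i)) d := by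
      apply IsCoprime.mul_left S.bd
      exact (K.cop_pow S.hpd (t + i)).symm
    rw [show b * (p : ℤ) ^ (t + i) + k * m * d = b * (p : ℤ) ^ (t + i) + d * (k * m) by ring]
    exact h1.add_mul_left_left (k * m)

lemma level_dvd (hr : r ≤ i) {x : ℤ} (t : ℕ) (h : (N : ℤ) ∣ x) :
    (p : ℤ) ^ r * N ∣ (p : ℤ) ^ (t + i) * x :=
  mul_dvd_mul (pow_dvd_pow _ (by omega)) h

lemma Sheet.frac (K : Key p N r n0 Φ) {a b c : ℤ} (hc : c ≠ 0) {v t i J : ℕ} (hvt : v + t = J)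
    {k k' : ℤ} (hk : k = (p : ℤ) ^ v * k') :
    (b : ℚ) / ((p : ℚ) ^ i * c) + k * a / p ^ (J + i) =
      ((b * (p : ℤ) ^ t + k' * a * c : ℤ) : ℚ) / (((p : ℤ) ^ (t + i) * c : ℤ) : ℚ) := by
  have hp : (p : ℚ) ≠ 0 := by exact_mod_cast K.hp.ne_zero
  have hc' : (c : ℚ) ≠ 0 := by exact_mod_cast hc
  subst hvt
  rw [hk]
  push_cast
  rw [pow_add, pow_add, pow_add]
  field_simp

lemma Sheet.frac' (K : Key p N r n0 Φ) {b d m : ℤ} (hd : d ≠ 0) {v t i J : ℕ} (hvt : v + t = J)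
    {k k' : ℤ} (hk : k = (p : ℤ) ^ v * k') :
    (b : ℚ) / d + k * m / p ^ (J + i) =
      ((b * (p : ℤ) ^ (t + i) + k' * m * d : ℤ) : ℚ) / (((p : ℤ) ^ (t + i) * d : ℤ) : ℚ) := by
  have hp : (p : ℚ) ≠ 0 := by exact_mod_cast K.hp.ne_zero
  have hc' : (d : ℚ) ≠ 0 := by exact_mod_cast hd
  subst hvt
  rw [hk]
  push_cast
  rw [pow_add, pow_add, pow_add]
  field_simp

lemma Sheet.step1 (K : Key p N r n0 Φ) (hr : r ≤ i) (hn : n0 ≤ i) (hJ : 0 < J)
    (S : Sheet p N i J a b c d m) {v t : ℕ} (hvt : v + t = J) (ht : 0 < t) {k k' : ℤ}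
    (hk : k = (p : ℤ) ^ v * k') (hk' : ¬ (p : ℤ) ∣ k') :
    ff Φ ((b : ℚ) / d + k * m / p ^ (J + i)) =
      ff Φ ((a : ℚ) / ((p : ℚ) ^ i * c) + k * m / p ^ (J + i)) := by
  have hp : (p : ℤ) ≠ 0 := by exact_mod_cast K.hp.ne_zero
  rw [Sheet.frac K S.c_ne hvt hk, Sheet.frac' K S.d_ne hvt hk]
  apply K.eq_of_A _ _ _ _ (2 * t + i) (by omega)
    (mul_ne_zero (pow_ne_zero _ hp) S.c_ne) (mul_ne_zero (pow_ne_zero _ hp) S.d_ne)
    (S.copW K hJ ht hk') (S.copX K hJ ht hk') (level_dvd hr t S.hNc)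
  have := S.det
  rw [pow_add, pow_add, two_mul, pow_add]
  linear_combination (p : ℤ) ^ t * (p : ℤ) ^ t * (p : ℤ) ^ i * this

lemma Sheet.step2 (K : Key p N r n0 Φ) (hr : r ≤ i) (hn : n0 ≤ i) (hJ : 0 < J)
    (S : Sheet p N i J a b c d m) {v t v' t' : ℕ} (hvt : v + t = J) (hvt' : v' + t' = J)
    (ht : 0 < t) (ht' : 0 < t') (hvv : v = 0 ∨ v' = 0) {k k' k'' : ℤ}
    (hk : k = (p : ℤ) ^ v * k') (hk' : ¬ (p : ℤ) ∣ k') (hk1 : k + 1 = (p : ℤ) ^ v' * k'')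
    (hk'' : ¬ (p : ℤ) ∣ k'') :
    ff Φ ((b : ℚ) / d + ((k + 1 : ℤ) : ℚ) * m / p ^ (J + i)) =
      ff Φ ((a : ℚ) / ((p : ℚ) ^ i * c) + k * m / p ^ (J + i)) := by
  have hp : (p : ℤ) ≠ 0 := by exact_mod_cast K.hp.ne_zero
  rw [Sheet.frac K S.c_ne hvt hk, Sheet.frac' K S.d_ne hvt' hk1]
  have hdet := S.det
  have hm := S.hm
  rcases hvv with h0 | h0
  · subst h0
    have htJ : t = J := by omega
    subst htJ
    apply K.eq_of_A _ _ _ _ (t' + i) (by omega)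
      (mul_ne_zero (pow_ne_zero _ hp) S.c_ne) (mul_ne_zero (pow_ne_zero _ hp) S.d_ne)
      (S.copW K hJ ht hk') (S.copX K hJ ht' hk'') (level_dvd hr t S.hNc)
    rw [pow_zero, one_mul] at hk
    subst hk
    have h1 : (p : ℤ) ^ t * k'' = (k + 1) * (p : ℤ) ^ t' := by
      rw [hk1, ← hvt', pow_add]
      ring
    rw [pow_add, pow_add]
    linear_combination (p : ℤ) ^ t * (p : ℤ) ^ t' * (p : ℤ) ^ i * hdet -
      m * c * d * (p : ℤ) ^ i * h1 - (p : ℤ) ^ t' * (p : ℤ) ^ i * hm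
  · subst h0
    have htJ : t' = J := by omega
    subst htJ
    apply K.eq_of_A _ _ _ _ (t + i) (by omega)
      (mul_ne_zero (pow_ne_zero _ hp) S.c_ne) (mul_ne_zero (pow_ne_zero _ hp) S.d_ne)
      (S.copW K hJ ht hk') (S.copX K hJ ht' hk'') (level_dvd hr t S.hNc)
    rw [pow_zero, one_mul] at hk1
    subst hk1
    have h1 : (p : ℤ) ^ t' * k' = k * (p : ℤ) ^ t := by
      rw [hk, ← hvt, pow_add]
      ring
    rw [pow_add, pow_add]
    linear_combination (p : ℤ) ^ t * (p : ℤ) ^ t' * (p : ℤ) ^ i * hdet +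
      m * c * d * (p : ℤ) ^ i * h1 - (p : ℤ) ^ t * (p : ℤ) ^ i * hm

lemma Sheet.base (K : Key p N r n0 Φ) (hr : r ≤ i) (hn : n0 ≤ i) (hJ : 0 < J)
    (S : Sheet p N i J a b c d m) :
    ff Φ ((b : ℚ) / d + ((1 : ℤ) : ℚ) * m / p ^ (J + i)) = ff Φ ((a : ℚ) / ((p : ℚ) ^ i * c)) := by
  have hp : (p : ℤ) ≠ 0 := by exact_mod_cast K.hp.ne_zero
  have h1 : ¬ (p : ℤ) ∣ 1 := fun h => K.pp.not_isUnit (isUnit_of_dvd_one h)
  rw [Sheet.frac' K S.d_ne (zero_add J) (k := 1) (k' := 1) (by simp)]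
  rw [show (a : ℚ) / ((p : ℚ) ^ i * c) = (a : ℚ) / (((p : ℤ) ^ i * c : ℤ) : ℚ) by push_cast; rfl]
  have hai : IsCoprime a ((p : ℤ) ^ i * c) := ⟨d, -b, by linear_combination S.det⟩
  apply K.eq_of_A _ _ _ _ i (by omega)
    (mul_ne_zero (pow_ne_zero _ hp) S.c_ne) (mul_ne_zero (pow_ne_zero _ hp) S.d_ne)
    hai (S.copX K hJ hJ h1)
  · exact mul_dvd_mul (pow_dvd_pow _ hr) S.hNc
  · have hdet := S.det
    have hm := S.hm
    rw [pow_add]
    linear_combination (p : ℤ) ^ J * (p : ℤ) ^ i * hdet - (p : ℤ) ^ i * hm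

/-- The sheet lemma. -/
theorem Sheet.main (K : Key p N r n0 Φ) (hr : r ≤ i) (hn : n0 ≤ i) (hJ : 0 < J)
    (S : Sheet p N i J a b c d m) (k : ℕ) (hk0 : 1 ≤ k) (hk : k < p ^ J) :
    ff Φ ((b : ℚ) / d + (k : ℚ) * m / p ^ (J + i)) = ff Φ ((a : ℚ) / ((p : ℚ) ^ i * c)) := by
  have key : ∀ k : ℕ, k ≠ 0 → k < p ^ J → ∃ v t k' : ℕ, v + t = J ∧ 0 < t ∧ ¬ p ∣ k' ∧
      k = p ^ v * k' := by
    intro k hk0 hk
    obtain ⟨v, k', hk', hkk⟩ := Nat.exists_eq_pow_mul_and_not_dvd hk0 p K.hp.ne_one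
    have hk'0 : 0 < k' := Nat.pos_of_ne_zero (by rintro rfl; exact hk' (dvd_zero _))
    have hv : v < J := by
      by_contra hcon
      push Not at hcon
      have h1 : p ^ J ≤ p ^ v := Nat.pow_le_pow_right K.hp.pos hcon
      have h2 : p ^ v * 1 ≤ p ^ v * k' := Nat.mul_le_mul_left _ hk'0
      omega
    exact ⟨v, J - v, k', by omega, by omega, hk', hkk⟩
  induction k with
  | zero => omega
  | succ k ih =>
    by_cases hk1 : k = 0
    · subst hk1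
      have := S.base K hr hn hJ
      push_cast at this ⊢
      simpa using this
    · obtain ⟨v, t, k', hvt, ht, hk', hkk⟩ := key k hk1 (by omega)
      obtain ⟨v', t', k'', hvt', ht', hk'', hkk'⟩ := key (k + 1) (by omega) hk
      have hvv : v = 0 ∨ v' = 0 := by
        by_contra hcon
        push Not at hcon
        have h1 : p ∣ k := by
          rw [hkk]
          exact (dvd_pow_self _ hcon.1).mul_right _
        have h2 : p ∣ k + 1 := by
          rw [hkk']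
          exact (dvd_pow_self _ hcon.2).mul_right _
        have h3 := (Nat.dvd_add_right h1).mp h2
        exact K.hp.one_lt.ne' (Nat.dvd_one.mp h3)
      have e1 := S.step1 K hr hn hJ hvt ht (k := k) (k' := k') (by rw [hkk]; push_cast; rfl)
        (by exact_mod_cast hk')
      have e2 := S.step2 K hr hn hJ hvt hvt' ht ht' hvv (k := k) (k' := k') (k'' := k'')
        (by rw [hkk]; push_cast; rfl) (by exact_mod_cast hk') (by exact_mod_cast hkk')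
        (by exact_mod_cast hk'')
      have e3 := ih (by omega) (by omega)
      push_cast at e1 e2 e3 ⊢
      rw [e2, ← e1, e3]

end

end Pool.Agent.NSY
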