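import Pool.Agent.NS.ZSq
import Pool.Agent.NS.HAll
import Pool.Agent.NS.ZVex
import Pool.Agent.NS.RN_ALL
import Pool.Agent.NS.EAll
import Pool.Agent.MUX.JGAll
import Pool.Agent.MUX.ZFinal

/-!
# NS: the final theorem for `p = 3` inert in `k`, `D ≠ -4` (helper6)
-/

set_option autoImplicit false

open NumberField IsDedekindDomain

namespace Pool.Agent.NSZ

open _root_.MU3 Pool.Agent.MU3 Pool.Agent.MU3A Pool.Agent.MU3B Pool.Agent.RI Pool.Agent.RID
  Pool.Agent.MUX Pool.Agent.MUXK Pool.Agent.MUXJ Pool.Agent.MUXW Pool.Agent.MUXZ Pool.Agent.NSI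
  Pool.Agent.NS Pool.Agent.MU3Z

/-- the inputs of block J -/
theorem i_INPGn (A B : ℤ) (V : ValuationSubring ℂ) (hC : CaseI A B)
    (hV : OverI V (idl (A := A) (B := B) 3)) (hT : TorX A B) :
    InpG 3 (2 * (absD A B).toNat) A B V :=
  ni_INPG Pool.Agent.NSR.rfin Pool.Agent.NSE.efin i_INPn tl_LVX
    (tl_INW tl_LVX n_SUB z_MEM z_TOW z_SUC z_I1 z_KOL) n_SUB (tz_THN z_THG) z_MEM z_CXS
    MUXY.z_REX A B V hC hV hT

/-- `3` is a prime element of `O` -/
theorem three_max {A B : ℤ} (hC : CaseI A B) : (idl (A := A) (B := B) 3).IsMaximal := by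
  have h3 := hC.three
  apply idl_max 3 Nat.prime_three
  intro a b h
  push_cast at h ⊢
  -- `4 (a² + B a b - A b²) = (2 a + B b)² - (B² + 4 A) b² ≡ (2 a + B b)² + b²`
  have h1 : (3 : ℤ) ∣ (2 * a + B * b) ^ 2 + b ^ 2 := by
    have e : (2 * a + B * b) ^ 2 + b ^ 2 = 4 * (a ^ 2 + B * a * b - A * b ^ 2) +
        (B ^ 2 + 4 * A + 1) * b ^ 2 := by ring
    rw [e]
    exact dvd_add (Dvd.dvd.mul_left h 4) (Dvd.dvd.mul_right h3 _)
  have h2 : ∀ x y : ℤ, (3 : ℤ) ∣ x ^ 2 + y ^ 2 → (3 : ℤ) ∣ x ∧ (3 : ℤ) ∣ y := by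
    intro x y hxy
    have hx : x % 3 = 0 ∨ x % 3 = 1 ∨ x % 3 = 2 := by omega
    have hy : y % 3 = 0 ∨ y % 3 = 1 ∨ y % 3 = 2 := by omega
    have hm : (x ^ 2 + y ^ 2) % 3 = 0 := Int.emod_eq_zero_of_dvd hxy
    rw [Int.add_emod, pow_two, pow_two, Int.mul_emod x x, Int.mul_emod y y] at hm
    rcases hx with hx | hx | hx <;> rcases hy with hy | hy | hy <;> rw [hx, hy] at hm <;>
      first
        | exact ⟨Int.dvd_of_emod_eq_zero hx, Int.dvd_of_emod_eq_zero hy⟩
        | (exfalso; norm_num at hm)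
  obtain ⟨h4, h5⟩ := h2 _ _ h1
  refine ⟨?_, h5⟩
  have h6 : (3 : ℤ) ∣ 2 * a := by
    have e : 2 * a = (2 * a + B * b) - B * b := by ring
    rw [e]
    exact dvd_sub h4 (Dvd.dvd.mul_left h5 B)
  omega

/-- THE MAIN THEOREM, `3` inert -/
theorem z_main3 (A B : ℤ) (hC : CaseI A B)
    (F M K : IntermediateField ℚ ℂ) [FiniteDimensional ℚ M] (hF : kk A B ≤ F) (h : F ≤ M)
    (a : ℕ) (hT : TorU A B F) (hGal : IsGalois F (IntermediateField.extendScalars h))
    (ha : Module.finrank F (IntermediateField.extendScalars h) = 3 ^ a) (hK : K ≤ M) :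
    ∃ C : ℕ, ∀ (n : ℕ) (Q : IntermediateField ℚ ℂ), IsLayer 3 n Q →
      padicValNat 3 (classNo (K ⊔ Q)) ≤ C * (n + 1) ^ C := by
  have : Fact (Nat.Prime 3) := ⟨Nat.prime_three⟩
  have hCQ : MUX.CQ A B := hC.toCQ
  have hmax := three_max hC
  obtain ⟨V, hV⟩ := vex hCQ _ hmax
  have hTor := MUXC.c_TOR A B hCQ
  have hpos : 0 < absD A B := by
    have := hCQ.neg
    unfold absD
    omega
  have h3 := hC.three
  have hn3 : ¬ 3 ∣ (absD A B).toNat := by
    intro h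
    have h4 : (3 : ℤ) ∣ absD A B := by
      have h5 : ((3 : ℕ) : ℤ) ∣ (((absD A B).toNat : ℕ) : ℤ) := Int.natCast_dvd_natCast.2 h
      rwa [Int.toNat_of_nonneg hpos.le] at h5
    unfold absD at h4
    omega
  have hd3 : absD A B ≠ 3 := by
    intro h
    unfold absD at h
    omega
  have hd4 : absD A B ≠ 4 := by
    intro h
    apply hC.exc
    unfold absD at h
    rcases hCQ.hB with hB | hB
    · refine ⟨hB, ?_⟩
      rw [hB] at h
      omega
    · rw [hB] at h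
      omega
  have hNL : NLex A B := by
    obtain ⟨L, om, hL⟩ := MUXY.z_NLE A B hCQ hd3 hd4 ⊤ (by
      have := (MUXE.xe_RNG A B hCQ).ded
      exact bot_ne_top.symm)
    exact ⟨⊤, L, om, hL⟩
  have hU : UnrH A B V := by
    have h1 := (Pool.Agent.NSR.rfin A B V hC hV hTor).2 1 one_ne_zero (by norm_num)
    have h2 : idl (A := A) (B := B) 1 = ⊤ := by
      unfold idl
      rw [Nat.cast_one, Ideal.span_singleton_one]
    rw [h2] at h1
    exact h1
  refine j_FING 3 1 (2 * (absD A B).toNat) A B (idl 3) V (aboX 3 (Or.inr rfl) hCQ hmax V hV)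
    (by omega) ?_ (fun _ => dvd_mul_right 2 _) hU hTor hNL (i_INPGn A B V hC hV hTor) F M K hF h a
    hT hGal ha hK
  intro h4
  rcases (Nat.Prime.dvd_mul Nat.prime_three).1 h4 with h5 | h5
  · norm_num at h5
  · exact hn3 h5

/-- every finite extension of `ℚ` inside the maximal abelian extension of `ℚ(√-d)`, `d ≡ 1` modulo 3,
`d ≠ 1` -/
theorem final3 (d : ℕ) (hd : Squarefree d) (h3 : d % 3 = 1) (h1 : d ≠ 1)
    (K : IntermediateField ℚ ℂ) [FiniteDimensional ℚ K] (hK : K ≤ weberField d) :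
    ∃ C : ℕ, ∀ (n : ℕ) (Q : IntermediateField ℚ ℂ), IsLayer 3 n Q →
      padicValNat 3 (classNo (K ⊔ Q)) ≤ C * (n + 1) ^ C := by
  have h0 : d ≠ 3 := by omega
  have hC : CaseI (pA d) (pB d) := by
    have h4 := absD_p d
    refine { cq_p hd with three := ?_, exc := ?_ }
    · unfold absD at h4
      split_ifs at h4 <;> omega
    · rintro ⟨h6, h5⟩
      unfold absD at h4
      rw [h6, h5] at h4
      split_ifs at h4 <;> omega
  refine to_weber hd h1 h0 (MUXC.c_TOR _ _ (cq_p hd)) ?_ K hK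
  intro F M K _ hF h a hT hGal ha hK
  exact z_main3 _ _ hC F M K hF h a hT hGal ha hK

end Pool.Agent.NSZ
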