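import Pool.Agent.NS.StIR
import Pool.Agent.NS.ZL
import Pool.Agent.MUX.StYR
import Pool.Agent.MUX.StJG

/-!
# MUX-NS, ramified case (helper87): the inputs of block J, `3 = P²`

Model: `Pool/Agent/MUX/Z_INP.lean` (helper3), `Pool/Agent/N2/I_INPG.lean` (helper36).
-/

set_option autoImplicit false

open NumberField IsDedekindDomain

namespace Pool.Agent.NSIR

open _root_.MU3 Pool.Agent.MU3 Pool.Agent.MU3A Pool.Agent.MU3B Pool.Agent.RI Pool.Agent.RID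
  Pool.Agent.MUX Pool.Agent.MUXK Pool.Agent.MUXJ Pool.Agent.MUXW Pool.Agent.MUXZ Pool.Agent.NSI
  Pool.Agent.NSZ Pool.Agent.NSRD
open Pool.Agent.MU3V (Sub GD)

noncomputable section

lemma setL_R {A B : ℤ} {P : Ideal (OO A B)} {V : ValuationSubring ℂ} {f : ℕ}
    (h : SetR A B P V f) : SetL 3 A B f :=
  ⟨h.case.toCQ, Or.inr rfl, h.f0, h.fp⟩

/-- the inputs of block J for `3` ramified -/
def Sp_INPG : Prop :=
  ∀ (A B : ℤ) (P : Ideal (OO A B)) (V : ValuationSubring ℂ), CaseR A B → IsPN 3 P → OverI V P →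
    TorX A B → InpG 3 (2 * ((absD A B).toNat / 3)) A B V

/-- the input of block IR for the norm to any field `D ≤ RF (lvR P f n)` -/
theorem eInpR (hME : Sy_MEM) (hCX : Sy_CXW) (hEF : Sq_EFIN)
    {A B : ℤ} {P : Ideal (OO A B)} {V : ValuationSubring ℂ} {f : ℕ}
    (hS : SetR A B P V f) (hT : TorX A B) (hLV : Zl_LVX)
    {ι : Type} [Fintype ι] (R : Reps A B (3 * f) ι) {u e lam : ℂ}
    (hG : GoodR V (R.L R.i0) u e lam) {H : ι → Finset ℂ}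
    {θ : ∀ n : ℕ, (RF (idl (A := A) (B := B) (lvX 3 f n)) : IntermediateField (kk A B) ℂ)}
    (hth : ThN 3 f R H θ) (n : ℕ) (hn : 1 ≤ n) (D : IntermediateField ℚ ℂ) (h : kk A B ≤ D)
    (hD : ∀ y ∈ D, y ∈ RF (idl (A := A) (B := B) (lvX 3 f n)))
    (hDR : ∀ y ∈ D, y ∈ RF (lvR P f n))
    (hDc : ∀ σ : ℂ ≃+* ℂ, FixK A B σ → (∀ y ∈ RF (idl (A := A) (B := B) (3 * f)), σ y = y) →
      (∀ z : ℂ, z ^ 3 ^ (n + 1) = 1 → σ z = z) → ∀ y ∈ D, σ y = y) :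
    EInpR P V f R u n h (fun τ => cWt h (θ n) τ) := by
  obtain ⟨hl0, _, _, hl2, hlu, hodd, hac, _, _, hcop⟩ := hLV 3 A B f (setL_R hS) n
  have hb : (idl (A := A) (B := B) (lvX 3 f n)) ≠ ⊥ := by
    intro hh
    apply hl0
    have := (Ideal.span_singleton_eq_bot.mp hh)
    exact_mod_cast (by
      have h1 := congrArg (fun x : OO A B => x.re) this
      simpa using h1 : ((lvX 3 f n : ℕ) : ℤ) = 0)
  have := hT.fin _ hb
  have := hT.gal _ hb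
  obtain ⟨h1, h2, h3, h4, h5⟩ := hME A B _ (hT.fin _ hb) (hT.gal _ hb) (hT.comm _ hb) D h hD (θ n)
    (hth.ne n)
  let := algC h
  have hconj : ∀ τ : D ≃ₐ[kk A B] D, ∃ y : D, (y : ℂ) = cWt h (θ n) 1 ∧
      ((τ y : D) : ℂ) = cWt h (θ n) τ := by
    intro τ
    refine ⟨⟨cWt h (θ n) 1, (h2 1).1⟩, rfl, ?_⟩
    have hm : cW h (θ n) ∈ D := by rw [h1]; exact (h2 1).1
    have := h3 τ hm
    have he : (⟨cWt h (θ n) 1, (h2 1).1⟩ : D) = ⟨cW h (θ n), hm⟩ := Subtype.ext h1.symm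
    rw [he]; exact this
  have hsq : ∀ τ : D ≃ₐ[kk A B] D, cX R (lvX 3 f n) H h τ = cWt h (θ n) τ ^ 2 :=
    hCX A B hS.case.toCQ hT (3 * f) ι R (lvX 3 f n) hl0
      (fun i => hcop _ (R.cop i)) hl2 (aX 3 f) H (by unfold aX; omega) hac hth.half (θ n)
      (hth.pt n) D h hD
  refine ⟨(h2 1).2, hconj, ?_⟩
  intro g hg τ'
  refine hEF A B P V f hS hT ι R u e lam hG n hn H hth.half D h hDR hDc ?_ g ?_ τ'
  · intro τ
    obtain ⟨y, hy1, hy2⟩ := hconj τ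
    refine ⟨y ^ 2, ?_, ?_⟩
    · rw [hsq 1, ← hy1]
      rfl
    · rw [hsq τ, ← hy2, map_pow]
      rfl
  · obtain ⟨y, hy, hyp⟩ := hg
    refine ⟨y ^ 2, D.pow_mem hy 2, ?_⟩
    have hfin : Finite (D ≃ₐ[kk A B] D) := by
      choose s hs using h4
      refine Finite.of_injective s ?_
      intro τ τ' e
      apply AlgEquiv.ext
      intro z
      refine Subtype.ext ((hs τ z (hD z z.2)).symm.trans ?_)
      rw [e]
      exact hs τ' z (hD z z.2)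
    have e1 : (y ^ 2) ^ 3 = (y ^ 3) ^ 2 := by ring
    refine e1.trans ?_
    rw [hyp, finprod_pow (Set.toFinite _)]
    refine finprod_congr fun τ => ?_
    rw [hsq τ, ← zpow_natCast, ← zpow_natCast, ← zpow_mul, ← zpow_mul, mul_comm]

/-- the inputs of block J -/
theorem tp_INPG (hRF : Sq_RFIN) (hEF : Sq_EFIN) (hINP : Sp_INP) (hSUR : Sp_SUB) (hLV : Zl_LVX)
    (hIW : Zl_INW) (hSUB : Sn_SUB) (hTH : Sz_THN) (hME : Sy_MEM) (hCX : Sy_CXW)
    (hRX : MUXY.Sy_REX) : Sp_INPG := by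
  intro A B P V hC hP hV hT f hf0 hfp hfd K₀ K Bn _ _ _ hX hK hH hk hk₀ hkK
  have hCQ : CQ A B := hC.toCQ
  have hpos : 0 < absD A B := by
    have := hCQ.neg
    unfold absD
    omega
  have h3D : (3 : ℤ) ∣ absD A B := by
    unfold absD
    exact (dvd_neg).mpr hC.three
  have hS : SetR A B P V f := by
    refine ⟨hC, hP, hV, hf0, hfp, ?_⟩
    obtain ⟨c, hc⟩ := hfd
    obtain ⟨D', hD'⟩ := h3D
    have h1 : (absD A B).toNat / 3 = D'.toNat := by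
      rw [hD']
      have : 0 ≤ D' := by omega
      omega
    rw [h1] at hc
    refine ⟨c, ?_⟩
    rw [hc, hD']
    push_cast
    rw [Int.toNat_of_nonneg (by omega)]
    ring
  have hL : SetL 3 A B f := setL_R hS
  have : Fact (Nat.Prime 3) := ⟨Nat.prime_three⟩
  have hd3 : absD A B ≠ 3 := by
    intro h
    apply hC.exc
    rcases hCQ.hB with h0 | h1
    · exfalso
      unfold absD at h
      rw [h0] at h
      omega
    · refine ⟨h1, ?_⟩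
      unfold absD at h
      rw [h1] at h
      omega
  have hd4 : absD A B ≠ 4 := by
    intro h
    rw [h] at h3D
    omega
  obtain ⟨ι, hι, ⟨R⟩⟩ := hRX A B hCQ hd3 hd4 (3 * f) (Nat.mul_ne_zero three_ne_zero hf0)
  have hodd := (hLV 3 A B f hL 0).2.2.2.2.2.1
  obtain ⟨H, hHalf, hθ⟩ := hTH A B hCQ hT (3 * f) ι R (aX 3 f) hodd
  have hθ' : ∀ n : ℕ, ∃ θ : (RF (idl (A := A) (B := B) (lvX 3 f n)) :
      IntermediateField (kk A B) ℂ),
      (θ : ℂ) = ThetaH (R.L R.i0) (H R.i0) (pt R (lvX 3 f n) R.i0 1) ∧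
      (θ : ℂ) = ThetaH (R.L R.i0) (H R.i0) (R.om R.i0 / emb ((lvX 3 f n : ℕ) : OO A B)) ∧
      θ ≠ 0 := fun n =>
    hθ (lvX 3 f n) (hLV 3 A B f hL n).1 (hLV 3 A B f hL n).2.2.2.2.1
      (hLV 3 A B f hL n).2.2.2.2.2.2.1
  choose θ hθ1 hθ2 hθ3 using hθ'
  have hth : ThN 3 f R H θ := ⟨hHalf, hθ1, hθ2, hθ3⟩
  obtain ⟨S, hW⟩ := hIW 3 A B f hL hT ι R H θ hth K₀ K Bn hX hK hH hk hk₀
  obtain ⟨u, e, lam, hG, -, -, -⟩ := (hRF A B P V hC hP hV hT).1 _ _ _ (R.nl R.i0)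
  have hNL : ∃ (b : Ideal (OO A B)) (L : PeriodPair) (om : ℂ), IsNL b L om :=
    ⟨_, _, _, R.nl R.i0⟩
  have hK₀ : ∀ y ∈ K₀, y ∈ RF (idl (A := A) (B := B) (lvX 3 f 0)) := fun y hy => hK y (hX.le hy)
  have hlv0 : lvX 3 f 0 = 3 * f := by
    unfold lvX
    simp [q0, mul_comm]
  have hK₀' : ∀ y ∈ K₀, y ∈ RF (idl (A := A) (B := B) (3 * f)) := by
    rw [← hlv0]; exact hK₀
  have hDn : ∀ n, ∀ y ∈ K₀ ⊔ Bn n, y ∈ RF (idl (A := A) (B := B) (lvX 3 f n)) := fun n =>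
    hSUB 3 A B f hL hT hNL K₀ hK₀ n (Bn n) (hX.b0.lay n)
  refine ⟨S, fun n => cW (hk n) (θ n), fun n => cW (hk₀ n) (θ n), 0, ?_⟩
  refine hINP A B P V f hS hT ι R u e lam hG K₀ K Bn hX hK₀ hk hk₀ hkK S _ _ 0 hW
    (fun n τ => cWt (hk₀ n) (θ n) τ) (fun n hn => ?_) (fun n hn => ?_)
  · obtain ⟨hS1, hS2⟩ := hSUR A B P V f hS hT hNL K₀ hK₀' n (Bn n) hn (hX.b0.lay n)
    exact eInpR hME hCX hEF hS hT hLV R hG hth n hn (K₀ ⊔ Bn n) (hk₀ n) (hDn n) hS1 hS2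
  · have hb : (idl (A := A) (B := B) (lvX 3 f n)) ≠ ⊥ := by
      intro hh
      apply (hLV 3 A B f hL n).1
      have := (Ideal.span_singleton_eq_bot.mp hh)
      exact_mod_cast (by
        have h1 := congrArg (fun x : OO A B => x.re) this
        simpa using h1 : ((lvX 3 f n : ℕ) : ℤ) = 0)
    exact (hME A B _ (hT.fin _ hb) (hT.gal _ hb) (hT.comm _ hb) _ (hk₀ n) (hDn n) (θ n)
      (hth.ne n)).1

end

end Pool.Agent.NSIR
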