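import Pool.Agent.NS.ZR_INPG
import Pool.Agent.NS.ZR_VEX
import Pool.Agent.NS.HGRAll
import Pool.Agent.NS.ZInert3
import Pool.Agent.NS.FAll
import Pool.Agent.MUX.WAll

/-!
# MUX-NS: the final theorem for `p = 3` ramified in `k`, `D ≠ -3` (helper87). Model: `NS/ZInert3.lean` (helper6)
-/

set_option autoImplicit false

open NumberField IsDedekindDomain

namespace Pool.Agent.NSZ

open _root_.MU3 Pool.Agent.MU3 Pool.Agent.MU3A Pool.Agent.MU3B Pool.Agent.RI Pool.Agent.RID
  Pool.Agent.MUX Pool.Agent.MUXK Pool.Agent.MUXJ Pool.Agent.MUXW Pool.Agent.MUXZ Pool.Agent.NSI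
  Pool.Agent.NS Pool.Agent.MU3Z Pool.Agent.NSRD Pool.Agent.NSIR

/-- the inputs of block J -/
theorem r_INPG : Sp_INPG :=
  tp_INPG rfinr Pool.Agent.NSER.efinr q_INP p_SUB tl_LVX
    (tl_INW tl_LVX n_SUB z_MEM z_TOW z_SUC z_I1 z_KOL) n_SUB (tz_THN z_THG) z_MEM y_CXW
    MUXY.z_REX

/-- THE MAIN THEOREM, `3` ramified -/
theorem z_main3r (A B : ℤ) (hC : CaseR A B)
    (F M K : IntermediateField ℚ ℂ) [FiniteDimensional ℚ M] (hF : kk A B ≤ F) (h : F ≤ M)
    (a : ℕ) (hT : TorU A B F) (hGal : IsGalois F (IntermediateField.extendScalars h))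
    (ha : Module.finrank F (IntermediateField.extendScalars h) = 3 ^ a) (hK : K ≤ M) :
    ∃ C : ℕ, ∀ (n : ℕ) (Q : IntermediateField ℚ ℂ), IsLayer 3 n Q →
      padicValNat 3 (classNo (K ⊔ Q)) ≤ C * (n + 1) ^ C := by
  have : Fact (Nat.Prime 3) := ⟨Nat.prime_three⟩
  have hCQ : MUX.CQ A B := hC.toCQ
  obtain ⟨P, V, hP, hV, h3V⟩ := vexR A B hC
  have hTor := MUXC.c_TOR A B hCQ
  have hpos : 0 < absD A B := by
    have := hCQ.neg
    unfold absD
    omega
  have h3 := hC.three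
  have h3D : (3 : ℤ) ∣ absD A B := by
    unfold absD
    exact (dvd_neg).mpr h3
  have hn9 : ¬ (9 : ℤ) ∣ absD A B := by
    have hnu : ¬ IsUnit (3 : ℤ) := by decide
    intro h
    unfold absD at h
    rcases hCQ.hB with hB | hB
    · have hsq := (hCQ.fund0 hB).1
      rw [hB] at h
      exact hnu (hsq 3 (by omega))
    · have hsq := hCQ.fund1 hB
      rw [hB] at h
      exact hnu (hsq 3 (by omega))
  have hd3 : absD A B ≠ 3 := by
    intro h
    apply hC.exc
    unfold absD at h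
    rcases hCQ.hB with hB | hB
    · rw [hB] at h
      omega
    · refine ⟨hB, ?_⟩
      rw [hB] at h
      omega
  have hd4 : absD A B ≠ 4 := by
    intro h
    rw [h] at h3D
    omega
  have hNL : NLex A B := by
    obtain ⟨L, om, hL⟩ := MUXY.z_NLE A B hCQ hd3 hd4 ⊤ (by
      have := (MUXE.xe_RNG A B hCQ).ded
      exact bot_ne_top.symm)
    exact ⟨⊤, L, om, hL⟩
  have hU : UnrH A B V := unhR rfinr hC hP hV hTor
  refine j_FING 3 2 (2 * ((absD A B).toNat / 3)) A B P V (aboR hC hP hV h3V) (by omega) ?_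
    (fun _ => dvd_mul_right 2 _) hU hTor hNL (r_INPG A B P V hC hP hV hTor) F M K hF h a
    hT hGal ha hK
  intro h4
  omega

/-- every finite extension of `ℚ` inside the maximal abelian extension of `ℚ(√-d)`, `3 ∣ d`, `d ≠ 3` -/
theorem final3r (d : ℕ) (hd : Squarefree d) (h3 : 3 ∣ d) (hd3 : d ≠ 3)
    (K : IntermediateField ℚ ℂ) [FiniteDimensional ℚ K] (hK : K ≤ weberField d) :
    ∃ C : ℕ, ∀ (n : ℕ) (Q : IntermediateField ℚ ℂ), IsLayer 3 n Q →
      padicValNat 3 (classNo (K ⊔ Q)) ≤ C * (n + 1) ^ C := by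
  have h1 : d ≠ 1 := by omega
  have hC : CaseR (pA d) (pB d) := by
    have h4 := absD_p d
    refine { cq_p hd with three := ?_, exc := ?_ }
    · unfold absD at h4
      split_ifs at h4 <;> omega
    · rintro ⟨h6, h5⟩
      unfold absD at h4
      rw [h6, h5] at h4
      split_ifs at h4 <;> omega
  refine to_weber hd h1 hd3 (MUXC.c_TOR _ _ (cq_p hd)) ?_ K hK
  intro F M K _ hF h a hT hGal ha hK
  exact z_main3r _ _ hC F M K hF h a hT hGal ha hK

end Pool.Agent.NSZ
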